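import Pool.Agent.MP42.PD.Out8

/-!
# Soundness of connected stack structures, final form (owner helper55)
-/

set_option autoImplicit false
set_option linter.unusedSectionVars false

namespace Pool.Agent.MP42.PD

open Pool.Agent.MP42.U

variable {C J α : Type*} [LinearOrder α] [Fintype J]

namespace Lc

variable {A : Lc C J α} [Fintype C]

lemma us_mem {i : α ⊕ C} : A.Us i ↔ ∀ p, i = Sum.inl p → ∃ j, p = A.L.S.y j ∨ p = A.L.S.port A.x j := by
  unfold Us
  constructor
  · intro h p hp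
    rcases A.mem_used.1 (h p hp) with ⟨j, h⟩ | ⟨j, h⟩
    · exact ⟨j, Or.inl h⟩
    · exact ⟨j, Or.inr h⟩
  · intro h p hp
    obtain ⟨j, h | h⟩ := h p hp
    · exact A.mem_used.2 (Or.inl ⟨j, h⟩)
    · exact A.mem_used.2 (Or.inr ⟨j, h⟩)

lemma mem_rd {z : C} {i : α ⊕ C} (hU : A.Us i) : i ∈ A.L.rd z ↔
    A.L.Ct.host i = z ∧ i ≠ Sum.inr A.L.Ct.r ∧ ∀ g, A.tp = some g → i ≠ .inr g := by
  rw [A.L.mem]
  constructor
  · rintro ⟨-, h2, h3⟩
    refine ⟨h3, ?_, ?_⟩
    · intro h
      exact h2 _ h ((A.hsp _).2 (Or.inl rfl))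
    · intro g hg h
      exact h2 _ h ((A.hsp _).2 (Or.inr hg))
  · rintro ⟨h1, h2, h3⟩
    refine ⟨?_, ?_, h1⟩
    · intro p hp
      obtain ⟨j, h | h⟩ := us_mem.1 hU p hp
      · exact ⟨j, .y, h⟩
      · rcases A.L.S.port_eq A.x j with h' | h'
        · exact ⟨j, .a, by rw [h, h']; rfl⟩
        · exact ⟨j, .b, by rw [h, h']; rfl⟩
    · intro c hc hs
      rcases (A.hsp c).1 hs with h | h
      · exact h2 (by rw [hc, h])
      · exact h3 c h hc

lemma mem_rd' (z : C) (i : α ⊕ C) : i ∈ A.rd' z ↔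
    (∀ p, i = Sum.inl p → ∃ j, p = A.L.S.y j ∨ p = A.L.S.port A.x j) ∧ A.L.Ct.host i = z ∧
      i ≠ Sum.inr A.L.Ct.r := by
  classical
  rw [← us_mem]
  by_cases hU : A.Us i
  · by_cases hz : z = A.r
    · subst hz
      rcases htp : A.tp with _ | g
      · rw [rd'_root htp, List.mem_filter, mem_rd hU, htp]
        simp [hU]
      · rw [rd'_top htp, List.mem_append, List.mem_filter, mem_rd hU, htp, List.mem_singleton]
        constructor
        · rintro (⟨⟨h1, h2, -⟩, -⟩ | h)
          · exact ⟨hU, h1, h2⟩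
          · subst h
            exact ⟨hU, tp_par htp, fun h => A.htp g htp (Sum.inr_injective h)⟩
        · rintro ⟨-, h1, h2⟩
          by_cases hig : i = .inr g
          · exact Or.inr hig
          · refine Or.inl ⟨⟨h1, h2, ?_⟩, by simp [hU]⟩
            intro g' hg'
            cases hg'
            exact hig
    · rw [rd'_ne hz, List.mem_filter, mem_rd hU]
      constructor
      · rintro ⟨⟨h1, h2, -⟩, -⟩
        exact ⟨hU, h1, h2⟩
      · rintro ⟨-, h1, h2⟩
        refine ⟨⟨h1, h2, ?_⟩, by simp [hU]⟩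
        rintro g hg rfl
        exact hz (by rw [← h1]; exact tp_par hg)
  · have h0 : ∀ p, i = .inl p → True := fun _ _ => trivial
    have hr : ¬ (A.Us i ∧ A.L.Ct.host i = z ∧ i ≠ Sum.inr A.L.Ct.r) := fun h => hU h.1
    refine iff_of_false ?_ hr
    intro h
    unfold rd' at h
    rcases List.mem_append.1 h with h | h
    · have := (List.mem_filter.1 h).2
      simp [hU] at this
    · split_ifs at h
      · rcases htp : A.tp with _ | g
        · rw [htp] at h; simp at h
        · rw [htp] at h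
          have h : i = .inr g := by simpa using h
          apply hU
          intro p hp
          rw [h] at hp
          cases hp
      · simp at h

lemma pw_rd' (z : C) : (A.rd' z).Pairwise fun i i' =>
    (A.L.cls z → A.L.Ct.ihi i < A.L.Ct.ilo i') ∧ (¬ A.L.cls z → A.L.Ct.ihi i' < A.L.Ct.ilo i) := by
  classical
  have hf : ((A.L.rd z).filter (fun i => A.Us i)).Pairwise fun i i' =>
    (A.L.cls z → A.L.Ct.ihi i < A.L.Ct.ilo i') ∧ (¬ A.L.cls z → A.L.Ct.ihi i' < A.L.Ct.ilo i) :=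
    (A.L.pw z).filter _
  by_cases hz : z = A.r
  · subst hz
    rcases htp : A.tp with _ | g
    · rw [rd'_root htp]; exact hf
    · rw [rd'_top htp]
      refine List.pairwise_append.2 ⟨hf, List.pairwise_singleton _ _, ?_⟩
      intro i hi i' hi'
      have hi' : i' = .inr g := by simpa using hi'
      subst hi'
      have hi := (List.mem_filter.1 hi).1
      have h1 := (A.L.mem _ _).1 hi
      obtain ⟨-, -, h2⟩ := A.L.sp_c g ((A.hsp g).2 (Or.inr htp)) (A.htp g htp)
      refine h2 i h1.2.2 ?_ ?_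
      · intro h
        exact h1.2.1 g h ((A.hsp g).2 (Or.inr htp))
      · intro h
        exact h1.2.1 _ h ((A.hsp _).2 (Or.inl rfl))
  · rw [rd'_ne hz]; exact hf

end Lc

variable [Fintype C]

/-- **soundness at a closed level** -/
theorem sound_closed (L : Lv C J α) {K : ℕ} (hK : 3 ≤ K) (hK6 : K ≤ 6) {x : J → Bool}
    (hsp : ∀ z, L.sp z ↔ z = L.Ct.r) (hD : L.Dom K x) (hC : L.Conn K x) (real : C → Prop) :
    Nonempty (GZ.LSolX L.Ct L.cls real (fun _ => False) L.S.y (L.S.port x)) := by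
  obtain ⟨A, hA⟩ : ∃ A : Lc C J α, A = ⟨L, x, none, by simpa using hsp, by simp⟩ := ⟨_, rfl⟩
  have eL : A.L = L := by rw [hA]
  have ex : A.x = x := by rw [hA]
  have et : A.tp = none := by rw [hA]
  subst eL ex
  obtain ⟨lk, lt, h1, h2, h3, h4, h5, h6, h7⟩ := A.main hK hK6 hC hD (by rw [et]; simp)
  refine ⟨⟨⟨A.rd', Lc.pw_rd', Lc.mem_rd'⟩, lk, lt, h1, ?_, h3 et, ?_, h6, ?_⟩⟩
  · intro c hc
    have := h2 c hc
    rw [et] at this
    cases this
  · intro z
    have := h5 z
    rwa [if_neg (by rw [et]; simp)] at this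
  · intro V hy _ hcl
    exact h7 V hy hcl

/-- **soundness at the top level** -/
theorem sound_top (L : Lv C J α) {K : ℕ} (hK : 3 ≤ K) (hK6 : K ≤ 6) {x : J → Bool} (g1 : C)
    (hg : g1 ≠ L.Ct.r) (hsp : ∀ z, L.sp z ↔ z = L.Ct.r ∨ z = g1) (hcp : L.cp L.Ct.r = 0)
    (hD : L.Dom K x) (hC : L.Conn K x) (real : C → Prop) :
    Nonempty (GZ.RSolX L.Ct L.cls real (fun _ => False) L.S.y (L.S.port x) g1) := by
  obtain ⟨A, hA⟩ : ∃ A : Lc C J α, A = ⟨L, x, some g1, by
    intro z
    rw [hsp]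
    constructor
    · rintro (h | h)
      · exact Or.inl h
      · exact Or.inr (by rw [h])
    · rintro (h | h)
      · exact Or.inl h
      · exact Or.inr (by cases h; rfl), by
    intro g h
    cases h
    exact hg⟩ := ⟨_, rfl⟩
  have eL : A.L = L := by rw [hA]
  have ex : A.x = x := by rw [hA]
  have et : A.tp = some g1 := by rw [hA]
  subst eL ex
  obtain ⟨lk, lt, h1, h2, h3, h4, h5, h6, h7⟩ := A.main hK hK6 hC hD (fun _ _ => hcp)
  obtain ⟨h8, h9⟩ := h4 g1 et
  refine ⟨⟨⟨A.rd', Lc.pw_rd', Lc.mem_rd'⟩, lk, lt, h1, ⟨h8, not_false⟩, ⟨h9, not_false⟩, ?_, ?_, h6,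
    ?_⟩⟩
  · intro c hc
    have := h2 c hc
    rw [et] at this
    cases this
    exact ⟨hg, not_false, Or.inr rfl⟩
  · intro z
    have := h5 z
    constructor
    · intro hz
      rwa [if_pos ⟨hz, by rw [et]; simp⟩] at this
    · intro hz
      rwa [if_neg (fun h => hz h.1)] at this
  · intro V hy _ hcl
    exact h7 V hy hcl

end Pool.Agent.MP42.PD
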