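import Pool.Agent.MP42.PD.Defs
import Pool.Agent.MP42.U.SU

/-!
# The interface of the circle lemmas (owner helper55)

`Pl T`: the places `0 .. n-1` of one circle with tokens of type `T`.  `Pl.W s` = the lettered word of
the items (without the own tokens), `s` = letters of the unit places.  `Pl.M K V a`: the values of `V` are
compatible with the cells (own link of value `a`).  `Pl.C1 ..`: the circle lemmas.
-/

set_option autoImplicit false

namespace Pool.Agent.MP42.PD

open Pool.Agent.MP42.U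

/-- the places of a circle with their tokens -/
structure Pl (T : Type*) where
  /-- number of places -/
  n : ℕ
  /-- the word -/
  w : ℕ → Lt
  /-- even children -/
  rid : ℕ → Prop
  rid_z : ∀ t, rid t → w t = .z
  /-- token of a port or unit -/
  tk : ℕ → T
  /-- lane of an even child which is read first -/
  ra : ℕ → T
  /-- lane of an even child which is read second -/
  rb : ℕ → T

namespace Pl

variable {T : Type*} (P : Pl T)

open Classical in
/-- the letters of a place -/
noncomputable def lt (s : ℕ → Bool) (t : ℕ) : List (Bool × T) :=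
  match P.w t with
  | .o => [(true, P.tk t)]
  | .u => [(s t, P.tk t)]
  | .z => if P.rid t then [(true, P.ra t), (false, P.rb t)] else []

/-- the word of the items -/
noncomputable def W (s : ℕ → Bool) : List (Bool × T) := (List.range P.n).flatMap (P.lt s)

/-- the value of a place -/
def vt (V : T → B) (t : ℕ) : B :=
  match P.w t with
  | .z => V (P.ra t)
  | _ => V (P.tk t)

/-- the scalar product over the ports and units -/
def ss (V V' : T → B) : B :=
  ∑ t ∈ (Finset.range P.n).filter fun t => P.w t ≠ .z, V (P.tk t) * V' (P.tk t)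

/-- both lanes of every even child have the same value -/
def Eq (V : T → B) : Prop := ∀ t < P.n, P.rid t → V (P.ra t) = V (P.rb t)

/-- the values are compatible with the cells -/
def M (K : ℕ) (V : T → B) (a : B) : Prop :=
  ∃ e, WOk K P.w P.n (P.vt V) a e ∧ WRd K P.w P.n P.rid (P.vt V) e

/-- number of left overs -/
noncomputable def lam (K : ℕ) : ℕ := (lo K P.w P.n).card

/-- bounded partial sums -/
def Bdd (D : ℤ) (w : List (Bool × T)) : Prop := ∀ p q, w = p ++ q → -D ≤ hl p ∧ hl p ≤ D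

/-- number of ports and units -/
def nod : ℕ := ((Finset.range P.n).filter fun t => P.w t ≠ .z).card

/-- **single own link** -/
def C1 (K : ℕ) (D : ℤ) : Prop := P.lam K ≤ 2 → Odd P.nod → ∀ (l : T) (F : Set (T → B)),
  (∀ V ∈ F, P.Eq V) → (∀ V ∈ F, ∀ V' ∈ F, V l * V' l + P.ss V V' = 0) →
  ∃ s, hl (P.W s) = 1 ∧ Bdd D (P.W s) ∧
    ∀ V ∈ F, Cl V ((true, l) :: P.W s) → P.M K V (V l)

/-- **double own link** -/
def C2 (K : ℕ) (D : ℤ) : Prop := P.lam K ≤ 2 → Even P.nod → ∀ (l r : T) (F : Set (T → B)),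
  (∀ V ∈ F, P.Eq V) → (∀ V ∈ F, ∀ V' ∈ F, V l * V' l + V r * V' r + P.ss V V' = 0) →
  ∃ (s : ℕ → Bool) (d : Bool), (d = false → hl (P.W s) = 0) ∧ (d = true → hl (P.W s) = 2) ∧
    Bdd D (P.W s) ∧
    ∀ V ∈ F, (d = false → Cl V ((true, l) :: (P.W s ++ [(true, r)]))) →
      (d = true → V l = V r ∧ Cl V (P.W s)) → V r = V l ∧ P.M K V (V l)

/-- **root of a closed level** (also the last child of the root of the top level) -/
def C3 (K : ℕ) (D : ℤ) : Prop := P.lam K ≤ 1 → Even P.nod → ∀ (l r : T) (F : Set (T → B)),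
  (∀ V ∈ F, P.Eq V) → (∀ V ∈ F, V l = V r) → (∀ V ∈ F, ∀ V' ∈ F, P.ss V V' = 0) →
  ∃ s, hl (P.W s) = 0 ∧ Bdd D (P.W s) ∧
    ∀ V ∈ F, Cl V ((true, l) :: (P.W s ++ [(true, r)])) → P.M K V (V l)

/-- **root of the top level, single link to its last child** -/
def C4 (K : ℕ) (D : ℤ) : Prop := P.lam K = 0 → Odd P.nod → ∀ (g : T) (F : Set (T → B)),
  (∀ V ∈ F, P.Eq V) → (∀ V ∈ F, ∀ V' ∈ F, V g * V' g + P.ss V V' = 0) →
  ∃ s, hl (P.W s) = -1 ∧ Bdd D (P.W s) ∧
    ∀ V ∈ F, Cl V (P.W s ++ [(false, g)]) → P.M K V (V g)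

/-- **root of the top level, double link to its last child** -/
def C5 (K : ℕ) (D : ℤ) : Prop := P.lam K = 0 → Even P.nod → ∀ (g g' : T) (F : Set (T → B)),
  (∀ V ∈ F, P.Eq V) → (∀ V ∈ F, ∀ V' ∈ F, V g * V' g + V g' * V' g' + P.ss V V' = 0) →
  ∃ s, hl (P.W s) = 0 ∧ Bdd D (P.W s) ∧
    ∀ V ∈ F, Cl V (P.W s ++ [(false, g), (false, g')]) → V g' = V g ∧ P.M K V (V g)

end Pl

end Pool.Agent.MP42.PD
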