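import Pool.Agent.MP42.PD.Sel
import Pool.Agent.MP42.TQ.Hide

/-!
# The choice of the signs at the root of the top level (owner helper86)

The word of the root of the top level has the total `-2` and ends with the link to the last child:
one push `(false, g)` or two pushes `(false, g)`, `(false, g')`.  `nodeT1`, `nodeT2`: the node lemmas,
from `node1` by reversing the word; `selT1`, `selT2`: together with a list of nodes.
-/

set_option autoImplicit false

namespace Pool.Agent.MP42.PD

open U

variable {T : Type*}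

/-! ## Alternating words, reversed -/

lemma alt_append {s : T → Bool} {a b : List T} (ha : Alt s a) (hb : Alt s b) : Alt s (a ++ b) := by
  induction ha with
  | nil => exact hb
  | cons h _ ih => exact Alt.cons h ih

lemma alt_flip {s : T → Bool} {ms : List T} (h : Alt s ms) : Alt (fun t => !s t) ms := by
  induction h with
  | nil => exact Alt.nil
  | cons h _ ih => exact Alt.cons (by simp only [h]) ih

lemma alt_reverse {s : T → Bool} {ms : List T} (h : Alt s ms) : Alt s ms.reverse := by
  induction h with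
  | nil => exact Alt.nil
  | @cons a b t h _ ih =>
    have e : (a :: b :: t).reverse = t.reverse ++ [b, a] := by simp
    rw [e]
    exact alt_append ih (Alt.cons (by rw [h, Bool.not_not]) Alt.nil)

lemma lrev_ml (s : T → Bool) (ms : List T) : lrev (ml s ms) = ml (fun t => !s t) ms.reverse := by
  induction ms with
  | nil => rfl
  | cons t ms ih => rw [ml_cons, lrev_cons, ih, List.reverse_cons, ml_append]; rfl

lemma lrev_snd (w : List (Bool × T)) : (lrev w).map Prod.snd = (w.map Prod.snd).reverse := by
  induction w with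
  | nil => rfl
  | cons q w ih =>
    rw [lrev_cons, List.map_append, ih, List.map_cons (l := w), List.reverse_cons]
    rfl

lemma sp_perm' {V V' : T → B} {l l' : List T} (h : l.Perm l') : sp V V' l = sp V V' l' :=
  (h.map _).sum_eq

/-- the scalar product of two solutions over a closed walk of height `-2` -/
lemma cl_par' {V V' : T → B} {w : List (Bool × T)} (hh : hl w = -2) (h : Cl V w) (h' : Cl V' w) :
    sp V V' (w.map Prod.snd) = 0 := by
  have h1 := Cl.par (w := lrev w) (by rw [hl_lrev, hh]; norm_num) h.lrev h'.lrev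
  rw [lrev_snd, sp_perm' (List.reverse_perm _)] at h1
  exact h1

/-! ## One own link -/

/-- the word of the top node with one link -/
def wt1 (s : T → Bool) (us : List T) (g : T) : List (Bool × T) := ml s us ++ [(false, g)]

lemma wt1_hl {s : T → Bool} {us : List T} {g : T} (h : AltR s us) : hl (wt1 s us g) = -2 := by
  unfold wt1
  rw [hl_append, altR_hl h]
  simp

lemma wt1_snd (s : T → Bool) (us : List T) (g : T) : (wt1 s us g).map Prod.snd = us ++ [g] := by
  unfold wt1
  rw [List.map_append, ml_snd]
  rfl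

/-- **the top node, one link** -/
theorem nodeT1 {us : List T} {g : T} (hn : us.Nodup) (hus : Odd us.length)
    {F : Set (T → B)} (hF : ∀ V ∈ F, ∀ V' ∈ F, sp V V' (us ++ [g]) = 0) :
    ∃ s : T → Bool, AltR s us ∧ ∀ V ∈ F, Cl V (wt1 s us g) → ∀ u ∈ us, V u = V g := by
  classical
  obtain ⟨f, ms, rfl⟩ : ∃ f ms, us = f :: ms := by
    cases us with
    | nil => simp at hus
    | cons f ms => exact ⟨f, ms, rfl⟩
  have hms : Even ms.length := by
    rw [List.length_cons] at hus
    obtain ⟨k, hk⟩ := hus
    exact ⟨k, by omega⟩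
  obtain ⟨hf, hn'⟩ := List.nodup_cons.1 hn
  obtain ⟨s', h1, h2⟩ := node1 (L := g) (z := f) (ms := ms.reverse) (F := F)
    (List.nodup_reverse.2 hn') (by rw [List.length_reverse]; exact hms) (by
      intro V hV V' hV'
      have h3 := hF V hV V' hV'
      have hp : (g :: (ms.reverse ++ [f])).Perm (f :: ms ++ [g]) := by
        have e1 : (g :: (ms.reverse ++ [f])) = (f :: ms ++ [g]).reverse := by simp
        rw [e1]
        exact List.reverse_perm _
      rw [sp_perm' hp]
      exact h3)
  set s : T → Bool := fun t => if t = f then false else !s' t with hs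
  have hsm : ∀ t ∈ ms, s t = !s' t := by
    intro t ht
    have : t ≠ f := by rintro rfl; exact hf ht
    simp [hs, this]
  refine ⟨s, ⟨f, ms, rfl, by simp [hs], ?_⟩, ?_⟩
  · have h3 := alt_flip (alt_reverse h1)
    rw [List.reverse_reverse] at h3
    exact alt_congr (fun t ht => (hsm t ht).symm) h3
  · intro V hV hC
    have h3 : lrev (wt1 s (f :: ms) g) = wn s' g ms.reverse f := by
      unfold wt1 wn
      rw [lrev_append, lrev_ml, List.reverse_cons, ml_append]
      have e : ml (fun t => !s t) ms.reverse = ml s' ms.reverse :=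
        ml_congr fun t ht => by
          rw [hsm t (List.mem_reverse.1 ht), Bool.not_not]
      rw [e]
      simp [ml, hs]
    obtain ⟨h4, h5⟩ := h2 V hV (by rw [← h3]; exact hC.lrev)
    intro u hu
    rcases List.mem_cons.1 hu with rfl | hu
    · exact h4
    · exact h5 u (List.mem_reverse.2 hu)

/-- **the top node, one link** -/
def ndT1 (us : List T) (g : T) (hn : us.Nodup) (hus : Odd us.length) : Nd T where
  tok := us ++ [g]
  C s := AltR s us
  N s V := Cl V (wt1 s us g)
  M V := ∀ u ∈ us, V u = V g
  H _ := True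
  locC s s' h := altR_congr fun t ht => h t (by simp [ht])
  locN s s' h V hN := by
    have e : wt1 s us g = wt1 s' us g := by
      unfold wt1
      rw [ml_congr fun t ht => h t (by simp [ht])]
    rwa [← e]
  orN s V V' hC h h' := by
    have := cl_par' (wt1_hl hC) h h'
    rwa [wt1_snd] at this
  orM V V' h h' := by
    have h1 := sp_on V V' (V g) (V' g) (us ++ [g]) (by
      intro u hu
      rcases List.mem_append.1 hu with hu | hu
      · exact h u hu
      · rw [List.mem_singleton.1 hu]) (by
      intro u hu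
      rcases List.mem_append.1 hu with hu | hu
      · exact h' u hu
      · rw [List.mem_singleton.1 hu])
    rw [h1, even_b, zero_mul]
    rw [List.length_append, List.length_singleton]
    exact hus.add_one
  sel F _ hF := nodeT1 hn hus hF

/-! ## Two own links -/

/-- the word of the top node with two links, rotated -/
def wt2 (s : T → Bool) (us : List T) (g g' : T) : List (Bool × T) :=
  (false, g') :: (ml s us ++ [(false, g)])

lemma wt2_hl {s : T → Bool} {us : List T} {g g' : T} (h : Alt s us) : hl (wt2 s us g g') = -2 := by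
  unfold wt2
  rw [hl_cons, hl_append, alt_hl h]
  simp

lemma wt2_snd (s : T → Bool) (us : List T) (g g' : T) :
    (wt2 s us g g').map Prod.snd = g' :: (us ++ [g]) := by
  unfold wt2
  rw [List.map_cons, List.map_append, ml_snd]
  rfl

/-- **the top node, two links** -/
theorem nodeT2 {us : List T} {g g' : T} (hn : us.Nodup) (hus : Even us.length)
    {F : Set (T → B)} (hF : ∀ V ∈ F, ∀ V' ∈ F, sp V V' (g' :: (us ++ [g])) = 0) :
    ∃ s : T → Bool, Alt s us ∧ ∀ V ∈ F, Cl V (wt2 s us g g') →
      V g' = V g ∧ ∀ u ∈ us, V u = V g := by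
  obtain ⟨s', h1, h2⟩ := node1 (L := g) (z := g') (ms := us.reverse) (F := F)
    (List.nodup_reverse.2 hn) (by rw [List.length_reverse]; exact hus) (by
      intro V hV V' hV'
      have h3 := hF V hV V' hV'
      have hp : (g :: (us.reverse ++ [g'])).Perm (g' :: (us ++ [g])) := by
        have e1 : (g :: (us.reverse ++ [g'])) = (g' :: (us ++ [g])).reverse := by simp
        rw [e1]
        exact List.reverse_perm _
      rw [sp_perm' hp]
      exact h3)
  refine ⟨fun t => !s' t, ?_, ?_⟩
  · have h3 := alt_flip (alt_reverse h1)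
    rwa [List.reverse_reverse] at h3
  · intro V hV hC
    have h3 : lrev (wt2 (fun t => !s' t) us g g') = wn s' g us.reverse g' := by
      unfold wt2 wn
      rw [lrev_cons, lrev_append, lrev_ml]
      simp
    obtain ⟨h4, h5⟩ := h2 V hV (by rw [← h3]; exact hC.lrev)
    exact ⟨h4, fun u hu => h5 u (List.mem_reverse.2 hu)⟩

/-- **the top node, two links** -/
def ndT2 (us : List T) (g g' : T) (hn : us.Nodup) (hus : Even us.length) : Nd T where
  tok := g' :: (us ++ [g])
  C s := Alt s us
  N s V := Cl V (wt2 s us g g')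
  M V := V g' = V g ∧ ∀ u ∈ us, V u = V g
  H _ := True
  locC s s' h := alt_congr fun t ht => h t (by simp [ht])
  locN s s' h V hN := by
    have e : wt2 s us g g' = wt2 s' us g g' := by
      unfold wt2
      rw [ml_congr fun t ht => h t (by simp [ht])]
    rwa [← e]
  orN s V V' hC h h' := by
    have := cl_par' (wt2_hl hC) h h'
    rwa [wt2_snd] at this
  orM V V' h h' := by
    have key : ∀ W : T → B, (W g' = W g ∧ ∀ u ∈ us, W u = W g) →
        ∀ u ∈ g' :: (us ++ [g]), W u = W g := by
      intro W hW u hu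
      rcases List.mem_cons.1 hu with rfl | hu
      · exact hW.1
      rcases List.mem_append.1 hu with hu | hu
      · exact hW.2 u hu
      · rw [List.mem_singleton.1 hu]
    rw [sp_on V V' (V g) (V' g) _ (key V h) (key V' h'), even_b, zero_mul]
    rw [List.length_cons, List.length_append, List.length_singleton]
    obtain ⟨k, hk⟩ := hus
    exact ⟨k + 1, by omega⟩
  sel F _ hF := nodeT2 hn hus hF

/-! ## Together with a list of nodes -/

/-- a list of nodes and one more node -/
theorem selN (ns : List (T × List T × T)) (n₀ : Nd T) (hn : (n₀.tok ++ ns.flatMap tk3).Nodup)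
    (he : ∀ n ∈ ns, Even n.2.1.length) (F : Set (T → B)) (hH : ∀ V ∈ F, n₀.H V)
    (hF : ∀ V ∈ F, ∀ V' ∈ F, sp V V' (n₀.tok ++ ns.flatMap tk3) = 0) :
    ∃ s : T → Bool, (∀ n ∈ ns, Alt s n.2.1) ∧ n₀.C s ∧
      ∀ V ∈ F, (∀ n ∈ ns, Cl V (wn3 s n)) → n₀.N s V → (∀ n ∈ ns, on3 V n) ∧ n₀.M V := by
  obtain ⟨-, hn2, -⟩ := List.nodup_append.1 hn
  obtain ⟨s, h1, h2⟩ := sel_all (n₀ :: nds ns hn2 he)
    (pw_of_nodup (by rw [List.flatMap_cons, nds_tok]; exact hn)) F
    (fun V hV d hd => by
      rcases List.mem_cons.1 hd with rfl | hd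
      · exact hH V hV
      · obtain ⟨n, _, _, _, _, _, h⟩ := mem_nds hn2 he d hd
        exact h V)
    (fun V hV V' hV' => by
      rw [sps_eq, List.flatMap_cons, nds_tok]; exact hF V hV V' hV')
  refine ⟨s, ?_, h1 _ List.mem_cons_self, ?_⟩
  · intro n hn'
    obtain ⟨d, hd, _, hC, _⟩ := nds_mem hn2 he n hn'
    exact (hC s).1 (h1 d (List.mem_cons_of_mem _ hd))
  · intro V hV hN hR
    have key := h2 V hV (by
      intro d' hd'
      rcases List.mem_cons.1 hd' with rfl | hd'
      · exact hR
      · obtain ⟨n', hn'', _, _, hN', _⟩ := mem_nds hn2 he d' hd'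
        exact (hN' s V).2 (hN n' hn''))
    refine ⟨?_, key _ List.mem_cons_self⟩
    intro n hn'
    obtain ⟨d, hd, _, _, _, hM, _⟩ := nds_mem hn2 he n hn'
    exact (hM V).1 (key d (List.mem_cons_of_mem _ hd))

/-- **(A4)** a list of nodes and the top node with one link -/
theorem selT1 (ns : List (T × List T × T)) (us : List T) (g : T)
    (hn : ((us ++ [g]) ++ ns.flatMap tk3).Nodup) (hus : Odd us.length)
    (he : ∀ n ∈ ns, Even n.2.1.length) (F : Set (T → B))
    (hF : ∀ V ∈ F, ∀ V' ∈ F, sp V V' ((us ++ [g]) ++ ns.flatMap tk3) = 0) :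
    ∃ s : T → Bool, (∀ n ∈ ns, Alt s n.2.1) ∧ AltR s us ∧
      ∀ V ∈ F, (∀ n ∈ ns, Cl V (wn3 s n)) → Cl V (wt1 s us g) →
        (∀ n ∈ ns, on3 V n) ∧ ∀ u ∈ us, V u = V g :=
  selN ns (ndT1 us g (List.nodup_append.1 (List.nodup_append.1 hn).1).1 hus) hn he F
    (fun _ _ => trivial) hF

/-- **(A5)** a list of nodes and the top node with two links -/
theorem selT2 (ns : List (T × List T × T)) (us : List T) (g g' : T)
    (hn : ((g' :: (us ++ [g])) ++ ns.flatMap tk3).Nodup) (hus : Even us.length)
    (he : ∀ n ∈ ns, Even n.2.1.length) (F : Set (T → B))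
    (hF : ∀ V ∈ F, ∀ V' ∈ F, sp V V' ((g' :: (us ++ [g])) ++ ns.flatMap tk3) = 0) :
    ∃ s : T → Bool, (∀ n ∈ ns, Alt s n.2.1) ∧ Alt s us ∧
      ∀ V ∈ F, (∀ n ∈ ns, Cl V (wn3 s n)) → Cl V (wt2 s us g g') →
        (∀ n ∈ ns, on3 V n) ∧ V g' = V g ∧ ∀ u ∈ us, V u = V g :=
  selN ns (ndT2 us g g' (List.nodup_append.1 (List.nodup_cons.1
    (List.nodup_append.1 hn).1).2).1 hus) hn he F (fun _ _ => trivial) hF

end Pool.Agent.MP42.PD
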