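import Pool.Agent.MP42.PD.Late
import Pool.Agent.MP42.PD.CL
import Pool.Agent.MP42.PD.Top

/-!
# From the places of a circle to the parsed items (owner helper86)

`Tk`: tokens named by the places (`p t` port or unit, `a t`, `b t` lanes of an even child, `l`, `r` own
tokens).  `Pl.q`: the slots, `Pl.val l r V`: the values.  `Pl.cl_iff`: closed walks.
-/

set_option autoImplicit false

namespace Pool.Agent.MP42.PD

open U

/-- tokens named by the places -/
inductive Tk
  | l
  | r
  | p (t : ℕ)
  | a (t : ℕ)
  | b (t : ℕ)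
  deriving DecidableEq

namespace Pl

variable {T : Type*} (P : Pl T)

open Classical in
/-- the slots -/
noncomputable def q (t : ℕ) : Sl Tk :=
  match P.w t with
  | .o => .po (.p t)
  | .u => .un (.p t)
  | .z => if P.rid t then .ev (.a t) (.b t) else .no

/-- the token of a place token -/
def tok (l r : T) : Tk → T
  | .l => l
  | .r => r
  | .p t => P.tk t
  | .a t => P.ra t
  | .b t => P.rb t

/-- the values of the place tokens -/
def val (l r : T) (V : T → B) (x : Tk) : B := V (P.tok l r x)

lemma q_o {t : ℕ} (h : P.w t = .o) : P.q t = .po (.p t) := by simp [q, h]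
lemma q_u {t : ℕ} (h : P.w t = .u) : P.q t = .un (.p t) := by simp [q, h]
lemma q_r {t : ℕ} (h : P.rid t) : P.q t = .ev (.a t) (.b t) := by
  simp [q, P.rid_z t h, h]
lemma q_z {t : ℕ} (h : P.w t = .z) (h' : ¬ P.rid t) : P.q t = .no := by
  simp [q, h, h']

lemma lw_q : lw P.q = P.w := by
  funext t
  show (P.q t).lt = P.w t
  rcases h : P.w t with _ | _ | _
  · rw [P.q_o h]; rfl
  · rw [P.q_u h]; rfl
  · by_cases h' : P.rid t
    · rw [P.q_r h']; rfl
    · rw [P.q_z h h']; rfl

/-- the signs of the places from the signs of the place tokens -/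
def sgp (s : Tk → Bool) (t : ℕ) : Bool := s (.p t)

/-- the tokens of a lettered word -/
def rel (l r : T) (w : List (Bool × Tk)) : List (Bool × T) := w.map fun x => (x.1, P.tok l r x.2)

@[simp] lemma rel_nil (l r : T) : P.rel l r [] = [] := rfl

@[simp] lemma rel_cons (l r : T) (x : Bool × Tk) (w : List (Bool × Tk)) :
    P.rel l r (x :: w) = (x.1, P.tok l r x.2) :: P.rel l r w := rfl

@[simp] lemma rel_append (l r : T) (w w' : List (Bool × Tk)) :
    P.rel l r (w ++ w') = P.rel l r w ++ P.rel l r w' := by simp [rel]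

lemma lv_rel (l r : T) (V : T → B) (w : List (Bool × Tk)) :
    lv V (P.rel l r w) = lv (P.val l r V) w := by
  induction w with
  | nil => rfl
  | cons x w ih => rw [rel_cons, lv_cons, lv_cons, ih]; rfl

lemma hl_rel (l r : T) (w : List (Bool × Tk)) : hl (P.rel l r w) = hl w := by
  induction w with
  | nil => rfl
  | cons x w ih => rw [rel_cons, hl_cons, hl_cons, ih]

lemma cl_rel (l r : T) (V : T → B) (w : List (Bool × Tk)) :
    Cl V (P.rel l r w) ↔ Cl (P.val l r V) w := by
  unfold Cl
  rw [lv_rel]

/-- **the word of the items from the slots** -/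
lemma W_eq (l r : T) (s : Tk → Bool) (hs : ∀ t < P.n, P.w t = .o → s (.p t) = true) :
    P.W (sgp s) = P.rel l r (sw s onT P.q P.n) := by
  unfold W
  have key : ∀ m ≤ P.n, (List.range m).flatMap (P.lt (sgp s)) = P.rel l r (sw s onT P.q m) := by
    intro m
    induction m with
    | zero => intro _; rfl
    | succ m ih =>
      intro hm
      rw [List.range_succ, List.flatMap_append, ih (by omega)]
      show _ = P.rel l r (sw s onT P.q m ++ (P.q m).wd s onT)
      rw [rel_append]
      congr 1
      simp only [List.flatMap_cons, List.flatMap_nil, List.append_nil]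
      rcases h : P.w m with _ | _ | _
      · rw [P.q_o h]
        simp [lt, h, Sl.wd, hs m (by omega) h, tok]
      · rw [P.q_u h]
        simp [lt, h, Sl.wd, sgp, tok]
      · by_cases h' : P.rid m
        · rw [P.q_r h']
          simp [lt, h, h', Sl.wd, onT, tok]
        · rw [P.q_z h h']
          simp [lt, h, h', Sl.wd]
  exact key P.n le_rfl

lemma hl_W (l r : T) (s : Tk → Bool) (hs : ∀ t < P.n, P.w t = .o → s (.p t) = true) :
    hl (P.W (sgp s)) = hl (sw s onT P.q P.n) := by
  rw [P.W_eq l r s hs, hl_rel]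

/-- bounds -/
lemma bdd_W (l r : T) (s : Tk → Bool) (hs : ∀ t < P.n, P.w t = .o → s (.p t) = true) {D : ℤ}
    (h : ∀ u v, sw s onT P.q P.n = u ++ v → -D ≤ hl u ∧ hl u ≤ D) : Bdd D (P.W (sgp s)) := by
  intro u v huv
  rw [P.W_eq l r s hs] at huv
  obtain ⟨u', v', h1, h2, h3⟩ := List.map_eq_append_iff.1 huv
  have h4 := h u' v' h1
  rw [← h2]
  have e : hl (u'.map fun x => (x.1, P.tok l r x.2)) = hl u' := P.hl_rel l r u'
  rw [e]
  exact h4

end Pl

end Pool.Agent.MP42.PD
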