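import Pool.Agent.MP42.PD.Br

/-!
# The tokens of the parsed items (owner helper86)

`du m` = direct tokens of `m`, `ct c` = tokens of a cell, `ut m` = all tokens of ports and units in
reading order, `utq q N` = the tokens of the slots.  `ut_perm`, `ut_main`: the direct tokens of the main
level together with the tokens of the cells are the tokens of the slots.  `ar_main`: the riders.
`kd_main`: openers and direct tokens of cells are units, closers and left overs are ports.
-/

set_option autoImplicit false

namespace Pool.Agent.MP42.PD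

open U

variable {T : Type*}

/-! ## Direct tokens -/

/-- the token of a direct token -/
def du1 : BT T → Option T
  | .u t => some t
  | _ => none

/-- direct tokens -/
def du (m : List (BT T)) : List T := m.filterMap du1

@[simp] lemma du_nil : du ([] : List (BT T)) = [] := rfl

@[simp] lemma du_u (t : T) (m : List (BT T)) : du (BT.u t :: m) = t :: du m := rfl

@[simp] lemma du_e (a b : T) (m : List (BT T)) : du (BT.e a b :: m) = du m := rfl

@[simp] lemma du_br (f x : T) (m' m : List (BT T)) : du (BT.br f m' x :: m) = du m := rfl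

@[simp] lemma du_append (m m' : List (BT T)) : du (m ++ m') = du m ++ du m' := by simp [du]

lemma du_length (m : List (BT T)) : (du m).length = nu m := by
  induction m with
  | nil => rfl
  | cons i m ih =>
    cases i with
    | u t => rw [du_u, nu_u, List.length_cons, ih]
    | e a b => rw [du_e, nu_e, ih]
    | br f m' x => rw [du_br, nu_br, ih]

lemma mem_du {t : T} {m : List (BT T)} : t ∈ du m ↔ BT.u t ∈ m := by
  induction m with
  | nil => simp
  | cons i m ih =>
    cases i with
    | u t' => rw [du_u, List.mem_cons, List.mem_cons, ih]; simp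
    | e a b => rw [du_e, List.mem_cons, ih]; simp
    | br f m' x => rw [du_br, List.mem_cons, ih]; simp

lemma rs_off (s : T → Bool) (m : List (BT T)) : BT.rs s offT m = ml s (du m) := by
  induction m with
  | nil => rfl
  | cons i m ih =>
    cases i with
    | u t => rw [BT.rs_cons, ih, du_u, ml_cons]; rfl
    | e a b => rw [BT.rs_cons, ih, du_e]; rfl
    | br f m' x => rw [BT.rs_cons, ih, du_br]; rfl

lemma vc_off (s : T → Bool) (c : T × List (BT T) × T) :
    BT.vc s offT c = wn3 s (c.1, du c.2.1, c.2.2) := by
  unfold BT.vc wn3 wn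
  rw [rs_off]

/-- the tokens of a cell -/
def ct (c : T × List (BT T) × T) : List T := c.1 :: (du c.2.1 ++ [c.2.2])

/-! ## All tokens -/

/-- the tokens of ports and units, in reading order -/
def ut1 : BT T → List T :=
  BT.rc (fun t => [t]) (fun _ _ => []) fun f m x => f :: (m.flatMap Prod.snd ++ [x])

/-- the tokens of ports and units, in reading order -/
def ut (m : List (BT T)) : List T := m.flatMap ut1

lemma ut_nil : ut ([] : List (BT T)) = [] := rfl

lemma ut_cons (i : BT T) (m : List (BT T)) : ut (i :: m) = ut1 i ++ ut m := rfl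

lemma ut1_u (t : T) : ut1 (.u t) = [t] := rfl

lemma ut1_e (a b : T) : ut1 (.e a b) = [] := rfl

lemma ut1_br (f x : T) (m : List (BT T)) : ut1 (.br f m x) = f :: (ut m ++ [x]) := by
  unfold ut1
  rw [BT.rc_br, List.flatMap_map]
  rfl

lemma ut_append (m m' : List (BT T)) : ut (m ++ m') = ut m ++ ut m' := by
  induction m with
  | nil => rw [ut_nil]; rfl
  | cons i m ih => rw [List.cons_append, ut_cons, ut_cons, ih, List.append_assoc]

theorem uts_perm : (∀ (i : BT T), (du [i] ++ (BT.cell i).flatMap ct).Perm (ut1 i)) ∧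
    ∀ (m : List (BT T)), (du m ++ (BT.cells m).flatMap ct).Perm (ut m) := by
  refine BT.ind ?_ ?_ ?_ ?_ ?_
  · intro t
    rw [BT.cell_u, ut1_u]; simp
  · intro a b
    rw [BT.cell_e, ut1_e]; simp
  · intro f m x h
    rw [BT.cell_br, ut1_br, List.flatMap_cons]
    show (([] : List T) ++ ((f :: (du m ++ [x])) ++ (BT.cells m).flatMap ct)).Perm _
    rw [List.nil_append, List.cons_append, List.perm_cons, List.append_assoc]
    refine List.Perm.trans (List.Perm.append_left _ List.perm_append_comm) ?_
    rw [← List.append_assoc]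
    exact h.append_right _
  · rw [BT.cells_nil, ut_nil]; simp
  · intro i m h1 h2
    rw [BT.cells_cons, ut_cons, List.flatMap_append]
    have e : du (i :: m) = du [i] ++ du m := by rw [← du_append]; rfl
    rw [e]
    refine List.Perm.trans ?_ (h1.append h2)
    rw [List.append_assoc, List.append_assoc]
    refine List.Perm.append_left _ ?_
    rw [← List.append_assoc, ← List.append_assoc]
    exact List.Perm.append_right _ List.perm_append_comm

theorem ut1_perm (i : BT T) : (du [i] ++ (BT.cell i).flatMap ct).Perm (ut1 i) := uts_perm.1 i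

theorem ut_perm (m : List (BT T)) : (du m ++ (BT.cells m).flatMap ct).Perm (ut m) := uts_perm.2 m

/-- the tokens of a slot -/
def Sl.ut : Sl T → List T
  | .un t => [t]
  | .po t => [t]
  | .ev _ _ => []
  | .no => []

/-- the tokens of the slots -/
def utq (q : ℕ → Sl T) : ℕ → List T
  | 0 => []
  | t + 1 => utq q t ++ (q t).ut

variable {K : ℕ} {q : ℕ → Sl T}

/-- **all tokens** -/
theorem ut_main (hK : 0 < K) (N : ℕ) : ut (ps K q N).main = utq q N := by
  induction N with
  | zero => simp [ps, utq, Ps.main, Ps.low, Ps.pend_nil, ut_nil]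
  | succ t ih =>
    show ut ((ps K q t).step K (q t)).main = utq q t ++ (q t).ut
    rw [← ih]
    rcases hq : q t with x | x | ⟨a, b⟩ | _
    · rw [Ps.main_step_un _ x hK, ut_append, ut_cons, ut_nil, ut1_u]; rfl
    · rcases Ps.main_step_po (K := K) (ps K q t) x with h2 | ⟨f, m, A, h2, h3⟩
      · rw [h2, ut_append, ut_cons, ut_nil, ut1_u]; rfl
      · rw [h2, h3, ut_append, ut_append, ut_cons, ut_cons, ut_nil, ut1_u, ut1_br]
        show _ = _ ++ [x]
        simp
    · rw [Ps.main_step_ev, ut_append, ut_cons, ut_nil, ut1_e]; rfl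
    · show ut (ps K q t).main = ut (ps K q t).main ++ []
      rw [List.append_nil]

/-- **the tokens of the main level and of the cells** -/
theorem tks_perm (hK : 0 < K) (N : ℕ) :
    (du (ps K q N).main ++ (ps K q N).cl.flatMap ct).Perm (utq q N) := by
  rw [← ut_main hK]
  exact ut_perm _

/-- **the parity** -/
theorem tks_par (hK : 0 < K) {N : ℕ} (h : ∀ c ∈ (ps K q N).cl, Even (nu c.2.1)) :
    Even (utq q N).length ↔ Even (nu (ps K q N).main) := by
  rw [← (tks_perm hK N).length_eq, List.length_append, du_length]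
  have e : ∀ cs : List (T × List (BT T) × T), (∀ c ∈ cs, Even (nu c.2.1)) →
      Even (cs.flatMap ct).length := by
    intro cs
    induction cs with
    | nil => intro _; simp
    | cons c cs ih =>
      intro hc
      rw [List.flatMap_cons, List.length_append]
      refine Even.add ?_ (ih fun c' hc' => hc c' (List.mem_cons_of_mem _ hc'))
      obtain ⟨k, hk⟩ := hc c List.mem_cons_self
      refine ⟨k + 1, ?_⟩
      unfold ct
      rw [List.length_cons, List.length_append, du_length, hk]
      simp only [List.length_cons, List.length_nil]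
      omega
  rw [Nat.even_add]
  have := e _ h
  tauto

/-! ## Riders -/

/-- **the riders** -/
theorem ar_main (hK : 0 < K) (Pr : T → T → Prop) (N : ℕ) :
    ar Pr (ps K q N).main ↔ ∀ t < N, ∀ a b, q t = .ev a b → Pr a b := by
  induction N with
  | zero =>
    constructor
    · intro _ t ht; omega
    · intro _
      show ar Pr (([] : List (BT T)) ++ [])
      exact ar_nil
  | succ t ih =>
    have key : (∀ i < t + 1, ∀ a b, q i = .ev a b → Pr a b) ↔
        (∀ i < t, ∀ a b, q i = .ev a b → Pr a b) ∧ ∀ a b, q t = .ev a b → Pr a b := by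
      constructor
      · intro h
        exact ⟨fun i hi => h i (by omega), h t (by omega)⟩
      · rintro ⟨h1, h2⟩ i hi
        rcases Nat.lt_succ_iff_lt_or_eq.1 hi with h3 | rfl
        · exact h1 i h3
        · exact h2
    rw [key, ← ih]
    show ar Pr ((ps K q t).step K (q t)).main ↔ _
    rcases hq : q t with x | x | ⟨a, b⟩ | _
    · rw [Ps.main_step_un _ x hK, ar_append, ar_cons]
      simp [ar_nil, ar1_u]
    · rcases Ps.main_step_po (K := K) (ps K q t) x with h2 | ⟨f, m, A, h2, h3⟩
      · rw [h2, ar_append, ar_cons]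
        simp [ar_nil, ar1_u]
      · rw [h2, h3, ar_append, ar_append, ar_cons, ar_cons, ar1_br]
        simp [ar_nil, ar1_u]
    · rw [Ps.main_step_ev, ar_append, ar_cons, ar1_e]
      constructor
      · rintro ⟨h1, h2, -⟩
        refine ⟨h1, ?_⟩
        intro a' b' h
        injection h with h3 h4
        rw [← h3, ← h4]
        exact h2
      · rintro ⟨h1, h2⟩
        exact ⟨h1, h2 a b rfl, ar_nil⟩
    · constructor
      · intro h
        refine ⟨h, ?_⟩
        intro a b h'
        cases h'
      · rintro ⟨h, -⟩
        exact h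

/-! ## Kinds of the tokens -/

/-- unit -/
def isun (q : ℕ → Sl T) (N : ℕ) (x : T) : Prop := ∃ i < N, q i = .un x

/-- port -/
def ispo (q : ℕ → Sl T) (N : ℕ) (x : T) : Prop := ∃ i < N, q i = .po x

lemma isun.mono {N N' : ℕ} {x : T} (h : isun q N x) (hN : N ≤ N') : isun q N' x := by
  obtain ⟨i, h1, h2⟩ := h
  exact ⟨i, by omega, h2⟩

lemma ispo.mono {N N' : ℕ} {x : T} (h : ispo q N x) (hN : N ≤ N') : ispo q N' x := by
  obtain ⟨i, h1, h2⟩ := h
  exact ⟨i, by omega, h2⟩

/-- opener, direct tokens and closer of a cell -/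
def kc (q : ℕ → Sl T) (N : ℕ) (c : T × List (BT T) × T) : Prop :=
  isun q N c.1 ∧ ispo q N c.2.2 ∧ ∀ x ∈ du c.2.1, isun q N x

lemma kc.mono {N N' : ℕ} {c : T × List (BT T) × T} (h : kc q N c) (hN : N ≤ N') : kc q N' c :=
  ⟨h.1.mono hN, h.2.1.mono hN, fun x hx => (h.2.2 x hx).mono hN⟩

/-- the kinds of the tokens of a state -/
structure Kd (q : ℕ → Sl T) (N : ℕ) (p : Ps T) : Prop where
  stk : ∀ g ∈ p.stk, isun q N g.1 ∧ ∀ x ∈ du g.2, isun q N x
  cur : ∀ x ∈ du p.cur, isun q N x
  seg : ∀ g ∈ p.seg, ispo q N g.2 ∧ ∀ x ∈ du g.1, isun q N x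
  cl : ∀ c ∈ p.cl, kc q N c

lemma Kd.mono {N N' : ℕ} {p : Ps T} (h : Kd q N p) (hN : N ≤ N') : Kd q N' p where
  stk g hg := ⟨(h.stk g hg).1.mono hN, fun x hx => ((h.stk g hg).2 x hx).mono hN⟩
  cur x hx := (h.cur x hx).mono hN
  seg g hg := ⟨(h.seg g hg).1.mono hN, fun x hx => ((h.seg g hg).2 x hx).mono hN⟩
  cl c hc := (h.cl c hc).mono hN

lemma Kd.add {N : ℕ} {p : Ps T} (h : Kd q N p) {l : List (BT T)} (h1 : ∀ x ∈ du l, isun q N x)
    (h2 : ∀ c ∈ BT.cells l, kc q N c) : Kd q N (p.add l) := by
  have hcl : ∀ c ∈ (p.add l).cl, kc q N c := by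
    intro c hc
    unfold Ps.cl at hc
    rw [Ps.main_add, BT.cells_append] at hc
    rcases List.mem_append.1 hc with hc | hc
    · exact h.cl c hc
    · exact h2 c hc
  obtain ⟨st, cur, seg⟩ := p
  cases st with
  | nil =>
    refine ⟨?_, ?_, h.seg, hcl⟩
    · intro g hg
      cases hg
    · intro x hx
      have hx' : x ∈ du (cur ++ l) := hx
      rw [du_append] at hx'
      rcases List.mem_append.1 hx' with hx' | hx'
      · exact h.cur x hx'
      · exact h1 x hx'
  | cons g r =>
    refine ⟨?_, h.cur, h.seg, hcl⟩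
    intro g' hg'
    have hg'' : g' ∈ (g.1, g.2 ++ l) :: r := hg'
    rcases List.mem_cons.1 hg'' with rfl | hg''
    · have h3 := h.stk g List.mem_cons_self
      refine ⟨h3.1, ?_⟩
      intro x hx
      have hx' : x ∈ du (g.2 ++ l) := hx
      rw [du_append] at hx'
      rcases List.mem_append.1 hx' with hx' | hx'
      · exact h3.2 x hx'
      · exact h1 x hx'
    · exact h.stk g' (List.mem_cons_of_mem _ hg'')

lemma kd_pop {N : ℕ} {f : T} {m : List (BT T)} {r : List (T × List (BT T))} {cur : List (BT T)}
    {seg : List (List (BT T) × T)} (h : Kd q N (⟨(f, m) :: r, cur, seg⟩ : Ps T)) :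
    Kd q N (⟨r, cur, seg⟩ : Ps T) ∧ isun q N f ∧ (∀ x ∈ du m, isun q N x) ∧
      ∀ c ∈ BT.cells m, kc q N c := by
  have h5 := h.cl
  rw [cl_pop] at h5
  have h6 := h.stk (f, m) List.mem_cons_self
  exact ⟨⟨fun g hg => h.stk g (List.mem_cons_of_mem _ hg), h.cur, h.seg,
    fun c hc => h5 c (List.mem_append_left _ hc)⟩, h6.1, h6.2,
    fun c hc => h5 c (List.mem_append_right _ hc)⟩

/-- **kinds of the tokens** -/
theorem kd (N : ℕ) : Kd q N (ps K q N) := by
  induction N with
  | zero =>
    refine ⟨?_, ?_, ?_, ?_⟩
    · intro g hg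
      cases hg
    · intro x hx
      cases hx
    · intro g hg
      cases hg
    · intro c hc
      have : c ∈ BT.cells (([] : List (BT T)) ++ []) := hc
      rw [List.append_nil, BT.cells_nil] at this
      cases this
  | succ t ih =>
    have ih' := ih.mono (Nat.le_succ t)
    show Kd q (t + 1) ((ps K q t).step K (q t))
    rcases hq : q t with x | x | ⟨a, b⟩ | _
    · have hx : isun q (t + 1) x := ⟨t, Nat.lt_succ_self t, hq⟩
      generalize ps K q t = p at ih'
      obtain ⟨st, cur, seg⟩ := p
      unfold Ps.step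
      simp only
      split_ifs with hl
      · refine ⟨?_, ih'.cur, ih'.seg, ?_⟩
        · intro g hg
          rcases List.mem_cons.1 hg with rfl | hg
          · exact ⟨hx, by intro y hy; cases hy⟩
          · exact ih'.stk g hg
        · intro c hc
          refine ih'.cl c ?_
          rw [cl_pop] at hc
          rcases List.mem_append.1 hc with hc | hc
          · exact hc
          · rw [BT.cells_nil] at hc; cases hc
      · rcases st with _ | ⟨⟨f, m⟩, r⟩
        · exact ih'
        · obtain ⟨h1, h2, h3, h4⟩ := kd_pop ih'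
          refine h1.add ?_ ?_
          · intro y hy
            rw [du_u, du_append, du_u, du_nil] at hy
            rcases List.mem_cons.1 hy with rfl | hy
            · exact h2
            · rcases List.mem_append.1 hy with hy | hy
              · exact h3 y hy
              · rw [List.mem_singleton.1 hy]; exact hx
          · intro c hc
            rw [BT.cells_cons, BT.cell_u, List.nil_append, BT.cells_append, BT.cells_cons,
              BT.cell_u, BT.cells_nil, List.append_nil, List.append_nil] at hc
            exact h4 c hc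
    · have hx : ispo q (t + 1) x := ⟨t, Nat.lt_succ_self t, hq⟩
      generalize ps K q t = p at ih'
      obtain ⟨st, cur, seg⟩ := p
      rcases st with _ | ⟨⟨f, m⟩, r⟩
      · refine ⟨?_, ?_, ?_, ?_⟩
        · intro g hg
          cases hg
        · intro y hy
          cases hy
        · intro g hg
          have hg' : g ∈ seg ++ [(cur, x)] := hg
          rcases List.mem_append.1 hg' with hg' | hg'
          · exact ih'.seg g hg'
          · rw [List.mem_singleton.1 hg']
            exact ⟨hx, ih'.cur⟩
        · intro c hc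
          refine ih'.cl c ?_
          have hc' : c ∈ BT.cells (⟨[], [], seg ++ [(cur, x)]⟩ : Ps T).main := hc
          have e : (⟨[], [], seg ++ [(cur, x)]⟩ : Ps T).main =
              (⟨[], cur, seg⟩ : Ps T).main ++ [BT.u x] := by
            simp [Ps.main, Ps.low, Ps.pend_nil]
          rw [e, BT.cells_append, BT.cells_cons, BT.cell_u, BT.cells_nil, List.nil_append,
            List.append_nil] at hc'
          exact hc'
      · obtain ⟨h1, h2, h3, h4⟩ := kd_pop ih'
        show Kd q (t + 1) (Ps.add [BT.br f m x] ⟨r, cur, seg⟩)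
        refine h1.add ?_ ?_
        · intro y hy
          rw [du_br, du_nil] at hy
          cases hy
        · intro c hc
          rw [BT.cells_cons, BT.cell_br, BT.cells_nil, List.append_nil] at hc
          rcases List.mem_cons.1 hc with rfl | hc
          · exact ⟨h2, hx, h3⟩
          · exact h4 c hc
    · show Kd q (t + 1) (Ps.add [BT.e a b] (ps K q t))
      refine ih'.add ?_ ?_
      · intro y hy
        rw [du_e, du_nil] at hy
        cases hy
      · intro c hc
        rw [BT.cells_cons, BT.cell_e, BT.cells_nil, List.append_nil] at hc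
        cases hc
    · exact ih'

/-! ## The slots of a circle -/

namespace Pl

variable (P : Pl T)

lemma utq_length : (utq P.q P.n).length = P.nod := by
  unfold nod
  induction P.n with
  | zero => rfl
  | succ m ih =>
    show (utq P.q m ++ (P.q m).ut).length = _
    rw [List.length_append, ih, Finset.range_add_one, Finset.filter_insert]
    rcases h : P.w m with _ | _ | _
    · rw [P.q_o h, if_pos (by simp), Finset.card_insert_of_notMem (by simp)]; rfl
    · rw [P.q_u h, if_pos (by simp), Finset.card_insert_of_notMem (by simp)]; rfl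
    · rw [if_neg (by simp)]
      by_cases h' : P.rid m
      · rw [P.q_r h']; rfl
      · rw [P.q_z h h']; rfl

lemma mem_utq {m : ℕ} {x : Tk} : x ∈ utq P.q m ↔ ∃ t < m, P.w t ≠ .z ∧ x = .p t := by
  induction m with
  | zero =>
    constructor
    · intro h; cases h
    · rintro ⟨t, ht, -⟩; omega
  | succ m ih =>
    show x ∈ utq P.q m ++ (P.q m).ut ↔ _
    have e : x ∈ (P.q m).ut ↔ P.w m ≠ .z ∧ x = .p m := by
      rcases h : P.w m with _ | _ | _
      · rw [P.q_o h]; simp [Sl.ut]
      · rw [P.q_u h]; simp [Sl.ut]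
      · by_cases h' : P.rid m
        · rw [P.q_r h']; simp [Sl.ut]
        · rw [P.q_z h h']; simp [Sl.ut]
    rw [List.mem_append, ih, e]
    constructor
    · rintro (⟨t, ht, h⟩ | h)
      · exact ⟨t, by omega, h⟩
      · exact ⟨m, by omega, h⟩
    · rintro ⟨t, ht, h⟩
      rcases Nat.lt_succ_iff_lt_or_eq.1 ht with h1 | rfl
      · exact Or.inl ⟨t, h1, h⟩
      · exact Or.inr h

lemma utq_nodup (m : ℕ) : (utq P.q m).Nodup := by
  induction m with
  | zero => exact List.nodup_nil
  | succ m ih =>
    show (utq P.q m ++ (P.q m).ut).Nodup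
    rw [List.nodup_append]
    refine ⟨ih, ?_, ?_⟩
    · rcases h : P.w m with _ | _ | _
      · rw [P.q_o h]; exact List.nodup_singleton _
      · rw [P.q_u h]; exact List.nodup_singleton _
      · by_cases h' : P.rid m
        · rw [P.q_r h']; exact List.nodup_nil
        · rw [P.q_z h h']; exact List.nodup_nil
    · intro x hx y hy hxy
      obtain ⟨t, ht, -, h1⟩ := P.mem_utq.1 hx
      have hy' : y = .p m := by
        rcases h : P.w m with _ | _ | _
        · rw [P.q_o h] at hy; exact List.mem_singleton.1 hy
        · rw [P.q_u h] at hy; exact List.mem_singleton.1 hy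
        · by_cases h' : P.rid m
          · rw [P.q_r h'] at hy; cases hy
          · rw [P.q_z h h'] at hy; cases hy
      rw [hxy, hy'] at h1
      injection h1 with h2
      omega

/-- **the scalar product** -/
lemma sp_utq (l r : T) (V V' : T → B) :
    sp (P.val l r V) (P.val l r V') (utq P.q P.n) = P.ss V V' := by
  unfold ss
  induction P.n with
  | zero => rfl
  | succ m ih =>
    show sp _ _ (utq P.q m ++ (P.q m).ut) = _
    rw [sp_append, ih, Finset.range_add_one, Finset.filter_insert]
    rcases h : P.w m with _ | _ | _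
    · rw [P.q_o h, if_pos (by simp), Finset.sum_insert (by simp), add_comm]
      simp [Sl.ut, val, tok]
    · rw [P.q_u h, if_pos (by simp), Finset.sum_insert (by simp), add_comm]
      simp [Sl.ut, val, tok]
    · rw [if_neg (by simp)]
      by_cases h' : P.rid m
      · rw [P.q_r h']; simp [Sl.ut]
      · rw [P.q_z h h']; simp [Sl.ut]

/-- **the riders** -/
lemma eq_iff (l r : T) (V : T → B) : P.Eq V ↔
    ∀ t < P.n, ∀ a b, P.q t = .ev a b → P.val l r V a = P.val l r V b := by
  constructor
  · intro h t ht a b hq
    have h' : P.rid t := by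
      by_contra h'
      rcases h1 : P.w t with _ | _ | _
      · rw [P.q_o h1] at hq; cases hq
      · rw [P.q_u h1] at hq; cases hq
      · rw [P.q_z h1 h'] at hq; cases hq
    rw [P.q_r h'] at hq
    injection hq with h1 h2
    rw [← h1, ← h2]
    exact h t ht h'
  · intro h t ht h'
    exact h t ht _ _ (P.q_r h')

lemma isun_iff {x : Tk} : isun P.q P.n x ↔ ∃ t < P.n, P.w t = .u ∧ x = .p t := by
  unfold isun
  constructor
  · rintro ⟨t, ht, h⟩
    refine ⟨t, ht, ?_⟩
    rcases h1 : P.w t with _ | _ | _
    · rw [P.q_o h1] at h; cases h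
    · rw [P.q_u h1] at h
      injection h with h2
      exact ⟨rfl, h2.symm⟩
    · by_cases h' : P.rid t
      · rw [P.q_r h'] at h; cases h
      · rw [P.q_z h1 h'] at h; cases h
  · rintro ⟨t, ht, h1, rfl⟩
    exact ⟨t, ht, P.q_u h1⟩

lemma ispo_iff {x : Tk} : ispo P.q P.n x ↔ ∃ t < P.n, P.w t = .o ∧ x = .p t := by
  unfold ispo
  constructor
  · rintro ⟨t, ht, h⟩
    refine ⟨t, ht, ?_⟩
    rcases h1 : P.w t with _ | _ | _
    · rw [P.q_o h1] at h
      injection h with h2
      exact ⟨rfl, h2.symm⟩
    · rw [P.q_u h1] at h; cases h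
    · by_cases h' : P.rid t
      · rw [P.q_r h'] at h; cases h
      · rw [P.q_z h1 h'] at h; cases h
  · rintro ⟨t, ht, h1, rfl⟩
    exact ⟨t, ht, P.q_o h1⟩

/-- number of left overs -/
lemma seg_length (K : ℕ) : (ps K P.q P.n).seg.length = P.lam K := by
  rw [ps_lo, P.lw_q]
  rfl

/-- **the tokens of the main level and of the cells** -/
theorem tks_nodup {K : ℕ} (hK : 0 < K) :
    (du (ps K P.q P.n).main ++ (ps K P.q P.n).cl.flatMap ct).Nodup :=
  (tks_perm hK P.n).nodup_iff.2 (P.utq_nodup P.n)

theorem tks_sp {K : ℕ} (hK : 0 < K) (l r : T) (V V' : T → B) :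
    sp (P.val l r V) (P.val l r V') (du (ps K P.q P.n).main ++ (ps K P.q P.n).cl.flatMap ct) =
      P.ss V V' := by
  rw [sp_perm' (tks_perm hK P.n), P.sp_utq]

theorem nod_even {K : ℕ} (hK : 2 ≤ K) : Even P.nod ↔ Even (nu (ps K P.q P.n).main) := by
  rw [← P.utq_length]
  exact tks_par (by omega) (iv hK P.n).cl

end Pl

end Pool.Agent.MP42.PD
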