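import Pool.Agent.MP42.PD.Pos
import Pool.Agent.MP42.PD.Tks

/-!
# The constant case (owner helper86)

At most one left over (or the root of the top level): one value `c` on the main level.  `sc_const`: the
state condition; `core_const`: the values are compatible with the cells.
-/

set_option autoImplicit false

namespace Pool.Agent.MP42.PD

open U

variable {T : Type*} {K : ℕ} {q : ℕ → Sl T} {V : T → B} {c : B}

lemma rvc_append {m m' : List (BT T)} (h : rv V c (fun b => b = c) false (m ++ m')) :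
    rv V c (fun b => b = c) false m ∧ rv V c (fun b => b = c) false m' := by
  rw [rv_append] at h
  exact ⟨h.1, rv_const h.2⟩

lemma rvc_seg : ∀ {sg : List (List (BT T) × T)},
    rv V c (fun b => b = c) false (sg.flatMap fun g => g.1 ++ [BT.u g.2]) →
    ∀ g ∈ sg, rv V c (fun b => b = c) false g.1 ∧ V g.2 = c := by
  intro sg
  induction sg with
  | nil => intro _ g hg; cases hg
  | cons g sg ih =>
    intro h g' hg'
    rw [List.flatMap_cons] at h
    obtain ⟨h1, h2⟩ := rvc_append h
    rcases List.mem_cons.1 hg' with rfl | hg'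
    · obtain ⟨h3, h4⟩ := rvc_append h1
      rw [rv_cons, rv1_u] at h4
      exact ⟨h3, h4.1⟩
    · exact ih h2 g' hg'

lemma rvc_pend : ∀ {l : List (T × List (BT T))} {N : ℕ}, l.length ≤ N →
    rv V c (fun b => b = c) false (Ps.pend l) → FR V c c N l := by
  intro l
  induction l with
  | nil => intro N _ _; exact trivial
  | cons g l ih =>
    intro N hN h
    rw [Ps.pend_cons] at h
    obtain ⟨h1, h2⟩ := rvc_append h
    rw [rv_cons, rv1_u] at h2
    have hN' : l.length < N := by
      simp only [List.length_cons] at hN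
      omega
    refine ⟨⟨?_, ?_⟩, ih (by omega) h1⟩
    · show V g.1 = fcv V c N g l
      unfold fcv
      rw [if_pos hN']
      exact h2.1
    · show rv V (fcv V c N g l) (fbv V c c N l) (fop N l) g.2
      unfold fcv fbv
      rw [if_pos hN', if_pos hN']
      exact rv_const h2.2

/-- **the state condition, one value** -/
theorem sc_const {p : Ps T} (h : rv V c (fun b => b = c) false p.main) :
    SC V c c p.stk.length false p := by
  unfold Ps.main at h
  obtain ⟨h1, h2⟩ := rvc_append h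
  unfold Ps.low at h1
  obtain ⟨h3, h4⟩ := rvc_append h1
  exact ⟨h4, rvc_seg h3, rvc_pend le_rfl h2⟩

/-- **one value on the main level** -/
theorem core_const [Inhabited T] (hK : 3 ≤ K) {n : ℕ} {s : T → Bool} {d : ℤ}
    (hs : ∀ z ∈ (ps K q n).cl, s z.1 = false ∧ s z.2.2 = true)
    (hG : ∀ z ∈ (ps K q n).cl, BT.Good s offT d z)
    (hz : ∀ z ∈ (ps K q n).cl, V z.2.2 = V z.1 ∧ ∀ t ∈ du z.2.1, V t = V z.1)
    (hm : ∀ t ∈ du (ps K q n).main, V t = c)
    (har : ∀ t < n, ∀ a b, q t = .ev a b → V a = V b)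
    {S S' : ℕ → B} (hS : ∀ j, S j = c) (hr : Run (lv V (sw s onT q n)) S S')
    {v : ℕ → B} (hu : ∀ t x, q t = .un x → v t = V x) (ho : ∀ t x, q t = .po x → v t = V x)
    (he : ∀ t a b, q t = .ev a b → v t = V a) (hl2 : (lo K (lw q) n).card ≤ 2) :
    WOk K (lw q) n v c c ∧ WRd K (lw q) n (fun t => ∃ a b, q t = .ev a b) v c := by
  rw [← ws_main s onT (by omega) n hs] at hr
  have h1 := rv_main (d := d) hS (fun t ht => hm t (mem_du.2 ht))
    (fun z hz' => ⟨hG z hz', (hz z hz').1, fun t ht => (hz z hz').2 t (mem_du.2 ht)⟩)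
    ((ar_main (by omega) _ n).2 har) hr false
  exact wok_of_sc hK (sc_const h1) hu ho he (fun _ => rfl) hl2

namespace Pl

variable {T : Type*} (P : Pl T)

/-- the riders of the slots -/
lemma rid_iff {t : ℕ} : (∃ a b, P.q t = .ev a b) ↔ P.rid t := by
  constructor
  · rintro ⟨a, b, hq⟩
    by_contra h'
    rcases h1 : P.w t with _ | _ | _
    · rw [P.q_o h1] at hq; cases hq
    · rw [P.q_u h1] at hq; cases hq
    · rw [P.q_z h1 h'] at hq; cases hq
  · intro h
    exact ⟨_, _, P.q_r h⟩

lemma vt_u (l r : T) (V : T → B) {t : ℕ} {x : Tk} (h : P.q t = .un x) :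
    P.vt V t = P.val l r V x := by
  rcases h1 : P.w t with _ | _ | _
  · rw [P.q_o h1] at h; cases h
  · rw [P.q_u h1] at h
    injection h with h2
    rw [← h2]
    unfold vt
    rw [h1]
    rfl
  · by_cases h' : P.rid t
    · rw [P.q_r h'] at h; cases h
    · rw [P.q_z h1 h'] at h; cases h

lemma vt_o (l r : T) (V : T → B) {t : ℕ} {x : Tk} (h : P.q t = .po x) :
    P.vt V t = P.val l r V x := by
  rcases h1 : P.w t with _ | _ | _
  · rw [P.q_o h1] at h
    injection h with h2
    rw [← h2]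
    unfold vt
    rw [h1]
    rfl
  · rw [P.q_u h1] at h; cases h
  · by_cases h' : P.rid t
    · rw [P.q_r h'] at h; cases h
    · rw [P.q_z h1 h'] at h; cases h

lemma vt_e (l r : T) (V : T → B) {t : ℕ} {a b : Tk} (h : P.q t = .ev a b) :
    P.vt V t = P.val l r V a := by
  have h' : P.rid t := P.rid_iff.1 ⟨a, b, h⟩
  rw [P.q_r h'] at h
  injection h with h1 h2
  rw [← h1]
  unfold vt
  rw [P.rid_z t h']
  rfl

/-- `M` from the positional form -/
lemma m_of {K : ℕ} (l r : T) {V : T → B} {a e : B}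
    (h : WOk K (lw P.q) P.n (P.vt V) a e ∧
      WRd K (lw P.q) P.n (fun t => ∃ a b, P.q t = .ev a b) (P.vt V) e) : P.M K V a := by
  rw [P.lw_q] at h
  refine ⟨e, h.1, ?_⟩
  intro t ht hr
  exact h.2 t ht (P.rid_iff.2 hr)

/-- **one value on the main level of a circle** -/
theorem core_c {K : ℕ} (hK : 3 ≤ K) (hl : P.lam K ≤ 2) (l r : T) {s : Tk → Bool} {d : ℤ}
    {V : T → B} {c : B} (hE : P.Eq V)
    (hs : ∀ z ∈ (ps K P.q P.n).cl, s z.1 = false ∧ s z.2.2 = true)
    (hG : ∀ z ∈ (ps K P.q P.n).cl, BT.Good s offT d z)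
    (hz : ∀ z ∈ (ps K P.q P.n).cl,
      P.val l r V z.2.2 = P.val l r V z.1 ∧ ∀ t ∈ du z.2.1, P.val l r V t = P.val l r V z.1)
    (hm : ∀ t ∈ du (ps K P.q P.n).main, P.val l r V t = c)
    {S S' : ℕ → B} (hS : ∀ j, S j = c) (hr : Run (lv (P.val l r V) (sw s onT P.q P.n)) S S') :
    P.M K V c := by
  haveI : Inhabited Tk := ⟨.l⟩
  refine P.m_of l r (core_const (V := P.val l r V) (d := d) hK hs hG hz hm
    ((P.eq_iff l r V).1 hE) hS hr (fun t x h => P.vt_u l r V h) (fun t x h => P.vt_o l r V h)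
    (fun t a b h => P.vt_e l r V h) ?_)
  rw [P.lw_q]
  exact hl

end Pl

end Pool.Agent.MP42.PD
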