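import Pool.Agent.MP42.PD.Core2
import Pool.Agent.MP42.PD.Const

/-!
# The circle lemmas `C1`, `C2`, `C3`
-/

set_option autoImplicit false

namespace Pool.Agent.MP42.PD

open U

section Gen

variable {T : Type*}

/-- algebra and signs -/
theorem sel_sF (ns₁ ns₂ : List (T × List T × T)) (hn : ((ns₁ ++ ns₂).flatMap tk3).Nodup)
    (he : ∀ n ∈ ns₁ ++ ns₂, Even n.2.1.length) (F : Set (T → B))
    (hF : ∀ V ∈ F, ∀ V' ∈ F, sp V V' ((ns₁ ++ ns₂).flatMap tk3) = 0) :
    ∃ sF : T → Bool, (∀ n ∈ ns₁, sF n.1 = false) ∧ (∀ n ∈ ns₂, sF n.1 = true) ∧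
      (∀ n ∈ ns₁ ++ ns₂, sF n.2.2 = true ∧ Alt sF n.2.1) ∧
      ∀ V ∈ F, (∀ n ∈ ns₁ ++ ns₂, Cl V (wn3 sF n)) → ∀ n ∈ ns₁ ++ ns₂, on3 V n := by
  obtain ⟨s, h1, h2⟩ := selA (ns₁ ++ ns₂) hn he F hF
  obtain ⟨sF, h3, h4, h5⟩ := exists_sF ns₁ ns₂ hn s
  refine ⟨sF, h3, h4, ?_, ?_⟩
  · intro n hn'
    exact ⟨(h5 n hn').1, alt_congr (fun t ht => ((h5 n hn').2 t ht).symm) (h1 n hn')⟩
  · intro V hV hN
    refine h2 V hV ?_
    intro n hn'
    have e : wn3 s n = wn3 sF n := by
      unfold wn3 wn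
      rw [ml_congr fun t ht => ((h5 n hn').2 t ht).symm]
    rw [e]
    exact hN n hn'

lemma par_cons' {d e : ℤ} {w : List (Bool × T)} (h : Par d e w) (q : Bool × T) (hd : 0 ≤ d)
    (he : 0 ≤ e) : Par (d + 1) (e + 1) (q :: w) := by
  intro u v huv
  cases u with
  | nil => simp; constructor <;> linarith
  | cons q' u =>
    simp only [List.cons_append, List.cons.injEq] at huv
    obtain ⟨rfl, huv⟩ := huv
    have := h u v huv
    rw [hl_cons]
    split_ifs
    · constructor <;> linarith [this.1, this.2]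
    · constructor <;> linarith [this.1, this.2]

lemma par_left {d e : ℤ} {w w' : List (Bool × T)} (h : Par d e (w ++ w')) : Par d e w := by
  intro u v huv
  exact h u (v ++ w') (by rw [huv, List.append_assoc])

lemma par_concat {d e : ℤ} {w : List (Bool × T)} (h : Par d e w) (q : Bool × T) :
    Par (d + 1) (e + 1) (w ++ [q]) := by
  intro u v huv
  rcases List.append_eq_append_iff.1 huv with ⟨z, h1, h2⟩ | ⟨z, h1, h2⟩
  · have h3 := h w [] (by simp)
    have h4 : -1 ≤ hl z ∧ hl z ≤ 1 := by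
      cases z with
      | nil => simp
      | cons p z =>
        simp only [List.cons_append, List.cons.injEq] at h2
        obtain ⟨rfl, h6⟩ := h2
        have h7 : z = [] := (List.append_eq_nil_iff.1 h6.symm).1
        rw [h7, hl_cons]
        split_ifs <;> simp
    rw [h1, hl_append]
    constructor <;> linarith [h3.1, h3.2, h4.1, h4.2]
  · have h3 := h u z h1
    constructor <;> linarith [h3.1, h3.2]

lemma par_alt {s : T → Bool} {ms : List T} (h : Alt s ms) : Par 1 1 (ml s ms) :=
  fun u v huv => alt_par h u v huv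

end Gen

namespace Pl

variable {T : Type*} (P : Pl T) {K : ℕ}

/-- the tokens with own tokens are distinct -/
lemma own_nodup (hK : 0 < K) {own : List Tk} (h : own.Nodup) (h' : ∀ x ∈ own, x = .l ∨ x = .r) :
    (own ++ (du (ps K P.q P.n).main ++ (ps K P.q P.n).cl.flatMap ct)).Nodup := by
  rw [List.nodup_append]
  refine ⟨h, P.tks_nodup hK, ?_⟩
  intro x hx y hy hxy
  rw [(tks_perm hK P.n).mem_iff, P.mem_utq] at hy
  obtain ⟨t, -, -, h1⟩ := hy
  rcases h' x hx with h2 | h2
  · rw [hxy, h1] at h2; cases h2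
  · rw [hxy, h1] at h2; cases h2

/-- the signs of the ports -/
lemma ports_true (hK : 3 ≤ K) {sF : Tk → Bool} (hc : ∀ c ∈ (ps K P.q P.n).cl, sF c.2.2 = true)
    (hz : ∀ g ∈ (ps K P.q P.n).seg, sF g.2 = true) :
    ∀ t < P.n, P.w t = .o → sF (.p t) = true := by
  intro t ht hw
  have h1 : (Tk.p t) ∈ utq P.q P.n := P.mem_utq.2 ⟨t, ht, by rw [hw]; simp, rfl⟩
  have hnot : ¬ isun P.q P.n (.p t) := by
    intro h
    obtain ⟨t', -, h2, h3⟩ := P.isun_iff.1 h
    injection h3 with h4
    rw [← h4, hw] at h2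
    cases h2
  have hkd := kd (K := K) (q := P.q) P.n
  rw [← (tks_perm (K := K) (by omega) P.n).mem_iff, List.mem_append,
    du_main (iv (by omega) P.n), List.mem_append] at h1
  rcases h1 with (h1 | h1) | h1
  · obtain ⟨g, hg, h2⟩ := List.mem_map.1 h1
    rw [← h2]
    exact hz g hg
  · exfalso
    have key : ∀ r : List (Tk × List (BT Tk)), (∀ g ∈ r, isun P.q P.n g.1 ∧
        ∀ x ∈ du g.2, isun P.q P.n x) → ∀ x ∈ du (Ps.pend r), isun P.q P.n x := by
      intro r
      induction r with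
      | nil => intro _ x hx; rw [Ps.pend_nil] at hx; cases hx
      | cons g r ih =>
        intro h x hx
        rw [Ps.pend_cons, du_append, du_u, List.mem_append, List.mem_cons] at hx
        have h3 := h g List.mem_cons_self
        rcases hx with hx | rfl | hx
        · exact ih (fun g' hg' => h g' (List.mem_cons_of_mem _ hg')) x hx
        · exact h3.1
        · exact h3.2 x hx
    exact hnot (key _ hkd.stk _ h1)
  · obtain ⟨c, hc', h2⟩ := List.mem_flatMap.1 h1
    unfold ct at h2
    rw [List.mem_cons, List.mem_append, List.mem_singleton] at h2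
    have h3 := hkd.cl c hc'
    rcases h2 with h2 | h2 | h2
    · exact absurd (by rw [h2]; exact h3.1) hnot
    · exact absurd (h3.2.2 _ h2) hnot
    · rw [h2]; exact hc c hc'

/-- what the signs satisfy -/
structure Sg (K : ℕ) (sF : Tk → Bool) : Prop where
  cl : ∀ c ∈ (ps K P.q P.n).cl, sF c.1 = false ∧ sF c.2.2 = true
  alt : ∀ c ∈ (ps K P.q P.n).cl, Alt sF (du c.2.1)
  seg : ∀ g ∈ (ps K P.q P.n).seg, sF g.2 = true

/-- **algebra for a circle** -/
theorem alg (hK : 3 ≤ K) {own : List Tk} (hown : own.Nodup) (hown' : ∀ x ∈ own, x = .l ∨ x = .r)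
    (mn₁ mn₂ : List (Tk × List Tk × Tk))
    (hp : ((mn₁ ++ mn₂).flatMap tk3).Perm (own ++ du (ps K P.q P.n).main))
    (he : ∀ n ∈ mn₁ ++ mn₂, Even n.2.1.length) (F : Set (Tk → B))
    (hF : ∀ V ∈ F, ∀ V' ∈ F, sp V V' own +
      sp V V' (du (ps K P.q P.n).main ++ (ps K P.q P.n).cl.flatMap ct) = 0)
    (hseg : ∀ g ∈ (ps K P.q P.n).seg, (∃ n ∈ mn₂, n.1 = g.2) ∨ ∃ n ∈ mn₁ ++ mn₂, n.2.2 = g.2) :
    ∃ sF : Tk → Bool, P.Sg K sF ∧ (∀ n ∈ mn₁, sF n.1 = false) ∧ (∀ n ∈ mn₂, sF n.1 = true) ∧
      (∀ n ∈ mn₁ ++ mn₂, sF n.2.2 = true ∧ Alt sF n.2.1) ∧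
      ∀ V ∈ F, (∀ c ∈ (ps K P.q P.n).cl, Cl V (wn3 sF (tri c))) →
        (∀ n ∈ mn₁ ++ mn₂, Cl V (wn3 sF n)) →
        (∀ c ∈ (ps K P.q P.n).cl, on1v V c) ∧ ∀ n ∈ mn₁ ++ mn₂, on3 V n := by
  have hI := iv (K := K) (q := P.q) (by omega) P.n
  have hperm : (((ps K P.q P.n).cl.map tri ++ mn₁ ++ mn₂).flatMap tk3).Perm
      (own ++ (du (ps K P.q P.n).main ++ (ps K P.q P.n).cl.flatMap ct)) := by
    rw [List.append_assoc, List.flatMap_append, ← List.append_assoc]
    refine List.Perm.trans List.perm_append_comm ?_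
    refine List.Perm.append hp ?_
    rw [List.flatMap_map]
    exact List.Perm.refl _
  have hnd : (((ps K P.q P.n).cl.map tri ++ mn₁ ++ mn₂).flatMap tk3).Nodup :=
    hperm.nodup_iff.2 (P.own_nodup (by omega) hown hown')
  obtain ⟨sF, h1, h2, h3, h4⟩ := sel_sF ((ps K P.q P.n).cl.map tri ++ mn₁) mn₂ hnd (by
    intro n hn
    rw [List.append_assoc, List.mem_append] at hn
    rcases hn with hn | hn
    · obtain ⟨c, hc, rfl⟩ := List.mem_map.1 hn
      show Even (du c.2.1).length
      rw [du_length]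
      exact hI.cl c hc
    · exact he n hn) F (by
    intro V hV V' hV'
    rw [sp_perm' hperm, sp_append]
    exact hF V hV V' hV')
  have hmem : ∀ n ∈ mn₁ ++ mn₂, n ∈ (ps K P.q P.n).cl.map tri ++ mn₁ ++ mn₂ := by
    intro n hn
    rw [List.append_assoc]
    exact List.mem_append_right _ hn
  have hmem' : ∀ c ∈ (ps K P.q P.n).cl, tri c ∈ (ps K P.q P.n).cl.map tri ++ mn₁ ++ mn₂ := by
    intro c hc
    rw [List.append_assoc]
    exact List.mem_append_left _ (List.mem_map.2 ⟨c, hc, rfl⟩)
  refine ⟨sF, ⟨?_, ?_, ?_⟩, ?_, h2, fun n hn => h3 n (hmem n hn), ?_⟩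
  · intro c hc
    exact ⟨h1 (tri c) (List.mem_append_left _ (List.mem_map.2 ⟨c, hc, rfl⟩)),
      (h3 (tri c) (hmem' c hc)).1⟩
  · intro c hc
    exact (h3 (tri c) (hmem' c hc)).2
  · intro g hg
    rcases hseg g hg with ⟨n, hn, h5⟩ | ⟨n, hn, h5⟩
    · rw [← h5]; exact h2 n hn
    · rw [← h5]; exact (h3 n (hmem n hn)).1
  · intro n hn
    exact h1 n (List.mem_append_right _ hn)
  · intro V hV hc hm
    have h5 := h4 V hV (by
      intro n hn
      rw [List.append_assoc, List.mem_append] at hn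
      rcases hn with hn | hn
      · obtain ⟨c, hc', rfl⟩ := List.mem_map.1 hn
        exact hc c hc'
      · exact hm n hn)
    exact ⟨fun c hc' => on1v_of (h5 _ (hmem' c hc')), fun n hn => h5 n (hmem n hn)⟩

/-- riders -/
lemma ar_of (hK : 3 ≤ K) (l r : T) {V : T → B} (hE : P.Eq V) :
    ar (fun a b => P.val l r V a = P.val l r V b) (ps K P.q P.n).main :=
  (ar_main (by omega) _ P.n).2 ((P.eq_iff l r V).1 hE)

/-- first part: closed walks of the main word and of the cells -/
lemma first (hK : 3 ≤ K) {sF : Tk → Bool} (hs : P.Sg K sF) (l r : T) {V : T → B} (hE : P.Eq V)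
    {o : List (Bool × Tk)} {S : ℕ → B} (h : Run (lv (P.val l r V) (o ++ sw sF onT P.q P.n)) S S) :
    Run (lv (P.val l r V) (o ++ ml sF (du (ps K P.q P.n).main))) S S ∧
      ∀ c ∈ (ps K P.q P.n).cl, Cl (P.val l r V) (wn3 sF (tri c)) := by
  rw [← ws_main sF onT (by omega) P.n hs.cl] at h
  exact core_run hs.alt (P.ar_of hK l r hE) h

/-- second part, one value on the main level -/
lemma second (hK : 3 ≤ K) (hlam : P.lam K ≤ 2) {sF : Tk → Bool} (hs : P.Sg K sF) (l r : T)
    {V : T → B} (hE : P.Eq V) {o : List (Bool × Tk)} {S : ℕ → B}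
    (h : Run (lv (P.val l r V) (o ++ sw sF onT P.q P.n)) S S) {k : B}
    (hk : ∀ x ∈ o ++ ml sF (du (ps K P.q P.n).main), P.val l r V x.2 = k)
    (hh : hl (o ++ ml sF (du (ps K P.q P.n).main)) ≠ 0)
    (hc : ∀ c ∈ (ps K P.q P.n).cl, on1v (P.val l r V) c) : P.M K V k := by
  rw [← ws_main sF onT (by omega) P.n hs.cl] at h
  have h1 := rv_closed hs.alt (P.ar_of hK l r hE) h hk hh hc
  have : Inhabited Tk := ⟨.l⟩
  exact P.m_of l r (wok_of_sc hK (sc_const h1) (fun t x h => P.vt_u l r V h)
    (fun t x h => P.vt_o l r V h) (fun t a b h => P.vt_e l r V h) (fun _ => rfl)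
    (by rw [P.lw_q]; exact hlam))


/-! ## Two left overs -/

lemma cells_tl {tl : List (BT Tk)} (h : tl = [] ∨ ∃ y, tl = [BT.u y]) : BT.cells tl = [] := by
  rcases h with rfl | ⟨y, rfl⟩
  · exact BT.cells_nil
  · rw [BT.cells_cons, BT.cell_u, BT.cells_nil]; rfl

lemma ar_tl {Pr : Tk → Tk → Prop} {tl : List (BT Tk)} (h : tl = [] ∨ ∃ y, tl = [BT.u y]) :
    ar Pr tl := by
  rcases h with rfl | ⟨y, rfl⟩
  · exact ar_nil
  · exact ar_cons.2 ⟨ar1_u, ar_nil⟩

/-- the main word with the block of the own link -/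
noncomputable def M2 (K : ℕ) (G₁ : Tk) (R tl : List (BT Tk)) (x : Tk) : List (BT Tk) :=
  (ps K P.q P.n).low ++ [BT.br G₁ (R ++ tl) x]

section two

variable {G₁ x : Tk} {R tl : List (BT Tk)} {sF : Tk → Bool}

lemma main_two (hpend : Ps.pend (ps K P.q P.n).stk = BT.u G₁ :: R) :
    (ps K P.q P.n).main = (ps K P.q P.n).low ++ (BT.u G₁ :: R) := by
  unfold Ps.main
  rw [hpend]

lemma cells_two (hpend : Ps.pend (ps K P.q P.n).stk = BT.u G₁ :: R)
    (htl : tl = [] ∨ ∃ y, tl = [BT.u y]) {c : Tk × List (BT Tk) × Tk} :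
    c ∈ BT.cells (P.M2 K G₁ R tl x) ↔ c = (G₁, R ++ tl, x) ∨ c ∈ (ps K P.q P.n).cl := by
  unfold M2 Ps.cl
  rw [P.main_two hpend, cells_br, cells_u, BT.cells_append, cells_tl htl, List.append_nil,
    List.mem_append, List.mem_append, List.mem_cons]
  tauto

lemma word_two (hK : 3 ≤ K) (hs : P.Sg K sF)
    (hpend : Ps.pend (ps K P.q P.n).stk = BT.u G₁ :: R) (hG : sF G₁ = false) :
    sw sF onT P.q P.n ++ (BT.ws sF onT tl ++ [(true, x)]) = BT.ws sF onT (P.M2 K G₁ R tl x) := by
  rw [← ws_main sF onT (by omega) P.n hs.cl, P.main_two hpend]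
  unfold M2
  rw [BT.ws_append, BT.ws_append, BT.ws_cons, BT.ws_cons, BT.w_br, BT.w_u, BT.ws_nil,
    BT.ws_append, hG]
  simp

lemma du_two : du (P.M2 K G₁ R tl x) = du (ps K P.q P.n).low := by
  unfold M2
  rw [du_append, du_br, du_nil, List.append_nil]

lemma two_first (hK : 3 ≤ K) (hs : P.Sg K sF)
    (hpend : Ps.pend (ps K P.q P.n).stk = BT.u G₁ :: R) (hG : sF G₁ = false)
    (htl : tl = [] ∨ ∃ y, tl = [BT.u y]) (hA : Alt sF (du (R ++ tl))) (l r : T) {V : T → B}
    (hE : P.Eq V) {S : ℕ → B}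
    (h : Run (lv (P.val l r V) (sw sF onT P.q P.n ++ (BT.ws sF onT tl ++ [(true, x)]))) S S) :
    Run (lv (P.val l r V) (ml sF (du (ps K P.q P.n).low))) S S ∧
      (∀ c ∈ (ps K P.q P.n).cl, Cl (P.val l r V) (wn3 sF (tri c))) ∧
      Cl (P.val l r V) (wn3 sF (G₁, du (R ++ tl), x)) := by
  rw [P.word_two hK hs hpend hG] at h
  have hA' : ∀ c ∈ BT.cells (P.M2 K G₁ R tl x), Alt sF (du c.2.1) := by
    intro c hc
    rcases (P.cells_two hpend htl).1 hc with rfl | hc
    · exact hA
    · exact hs.alt c hc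
  have har := P.ar_of hK l r hE
  rw [P.main_two hpend, ar_append, ar_cons] at har
  have har' : ar (fun a b => P.val l r V a = P.val l r V b) (P.M2 K G₁ R tl x) := by
    unfold M2
    rw [ar_append, ar_cons, ar1_br, ar_append]
    exact ⟨har.1, ⟨har.2.2, ar_tl htl⟩, ar_nil⟩
  obtain ⟨h1, h2⟩ := core_run (o := []) hA' har' h
  rw [List.nil_append, P.du_two] at h1
  exact ⟨h1, fun c hc => h2 c ((P.cells_two hpend htl).2 (Or.inr hc)),
    h2 (G₁, R ++ tl, x) ((P.cells_two hpend htl).2 (Or.inl rfl))⟩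

lemma two_second (hK : 3 ≤ K) (hlam : P.lam K = 2) (hs : P.Sg K sF)
    (hpend : Ps.pend (ps K P.q P.n).stk = BT.u G₁ :: R) (hG : sF G₁ = false)
    (htl : tl = [] ∨ ∃ y, tl = [BT.u y]) (hA : Alt sF (du (R ++ tl))) (l r : T) {V : T → B}
    (hE : P.Eq V) {S : ℕ → B}
    (h : Run (lv (P.val l r V) (sw sF onT P.q P.n ++ (BT.ws sF onT tl ++ [(true, x)]))) S S)
    {k : B} (hk : ∀ z ∈ du (ps K P.q P.n).low, P.val l r V z = k)
    (hh : hl (ml sF (du (ps K P.q P.n).low)) ≠ 0)
    (hc : ∀ c ∈ (ps K P.q P.n).cl, on1v (P.val l r V) c)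
    (hx : on3 (P.val l r V) (G₁, du (R ++ tl), x)) : P.M K V (P.val l r V x) := by
  rw [P.word_two hK hs hpend hG] at h
  have hA' : ∀ c ∈ BT.cells (P.M2 K G₁ R tl x), Alt sF (du c.2.1) := by
    intro c hc
    rcases (P.cells_two hpend htl).1 hc with rfl | hc
    · exact hA
    · exact hs.alt c hc
  have hc' : ∀ c ∈ BT.cells (P.M2 K G₁ R tl x), on1v (P.val l r V) c := by
    intro c hc''
    rcases (P.cells_two hpend htl).1 hc'' with rfl | hc''
    · exact on1v_of (c := (G₁, R ++ tl, x)) hx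
    · exact hc c hc''
  have har := P.ar_of hK l r hE
  rw [P.main_two hpend, ar_append, ar_cons] at har
  have har' : ar (fun a b => P.val l r V a = P.val l r V b) (P.M2 K G₁ R tl x) := by
    unfold M2
    rw [ar_append, ar_cons, ar1_br, ar_append]
    exact ⟨har.1, ⟨har.2.2, ar_tl htl⟩, ar_nil⟩
  have h1 := rv_closed (o := []) hA' har' h (k := k) (by
    intro z hz
    rw [List.nil_append, P.du_two] at hz
    obtain ⟨t, ht, rfl⟩ := List.mem_map.1 hz
    exact hk t ht) (by rw [List.nil_append, P.du_two]; exact hh) hc'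
  unfold M2 at h1
  rw [rv_append, rv_cons, rv1_br] at h1
  obtain ⟨h2, ⟨h3, h4⟩, -⟩ := h1
  have e : ∀ o : Bool, (fun b : B => b = k ∨ (o = true ∧ b = k)) = fun b => b = k := by
    intro o; funext b; apply propext; tauto
  rw [e, rv_append] at h4
  have : Inhabited Tk := ⟨.l⟩
  have h5 : SC (P.val l r V) k (P.val l r V x) (ps K P.q P.n).stk.length false (ps K P.q P.n) := by
    refine sc_of_rv (iv (by omega) P.n) h2 ?_
    rw [hpend, rv_cons, rv1_u, h3]
    refine ⟨rfl, ?_⟩
    have e2 : (true ^^ isU (BT.u G₁)) = false := by simp [isU]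
    rw [e2]
    exact h4.1
  exact P.m_of l r (wok_of_sc hK h5 (fun t x h => P.vt_u l r V h)
    (fun t x h => P.vt_o l r V h) (fun t a b h => P.vt_e l r V h)
    (fun h6 => by rw [P.lw_q] at h6; unfold lam at hlam; omega)
    (by rw [P.lw_q]; exact hlam.le))

end two

/-- the shape of the pending part -/
lemma pend_cases (r : List (Tk × List (BT Tk))) :
    Ps.pend r = [] ∨ ∃ G₁ R, Ps.pend r = BT.u G₁ :: R := by
  induction r with
  | nil => exact Or.inl Ps.pend_nil
  | cons g r ih =>
    right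
    rw [Ps.pend_cons]
    rcases ih with h | ⟨G₁, R, h⟩
    · exact ⟨g.1, g.2, by rw [h]; rfl⟩
    · exact ⟨G₁, R ++ (BT.u g.1 :: g.2), by rw [h]; rfl⟩

/-- closed walks in terms of the place tokens -/
lemma cl_pl (l r : T) {sF : Tk → Bool} (hp : ∀ t < P.n, P.w t = .o → sF (.p t) = true) (V : T → B)
    (o o' : List (Bool × Tk)) : Cl V (P.rel l r o ++ (P.W (sgp sF) ++ P.rel l r o')) ↔
      Cl (P.val l r V) (o ++ (sw sF onT P.q P.n ++ o')) := by
  rw [P.W_eq l r sF hp, ← rel_append, ← rel_append, cl_rel]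


/-- height -/
lemma hl_of (hK : 3 ≤ K) {sF : Tk → Bool} (hs : P.Sg K sF) (l : T)
    (hp : ∀ t < P.n, P.w t = .o → sF (.p t) = true) :
    hl (P.W (sgp sF)) = hl (ml sF (du (ps K P.q P.n).main)) := by
  rw [P.hl_W l l sF hp, hl_main (by omega) hs.cl hs.alt]

/-- bounds -/
lemma bdd_of (hK : 3 ≤ K) {D : ℤ} (hD : 2 * K + 5 ≤ D) {sF : Tk → Bool} (hs : P.Sg K sF) (l : T)
    (hp : ∀ t < P.n, P.w t = .o → sF (.p t) = true)
    (hm : Par 4 4 (ml sF (du (ps K P.q P.n).main))) : Bdd D (P.W (sgp sF)) := by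
  refine P.bdd_W l l sF hp ?_
  intro u v huv
  have h := bdd_main (by omega) hs.cl hs.alt hm u v huv
  constructor
  · linarith [h.1]
  · linarith [h.2]

/-- the ports have the sign `+` -/
lemma ports (hK : 3 ≤ K) {sF : Tk → Bool} (hs : P.Sg K sF) :
    ∀ t < P.n, P.w t = .o → sF (.p t) = true :=
  P.ports_true hK (fun c hc => (hs.cl c hc).2) hs.seg

lemma val_l (l r : T) (V : T → B) : P.val l r V .l = V l := rfl
lemma val_r (l r : T) (V : T → B) : P.val l r V .r = V r := rfl

/-- **single own link** -/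
theorem c1 (hK : 3 ≤ K) {D : ℤ} (hD : 2 * K + 5 ≤ D) : P.C1 K D := by
  intro hlam hodd l F hEq hF
  have hI := iv (K := K) (q := P.q) (by omega) P.n
  have hnu : ¬ Even (nu (ps K P.q P.n).main) := by
    rw [← P.nod_even (by omega)]
    exact Nat.not_even_iff_odd.2 hodd
  have hdm := du_main hI
  have hown' : ∀ x ∈ [Tk.l], x = .l ∨ x = .r := by simp
  have horth : ∀ W ∈ (fun V => P.val l l V) '' F, ∀ W' ∈ (fun V => P.val l l V) '' F,
      sp W W' [Tk.l] + sp W W' (du (ps K P.q P.n).main ++ (ps K P.q P.n).cl.flatMap ct) = 0 := by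
    rintro W ⟨V, hV, rfl⟩ W' ⟨V', hV', rfl⟩
    rw [P.tks_sp (by omega)]
    have h := hF V hV V' hV'
    simpa [sp, P.val_l] using h
  have hseglen := P.seg_length K
  -- the closed walk
  have hcl : ∀ {sF : Tk → Bool}, P.Sg K sF → ∀ V, Cl V ((true, l) :: P.W (sgp sF)) →
      Cl (P.val l l V) ([(true, .l)] ++ (sw sF onT P.q P.n ++ [])) := by
    intro sF hs V h
    rw [← P.cl_pl l l (P.ports hK hs) V [(true, .l)] []]
    simpa [rel, tok] using h
  rcases hsg : (ps K P.q P.n).seg with _ | ⟨g, _ | ⟨g', _ | ⟨g'', sg⟩⟩⟩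
  · -- no left over
    rw [hsg, List.map_nil, List.nil_append] at hdm
    have hne : du (Ps.pend (ps K P.q P.n).stk) ≠ [] := by
      intro h
      rw [h] at hdm
      apply hnu
      rw [← du_length, hdm]
      exact Even.zero
    obtain ⟨init, last, hil⟩ : ∃ init last, du (Ps.pend (ps K P.q P.n).stk) = init ++ [last] := by
      rcases List.eq_nil_or_concat (du (Ps.pend (ps K P.q P.n).stk)) with h | ⟨a, b, h⟩
      · exact absurd h hne
      · exact ⟨a, b, by rw [h, List.concat_eq_append]⟩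
    rw [hil] at hdm
    obtain ⟨sF, h1, -, -, h4, h5⟩ := P.alg hK (own := [Tk.l]) (by simp) hown' []
      [(Tk.l, init, last)] (by
        rw [hdm]
        simp [tk3]) (by
        intro n hn
        simp only [List.nil_append, List.mem_singleton] at hn
        rw [hn]
        have : ¬ Even (init.length + 1) := by
          rw [← du_length, hdm] at hnu
          simpa using hnu
        rw [Nat.even_add_one, not_not] at this
        exact this) _ horth (by
        intro g hg
        rw [hsg] at hg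
        cases hg)
    obtain ⟨h6, h7⟩ := h4 (Tk.l, init, last) (by simp)
    simp only at h6 h7
    refine ⟨sgp sF, ?_, P.bdd_of hK hD h1 l (P.ports hK h1) ?_, ?_⟩
    · rw [P.hl_of hK h1 l (P.ports hK h1), hdm, ml_append, hl_append, alt_hl h7]
      simp [h6]
    · rw [hdm, ml_append]
      exact Par.mono (par_concat (par_alt h7) (sF last, last)) (by norm_num) (by norm_num)
    · intro V hV h
      obtain ⟨S, hS, hd⟩ := hcl h1 V h
      rw [List.append_nil] at hS
      obtain ⟨e1, e2⟩ := P.first hK h1 l l (hEq V hV) hS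
      have e3 : Cl (P.val l l V) (wn3 sF (Tk.l, init, last)) := by
        refine ⟨S, ?_, hd⟩
        rw [hdm] at e1
        have e4 : [(true, Tk.l)] ++ ml sF (init ++ [last]) = wn3 sF (Tk.l, init, last) := by
          unfold wn3 wn
          rw [ml_append, ml_cons, ml_nil, h6]
          rfl
        rw [← e4]
        exact e1
      obtain ⟨e5, e6⟩ := h5 _ ⟨V, hV, rfl⟩ e2 (by
        intro n hn
        simp only [List.nil_append, List.mem_singleton] at hn
        rw [hn]
        exact e3)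
      have e7 := e6 (Tk.l, init, last) (by simp)
      refine P.second hK hlam h1 l l (hEq V hV) hS (k := V l) ?_ ?_ e5
      · intro x hx
        rw [hdm] at hx
        rcases List.mem_append.1 hx with hx | hx
        · rw [List.mem_singleton.1 hx]; rfl
        · obtain ⟨t, ht, rfl⟩ := List.mem_map.1 hx
          rcases List.mem_append.1 ht with ht | ht
          · exact e7.2 t ht
          · rw [List.mem_singleton.1 ht]; exact e7.1
      · rw [hl_append, hdm, ml_append, hl_append, alt_hl h7]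
        simp [h6]
  · -- one left over
    rw [hsg] at hdm
    simp only [List.map_cons, List.map_nil, List.cons_append, List.nil_append] at hdm
    obtain ⟨Pn, hPn⟩ : ∃ Pn, Pn = du (Ps.pend (ps K P.q P.n).stk) := ⟨_, rfl⟩
    rw [← hPn] at hdm
    obtain ⟨sF, h1, -, h3, h4, h5⟩ := P.alg hK (own := [Tk.l]) (by simp) hown' []
      [(g.2, Pn, Tk.l)] (by
        rw [hdm]
        simp only [List.nil_append, List.flatMap_cons, List.flatMap_nil, List.append_nil, tk3]
        rw [← List.cons_append]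
        exact List.perm_append_comm) (by
        intro n hn
        simp only [List.nil_append, List.mem_singleton] at hn
        rw [hn]
        have : ¬ Even (Pn.length + 1) := by
          rw [← du_length, hdm] at hnu
          simpa using hnu
        rw [Nat.even_add_one, not_not] at this
        exact this) _ horth (by
        intro g₀ hg₀
        rw [hsg, List.mem_singleton] at hg₀
        left
        exact ⟨_, List.mem_singleton_self _, by rw [hg₀]⟩)
    obtain ⟨-, h7⟩ := h4 (g.2, Pn, Tk.l) (by simp)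
    have h6 : sF g.2 = true := h3 (g.2, Pn, Tk.l) (by simp)
    simp only at h7
    refine ⟨sgp sF, ?_, P.bdd_of hK hD h1 l (P.ports hK h1) ?_, ?_⟩
    · rw [P.hl_of hK h1 l (P.ports hK h1), hdm, ml_cons, hl_cons, alt_hl h7]
      simp [h6]
    · rw [hdm, ml_cons]
      exact Par.mono (par_cons' (par_alt h7) (sF g.2, g.2) (by norm_num) (by norm_num))
        (by norm_num) (by norm_num)
    · intro V hV h
      obtain ⟨S, hS, hd⟩ := hcl h1 V h
      rw [List.append_nil] at hS
      obtain ⟨e1, e2⟩ := P.first hK h1 l l (hEq V hV) hS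
      have e3 : Cl (P.val l l V) (wn3 sF (g.2, Pn, Tk.l)) := by
        refine cl_port ⟨S, ?_, hd⟩
        rw [hdm, ml_cons, h6] at e1
        exact e1
      obtain ⟨e5, e6⟩ := h5 _ ⟨V, hV, rfl⟩ e2 (by
        intro n hn
        simp only [List.nil_append, List.mem_singleton] at hn
        rw [hn]
        exact e3)
      have e7 := e6 (g.2, Pn, Tk.l) (by simp)
      have e8 : P.val l l V g.2 = V l := e7.1.symm
      refine P.second hK hlam h1 l l (hEq V hV) hS (k := V l) ?_ ?_ e5
      · intro x hx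
        rw [hdm] at hx
        rcases List.mem_append.1 hx with hx | hx
        · rw [List.mem_singleton.1 hx]; rfl
        · obtain ⟨t, ht, rfl⟩ := List.mem_map.1 hx
          rcases List.mem_cons.1 ht with rfl | ht
          · exact e8
          · exact (e7.2 t ht).trans e8
      · rw [hl_append, hdm, ml_cons, hl_cons, hl_cons, alt_hl h7]
        simp [h6]
  · -- two left overs
    rw [hsg] at hdm hseglen
    simp only [List.map_cons, List.map_nil, List.cons_append, List.nil_append] at hdm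
    have hlam2 : P.lam K = 2 := by rw [← hseglen]; rfl
    have hlow : du (ps K P.q P.n).low = [g.2, g'.2] := by rw [du_low hI, hsg]; rfl
    rcases pend_cases (ps K P.q P.n).stk with hpe | ⟨G₁, R, hpe⟩
    · exfalso
      rw [hpe, du_nil] at hdm
      apply hnu
      rw [← du_length, hdm]
      exact ⟨1, rfl⟩
    rw [hpe, du_u] at hdm
    have hR : Even (du R).length := by
      rw [← du_length, hdm] at hnu
      simp only [List.length_cons] at hnu
      rw [Nat.even_add_one, not_not] at hnu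
      rw [Nat.even_add_one, Nat.even_add_one] at hnu
      simpa using hnu
    obtain ⟨sF, h1, h2, h3, h4, h5⟩ := P.alg hK (own := [Tk.l]) (by simp) hown'
      [(G₁, du R, Tk.l)] [(g.2, [], g'.2)] (by
        rw [hdm]
        simp only [List.cons_append, List.nil_append, List.flatMap_cons, List.flatMap_nil,
          List.append_nil, tk3]
        refine List.perm_iff_count.2 fun a => ?_
        simp only [List.count_cons, List.count_append, List.count_nil]
        ring) (by
        intro n hn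
        simp only [List.cons_append, List.nil_append, List.mem_cons, List.not_mem_nil,
          or_false] at hn
        rcases hn with rfl | rfl
        · exact hR
        · exact Even.zero) _ horth (by
        intro g₀ hg₀
        rw [hsg] at hg₀
        simp only [List.mem_cons, List.not_mem_nil, or_false] at hg₀
        rcases hg₀ with rfl | rfl
        · left; exact ⟨_, List.mem_singleton_self _, rfl⟩
        · right; exact ⟨(g.2, [], g₀.2), by simp, rfl⟩)
    obtain ⟨-, h7⟩ := h4 (G₁, du R, Tk.l) (by simp)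
    have h6 : sF g.2 = true := h3 (g.2, [], g'.2) (by simp)
    have h8 : sF g'.2 = true := (h4 (g.2, [], g'.2) (by simp)).1
    have h9 : sF G₁ = false := h2 (G₁, du R, Tk.l) (by simp)
    simp only at h7
    refine ⟨sgp sF, ?_, P.bdd_of hK hD h1 l (P.ports hK h1) ?_, ?_⟩
    · rw [P.hl_of hK h1 l (P.ports hK h1), hdm, ml_cons, ml_cons, ml_cons, hl_cons, hl_cons,
        hl_cons, alt_hl h7]
      simp [h6, h8, h9]
    · rw [hdm, ml_cons, ml_cons, ml_cons]
      exact Par.mono (par_cons' (par_cons' (par_cons' (par_alt h7) _ (by norm_num) (by norm_num)) _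
        (by norm_num) (by norm_num)) _ (by norm_num) (by norm_num)) (by norm_num) (by norm_num)
    · intro V hV h
      have hc0 := (hcl h1 V h).rot
      rw [List.append_nil] at hc0
      obtain ⟨S, hS, hd⟩ := hc0
      have hS' : Run (lv (P.val l l V) (sw sF onT P.q P.n ++
          (BT.ws sF onT ([] : List (BT Tk)) ++ [(true, Tk.l)]))) S S := by
        rw [BT.ws_nil]
        exact hS
      have hA : Alt sF (du (R ++ ([] : List (BT Tk)))) := by
        rw [List.append_nil]
        exact h7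
      obtain ⟨e1, e2, e3⟩ := P.two_first hK h1 hpe h9 (Or.inl rfl) hA l l (hEq V hV) hS'
      rw [List.append_nil] at e3
      have e4 : Cl (P.val l l V) (wn3 sF (g.2, [], g'.2)) := by
        refine ⟨S, ?_, hd⟩
        rw [hlow, ml_cons, ml_cons, ml_nil, h6, h8] at e1
        exact e1
      obtain ⟨e5, e6⟩ := h5 _ ⟨V, hV, rfl⟩ e2 (by
        intro n hn
        simp only [List.cons_append, List.nil_append, List.mem_cons, List.not_mem_nil,
          or_false] at hn
        rcases hn with rfl | rfl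
        · exact e3
        · exact e4)
      have e7 := e6 (g.2, [], g'.2) (by simp)
      have e8 := e6 (G₁, du R, Tk.l) (by simp)
      refine P.two_second hK hlam2 h1 hpe h9 (Or.inl rfl) hA l l (hEq V hV) hS'
        (k := P.val l l V g.2) ?_ ?_ e5 (by rw [List.append_nil]; exact e8)
      · intro z hz
        rw [hlow] at hz
        simp only [List.mem_cons, List.not_mem_nil, or_false] at hz
        rcases hz with rfl | rfl
        · rfl
        · exact e7.1
      · rw [hlow, ml_cons, ml_cons, ml_nil, h6, h8]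
        simp
  · exfalso
    rw [hsg] at hseglen
    simp only [List.length_cons] at hseglen
    omega

end Pl

end Pool.Agent.MP42.PD
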