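import Pool.Agent.MP42.PD.C123

/-!
# The circle lemma `C2`: double own link
-/

set_option autoImplicit false

namespace Pool.Agent.MP42.PD

open U

namespace Pl

variable {T : Type*} (P : Pl T) {K : ℕ}

/-- the closed walk with both own tokens behind the items -/
lemma cl_own (l r : T) {sF : Tk → Bool} (hp : ∀ t < P.n, P.w t = .o → sF (.p t) = true) (V : T → B)
    (h0 : sF .r = true → Cl V ((true, l) :: (P.W (sgp sF) ++ [(true, r)])))
    (h1 : sF .r = false → V l = V r ∧ Cl V (P.W (sgp sF))) :
    Cl (P.val l r V) (sw sF onT P.q P.n ++ [(sF .r, .r), (true, .l)]) := by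
  have h2 := P.cl_pl l r hp V [] [(sF .r, .r), (true, .l)]
  rw [List.nil_append] at h2
  refine h2.1 ?_
  have e : P.rel l r [(sF .r, .r), (true, .l)] = [(sF .r, r), (true, l)] := rfl
  rw [e, rel_nil, List.nil_append]
  cases hr : sF .r
  · exact cl_cancel.2 (h1 hr)
  · have h3 : Cl V ([(true, l)] ++ (P.W (sgp sF) ++ [(true, r)])) := h0 hr
    have h4 := h3.rot
    simpa using h4

/-- **double own link** -/
theorem c2 (hK : 3 ≤ K) {D : ℤ} (hD : 2 * K + 5 ≤ D) : P.C2 K D := by
  intro hlam heven l r F hEq hF
  have hI := iv (K := K) (q := P.q) (by omega) P.n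
  have hnu : Even (nu (ps K P.q P.n).main) := (P.nod_even (by omega)).1 heven
  have hdm := du_main hI
  have hown' : ∀ x ∈ [Tk.l, Tk.r], x = .l ∨ x = .r := by simp
  have hown : [Tk.l, Tk.r].Nodup := by simp
  have horth : ∀ W ∈ (fun V => P.val l r V) '' F, ∀ W' ∈ (fun V => P.val l r V) '' F,
      sp W W' [Tk.l, Tk.r] +
        sp W W' (du (ps K P.q P.n).main ++ (ps K P.q P.n).cl.flatMap ct) = 0 := by
    rintro W ⟨V, hV, rfl⟩ W' ⟨V', hV', rfl⟩
    rw [P.tks_sp (by omega)]
    have h := hF V hV V' hV'
    simpa [sp, P.val_l, P.val_r] using h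
  have hseglen := P.seg_length K
  rcases hsg : (ps K P.q P.n).seg with _ | ⟨g, _ | ⟨g', _ | ⟨g'', sg⟩⟩⟩
  · -- no left over
    rw [hsg, List.map_nil, List.nil_append] at hdm
    obtain ⟨sF, h1, -, -, h4, h5⟩ := P.alg hK hown hown' []
      [(Tk.l, du (ps K P.q P.n).main, Tk.r)] (by
        simp only [List.nil_append, List.flatMap_cons, List.flatMap_nil, List.append_nil, tk3,
          List.cons_append]
        rw [List.perm_cons]
        exact List.perm_append_comm) (by
        intro n hn
        simp only [List.nil_append, List.mem_singleton] at hn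
        rw [hn]
        show Even (du (ps K P.q P.n).main).length
        rw [du_length]
        exact hnu) _ horth (by
        intro g hg
        rw [hsg] at hg
        cases hg)
    obtain ⟨h6, h7⟩ := h4 (Tk.l, du (ps K P.q P.n).main, Tk.r) (by simp)
    simp only at h6 h7
    refine ⟨sgp sF, false, fun _ => ?_, (fun h => absurd h (by simp)),
      P.bdd_of hK hD h1 l (P.ports hK h1) ?_, ?_⟩
    · rw [P.hl_of hK h1 l (P.ports hK h1), alt_hl h7]
    · exact Par.mono (par_alt h7) (by norm_num) (by norm_num)
    · intro V hV h _
      have hc0 := (P.cl_own l r (P.ports hK h1) V (fun _ => h rfl)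
        (fun h8 => by rw [h6] at h8; cases h8)).rot
      obtain ⟨S, hS, hd⟩ := hc0
      obtain ⟨e1, e2⟩ := P.first hK h1 l r (hEq V hV) hS
      have e3 : Cl (P.val l r V) (wn3 sF (Tk.l, du (ps K P.q P.n).main, Tk.r)) := by
        have e4 : Cl (P.val l r V) ([(true, Tk.r)] ++
            ((true, Tk.l) :: ml sF (du (ps K P.q P.n).main))) := by
          refine ⟨S, ?_, hd⟩
          rw [h6] at e1
          exact e1
        exact e4.rot
      obtain ⟨e5, e6⟩ := h5 _ ⟨V, hV, rfl⟩ e2 (by
        intro n hn
        simp only [List.nil_append, List.mem_singleton] at hn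
        rw [hn]
        exact e3)
      have e7 := e6 (Tk.l, du (ps K P.q P.n).main, Tk.r) (by simp)
      refine ⟨e7.1, P.second hK hlam h1 l r (hEq V hV) hS (k := V l) ?_ ?_ e5⟩
      · intro x hx
        rcases List.mem_append.1 hx with hx | hx
        · simp only [List.mem_cons, List.not_mem_nil, or_false] at hx
          rcases hx with rfl | rfl
          · exact e7.1
          · rfl
        · obtain ⟨t, ht, rfl⟩ := List.mem_map.1 hx
          exact e7.2 t ht
      · rw [hl_append, alt_hl h7]
        simp [h6]
  · -- one left over
    rw [hsg] at hdm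
    simp only [List.map_cons, List.map_nil, List.cons_append, List.nil_append] at hdm
    obtain ⟨Pn, hPn⟩ : ∃ Pn, Pn = du (Ps.pend (ps K P.q P.n).stk) := ⟨_, rfl⟩
    rw [← hPn] at hdm
    have hPl : Even (Pn.length + 1) := by
      rw [← du_length, hdm] at hnu
      simpa using hnu
    obtain ⟨sF, h1, -, h3, h4, h5⟩ := P.alg hK hown hown' []
      [(g.2, Pn ++ [Tk.r], Tk.l)] (by
        rw [hdm]
        simp only [List.nil_append, List.flatMap_cons, List.flatMap_nil, List.append_nil, tk3]
        refine List.perm_iff_count.2 fun a => ?_
        simp only [List.count_cons, List.count_append, List.count_nil]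
        ring) (by
        intro n hn
        simp only [List.nil_append, List.mem_singleton] at hn
        rw [hn]
        simpa using hPl) _ horth (by
        intro g₀ hg₀
        rw [hsg, List.mem_singleton] at hg₀
        left
        exact ⟨_, List.mem_singleton_self _, by rw [hg₀]⟩)
    obtain ⟨-, h7⟩ := h4 (g.2, Pn ++ [Tk.r], Tk.l) (by simp)
    have h6 : sF g.2 = true := h3 (g.2, Pn ++ [Tk.r], Tk.l) (by simp)
    simp only at h7
    have h8 : hl (ml sF Pn) + (if sF .r then 1 else -1) = 0 := by
      have := alt_hl h7
      rw [ml_append, hl_append, ml_cons, ml_nil, hl_cons, hl_nil, add_zero] at this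
      exact this
    refine ⟨sgp sF, !(sF .r), fun hd => ?_, fun hd => ?_,
      P.bdd_of hK hD h1 l (P.ports hK h1) ?_, ?_⟩
    · rw [P.hl_of hK h1 l (P.ports hK h1), hdm, ml_cons, hl_cons, h6]
      have hr : sF .r = true := by simpa using hd
      rw [hr] at h8
      simp at h8 ⊢
      linarith
    · rw [P.hl_of hK h1 l (P.ports hK h1), hdm, ml_cons, hl_cons, h6]
      have hr : sF .r = false := by simpa using hd
      rw [hr] at h8
      simp at h8 ⊢
      linarith
    · rw [hdm, ml_cons]
      have h9 := par_alt h7
      rw [ml_append] at h9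
      exact Par.mono (par_cons' (par_left h9) (sF g.2, g.2) (by norm_num) (by norm_num))
        (by norm_num) (by norm_num)
    · intro V hV h h'
      have hc0 := (P.cl_own l r (P.ports hK h1) V (fun h8 => h (by rw [h8]; rfl))
        (fun h8 => h' (by rw [h8]; rfl))).rot
      obtain ⟨S, hS, hd⟩ := hc0
      obtain ⟨e1, e2⟩ := P.first hK h1 l r (hEq V hV) hS
      have e3 : Cl (P.val l r V) (wn3 sF (g.2, Pn ++ [Tk.r], Tk.l)) := by
        have e4 : Cl (P.val l r V) ([(sF .r, Tk.r)] ++
            ((true, Tk.l) :: (true, g.2) :: ml sF Pn)) := by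
          refine ⟨S, ?_, hd⟩
          rw [hdm, ml_cons, h6] at e1
          exact e1
        refine cl_port ?_
        have e5 := e4.rot
        rw [ml_append, ml_cons, ml_nil]
        simpa using e5
      obtain ⟨e5, e6⟩ := h5 _ ⟨V, hV, rfl⟩ e2 (by
        intro n hn
        simp only [List.nil_append, List.mem_singleton] at hn
        rw [hn]
        exact e3)
      have e7 := e6 (g.2, Pn ++ [Tk.r], Tk.l) (by simp)
      have e8 : P.val l r V g.2 = V l := e7.1.symm
      have e9 : V r = V l := (e7.2 .r (by simp)).trans e8
      refine ⟨e9, P.second hK hlam h1 l r (hEq V hV) hS (k := V l) ?_ ?_ e5⟩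
      · intro x hx
        rw [hdm] at hx
        rcases List.mem_append.1 hx with hx | hx
        · simp only [List.mem_cons, List.not_mem_nil, or_false] at hx
          rcases hx with rfl | rfl
          · exact e9
          · rfl
        · obtain ⟨t, ht, rfl⟩ := List.mem_map.1 hx
          rcases List.mem_cons.1 ht with rfl | ht
          · exact e8
          · exact (e7.2 t (List.mem_append_left _ ht)).trans e8
      · rw [hl_append, hdm, ml_cons, hl_cons, hl_cons, hl_cons, h6]
        cases hr : sF .r
        · rw [hr] at h8
          simp at h8 ⊢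
          intro h10
          linarith
        · rw [hr] at h8
          simp at h8 ⊢
          intro h10
          linarith
  · -- two left overs
    rw [hsg] at hdm hseglen
    simp only [List.map_cons, List.map_nil, List.cons_append, List.nil_append] at hdm
    have hlam2 : P.lam K = 2 := by rw [← hseglen]; rfl
    have hlow : du (ps K P.q P.n).low = [g.2, g'.2] := by rw [du_low hI, hsg]; rfl
    rcases pend_cases (ps K P.q P.n).stk with hpe | ⟨G₁, R, hpe⟩
    · -- nothing pending: the own link is dropped
      rw [hpe, du_nil] at hdm
      obtain ⟨sF, h1, -, h3, h4, h5⟩ := P.alg hK (own := []) (by simp) (by simp) []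
        [(g.2, [], g'.2)] (by
          rw [hdm]
          simp [tk3]) (by
          intro n hn
          simp only [List.nil_append, List.mem_singleton] at hn
          rw [hn]
          exact Even.zero) ((fun V => P.val l r V) '' {V | V ∈ F ∧ V l = V r}) (by
          rintro W ⟨V, ⟨hV, hlr⟩, rfl⟩ W' ⟨V', ⟨hV', hlr'⟩, rfl⟩
          rw [P.tks_sp (by omega), sp_nil, zero_add]
          have h := hF V hV V' hV'
          rw [hlr, hlr', b_add_self, zero_add] at h
          exact h) (by
          intro g₀ hg₀
          rw [hsg] at hg₀
          simp only [List.mem_cons, List.not_mem_nil, or_false] at hg₀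
          rcases hg₀ with rfl | rfl
          · left; exact ⟨_, List.mem_singleton_self _, rfl⟩
          · right; exact ⟨(g.2, [], g₀.2), by simp, rfl⟩)
      have h6 : sF g.2 = true := h3 (g.2, [], g'.2) (by simp)
      have h8 : sF g'.2 = true := (h4 (g.2, [], g'.2) (by simp)).1
      refine ⟨sgp sF, true, (fun h => absurd h (by simp)), fun _ => ?_,
        P.bdd_of hK hD h1 l (P.ports hK h1) ?_, ?_⟩
      · rw [P.hl_of hK h1 l (P.ports hK h1), hdm, ml_cons, ml_cons, ml_nil, h6, h8]
        simp
      · rw [hdm]
        have h9 : Par 1 1 (ml sF ([] : List Tk)) := par_alt (ms := []) Alt.nil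
        exact Par.mono (par_cons' (par_cons' h9 (sF g'.2, g'.2) (by norm_num) (by norm_num))
          (sF g.2, g.2) (by norm_num) (by norm_num)) (by norm_num) (by norm_num)
      · intro V hV _ h'
        obtain ⟨hlr, hc0⟩ := h' rfl
        have hc1 : Cl (P.val l r V) ([] ++ sw sF onT P.q P.n) := by
          have h9 := P.cl_pl l r (P.ports hK h1) V [] []
          rw [rel_nil, List.nil_append, List.append_nil, List.append_nil] at h9
          exact h9.1 hc0
        obtain ⟨S, hS, hd⟩ := hc1
        obtain ⟨e1, e2⟩ := P.first hK h1 l r (hEq V hV) hS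
        rw [List.nil_append, hdm, ml_cons, ml_cons, ml_nil, h6, h8] at e1
        obtain ⟨e5, e6⟩ := h5 _ ⟨V, ⟨hV, hlr⟩, rfl⟩ e2 (by
          intro n hn
          simp only [List.nil_append, List.mem_singleton] at hn
          rw [hn]
          exact ⟨S, e1, hd⟩)
        have e7 := e6 (g.2, [], g'.2) (by simp)
        refine ⟨hlr.symm, ?_⟩
        have hS' := hS
        rw [← ws_main sF onT (by omega) P.n h1.cl] at hS'
        have e8 := rv_closed (k := P.val l r V g.2) h1.alt (P.ar_of hK l r (hEq V hV)) hS' (by
          intro x hx
          rw [List.nil_append] at hx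
          obtain ⟨t, ht, rfl⟩ := List.mem_map.1 hx
          change t ∈ du (ps K P.q P.n).main at ht
          rw [hdm] at ht
          simp only [List.mem_cons, List.not_mem_nil, or_false] at ht
          rcases ht with rfl | rfl
          · rfl
          · exact e7.1) (by
          rw [List.nil_append, hdm, ml_cons, ml_cons, ml_nil, h6, h8]
          simp) e5
        have e9 : rv (P.val l r V) (P.val l r V g.2) (fun b => b = P.val l r V g.2) false
            (ps K P.q P.n).low := by
          unfold Ps.main at e8
          rw [rv_append] at e8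
          exact e8.1
        have : Inhabited Tk := ⟨.l⟩
        have h10 : SC (P.val l r V) (P.val l r V g.2) (V l) (ps K P.q P.n).stk.length false
            (ps K P.q P.n) := by
          refine sc_of_rv hI e9 ?_
          rw [hpe]
          exact rv_nil
        exact P.m_of l r (wok_of_sc hK h10 (fun t x h => P.vt_u l r V h)
          (fun t x h => P.vt_o l r V h) (fun t a b h => P.vt_e l r V h)
          (fun h6 => by rw [P.lw_q] at h6; unfold lam at hlam2; omega)
          (by rw [P.lw_q]; exact hlam2.le))
    · rw [hpe, du_u] at hdm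
      have hR : Even ((du R).length + 1) := by
        rw [← du_length, hdm] at hnu
        simp only [List.length_cons] at hnu
        rw [Nat.even_add_one, Nat.even_add_one, not_not] at hnu
        exact hnu
      have hR' : Even (du (R ++ [BT.u Tk.r])).length := by
        rw [du_append, du_u, du_nil, List.length_append]
        exact hR
      obtain ⟨sF, h1, h2, h3, h4, h5⟩ := P.alg hK hown hown'
        [(G₁, du (R ++ [BT.u Tk.r]), Tk.l)] [(g.2, [], g'.2)] (by
          rw [hdm, du_append, du_u, du_nil]
          simp only [List.cons_append, List.nil_append, List.flatMap_cons, List.flatMap_nil,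
            List.append_nil, tk3]
          refine List.perm_iff_count.2 fun a => ?_
          simp only [List.count_cons, List.count_append, List.count_nil]
          ring) (by
          intro n hn
          simp only [List.cons_append, List.nil_append, List.mem_cons, List.not_mem_nil,
            or_false] at hn
          rcases hn with rfl | rfl
          · exact hR'
          · exact Even.zero) _ horth (by
          intro g₀ hg₀
          rw [hsg] at hg₀
          simp only [List.mem_cons, List.not_mem_nil, or_false] at hg₀
          rcases hg₀ with rfl | rfl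
          · left; exact ⟨_, List.mem_singleton_self _, rfl⟩
          · right; exact ⟨(g.2, [], g₀.2), by simp, rfl⟩)
      obtain ⟨-, h7⟩ := h4 (G₁, du (R ++ [BT.u Tk.r]), Tk.l) (by simp)
      have h6 : sF g.2 = true := h3 (g.2, [], g'.2) (by simp)
      have h8 : sF g'.2 = true := (h4 (g.2, [], g'.2) (by simp)).1
      have h9 : sF G₁ = false := h2 (G₁, du (R ++ [BT.u Tk.r]), Tk.l) (by simp)
      simp only at h7
      have h10 : hl (ml sF (du R)) + (if sF .r then 1 else -1) = 0 := by
        have := alt_hl h7
        rw [du_append, du_u, du_nil, ml_append, hl_append, ml_cons, ml_nil, hl_cons, hl_nil,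
          add_zero] at this
        exact this
      refine ⟨sgp sF, !(sF .r), fun hd => ?_, fun hd => ?_,
        P.bdd_of hK hD h1 l (P.ports hK h1) ?_, ?_⟩
      · rw [P.hl_of hK h1 l (P.ports hK h1), hdm, ml_cons, ml_cons, ml_cons, hl_cons, hl_cons,
          hl_cons, h6, h8, h9]
        have hr : sF .r = true := by simpa using hd
        rw [hr] at h10
        simp at h10 ⊢
        linarith
      · rw [P.hl_of hK h1 l (P.ports hK h1), hdm, ml_cons, ml_cons, ml_cons, hl_cons, hl_cons,
          hl_cons, h6, h8, h9]
        have hr : sF .r = false := by simpa using hd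
        rw [hr] at h10
        simp at h10 ⊢
        linarith
      · rw [hdm, ml_cons, ml_cons, ml_cons]
        have h11 := par_alt h7
        rw [du_append, ml_append] at h11
        exact Par.mono (par_cons' (par_cons' (par_cons' (par_left h11) _ (by norm_num)
          (by norm_num)) _ (by norm_num) (by norm_num)) _ (by norm_num) (by norm_num))
          (by norm_num) (by norm_num)
      · intro V hV h h'
        obtain ⟨S, hS, hd⟩ := P.cl_own l r (P.ports hK h1) V (fun h8 => h (by rw [h8]; rfl))
          (fun h8 => h' (by rw [h8]; rfl))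
        have hS' : Run (lv (P.val l r V) (sw sF onT P.q P.n ++
            (BT.ws sF onT [BT.u Tk.r] ++ [(true, Tk.l)]))) S S := by
          rw [BT.ws_cons, BT.w_u, BT.ws_nil]
          exact hS
        obtain ⟨e1, e2, e3⟩ := P.two_first hK h1 hpe h9 (Or.inr ⟨_, rfl⟩) h7 l r (hEq V hV) hS'
        have e4 : Cl (P.val l r V) (wn3 sF (g.2, [], g'.2)) := by
          refine ⟨S, ?_, hd⟩
          rw [hlow, ml_cons, ml_cons, ml_nil, h6, h8] at e1
          exact e1
        obtain ⟨e5, e6⟩ := h5 _ ⟨V, hV, rfl⟩ e2 (by
          intro n hn
          simp only [List.cons_append, List.nil_append, List.mem_cons, List.not_mem_nil,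
            or_false] at hn
          rcases hn with rfl | rfl
          · exact e3
          · exact e4)
        have e7 := e6 (g.2, [], g'.2) (by simp)
        have e8 := e6 (G₁, du (R ++ [BT.u Tk.r]), Tk.l) (by simp)
        have e9 : V r = V l := by
          have e10 := e8.2 .r (by rw [du_append, du_u]; simp)
          have e11 := e8.1
          exact e10.trans e11.symm
        refine ⟨e9, P.two_second hK hlam2 h1 hpe h9 (Or.inr ⟨_, rfl⟩) h7 l r (hEq V hV) hS'
          (k := P.val l r V g.2) ?_ ?_ e5 e8⟩
        · intro z hz
          rw [hlow] at hz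
          simp only [List.mem_cons, List.not_mem_nil, or_false] at hz
          rcases hz with rfl | rfl
          · rfl
          · exact e7.1
        · rw [hlow, ml_cons, ml_cons, ml_nil, h6, h8]
          simp
  · exfalso
    rw [hsg] at hseglen
    simp only [List.length_cons] at hseglen
    omega

end Pl

end Pool.Agent.MP42.PD
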