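import Pool.Agent.MP42.PD.Core

/-!
# The circle lemmas: signs, state condition, bounds
-/

set_option autoImplicit false

namespace Pool.Agent.MP42.PD

open U

variable {T : Type*}

/-! ## Signs -/

lemma node_disj {l : List (T × List T × T)} (h : (l.flatMap tk3).Nodup) {n n' : T × List T × T}
    (hn : n ∈ l) (hn' : n' ∈ l) {t : T} (ht : t ∈ tk3 n) (ht' : t ∈ tk3 n') : n = n' := by
  by_contra hne
  have h1 := (List.nodup_flatMap.1 h).2
  haveI : Std.Symm (Function.onFun List.Disjoint (tk3 (T := T))) :=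
    ⟨fun a b hab x hx hx' => hab hx' hx⟩
  have h2 := h1.forall hn hn' hne
  exact h2 ht ht'

lemma tk3_nodup {l : List (T × List T × T)} (h : (l.flatMap tk3).Nodup) {n : T × List T × T}
    (hn : n ∈ l) : (tk3 n).Nodup := (List.nodup_flatMap.1 h).1 n hn

/-- **signs**: `-` on the first tokens of `ns₁`, `+` on the first tokens of `ns₂` and on all last
tokens, `s` on the other ones -/
theorem exists_sF (ns₁ ns₂ : List (T × List T × T)) (h : ((ns₁ ++ ns₂).flatMap tk3).Nodup)
    (s : T → Bool) : ∃ sF : T → Bool, (∀ n ∈ ns₁, sF n.1 = false) ∧ (∀ n ∈ ns₂, sF n.1 = true) ∧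
      ∀ n ∈ ns₁ ++ ns₂, sF n.2.2 = true ∧ ∀ t ∈ n.2.1, sF t = s t := by
  classical
  have e1 : ∀ n : T × List T × T, n.1 ∈ tk3 n := fun n => List.mem_cons_self
  have e2 : ∀ n : T × List T × T, n.2.2 ∈ tk3 n := fun n => by unfold tk3; simp
  have e3 : ∀ (n : T × List T × T) t, t ∈ n.2.1 → t ∈ tk3 n := fun n t ht => by unfold tk3; simp [ht]
  refine ⟨fun t => if t ∈ ns₁.map (fun n => n.1) then false else
    if t ∈ (ns₁ ++ ns₂).map (fun n => n.2.2) ∨ t ∈ ns₂.map (fun n => n.1) then true else s t,
    ?_, ?_, ?_⟩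
  · intro n hn
    simp only
    rw [if_pos (List.mem_map.2 ⟨n, hn, rfl⟩)]
  · intro n hn
    simp only
    rw [if_neg, if_pos (Or.inr (List.mem_map.2 ⟨n, hn, rfl⟩))]
    intro h1
    obtain ⟨n', hn', h2⟩ := List.mem_map.1 h1
    have h3 := node_disj h (List.mem_append_left _ hn') (List.mem_append_right _ hn)
      (t := n.1) (by rw [← h2]; exact e1 _) (e1 _)
    rw [List.flatMap_append, List.nodup_append] at h
    have h4 : n'.1 ∈ ns₁.flatMap tk3 := List.mem_flatMap.2 ⟨n', hn', e1 _⟩
    have h5 : n'.1 ∈ ns₂.flatMap tk3 := List.mem_flatMap.2 ⟨n, hn, by rw [h3]; exact e1 _⟩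
    exact h.2.2 _ h4 _ h5 rfl
  · intro n hn
    have hnd := tk3_nodup h hn
    unfold tk3 at hnd
    rw [List.nodup_cons, List.nodup_append] at hnd
    obtain ⟨hnd1, hnd2, -, hnd3⟩ := hnd
    constructor
    · simp only
      rw [if_neg, if_pos (Or.inl (List.mem_map.2 ⟨n, hn, rfl⟩))]
      intro h1
      obtain ⟨n', hn', h2⟩ := List.mem_map.1 h1
      have h3 := node_disj h (List.mem_append_left _ hn') hn
        (t := n.2.2) (by rw [← h2]; exact e1 _) (e2 _)
      rw [h3] at h2
      exact hnd1 (by rw [h2]; simp)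
    · intro t ht
      simp only
      rw [if_neg, if_neg]
      · rintro (h1 | h1)
        · obtain ⟨n', hn', h2⟩ := List.mem_map.1 h1
          have h3 := node_disj h hn' hn (t := t) (by rw [← h2]; exact e2 _) (e3 _ _ ht)
          rw [h3] at h2
          exact hnd3 t ht t (by rw [← h2]; simp) rfl
        · obtain ⟨n', hn', h2⟩ := List.mem_map.1 h1
          have h3 := node_disj h (List.mem_append_right _ hn') hn (t := t)
            (by rw [← h2]; exact e1 _) (e3 _ _ ht)
          rw [h3] at h2
          exact hnd1 (by rw [h2]; simp [ht])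
      · intro h1
        obtain ⟨n', hn', h2⟩ := List.mem_map.1 h1
        have h3 := node_disj h (List.mem_append_left _ hn') hn (t := t)
          (by rw [← h2]; exact e1 _) (e3 _ _ ht)
        rw [h3] at h2
        exact hnd1 (by rw [h2]; simp [ht])

/-! ## Values along a closed walk -/

/-- **values, late riders included, along a closed walk** -/
theorem rv_closed {V : T → B} {s : T → Bool} {o : List (Bool × T)} {M : List (BT T)} {k : B}
    (hG : ∀ c ∈ BT.cells M, Alt s (du c.2.1)) (hr : ar (fun a b => V a = V b) M) {S : ℕ → B}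
    (h : Run (lv V (o ++ BT.ws s onT M)) S S) (hk : ∀ x ∈ o ++ ml s (du M), V x.2 = k)
    (hh : hl (o ++ ml s (du M)) ≠ 0) (hc : ∀ c ∈ BT.cells M, on1v V c) :
    rv V k (fun b => b = k) false M := by
  obtain ⟨h1, -⟩ := core_run hG hr h
  have hS : ∀ j, S j = k := by
    rcases lt_or_gt_of_ne hh with h2 | h2
    · exact const_stack' hk h2 h1
    · exact const_stack hk h2 h1
  rw [lv_append] at h
  obtain ⟨S1, h2, h3⟩ := run_append.1 h
  have hS1 : ∀ j, S1 j = k := by
    intro j
    by_contra hj
    obtain ⟨i, -, h4⟩ := back_run (k := k) (fun x hx => hk x (List.mem_append_left _ hx)) h2 j hj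
    exact h4 (hS i)
  refine rv_main (s := s) (d := 1) hS1 ?_ (fun c hc' => ⟨good_of_alt (hG c hc'), hc c hc'⟩) hr h3 _
  intro t ht
  exact hk (s t, t) (List.mem_append_right _ (List.mem_map.2 ⟨t, mem_du.2 ht, rfl⟩))

lemma on1v_of {V : T → B} {c : T × List (BT T) × T} (h : on3 V (tri c)) : on1v V c :=
  ⟨h.1, fun t ht => h.2 t (mem_du.2 ht)⟩

/-! ## The state condition -/

variable {K : ℕ}

lemma du_of_nu {m : List (BT T)} (h : nu m = 0) : du m = [] := by
  rw [← List.length_eq_zero_iff, du_length]; exact h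

lemma du_low {p : Ps T} (hI : Iv K p) : du p.low = p.seg.map Prod.snd := by
  unfold Ps.low
  rw [du_append, du_of_nu hI.cur, List.append_nil]
  have h : ∀ sg : List (List (BT T) × T), (∀ g ∈ sg, nu g.1 = 0) →
      du (sg.flatMap fun g => g.1 ++ [BT.u g.2]) = sg.map Prod.snd := by
    intro sg
    induction sg with
    | nil => intro _; rfl
    | cons g sg ih =>
      intro h
      rw [List.flatMap_cons, du_append, du_append, du_of_nu (h g List.mem_cons_self), du_u, du_nil,
        ih fun g' hg' => h g' (List.mem_cons_of_mem _ hg')]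
      rfl
  exact h _ hI.seg

lemma du_main {p : Ps T} (hI : Iv K p) :
    du p.main = p.seg.map Prod.snd ++ du (Ps.pend p.stk) := by
  unfold Ps.main
  rw [du_append, du_low hI]

lemma nu_pend {r : List (T × List (BT T))} (h : ∀ g ∈ r, Even (nu g.2)) :
    Even (nu (Ps.pend r) + r.length) := by
  induction r with
  | nil => simp [Ps.pend_nil]
  | cons g r ih =>
    rw [Ps.pend_cons, nu_append, nu_u, List.length_cons]
    obtain ⟨a, ha⟩ := ih fun g' hg' => h g' (List.mem_cons_of_mem _ hg')
    obtain ⟨b, hb⟩ := h g List.mem_cons_self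
    exact ⟨a + b + 1, by omega⟩

/-- the values of the pending frames -/
theorem FR_of_pend {V : T → B} {c₀ vA : B} {pd : ℕ} : ∀ {r : List (T × List (BT T))},
    (∀ g ∈ r, Even (nu g.2)) → r.length ≤ pd →
    rv V vA (fun b => b = c₀) true (Ps.pend r) → FR V c₀ vA pd r
  | [], _, _, _ => trivial
  | g :: r, h, hl, hv => by
    have h' : ∀ g' ∈ r, Even (nu g'.2) := fun g' hg' => h g' (List.mem_cons_of_mem _ hg')
    simp only [List.length_cons] at hl
    rw [Ps.pend_cons, rv_append, rv_cons, rv1_u] at hv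
    obtain ⟨h1, h2, h3⟩ := hv
    have hlt : r.length < pd := by omega
    refine ⟨⟨?_, ?_⟩, FR_of_pend h' (by omega) h1⟩
    · unfold fcv
      rw [if_pos hlt, h2]
    · unfold fcv fbv
      rw [if_pos hlt, if_pos hlt]
      have e : ((true ^^ par (Ps.pend r)) ^^ isU (BT.u g.1)) = fop (T := T) pd r := by
        have e1 : fop (T := T) pd r = decide (Even (r.length + 1)) := by
          unfold fop
          simp [hlt]
        rw [e1]
        have h4 := nu_pend h'
        rcases Nat.even_or_odd r.length with h5 | h5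
        · have h6 : Even (nu (Ps.pend r)) := by
            rw [Nat.even_add] at h4
            exact h4.2 h5
          rw [par_even h6]
          have h7 : ¬ Even (r.length + 1) := by
            rw [Nat.even_add_one, not_not]; exact h5
          simp [isU, h7]
        · have h6 : Odd (nu (Ps.pend r)) := by
            rw [Nat.even_add] at h4
            rw [← Nat.not_even_iff_odd]
            intro h7
            exact (Nat.not_even_iff_odd.2 h5) (h4.1 h7)
          rw [(par_nu _).2 h6]
          have h7 : Even (r.length + 1) := h5.add_one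
          simp [isU, h7]
      rw [← e]
      exact h3

/-- **the state condition from the values** -/
theorem sc_of_rv {V : T → B} {c₀ vA : B} {p : Ps T} (hI : Iv K p) {o : Bool}
    (h1 : rv V c₀ (fun b => b = c₀) o p.low)
    (h2 : rv V vA (fun b => b = c₀) true (Ps.pend p.stk)) :
    SC V c₀ vA p.stk.length false p := by
  unfold Ps.low at h1
  rw [rv_append] at h1
  refine ⟨rv_const h1.2, ?_, FR_of_pend hI.ev le_rfl h2⟩
  have key : ∀ (sg : List (List (BT T) × T)) (o : Bool),
      rv V c₀ (fun b => b = c₀) o (sg.flatMap fun g => g.1 ++ [BT.u g.2]) →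
      ∀ g ∈ sg, rv V c₀ (fun b => b = c₀) false g.1 ∧ V g.2 = c₀ := by
    intro sg
    induction sg with
    | nil => intro _ _ g hg; simp at hg
    | cons g sg ih =>
      intro o h g' hg'
      rw [List.flatMap_cons, rv_append, rv_append, rv_cons, rv1_u] at h
      rcases List.mem_cons.1 hg' with rfl | hg'
      · exact ⟨rv_const h.1.1, h.1.2.1⟩
      · exact ih _ h.2 g' hg'
  exact key _ _ h1.1

/-! ## Bounds -/

lemma deps_le_of_mem {m : List (BT T)} {K : ℕ} (h : ∀ i ∈ m, BT.dep i ≤ K) : BT.deps m ≤ K := by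
  induction m with
  | nil => rw [BT.deps_nil]; omega
  | cons i m ih =>
    rw [BT.deps_cons]
    exact max_le (h i List.mem_cons_self) (ih fun j hj => h j (List.mem_cons_of_mem _ hj))

lemma deps_pend {r : List (T × List (BT T))} (h : dok K r) : BT.deps (Ps.pend r) ≤ K := by
  induction r with
  | nil => rw [Ps.pend_nil, BT.deps_nil]; omega
  | cons g r ih =>
    rw [Ps.pend_cons, deps_append, BT.deps_cons, BT.dep_u]
    have h1 : BT.deps g.2 + r.length + 1 ≤ K ∧ dok K r := h
    have h2 := ih h1.2
    have h3 := h1.1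
    simp only [Nat.zero_max]
    exact max_le h2 (by omega)

lemma deps_main {p : Ps T} (hI : Iv K p) : BT.deps p.main ≤ K := by
  unfold Ps.main Ps.low
  rw [deps_append, deps_append]
  refine max_le (max_le ?_ hI.dcur) (deps_pend hI.dok)
  have key : ∀ sg : List (List (BT T) × T), (∀ g ∈ sg, BT.deps g.1 ≤ K) →
      BT.deps (sg.flatMap fun g => g.1 ++ [BT.u g.2]) ≤ K := by
    intro sg
    induction sg with
    | nil => intro _; rw [List.flatMap_nil, BT.deps_nil]; omega
    | cons g sg ih =>
      intro h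
      rw [List.flatMap_cons, deps_append, deps_append, BT.deps_cons, BT.dep_u, BT.deps_nil]
      refine max_le (max_le (h g List.mem_cons_self) (by simp))
        (ih fun g' hg' => h g' (List.mem_cons_of_mem _ hg'))
  exact key _ hI.dseg

/-- **bounds of the word of the items** -/
theorem bdd_main {s : T → Bool} {q : ℕ → Sl T} {n : ℕ} (hK : 2 ≤ K)
    (hs : ∀ c ∈ (ps K q n).cl, s c.1 = false ∧ s c.2.2 = true)
    (hA : ∀ c ∈ (ps K q n).cl, Alt s (du c.2.1))
    (hm : Par 4 4 (ml s (du (ps K q n).main))) :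
    ∀ u v, sw s onT q n = u ++ v → -(2 * K + 5 : ℤ) ≤ hl u ∧ hl u ≤ 2 * K + 5 := by
  intro u v huv
  rw [← ws_main s onT (by omega) n hs] at huv
  obtain ⟨u', v', h1, h2, h3⟩ := (ri_ws s _ (ar_true (ps K q n).main)).pre u v huv
  have h4 := BT.par_ws (s := s) (on := offT) (d := 1) (K := K) (o := []) (D := 4) (E := 4)
    (m := (ps K q n).main) (by norm_num) (fun c hc => good_of_alt (hA c hc))
    (deps_main (iv hK n)) (by rw [rs_off]; exact hm)
  have h5 := h4 u' v' h1
  have h6 : (0 : ℤ) ≤ K := by positivity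
  constructor
  · linarith [h5.1]
  · linarith [h5.2]

/-- height of the word of the items -/
lemma hl_main {s : T → Bool} {q : ℕ → Sl T} {n : ℕ} (hK : 2 ≤ K)
    (hs : ∀ c ∈ (ps K q n).cl, s c.1 = false ∧ s c.2.2 = true)
    (hA : ∀ c ∈ (ps K q n).cl, Alt s (du c.2.1)) :
    hl (sw s onT q n) = hl (ml s (du (ps K q n).main)) := by
  rw [← ws_main s onT (by omega) n hs, (ri_ws s _ (ar_true (ps K q n).main)).hl,
    BT.hl_ws (d := 1) _ (fun c hc => good_of_alt (hA c hc)), rs_off]

end Pool.Agent.MP42.PD
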