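import Pool.Agent.MP42.PD.C45
import Pool.Agent.MP42.PD.Core2

/-!
# The circle lemma C3: the root of a closed level (owner helper86)
-/

set_option autoImplicit false

namespace Pool.Agent.MP42.PD

open U

namespace Pl

variable {T : Type*} (P : Pl T)

/-- the direct tokens of the pending part are units -/
lemma pend_un {K : ℕ} : ∀ x ∈ du (Ps.pend (ps K P.q P.n).stk), isun P.q P.n x := by
  have hkd := kd (K := K) (q := P.q) P.n
  have key : ∀ (l : List (Tk × List (BT Tk))),
      (∀ g ∈ l, isun P.q P.n g.1 ∧ ∀ x ∈ du g.2, isun P.q P.n x) →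
      ∀ x ∈ du (Ps.pend l), isun P.q P.n x := by
    intro l
    induction l with
    | nil => intro _ x hx; cases hx
    | cons g l ih =>
      intro hl x hx
      rw [Ps.pend_cons, du_append, du_u] at hx
      rcases List.mem_append.1 hx with hx | hx
      · exact ih (fun g hg => hl g (List.mem_cons_of_mem _ hg)) x hx
      · rcases List.mem_cons.1 hx with rfl | hx
        · exact (hl g List.mem_cons_self).1
        · exact (hl g List.mem_cons_self).2 x hx
  exact key _ hkd.stk

/-- **C3** -/
theorem c3 {K : ℕ} (hK : 3 ≤ K) {D : ℤ} (hD : 2 * (K : ℤ) + 2 ≤ D) : P.C3 K D := by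
  intro h1 hev l r F hE hlr hF
  have hK0 : 0 < K := by omega
  have hnu : Even (du (ps K P.q P.n).main).length := by
    rw [du_length, ← P.nod_even (K := K) (by omega)]
    exact hev
  have he : ∀ n ∈ (ps K P.q P.n).cl.map tri, Even n.2.1.length := by
    intro n hn
    obtain ⟨z, hz, rfl⟩ := List.mem_map.1 hn
    show Even (du z.2.1).length
    rw [du_length]
    exact (iv (by omega) P.n).cl z hz
  have hsum : ∀ V ∈ F, ∀ V' ∈ F, V l * V' l + (V r * V' r + P.ss V V') = 0 := by
    intro V hV V' hV'
    rw [hF V hV V' hV', hlr V hV, hlr V' hV', add_zero]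
    exact b_add_self _
  have hrot : ∀ (V : Tk → B) (w : List (Bool × Tk)),
      Cl V ([(true, Tk.r), (true, Tk.l)] ++ w) → Cl V (((true, Tk.l) :: w) ++ [(true, Tk.r)]) := by
    intro V w h
    have h' : Cl V ([(true, Tk.r)] ++ ((true, Tk.l) :: w)) := h
    exact h'.rot
  rcases Nat.lt_or_ge (P.lam K) 1 with h0 | h0
  · -- no left over
    have h0' : P.lam K = 0 := by omega
    have hperm : (((Tk.l, du (ps K P.q P.n).main, Tk.r) ::
        (ps K P.q P.n).cl.map tri).flatMap tk3).Perm
        (Tk.l :: Tk.r :: (du (ps K P.q P.n).main ++ (ps K P.q P.n).cl.flatMap ct)) := by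
      rw [List.flatMap_cons, tk3_tri]
      show (Tk.l :: (du (ps K P.q P.n).main ++ [Tk.r]) ++ _).Perm _
      rw [List.cons_append, List.append_assoc]
      exact List.Perm.cons _ List.perm_middle
    obtain ⟨s, g1, g2⟩ := selA ((Tk.l, du (ps K P.q P.n).main, Tk.r) :: (ps K P.q P.n).cl.map tri)
      (hperm.nodup_iff.2 (List.nodup_cons.2 ⟨by
        rw [List.mem_cons, not_or]
        exact ⟨by simp, P.not_mem_l hK0⟩,
        List.nodup_cons.2 ⟨P.not_mem_r hK0, P.tks_nodup hK0⟩⟩))
      (by
        intro n hn
        rcases List.mem_cons.1 hn with rfl | hn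
        · exact hnu
        · exact he n hn)
      {W | ∃ V ∈ F, W = P.val l r V} (by
        rintro _ ⟨V, hV, rfl⟩ _ ⟨V', hV', rfl⟩
        rw [sp_perm' hperm, sp_cons, sp_cons, P.tks_sp hK0]
        exact hsum V hV V' hV')
    obtain ⟨s', e1, e2, e3, e4, -⟩ := P.sgn_mn hK0 s
    have hun := P.main_un h0'
    have hml : ml s' (du (ps K P.q P.n).main) = ml s (du (ps K P.q P.n).main) :=
      ml_congr fun x hx => e4 x hx (P.not_un_po (hun x hx))
    have hA : ∀ z ∈ (ps K P.q P.n).cl, Alt s' (du z.2.1) := fun z hz =>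
      alt_congr (fun x hx => (e3 z hz x hx).symm)
        (g1 (tri z) (List.mem_cons_of_mem _ (List.mem_map_of_mem hz)))
    have hAm : Alt s (du (ps K P.q P.n).main) :=
      g1 (Tk.l, du (ps K P.q P.n).main, Tk.r) List.mem_cons_self
    refine ⟨sgp s', ?_, ?_, ?_⟩
    · rw [P.hl_W l r s' e1, hl_mn hK0 e2 hA, hml, alt_hl hAm]
    · refine P.bdd_W l r s' e1 ?_
      intro u v huv
      have h4 := pre_mn (by omega) e2 hA (a := 1) (b := 1) (by
        intro u v huv
        rw [hml] at huv
        exact alt_par hAm u v huv) u v huv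
      have h5 : (0 : ℤ) ≤ K := by positivity
      constructor
      · linarith [h4.1]
      · linarith [h4.2]
    · intro V hV hC
      have hC' : Cl V (P.W (sgp s') ++ P.rel l r [(true, Tk.r), (true, Tk.l)]) := by
        have h : Cl V ([(true, l)] ++ (P.W (sgp s') ++ [(true, r)])) := hC
        have h' := h.rot
        rw [List.append_assoc] at h'
        exact h'
      obtain ⟨k1, k2, k3⟩ := P.co_run hK l r e1 e2 hA (hE V hV) hC'
      have key := g2 _ ⟨V, hV, rfl⟩ (by
        intro n hn
        rcases List.mem_cons.1 hn with rfl | hn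
        · show Cl _ ((true, Tk.l) :: (ml s (du (ps K P.q P.n).main) ++ [(true, Tk.r)]))
          rw [← hml]
          exact hrot _ _ k1
        · obtain ⟨z, hz, rfl⟩ := List.mem_map.1 hn
          have e : wn3 s (tri z) = wn3 s' (tri z) := by
            have e' : ml s (du z.2.1) = ml s' (du z.2.1) := ml_congr fun x hx => (e3 z hz x hx).symm
            show (true, z.1) :: (ml s (du z.2.1) ++ [(true, z.2.2)]) = _
            rw [e']
            rfl
          rw [e]
          exact k2 z hz)
      have key0 := key (Tk.l, du (ps K P.q P.n).main, Tk.r) List.mem_cons_self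
      refine k3 (by omega) (V l)
        (fun z hz => key _ (List.mem_cons_of_mem _ (List.mem_map_of_mem hz))) key0.2 ?_ ?_
      · intro x hx
        rcases List.mem_cons.1 hx with rfl | hx
        · exact (hlr V hV).symm
        · rw [List.mem_singleton.1 hx]
          rfl
      · rw [hml]
        simp only [List.cons_append, List.nil_append, hl_cons, alt_hl hAm]
        norm_num
  · -- one left over
    have h0' : P.lam K = 1 := by omega
    obtain ⟨g, hg⟩ : ∃ g, (ps K P.q P.n).seg = [g] :=
      List.length_eq_one_iff.1 (by rw [P.seg_length, h0'])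
    have hdu : du (ps K P.q P.n).main = g.2 :: du (Ps.pend (ps K P.q P.n).stk) := by
      rw [du_main (iv (K := K) (by omega) P.n), hg]
      rfl
    have hpo : ispo P.q P.n g.2 :=
      ((kd (K := K) (q := P.q) P.n).seg g (by rw [hg]; exact List.mem_cons_self)).1
    have hfs : Odd (du (Ps.pend (ps K P.q P.n).stk)).length := by
      rw [hdu, List.length_cons, Nat.even_add_one, Nat.not_even_iff_odd] at hnu
      exact hnu
    have hperm : ((Tk.l :: g.2 :: (du (Ps.pend (ps K P.q P.n).stk) ++ [Tk.r])) ++
        ((ps K P.q P.n).cl.map tri).flatMap tk3).Perm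
        (Tk.l :: Tk.r :: (du (ps K P.q P.n).main ++ (ps K P.q P.n).cl.flatMap ct)) := by
      rw [tk3_tri, hdu, List.cons_append, List.cons_append, List.append_assoc]
      refine List.Perm.cons _ ?_
      refine (List.Perm.cons _ List.perm_middle).trans ?_
      exact List.Perm.swap _ _ _
    obtain ⟨s, g1, g2, g3⟩ := selR ((ps K P.q P.n).cl.map tri) Tk.l g.2
      (du (Ps.pend (ps K P.q P.n).stk)) Tk.r
      (hperm.nodup_iff.2 (List.nodup_cons.2 ⟨by
        rw [List.mem_cons, not_or]
        exact ⟨by simp, P.not_mem_l hK0⟩,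
        List.nodup_cons.2 ⟨P.not_mem_r hK0, P.tks_nodup hK0⟩⟩)) hfs he
      {W | ∃ V ∈ F, W = P.val l r V} (by
        rintro _ ⟨V, hV, rfl⟩
        exact hlr V hV) (by
        rintro _ ⟨V, hV, rfl⟩ _ ⟨V', hV', rfl⟩
        rw [sp_perm' hperm, sp_cons, sp_cons, P.tks_sp hK0]
        exact hsum V hV V' hV')
    obtain ⟨s', e1, e2, e3, e4, e5⟩ := P.sgn_mn hK0 s
    have hun := P.pend_un (K := K)
    have hml : ml s' (du (Ps.pend (ps K P.q P.n).stk)) = ml s (du (Ps.pend (ps K P.q P.n).stk)) :=
      ml_congr fun x hx => e4 x (by rw [hdu]; exact List.mem_cons_of_mem _ hx)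
        (P.not_un_po (hun x hx))
    have hml' : ml s' (du (ps K P.q P.n).main) =
        (true, g.2) :: ml s (du (Ps.pend (ps K P.q P.n).stk)) := by
      rw [hdu, ml_cons, hml, e5 _ hpo]
    have hA : ∀ z ∈ (ps K P.q P.n).cl, Alt s' (du z.2.1) := fun z hz =>
      alt_congr (fun x hx => (e3 z hz x hx).symm) (g1 (tri z) (List.mem_map_of_mem hz))
    refine ⟨sgp s', ?_, ?_, ?_⟩
    · rw [P.hl_W l r s' e1, hl_mn hK0 e2 hA, hml', hl_cons, altR_hl g2]
      norm_num
    · refine P.bdd_W l r s' e1 ?_
      intro u v huv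
      have h4 := pre_mn (by omega) e2 hA (a := 2) (b := 1) (by
        intro u v huv
        rw [hml'] at huv
        cases u with
        | nil => simp
        | cons x u =>
          simp only [List.cons_append, List.cons.injEq] at huv
          obtain ⟨rfl, huv⟩ := huv
          have := altR_par g2 u v huv
          rw [hl_cons]
          simp
          omega) u v huv
      have h5 : (0 : ℤ) ≤ K := by positivity
      constructor
      · linarith [h4.1]
      · linarith [h4.2]
    · intro V hV hC
      have hC' : Cl V (P.W (sgp s') ++ P.rel l r [(true, Tk.r), (true, Tk.l)]) := by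
        have h : Cl V ([(true, l)] ++ (P.W (sgp s') ++ [(true, r)])) := hC
        have h' := h.rot
        rw [List.append_assoc] at h'
        exact h'
      obtain ⟨k1, k2, k3⟩ := P.co_run hK l r e1 e2 hA (hE V hV) hC'
      obtain ⟨g4, g5, g6, g7⟩ := g3 _ ⟨V, hV, rfl⟩ (by
        intro n hn
        obtain ⟨z, hz, rfl⟩ := List.mem_map.1 hn
        have e : wn3 s (tri z) = wn3 s' (tri z) := by
          have e' : ml s (du z.2.1) = ml s' (du z.2.1) := ml_congr fun x hx => (e3 z hz x hx).symm
          show (true, z.1) :: (ml s (du z.2.1) ++ [(true, z.2.2)]) = _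
          rw [e']
          rfl
        rw [e]
        exact k2 z hz) (by
        rw [hml'] at k1
        exact hrot _ _ k1)
      refine k3 (by omega) (V l) (fun z hz => g4 _ (List.mem_map_of_mem hz)) ?_ ?_ ?_
      · intro x hx
        rw [hdu] at hx
        rcases List.mem_cons.1 hx with rfl | hx
        · exact g6
        · exact g7 x hx
      · intro x hx
        rcases List.mem_cons.1 hx with rfl | hx
        · exact g5
        · rw [List.mem_singleton.1 hx]
          rfl
      · rw [hml']
        simp only [List.cons_append, List.nil_append, hl_cons, altR_hl g2]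
        norm_num

end Pl

end Pool.Agent.MP42.PD
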