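import Pool.Agent.MP42.PD.Pos
import Pool.Agent.MP42.PD.Tks

/-!
# The circle lemmas: common part

`RI`: a word and the same word with riders.  `core_run`: a closed walk along the
full word gives closed walks along the words of all cells and along the main word.  `const_stack`.
`sc_of_rv`: the state condition of `Pos.lean`.
-/

set_option autoImplicit false

namespace Pool.Agent.MP42.PD

open U

variable {T : Type*}

/-! ## Riders are transparent -/

/-- `w'` = `w` with riders -/
inductive RI (P : T → T → Prop) : List (Bool × T) → List (Bool × T) → Prop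
  | nil : RI P [] []
  | cons (q : Bool × T) {w w' : List (Bool × T)} : RI P w w' → RI P (q :: w) (q :: w')
  | ins {a b : T} {w w' : List (Bool × T)} : P a b → RI P w w' →
      RI P w ((true, a) :: (false, b) :: w')

lemma RI.refl {P : T → T → Prop} (w : List (Bool × T)) : RI P w w := by
  induction w with
  | nil => exact RI.nil
  | cons q w ih => exact RI.cons q ih

lemma RI.append {P : T → T → Prop} {w₁ w₁' w₂ w₂' : List (Bool × T)} (h : RI P w₁ w₁')
    (h' : RI P w₂ w₂') : RI P (w₁ ++ w₂) (w₁' ++ w₂') := by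
  induction h with
  | nil => exact h'
  | cons q _ ih => exact RI.cons q ih
  | ins hp _ ih => exact RI.ins hp ih

lemma RI.hl {P : T → T → Prop} {w w' : List (Bool × T)} (h : RI P w w') : hl w' = hl w := by
  induction h with
  | nil => rfl
  | cons q _ ih => rw [hl_cons, hl_cons, ih]
  | ins _ _ ih => rw [hl_cons, hl_cons, ih]; simp

lemma RI.run {V : T → B} {w w' : List (Bool × T)} (h : RI (fun a b => V a = V b) w w') :
    ∀ {S S' : ℕ → B}, Run (lv V w') S S' → Run (lv V w) S S' := by
  induction h with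
  | nil => intro S S' h; exact h
  | @cons q w w' _ ih =>
    intro S S' h
    obtain ⟨c, t⟩ := q
    cases c
    · exact ih (h : Run (lv V w') (push (V t) S) S')
    · have h' : V t = S 0 ∧ Run (lv V w') (tl S) S' := h
      exact ⟨h'.1, ih h'.2⟩
  | @ins a b w w' hp _ ih =>
    intro S S' h
    have h' : V a = S 0 ∧ Run (lv V w') (push (V b) (tl S)) S' := h
    have e : push (V b) (tl S) = S := by
      rw [← hp, h'.1]
      funext j
      cases j <;> rfl
    rw [e] at h'
    exact ih h'.2

lemma RI.cl {V : T → B} {w w' : List (Bool × T)} (h : RI (fun a b => V a = V b) w w')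
    (h' : Cl V w') : Cl V w := by
  obtain ⟨S, h1, h2⟩ := h'
  exact ⟨S, h.run h1, h2⟩

lemma RI.pre {P : T → T → Prop} {w w' : List (Bool × T)} (h : RI P w w') :
    ∀ u v, w' = u ++ v → ∃ u' v', w = u' ++ v' ∧ U.hl u' ≤ U.hl u ∧ U.hl u ≤ U.hl u' + 1 := by
  induction h with
  | nil =>
    intro u v huv
    rw [(List.append_eq_nil_iff.1 huv.symm).1]
    exact ⟨[], [], rfl, by simp, by simp⟩
  | @cons q w w' _ ih =>
    intro u v huv
    cases u with
    | nil => exact ⟨[], q :: w, rfl, by simp, by simp⟩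
    | cons q' u =>
      simp only [List.cons_append, List.cons.injEq] at huv
      obtain ⟨rfl, huv⟩ := huv
      obtain ⟨u', v', h1, h2, h3⟩ := ih u v huv
      refine ⟨q :: u', v', by rw [h1]; rfl, ?_, ?_⟩
      · rw [hl_cons, hl_cons]; linarith
      · rw [hl_cons, hl_cons]; linarith
  | @ins a b w w' hp _ ih =>
    intro u v huv
    match u, huv with
    | [], _ => exact ⟨[], w, rfl, by simp, by simp⟩
    | [q], huv =>
      simp only [List.cons_append, List.nil_append, List.cons.injEq] at huv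
      rw [← huv.1]
      exact ⟨[], w, rfl, by simp, by simp⟩
    | q :: q' :: u, huv =>
      simp only [List.cons_append, List.cons.injEq] at huv
      obtain ⟨rfl, rfl, huv⟩ := huv
      obtain ⟨u', v', h1, h2, h3⟩ := ih u v huv
      refine ⟨u', v', h1, ?_, ?_⟩
      · rw [hl_cons, hl_cons]; simp; linarith
      · rw [hl_cons, hl_cons]; simp; linarith

theorem ri_w_ws {P : T → T → Prop} (s : T → Bool) : (∀ (i : BT T), ar1 P i →
    RI P (BT.w s offT i) (BT.w s onT i)) ∧
    ∀ (m : List (BT T)), ar P m → RI P (BT.ws s offT m) (BT.ws s onT m) := by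
  refine BT.ind ?_ ?_ ?_ ?_ ?_
  · intro t _
    rw [BT.w_u, BT.w_u]; exact RI.refl _
  · intro a b h
    rw [BT.w_e, BT.w_e]
    exact RI.ins (ar1_e.1 h) RI.nil
  · intro f m x ri_ws h
    rw [BT.w_br, BT.w_br]
    exact RI.cons _ ((ri_ws (ar1_br.1 h)).append (RI.refl _))
  · intro _
    rw [BT.ws_nil, BT.ws_nil]; exact RI.nil
  · intro i m ri_w1 ri_ws h
    rw [BT.ws_cons, BT.ws_cons]
    exact (ri_w1 (ar_cons.1 h).1).append (ri_ws (ar_cons.1 h).2)

theorem ri_w1 {P : T → T → Prop} (s : T → Bool) (i : BT T) (h : ar1 P i) :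
    RI P (BT.w s offT i) (BT.w s onT i) := (ri_w_ws s).1 i h

theorem ri_ws {P : T → T → Prop} (s : T → Bool) (m : List (BT T)) (h : ar P m) :
    RI P (BT.ws s offT m) (BT.ws s onT m) := (ri_w_ws s).2 m h

lemma ar_true (m : List (BT T)) : ar (fun _ _ => True) m :=
  (BT.ind (P := fun i => ar1 (fun _ _ => True) i) (Q := fun m => ar (fun _ _ => True) m)
    (fun _ => ar1_u) (fun _ _ => ar1_e.2 trivial) (fun _ _ _ h => ar1_br.2 h) ar_nil
    fun _ _ h1 h2 => ar_cons.2 ⟨h1, h2⟩).2 m

/-! ## Closed walks -/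

/-- the node of a cell -/
def tri (c : T × List (BT T) × T) : T × List T × T := (c.1, du c.2.1, c.2.2)

lemma vc_tri (s : T → Bool) (c : T × List (BT T) × T) : BT.vc s offT c = wn3 s (tri c) := by
  unfold BT.vc wn3 wn tri
  rw [rs_off]

/-- the signs of a cell -/
lemma good_of_alt {s : T → Bool} {c : T × List (BT T) × T} (h : Alt s (du c.2.1)) :
    BT.Good s offT 1 c := by
  refine ⟨?_, ?_, ?_⟩
  · rw [rs_off]; exact alt_hl h
  · intro u v huv
    rw [rs_off] at huv
    exact (alt_par h u v huv).2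
  · intro u v huv
    rw [rs_off] at huv
    exact (alt_par h u v huv).1

/-- **closed walks of the cells and of the main word** -/
theorem core_run {V : T → B} {s : T → Bool} {o : List (Bool × T)} {M : List (BT T)}
    (hG : ∀ c ∈ BT.cells M, Alt s (du c.2.1)) (hr : ar (fun a b => V a = V b) M) {S : ℕ → B}
    (h : Run (lv V (o ++ BT.ws s onT M)) S S) :
    Run (lv V (o ++ ml s (du M))) S S ∧ ∀ c ∈ BT.cells M, Cl V (wn3 s (tri c)) := by
  rw [lv_append] at h
  obtain ⟨S1, h1, h2⟩ := run_append.1 h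
  have h3 := (ri_ws s M hr).run h2
  obtain ⟨h4, h5⟩ := BT.run_ws (d := 1) V M (fun c hc => good_of_alt (hG c hc)) h3
  refine ⟨?_, ?_⟩
  · rw [lv_append, ← rs_off]
    exact run_append.2 ⟨S1, h1, h4⟩
  · intro c hc
    rw [← vc_tri]
    exact h5 c hc

/-! ## Constant stack -/

lemma bad_run {V : T → B} {k : B} {w : List (Bool × T)} : ∀ {S S' : ℕ → B},
    (∀ q ∈ w, V q.2 = k) → Run (lv V w) S S' → ∀ j : ℕ, S j ≠ k →
    ∃ j' : ℕ, (j' : ℤ) = j - hl w ∧ S' j' ≠ k := by
  induction w with
  | nil =>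
    intro S S' _ h j hj
    have h' : S = S' := h
    exact ⟨j, by simp, by rw [← h']; exact hj⟩
  | cons q w ih =>
    intro S S' hk h j hj
    obtain ⟨c, t⟩ := q
    have hk' : ∀ q ∈ w, V q.2 = k := fun q hq => hk q (List.mem_cons_of_mem _ hq)
    cases c
    · obtain ⟨j', h1, h2⟩ := ih hk' (h : Run (lv V w) (push (V t) S) S') (j + 1) hj
      exact ⟨j', by rw [h1, hl_cons]; push_cast; norm_num; ring, h2⟩
    · have h' : V t = S 0 ∧ Run (lv V w) (tl S) S' := h
      have h0 : j ≠ 0 := by
        rintro rfl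
        exact hj (by rw [← h'.1]; exact hk (true, t) List.mem_cons_self)
      obtain ⟨j, rfl⟩ : ∃ i, j = i + 1 := ⟨j - 1, by omega⟩
      obtain ⟨j', h1, h2⟩ := ih hk' h'.2 j hj
      exact ⟨j', by rw [h1, hl_cons]; push_cast; norm_num; ring, h2⟩

/-- **constant stack**: closed walk, one value, positive height -/
theorem const_stack {V : T → B} {k : B} {w : List (Bool × T)} {S : ℕ → B}
    (hk : ∀ q ∈ w, V q.2 = k) (hp : 0 < hl w) (h : Run (lv V w) S S) : ∀ j, S j = k := by
  intro j
  induction j using Nat.strong_induction_on with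
  | _ j ih =>
    by_contra hj
    obtain ⟨j', h1, h2⟩ := bad_run hk h j hj
    exact h2 (ih j' (by omega))

lemma back_run {V : T → B} {k : B} {w : List (Bool × T)} : ∀ {S S' : ℕ → B},
    (∀ q ∈ w, V q.2 = k) → Run (lv V w) S S' → ∀ j' : ℕ, S' j' ≠ k →
    ∃ j : ℕ, (j : ℤ) = j' + hl w ∧ S j ≠ k := by
  induction w with
  | nil =>
    intro S S' _ h j hj
    have h' : S = S' := h
    exact ⟨j, by simp, by rw [h']; exact hj⟩
  | cons q w ih =>
    intro S S' hk h j hj
    obtain ⟨c, t⟩ := q
    have hk' : ∀ q ∈ w, V q.2 = k := fun q hq => hk q (List.mem_cons_of_mem _ hq)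
    cases c
    · obtain ⟨i, h1, h2⟩ := ih hk' (h : Run (lv V w) (push (V t) S) S') j hj
      cases i with
      | zero => exact absurd (hk (false, t) List.mem_cons_self) h2
      | succ i =>
        refine ⟨i, ?_, h2⟩
        push_cast at h1
        rw [hl_cons]; simp; linarith
    · have h' : V t = S 0 ∧ Run (lv V w) (tl S) S' := h
      obtain ⟨i, h1, h2⟩ := ih hk' h'.2 j hj
      refine ⟨i + 1, ?_, h2⟩
      push_cast
      rw [hl_cons]; simp; linarith

/-- **constant stack**, negative height -/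
theorem const_stack' {V : T → B} {k : B} {w : List (Bool × T)} {S : ℕ → B}
    (hk : ∀ q ∈ w, V q.2 = k) (hp : hl w < 0) (h : Run (lv V w) S S) : ∀ j, S j = k := by
  intro j
  induction j using Nat.strong_induction_on with
  | _ j ih =>
    by_contra hj
    obtain ⟨i, h3, h4⟩ := back_run hk h j hj
    exact h4 (ih i (by omega))

end Pool.Agent.MP42.PD
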