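import Pool.Agent.MP42.PD.Const
import Pool.Agent.MP42.PD.Core

/-!
# The circle lemmas C4, C5: the root of the top level (owner helper86)

`sgn_mn`, `hl_mn`, `pre_mn`: signs, height and bounds of the word of the items; `co_run`: a closed
walk with own tokens `o` behind the items, one value on the main level.
-/

set_option autoImplicit false

namespace Pool.Agent.MP42.PD

open U

variable {T : Type*} {K : ℕ} {q : ℕ → Sl T}

/-! ## Bounds -/

lemma deps_flatMap {X : Type*} {l : List X} {f : X → List (BT T)} {D : ℕ}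
    (h : ∀ x ∈ l, BT.deps (f x) ≤ D) : BT.deps (l.flatMap f) ≤ D := by
  induction l with
  | nil => rw [List.flatMap_nil, BT.deps_nil]; omega
  | cons x l ih =>
    rw [List.flatMap_cons, deps_append]
    exact max_le (h x List.mem_cons_self) (ih fun y hy => h y (List.mem_cons_of_mem _ hy))

lemma dok_mem : ∀ {l : List (T × List (BT T))}, dok K l → ∀ g ∈ l, BT.deps g.2 ≤ K := by
  intro l
  induction l with
  | nil => intro _ g hg; cases hg
  | cons g l ih =>
    intro h g' hg'
    have h' : BT.deps g.2 + l.length + 1 ≤ K ∧ dok K l := h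
    rcases List.mem_cons.1 hg' with rfl | hg'
    · omega
    · exact ih h'.2 g' hg'

lemma deps_mn (hK : 2 ≤ K) (n : ℕ) : BT.deps (ps K q n).main ≤ K := by
  have h := iv (q := q) hK n
  unfold Ps.main Ps.low Ps.pend
  rw [deps_append, deps_append]
  refine max_le (max_le ?_ h.dcur) ?_
  · refine deps_flatMap fun g hg => ?_
    rw [deps_append]
    exact max_le (h.dseg g hg) (by rw [BT.deps_cons, BT.dep_u, BT.deps_nil]; omega)
  · refine deps_flatMap fun g hg => ?_
    rw [BT.deps_cons, BT.dep_u]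
    have := dok_mem h.dok g (List.mem_reverse.1 hg)
    omega

/-- height of the word of the items -/
theorem hl_mn (hK : 0 < K) {s : T → Bool} {n : ℕ}
    (hs : ∀ z ∈ (ps K q n).cl, s z.1 = false ∧ s z.2.2 = true)
    (hA : ∀ z ∈ (ps K q n).cl, Alt s (du z.2.1)) :
    hl (sw s onT q n) = hl (ml s (du (ps K q n).main)) := by
  rw [← ws_main s onT hK n hs, (ri_ws s _ (ar_true _)).hl,
    BT.hl_ws (d := 1) _ (fun c hc => good_of_alt (hA c hc)), rs_off]

/-- bounds of the word of the items -/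
theorem pre_mn (hK : 2 ≤ K) {s : T → Bool} {n : ℕ}
    (hs : ∀ z ∈ (ps K q n).cl, s z.1 = false ∧ s z.2.2 = true)
    (hA : ∀ z ∈ (ps K q n).cl, Alt s (du z.2.1)) {a b : ℤ}
    (hb : ∀ u v, ml s (du (ps K q n).main) = u ++ v → -a ≤ hl u ∧ hl u ≤ b) :
    ∀ u v, sw s onT q n = u ++ v → -(a + 2 * K) ≤ hl u ∧ hl u ≤ b + 1 := by
  intro u v huv
  rw [← ws_main s onT (by omega) n hs] at huv
  obtain ⟨u', v', h1, h2, h3⟩ := (ri_ws s _ (ar_true _)).pre u v huv
  obtain ⟨u'', v'', h4, h5, h6⟩ := BT.pre_ws (d := 1) (by norm_num) _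
    (fun c hc => good_of_alt (hA c hc)) u' v' h1
  rw [rs_off] at h4
  obtain ⟨h7, h8⟩ := hb u'' v'' h4
  have h9 : ((BT.deps (ps K q n).main : ℕ) : ℤ) ≤ K := by exact_mod_cast deps_mn hK n
  constructor
  · have : ((BT.deps (ps K q n).main : ℕ) : ℤ) * (1 + 1) ≤ 2 * K := by linarith
    linarith
  · linarith

namespace Pl

variable {T : Type*} (P : Pl T)

/-! ## Signs -/

lemma not_un_po {x : Tk} (h : isun P.q P.n x) : ¬ ispo P.q P.n x := by
  intro h'
  obtain ⟨t, _, h1, h2⟩ := P.isun_iff.1 h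
  obtain ⟨t', _, h3, h4⟩ := P.ispo_iff.1 h'
  rw [h2] at h4
  injection h4 with h5
  rw [← h5, h1] at h3
  cases h3

/-- **the signs of openers, closers and ports** -/
theorem sgn_mn {K : ℕ} (hK : 0 < K) (s : Tk → Bool) : ∃ s' : Tk → Bool,
    (∀ t < P.n, P.w t = .o → s' (.p t) = true) ∧
    (∀ z ∈ (ps K P.q P.n).cl, s' z.1 = false ∧ s' z.2.2 = true) ∧
    (∀ z ∈ (ps K P.q P.n).cl, ∀ x ∈ du z.2.1, s' x = s x) ∧
    (∀ x ∈ du (ps K P.q P.n).main, ¬ ispo P.q P.n x → s' x = s x) ∧
    (∀ x, ispo P.q P.n x → s' x = true) := by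
  classical
  have hkd := kd (K := K) (q := P.q) P.n
  have hnd := P.tks_nodup hK
  rw [List.nodup_append] at hnd
  obtain ⟨-, h2, h3⟩ := hnd
  rw [List.nodup_flatMap] at h2
  obtain ⟨h4, h5⟩ := h2
  have hop : ∀ x, ispo P.q P.n x → ¬ ∃ z ∈ (ps K P.q P.n).cl, x = z.1 := by
    rintro x hx ⟨z, hz, rfl⟩
    exact P.not_un_po (hkd.cl z hz).1 hx
  refine ⟨fun x => if ∃ z ∈ (ps K P.q P.n).cl, x = z.1 then false else
    if ispo P.q P.n x then true else s x, ?_, ?_, ?_, ?_, ?_⟩
  · intro t ht hw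
    have h : ispo P.q P.n (.p t) := P.ispo_iff.2 ⟨t, ht, hw, rfl⟩
    simp only [hop _ h, if_false, h, if_true]
  · intro z hz
    have h := (hkd.cl z hz).2.1
    refine ⟨?_, ?_⟩
    · have h' : ∃ z' ∈ (ps K P.q P.n).cl, z.1 = z'.1 := ⟨z, hz, rfl⟩
      simp only [h', if_true]
    · simp only [hop _ h, if_false, h, if_true]
  · intro z hz x hx
    have hun : ¬ ispo P.q P.n x := P.not_un_po ((hkd.cl z hz).2.2 x hx)
    have hno : ¬ ∃ z' ∈ (ps K P.q P.n).cl, x = z'.1 := by
      rintro ⟨z', hz', rfl⟩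
      by_cases e : z = z'
      · subst e
        have h6 := h4 z hz
        unfold ct at h6
        exact (List.nodup_cons.1 h6).1 (List.mem_append_left _ hx)
      · haveI : Std.Symm (Function.onFun List.Disjoint (ct (T := Tk))) :=
          ⟨fun a b hab => List.Disjoint.symm hab⟩
        have h6 : List.Disjoint (ct z) (ct z') := h5.forall hz hz' e
        exact h6 (List.mem_cons_of_mem _ (List.mem_append_left _ hx)) List.mem_cons_self
    simp only [hno, if_false, hun]
  · intro x hx hun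
    have hno : ¬ ∃ z' ∈ (ps K P.q P.n).cl, x = z'.1 := by
      rintro ⟨z', hz', rfl⟩
      exact h3 _ hx _ (List.mem_flatMap.2 ⟨z', hz', List.mem_cons_self⟩) rfl
    simp only [hno, if_false, hun]
  · intro x h
    simp only [hop _ h, if_false, h, if_true]

/-! ## The run -/

/-- **closed walks with own tokens behind the items** -/
theorem co_run {K : ℕ} (hK : 3 ≤ K) (l r : T) {s : Tk → Bool} {V : T → B}
    (ho : ∀ t < P.n, P.w t = .o → s (.p t) = true)
    (hs : ∀ z ∈ (ps K P.q P.n).cl, s z.1 = false ∧ s z.2.2 = true)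
    (hA : ∀ z ∈ (ps K P.q P.n).cl, Alt s (du z.2.1)) (hE : P.Eq V) {o : List (Bool × Tk)}
    (h : Cl V (P.W (sgp s) ++ P.rel l r o)) :
    Cl (P.val l r V) (o ++ ml s (du (ps K P.q P.n).main)) ∧
    (∀ z ∈ (ps K P.q P.n).cl, Cl (P.val l r V) (wn3 s (tri z))) ∧
    (P.lam K ≤ 2 → ∀ c, (∀ z ∈ (ps K P.q P.n).cl, on3 (P.val l r V) (tri z)) →
      (∀ x ∈ du (ps K P.q P.n).main, P.val l r V x = c) → (∀ x ∈ o, P.val l r V x.2 = c) →
      hl (o ++ ml s (du (ps K P.q P.n).main)) ≠ 0 → P.M K V c) := by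
  have h1 := h.rot
  rw [P.W_eq l r s ho, ← P.rel_append, P.cl_rel] at h1
  obtain ⟨S, h2, h3⟩ := h1
  have h2' := h2
  rw [← ws_main s onT (by omega) P.n hs] at h2'
  have har : ar (fun a b => P.val l r V a = P.val l r V b) (ps K P.q P.n).main :=
    (ar_main (by omega) _ P.n).2 ((P.eq_iff l r V).1 hE)
  obtain ⟨h4, h5⟩ := core_run hA har h2'
  refine ⟨⟨S, h4, h3⟩, h5, ?_⟩
  intro hl2 c hz hm hoc hne
  have hk : ∀ x ∈ o ++ ml s (du (ps K P.q P.n).main), P.val l r V x.2 = c := by
    intro x hx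
    rcases List.mem_append.1 hx with hx | hx
    · exact hoc x hx
    · obtain ⟨t, ht, rfl⟩ := List.mem_map.1 hx
      exact hm t ht
  have hS : ∀ j, S j = c := by
    rcases lt_or_gt_of_ne hne with h6 | h6
    · exact const_stack' hk h6 h4
    · exact const_stack hk h6 h4
  rw [lv_append, run_append] at h2
  obtain ⟨S₁, h6, h7⟩ := h2
  have hS₁ : ∀ j, S₁ j = c := by
    have key : ∀ (w : List (Bool × Tk)) (S S' : ℕ → B), (∀ x ∈ w, P.val l r V x.2 = c) →
        (∀ j, S j = c) → Run (lv (P.val l r V) w) S S' → ∀ j, S' j = c := by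
      intro w
      induction w with
      | nil => intro S S' _ hS hr; rw [lv_nil, run_nil] at hr; rw [← hr]; exact hS
      | cons x w ih =>
        intro S S' hw hS hr
        obtain ⟨b, t⟩ := x
        have hw' : ∀ x ∈ w, P.val l r V x.2 = c := fun x hx => hw x (List.mem_cons_of_mem _ hx)
        cases b
        · refine ih _ _ hw' ?_ (hr : Run (lv _ w) (push (P.val l r V t) S) S')
          intro j
          cases j with
          | zero => exact hw (false, t) List.mem_cons_self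
          | succ j => exact hS j
        · have hr' : P.val l r V t = S 0 ∧ Run (lv _ w) (tl S) S' := hr
          exact ih _ _ hw' (fun j => hS (j + 1)) hr'.2
    exact key o S S₁ hoc hS h6
  exact P.core_c hK hl2 l r hE hs (fun z hz' => good_of_alt (hA z hz'))
    (fun z hz' => hz z hz') hm hS₁ h7

/-- the tokens of the nodes -/
lemma tk3_tri {X : Type*} (cs : List (X × List (BT X) × X)) :
    (cs.map tri).flatMap tk3 = cs.flatMap ct := by
  rw [List.flatMap_map]
  rfl

lemma not_mem_l {K : ℕ} (hK : 0 < K) : Tk.l ∉ du (ps K P.q P.n).main ++ (ps K P.q P.n).cl.flatMap ct := by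
  intro h
  obtain ⟨t, -, -, h1⟩ := P.mem_utq.1 ((tks_perm hK P.n).mem_iff.1 h)
  cases h1

lemma not_mem_r {K : ℕ} (hK : 0 < K) : Tk.r ∉ du (ps K P.q P.n).main ++ (ps K P.q P.n).cl.flatMap ct := by
  intro h
  obtain ⟨t, -, -, h1⟩ := P.mem_utq.1 ((tks_perm hK P.n).mem_iff.1 h)
  cases h1

/-- no left overs: the direct tokens of the main level are units -/
lemma main_un {K : ℕ} (h0 : P.lam K = 0) :
    ∀ x ∈ du (ps K P.q P.n).main, isun P.q P.n x := by
  have hkd := kd (K := K) (q := P.q) P.n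
  have hseg : (ps K P.q P.n).seg = [] := List.length_eq_zero_iff.1 (by rw [P.seg_length, h0])
  intro x hx
  unfold Ps.main Ps.low at hx
  rw [hseg, List.flatMap_nil, List.nil_append, du_append] at hx
  rcases List.mem_append.1 hx with hx | hx
  · exact hkd.cur x hx
  · have key : ∀ (l : List (Tk × List (BT Tk))),
        (∀ g ∈ l, isun P.q P.n g.1 ∧ ∀ x ∈ du g.2, isun P.q P.n x) →
        ∀ x ∈ du (Ps.pend l), isun P.q P.n x := by
      intro l
      induction l with
      | nil => intro _ x hx; cases hx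
      | cons g l ih =>
        intro hl x hx
        rw [Ps.pend_cons, du_append, du_u] at hx
        rcases List.mem_append.1 hx with hx | hx
        · exact ih (fun g hg => hl g (List.mem_cons_of_mem _ hg)) x hx
        · rcases List.mem_cons.1 hx with rfl | hx
          · exact (hl g List.mem_cons_self).1
          · exact (hl g List.mem_cons_self).2 x hx
    exact key _ hkd.stk x hx

lemma altR_par {s : Tk → Bool} {us : List Tk} (h : AltR s us) :
    ∀ u v, ml s us = u ++ v → -2 ≤ hl u ∧ hl u ≤ 0 := by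
  obtain ⟨f, ms, rfl, h1, h2⟩ := h
  intro u v huv
  rw [ml_cons, h1] at huv
  cases u with
  | nil => simp
  | cons x u =>
    simp only [List.cons_append, List.cons.injEq] at huv
    obtain ⟨rfl, huv⟩ := huv
    have := alt_par h2 u v huv
    rw [hl_cons]
    simp
    omega

/-- **C4** -/
theorem c4 {K : ℕ} (hK : 3 ≤ K) {D : ℤ} (hD : 2 * (K : ℤ) + 2 ≤ D) : P.C4 K D := by
  intro h0 hodd g F hE hF
  have hK0 : 0 < K := by omega
  have hnu : Odd (du (ps K P.q P.n).main).length := by
    rw [du_length, ← Nat.not_even_iff_odd, ← P.nod_even (K := K) (by omega),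
      Nat.not_even_iff_odd]
    exact hodd
  have he : ∀ n ∈ (ps K P.q P.n).cl.map tri, Even n.2.1.length := by
    intro n hn
    obtain ⟨z, hz, rfl⟩ := List.mem_map.1 hn
    show Even (du z.2.1).length
    rw [du_length]
    exact (iv (by omega) P.n).cl z hz
  have hperm : ((du (ps K P.q P.n).main ++ [Tk.l]) ++ ((ps K P.q P.n).cl.map tri).flatMap tk3).Perm
      (Tk.l :: (du (ps K P.q P.n).main ++ (ps K P.q P.n).cl.flatMap ct)) := by
    rw [tk3_tri, List.append_assoc]
    exact List.perm_middle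
  obtain ⟨s, h1, h2, h3⟩ := selT1 ((ps K P.q P.n).cl.map tri) (du (ps K P.q P.n).main) Tk.l
    (hperm.nodup_iff.2 (List.nodup_cons.2 ⟨P.not_mem_l hK0, P.tks_nodup hK0⟩)) hnu he
    {W | ∃ V ∈ F, W = P.val g g V} (by
      rintro _ ⟨V, hV, rfl⟩ _ ⟨V', hV', rfl⟩
      rw [sp_perm' hperm, sp_cons, P.tks_sp hK0]
      exact hF V hV V' hV')
  obtain ⟨s', e1, e2, e3, e4, -⟩ := P.sgn_mn hK0 s
  have hun := P.main_un h0
  have hml : ml s' (du (ps K P.q P.n).main) = ml s (du (ps K P.q P.n).main) :=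
    ml_congr fun x hx => e4 x hx (P.not_un_po (hun x hx))
  have hA : ∀ z ∈ (ps K P.q P.n).cl, Alt s' (du z.2.1) := fun z hz =>
    alt_congr (fun x hx => (e3 z hz x hx).symm) (h1 (tri z) (List.mem_map_of_mem hz))
  refine ⟨sgp s', ?_, ?_, ?_⟩
  · rw [P.hl_W g g s' e1, hl_mn hK0 e2 hA, hml, altR_hl h2]
  · refine P.bdd_W g g s' e1 ?_
    intro u v huv
    have h4 := pre_mn (by omega) e2 hA (a := 2) (b := 0) (by
      intro u v huv
      rw [hml] at huv
      exact altR_par h2 u v huv) u v huv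
    constructor
    · linarith [h4.1]
    · linarith [h4.2]
  · intro V hV hC
    obtain ⟨g1, g2, g3⟩ := P.co_run hK g g (o := [(false, Tk.l)]) e1 e2 hA (hE V hV) hC
    have hw : ∀ n ∈ (ps K P.q P.n).cl.map tri, Cl (P.val g g V) (wn3 s n) := by
      intro n hn
      obtain ⟨z, hz, rfl⟩ := List.mem_map.1 hn
      have e : wn3 s (tri z) = wn3 s' (tri z) := by
        have e' : ml s (du z.2.1) = ml s' (du z.2.1) := ml_congr fun x hx => (e3 z hz x hx).symm
        show (true, z.1) :: (ml s (du z.2.1) ++ [(true, z.2.2)]) = _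
        rw [e']
        rfl
      rw [e]
      exact g2 z hz
    obtain ⟨g4, g5⟩ := h3 _ ⟨V, hV, rfl⟩ hw (by
      unfold wt1
      rw [← hml]
      exact g1.rot)
    refine g3 (by omega) (V g) (fun z hz => g4 _ (List.mem_map_of_mem hz)) g5 ?_ ?_
    · intro x hx
      rw [List.mem_singleton.1 hx]
      rfl
    · rw [hml]
      simp only [List.cons_append, List.nil_append, hl_cons, altR_hl h2]
      norm_num

/-- **C5** -/
theorem c5 {K : ℕ} (hK : 3 ≤ K) {D : ℤ} (hD : 2 * (K : ℤ) + 2 ≤ D) : P.C5 K D := by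
  intro h0 hev g g' F hE hF
  have hK0 : 0 < K := by omega
  have hnu : Even (du (ps K P.q P.n).main).length := by
    rw [du_length, ← P.nod_even (K := K) (by omega)]
    exact hev
  have he : ∀ n ∈ (ps K P.q P.n).cl.map tri, Even n.2.1.length := by
    intro n hn
    obtain ⟨z, hz, rfl⟩ := List.mem_map.1 hn
    show Even (du z.2.1).length
    rw [du_length]
    exact (iv (by omega) P.n).cl z hz
  have hperm : ((Tk.r :: (du (ps K P.q P.n).main ++ [Tk.l])) ++
      ((ps K P.q P.n).cl.map tri).flatMap tk3).Perm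
      (Tk.l :: Tk.r :: (du (ps K P.q P.n).main ++ (ps K P.q P.n).cl.flatMap ct)) := by
    rw [tk3_tri, List.cons_append, List.append_assoc]
    exact (List.Perm.cons _ List.perm_middle).trans (List.Perm.swap _ _ _)
  obtain ⟨s, h1, h2, h3⟩ := selT2 ((ps K P.q P.n).cl.map tri) (du (ps K P.q P.n).main) Tk.l Tk.r
    (hperm.nodup_iff.2 (List.nodup_cons.2 ⟨by
      rw [List.mem_cons, not_or]
      exact ⟨by simp, P.not_mem_l hK0⟩,
      List.nodup_cons.2 ⟨P.not_mem_r hK0, P.tks_nodup hK0⟩⟩)) hnu he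
    {W | ∃ V ∈ F, W = P.val g g' V} (by
      rintro _ ⟨V, hV, rfl⟩ _ ⟨V', hV', rfl⟩
      rw [sp_perm' hperm, sp_cons, sp_cons, P.tks_sp hK0, ← add_assoc]
      exact hF V hV V' hV')
  obtain ⟨s', e1, e2, e3, e4, -⟩ := P.sgn_mn hK0 s
  have hun := P.main_un h0
  have hml : ml s' (du (ps K P.q P.n).main) = ml s (du (ps K P.q P.n).main) :=
    ml_congr fun x hx => e4 x hx (P.not_un_po (hun x hx))
  have hA : ∀ z ∈ (ps K P.q P.n).cl, Alt s' (du z.2.1) := fun z hz =>
    alt_congr (fun x hx => (e3 z hz x hx).symm) (h1 (tri z) (List.mem_map_of_mem hz))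
  refine ⟨sgp s', ?_, ?_, ?_⟩
  · rw [P.hl_W g g' s' e1, hl_mn hK0 e2 hA, hml, alt_hl h2]
  · refine P.bdd_W g g' s' e1 ?_
    intro u v huv
    have h4 := pre_mn (by omega) e2 hA (a := 1) (b := 1) (by
      intro u v huv
      rw [hml] at huv
      exact alt_par h2 u v huv) u v huv
    have h5 : (0 : ℤ) ≤ K := by positivity
    constructor
    · linarith [h4.1]
    · linarith [h4.2]
  · intro V hV hC
    obtain ⟨g1, g2, g3⟩ := P.co_run hK g g' (o := [(false, Tk.l), (false, Tk.r)]) e1 e2 hA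
      (hE V hV) hC
    have hw : ∀ n ∈ (ps K P.q P.n).cl.map tri, Cl (P.val g g' V) (wn3 s n) := by
      intro n hn
      obtain ⟨z, hz, rfl⟩ := List.mem_map.1 hn
      have e : wn3 s (tri z) = wn3 s' (tri z) := by
        have e' : ml s (du z.2.1) = ml s' (du z.2.1) := ml_congr fun x hx => (e3 z hz x hx).symm
        show (true, z.1) :: (ml s (du z.2.1) ++ [(true, z.2.2)]) = _
        rw [e']
        rfl
      rw [e]
      exact g2 z hz
    obtain ⟨g4, g5, g6⟩ := h3 _ ⟨V, hV, rfl⟩ hw (by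
      unfold wt2
      rw [← hml]
      have g7 : Cl (P.val g g' V)
          ([(false, Tk.l)] ++ ((false, Tk.r) :: ml s' (du (ps K P.q P.n).main))) := g1
      exact g7.rot)
    refine ⟨g5, g3 (by omega) (V g) (fun z hz => g4 _ (List.mem_map_of_mem hz)) g6 ?_ ?_⟩
    · intro x hx
      rcases List.mem_cons.1 hx with rfl | hx
      · rfl
      · rw [List.mem_singleton.1 hx]
        exact g5
    · rw [hml]
      simp only [List.cons_append, List.nil_append, hl_cons, alt_hl h2]
      norm_num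

end Pl

end Pool.Agent.MP42.PD
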