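import Mathlib

/-!
Bounded stack on a word of slots. A slot carries no letter (`none`), a unit (`some true`) or a port
(`some false`). A unit is pushed if the stack has fewer than `K` elements, otherwise it pops the top;
a port pops the top, or it is left over.
-/

namespace MP42.Stk

structure St where
  h : ℕ
  u : ℕ
  m : ℕ

def step (K : ℕ) (s : St) : Option Bool → St
  | none => s
  | some true => if s.h < K then ⟨s.h + 1, s.u, s.m⟩ else ⟨s.h - 1, s.u + 1, s.m⟩
  | some false => if s.h = 0 then ⟨0, s.u, s.m + 1⟩ else ⟨s.h - 1, s.u, s.m⟩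

def run (K : ℕ) (w : ℕ → Option Bool) : ℕ → St
  | 0 => ⟨0, 0, 0⟩
  | t + 1 => step K (run K w t) (w t)

/-- stack height after `t` slots -/
def ht (K : ℕ) (w : ℕ → Option Bool) (t : ℕ) : ℕ := (run K w t).h
/-- number of unit pairs after `t` slots -/
def up (K : ℕ) (w : ℕ → Option Bool) (t : ℕ) : ℕ := (run K w t).u
/-- number of left overs after `t` slots -/
def lo (K : ℕ) (w : ℕ → Option Bool) (t : ℕ) : ℕ := (run K w t).m

variable {K : ℕ} {w w' : ℕ → Option Bool}

lemma ht_zero : ht K w 0 = 0 := rfl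
lemma up_zero : up K w 0 = 0 := rfl
lemma lo_zero : lo K w 0 = 0 := rfl

lemma none_step {t : ℕ} (h : w t = none) :
    ht K w (t + 1) = ht K w t ∧ up K w (t + 1) = up K w t ∧ lo K w (t + 1) = lo K w t := by
  simp [ht, up, lo, run, step, h]

lemma unit_lt {t : ℕ} (h : w t = some true) (hk : ht K w t < K) :
    ht K w (t + 1) = ht K w t + 1 ∧ up K w (t + 1) = up K w t ∧ lo K w (t + 1) = lo K w t := by
  have hk' : (run K w t).h < K := hk
  simp [ht, up, lo, run, step, h, hk']

lemma unit_ge {t : ℕ} (h : w t = some true) (hk : K ≤ ht K w t) :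
    ht K w (t + 1) = ht K w t - 1 ∧ up K w (t + 1) = up K w t + 1 ∧
      lo K w (t + 1) = lo K w t := by
  have hk' : ¬ (run K w t).h < K := not_lt.2 hk
  simp [ht, up, lo, run, step, h, hk']

lemma port_pos {t : ℕ} (h : w t = some false) (hk : 0 < ht K w t) :
    ht K w (t + 1) = ht K w t - 1 ∧ up K w (t + 1) = up K w t ∧ lo K w (t + 1) = lo K w t := by
  have hk' : ¬ (run K w t).h = 0 := Nat.pos_iff_ne_zero.1 hk
  simp [ht, up, lo, run, step, h, hk']

lemma port_zero {t : ℕ} (h : w t = some false) (hk : ht K w t = 0) :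
    ht K w (t + 1) = 0 ∧ up K w (t + 1) = up K w t ∧ lo K w (t + 1) = lo K w t + 1 := by
  have hk' : (run K w t).h = 0 := hk
  simp [ht, up, lo, run, step, h, hk']

lemma ht_le (hK : 1 ≤ K) (t : ℕ) : ht K w t ≤ K := by
  induction t with
  | zero => simp [ht_zero]
  | succ t ih =>
    rcases hw : w t with _ | _ | _
    · rw [(none_step hw).1]; exact ih
    · rcases Nat.eq_zero_or_pos (ht K w t) with h0 | h0
      · rw [(port_zero hw h0).1]; omega
      · rw [(port_pos hw h0).1]; omega
    · rcases lt_or_ge (ht K w t) K with h0 | h0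
      · rw [(unit_lt hw h0).1]; omega
      · rw [(unit_ge hw h0).1]; omega

open Classical in
/-- number of slots before `t` with property `p` -/
noncomputable def cnt (p : ℕ → Prop) (t : ℕ) : ℕ := ((Finset.range t).filter p).card

lemma cnt_zero (p : ℕ → Prop) : cnt p 0 = 0 := by simp [cnt]

lemma cnt_succ_pos {p : ℕ → Prop} {t : ℕ} (h : p t) : cnt p (t + 1) = cnt p t + 1 := by
  classical
  unfold cnt
  rw [Finset.range_add_one, Finset.filter_insert, if_pos h, Finset.card_insert_of_notMem]
  simp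

lemma cnt_succ_neg {p : ℕ → Prop} {t : ℕ} (h : ¬ p t) : cnt p (t + 1) = cnt p t := by
  classical
  unfold cnt
  rw [Finset.range_add_one, Finset.filter_insert, if_neg h]

def isU (w : ℕ → Option Bool) (t : ℕ) : Prop := w t = some true
def isP (w : ℕ → Option Bool) (t : ℕ) : Prop := w t = some false

/-- the basic identity -/
lemma sum_id (hK : 1 ≤ K) (t : ℕ) :
    ht K w t + 2 * up K w t + cnt (isP w) t = cnt (isU w) t + lo K w t := by
  induction t with
  | zero => simp [ht_zero, up_zero, lo_zero, cnt_zero]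
  | succ t ih =>
    rcases hw : w t with _ | _ | _
    · have e1 : ¬ isU w t := by unfold isU; rw [hw]; simp
      have e2 : ¬ isP w t := by unfold isP; rw [hw]; simp
      obtain ⟨a1, a2, a3⟩ := none_step (K := K) hw
      rw [cnt_succ_neg e1, cnt_succ_neg e2, a1, a2, a3]
      exact ih
    · have e1 : ¬ isU w t := by unfold isU; rw [hw]; simp
      have e2 : isP w t := hw
      rw [cnt_succ_neg e1, cnt_succ_pos e2]
      rcases Nat.eq_zero_or_pos (ht K w t) with h0 | h0
      · obtain ⟨a1, a2, a3⟩ := port_zero (K := K) hw h0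
        rw [a1, a2, a3]; omega
      · obtain ⟨a1, a2, a3⟩ := port_pos (K := K) hw h0
        rw [a1, a2, a3]; omega
    · have e1 : isU w t := hw
      have e2 : ¬ isP w t := by unfold isP; rw [hw]; simp
      rw [cnt_succ_pos e1, cnt_succ_neg e2]
      rcases lt_or_ge (ht K w t) K with h0 | h0
      · obtain ⟨a1, a2, a3⟩ := unit_lt (K := K) hw h0
        rw [a1, a2, a3]; omega
      · obtain ⟨a1, a2, a3⟩ := unit_ge (K := K) hw h0
        rw [a1, a2, a3]; omega

/-- entries: slots where the new word gains a letter or loses a unit -/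
def isEnt (w w' : ℕ → Option Bool) (t : ℕ) : Prop :=
  (w t = none ∧ w' t ≠ none) ∨ (w t = some true ∧ w' t = none)

/-- the new word gains a unit -/
def isIu (w w' : ℕ → Option Bool) (t : ℕ) : Prop := w t = none ∧ w' t = some true

/-- a port is removed -/
def isDp (w w' : ℕ → Option Bool) (t : ℕ) : Prop := w t = some false ∧ w' t = none

/-- one slot of the comparison of two words; `n` = number of open passes -/
inductive Ok (K : ℕ) (w w' : ℕ → Option Bool) (n : ℕ → ℕ) (t : ℕ) : Prop
  | same (h : w' t = w t) (hn : n (t + 1) ≤ n t) : Ok K w w' n t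
  | ins (h : w t = none) (h' : w' t ≠ none) (hn : n (t + 1) ≤ n t + 1) : Ok K w w' n t
  | du (h : w t = some true) (h' : w' t = none) (hn : n (t + 1) ≤ n t + 1) : Ok K w w' n t
  | dp (h : w t = some false) (h' : w' t = none) (hn : n (t + 1) + 1 ≤ n t) : Ok K w w' n t
  | dz (h : w t = some false) (h' : w' t = none) (h0 : ht K w t = 0) (hn : n (t + 1) ≤ n t) :
      Ok K w w' n t

/-- **comparison lemma** -/
theorem cmp (hK : 1 ≤ K) {n : ℕ → ℕ} {L : ℕ} (h0 : n 0 = 0) (hn : ∀ t ≤ L, n t ≤ ht K w t)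
    (hok : ∀ t < L, Ok K w w' n t) (t : ℕ) (ht' : t ≤ L) :
    up K w' t ≤ up K w t + cnt (isIu w w') t ∧
    ht K w' t + 2 * up K w' t + n t ≤ ht K w t + 2 * up K w t + 2 * cnt (isIu w w') t := by
  induction t with
  | zero => simp [ht_zero, up_zero, cnt_zero, h0]
  | succ t ih =>
    obtain ⟨i1, i2⟩ := ih (by omega)
    have hn0 := hn t (by omega)
    have hn1 := hn (t + 1) ht'
    have hl := ht_le (w := w) hK t
    have hl' := ht_le (w := w') hK t
    rcases hok t (by omega) with ⟨h, hm⟩ | ⟨h, h', hm⟩ | ⟨h, h', hm⟩ | ⟨h, h', hm⟩ | ⟨h, h', hz, hm⟩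
    · have e1 : ¬ isIu w w' t := by rintro ⟨a, b⟩; rw [h, a] at b; cases b
      rw [cnt_succ_neg e1]
      rcases hw : w t with _ | _ | _
      · rw [hw] at h
        obtain ⟨a1, a2, -⟩ := none_step (K := K) hw
        obtain ⟨b1, b2, -⟩ := none_step (K := K) h
        rw [a1, a2, b1, b2]
        omega
      · rw [hw] at h
        rcases Nat.eq_zero_or_pos (ht K w t) with c0 | c0
        · obtain ⟨a1, a2, -⟩ := port_zero (K := K) hw c0
          rcases Nat.eq_zero_or_pos (ht K w' t) with d0 | d0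
          · obtain ⟨b1, b2, -⟩ := port_zero (K := K) h d0
            rw [a1, a2, b1, b2]; omega
          · obtain ⟨b1, b2, -⟩ := port_pos (K := K) h d0
            rw [a1, a2, b1, b2]; omega
        · obtain ⟨a1, a2, -⟩ := port_pos (K := K) hw c0
          rw [a1] at hn1
          rcases Nat.eq_zero_or_pos (ht K w' t) with d0 | d0
          · obtain ⟨b1, b2, -⟩ := port_zero (K := K) h d0
            rw [a1, a2, b1, b2]; omega
          · obtain ⟨b1, b2, -⟩ := port_pos (K := K) h d0
            rw [a1, a2, b1, b2]; omega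
      · rw [hw] at h
        rcases lt_or_ge (ht K w t) K with c0 | c0
        · obtain ⟨a1, a2, -⟩ := unit_lt (K := K) hw c0
          rcases lt_or_ge (ht K w' t) K with d0 | d0
          · obtain ⟨b1, b2, -⟩ := unit_lt (K := K) h d0
            rw [a1, a2, b1, b2]; omega
          · obtain ⟨b1, b2, -⟩ := unit_ge (K := K) h d0
            rw [a1, a2, b1, b2]; omega
        · obtain ⟨a1, a2, -⟩ := unit_ge (K := K) hw c0
          rcases lt_or_ge (ht K w' t) K with d0 | d0
          · obtain ⟨b1, b2, -⟩ := unit_lt (K := K) h d0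
            rw [a1, a2, b1, b2]; omega
          · obtain ⟨b1, b2, -⟩ := unit_ge (K := K) h d0
            rw [a1, a2, b1, b2]; omega
    · obtain ⟨a1, a2, -⟩ := none_step (K := K) h
      rw [a1] at hn1
      rcases hw' : w' t with _ | _ | _
      · exact absurd hw' h'
      · have e1 : ¬ isIu w w' t := by rintro ⟨a, b⟩; rw [hw'] at b; cases b
        rw [cnt_succ_neg e1]
        rcases Nat.eq_zero_or_pos (ht K w' t) with d0 | d0
        · obtain ⟨b1, b2, -⟩ := port_zero (K := K) hw' d0
          rw [a1, a2, b1, b2]; omega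
        · obtain ⟨b1, b2, -⟩ := port_pos (K := K) hw' d0
          rw [a1, a2, b1, b2]; omega
      · have e1 : isIu w w' t := ⟨h, hw'⟩
        rw [cnt_succ_pos e1]
        rcases lt_or_ge (ht K w' t) K with d0 | d0
        · obtain ⟨b1, b2, -⟩ := unit_lt (K := K) hw' d0
          rw [a1, a2, b1, b2]; omega
        · obtain ⟨b1, b2, -⟩ := unit_ge (K := K) hw' d0
          rw [a1, a2, b1, b2]; omega
    · have e1 : ¬ isIu w w' t := by rintro ⟨a, b⟩; rw [h] at a; cases a
      rw [cnt_succ_neg e1]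
      obtain ⟨b1, b2, -⟩ := none_step (K := K) h'
      rcases lt_or_ge (ht K w t) K with c0 | c0
      · obtain ⟨a1, a2, -⟩ := unit_lt (K := K) h c0
        rw [a1, a2, b1, b2]; omega
      · obtain ⟨a1, a2, -⟩ := unit_ge (K := K) h c0
        rw [a1, a2, b1, b2]; omega
    · have e1 : ¬ isIu w w' t := by rintro ⟨a, b⟩; rw [h] at a; cases a
      rw [cnt_succ_neg e1]
      obtain ⟨b1, b2, -⟩ := none_step (K := K) h'
      obtain ⟨a1, a2, -⟩ := port_pos (K := K) h (by omega)
      rw [a1, a2, b1, b2]; omega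
    · have e1 : ¬ isIu w w' t := by rintro ⟨a, b⟩; rw [h] at a; cases a
      rw [cnt_succ_neg e1]
      obtain ⟨b1, b2, -⟩ := none_step (K := K) h'
      obtain ⟨a1, a2, -⟩ := port_zero (K := K) h hz
      rw [a1, a2, b1, b2]; omega

lemma cnt_if {p : ℕ → Prop} {t : ℕ} {b : Bool} (h : p t ↔ b = true) :
    cnt p (t + 1) = cnt p t + b.toNat := by
  cases b
  · rw [cnt_succ_neg (fun h1 => by simpa using h.1 h1)]; rfl
  · rw [cnt_succ_pos (h.2 rfl)]; rfl

lemma cntU (w : ℕ → Option Bool) (t : ℕ) :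
    cnt (isU w) (t + 1) = cnt (isU w) t + (w t == some true).toNat :=
  cnt_if (by simp [isU])

lemma cntP (w : ℕ → Option Bool) (t : ℕ) :
    cnt (isP w) (t + 1) = cnt (isP w) t + (w t == some false).toNat :=
  cnt_if (by simp [isP])

lemma cntE (w w' : ℕ → Option Bool) (t : ℕ) : cnt (isEnt w w') (t + 1) = cnt (isEnt w w') t +
    ((w t == none && w' t != none) || (w t == some true && w' t == none)).toNat :=
  cnt_if (by simp [isEnt])

lemma cntD (w w' : ℕ → Option Bool) (t : ℕ) : cnt (isDp w w') (t + 1) = cnt (isDp w w') t +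
    (w t == some false && w' t == none).toNat :=
  cnt_if (by simp [isDp])

lemma cntI (w w' : ℕ → Option Bool) (t : ℕ) : cnt (isIu w w') (t + 1) = cnt (isIu w w') t +
    (w t == none && w' t == some true).toNat :=
  cnt_if (by simp [isIu])

/-- bookkeeping of the letters -/
lemma cnt_id {n : ℕ → ℕ} {L : ℕ} (hok : ∀ t < L, Ok K w w' n t) (t : ℕ) (ht' : t ≤ L) :
    cnt (isU w') t + cnt (isEnt w w') t + cnt (isP w) t =
      cnt (isU w) t + cnt (isP w') t + cnt (isDp w w') t + 2 * cnt (isIu w w') t := by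
  induction t with
  | zero => simp [cnt_zero]
  | succ t ih =>
    have ih := ih (by omega)
    rw [cntU, cntU, cntP, cntP, cntE, cntD, cntI]
    have e : (w' t == some true).toNat + ((w t == none && w' t != none) ||
        (w t == some true && w' t == none)).toNat + (w t == some false).toNat =
        (w t == some true).toNat + (w' t == some false).toNat +
        (w t == some false && w' t == none).toNat + 2 * (w t == none && w' t == some true).toNat := by
      rcases hok t (by omega) with ⟨h, hm⟩ | ⟨h, h', hm⟩ | ⟨h, h', hm⟩ | ⟨h, h', hm⟩ |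
        ⟨h, h', hz, hm⟩
      · rw [h]
        rcases w t with _ | _ | _ <;> rfl
      · rw [h]
        revert h'
        rcases w' t with _ | _ | _
        · exact fun h' => absurd rfl h'
        · exact fun _ => rfl
        · exact fun _ => rfl
      · rw [h, h']; rfl
      · rw [h, h']; rfl
      · rw [h, h']; rfl
    omega

/-- **left overs of the new word** -/
theorem lo_le (hK : 1 ≤ K) {n : ℕ → ℕ} {L : ℕ} (h0 : n 0 = 0) (hn : ∀ t ≤ L, n t ≤ ht K w t)
    (hok : ∀ t < L, Ok K w w' n t) (t : ℕ) (ht' : t ≤ L) :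
    lo K w' t + cnt (isDp w w') t + n t ≤ lo K w t + cnt (isEnt w w') t := by
  have h1 := (cmp hK h0 hn hok t ht').2
  have h2 := cnt_id hok t ht'
  have h3 := sum_id (w := w) hK t
  have h4 := sum_id (w := w') hK t
  omega

/-- the port at `x` closes a pair which covers the entry `e` -/
def Cov (K : ℕ) (w : ℕ → Option Bool) (e x : ℕ) : Prop :=
  e < x ∧ 1 ≤ ht K w x ∧ ∀ s, e < s → s ≤ x → ht K w x ≤ ht K w s

/-- the entry `e` lies behind the first pending unit -/
def Behind (K : ℕ) (w : ℕ → Option Bool) (L e : ℕ) : Prop :=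
  ∀ s, e < s → s ≤ L → 1 ≤ ht K w s

/-- a set `J` of simultaneous passes: entry slots `e`, exits `x` (`none` = own link) -/
structure Passes {ι : Type*} (K : ℕ) (w w' : ℕ → Option Bool) (L : ℕ) (J : Finset ι) (e : ι → ℕ)
    (x : ι → Option ℕ) : Prop where
  eL : ∀ j ∈ J, e j < L
  xL : ∀ j ∈ J, ∀ z, x j = some z → z < L
  ei : ∀ i ∈ J, ∀ j ∈ J, e i = e j → i = j
  xi : ∀ i ∈ J, ∀ j ∈ J, x i = x j → i = j
  ent : ∀ j ∈ J, (w (e j) = none ∧ w' (e j) ≠ none) ∨ (w (e j) = some true ∧ w' (e j) = none)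
  ex : ∀ j ∈ J, ∀ z, x j = some z → w z = some false ∧ w' z = none ∧
    (Cov K w (e j) z ∨ ht K w z = 0)
  oth : ∀ t < L, (∀ j ∈ J, e j ≠ t ∧ x j ≠ some t) → w' t = w t

section passes

variable {ι : Type*} {L : ℕ} {J : Finset ι} {e : ι → ℕ} {x : ι → Option ℕ}

/-- open passes: closer passes and, if `c`, the climb pass -/
def Opn (K : ℕ) (w : ℕ → Option Bool) (e : ι → ℕ) (x : ι → Option ℕ) (c : Prop) (t : ℕ) (j : ι) :
    Prop :=
  e j < t ∧ ((∃ z, x j = some z ∧ 1 ≤ ht K w z ∧ t ≤ z) ∨ (x j = none ∧ c))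

open Classical in
noncomputable def nop (K : ℕ) (w : ℕ → Option Bool) (J : Finset ι) (e : ι → ℕ) (x : ι → Option ℕ)
    (c : Prop) (t : ℕ) : ℕ := (J.filter (Opn K w e x c t)).card

lemma nop_zero (c : Prop) : nop K w J e x c 0 = 0 := by
  classical
  unfold nop
  rw [Finset.card_eq_zero, Finset.filter_eq_empty_iff]
  intro j _ h
  exact absurd h.1 (Nat.not_lt_zero _)

lemma nop_le (p : Passes K w w' L J e x) {c : Prop}
    (hc : c → ∀ j ∈ J, x j = none → Behind K w L (e j)) (t : ℕ) (htL : t ≤ L) :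
    nop K w J e x c t ≤ ht K w t := by
  classical
  have hcard : (Finset.Icc 1 (ht K w t)).card = ht K w t := by simp
  rw [← hcard]
  unfold nop
  refine Finset.card_le_card_of_injOn (fun j => match x j with
    | some z => ht K w z
    | none => 1) ?_ ?_
  · intro j hj
    obtain ⟨hjJ, h1, h2⟩ := Finset.mem_filter.1 (Finset.mem_coe.1 hj)
    refine Finset.mem_coe.2 (Finset.mem_Icc.2 ?_)
    rcases h2 with ⟨z, hz, hz1, hz2⟩ | ⟨hz, hcc⟩
    · simp only [hz]
      refine ⟨hz1, ?_⟩
      rcases (p.ex j hjJ z hz).2.2 with hcov | h0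
      · exact hcov.2.2 t h1 hz2
      · omega
    · simp only [hz]
      exact ⟨le_refl _, hc hcc j hjJ hz t h1 htL⟩
  · have key : ∀ i ∈ J, ∀ j ∈ J, Opn K w e x c t i → Opn K w e x c t j → ∀ z, x i = some z →
        (∀ z', x j = some z' → z < z') → (match x j with
          | some z => ht K w z
          | none => 1) < ht K w z := by
      intro i hi j hj oi oj z hz hlt
      obtain ⟨oi1, oi2⟩ := oi
      obtain ⟨oj1, oj2⟩ := oj
      have hz' : 1 ≤ ht K w z ∧ t ≤ z := by
        rcases oi2 with ⟨z1, hz1, h1, h2⟩ | ⟨h1, -⟩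
        · rw [hz] at hz1; cases hz1; exact ⟨h1, h2⟩
        · rw [hz] at h1; cases h1
      have hzp := (p.ex i hi z hz).1
      have hzL := p.xL i hi z hz
      have hs := (port_pos (K := K) hzp hz'.1).1
      rcases oj2 with ⟨z2, hz2, h1, h2⟩ | ⟨h1, h2⟩
      · simp only [hz2]
        have hl := hlt z2 hz2
        rcases (p.ex j hj z2 hz2).2.2 with hcov | h0
        · have := hcov.2.2 (z + 1) (by omega) (by omega)
          omega
        · omega
      · simp only [h1]
        have := hc h2 j hj h1 (z + 1) (by omega) (by omega)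
        omega
    intro i hi j hj hij
    obtain ⟨hiJ, oi⟩ := Finset.mem_filter.1 (Finset.mem_coe.1 hi)
    obtain ⟨hjJ, oj⟩ := Finset.mem_filter.1 (Finset.mem_coe.1 hj)
    rcases hxi : x i with _ | zi
    · rcases hxj : x j with _ | zj
      · exact p.xi i hiJ j hjJ (hxi.trans hxj.symm)
      · have := key j hjJ i hiJ oj oi zj hxj (fun z' h => by rw [hxi] at h; cases h)
        simp only [hxi, hxj] at hij this
        omega
    · rcases hxj : x j with _ | zj
      · have := key i hiJ j hjJ oi oj zi hxi (fun z' h => by rw [hxj] at h; cases h)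
        simp only [hxi, hxj] at hij this
        omega
      · rcases lt_trichotomy zi zj with h | h | h
        · have := key i hiJ j hjJ oi oj zi hxi (fun z' h' => by rw [hxj] at h'; cases h'; exact h)
          simp only [hxi, hxj] at hij this
          omega
        · exact p.xi i hiJ j hjJ (by rw [hxi, hxj, h])
        · have := key j hjJ i hiJ oj oi zj hxj (fun z' h' => by rw [hxi] at h'; cases h'; exact h)
          simp only [hxi, hxj] at hij this
          omega

lemma nop_succ (c : Prop) {t : ℕ} (h : ∀ j ∈ J, e j ≠ t) :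
    nop K w J e x c (t + 1) ≤ nop K w J e x c t := by
  classical
  unfold nop
  refine Finset.card_le_card ?_
  intro j hj
  obtain ⟨hjJ, h1, h2⟩ := Finset.mem_filter.1 hj
  refine Finset.mem_filter.2 ⟨hjJ, ?_, ?_⟩
  · have := h j hjJ; omega
  · rcases h2 with ⟨z, hz, hz1, hz2⟩ | h2
    · exact Or.inl ⟨z, hz, hz1, by omega⟩
    · exact Or.inr h2

lemma nop_succ_ent (p : Passes K w w' L J e x) (c : Prop) {j : ι} (hj : j ∈ J) :
    nop K w J e x c (e j + 1) ≤ nop K w J e x c (e j) + 1 := by
  classical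
  unfold nop
  have h0 : J.filter (Opn K w e x c (e j + 1)) ⊆ J.filter (Opn K w e x c (e j)) ∪ {j} := by
    intro i hi
    obtain ⟨hiJ, h1, h2⟩ := Finset.mem_filter.1 hi
    rcases Nat.lt_or_ge (e i) (e j) with h3 | h3
    · refine Finset.mem_union_left _ (Finset.mem_filter.2 ⟨hiJ, h3, ?_⟩)
      rcases h2 with ⟨z, hz, hz1, hz2⟩ | h2
      · exact Or.inl ⟨z, hz, hz1, by omega⟩
      · exact Or.inr h2
    · refine Finset.mem_union_right _ (Finset.mem_singleton.2 (p.ei i hiJ j hj (by omega)))
  have h1 := (Finset.card_le_card h0).trans (Finset.card_union_le _ _)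
  rwa [Finset.card_singleton] at h1

lemma nop_succ_ex (p : Passes K w w' L J e x) (c : Prop) {j : ι} (hj : j ∈ J) {z : ℕ}
    (hz : x j = some z) (h1 : 1 ≤ ht K w z) :
    nop K w J e x c (z + 1) + 1 ≤ nop K w J e x c z := by
  classical
  have hw := p.ex j hj z hz
  have hne : ∀ i ∈ J, e i ≠ z := by
    intro i hi h
    rcases p.ent i hi with ⟨a, -⟩ | ⟨a, -⟩ <;> rw [h, hw.1] at a <;> cases a
  have hcov : Cov K w (e j) z := by
    rcases hw.2.2 with h | h
    · exact h
    · omega
  unfold nop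
  have hd : Disjoint (J.filter (Opn K w e x c (z + 1))) {j} := by
    rw [Finset.disjoint_singleton_right]
    intro hi
    obtain ⟨-, -, h3⟩ := Finset.mem_filter.1 hi
    rcases h3 with ⟨z1, hz1, hz2, hz3⟩ | ⟨h3, -⟩
    · rw [hz] at hz1; cases hz1; omega
    · rw [hz] at h3; cases h3
  have h0 : J.filter (Opn K w e x c (z + 1)) ∪ {j} ⊆ J.filter (Opn K w e x c z) := by
    intro i hi
    rcases Finset.mem_union.1 hi with hi | hi
    · obtain ⟨hiJ, h2, h3⟩ := Finset.mem_filter.1 hi
      refine Finset.mem_filter.2 ⟨hiJ, ?_, ?_⟩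
      · have := hne i hiJ; omega
      · rcases h3 with ⟨z1, hz1, hz2, hz3⟩ | h3
        · exact Or.inl ⟨z1, hz1, hz2, by omega⟩
        · exact Or.inr h3
    · rw [Finset.mem_singleton.1 hi]
      exact Finset.mem_filter.2 ⟨hj, hcov.1, Or.inl ⟨z, hz, h1, le_refl _⟩⟩
  have h1 := Finset.card_le_card h0
  rwa [Finset.card_union_of_disjoint hd, Finset.card_singleton] at h1

lemma ok_of (p : Passes K w w' L J e x) (c : Prop) (t : ℕ) (htL : t < L) :
    Ok K w w' (nop K w J e x c) t := by
  by_cases h1 : ∃ j ∈ J, e j = t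
  · obtain ⟨j, hj, rfl⟩ := h1
    rcases p.ent j hj with ⟨a, b⟩ | ⟨a, b⟩
    · exact Ok.ins a b (nop_succ_ent p c hj)
    · exact Ok.du a b (nop_succ_ent p c hj)
  · have h1' : ∀ j ∈ J, e j ≠ t := fun j hj h => h1 ⟨j, hj, h⟩
    by_cases h2 : ∃ j ∈ J, x j = some t
    · obtain ⟨j, hj, hx⟩ := h2
      have hw := p.ex j hj t hx
      rcases Nat.eq_zero_or_pos (ht K w t) with h0 | h0
      · exact Ok.dz hw.1 hw.2.1 h0 (nop_succ c h1')
      · exact Ok.dp hw.1 hw.2.1 (nop_succ_ex p c hj hx h0)
    · exact Ok.same (p.oth t htL fun j hj => ⟨h1' j hj, fun h => h2 ⟨j, hj, h⟩⟩) (nop_succ c h1')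

/-- entries are counted by the passes -/
lemma cnt_ent (p : Passes K w w' L J e x) : cnt (isEnt w w') L = J.card := by
  classical
  have h : (Finset.range L).filter (isEnt w w') = J.image e := by
    ext t
    rw [Finset.mem_filter, Finset.mem_range, Finset.mem_image]
    constructor
    · rintro ⟨h1, h2⟩
      by_contra h3
      have h4 : ∀ j ∈ J, e j ≠ t := fun j hj h => h3 ⟨j, hj, h⟩
      by_cases h5 : ∃ j ∈ J, x j = some t
      · obtain ⟨j, hj, hx⟩ := h5
        have := (p.ex j hj t hx).1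
        rcases h2 with ⟨a, -⟩ | ⟨a, -⟩ <;> rw [this] at a <;> cases a
      · have h6 := p.oth t h1 fun j hj => ⟨h4 j hj, fun h => h5 ⟨j, hj, h⟩⟩
        rcases h2 with ⟨a, b⟩ | ⟨a, b⟩
        · exact b (h6.trans a)
        · rw [h6, a] at b; cases b
    · rintro ⟨j, hj, rfl⟩
      exact ⟨p.eL j hj, p.ent j hj⟩
  unfold cnt
  rw [h, Finset.card_image_of_injOn]
  intro i hi j hj hij
  exact p.ei i hi j hj hij

/-- removed ports are counted by the passes with a port exit -/
lemma cnt_dp (p : Passes K w w' L J e x) :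
    J.card ≤ cnt (isDp w w') L + 1 ∧ ((∀ j ∈ J, x j ≠ none) → J.card = cnt (isDp w w') L) := by
  classical
  have hsub : (J.filter fun j => x j ≠ none).image (fun j => (x j).getD 0) =
      (Finset.range L).filter (isDp w w') := by
    ext t
    rw [Finset.mem_filter, Finset.mem_range, Finset.mem_image]
    constructor
    · rintro ⟨j, hj, rfl⟩
      obtain ⟨hjJ, hx⟩ := Finset.mem_filter.1 hj
      obtain ⟨z, hz⟩ := Option.ne_none_iff_exists'.1 hx
      rw [hz]
      exact ⟨p.xL j hjJ z hz, (p.ex j hjJ z hz).1, (p.ex j hjJ z hz).2.1⟩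
    · rintro ⟨h1, h2, h3⟩
      by_contra h4
      have h5 : ∀ j ∈ J, x j ≠ some t := fun j hj h =>
        h4 ⟨j, Finset.mem_filter.2 ⟨hj, by rw [h]; simp⟩, by rw [h]; rfl⟩
      have h6 : ∀ j ∈ J, e j ≠ t := by
        intro j hj h
        rcases p.ent j hj with ⟨a, -⟩ | ⟨a, -⟩ <;> rw [h, h2] at a <;> cases a
      have := p.oth t h1 fun j hj => ⟨h6 j hj, h5 j hj⟩
      rw [this, h2] at h3; cases h3
  have hcard : (J.filter fun j => x j ≠ none).card = cnt (isDp w w') L := by
    unfold cnt
    rw [← hsub, Finset.card_image_of_injOn]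
    intro i hi j hj hij
    obtain ⟨hiJ, hxi⟩ := Finset.mem_filter.1 (Finset.mem_coe.1 hi)
    obtain ⟨hjJ, hxj⟩ := Finset.mem_filter.1 (Finset.mem_coe.1 hj)
    obtain ⟨zi, hzi⟩ := Option.ne_none_iff_exists'.1 hxi
    obtain ⟨zj, hzj⟩ := Option.ne_none_iff_exists'.1 hxj
    simp only [hzi, hzj, Option.getD_some] at hij
    exact p.xi i hiJ j hjJ (by rw [hzi, hzj, hij])
  constructor
  · have h1 := Finset.card_filter_add_card_filter_not (s := J) (fun j => x j ≠ none)
    have h2 : (J.filter fun j => ¬ x j ≠ none).card ≤ 1 := by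
      rw [Finset.card_le_one]
      intro i hi j hj
      obtain ⟨hiJ, hxi⟩ := Finset.mem_filter.1 hi
      obtain ⟨hjJ, hxj⟩ := Finset.mem_filter.1 hj
      exact p.xi i hiJ j hjJ ((not_not.1 hxi).trans (not_not.1 hxj).symm)
    omega
  · intro h
    rw [← hcard, Finset.filter_true_of_mem h]

/-- **joint feasibility, no climb** -/
theorem lo_port (p : Passes K w w' L J e x) (hK : 1 ≤ K) (hx : ∀ j ∈ J, x j ≠ none) :
    lo K w' L ≤ lo K w L := by
  have h1 := lo_le hK (nop_zero False) (fun t ht' => nop_le p (c := False) (fun h => h.elim) t ht')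
    (fun t ht' => ok_of p False t ht') L (le_refl L)
  rw [cnt_ent p, (cnt_dp p).2 hx] at h1
  omega

/-- **joint feasibility, with a climb** -/
theorem lo_climb (p : Passes K w w' L J e x) (hK : 1 ≤ K) : lo K w' L ≤ lo K w L + 1 := by
  have h1 := lo_le hK (nop_zero False) (fun t ht' => nop_le p (c := False) (fun h => h.elim) t ht')
    (fun t ht' => ok_of p False t ht') L (le_refl L)
  rw [cnt_ent p] at h1
  have := (cnt_dp p).1
  omega

/-- **joint feasibility, with a climb from behind the first pending unit** -/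
theorem lo_behind (p : Passes K w w' L J e x) (hK : 1 ≤ K)
    (hb : ∀ j ∈ J, x j = none → Behind K w L (e j)) : lo K w' L ≤ lo K w L := by
  classical
  by_cases hx : ∀ j ∈ J, x j ≠ none
  · exact lo_port p hK hx
  · push Not at hx
    obtain ⟨j, hj, hxj⟩ := hx
    have h1 := lo_le hK (nop_zero True) (fun t ht' => nop_le p (c := True) (fun _ => hb) t ht')
      (fun t ht' => ok_of p True t ht') L (le_refl L)
    rw [cnt_ent p] at h1
    have h2 := (cnt_dp p).1
    have h3 : 1 ≤ nop K w J e x True L := by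
      unfold nop
      exact Finset.card_pos.2 ⟨j, Finset.mem_filter.2 ⟨hj, p.eL j hj, Or.inr ⟨hxj, trivial⟩⟩⟩
    omega

/-- the quantity `T = h + 2 u` -/
def tt (K : ℕ) (w : ℕ → Option Bool) (t : ℕ) : ℕ := ht K w t + 2 * up K w t

/-- **the second key, pointwise**: no unit is inserted -/
theorem tt_le (p : Passes K w w' L J e x) (hK : 1 ≤ K) (hi : ∀ j ∈ J, w' (e j) ≠ some true)
    (t : ℕ) (htL : t ≤ L) : tt K w' t + nop K w J e x False t ≤ tt K w t := by
  classical
  have h1 := (cmp hK (nop_zero False) (fun t ht' => nop_le p (c := False) (fun h => h.elim) t ht')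
    (fun t ht' => ok_of p False t ht') t htL).2
  have h2 : cnt (isIu w w') t = 0 := by
    unfold cnt
    rw [Finset.card_eq_zero, Finset.filter_eq_empty_iff]
    rintro s hs ⟨a, b⟩
    have hs' := Finset.mem_range.1 hs
    by_cases h3 : ∃ j ∈ J, e j = s
    · obtain ⟨j, hj, rfl⟩ := h3
      exact hi j hj b
    · by_cases h5 : ∃ j ∈ J, x j = some s
      · obtain ⟨j, hj, hx⟩ := h5
        rw [(p.ex j hj s hx).1] at a; cases a
      · have := p.oth s (by omega) fun j hj => ⟨fun h => h3 ⟨j, hj, h⟩, fun h => h5 ⟨j, hj, h⟩⟩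
        rw [this, a] at b; cases b
  unfold tt
  omega

/-- the second key of a word with `L` slots -/
def key (K : ℕ) (w : ℕ → Option Bool) (L : ℕ) : ℕ := ∑ t ∈ Finset.range (L + 1), tt K w t

theorem key_le (p : Passes K w w' L J e x) (hK : 1 ≤ K) (hi : ∀ j ∈ J, w' (e j) ≠ some true) :
    key K w' L ≤ key K w L :=
  Finset.sum_le_sum fun t ht' => by
    have := tt_le p hK hi t (Nat.lt_succ_iff.1 (Finset.mem_range.1 ht'))
    omega

theorem key_lt (p : Passes K w w' L J e x) (hK : 1 ≤ K) (hi : ∀ j ∈ J, w' (e j) ≠ some true)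
    {j : ι} (hj : j ∈ J) {z : ℕ} (hz : x j = some z) (h1 : 1 ≤ ht K w z) :
    key K w' L < key K w L := by
  classical
  have hcov : Cov K w (e j) z := by
    rcases (p.ex j hj z hz).2.2 with h | h
    · exact h
    · omega
  have hzL := p.xL j hj z hz
  refine Finset.sum_lt_sum (fun t ht' => ?_) ⟨z, Finset.mem_range.2 (by omega), ?_⟩
  · have := tt_le p hK hi t (Nat.lt_succ_iff.1 (Finset.mem_range.1 ht'))
    omega
  · have h2 := tt_le p hK hi z (by omega)
    have h3 : 1 ≤ nop K w J e x False z := by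
      unfold nop
      exact Finset.card_pos.2 ⟨j, Finset.mem_filter.2 ⟨hj, hcov.1, Or.inl ⟨z, hz, h1, le_refl _⟩⟩⟩
    omega

end passes

end MP42.Stk
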