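import Pool.Agent.MP42.PD.Ex
import Pool.Agent.MP42.PD.Stk

/-!
# Project MP42, bounded stack: cycles of the walk, bridge to `Stk.lean` (owner helper67)
-/

set_option autoImplicit false
set_option linter.unusedSectionVars false

namespace Pool.Agent.MP42.PD

/-! ## A set of nodes on which the walk is a bijection -/

/-- **the walk has a set of nodes on which it is a bijection** -/
theorem exists_bij {E : Type*} [Finite E] (G : E → Prop) (nx : E → E) (hG : ∀ e, G e → G (nx e))
    (hne : ∃ e, G e) : ∃ Z : Finset E, Z.Nonempty ∧ (∀ e ∈ Z, G e) ∧ Set.BijOn nx Z Z := by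
  classical
  have := Fintype.ofFinite E
  let P : ℕ → Prop := fun n => ∃ S : Finset E, S.card = n ∧ S.Nonempty ∧ (∀ e ∈ S, G e) ∧
    ∀ e ∈ S, nx e ∈ S
  have hP : ∃ n, P n := by
    refine ⟨_, Finset.univ.filter G, rfl, ?_, ?_, ?_⟩
    · obtain ⟨e, he⟩ := hne
      exact ⟨e, by simp [he]⟩
    · intro e he; simpa using he
    · intro e he
      simp only [Finset.mem_filter, Finset.mem_univ, true_and] at he ⊢
      exact hG e he
  obtain ⟨S, h1, h2, h3, h4⟩ := Nat.find_spec hP
  have hsub : S.image nx ⊆ S := by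
    intro e he
    obtain ⟨e', he', rfl⟩ := Finset.mem_image.1 he
    exact h4 e' he'
  have hmin : (Nat.find hP) ≤ (S.image nx).card := by
    refine Nat.find_min' hP ⟨S.image nx, rfl, h2.image nx, fun e he => h3 e (hsub he), ?_⟩
    intro e he
    exact Finset.mem_image_of_mem nx (hsub he)
  have heq : S.image nx = S := Finset.eq_of_subset_of_card_le hsub (by rw [h1]; exact hmin)
  refine ⟨S, h2, h3, ?_, ?_, ?_⟩
  · intro e he; exact Finset.mem_coe.2 (h4 e (Finset.mem_coe.1 he))
  · have h5 : (S.image nx).card = S.card := by rw [heq]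
    exact Finset.card_image_iff.1 h5
  · intro e he
    have he' : e ∈ S.image nx := by rw [heq]; exact Finset.mem_coe.1 he
    obtain ⟨e', h6, h7⟩ := Finset.mem_image.1 he'
    exact ⟨e', Finset.mem_coe.2 h6, h7⟩

section sums

variable {J C : Type*} [DecidableEq J] [DecidableEq C]

/-- **sums over a cycle**: the stars move a weight, the climbs pay for it -/
theorem sum_cycle (Z : Finset (J ⊕ C)) (nx : J ⊕ C → J ⊕ C) (hZ : Set.BijOn nx Z Z)
    (hX hO : J → C) (par : C → C) (τ : C → ℤ)
    (h : ∀ e ∈ Z, Sum.elim hX id (nx e) = Sum.elim hO par e) :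
    ∑ j ∈ Z.preimage Sum.inl Sum.inl_injective.injOn, (τ (hO j) - τ (hX j)) =
      ∑ c ∈ Z.preimage Sum.inr Sum.inr_injective.injOn, (τ c - τ (par c)) := by
  have h1 : ∑ e ∈ Z, τ (Sum.elim hX id e) = ∑ e ∈ Z, τ (Sum.elim hO par e) := by
    have h2 : ∑ e ∈ Z, τ (Sum.elim hX id (nx e)) = ∑ e ∈ Z, τ (Sum.elim hX id e) := by
      apply Finset.sum_nbij nx
      · intro e he; exact Finset.mem_coe.1 (hZ.mapsTo (Finset.mem_coe.2 he))
      · exact hZ.injOn
      · exact hZ.surjOn
      · intro e _; rfl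
    rw [← h2]
    exact Finset.sum_congr rfl fun e he => by rw [h e he]
  have h3 : ∀ g : J ⊕ C → ℤ, ∑ e ∈ Z, g e =
      ∑ j ∈ Z.preimage Sum.inl Sum.inl_injective.injOn, g (Sum.inl j) +
      ∑ c ∈ Z.preimage Sum.inr Sum.inr_injective.injOn, g (Sum.inr c) := by
    intro g
    have h4 : Z = (Z.preimage Sum.inl Sum.inl_injective.injOn).disjSum
        (Z.preimage Sum.inr Sum.inr_injective.injOn) := by
      ext e
      rcases e with e | e <;> simp
    conv_lhs => rw [h4]
    rw [Finset.sum_disjSum]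
  rw [h3, h3] at h1
  simp only [Sum.elim_inl, Sum.elim_inr, id] at h1
  rw [Finset.sum_sub_distrib, Finset.sum_sub_distrib]
  linarith

end sums

/-! ## The bridge to `Stk` -/

/-- the letters of `Stk` -/
def oc : Lt → Option Bool
  | .o => some false
  | .u => some true
  | .z => none

variable {K : ℕ} {w : ℕ → Lt}

lemma bridge (hK : 1 ≤ K) (t : ℕ) :
    MP42.Stk.ht K (fun i => oc (w i)) t = (stk K w t).length ∧
    MP42.Stk.lo K (fun i => oc (w i)) t = (lo K w t).card := by
  induction t with
  | zero => simp [MP42.Stk.ht_zero, MP42.Stk.lo_zero, stk, lo]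
  | succ t ih =>
    obtain ⟨i1, i2⟩ := ih
    rcases hw : w t with _ | _ | _
    · have h : (fun i => oc (w i)) t = some false := by simp [hw, oc]
      rcases Nat.eq_zero_or_pos (stk K w t).length with h0 | h0
      · obtain ⟨a1, -, a3⟩ := MP42.Stk.port_zero (K := K) h (by rw [i1]; exact h0)
        have h1 : stk K w t = [] := List.length_eq_zero_iff.1 h0
        rw [a1, a3, i2, stk_o hw, h1, lo_succ_o hw h1,
          Finset.card_insert_of_notMem (by rw [mem_lo]; simp)]
        simp
      · obtain ⟨a1, -, a3⟩ := MP42.Stk.port_pos (K := K) h (by rw [i1]; exact h0)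
        have h1 : stk K w t ≠ [] := List.length_pos_iff.1 h0
        rw [a1, a3, i1, i2, stk_o hw, List.length_tail, lo_succ_n (fun h2 => h1 h2.2)]
        simp
    · have h : (fun i => oc (w i)) t = some true := by simp [hw, oc]
      rcases lt_or_ge (stk K w t).length K with h0 | h0
      · obtain ⟨a1, -, a3⟩ := MP42.Stk.unit_lt (K := K) h (by rw [i1]; exact h0)
        rw [a1, a3, i1, i2, stk_u hw h0, lo_succ_n (by rw [hw]; simp)]
        simp
      · obtain ⟨a1, -, a3⟩ := MP42.Stk.unit_ge (K := K) h (by rw [i1]; exact h0)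
        rw [a1, a3, i1, i2, stk_u' hw (by omega), List.length_tail, lo_succ_n (by rw [hw]; simp)]
        simp
    · have h : (fun i => oc (w i)) t = none := by simp [hw, oc]
      obtain ⟨a1, -, a3⟩ := MP42.Stk.none_step (K := K) (w := fun i => oc (w i)) (t := t) h
      rw [a1, a3, i1, i2, stk_z hw, lo_succ_n (by rw [hw]; simp)]
      simp

/-- the part of the stack below an opener does not change -/
lemma suffix_of_mem {s X F : ℕ} {l : List ℕ} (h : stk K w X = F :: l) (hF : F < s) (hs : s ≤ X) :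
    ∃ a, stk K w s = a ++ F :: l := by
  have hm : F ∈ stk K w s := mem_stk_of_le (t' := X) (by rw [h]; simp) hF hs
  obtain ⟨a, l', hl⟩ := List.append_of_mem hm
  refine ⟨a, ?_⟩
  rcases suffix_cases hl hs with ⟨a', h1, -⟩ | ⟨Y, h1, h2, h3, -, h5⟩
  · rw [h] at h1
    rcases a' with _ | ⟨b, a'⟩
    · rw [List.nil_append] at h1
      rw [hl, ← h1]
    · rw [List.cons_append] at h1
      have h2 : F = b := (List.cons.inj h1).1
      have h3 : l = a' ++ F :: l' := (List.cons.inj h1).2
      have h4 := stk_nodup (K := K) (w := w) X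
      rw [h, h3] at h4
      simp at h4
  · exfalso
    have h6 : F ∉ stk K w (Y + 1) := by
      have h7 := stk_nodup (K := K) (w := w) Y
      rw [h3, List.nodup_cons] at h7
      rcases h5 with h5 | ⟨h5, h8⟩
      · rw [stk_o h5, h3]; exact h7.1
      · rw [stk_u' h5 (by rw [h3, h8]; exact lt_irrefl _), h3]; exact h7.1
    exact h6 (mem_stk_of_le (t' := X) (by rw [h]; simp) (by omega) (by omega))

/-- a closer over an entry, in the form of `Stk` -/
lemma cov_of (hK : 1 ≤ K) {e X F : ℕ} {l : List ℕ} (h : stk K w X = F :: l) (hF : F ≤ e)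
    (he : e < X) : MP42.Stk.Cov K (fun i => oc (w i)) e X := by
  refine ⟨he, ?_, ?_⟩
  · rw [(bridge hK X).1, h]; simp
  · intro s h1 h2
    obtain ⟨a, ha⟩ := suffix_of_mem h (by omega : F < s) h2
    rw [(bridge hK X).1, (bridge hK s).1, h, ha]
    simp

/-- behind a pending unit -/
lemma behind_of (hK : 1 ≤ K) {e N G : ℕ} (h : G ∈ stk K w N) (hG : G ≤ e) :
    MP42.Stk.Behind K (fun i => oc (w i)) N e := by
  intro s h1 h2
  rw [(bridge hK s).1]
  have := mem_stk_of_le h (by omega : G < s) h2
  exact List.length_pos_of_mem this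

end Pool.Agent.MP42.PD
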