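import Pool.Agent.MP42.PD.Rn
import Pool.Agent.MP42.U.Stars

/-!
# Bounded stack structures over a contour with stars: definitions (owner helper30)

`Lv`: a contour with full stars; `rd z` = all items of the circle `z` (legs of stars, children) in
reading order; the special circles `sp`: the root, and at the top level also its last child `g1`
(which is not an item of `rd r`); `cp z` = the allowed number of left overs.
`x : J → Bool`: the ports.  `w x z : ℕ → Lt` the word of a circle.  `Sol0`, `Sol`: labellings
compatible with the cells (without / with riders).  `Dom`: the domain.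
-/

set_option autoImplicit false
set_option linter.unusedSectionVars false

namespace Pool.Agent.MP42.PD

open Pool.Agent.MP42.U

/-! ## Words -/

section Word

variable (K : ℕ) (w : ℕ → Lt)

/-- the value of a class: `some i` = class of the opener `i`, `none` = base (left overs) -/
def cv (v : ℕ → ZMod 2) (e : ZMod 2) : Option ℕ → ZMod 2
  | none => e
  | some i => v i

/-- the value of the class around the gap `t`: the top of the stack, or the base `e` -/
def tv (v : ℕ → ZMod 2) (e : ZMod 2) (t : ℕ) : ZMod 2 := cv v e (stk K w t).head?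

/-- **the labelling `v` is compatible with the cells** of the word `w 0 .. w (n-1)`; `a` = value of
the own link (and of the pending units), `e` = value of the left over ports -/
structure WOk (n : ℕ) (v : ℕ → ZMod 2) (a e : ZMod 2) : Prop where
  port : ∀ t < n, w t = .o → v t = tv K w v e t
  unit : ∀ t < n, w t = .u → ∀ F G l, stk K w t = F :: G :: l → K ≤ (stk K w t).length →
    v t = v F ∧ v F = v G
  pend : ∀ i ∈ stk K w n, v i = a
  base : (lo K w n).card ≤ 1 → e = a

/-- the gap `t` is inside a unit pair: the top of the full stack is popped by a unit -/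
def Ins (n t : ℕ) : Prop :=
  K ≤ (stk K w t).length ∧ ∃ X, t ≤ X ∧ X < n ∧ w X = .u ∧ stk K w X = stk K w t

/-- **the classes on which a rider at the place `t` can ride** (all of them have to be allowed for
soundness, see the notes of helper28 and helper55): the class around it; inside a unit pair the class
of the third element of the stack; behind the first pending unit, at even height, with two left overs:
the base -/
def Lam (n t : ℕ) (κ : Option ℕ) : Prop :=
  κ = (stk K w t).head? ∨ (Ins K w n t ∧ κ = (stk K w t)[2]?) ∨
  (κ = none ∧ (lo K w n).card = 2 ∧ Even (stk K w t).length ∧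
    ((∀ F, (stk K w t).head? = some F → F ∈ stk K w n) ∨
      (Ins K w n t ∧ ∀ F, (stk K w t)[2]? = some F → F ∈ stk K w n)))

/-- the riders at the places `rid` are compatible with the labelling -/
def WRd (n : ℕ) (rid : ℕ → Prop) (v : ℕ → ZMod 2) (e : ZMod 2) : Prop :=
  ∀ t < n, rid t → ∃ κ, Lam K w n t κ ∧ v t = cv v e κ

end Word

/-! ## Levels -/

/-- **a level**: contour, full stars, reading lists, special circles -/
structure Lv (C J α : Type*) [LinearOrder α] where
  Ct : Contour C α
  cls : C → Prop
  S : Stars Ct cls J
  /-- special circles: the root, at the top level also its last child -/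
  sp : C → Prop
  sp_r : sp Ct.r
  sp_c : ∀ c, sp c → c ≠ Ct.r → Ct.par c = Ct.r ∧ (cls c ↔ ¬ cls Ct.r) ∧
    ∀ i, Ct.host i = Ct.r → i ≠ .inr c → i ≠ .inr Ct.r →
      (cls Ct.r → Ct.ihi i < Ct.lo c) ∧ (¬ cls Ct.r → Ct.hi c < Ct.ilo i)
  /-- the number of left overs -/
  cp : C → ℕ
  cp_sp : ∀ z, sp z → cp z ≤ 1
  cp_n : ∀ z, ¬ sp z → cp z = 2
  /-- items in reading order -/
  rd : C → List (α ⊕ C)
  pw : ∀ z, (rd z).Pairwise fun i i' =>
    (cls z → Ct.ihi i < Ct.ilo i') ∧ (¬ cls z → Ct.ihi i' < Ct.ilo i)
  mem : ∀ z i, i ∈ rd z ↔ (∀ p, i = .inl p → ∃ j s, p = S.leg j s) ∧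
    (∀ c, i = .inr c → ¬ sp c) ∧ Ct.host i = z

namespace Lv

variable {C J α : Type*} [LinearOrder α] [Fintype J] (L : Lv C J α) (K : ℕ) (x : J → Bool)

open Classical in
/-- the used letters -/
noncomputable def used : Finset α := Finset.univ.image L.S.y ∪ Finset.univ.image (L.S.port x)

/-- number of used letters in the interval of a circle -/
noncomputable def cnt (c : C) : ℕ :=
  ((L.used x).filter fun p => L.Ct.lo c ≤ p ∧ p ≤ L.Ct.hi c).card

open Classical in
/-- the letter of an item: a child with an odd number of letters is a unit -/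
noncomputable def lt : α ⊕ C → Lt
  | .inl p => if ∃ j, p = L.S.y j then .u else if ∃ j, p = L.S.port x j then .o else .z
  | .inr c => if Odd (L.cnt x c) then .u else .z

/-- the item at the place `t` -/
def it (z : C) (t : ℕ) : Option (α ⊕ C) := (L.rd z)[t]?

/-- number of places of a circle -/
def n (z : C) : ℕ := (L.rd z).length

/-- the word of a circle -/
noncomputable def w (z : C) (t : ℕ) : Lt :=
  match L.it z t with
  | none => .z
  | some i => L.lt x i

/-- the place `t` is an even child -/
def rid (z : C) (t : ℕ) : Prop := ∃ c, L.it z t = some (.inr c) ∧ ¬ Odd (L.cnt x c)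

/-- the labelling of the places -/
def vv (V : α ⊕ C → ZMod 2) (z : C) (t : ℕ) : ZMod 2 :=
  match L.it z t with
  | none => 0
  | some i => V i

/-- number of left overs -/
noncomputable def lam (z : C) : ℕ := (lo K (L.w x z) (L.n z)).card

/-- **the domain** -/
def Dom : Prop := ∀ z, L.lam K x z ≤ L.cp z

/-- compatible labellings without riders: `V (inl p)` letter, `V (inr z)` own link of `z`, `E z`
left overs -/
structure Sol0 (V : α ⊕ C → ZMod 2) (E : C → ZMod 2) : Prop where
  star : ∀ j, V (.inl (L.S.y j)) = V (.inl (L.S.port x j))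
  ok : ∀ z, WOk K (L.w x z) (L.n z) (L.vv V z) (V (.inr z)) (E z)
  sp : ∀ z, L.sp z → V (.inr z) = V (.inr L.Ct.r)

/-- **compatible labellings** -/
structure Sol (V : α ⊕ C → ZMod 2) (E : C → ZMod 2) : Prop extends L.Sol0 K x V E where
  rider : ∀ z, WRd K (L.w x z) (L.n z) (L.rid x z) (L.vv V z) (E z)

/-- **the class graph is connected** -/
def Conn : Prop := ∀ V E, L.Sol K x V E →
  (∀ j, V (.inl (L.S.y j)) = V (.inr L.Ct.r)) ∧ ∀ z, V (.inr z) = V (.inr L.Ct.r)

open Classical in
/-- **first key** (to be maximal): active ports in the subtrees -/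
noncomputable def keyP [Fintype C] (x : J → Bool) : ℕ := ∑ z, (Finset.univ.filter fun j =>
  L.Ct.lo z ≤ L.S.port x j ∧ L.S.port x j ≤ L.Ct.hi z).card

open Classical in
/-- **second key** (to be maximal): closers before the gaps -/
noncomputable def keyC [Fintype C] (x : J → Bool) : ℕ := ∑ z, ∑ t ∈ Finset.range (L.n z + 1),
  ((Finset.range t).filter fun i => L.w x z i = .o ∧ stk K (L.w x z) i ≠ []).card

end Lv

end Pool.Agent.MP42.PD
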