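import Pool.Agent.MP42.PD.Rn

/-!
# Project MP42, bounded stack: loads (owner helper92)

If all prefix loads are at most `c` and all interval loads are less than `K`, then the reading with the
stack of capacity `K` has at most `c` left overs.
-/

set_option autoImplicit false
set_option linter.unusedSectionVars false

namespace Pool.Agent.MP42.PD

/-- the load of a letter: port `1`, unit `-1` -/
def ldl : Lt → ℤ
  | .o => 1
  | .u => -1
  | .z => 0

/-- the load of the word before `t` -/
def ld (w : ℕ → Lt) (t : ℕ) : ℤ := ∑ i ∈ Finset.range t, ldl (w i)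

lemma ld_succ (w : ℕ → Lt) (t : ℕ) : ld w (t + 1) = ld w t + ldl (w t) := by
  unfold ld
  rw [Finset.sum_range_succ]

@[simp] lemma ld_zero (w : ℕ → Lt) : ld w 0 = 0 := by simp [ld]

/-- **loads and left overs** -/
theorem mm_le_of_loads {K : ℕ} {w : ℕ → Lt} {N : ℕ} {c : ℤ} (hK : 0 < K) (hc : 0 ≤ c)
    (hpre : ∀ t ≤ N, ld w t ≤ c)
    (hint : ∀ s t, s ≤ t → t ≤ N → ld w t - ld w s < K) {t : ℕ} (ht : t ≤ N) :
    mm K w t ≤ c ∧ (mm K w t - hh K w t = ld w t ∨
      ∃ s ≤ t, hh K w t = K - 1 - (ld w t - ld w s)) := by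
  induction t with
  | zero =>
    rw [mm_zero, hh_zero, ld_zero]
    exact ⟨hc, Or.inl (by ring)⟩
  | succ t ih =>
    obtain ⟨i1, i2⟩ := ih (by omega)
    have hld := ld_succ w t
    have h0 := hh_nonneg (K := K) (w := w) t
    have hK' := hh_le (K := K) (w := w) t
    rcases hw : w t with _ | _ | _
    · rw [hw] at hld
      change ld w (t + 1) = ld w t + 1 at hld
      by_cases z : hh K w t = 0
      · obtain ⟨a1, a2⟩ := step_o0 hw z
        rw [a1, a2]
        rcases i2 with i2 | ⟨s, hs, i2⟩
        · have h1 := hpre (t + 1) ht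
          exact ⟨by omega, Or.inl (by omega)⟩
        · have h1 := hint s (t + 1) (by omega) ht
          omega
      · obtain ⟨a1, a2⟩ := step_o1 hw z
        rw [a1, a2]
        refine ⟨i1, ?_⟩
        rcases i2 with i2 | ⟨s, hs, i2⟩
        · exact Or.inl (by omega)
        · exact Or.inr ⟨s, by omega, by omega⟩
    · rw [hw] at hld
      change ld w (t + 1) = ld w t + -1 at hld
      by_cases z : hh K w t < K
      · obtain ⟨a1, a2⟩ := step_u0 hw z
        rw [a1, a2]
        refine ⟨i1, ?_⟩
        rcases i2 with i2 | ⟨s, hs, i2⟩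
        · exact Or.inl (by omega)
        · exact Or.inr ⟨s, by omega, by omega⟩
      · have z' : hh K w t = K := by omega
        obtain ⟨a1, a2⟩ := step_u1 hK hw z'
        rw [a1, a2]
        exact ⟨i1, Or.inr ⟨t + 1, le_refl _, by omega⟩⟩
    · rw [hw] at hld
      change ld w (t + 1) = ld w t + 0 at hld
      obtain ⟨a1, a2⟩ := step_z (K := K) hw
      rw [a1, a2]
      refine ⟨i1, ?_⟩
      rcases i2 with i2 | ⟨s, hs, i2⟩
      · exact Or.inl (by omega)
      · exact Or.inr ⟨s, by omega, by omega⟩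

/-- **the number of left overs** -/
theorem lo_card_le_of_loads {K : ℕ} {w : ℕ → Lt} {N c : ℕ} (hK : 0 < K)
    (hpre : ∀ t ≤ N, ld w t ≤ c)
    (hint : ∀ s t, s ≤ t → t ≤ N → ld w t - ld w s < K) : (lo K w N).card ≤ c := by
  have h := (mm_le_of_loads (K := K) (w := w) (N := N) (c := c) hK (by positivity) hpre hint
    (le_refl N)).1
  unfold mm at h
  exact_mod_cast h

end Pool.Agent.MP42.PD
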