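import Pool.Agent.MP42.PD.Rn

/-!
# Project MP42, bounded stack: exits at one circle (owner helper67)

`fv`: the parity function of a labelling `v` along a word.  `fv_eq`: it is given by the stack and the
left overs.  `exit_gap`, `exit_rider`: from a gap with value `1` one reaches a closer, the own link or
a left over with value `1`.
-/

set_option autoImplicit false
set_option linter.unusedSectionVars false

namespace Pool.Agent.MP42.PD

variable {K : ℕ} {w : ℕ → Lt}

lemma lo_mono {t t' : ℕ} (h : t ≤ t') : lo K w t ⊆ lo K w t' := fun i hi => by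
  rw [mem_lo] at hi ⊢
  exact ⟨hi.1.trans_le h, hi.2⟩

/-- **the part of the stack from an opener down stays until the opener is popped** -/
theorem suffix_cases {t N F : ℕ} {a l : List ℕ} (h : stk K w t = a ++ F :: l) (hN : t ≤ N) :
    (∃ a', stk K w N = a' ++ F :: l ∧ lo K w N = lo K w t) ∨
    (∃ X, t ≤ X ∧ X < N ∧ stk K w X = F :: l ∧ lo K w X = lo K w t ∧
      (w X = .o ∨ (w X = .u ∧ (F :: l).length = K))) := by
  obtain ⟨d, rfl⟩ := Nat.exists_eq_add_of_le hN
  clear hN
  induction d with
  | zero => exact Or.inl ⟨a, h, rfl⟩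
  | succ d ih =>
    rcases ih with ⟨a', h1, h2⟩ | ⟨X, h1, h2, h3⟩
    · have hne : stk K w (t + d) ≠ [] := by rw [h1]; simp
      have hlo : lo K w (t + (d + 1)) = lo K w t := by
        rw [← add_assoc, lo_succ_n (fun h4 => hne h4.2), h2]
      rcases hw : w (t + d) with _ | _ | _
      · rcases a' with _ | ⟨b, a'⟩
        · exact Or.inr ⟨t + d, by omega, by omega, h1, h2, Or.inl hw⟩
        · refine Or.inl ⟨a', ?_, hlo⟩
          rw [← add_assoc, stk_o hw, h1]
          rfl
      · by_cases hl : (stk K w (t + d)).length < K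
        · refine Or.inl ⟨(t + d) :: a', ?_, hlo⟩
          rw [← add_assoc, stk_u hw hl, h1]
          rfl
        · rcases a' with _ | ⟨b, a'⟩
          · refine Or.inr ⟨t + d, by omega, by omega, h1, h2, Or.inr ⟨hw, ?_⟩⟩
            have h3 := stk_len (K := K) (w := w) (t + d)
            rw [h1, List.nil_append] at h3 hl
            omega
          · refine Or.inl ⟨a', ?_, hlo⟩
            rw [← add_assoc, stk_u' hw hl, h1]
            rfl
      · refine Or.inl ⟨a', ?_, hlo⟩
        rw [← add_assoc, stk_z hw, h1]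
    · exact Or.inr ⟨X, h1, by omega, h3⟩

/-- the parity function of a labelling along the word -/
def fv (w : ℕ → Lt) (v : ℕ → ZMod 2) (f0 : ZMod 2) : ℕ → ZMod 2
  | 0 => f0
  | t + 1 => fv w v f0 t + (if w t = .z then 0 else v t)

/-- **a labelling of the word of a circle which respects the classes**; `vA` = value of the own
link, `vB` = value of two left overs -/
structure VOK (K : ℕ) (w : ℕ → Lt) (N : ℕ) (v : ℕ → ZMod 2) (vA vB : ZMod 2) : Prop where
  pop_o : ∀ t < N, w t = .o → ∀ F l, stk K w t = F :: l → v F = v t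
  pop_u : ∀ t < N, w t = .u → (stk K w t).length = K → ∀ F l, stk K w t = F :: l → v F = v t
  pair : ∀ t < N, w t = .u → (stk K w t).length = K → ∀ F F' l, stk K w t = F :: F' :: l →
    v F = v F'
  pend : ∀ G ∈ stk K w N, v G = vA
  one : (lo K w N).card ≤ 1 → ∀ Z ∈ lo K w N, v Z = vA
  two : (lo K w N).card = 2 → ∀ Z ∈ lo K w N, v Z = vB

variable {N : ℕ} {v : ℕ → ZMod 2} {vA vB f0 : ZMod 2}

/-- **the parity function is given by the stack and the left overs** -/
theorem fv_eq (hv : VOK K w N v vA vB) (hK : 0 < K) {t : ℕ} (ht : t ≤ N) :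
    fv w v f0 t = f0 + ((stk K w t).map v).sum + ∑ i ∈ lo K w t, v i := by
  induction t with
  | zero => simp [fv, stk, lo]
  | succ t ih =>
    have ih' := ih (by omega)
    rw [fv, ih']
    rcases hw : w t with _ | _ | _
    · rw [if_neg (by simp)]
      rcases hs : stk K w t with _ | ⟨F, l⟩
      · rw [stk_o hw, hs, lo_succ_o hw hs, Finset.sum_insert (by rw [mem_lo]; simp)]
        simp only [List.tail_nil, List.map_nil, List.sum_nil]
        ring
      · rw [stk_o hw, hs, lo_succ_n (by rw [hs]; simp)]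
        have h1 := hv.pop_o t (by omega) hw F l hs
        simp only [List.tail_cons, List.map_cons, List.sum_cons]
        rw [← h1]
        have h2 : v F + v F = 0 := CharTwo.add_self_eq_zero _
        linear_combination h2
    · rw [if_neg (by simp)]
      by_cases hl : (stk K w t).length < K
      · rw [stk_u hw hl, lo_succ_n (by rw [hw]; simp)]
        simp only [List.map_cons, List.sum_cons]
        ring
      · have hl' : (stk K w t).length = K := by
          have := stk_len (K := K) (w := w) t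
          omega
        rcases hs : stk K w t with _ | ⟨F, l⟩
        · rw [hs] at hl'; simp at hl'; omega
        · rw [stk_u' hw hl, hs, lo_succ_n (by rw [hw]; simp)]
          have h1 := hv.pop_u t (by omega) hw hl' F l hs
          simp only [List.tail_cons, List.map_cons, List.sum_cons]
          rw [← h1]
          have h2 : v F + v F = 0 := CharTwo.add_self_eq_zero _
          linear_combination h2
    · rw [if_pos rfl, stk_z hw, lo_succ_n (by rw [hw]; simp), add_zero]

private lemma z2 (a : ZMod 2) : a = 0 ∨ a = 1 := by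
  revert a; decide

lemma sum_const_zero {ι : Type*} (s : List ι) (g : ι → ZMod 2) (h : ∀ i ∈ s, g i = 0) :
    (s.map g).sum = 0 := by
  apply List.sum_eq_zero
  intro x hx
  obtain ⟨i, hi, rfl⟩ := List.mem_map.1 hx
  exact h i hi

/-- left overs contribute nothing if `vA = 0` and all or none of them are read -/
lemma lo_zero (hv : VOK K w N v vA vB) (hA : vA = 0) {t : ℕ} (ht : t ≤ N)
    (h : (lo K w N).card ≤ 1 ∨ lo K w N = lo K w t) (h2 : (lo K w N).card ≤ 2) :
    ∑ i ∈ lo K w t, v i = 0 := by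
  by_cases h1 : (lo K w N).card ≤ 1
  · apply Finset.sum_eq_zero
    intro i hi
    rw [hv.one h1 i (lo_mono ht hi), hA]
  · have h3 : (lo K w N).card = 2 := by omega
    have h4 : lo K w N = lo K w t := h.resolve_left h1
    rw [← h4, Finset.sum_congr rfl (hv.two h3), Finset.sum_const, h3]
    show (2 : ℕ) • vB = 0
    rw [two_nsmul]
    exact CharTwo.add_self_eq_zero _

/-- the first left over has the value `f0`, the second one `f0 + vB` -/
lemma fv_left (hv : VOK K w N v vA vB) (hK : 0 < K) (h2 : (lo K w N).card = 2) :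
    ∃ Z₁ Z₂, Z₁ < Z₂ ∧ lo K w N = {Z₁, Z₂} ∧ fv w v f0 Z₁ = f0 ∧ fv w v f0 Z₂ = f0 + vB := by
  obtain ⟨a, b, hab, hl⟩ := Finset.card_eq_two.1 h2
  obtain ⟨Z₁, Z₂, hlt, hl'⟩ : ∃ Z₁ Z₂, Z₁ < Z₂ ∧ lo K w N = {Z₁, Z₂} := by
    rcases lt_or_gt_of_ne hab with h | h
    · exact ⟨a, b, h, hl⟩
    · exact ⟨b, a, h, by rw [hl, Finset.pair_comm]⟩
  have m1 : Z₁ ∈ lo K w N := by rw [hl']; simp
  have m2 : Z₂ ∈ lo K w N := by rw [hl']; simp
  have n1 := mem_lo.1 m1
  have n2 := mem_lo.1 m2
  have l1 : lo K w Z₁ = ∅ := by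
    rw [Finset.eq_empty_iff_forall_notMem]
    intro i hi
    have h3 := lo_mono n1.1.le hi
    have h4 := (mem_lo.1 hi).1
    rw [hl'] at h3
    simp only [Finset.mem_insert, Finset.mem_singleton] at h3
    omega
  have l2 : lo K w Z₂ = {Z₁} := by
    ext i
    constructor
    · intro hi
      have h3 := lo_mono n2.1.le hi
      have h4 := (mem_lo.1 hi).1
      rw [hl'] at h3
      simp only [Finset.mem_insert, Finset.mem_singleton] at h3 ⊢
      omega
    · intro hi
      rw [Finset.mem_singleton] at hi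
      subst hi
      exact mem_lo.2 ⟨hlt, n1.2⟩
  refine ⟨Z₁, Z₂, hlt, hl', ?_, ?_⟩
  · rw [fv_eq hv hK n1.1.le, n1.2.2, l1]; simp
  · rw [fv_eq hv hK n2.1.le, n2.2.2, l2, Finset.sum_singleton, hv.two h2 Z₁ m1]; simp

/-- exits of a gap `t`: a closer over `t`, the own link, a left over -/
structure ExitC (K : ℕ) (w : ℕ → Lt) (N : ℕ) (fX : ℕ → ZMod 2) (t X : ℕ) : Prop where
  le : t ≤ X
  lt : X < N
  port : w X = .o
  one : fX X = 1
  F : ∃ F l, stk K w X = F :: l ∧ F < t

/-- climb -/
def Climb (K : ℕ) (w : ℕ → Lt) (N : ℕ) (vA f0 : ZMod 2) (t : ℕ) : Prop :=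
  ((∃ G ∈ stk K w N, G < t) ∨ (lo K w N).card ≤ 1) ∧ (f0 = 1 ∨ vA = 1)

/-- left over exit -/
def ExitL (K : ℕ) (w : ℕ → Lt) (N : ℕ) (fX : ℕ → ZMod 2) (Z : ℕ) : Prop :=
  (lo K w N).card = 2 ∧ Z ∈ lo K w N ∧ fX Z = 1

/-- a cell value `1` of a suffix of the stack gives an exit -/
lemma exit_suffix (hv : VOK K w N v vA vB) (hK : 0 < K) (h2 : (lo K w N).card ≤ 2)
    {t F : ℕ} {a l : List ℕ} (ht : t ≤ N) (hs : stk K w t = a ++ F :: l)
    (hlen : (F :: l).length < K ∨ a = [] ∧ ∀ X, t ≤ X → X < N → stk K w X = F :: l → w X = .o)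
    (h1 : f0 + ((F :: l).map v).sum + ∑ i ∈ lo K w t, v i = 1) :
    (∃ X, ExitC K w N (fv w v f0) t X) ∨ Climb K w N vA f0 t := by
  have hFt : F < t := stk_lt (K := K) (w := w) (by rw [hs]; simp)
  rcases suffix_cases hs ht with ⟨a', h3, h4⟩ | ⟨X, h3, h4, h5, h6, h7⟩
  · right
    refine ⟨Or.inl ⟨F, by rw [h3]; simp, hFt⟩, ?_⟩
    by_contra hcon
    rw [not_or] at hcon
    have hA : vA = 0 := (z2 vA).resolve_right hcon.2
    have hf : f0 = 0 := (z2 f0).resolve_right hcon.1
    rw [hf, lo_zero hv hA ht (Or.inr h4) h2, sum_const_zero _ _ (fun i hi => by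
      rw [hv.pend i (by rw [h3]; exact List.mem_append_right _ hi), hA])] at h1
    revert h1; decide
  · left
    have h8 : w X = .o := by
      rcases h7 with h7 | ⟨h7, h8⟩
      · exact h7
      · rcases hlen with h9 | ⟨-, h9⟩
        · omega
        · exact h9 X h3 h4 h5
    refine ⟨X, h3, h4, h8, ?_, F, l, h5, hFt⟩
    rw [fv_eq hv hK h4.le, h5, h6]
    exact h1

/-- main level -/
lemma exit_main (hv : VOK K w N v vA vB) (hK : 0 < K) (h2 : (lo K w N).card ≤ 2)
    {t : ℕ} (ht : t ≤ N) (h1 : f0 + ∑ i ∈ lo K w t, v i = 1) :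
    Climb K w N vA f0 t ∨ ∃ Z, ExitL K w N (fv w v f0) Z := by
  by_cases hc : (lo K w N).card ≤ 1
  · left
    refine ⟨Or.inr hc, ?_⟩
    by_contra hcon
    rw [not_or] at hcon
    have hA : vA = 0 := (z2 vA).resolve_right hcon.2
    have hf : f0 = 0 := (z2 f0).resolve_right hcon.1
    rw [hf, lo_zero hv hA ht (Or.inl hc) h2] at h1
    revert h1; decide
  · right
    have hc2 : (lo K w N).card = 2 := by omega
    obtain ⟨Z₁, Z₂, h3, h4, h5, h6⟩ := fv_left (f0 := f0) hv hK hc2
    rcases z2 f0 with hf | hf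
    · have hB : vB = 1 := by
        by_contra hcon
        have hB : vB = 0 := (z2 vB).resolve_right hcon
        rw [hf, Finset.sum_eq_zero (fun i hi => by
          rw [hv.two hc2 i (lo_mono ht hi), hB])] at h1
        revert h1; decide
      refine ⟨Z₂, hc2, by rw [h4]; simp, ?_⟩
      rw [h6, hf, hB]; decide
    · exact ⟨Z₁, hc2, by rw [h4]; simp, by rw [h5, hf]⟩

/-- **exits of a gap with value `1`** -/
theorem exit_gap (hv : VOK K w N v vA vB) (hK : 3 ≤ K) (h2 : (lo K w N).card ≤ 2)
    {t : ℕ} (ht : t ≤ N) (h1 : fv w v f0 t = 1) :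
    (∃ X, ExitC K w N (fv w v f0) t X) ∨ Climb K w N vA f0 t ∨
      (stk K w t = [] ∧ ∃ Z, ExitL K w N (fv w v f0) Z) := by
  have hK0 : 0 < K := by omega
  rw [fv_eq hv hK0 ht] at h1
  rcases hs : stk K w t with _ | ⟨F₁, l⟩
  · rw [hs] at h1
    simp only [List.map_nil, List.sum_nil, add_zero] at h1
    rcases exit_main hv hK0 h2 ht h1 with h | h
    · exact Or.inr (Or.inl h)
    · exact Or.inr (Or.inr ⟨rfl, h⟩)
  · rw [hs] at h1
    by_cases hu : ∀ X, t ≤ X → X < N → stk K w X = F₁ :: l → w X = .o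
    · rcases exit_suffix hv hK0 h2 ht (a := []) (by rw [hs]; rfl) (Or.inr ⟨rfl, hu⟩) h1 with h | h
      · exact Or.inl h
      · exact Or.inr (Or.inl h)
    · by_cases hfull : (F₁ :: l).length < K
      · rcases exit_suffix hv hK0 h2 ht (a := []) (by rw [hs]; rfl) (Or.inl hfull) h1 with h | h
        · exact Or.inl h
        · exact Or.inr (Or.inl h)
      have hlen : (F₁ :: l).length = K := by
        have := stk_len (K := K) (w := w) t
        rw [hs] at this
        omega
      -- is the top popped by a unit?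
      rcases suffix_cases (a := []) (N := N) (by rw [hs]; rfl) ht with ⟨a', h3, h4⟩ |
        ⟨X, h3, h4, h5, h6, h7⟩
      · right; left
        refine ⟨Or.inl ⟨F₁, by rw [h3]; simp, stk_lt (K := K) (w := w) (by rw [hs]; simp)⟩, ?_⟩
        by_contra hcon
        rw [not_or] at hcon
        have hA : vA = 0 := (z2 vA).resolve_right hcon.2
        have hf : f0 = 0 := (z2 f0).resolve_right hcon.1
        rw [hf, lo_zero hv hA ht (Or.inr h4) h2, sum_const_zero _ _ (fun i hi => by
          rw [hv.pend i (by rw [h3]; exact List.mem_append_right _ hi), hA])] at h1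
        revert h1; decide
      · rcases h7 with h7 | ⟨h7, h8⟩
        · left
          refine ⟨X, h3, h4, h7, ?_, F₁, l, h5, stk_lt (K := K) (w := w) (by rw [hs]; simp)⟩
          rw [fv_eq hv hK0 h4.le, h5, h6]
          exact h1
        · rcases l with _ | ⟨F₂, l⟩
          · simp at hlen; omega
          rcases l with _ | ⟨F₃, l⟩
          · simp at hlen; omega
          have h9 := hv.pair X h4 h7 (by rw [h5]; exact hlen) F₁ F₂ (F₃ :: l) h5
          have h10 : f0 + ((F₃ :: l).map v).sum + ∑ i ∈ lo K w t, v i = 1 := by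
            rw [← h1]
            simp only [List.map_cons, List.sum_cons]
            rw [h9]
            have h2 : v F₂ + v F₂ = 0 := CharTwo.add_self_eq_zero _
            linear_combination -h2
          rcases exit_suffix hv hK0 h2 ht (a := [F₁, F₂]) (by rw [hs]; rfl)
            (Or.inl (by simp at hlen ⊢; omega)) h10 with h | h
          · exact Or.inl h
          · exact Or.inr (Or.inl h)

/-- **exits of a rider on a class with value `1`, between gaps with value `0`** -/
theorem exit_rider (hv : VOK K w N v vA vB) (hK : 3 ≤ K) (h2 : (lo K w N).card ≤ 2)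
    {t : ℕ} (ht : t ≤ N) (h0 : fv w v f0 t = 0)
    (hr : ∀ F l, stk K w t = F :: l → v F = 1)
    (hr1 : stk K w t = [] → (lo K w N).card ≤ 1 → vA = 1)
    (hr2 : stk K w t = [] → (lo K w N).card = 2 → vB = 1) :
    (∃ X, ExitC K w N (fv w v f0) t X) ∨ Climb K w N vA f0 t ∨
      (∃ Z, ExitL K w N (fv w v f0) Z) := by
  have hK0 : 0 < K := by omega
  have h1 := h0
  rw [fv_eq hv hK0 ht] at h1
  rcases hs : stk K w t with _ | ⟨F₁, l⟩
  · by_cases hc : (lo K w N).card ≤ 1
    · exact Or.inr (Or.inl ⟨Or.inr hc, Or.inr (hr1 hs hc)⟩)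
    · have hc2 : (lo K w N).card = 2 := by omega
      right; right
      obtain ⟨Z₁, Z₂, h3, h4, h5, h6⟩ := fv_left (f0 := f0) hv hK0 hc2
      rw [hr2 hs hc2] at h6
      rcases z2 f0 with hf | hf
      · refine ⟨Z₂, hc2, by rw [h4]; simp, ?_⟩
        rw [h6, hf]; decide
      · exact ⟨Z₁, hc2, by rw [h4]; simp, by rw [h5, hf]⟩
  · have hF := hr F₁ l hs
    have h10 : f0 + (l.map v).sum + ∑ i ∈ lo K w t, v i = 1 := by
      rw [hs] at h1
      simp only [List.map_cons, List.sum_cons, hF] at h1
      have h2 : (1 : ZMod 2) + 1 = 0 := by decide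
      linear_combination h1 - h2
    rcases l with _ | ⟨F₂, l⟩
    · simp only [List.map_nil, List.sum_nil, add_zero] at h10
      rcases exit_main hv hK0 h2 ht h10 with h | h
      · exact Or.inr (Or.inl h)
      · exact Or.inr (Or.inr h)
    · have hlen : (F₂ :: l).length < K := by
        have := stk_len (K := K) (w := w) t
        rw [hs] at this
        simp only [List.length_cons] at this ⊢
        omega
      rcases exit_suffix hv hK0 h2 ht (a := [F₁]) (by rw [hs]; rfl) (Or.inl hlen) h10 with h | h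
      · exact Or.inl h
      · exact Or.inr (Or.inl h)

/-- exits of a rider, all kinds of riders (also late ones, note of helper55): the value of the rider
is the value of the top of the stack, of the own link (main level, at most one left over), of the left
overs, or, inside a pair of units, of the third element of the stack -/
theorem exit_rider' (hv : VOK K w N v vA vB) (hK : 3 ≤ K) (h2 : (lo K w N).card ≤ 2)
    {t : ℕ} (ht : t ≤ N) (h0 : fv w v f0 t = 0)
    (hr : (∃ F l, stk K w t = F :: l ∧ v F = 1) ∨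
      (stk K w t = [] ∧ (lo K w N).card ≤ 1 ∧ vA = 1) ∨
      ((lo K w N).card = 2 ∧ vB = 1) ∨
      (∃ F₁ F₂ F₃ l, stk K w t = F₁ :: F₂ :: F₃ :: l ∧ v F₁ = v F₂ ∧ v F₃ = 1)) :
    (∃ X, ExitC K w N (fv w v f0) t X) ∨ Climb K w N vA f0 t ∨
      (∃ Z, ExitL K w N (fv w v f0) Z) := by
  have hK0 : 0 < K := by omega
  rcases hr with ⟨F, l, h, h1⟩ | ⟨h, hc, hA⟩ | ⟨hc, hB⟩ | ⟨F₁, F₂, F₃, l, h, h12, h3⟩
  · exact exit_rider hv hK h2 ht h0
      (fun F' l' h' => by rw [h] at h'; rw [← (List.cons.inj h').1]; exact h1)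
      (fun h' => by rw [h] at h'; cases h') (fun h' => by rw [h] at h'; cases h')
  · exact Or.inr (Or.inl ⟨Or.inr hc, Or.inr hA⟩)
  · right; right
    obtain ⟨Z₁, Z₂, h3, h4, h5, h6⟩ := fv_left (f0 := f0) hv hK0 hc
    rw [hB] at h6
    rcases z2 f0 with hf | hf
    · refine ⟨Z₂, hc, by rw [h4]; simp, ?_⟩
      rw [h6, hf]; decide
    · exact ⟨Z₁, hc, by rw [h4]; simp, by rw [h5, hf]⟩
  · have h1 := h0
    rw [fv_eq hv hK0 ht, h] at h1
    have h10 : f0 + (l.map v).sum + ∑ i ∈ lo K w t, v i = 1 := by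
      simp only [List.map_cons, List.sum_cons, h12, h3] at h1
      have h2 : (1 : ZMod 2) + 1 = 0 := by decide
      have h4 : v F₂ + v F₂ = 0 := CharTwo.add_self_eq_zero _
      linear_combination h1 - h2 - h4
    rcases l with _ | ⟨F₄, l⟩
    · simp only [List.map_nil, List.sum_nil, add_zero] at h10
      rcases exit_main hv hK0 h2 ht h10 with h | h
      · exact Or.inr (Or.inl h)
      · exact Or.inr (Or.inr h)
    · have hlen : (F₄ :: l).length < K := by
        have := stk_len (K := K) (w := w) t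
        rw [h] at this
        simp only [List.length_cons] at this ⊢
        omega
      rcases exit_suffix hv hK0 h2 ht (a := [F₁, F₂, F₃]) (by rw [h]; rfl) (Or.inl hlen) h10 with
        h | h
      · exact Or.inl h
      · exact Or.inr (Or.inl h)

/-- if the left overs have the value `1`, then exactly one of them has the gap value `1` before it -/
theorem exitL_unique (hv : VOK K w N v vA vB) (hK : 0 < K) (hB : vB = 1) {Z Z' : ℕ}
    (h : ExitL K w N (fv w v f0) Z) (h' : ExitL K w N (fv w v f0) Z') : Z = Z' := by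
  obtain ⟨Z₁, Z₂, h3, h4, h5, h6⟩ := fv_left (f0 := f0) hv hK h.1
  have m := h.2.1
  have m' := h'.2.1
  have e := h.2.2
  have e' := h'.2.2
  rw [h4] at m m'
  simp only [Finset.mem_insert, Finset.mem_singleton] at m m'
  rw [hB] at h6
  rcases m with rfl | rfl <;> rcases m' with rfl | rfl
  · rfl
  · rw [h5] at e; rw [h6, e] at e'; exact absurd e' (by decide)
  · rw [h5] at e'; rw [h6, e'] at e; exact absurd e (by decide)
  · rfl

end Pool.Agent.MP42.PD
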