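import Pool.Agent.MP42.PD.Defs
import Pool.Agent.MP42.PD.Dom1
import Pool.Agent.MP42.PC.Exists

/-!
# Bounded stack structures: the domain is not empty (owner helper43)

`exists_dom_closed`, `exists_dom_top`: there are ports such that every circle has at most `cp` left
overs in the reading with a stack of capacity `K ≥ 4`.
-/

set_option autoImplicit false
set_option linter.unusedSectionVars false

namespace Pool.Agent.MP42.PD

open Pool.Agent.MP42.U

namespace Lv

variable {C J α : Type*} [LinearOrder α] [Fintype C] [Fintype J] (L : Lv C J α)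

/-! ### The contour restricted to a finite set of positions -/

open Classical in
/-- the relevant positions -/
noncomputable def fn : Finset α := (Finset.univ.image L.Ct.lo) ∪ ((Finset.univ.image L.Ct.hi) ∪
  (Finset.univ.image fun q : J × Lg3 => L.S.leg q.1 q.2))

lemma lo_fn (z : C) : L.Ct.lo z ∈ L.fn := by
  classical
  exact Finset.mem_union_left _ (Finset.mem_image_of_mem _ (Finset.mem_univ _))

lemma hi_fn (z : C) : L.Ct.hi z ∈ L.fn := by
  classical
  exact Finset.mem_union_right _ (Finset.mem_union_left _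
    (Finset.mem_image_of_mem _ (Finset.mem_univ _)))

lemma leg_fn (j : J) (s : Lg3) : L.S.leg j s ∈ L.fn := by
  classical
  exact Finset.mem_union_right _ (Finset.mem_union_right _
    (Finset.mem_image.2 ⟨(j, s), Finset.mem_univ _, rfl⟩))

/-- the restricted contour -/
noncomputable def Rc : Contour C {p // p ∈ L.fn} where
  r := L.Ct.r
  par := L.Ct.par
  dep := L.Ct.dep
  dep_par := L.Ct.dep_par
  pt p := L.Ct.pt p.1
  lo z := ⟨L.Ct.lo z, L.lo_fn z⟩
  hi z := ⟨L.Ct.hi z, L.hi_fn z⟩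
  le z := L.Ct.le z
  mem z p := L.Ct.mem z p.1
  top p := L.Ct.top p.1
  disj := L.Ct.disj
  pt_disj c p := L.Ct.pt_disj c p.1

/-- the letters `y` -/
noncomputable def yy (j : J) : {p // p ∈ L.fn} := ⟨L.S.y j, L.leg_fn j .y⟩

/-- the corners `a` -/
noncomputable def aa (j : J) : {p // p ∈ L.fn} := ⟨L.S.a j, L.leg_fn j .a⟩

/-- the corners `b` -/
noncomputable def bb (j : J) : {p // p ∈ L.fn} := ⟨L.S.b j, L.leg_fn j .b⟩

lemma star3 : PC.Star3 L.Rc L.cls L.yy L.aa L.bb where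
  ca j := L.S.clsA j
  cb j := L.S.clsB j
  ai i j h := L.S.a_inj (congrArg Subtype.val h)
  bi i j h := L.S.b_inj (congrArg Subtype.val h)
  ya i j h := L.S.y_ne_a i j (congrArg Subtype.val h)
  yb i j h := L.S.y_ne_b i j (congrArg Subtype.val h)
  c1 j h := by
    rintro ⟨h1, h2⟩
    have h' : L.S.leg j .a < L.S.leg j .b := h
    have h1' : L.S.leg j .a < L.S.leg j .y := h1
    have h2' : L.S.leg j .y < L.S.leg j .b := h2
    rcases L.S.cyc j with ⟨g1, g2⟩ | ⟨g1, g2⟩ | ⟨g1, g2⟩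
    · exact absurd (g1.trans g2) (not_lt.2 h'.le)
    · exact absurd g2 (not_lt.2 h2'.le)
    · exact absurd g1 (not_lt.2 h1'.le)
  c2 j h := by
    have h' : L.S.leg j .b < L.S.leg j .a := h
    rcases L.S.cyc j with ⟨g1, g2⟩ | ⟨g1, g2⟩ | ⟨g1, g2⟩
    · exact ⟨g1, g2⟩
    · exact absurd g1 (not_lt.2 h'.le)
    · exact absurd g2 (not_lt.2 h'.le)
  nb i j hij := by
    show (L.S.leg i .a < L.S.leg j .a ∧ L.S.leg j .a < L.S.leg i .b) ∨
      (L.S.leg i .b < L.S.leg j .a ∧ L.S.leg j .a < L.S.leg i .a) ↔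
      (L.S.leg i .a < L.S.leg j .b ∧ L.S.leg j .b < L.S.leg i .b) ∨
      (L.S.leg i .b < L.S.leg j .b ∧ L.S.leg j .b < L.S.leg i .a)
    rcases lt_or_gt_of_ne (L.S.a_ne_b i i) with h | h
    · have h' : L.S.leg i .a < L.S.leg i .b := h
      rw [L.S.nc_iff hij h' .a .b]
      refine or_congr_right ⟨fun g => absurd (g.1.trans g.2) (not_lt.2 h'.le),
        fun g => absurd (g.1.trans g.2) (not_lt.2 h'.le)⟩
    · have h' : L.S.leg i .b < L.S.leg i .a := h
      rw [L.S.nc_iff hij h' .a .b]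
      refine or_congr_left ⟨fun g => absurd (g.1.trans g.2) (not_lt.2 h'.le),
        fun g => absurd (g.1.trans g.2) (not_lt.2 h'.le)⟩
  ny i j hij := by
    show (L.S.leg i .a < L.S.leg j .a ∧ L.S.leg j .a < L.S.leg i .b) ∨
      (L.S.leg i .b < L.S.leg j .a ∧ L.S.leg j .a < L.S.leg i .a) ↔
      (L.S.leg i .a < L.S.leg j .y ∧ L.S.leg j .y < L.S.leg i .b) ∨
      (L.S.leg i .b < L.S.leg j .y ∧ L.S.leg j .y < L.S.leg i .a)
    rcases lt_or_gt_of_ne (L.S.a_ne_b i i) with h | h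
    · have h' : L.S.leg i .a < L.S.leg i .b := h
      rw [L.S.nc_iff hij h' .a .y]
      refine or_congr_right ⟨fun g => absurd (g.1.trans g.2) (not_lt.2 h'.le),
        fun g => absurd (g.1.trans g.2) (not_lt.2 h'.le)⟩
    · have h' : L.S.leg i .b < L.S.leg i .a := h
      rw [L.S.nc_iff hij h' .a .y]
      refine or_congr_left ⟨fun g => absurd (g.1.trans g.2) (not_lt.2 h'.le),
        fun g => absurd (g.1.trans g.2) (not_lt.2 h'.le)⟩

/-! ### Items and segments -/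

open Classical in
/-- the segment of an item -/
noncomputable def sg : α ⊕ C → PC.Sg L.Rc
  | .inl p => if h : p ∈ L.fn then PC.sp L.Rc ⟨p, h⟩ else PC.sp L.Rc (L.Rc.lo L.Rc.r)
  | .inr c => if h : c ≠ L.Rc.r then PC.sc L.Rc c h else PC.sp L.Rc (L.Rc.lo L.Rc.r)

lemma sg_inl {p : α} (h : p ∈ L.fn) : L.sg (.inl p) = PC.sp L.Rc ⟨p, h⟩ := dif_pos h

lemma sg_inr {c : C} (h : c ≠ L.Rc.r) : L.sg (.inr c) = PC.sc L.Rc c h := dif_pos h

/-- the items of the lists -/
lemma rd_cases {z : C} {i : α ⊕ C} (h : i ∈ L.rd z) :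
    (∃ j s, ∃ h : L.S.leg j s ∈ L.fn, i = .inl (L.S.leg j s) ∧
      L.sg i = PC.sp L.Rc ⟨L.S.leg j s, h⟩ ∧ L.Ct.pt (L.S.leg j s) = z) ∨
    (∃ c, ∃ h : c ≠ L.Rc.r, i = .inr c ∧ L.sg i = PC.sc L.Rc c h ∧ ¬ L.sp c ∧ L.Ct.par c = z) := by
  obtain ⟨h1, h2, h3⟩ := (L.mem z i).1 h
  rcases i with p | c
  · left
    obtain ⟨j, s, rfl⟩ := h1 p rfl
    exact ⟨j, s, L.leg_fn j s, rfl, L.sg_inl _, h3⟩
  · right
    have h4 : c ≠ L.Rc.r := by
      rintro rfl
      exact h2 _ rfl L.sp_r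
    exact ⟨c, h4, rfl, L.sg_inr h4, h2 c rfl, h3⟩

lemma ho_sg {z : C} {i : α ⊕ C} (h : i ∈ L.rd z) : PC.ho L.Rc (L.sg i) = z := by
  rcases L.rd_cases h with ⟨j, s, hl, -, h2, h3⟩ | ⟨c, hc, -, h2, -, h3⟩
  · rw [h2]
    exact h3
  · rw [h2]
    exact h3

lemma lt_sg {z : C} {i i' : α ⊕ C} (h : i ∈ L.rd z) (h' : i' ∈ L.rd z)
    (hlt : L.Ct.ihi i < L.Ct.ilo i') :
    PC.shi L.Rc (L.sg i) < PC.slo L.Rc (L.sg i') := by
  rcases L.rd_cases h with ⟨j, s, hl, h1, h2, h3⟩ | ⟨c, hc, h1, h2, -, h3⟩ <;>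
  rcases L.rd_cases h' with ⟨j', s', hl', h1', h2', h3'⟩ | ⟨c', hc', h1', h2', -, h3'⟩ <;>
  subst h1 <;> subst h1' <;> rw [h2, h2'] <;> exact PC.zr_lt.2 hlt

lemma kk_sg {z : C} {i i' : α ⊕ C} (h : i ∈ L.rd z) (h' : i' ∈ L.rd z)
    (h1 : (L.cls z → L.Ct.ihi i < L.Ct.ilo i') ∧ (¬ L.cls z → L.Ct.ihi i' < L.Ct.ilo i)) :
    PC.kk L.Rc L.cls (L.sg i) < PC.kk L.Rc L.cls (L.sg i') := by
  have e1 := L.ho_sg h
  have e2 := L.ho_sg h'
  have s1 := PC.slo_le L.Rc (L.sg i)
  have s2 := PC.slo_le L.Rc (L.sg i')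
  by_cases hc : L.cls z
  · rw [PC.kk_pos (by rw [e1]; exact hc), PC.kk_pos (by rw [e2]; exact hc)]
    have := L.lt_sg h h' (h1.1 hc)
    omega
  · rw [PC.kk_neg (by rw [e1]; exact hc), PC.kk_neg (by rw [e2]; exact hc)]
    have := L.lt_sg h' h (h1.2 hc)
    omega

/-- a segment which is not an item of the list: no letter, or a special child -/
lemma seg_cases' (s : PC.Sg L.Rc) : L.sg (s.1.map Subtype.val id) = s ∧
    ((s.1.map Subtype.val id) ∈ L.rd (PC.ho L.Rc s) ∨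
      (∃ p, s = PC.sp L.Rc p ∧ ∀ j t, p.1 ≠ L.S.leg j t) ∨
      ∃ c, ∃ h : c ≠ L.Rc.r, s = PC.sc L.Rc c h ∧ L.sp c) := by
  classical
  rcases PC.seg_cases s with ⟨p, rfl⟩ | ⟨c, hc, rfl⟩
  · refine ⟨L.sg_inl p.2, ?_⟩
    by_cases h : ∃ j t, p.1 = L.S.leg j t
    · left
      refine (L.mem _ _).2 ⟨?_, ?_, rfl⟩
      · intro q hq
        have hq' : (Sum.inl p.1 : α ⊕ C) = Sum.inl q := hq
        rw [← Sum.inl_injective hq']
        exact h
      · intro c hc
        have hq' : (Sum.inl p.1 : α ⊕ C) = Sum.inr c := hc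
        simp at hq'
    · right; left
      refine ⟨p, rfl, fun j t h1 => h ⟨j, t, h1⟩⟩
  · refine ⟨L.sg_inr hc, ?_⟩
    by_cases h : L.sp c
    · right; right
      exact ⟨c, hc, rfl, h⟩
    · left
      refine (L.mem _ _).2 ⟨?_, ?_, rfl⟩
      · intro q hq
        have hq' : (Sum.inr c : α ⊕ C) = Sum.inl q := hq
        simp at hq'
      · intro c' hc'
        have hq' : (Sum.inr c : α ⊕ C) = Sum.inr c' := hc'
        rw [← Sum.inr_injective hq']
        exact h

/-! ### Weights -/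

variable (x : J → Bool)

lemma port_val (j : J) : (PC.port L.aa L.bb x j).1 = L.S.port x j := by
  unfold PC.port Stars.port
  by_cases h : x j
  · rw [if_pos h, if_pos h]
    rfl
  · rw [if_neg h, if_neg h]
    rfl

open Classical in
lemma used_odd (c : C) : PC.used L.Rc L.yy L.aa L.bb x c = L.cnt x c := by
  unfold PC.used cnt used
  rw [Finset.filter_union, Finset.card_union_of_disjoint, add_comm]
  · congr 1
    · rw [← Finset.card_image_of_injective _ L.S.y_inj]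
      congr 1
      ext p
      simp only [Finset.mem_image, Finset.mem_filter, Finset.mem_univ, true_and]
      constructor
      · rintro ⟨j, h, rfl⟩
        exact ⟨⟨j, rfl⟩, h⟩
      · rintro ⟨⟨j, rfl⟩, h⟩
        exact ⟨j, h, rfl⟩
    · rw [← Finset.card_image_of_injective _ (L.S.port_inj x)]
      congr 1
      ext p
      simp only [Finset.mem_image, Finset.mem_filter, Finset.mem_univ, true_and]
      constructor
      · rintro ⟨j, h, rfl⟩
        have h1 : L.Ct.lo c ≤ (PC.port L.aa L.bb x j).1 ∧ (PC.port L.aa L.bb x j).1 ≤ L.Ct.hi c :=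
          h
        rw [L.port_val] at h1
        exact ⟨⟨j, rfl⟩, h1⟩
      · rintro ⟨⟨j, rfl⟩, h⟩
        refine ⟨j, ?_, rfl⟩
        show L.Ct.lo c ≤ (PC.port L.aa L.bb x j).1 ∧ (PC.port L.aa L.bb x j).1 ≤ L.Ct.hi c
        rw [L.port_val]
        exact h
  · rw [Finset.disjoint_left]
    intro p hp hq
    obtain ⟨i, -, rfl⟩ := Finset.mem_image.1 (Finset.mem_filter.1 hp).1
    obtain ⟨j, -, hj⟩ := Finset.mem_image.1 (Finset.mem_filter.1 hq).1
    exact L.S.y_ne_port x i j hj.symm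

open Classical in
/-- the weight of a position -/
lemma wt_sp (p : {p // p ∈ L.fn}) : PC.wt L.Rc L.yy L.aa L.bb x (PC.sp L.Rc p) =
    (if ∃ j, p.1 = L.S.port x j then 1 else 0) - (if ∃ j, p.1 = L.S.y j then 1 else 0) := by
  have e : PC.wt L.Rc L.yy L.aa L.bb x (PC.sp L.Rc p) =
      ((Finset.univ.filter fun j => PC.sp L.Rc (PC.port L.aa L.bb x j) = PC.sp L.Rc p).card : ℤ) -
      ((Finset.univ.filter fun j => PC.sp L.Rc (L.yy j) = PC.sp L.Rc p).card : ℤ) -
      (if ∃ c, (PC.sp L.Rc p).1 = Sum.inr c ∧ Odd (PC.used L.Rc L.yy L.aa L.bb x c) then 1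
        else 0) := by
    unfold PC.wt
    congr!
  rw [e]
  have h1 : ∀ q : {p // p ∈ L.fn}, PC.sp L.Rc q = PC.sp L.Rc p ↔ q.1 = p.1 := by
    intro q
    constructor
    · intro h
      exact congrArg Subtype.val (Sum.inl_injective (congrArg Subtype.val h))
    · intro h
      rw [Subtype.ext h]
  have h2 : (Finset.univ.filter fun j => PC.sp L.Rc (PC.port L.aa L.bb x j) = PC.sp L.Rc p).card =
      if ∃ j, p.1 = L.S.port x j then 1 else 0 := by
    split_ifs with h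
    · obtain ⟨j, hj⟩ := h
      rw [Finset.card_eq_one]
      refine ⟨j, ?_⟩
      ext j'
      rw [Finset.mem_filter, Finset.mem_singleton, h1, L.port_val, hj]
      exact ⟨fun h => L.S.port_inj x h.2, fun h => ⟨Finset.mem_univ _, by rw [h]⟩⟩
    · rw [Finset.filter_false_of_mem, Finset.card_empty]
      intro j _ h2
      rw [h1, L.port_val] at h2
      exact h ⟨j, h2.symm⟩
  have h3 : (Finset.univ.filter fun j => PC.sp L.Rc (L.yy j) = PC.sp L.Rc p).card =
      if ∃ j, p.1 = L.S.y j then 1 else 0 := by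
    split_ifs with h
    · obtain ⟨j, hj⟩ := h
      rw [Finset.card_eq_one]
      refine ⟨j, ?_⟩
      ext j'
      rw [Finset.mem_filter, Finset.mem_singleton, h1, hj]
      exact ⟨fun h => L.S.y_inj h.2, fun h => ⟨Finset.mem_univ _, by rw [h]; rfl⟩⟩
    · rw [Finset.filter_false_of_mem, Finset.card_empty]
      intro j _ h2
      rw [h1] at h2
      exact h ⟨j, h2.symm⟩
  have h4 : ¬ ∃ c, (PC.sp L.Rc p).1 = Sum.inr c ∧ Odd (PC.used L.Rc L.yy L.aa L.bb x c) := by
    rintro ⟨c, h4, -⟩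
    simp [PC.sp] at h4
  rw [h2, h3, if_neg h4]
  push_cast
  ring

open Classical in
/-- the weight of a child -/
lemma wt_sc {c : C} (hc : c ≠ L.Rc.r) : PC.wt L.Rc L.yy L.aa L.bb x (PC.sc L.Rc c hc) =
    - (if Odd (L.cnt x c) then 1 else 0) := by
  have e : PC.wt L.Rc L.yy L.aa L.bb x (PC.sc L.Rc c hc) =
      ((Finset.univ.filter fun j => PC.sp L.Rc (PC.port L.aa L.bb x j) =
        PC.sc L.Rc c hc).card : ℤ) -
      ((Finset.univ.filter fun j => PC.sp L.Rc (L.yy j) = PC.sc L.Rc c hc).card : ℤ) -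
      (if ∃ c', (PC.sc L.Rc c hc).1 = Sum.inr c' ∧ Odd (PC.used L.Rc L.yy L.aa L.bb x c') then 1
        else 0) := by
    unfold PC.wt
    congr!
  rw [e]
  have h1 : ∀ q : {p // p ∈ L.fn}, PC.sp L.Rc q ≠ PC.sc L.Rc c hc := by
    intro q h
    have := congrArg Subtype.val h
    simp [PC.sp, PC.sc] at this
  rw [Finset.filter_false_of_mem (fun j _ => h1 _), Finset.filter_false_of_mem (fun j _ => h1 _),
    Finset.card_empty]
  have h4 : (∃ c', (PC.sc L.Rc c hc).1 = Sum.inr c' ∧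
      Odd (PC.used L.Rc L.yy L.aa L.bb x c')) ↔ Odd (L.cnt x c) := by
    constructor
    · rintro ⟨c', h4, h5⟩
      have : c = c' := Sum.inr_injective h4
      subst this
      rw [L.used_odd] at h5
      exact h5
    · intro h
      exact ⟨c, rfl, by rw [L.used_odd]; exact h⟩
  simp only [h4]
  push_cast
  ring

lemma wt_sg {z : C} {i : α ⊕ C} (h : i ∈ L.rd z) :
    PC.wt L.Rc L.yy L.aa L.bb x (L.sg i) = ldl (L.lt x i) := by
  classical
  rcases L.rd_cases h with ⟨j, s, hl, h1, h2, h3⟩ | ⟨c, hc, h1, h2, -, h3⟩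
  · rw [h2, L.wt_sp, h1]
    show _ = ldl (if ∃ j', L.S.leg j s = L.S.y j' then .u else
      if ∃ j', L.S.leg j s = L.S.port x j' then .o else .z)
    by_cases g1 : ∃ j', L.S.leg j s = L.S.y j'
    · have g2 : ¬ ∃ j', L.S.leg j s = L.S.port x j' := by
        rintro ⟨j2, hj2⟩
        obtain ⟨j1, hj1⟩ := g1
        exact L.S.y_ne_port x j1 j2 (hj1.symm.trans hj2)
      rw [if_pos g1, if_neg g2, if_pos g1]
      rfl
    · rw [if_neg g1, if_neg g1]
      by_cases g2 : ∃ j', L.S.leg j s = L.S.port x j'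
      · rw [if_pos g2, if_pos g2]
        rfl
      · rw [if_neg g2, if_neg g2]
        rfl
  · rw [h2, L.wt_sc x hc, h1]
    show _ = ldl (if Odd (L.cnt x c) then .u else .z)
    split_ifs <;> rfl

/-! ### Loads of the words -/

/-- the segment at a place -/
noncomputable def gs (z : C) (t : ℕ) : PC.Sg L.Rc :=
  match L.it z t with
  | none => PC.sp L.Rc (L.Rc.lo L.Rc.r)
  | some i => L.sg i

lemma it_mem {z : C} {t : ℕ} (h : t < L.n z) : ∃ i, L.it z t = some i ∧ i ∈ L.rd z ∧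
    L.gs z t = L.sg i ∧ L.w x z t = L.lt x i := by
  have h' : t < (L.rd z).length := h
  refine ⟨(L.rd z)[t], ?_, List.getElem_mem h', ?_, ?_⟩
  · exact List.getElem?_eq_getElem h'
  · unfold gs
    rw [show L.it z t = some (L.rd z)[t] from List.getElem?_eq_getElem h']
  · unfold w
    rw [show L.it z t = some (L.rd z)[t] from List.getElem?_eq_getElem h']

lemma gs_eq {z : C} {t : ℕ} (h : t < (L.rd z).length) : L.gs z t = L.sg ((L.rd z)[t]) := by
  unfold gs
  rw [show L.it z t = some (L.rd z)[t] from List.getElem?_eq_getElem h]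

lemma gs_lt {z : C} {t t' : ℕ} (h : t < t') (h' : t' < L.n z) :
    PC.kk L.Rc L.cls (L.gs z t) < PC.kk L.Rc L.cls (L.gs z t') := by
  have h1 : t' < (L.rd z).length := h'
  have h0 : t < (L.rd z).length := h.trans h1
  rw [L.gs_eq h0, L.gs_eq h1]
  exact L.kk_sg (List.getElem_mem h0) (List.getElem_mem h1)
    (List.pairwise_iff_getElem.1 (L.pw z) t t' h0 h1 h)

lemma gs_le {z : C} {t t' : ℕ} (ht : t < L.n z) (h' : t' < L.n z) :
    PC.kk L.Rc L.cls (L.gs z t) ≤ PC.kk L.Rc L.cls (L.gs z t') ↔ t ≤ t' := by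
  constructor
  · intro h
    by_contra h1
    exact absurd (L.gs_lt (not_le.1 h1) ht) (not_lt.2 h)
  · intro h
    rcases h.lt_or_eq with h1 | h1
    · exact (L.gs_lt h1 h').le
    · rw [h1]

lemma ho_gs {z : C} {t : ℕ} (h : t < L.n z) : PC.ho L.Rc (L.gs z t) = z := by
  have h' : t < (L.rd z).length := h
  rw [L.gs_eq h']
  exact L.ho_sg (List.getElem_mem h')

open Classical in
/-- **the load of an interval** -/
lemma load_eq {z : C} {σ : PC.Sg L.Rc} {s t : ℕ} (hst : s < t) (ht : t ≤ L.n z)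
    (hσ : PC.ho L.Rc σ = z)
    (h1 : ∀ i < L.n z, PC.kk L.Rc L.cls σ ≤ PC.kk L.Rc L.cls (L.gs z i) ↔ s ≤ i) :
    (∀ τ ∈ PC.Plc.Iv L.Rc L.cls σ (L.gs z (t - 1)),
      ∀ c, τ.1 = Sum.inr c → ¬ L.sp c) ∧
    ∑ τ ∈ PC.Plc.Iv L.Rc L.cls σ (L.gs z (t - 1)), PC.wt L.Rc L.yy L.aa L.bb x τ =
      ld (L.w x z) t - ld (L.w x z) s := by
  have htn : t - 1 < L.n z := by omega
  have hsp : ∀ τ ∈ PC.Plc.Iv L.Rc L.cls σ (L.gs z (t - 1)), ∀ c, τ.1 = Sum.inr c → ¬ L.sp c := by
    intro τ hτ c hc hspc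
    obtain ⟨-, g1, g2, g3⟩ := Finset.mem_filter.1 hτ
    have hcr : c ≠ L.Ct.r := by
      rintro rfl
      exact τ.2 hc
    obtain ⟨e1, e2, e3⟩ := L.sp_c c hspc hcr
    have hz : z = L.Ct.r := by
      rw [← hσ, ← g1, ← e1]
      show L.Rc.host τ.1 = L.Ct.par c
      rw [hc]
      rfl
    obtain ⟨i, -, k1, k2, -⟩ := L.it_mem x htn
    obtain ⟨k3, k4, k5⟩ := (L.mem z i).1 k1
    have hi1 : i ≠ .inr c := fun h => k4 c h hspc
    have hi2 : i ≠ .inr L.Ct.r := fun h => k4 _ h L.sp_r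
    obtain ⟨e4, e5⟩ := e3 i (k5.trans hz) hi1 hi2
    have hτc : τ = PC.sc L.Rc c hcr := Subtype.ext hc
    rw [k2] at g3
    have hoi : PC.ho L.Rc (L.sg i) = L.Ct.r := (L.ho_sg k1).trans hz
    have hoc : PC.ho L.Rc (PC.sc L.Rc c hcr) = L.Ct.r := e1
    have key : ∀ p : {p // p ∈ L.fn}, True := fun _ => trivial
    have hlo : PC.slo L.Rc (PC.sc L.Rc c hcr) = PC.zr (L.Rc.lo c) := rfl
    have hhi : PC.shi L.Rc (PC.sc L.Rc c hcr) = PC.zr (L.Rc.hi c) := rfl
    have sle := PC.slo_le L.Rc (L.sg i)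
    have sle' := PC.slo_le L.Rc (PC.sc L.Rc c hcr)
    have hpos : (L.Ct.ihi i < L.Ct.lo c → PC.shi L.Rc (L.sg i) < PC.zr (L.Rc.lo c)) ∧
        (L.Ct.hi c < L.Ct.ilo i → PC.zr (L.Rc.hi c) < PC.slo L.Rc (L.sg i)) := by
      rcases L.rd_cases k1 with ⟨j, s', hl, m1, m2, m3⟩ | ⟨c', hc', m1, m2, -, m3⟩ <;>
      subst m1 <;> rw [m2] <;> exact ⟨fun h => PC.zr_lt.2 h, fun h => PC.zr_lt.2 h⟩
    rw [hτc] at g3
    by_cases hcl : L.cls L.Ct.r
    · rw [PC.kk_pos (by rw [hoc]; exact hcl), PC.kk_pos (by rw [hoi]; exact hcl)] at g3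
      have := hpos.1 (e4 hcl)
      omega
    · rw [PC.kk_neg (by rw [hoc]; exact hcl), PC.kk_neg (by rw [hoi]; exact hcl)] at g3
      have := hpos.2 (e5 hcl)
      omega
  refine ⟨hsp, ?_⟩
  have hld : ld (L.w x z) t - ld (L.w x z) s = ∑ i ∈ Finset.Ico s t, ldl (L.w x z i) := by
    unfold ld
    rw [Finset.sum_Ico_eq_sub _ hst.le]
  have hinj : Set.InjOn (L.gs z) (Finset.Ico s t : Set ℕ) := by
    intro i hi i' hi' h
    rw [Finset.mem_coe, Finset.mem_Ico] at hi hi'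
    rcases lt_trichotomy i i' with h2 | h2 | h2
    · have := L.gs_lt h2 (show i' < L.n z by omega)
      rw [h] at this
      exact absurd this (lt_irrefl _)
    · exact h2
    · have := L.gs_lt h2 (show i < L.n z by omega)
      rw [h] at this
      exact absurd this (lt_irrefl _)
  have hw : ∑ i ∈ Finset.Ico s t, ldl (L.w x z i) =
      ∑ τ ∈ (Finset.Ico s t).image (L.gs z), PC.wt L.Rc L.yy L.aa L.bb x τ := by
    rw [Finset.sum_image hinj]
    refine Finset.sum_congr rfl fun i hi => ?_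
    rw [Finset.mem_Ico] at hi
    obtain ⟨e, -, k1, k2, k3⟩ := L.it_mem x (show i < L.n z by omega)
    rw [k2, k3, L.wt_sg x k1]
  rw [hld, hw]
  symm
  refine Finset.sum_subset ?_ ?_
  · intro τ hτ
    obtain ⟨i, hi, rfl⟩ := Finset.mem_image.1 hτ
    rw [Finset.mem_Ico] at hi
    refine Finset.mem_filter.2 ⟨Finset.mem_univ _, ?_, ?_, ?_⟩
    · rw [hσ]
      exact L.ho_gs (by omega)
    · exact (h1 i (by omega)).2 hi.1
    · exact (L.gs_le (by omega) htn).2 (by omega)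
  · intro τ hτ hτ'
    obtain ⟨-, g1, g2, g3⟩ := Finset.mem_filter.1 hτ
    obtain ⟨h2, h3 | ⟨p, h3, h4⟩ | ⟨c, hc, h3, h4⟩⟩ := L.seg_cases' τ
    · exfalso
      apply hτ'
      rw [g1, hσ] at h3
      obtain ⟨i, hi, hi'⟩ := List.getElem_of_mem h3
      have h5 : L.gs z i = τ := by
        unfold gs
        rw [show L.it z i = some (L.rd z)[i] from List.getElem?_eq_getElem hi, hi']
        exact h2
      have hin : i < L.n z := hi
      refine Finset.mem_image.2 ⟨i, ?_, h5⟩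
      rw [← h5] at g2 g3
      rw [Finset.mem_Ico]
      have h6 := (h1 i hin).1 g2
      have h7 := (L.gs_le hin htn).1 g3
      omega
    · rw [h3, L.wt_sp, if_neg, if_neg]
      · rfl
      · rintro ⟨j, hj⟩
        exact h4 j .y hj
      · rintro ⟨j, hj⟩
        rcases L.S.port_eq x j with h5 | h5
        · rw [h5] at hj
          exact h4 j .a hj
        · rw [h5] at hj
          exact h4 j .b hj
    · exact absurd h4 (hsp τ hτ c (by rw [h3]; rfl))

/-- **loads and the domain** -/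
theorem dom_of_adm {K : ℕ} (hK : 4 ≤ K) (hcp2 : ∀ z, ¬ Even (L.cp z) → L.sp z)
    (hA : PC.Adm L.Rc L.cls L.cp L.yy L.aa L.bb x) : L.Dom K x := by
  classical
  have hgd : ∀ τ : PC.Sg L.Rc, (∀ c, τ.1 = Sum.inr c → ¬ L.sp c) → PC.Gd L.Rc L.cp τ := by
    intro τ h c hc z hz
    by_contra h1
    have h2 := hcp2 z h1
    have hcr : c ≠ L.Ct.r := by
      rintro rfl
      exact τ.2 hc
    rcases Relation.ReflTransGen.cases_head hz with h3 | ⟨z', h3, h4⟩
    · rw [h3] at h2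
      exact h c hc h2
    · have h5 : L.Ct.par z = L.Ct.r := (L.sp_c z h2 h3.1).1
      have h6 : z' = L.Ct.r := h3.2.symm.trans h5
      rw [h6] at h4
      rcases Relation.ReflTransGen.cases_head h4 with h7 | ⟨z'', h7, -⟩
      · exact hcr h7.symm
      · exact h7.1 rfl
  intro z
  refine lo_card_le_of_loads (by omega) ?_ ?_
  · intro t ht
    rcases Nat.eq_zero_or_pos t with rfl | h0
    · rw [ld_zero]
      positivity
    · obtain ⟨fr, hf1, hf2⟩ := PC.exists_fst L.Rc L.cls z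
      obtain ⟨k1, k2⟩ := L.load_eq x (z := z) (σ := fr) (s := 0) h0 ht hf1 (by
        intro i hi
        refine ⟨fun _ => Nat.zero_le _, fun _ => ?_⟩
        exact hf2 _ ((L.ho_gs hi).trans hf1.symm))
      have htn : t - 1 < L.n z := by omega
      have h3 := hA.pre fr (L.gs z (t - 1)) ((L.ho_gs htn).trans hf1.symm)
        (hf2 _ ((L.ho_gs htn).trans hf1.symm)) hf2 (fun τ hτ => hgd τ (k1 τ hτ))
      rw [k2, ld_zero, hf1, sub_zero] at h3
      exact h3
  · intro s t hst ht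
    rcases hst.eq_or_lt with rfl | h0
    · rw [sub_self]
      have : (0 : ℤ) < K := by exact_mod_cast (by omega : 0 < K)
      exact this
    · have hsn : s < L.n z := by omega
      have htn : t - 1 < L.n z := by omega
      obtain ⟨k1, k2⟩ := L.load_eq x (z := z) (σ := L.gs z s) h0 ht (L.ho_gs hsn)
        (fun i hi => L.gs_le hsn hi)
      have h3 := hA.itv (L.gs z s) (L.gs z (t - 1)) ((L.ho_gs htn).trans (L.ho_gs hsn).symm)
        ((L.gs_le hsn htn).2 (by omega)) (fun τ hτ => hgd τ (k1 τ hτ))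
      rw [k2] at h3
      have : (4 : ℤ) ≤ K := by exact_mod_cast hK
      omega

variable {x}

/-- the ends of a special circle -/
lemma sp_end {z : C} (hz : L.sp z) (hzr : z ≠ L.Ct.r) :
    (L.cls z → L.Ct.lo z = L.Ct.lo L.Ct.r) ∧ (¬ L.cls z → L.Ct.hi z = L.Ct.hi L.Ct.r) := by
  obtain ⟨h1, h2, h3⟩ := L.sp_c z hz hzr
  constructor
  · intro hc
    have hcr : ¬ L.cls L.Ct.r := h2.1 hc
    rcases (L.Ct.mem L.Ct.r (L.Ct.lo L.Ct.r)).1 ⟨le_rfl, L.Ct.le _⟩ with h4 | ⟨c, hc1, hc2, hc3, hc4⟩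
    · exfalso
      have h5 := (h3 (.inl (L.Ct.lo L.Ct.r)) h4 (by simp) (by simp)).2 hcr
      have h6 := (L.Ct.top (L.Ct.hi z)).1
      exact absurd h5 (not_lt.2 h6)
    · by_cases h5 : c = z
      · subst h5
        exact le_antisymm hc3 (L.Ct.top _).1
      · exfalso
        have h6 := (h3 (.inr c) hc2 (fun h => h5 (Sum.inr_injective h))
          (fun h => hc1 (Sum.inr_injective h))).2 hcr
        have h7 : L.Ct.hi z < L.Ct.lo c := h6
        have h8 := (L.Ct.top (L.Ct.hi z)).1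
        exact absurd (h7.trans_le hc3) (not_lt.2 h8)
  · intro hc
    have hcr : L.cls L.Ct.r := by
      by_contra h
      exact hc (h2.2 h)
    rcases (L.Ct.mem L.Ct.r (L.Ct.hi L.Ct.r)).1 ⟨L.Ct.le _, le_rfl⟩ with h4 | ⟨c, hc1, hc2, hc3, hc4⟩
    · exfalso
      have h5 := (h3 (.inl (L.Ct.hi L.Ct.r)) h4 (by simp) (by simp)).1 hcr
      have h6 := (L.Ct.top (L.Ct.lo z)).2
      exact absurd h5 (not_lt.2 h6)
    · by_cases h5 : c = z
      · subst h5
        exact le_antisymm (L.Ct.top _).2 hc4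
      · exfalso
        have h6 := (h3 (.inr c) hc2 (fun h => h5 (Sum.inr_injective h))
          (fun h => hc1 (Sum.inr_injective h))).1 hcr
        have h7 : L.Ct.hi c < L.Ct.lo z := h6
        have h8 := (L.Ct.top (L.Ct.lo z)).2
        exact absurd (hc4.trans_lt h7) (not_lt.2 h8)

/-- the domain is not empty -/
theorem exists_dom_aux {K : ℕ} (hK : 4 ≤ K) (hodd : Odd (∑ z, (2 - L.cp z)))
    (hsum : ∑ z, (2 - L.cp z) ≤ 3) : ∃ x, L.Dom K x := by
  have hc2 : ∀ z, L.cp z ≤ 2 := by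
    intro z
    by_cases h : L.sp z
    · exact (L.cp_sp z h).trans (by norm_num)
    · rw [L.cp_n z h]
  have hcp2 : ∀ z, ¬ Even (L.cp z) → L.sp z := by
    intro z h
    by_contra h1
    rw [L.cp_n z h1] at h
    exact h even_two
  have ho : Odd (∑ z, L.cp z) := by
    have h1 : ∑ z, L.cp z + ∑ z, (2 - L.cp z) = 2 * Fintype.card C := by
      rw [← Finset.sum_add_distrib, Finset.sum_congr rfl (g := fun _ => 2) (fun z _ => by
        have := hc2 z
        omega), Finset.sum_const, Finset.card_univ, smul_eq_mul, mul_comm]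
    obtain ⟨m, hm⟩ := hodd
    rw [hm] at h1
    refine ⟨Fintype.card C - m - 1, ?_⟩
    omega
  obtain ⟨x, hx⟩ := PC.exists_adm (cp := L.cp) L.star3 (by
    intro z hz
    by_cases h : z = L.Ct.r
    · rw [h]
      exact ⟨fun _ => rfl, fun _ => rfl⟩
    · obtain ⟨h1, h2⟩ := L.sp_end (hcp2 z hz) h
      exact ⟨fun g => Subtype.ext (h1 g), fun g => Subtype.ext (h2 g)⟩) hc2 ho hsum
  exact ⟨x, L.dom_of_adm x hK hcp2 hx⟩

/-- **the domain of a closed level is not empty** -/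
theorem exists_dom_closed {K : ℕ} (hK : 4 ≤ K) (hsp : ∀ z, L.sp z ↔ z = L.Ct.r)
    (hcp : L.cp L.Ct.r = 1) : ∃ x, L.Dom K x := by
  classical
  have h1 : ∑ z, (2 - L.cp z) = 1 := by
    have : ∀ z, 2 - L.cp z = if z = L.Ct.r then 1 else 0 := by
      intro z
      by_cases h : z = L.Ct.r
      · rw [if_pos h, h, hcp]
      · rw [if_neg h, L.cp_n z (fun h1 => h ((hsp z).1 h1))]
    rw [Finset.sum_congr rfl (fun z _ => this z), Finset.sum_ite_eq' Finset.univ L.Ct.r
      (fun _ => 1), if_pos (Finset.mem_univ _)]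
  exact L.exists_dom_aux hK (by rw [h1]; exact odd_one) (by rw [h1]; norm_num)

/-- **the domain of a top level is not empty** -/
theorem exists_dom_top {K : ℕ} (hK : 4 ≤ K) (g1 : C) (hg : g1 ≠ L.Ct.r)
    (hsp : ∀ z, L.sp z ↔ z = L.Ct.r ∨ z = g1) (hcp : L.cp L.Ct.r = 0) (hcp1 : L.cp g1 = 1) :
    ∃ x, L.Dom K x := by
  classical
  have h1 : ∑ z, (2 - L.cp z) = 3 := by
    have : ∀ z, 2 - L.cp z = (if z = L.Ct.r then 2 else 0) + (if z = g1 then 1 else 0) := by
      intro z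
      by_cases h : z = L.Ct.r
      · rw [if_pos h, h, hcp, if_neg hg.symm]
      · by_cases h2 : z = g1
        · rw [if_neg h, if_pos h2, h2, hcp1]
        · rw [if_neg h, if_neg h2, L.cp_n z (fun h1 => by
            rcases (hsp z).1 h1 with h3 | h3
            · exact h h3
            · exact h2 h3)]
    rw [Finset.sum_congr rfl (fun z _ => this z), Finset.sum_add_distrib,
      Finset.sum_ite_eq' Finset.univ L.Ct.r (fun _ => 2), Finset.sum_ite_eq' Finset.univ g1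
      (fun _ => 1), if_pos (Finset.mem_univ _), if_pos (Finset.mem_univ _)]
  exact L.exists_dom_aux hK (by rw [h1]; decide) (by rw [h1])

end Lv

end Pool.Agent.MP42.PD
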