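import Pool.Agent.MP42.PD.FSum

/-!
# Star windows (owner helper18)

Full planar stars over a contour; the used letters are the legs `y j` and the ports. For every value
function `v` with `v (y j) = v (port j)` the prefix sums agree on the three windows of every star.
-/

set_option autoImplicit false
set_option linter.unusedSectionVars false

namespace Pool.Agent.MP42.PD

open Pool.Agent.MP42.U

variable {C α J : Type*} [LinearOrder α] [Fintype J] {Ct : Contour C α} {cls : C → Prop}
  (S : Stars Ct cls J) (t : J → Bool)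

open Classical in
/-- the used letters -/
noncomputable def Lts : Finset α := Finset.univ.image S.y ∪ Finset.univ.image (S.port t)

lemma mem_Lts {q : α} : q ∈ Lts S t ↔ ∃ j, q = S.y j ∨ q = S.port t j := by
  classical
  simp only [Lts, Finset.mem_union, Finset.mem_image, Finset.mem_univ, true_and]
  constructor
  · rintro (⟨j, rfl⟩ | ⟨j, rfl⟩)
    · exact ⟨j, Or.inl rfl⟩
    · exact ⟨j, Or.inr rfl⟩
  · rintro ⟨j, rfl | rfl⟩
    · exact Or.inl ⟨j, rfl⟩
    · exact Or.inr ⟨j, rfl⟩

lemma y_mem (j : J) : S.y j ∈ Lts S t := (mem_Lts S t).2 ⟨j, Or.inl rfl⟩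

lemma port_mem (j : J) : S.port t j ∈ Lts S t := (mem_Lts S t).2 ⟨j, Or.inr rfl⟩

/-- the third corner of a star -/
def third (j : J) : α := if t j then S.a j else S.b j

lemma third_not_mem (j : J) : third S t j ∉ Lts S t := by
  classical
  rw [mem_Lts]
  rintro ⟨i, h | h⟩
  · unfold third at h
    split_ifs at h
    · exact S.y_ne_a _ _ h.symm
    · exact S.y_ne_b _ _ h.symm
  · unfold third at h
    unfold Stars.port at h
    split_ifs at h with h1 h2 h2
    · exact S.a_ne_b _ _ h
    · have := S.a_inj h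
      subst this
      exact h2 h1
    · have := S.b_inj h
      subst this
      exact h1 h2
    · exact S.a_ne_b _ _ h.symm

open Classical in
/-- indicator in `ZMod 2` -/
noncomputable def ind (p : Prop) : ZMod 2 := if p then 1 else 0

lemma ind_t {p : Prop} (h : p) : ind p = 1 := if_pos h
lemma ind_f {p : Prop} (h : ¬ p) : ind p = 0 := if_neg h
lemma ind_congr {p q : Prop} (h : p ↔ q) : ind p = ind q := by rw [propext h]

lemma ind_cases (p : Prop) : ind p = 0 ∨ ind p = 1 := by
  by_cases h : p
  · exact Or.inr (ind_t h)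
  · exact Or.inl (ind_f h)

open Classical in
lemma sum_Lts (v : α → ZMod 2) (B : α → Prop) :
    ∑ q ∈ Lts S t with B q, v q =
      ∑ j, (ind (B (S.y j)) * v (S.y j) + ind (B (S.port t j)) * v (S.port t j)) := by
  rw [Finset.sum_add_distrib, Finset.sum_filter, Lts, Finset.sum_union, Finset.sum_image,
    Finset.sum_image]
  · congr 1
    · refine Finset.sum_congr rfl fun j _ => ?_
      unfold ind
      split_ifs <;> simp
    · refine Finset.sum_congr rfl fun j _ => ?_
      unfold ind
      split_ifs <;> simp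
  · intro i _ j _ h
    exact S.port_inj t h
  · intro i _ j _ h
    exact S.y_inj h
  · rw [Finset.disjoint_left]
    intro q hq hq'
    obtain ⟨i, -, rfl⟩ := Finset.mem_image.1 hq
    obtain ⟨j, -, h⟩ := Finset.mem_image.1 hq'
    exact S.y_ne_port t i j h.symm

open Classical in
/-- two cuts with no half star between them -/
lemma cut_eq {v : α → ZMod 2} (hv : ∀ j, v (S.y j) = v (S.port t j)) (B1 B2 : α → Prop) (j : J)
    (h1 : ∀ i, i ≠ j → ind (B1 (S.y i)) + ind (B2 (S.y i)) =
      ind (B1 (S.port t i)) + ind (B2 (S.port t i)))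
    (h2 : ind (B1 (S.y j)) + ind (B2 (S.y j)) + ind (B1 (S.port t j)) + ind (B2 (S.port t j)) = 0) :
    ∑ q ∈ Lts S t with B1 q, v q = ∑ q ∈ Lts S t with B2 q, v q := by
  rw [sum_Lts, sum_Lts]
  refine Finset.sum_congr rfl fun i _ => ?_
  rw [← hv i, ← add_mul, ← add_mul]
  congr 1
  by_cases hi : i = j
  · subst hi
    have e1 := z2 (ind (B2 (S.y i)))
    have e2 := z2 (ind (B2 (S.port t i)))
    linear_combination h2 - e1 - e2
  · have := h1 i hi
    have e1 := z2 (ind (B2 (S.y i)))
    have e2 := z2 (ind (B1 (S.port t i)))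
    linear_combination this - e1 + e2

/-- the other stars do not separate two legs of a star -/
lemma ind_window {i j : J} (hij : i ≠ j) (s u : Lg3) (p q : Lg3) (hsu : s ≠ u) :
    ind (S.leg i p ≤ S.leg j s) + ind (S.leg i p < S.leg j u) =
      ind (S.leg i q ≤ S.leg j s) + ind (S.leg i q < S.leg j u) := by
  have ne : ∀ r r' : Lg3, S.leg i r ≠ S.leg j r' := fun r r' h => hij (S.inj _ _ _ _ h).1
  have hne : S.leg j s ≠ S.leg j u := fun h => hsu (S.inj _ _ _ _ h).2
  rcases lt_or_gt_of_ne hne with h | h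
  · have key := S.nc_iff (Ne.symm hij) h p q
    by_cases hp : S.leg j s < S.leg i p ∧ S.leg i p < S.leg j u
    · have hq := key.1 hp
      rw [ind_f (not_le.2 hp.1), ind_t hp.2, ind_f (not_le.2 hq.1), ind_t hq.2]
    · have hq : ¬ (S.leg j s < S.leg i q ∧ S.leg i q < S.leg j u) := fun h => hp (key.2 h)
      have e : ∀ r, ¬ (S.leg j s < S.leg i r ∧ S.leg i r < S.leg j u) →
          ind (S.leg i r ≤ S.leg j s) + ind (S.leg i r < S.leg j u) = 0 := by
        intro r hr
        by_cases h1 : S.leg i r ≤ S.leg j s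
        · rw [ind_t h1, ind_t (h1.trans_lt h)]; rfl
        · rw [ind_f h1, ind_f (fun h2 => hr ⟨not_le.1 h1, h2⟩)]; rfl
      rw [e p hp, e q hq]
  · have key := S.nc_iff (Ne.symm hij) h p q
    by_cases hp : S.leg j u < S.leg i p ∧ S.leg i p < S.leg j s
    · have hq := key.1 hp
      rw [ind_t hp.2.le, ind_f (not_lt.2 hp.1.le), ind_t hq.2.le, ind_f (not_lt.2 hq.1.le)]
    · have hq : ¬ (S.leg j u < S.leg i q ∧ S.leg i q < S.leg j s) := fun h => hp (key.2 h)
      have e : ∀ r, ¬ (S.leg j u < S.leg i r ∧ S.leg i r < S.leg j s) →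
          ind (S.leg i r ≤ S.leg j s) + ind (S.leg i r < S.leg j u) = 0 := by
        intro r hr
        by_cases h1 : S.leg i r < S.leg j u
        · rw [ind_t (h1.le.trans h.le), ind_t h1]; rfl
        · have h2 : S.leg j u < S.leg i r := lt_of_le_of_ne (not_lt.1 h1) (Ne.symm (ne r u))
          rw [ind_f (fun h3 => hr ⟨h2, lt_of_le_of_ne h3 (ne r s)⟩), ind_f h1]; rfl
      rw [e p hp, e q hq]

/-- the port is a leg -/
lemma port_leg (j : J) : S.port t j = S.leg j (if t j then .b else .a) := by
  unfold Stars.port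
  split_ifs <;> rfl

variable {v : α → ZMod 2} (hv : ∀ j, v (S.y j) = v (S.port t j))
include hv

/-- a window of a star -/
lemma window (j : J) (s u : Lg3) (hsu : s ≠ u)
    (h : ind (S.y j ≤ S.leg j s) + ind (S.y j < S.leg j u) + ind (S.port t j ≤ S.leg j s) +
      ind (S.port t j < S.leg j u) = 0) :
    fa (Lts S t) v (S.leg j s) = fb (Lts S t) v (S.leg j u) := by
  classical
  have key := cut_eq S t hv (fun q => q ≤ S.leg j s) (fun q => q < S.leg j u) j (by
    intro i hi
    rw [port_leg]
    exact ind_window S hi s u .y _ hsu) h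
  unfold fa fb
  convert key

/-- **the three windows of a star** -/
theorem windows (j : J) :
    fa (Lts S t) v (S.y j) = fb (Lts S t) v (S.a j) ∧
    fa (Lts S t) v (S.a j) = fb (Lts S t) v (S.b j) ∧
    fa (Lts S t) v (S.b j) = fb (Lts S t) v (S.y j) := by
  have hc := S.cyc j
  have hy : S.leg j .y = S.y j := rfl
  have ha : S.leg j .a = S.a j := rfl
  have hb : S.leg j .b = S.b j := rfl
  rw [ha, hb, hy] at hc
  have w1 := window S t hv j .y .a (by decide)
  have w2 := window S t hv j .a .b (by decide)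
  have w3 := window S t hv j .b .y (by decide)
  rw [hy, ha] at w1
  rw [ha, hb] at w2
  rw [hb, hy] at w3
  have p1 : S.port t j = S.a j ∨ S.port t j = S.b j := S.port_eq t j
  generalize S.y j = Y at *
  generalize S.a j = A at *
  generalize S.b j = B at *
  generalize S.port t j = P at *
  have T : ∀ {p : Prop}, p → ind p = 1 := fun h => ind_t h
  have F : ∀ {p : Prop}, ¬ p → ind p = 0 := fun h => ind_f h
  have e2 : (1 : ZMod 2) + 1 = 0 := rfl
  rcases hc with ⟨h1, h2⟩ | ⟨h1, h2⟩ | ⟨h1, h2⟩ <;> have h3 := h1.trans h2 <;>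
    rcases p1 with rfl | rfl <;>
    refine ⟨w1 ?_, w2 ?_, w3 ?_⟩ <;>
    simp only [T le_rfl, T h1, T h2, T h3, T h1.le, T h2.le, T h3.le, F (lt_irrefl _),
      F (not_lt.2 h1.le), F (not_lt.2 h2.le), F (not_lt.2 h3.le), F (not_le.2 h1), F (not_le.2 h2),
      F (not_le.2 h3)] <;> rfl

end Pool.Agent.MP42.PD
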