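import Pool.Agent.MP42.U.Stars

/-!
# Prefix sums along the contour (owner helper18)

`fb p`, `fa p`: the sum of the values of the letters before `p`, resp. up to `p`. `Rd Ct pos z l`: the
list `l` is the list of the items (positions in `pos` and children) of the circle `z` in contour
order. `fb_split`, `fa_split`: `fb`, `fa` at the ends of an item of `z` are the value at the start of
`z` plus the sums of the items before it. `sub_sum`: the sum over a subtree.
-/

set_option autoImplicit false
set_option linter.unusedSectionVars false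

namespace Pool.Agent.MP42.PD

open Pool.Agent.MP42.U

variable {C α : Type*} [LinearOrder α] {M : Type*} [AddCommMonoid M]

open Classical in
/-- the sum over the letters before `p` -/
noncomputable def fb (L : Finset α) (v : α → M) (p : α) : M := ∑ q ∈ L with q < p, v q

open Classical in
/-- the sum over the letters up to `p` -/
noncomputable def fa (L : Finset α) (v : α → M) (p : α) : M := ∑ q ∈ L with q ≤ p, v q

/-- the sum of an item -/
noncomputable def isum (Ct : Contour C α) (L : Finset α) (v : α → M) (i : α ⊕ C) : M :=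
  ∑ q ∈ Ct.lt L i, v q

section basic

variable (Ct : Contour C α) (L : Finset α) (v : α → M)

open Classical in
lemma fa_item (i : α ⊕ C) : fa L v (Ct.ihi i) = fb L v (Ct.ilo i) + isum Ct L v i := by
  rw [fa, fb, isum, ← Finset.sum_union]
  · refine Finset.sum_congr ?_ (fun _ _ => rfl)
    ext q
    simp only [Finset.mem_filter, Finset.mem_union, Contour.mem_lt]
    constructor
    · rintro ⟨hq, h⟩
      rcases lt_or_ge q (Ct.ilo i) with h1 | h1
      · exact Or.inl ⟨hq, h1⟩
      · exact Or.inr ⟨hq, h1, h⟩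
    · rintro (⟨hq, h⟩ | ⟨hq, -, h⟩)
      · exact ⟨hq, (h.le.trans (Ct.ile i))⟩
      · exact ⟨hq, h⟩
  · rw [Finset.disjoint_left]
    intro q hq hq'
    exact absurd (Finset.mem_filter.1 hq).2 (not_lt.2 (Ct.mem_lt.1 hq').2.1)

open Classical in
/-- no letter between `p` and `q` -/
lemma fb_congr {p q : α} (h : ∀ a ∈ L, a < p ↔ a < q) : fb L v p = fb L v q := by
  rw [fb, fb]
  refine Finset.sum_congr (Finset.filter_congr fun a ha => h a ha) (fun _ _ => rfl)

open Classical in
lemma fa_congr {p q : α} (h : ∀ a ∈ L, a ≤ p ↔ a ≤ q) : fa L v p = fa L v q := by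
  rw [fa, fa]
  refine Finset.sum_congr (Finset.filter_congr fun a ha => h a ha) (fun _ _ => rfl)

open Classical in
lemma fab_congr {p q : α} (h : ∀ a ∈ L, a ≤ p ↔ a < q) : fa L v p = fb L v q := by
  rw [fa, fb]
  refine Finset.sum_congr (Finset.filter_congr fun a ha => h a ha) (fun _ _ => rfl)

include Ct in
open Classical in
lemma fa_letter {p : α} (hp : p ∈ L) : fa L v p = fb L v p + v p := by
  have h := fa_item Ct L v (Sum.inl p)
  rw [isum, Ct.lt_inl hp] at h
  simpa using h

open Classical in
lemma fa_unused {p : α} (hp : p ∉ L) : fa L v p = fb L v p :=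
  fab_congr L v fun a ha => ⟨fun h => lt_of_le_of_ne h (fun h1 => hp (h1 ▸ ha)), le_of_lt⟩

lemma isum_inl {p : α} (hp : p ∈ L) : isum Ct L v (Sum.inl p) = v p := by
  rw [isum, Ct.lt_inl hp, Finset.sum_singleton]

lemma isum_unused {p : α} (hp : p ∉ L) : isum Ct L v (Sum.inl p) = 0 := by
  rw [isum]
  refine Finset.sum_eq_zero fun q hq => ?_
  obtain ⟨h1, h2, h3⟩ := Ct.mem_lt.1 hq
  have h2 : p ≤ q := h2
  have h3 : q ≤ p := h3
  exact absurd (le_antisymm h2 h3 ▸ h1) hp

end basic

/-- `l` = the items of the circle `z` in contour order: the positions in `pos` and the children -/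
structure Rd (Ct : Contour C α) (pos : α → Prop) (z : C) (l : List (α ⊕ C)) : Prop where
  pw : l.Pairwise fun i i' => Ct.ihi i < Ct.ilo i'
  mem : ∀ i, i ∈ l ↔ (∀ p, i = Sum.inl p → pos p) ∧ Ct.host i = z ∧ i ≠ Sum.inr Ct.r

namespace Rd

variable {Ct : Contour C α} {pos : α → Prop} {z : C} {l : List (α ⊕ C)} (R : Rd Ct pos z l)
include R

/-- every letter of the subtree of `z` is in an item of `z` -/
lemma exists_item {q : α} (hq : pos q) (h : Ct.lo z ≤ q ∧ q ≤ Ct.hi z) :
    ∃ i ∈ l, Ct.ilo i ≤ q ∧ q ≤ Ct.ihi i := by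
  rcases (Ct.mem z q).1 h with h | ⟨c, hc, hcz, h⟩
  · exact ⟨Sum.inl q, (R.mem _).2 ⟨fun p hp => by rw [← Sum.inl_injective hp]; exact hq, h,
      by simp⟩, le_rfl, le_rfl⟩
  · exact ⟨Sum.inr c, (R.mem _).2 ⟨fun p hp => by simp at hp, hcz,
      fun h => hc (Sum.inr_injective h)⟩, h⟩

/-- an item of `z` lies in the subtree of `z` -/
lemma item_in {i : α ⊕ C} (hi : i ∈ l) : Ct.lo z ≤ Ct.ilo i ∧ Ct.ihi i ≤ Ct.hi z := by
  obtain ⟨-, h1, h2⟩ := (R.mem i).1 hi
  subst h1
  exact ⟨(Ct.item_mem h2 ⟨le_rfl, Ct.ile i⟩).1, (Ct.item_mem h2 ⟨Ct.ile i, le_rfl⟩).2⟩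

variable {M : Type*} [AddCommMonoid M] {L : Finset α} (v : α → M)

/-- **prefix sums along a circle** -/
lemma fb_split (hL : ∀ q ∈ L, pos q) : ∀ (l1 : List (α ⊕ C)) (i : α ⊕ C) (l2 : List (α ⊕ C)),
    l = l1 ++ i :: l2 →
    fb L v (Ct.ilo i) = fb L v (Ct.lo z) + (l1.map (isum Ct L v)).sum := by
  intro l1
  induction l1 using List.reverseRecOn with
  | nil =>
    intro i l2 hl
    rw [List.map_nil, List.sum_nil, add_zero]
    refine fb_congr L v fun a ha => ?_
    have hi : i ∈ l := by rw [hl]; simp
    refine ⟨fun h => ?_, fun h => h.trans_le (R.item_in hi).1⟩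
    by_contra h1
    have h2 : Ct.lo z ≤ a ∧ a ≤ Ct.hi z :=
      ⟨not_lt.1 h1, h.le.trans ((Ct.ile i).trans (R.item_in hi).2)⟩
    obtain ⟨k, hk, h3, h4⟩ := R.exists_item (hL a ha) h2
    have hpw := R.pw
    rw [hl] at hk hpw
    rcases List.mem_cons.1 hk with rfl | hk
    · exact absurd h (not_lt.2 h3)
    · have := (List.pairwise_cons.1 hpw).1 k hk
      exact absurd (h.trans_le ((Ct.ile i).trans this.le)) (not_lt.2 h3)
  | append_singleton l1 k ih =>
    intro i l2 hl
    have hl' : l = l1 ++ k :: (i :: l2) := by rw [hl]; simp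
    rw [List.map_append, List.sum_append, List.map_singleton, List.sum_singleton, ← add_assoc,
      ← ih k (i :: l2) hl', ← fa_item]
    refine (fab_congr L v fun a ha => ?_).symm
    have hi : i ∈ l := by rw [hl]; simp
    have hk : k ∈ l := by rw [hl]; simp
    have hpw := R.pw
    rw [hl'] at hpw
    have hki : Ct.ihi k < Ct.ilo i := by
      have := (List.pairwise_append.1 hpw).2.1
      exact (List.pairwise_cons.1 this).1 i (by simp)
    refine ⟨fun h => h.trans_lt hki, fun h => ?_⟩
    by_contra h1
    have h2 : Ct.lo z ≤ a ∧ a ≤ Ct.hi z :=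
      ⟨((R.item_in hk).1.trans (Ct.ile k)).trans (not_le.1 h1).le,
        h.le.trans ((Ct.ile i).trans (R.item_in hi).2)⟩
    obtain ⟨m, hm, h3, h4⟩ := R.exists_item (hL a ha) h2
    rw [hl'] at hm
    rcases List.mem_append.1 hm with hm | hm
    · have := (List.pairwise_append.1 hpw).2.2 m hm k (by simp)
      exact absurd ((this.trans_le (Ct.ile k)).trans (not_le.1 h1)) (not_lt.2 h4)
    · rcases List.mem_cons.1 hm with rfl | hm
      · exact h1 h4
      · rcases List.mem_cons.1 hm with rfl | hm
        · exact absurd h (not_lt.2 h3)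
        · have := (List.pairwise_cons.1 (List.pairwise_cons.1
            (List.pairwise_append.1 hpw).2.1).2).1 m hm
          exact absurd (h.trans_le ((Ct.ile i).trans this.le)) (not_lt.2 h3)

lemma fa_split (hL : ∀ q ∈ L, pos q) (l1 : List (α ⊕ C)) (i : α ⊕ C) (l2 : List (α ⊕ C))
    (hl : l = l1 ++ i :: l2) :
    fa L v (Ct.ihi i) = fb L v (Ct.lo z) + ((l1 ++ [i]).map (isum Ct L v)).sum := by
  rw [fa_item, R.fb_split v hL l1 i l2 hl, List.map_append, List.sum_append, List.map_singleton,
    List.sum_singleton, add_assoc]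

/-- the sum over the whole circle -/
lemma isum_all (hL : ∀ q ∈ L, pos q) :
    isum Ct L v (Sum.inr z) = (l.map (isum Ct L v)).sum := by
  classical
  rcases List.eq_nil_or_concat l with h | ⟨l1, i, h⟩
  · rw [h, List.map_nil, List.sum_nil, isum]
    refine Finset.sum_eq_zero fun q hq => ?_
    obtain ⟨h1, h2⟩ := Ct.mem_lt.1 hq
    obtain ⟨k, hk, -⟩ := R.exists_item (hL q h1) h2
    rw [h] at hk
    simp at hk
  · -- split off the last item
    have key : ∀ l0 : List (α ⊕ C), (∀ i ∈ l0, i ∈ l) → l0.Nodup →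
        (l0.map (isum Ct L v)).sum = ∑ q ∈ L with (∃ i ∈ l0, Ct.ilo i ≤ q ∧ q ≤ Ct.ihi i), v q := by
      intro l0
      induction l0 with
      | nil => intro _ _; simp
      | cons k l0 ih =>
        intro hl hn
        have hn' := List.nodup_cons.1 hn
        rw [List.map_cons, List.sum_cons, ih (fun i hi => hl i (by simp [hi])) hn'.2, isum,
          ← Finset.sum_union]
        · refine Finset.sum_congr ?_ (fun _ _ => rfl)
          ext q
          simp only [Finset.mem_union, Contour.mem_lt, Finset.mem_filter, List.mem_cons,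
            exists_eq_or_imp]
          tauto
        · rw [Finset.disjoint_left]
          intro q hq hq'
          obtain ⟨-, h2, h3⟩ := Ct.mem_lt.1 hq
          obtain ⟨-, m, hm, h4, h5⟩ := Finset.mem_filter.1 hq'
          have e1 := (R.mem k).1 (hl k (by simp))
          have e2 := (R.mem m).1 (hl m (by simp [hm]))
          rcases Ct.item_disj (e1.2.1.trans e2.2.1.symm) e1.2.2 e2.2.2
            (fun h => hn'.1 (h ▸ hm)) with h | h
          · exact absurd (h3.trans_lt (h.trans_le h4)) (lt_irrefl _)
          · exact absurd (h5.trans_lt (h.trans_le h2)) (lt_irrefl _)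
    have hnd : l.Nodup := by
      refine R.pw.imp ?_
      intro a b hab h
      subst h
      exact absurd hab (not_lt.2 (Ct.ile _))
    rw [key l (fun _ h => h) hnd, isum]
    refine Finset.sum_congr ?_ (fun _ _ => rfl)
    ext q
    simp only [Contour.mem_lt, Finset.mem_filter]
    refine and_congr_right fun hq => ⟨fun h => R.exists_item (hL q hq) h, ?_⟩
    rintro ⟨k, hk, h1, h2⟩
    exact ⟨(R.item_in hk).1.trans h1, h2.trans (R.item_in hk).2⟩

lemma fa_hi (hL : ∀ q ∈ L, pos q) :
    fa L v (Ct.hi z) = fb L v (Ct.lo z) + (l.map (isum Ct L v)).sum := by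
  rw [← R.isum_all v hL]
  exact fa_item Ct L v (Sum.inr z)

end Rd

/-! ## Reading order, values in `ZMod 2` -/

/-- the reading list of `z`: contour order on circles of class `E`, reversed on circles of class
`O` -/
def RdC (Ct : Contour C α) (cls : C → Prop) (pos : α → Prop) (z : C) (l : List (α ⊕ C)) : Prop :=
  (cls z → Rd Ct pos z l) ∧ (¬ cls z → Rd Ct pos z l.reverse)

section reading

variable (Ct : Contour C α) (cls : C → Prop) (L : Finset α) (v : α → ZMod 2)

open Classical in
/-- the prefix sum at the base gap of a circle, where the reading starts -/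
noncomputable def f0 (z : C) : ZMod 2 := if cls z then fb L v (Ct.lo z) else fa L v (Ct.hi z)

/-- the prefix sum at the gap of `z` behind the items `l1` in the reading -/
noncomputable def fr (z : C) (l1 : List (α ⊕ C)) : ZMod 2 :=
  f0 Ct cls L v z + (l1.map (isum Ct L v)).sum

open Classical in
/-- prefix sum just before the item `i` in the reading of a circle of class `E` (`e` true), `O` -/
noncomputable def gb (e : Prop) (i : α ⊕ C) : ZMod 2 :=
  if e then fb L v (Ct.ilo i) else fa L v (Ct.ihi i)

open Classical in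
/-- prefix sum just behind the item `i` in the reading -/
noncomputable def ga (e : Prop) (i : α ⊕ C) : ZMod 2 :=
  if e then fa L v (Ct.ihi i) else fb L v (Ct.ilo i)

lemma z2 (a : ZMod 2) : a + a = 0 := by
  revert a
  decide

lemma ga_eq (e : Prop) (i : α ⊕ C) : ga Ct L v e i = gb Ct L v e i + isum Ct L v i := by
  classical
  unfold ga gb
  split_ifs
  · exact fa_item Ct L v i
  · rw [fa_item, add_assoc, z2, add_zero]

variable {Ct cls L} {pos : α → Prop} {z : C} {l : List (α ⊕ C)}

lemma RdC.gb_eq (R : RdC Ct cls pos z l) (hL : ∀ q ∈ L, pos q) {l1 : List (α ⊕ C)} {i : α ⊕ C}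
    {l2 : List (α ⊕ C)} (hl : l = l1 ++ i :: l2) :
    gb Ct L v (cls z) i = fr Ct cls L v z l1 := by
  classical
  unfold gb fr f0
  by_cases hz : cls z
  · rw [if_pos hz, if_pos hz, (R.1 hz).fb_split v hL l1 i l2 hl]
  · rw [if_neg hz, if_neg hz]
    have R := R.2 hz
    have hl' : l.reverse = l2.reverse ++ i :: l1.reverse := by rw [hl]; simp
    rw [R.fa_split v hL _ _ _ hl', R.fa_hi v hL, hl']
    simp only [List.map_append, List.map_cons, List.map_nil, List.sum_append, List.sum_cons,
      List.sum_nil, List.map_reverse, List.sum_reverse, add_zero]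
    have h1 := z2 (l1.map (isum Ct L v)).sum
    linear_combination (-1 : ZMod 2) * h1

lemma RdC.ga_eq (R : RdC Ct cls pos z l) (hL : ∀ q ∈ L, pos q) {l1 : List (α ⊕ C)} {i : α ⊕ C}
    {l2 : List (α ⊕ C)} (hl : l = l1 ++ i :: l2) :
    ga Ct L v (cls z) i = fr Ct cls L v z (l1 ++ [i]) := by
  rw [PD.ga_eq, R.gb_eq v hL hl, fr, fr, List.map_append, List.sum_append, List.map_singleton,
    List.sum_singleton, add_assoc]

lemma RdC.isum_all (R : RdC Ct cls pos z l) (hL : ∀ q ∈ L, pos q) :
    isum Ct L v (Sum.inr z) = (l.map (isum Ct L v)).sum := by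
  by_cases hz : cls z
  · exact (R.1 hz).isum_all v hL
  · rw [(R.2 hz).isum_all v hL, List.map_reverse, List.sum_reverse]

lemma RdC.mem (R : RdC Ct cls pos z l) (i : α ⊕ C) :
    i ∈ l ↔ (∀ p, i = Sum.inl p → pos p) ∧ Ct.host i = z ∧ i ≠ Sum.inr Ct.r := by
  by_cases hz : cls z
  · exact (R.1 hz).mem i
  · rw [← (R.2 hz).mem i, List.mem_reverse]

lemma RdC.nodup (R : RdC Ct cls pos z l) : l.Nodup := by
  have key : ∀ l' : List (α ⊕ C), Rd Ct pos z l' → l'.Nodup := by
    intro l' R
    refine R.pw.imp ?_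
    intro a b hab h
    subst h
    exact absurd hab (not_lt.2 (Ct.ile _))
  by_cases hz : cls z
  · exact key _ (R.1 hz)
  · exact List.nodup_reverse.1 (key _ (R.2 hz))

/-- the base of a child of the same class is the gap just before it -/
lemma f0_child {c : C} (h : cls c ↔ cls z) :
    f0 Ct cls L v c = gb Ct L v (cls z) (Sum.inr c) := by
  classical
  unfold f0 gb
  by_cases hz : cls z
  · rw [if_pos hz, if_pos (h.2 hz)]; rfl
  · rw [if_neg hz, if_neg (fun h1 => hz (h.1 h1))]; rfl

/-- the base of a child of the other class is the gap just behind it -/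
lemma f0_child' {c : C} (h : ¬ (cls c ↔ cls z)) :
    f0 Ct cls L v c = ga Ct L v (cls z) (Sum.inr c) := by
  classical
  unfold f0 ga
  by_cases hz : cls z
  · rw [if_pos hz, if_neg (fun h1 => h ⟨fun _ => hz, fun _ => h1⟩)]; rfl
  · have hc : cls c := by
      by_contra hc
      exact h ⟨fun h1 => absurd h1 hc, fun h1 => absurd h1 hz⟩
    rw [if_neg hz, if_pos hc]; rfl

end reading

/-! ## The sum over a subtree -/

/-- **the sum over the subtree of `z`**: if on every circle the items sum up to `own z` and an item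
`inr c` contributes `own c`, by induction over the tree: enough that the word equation holds with
`own c` in place of the item sums -/
theorem sub_sum [Finite C] (Ct : Contour C α) (pos : α → Prop) (rd : C → List (α ⊕ C))
    (L : Finset α) (hL : ∀ q ∈ L, pos q) (v : α → ZMod 2)
    (isa : ∀ z, isum Ct L v (Sum.inr z) = ((rd z).map (isum Ct L v)).sum)
    (mem : ∀ z i, i ∈ rd z → Ct.host i = z ∧ i ≠ Sum.inr Ct.r)
    (own : C → ZMod 2) (val : α ⊕ C → ZMod 2)
    (hval : ∀ z p, Sum.inl p ∈ rd z → val (Sum.inl p) = isum Ct L v (Sum.inl p))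
    (hown : ∀ c, val (Sum.inr c) = own c)
    (hw : ∀ z, ((rd z).map val).sum = own z) :
    ∀ z, isum Ct L v (Sum.inr z) = own z := by
  obtain ⟨M, hM⟩ : ∃ M, ∀ c, Ct.dep c ≤ M := by
    have := Fintype.ofFinite C
    exact ⟨Finset.univ.sup Ct.dep, fun c => Finset.le_sup (Finset.mem_univ c)⟩
  have key : ∀ (n : ℕ) (z : C), M - Ct.dep z ≤ n → isum Ct L v (Sum.inr z) = own z := by
    intro n
    induction n using Nat.strong_induction_on with
    | _ n ih =>
      intro z hz
      rw [isa z, ← hw z]
      congr 1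
      refine List.map_congr_left fun i hi => ?_
      rcases i with p | c
      · exact (hval z p hi).symm
      · obtain ⟨h1, h2⟩ := mem z _ hi
        have h1 : Ct.par c = z := h1
        have hc : c ≠ Ct.r := fun h => h2 (by rw [h])
        have h3 := Ct.dep_par c hc
        have h4 := hM c
        rw [h1] at h3
        rw [hown]
        exact ih (M - Ct.dep c) (by omega) c le_rfl
  exact fun z => key _ z le_rfl

end Pool.Agent.MP42.PD
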