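import Pool.Agent.MP42.PD.Ex
import Pool.Agent.MP42.PD.Defs

/-!
# Gap values of one word: closure of a labelling (owner helper18)

`WOk.vok`: the conditions of `Defs` give those of `Ex`. `WOk.closure`: if `v` is compatible, then
`v' t = v t or (gap value before t)` is compatible. Together with the maximality of a labelling this
gives: a letter next to a gap with value `1` has the value `1`.
-/

set_option autoImplicit false
set_option linter.unusedSectionVars false

namespace Pool.Agent.MP42.PD

variable {K : ℕ} {w : ℕ → Lt} {n : ℕ} {v : ℕ → ZMod 2} {a e f0 : ZMod 2}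

/-- an opener on the stack: below it is the stack at its place -/
lemma stk_suffix : ∀ {t i : ℕ}, i ∈ stk K w t →
    ∃ p, stk K w t = p ++ i :: stk K w i ∧ lo K w t = lo K w i := by
  intro t
  induction t with
  | zero => intro i h; simp [stk] at h
  | succ t ih =>
    intro i h
    rcases hw : w t with _ | _ | _
    · rw [stk_o hw] at h
      obtain ⟨p, h1, h2⟩ := ih (List.mem_of_mem_tail h)
      have hne : ¬ (w t = .o ∧ stk K w t = []) := fun h3 => by
        rw [h3.2] at h; simp at h
      rcases p with _ | ⟨b, p⟩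
      · rw [h1] at h
        simp only [List.nil_append, List.tail_cons] at h
        exact absurd (stk_lt h) (lt_irrefl _)
      · exact ⟨p, by rw [stk_o hw, h1]; rfl, by rw [lo_succ_n hne, h2]⟩
    · have hne : ¬ (w t = .o ∧ stk K w t = []) := fun h3 => by rw [hw] at h3; simp at h3
      by_cases hl : (stk K w t).length < K
      · rw [stk_u hw hl, List.mem_cons] at h
        rcases h with rfl | h
        · exact ⟨[], by rw [stk_u hw hl]; rfl, lo_succ_n hne⟩
        · obtain ⟨p, h1, h2⟩ := ih h
          exact ⟨t :: p, by rw [stk_u hw hl, h1]; rfl, by rw [lo_succ_n hne, h2]⟩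
      · rw [stk_u' hw hl] at h
        obtain ⟨p, h1, h2⟩ := ih (List.mem_of_mem_tail h)
        rcases p with _ | ⟨b, p⟩
        · rw [h1] at h
          simp only [List.nil_append, List.tail_cons] at h
          exact absurd (stk_lt h) (lt_irrefl _)
        · exact ⟨p, by rw [stk_u' hw hl, h1]; rfl, by rw [lo_succ_n hne, h2]⟩
    · have hne : ¬ (w t = .o ∧ stk K w t = []) := fun h3 => by rw [hw] at h3; simp at h3
      rw [stk_z hw] at h
      obtain ⟨p, h1, h2⟩ := ih h
      exact ⟨p, by rw [stk_z hw, h1], by rw [lo_succ_n hne, h2]⟩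

lemma stk_cons {t F : ℕ} {l : List ℕ} (h : stk K w t = F :: l) :
    stk K w F = l ∧ lo K w t = lo K w F := by
  obtain ⟨p, h1, h2⟩ := stk_suffix (K := K) (w := w) (t := t) (i := F) (by rw [h]; simp)
  refine ⟨?_, h2⟩
  rcases p with _ | ⟨b, p⟩
  · rw [h, List.nil_append] at h1
    exact (List.cons.inj h1).2.symm
  · rw [h, List.cons_append] at h1
    have h3 : F ∈ l := by rw [(List.cons.inj h1).2]; simp
    have h4 := stk_nodup (K := K) (w := w) t
    rw [h, List.nodup_cons] at h4
    exact absurd h3 h4.1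

/-- the conditions of `Defs` give those of `Ex` -/
lemma WOk.vok2 (hK : 2 ≤ K) (h : WOk K w n v a e) : VOK K w n v a e where
  pop_o t ht hw F l hs := by
    have := h.port t ht hw
    simp only [tv, hs, List.head?_cons, cv] at this
    exact this.symm
  pop_u t ht hw hl F l hs := by
    rcases l with _ | ⟨G, l⟩
    · rw [hs] at hl
      simp only [List.length_cons, List.length_nil] at hl
      omega
    · exact (h.unit t ht hw F G l hs hl.ge).1.symm
  pair t ht hw hl F F' l hs := (h.unit t ht hw F F' l hs hl.ge).2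
  pend := h.pend
  one h1 Z hZ := by
    obtain ⟨h2, h3, h4⟩ := mem_lo.1 hZ
    rw [h.port Z h2 h3, tv, h4]
    exact h.base h1
  two h1 Z hZ := by
    obtain ⟨h2, h3, h4⟩ := mem_lo.1 hZ
    rw [h.port Z h2 h3, tv, h4]
    rfl

/-- left overs have the value `e` -/
lemma WOk.left (h : WOk K w n v a e) {t Z : ℕ} (ht : t ≤ n) (hZ : Z ∈ lo K w t) : v Z = e := by
  obtain ⟨h2, h3, h4⟩ := mem_lo.1 hZ
  rw [h.port Z (h2.trans_le ht) h3, tv, h4]
  rfl

/-- the gap value one level down -/
lemma WOk.fv_cons (hK : 2 ≤ K) (h : WOk K w n v a e) {t F : ℕ} {l : List ℕ} (ht : t ≤ n)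
    (hs : stk K w t = F :: l) : fv w v f0 t = fv w v f0 F + v F := by
  have hv := h.vok2 hK
  have hF : F < t := stk_lt (K := K) (w := w) (by rw [hs]; simp)
  obtain ⟨h1, h2⟩ := stk_cons hs
  rw [fv_eq hv (by omega) ht, fv_eq hv (by omega) (hF.le.trans ht), h1, h2, hs, List.map_cons,
    List.sum_cons]
  ring

/-- the gap value on the main level, if the left overs have the value `0` -/
lemma WOk.fv_nil (hK : 2 ≤ K) (h : WOk K w n v a e) {t : ℕ} (ht : t ≤ n)
    (hs : stk K w t = []) (he : e = 0) : fv w v f0 t = f0 := by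
  rw [fv_eq (h.vok2 hK) (by omega) ht, hs, Finset.sum_eq_zero (fun i hi => by rw [h.left ht hi, he])]
  simp

/-- or -/
def or2 (p q : ZMod 2) : ZMod 2 := p + q + p * q

lemma or2_one (q : ZMod 2) : or2 1 q = 1 := by revert q; decide

lemma or2_one' (q : ZMod 2) : or2 q 1 = 1 := by revert q; decide

lemma or2_zero (q : ZMod 2) : or2 0 q = q := by revert q; decide

lemma or2_eq_zero {p q : ZMod 2} : or2 p q = 0 ↔ p = 0 ∧ q = 0 := by revert p q; decide

lemma zor (p : ZMod 2) : p = 0 ∨ p = 1 := by revert p; decide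

lemma or2_congr {p p' q q' : ZMod 2} (h : p = p') (h' : p = 0 → q = q') : or2 p q = or2 p' q' := by
  subst h
  rcases zor p with rfl | rfl
  · rw [h' rfl]
  · rw [or2_one, or2_one]

/-- the closure of a labelling -/
def clv (w : ℕ → Lt) (v : ℕ → ZMod 2) (f0 : ZMod 2) (t : ℕ) : ZMod 2 := or2 (v t) (fv w v f0 t)

/-- riders at their top class -/
lemma WOk.cl_tv (hK : 2 ≤ K) (h : WOk K w n v a e) {t : ℕ} (ht : t ≤ n)
    (hv : v t = tv K w v e t) :
    clv w v f0 t = tv K w (clv w v f0) (or2 e f0) t := by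
  unfold tv at hv ⊢
  rcases hs : stk K w t with _ | ⟨F, l⟩
  · simp only [hs, List.head?_nil, cv] at hv ⊢
    exact or2_congr hv fun h0 => h.fv_nil hK ht hs (by rw [← hv]; exact h0)
  · simp only [hs, List.head?_cons, cv] at hv ⊢
    refine or2_congr hv fun h0 => ?_
    rw [h.fv_cons hK ht hs, ← hv, h0, add_zero]

/-- riders inside a unit pair at the class below -/
lemma WOk.cl_pair (hK : 2 ≤ K) (h : WOk K w n v a e) {t F G H : ℕ} {l : List ℕ} (ht : t ≤ n)
    (hs : stk K w t = F :: G :: H :: l) (hFG : v F = v G) (hv : v t = v H) :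
    clv w v f0 t = clv w v f0 H := by
  have hF : F < t := stk_lt (K := K) (w := w) (by rw [hs]; simp)
  obtain ⟨h1, -⟩ := stk_cons hs
  have hG : G < F := stk_lt (K := K) (w := w) (by rw [h1]; simp)
  obtain ⟨h3, -⟩ := stk_cons h1
  refine or2_congr hv fun h0 => ?_
  have e1 := h.fv_cons (f0 := f0) hK ht hs
  have e2 := h.fv_cons (f0 := f0) hK (by omega) h1
  have e3 := h.fv_cons (f0 := f0) hK (by omega) h3
  have e4 : v G + v G = 0 := CharTwo.add_self_eq_zero _
  rw [e1, e2, e3, ← hv, h0, hFG]
  linear_combination e4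

/-- **the closure is compatible** -/
theorem WOk.closure (hK : 2 ≤ K) (h : WOk K w n v a e) (hc : (lo K w n).card ≤ 2) :
    WOk K w n (clv w v f0) (or2 a f0) (or2 e f0) where
  port t ht hw := h.cl_tv hK ht.le (h.port t ht hw)
  unit t ht hw F G l hs hl := by
    obtain ⟨h1, h2⟩ := h.unit t ht hw F G l hs hl
    have hF : F < t := stk_lt (K := K) (w := w) (by rw [hs]; simp)
    have h3 := (stk_cons hs).1
    have e1 := h.fv_cons (f0 := f0) hK ht.le hs
    have e2 := h.fv_cons (f0 := f0) hK (by omega) h3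
    refine ⟨or2_congr h1 fun h0 => ?_, or2_congr h2 fun h0 => ?_⟩
    · rw [e1, ← h1, h0, add_zero]
    · rw [e2, ← h2, h0, add_zero]
  pend i hi := by
    have hin := stk_lt hi
    refine or2_congr (h.pend i hi) fun h0 => ?_
    have ha : a = 0 := by rw [← h.pend i hi]; exact h0
    obtain ⟨p, h1, h2⟩ := stk_suffix hi
    rw [fv_eq (h.vok2 hK) (by omega) hin.le, ← h2, sum_const_zero _ _ (fun j hj => by
      rw [h.pend j (by rw [h1]; simp [hj]), ha]), add_zero, add_eq_left]
    exact lo_zero (h.vok2 hK) ha le_rfl (Or.inr rfl) hc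
  base h1 := by rw [h.base h1]

/-- riders behind the first pending unit at the left overs -/
lemma WOk.cl_base (hK : 2 ≤ K) (h : WOk K w n v a e) {t : ℕ} (ht : t ≤ n)
    (hE : ((stk K w t).map v).sum = 0) (hv : v t = e) :
    clv w v f0 t = or2 e f0 := by
  refine or2_congr hv fun h0 => ?_
  rw [fv_eq (h.vok2 hK) (by omega) ht, hE, Finset.sum_eq_zero (fun i hi => by
    rw [h.left ht hi, ← hv, h0])]
  simp

/-- an even number of pending openers -/
lemma WOk.sum_pend (h : WOk K w n v a e) {t : ℕ} (hE : Even (stk K w t).length)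
    (hp : ∀ i ∈ stk K w t, i ∈ stk K w n) : ((stk K w t).map v).sum = 0 := by
  rw [List.map_congr_left (g := fun _ => a) (fun i hi => h.pend i (hp i hi)), List.map_const',
    List.sum_replicate]
  obtain ⟨m, hm⟩ := hE
  rw [hm, add_smul]
  exact CharTwo.add_self_eq_zero _

/-- a unit pair over an even number of pending openers -/
lemma WOk.sum_pend' (h : WOk K w n v a e) {t F G : ℕ} {l : List ℕ} (hs : stk K w t = F :: G :: l)
    (hFG : v F = v G) (hE : Even (stk K w t).length)
    (hp : ∀ i ∈ l, i ∈ stk K w n) : ((stk K w t).map v).sum = 0 := by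
  rw [hs, List.map_cons, List.map_cons, List.sum_cons, List.sum_cons,
    List.map_congr_left (g := fun _ => a) (fun i hi => h.pend i (hp i hi)), List.map_const',
    List.sum_replicate, hFG]
  have hE : Even l.length := by
    rw [hs] at hE
    simp only [List.length_cons] at hE
    rcases hE with ⟨m, hm⟩
    exact ⟨m - 1, by omega⟩
  obtain ⟨m, hm⟩ := hE
  rw [hm, add_smul]
  have e1 : v G + v G = 0 := CharTwo.add_self_eq_zero _
  have e2 : m • a + m • a = 0 := CharTwo.add_self_eq_zero _
  linear_combination e1 + e2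

/-! ## The number of letters -/

/-- the constant labelling -/
lemma vok_one : VOK K w n (fun _ => 1) 1 1 where
  pop_o _ _ _ _ _ _ := rfl
  pop_u _ _ _ _ _ _ _ := rfl
  pair _ _ _ _ _ _ _ _ := rfl
  pend _ _ := rfl
  one _ _ _ := rfl
  two _ _ _ := rfl

/-- the total of a word -/
lemma fv_total (hK : 2 ≤ K) (h : WOk K w n v a e) (hc : (lo K w n).card ≤ 2) :
    fv w v f0 n = f0 + (fv w (fun _ => 1) 0 n) * a := by
  rw [fv_eq (h.vok2 hK) (by omega) le_rfl, fv_eq (vok_one (K := K) (n := n)) (by omega) le_rfl,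
    List.map_congr_left (g := fun _ => a) (fun i hi => h.pend i hi), List.map_const',
    List.map_const', List.sum_replicate, List.sum_replicate, zero_add, add_mul, add_assoc]
  congr 1
  congr 1
  · simp
  · by_cases h1 : (lo K w n).card ≤ 1
    · rw [Finset.sum_congr rfl (fun i hi => (h.vok2 hK).one h1 i hi), Finset.sum_const,
        Finset.sum_const]
      simp
    · have h2 : (lo K w n).card = 2 := by omega
      rw [Finset.sum_congr rfl (fun i hi => (h.vok2 hK).two h2 i hi), Finset.sum_const,
        Finset.sum_const, h2, two_nsmul, two_nsmul, CharTwo.add_self_eq_zero,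
        CharTwo.add_self_eq_zero, zero_mul]

end Pool.Agent.MP42.PD
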