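import Pool.Agent.MP42.PD.Gap
import Pool.Agent.MP42.PD.FStar

/-!
# Gap values of a level (owner helper18)

For a compatible labelling of a level: `bs` = gap value at the base of a circle, `fv_eq_gb`,
`fv_eq_ga` = the gap values of the words are the prefix sums along the contour; bases of children,
star windows, the closure of a labelling, maximal labellings.
-/

set_option autoImplicit false
set_option linter.unusedSectionVars false

namespace Pool.Agent.MP42.PD

open Pool.Agent.MP42.U

/-! ## Words: congruence -/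

section congr

variable {K : ℕ} {w : ℕ → Lt} {n : ℕ} {v v' : ℕ → ZMod 2} {a e f0 : ZMod 2}

lemma cv_congr {t : ℕ} (ht : t ≤ n) (hv : ∀ t < n, w t ≠ .z → v t = v' t) {κ : Option ℕ}
    (hκ : ∀ F, κ = some F → F ∈ stk K w t) : cv v e κ = cv v' e κ := by
  rcases κ with _ | F
  · rfl
  · have h := hκ F rfl
    exact hv F ((stk_lt h).trans_le ht) (by rw [w_of_mem_stk h]; simp)

lemma tv_congr {t : ℕ} (ht : t ≤ n) (hv : ∀ t < n, w t ≠ .z → v t = v' t) :
    tv K w v e t = tv K w v' e t := by
  unfold tv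
  exact cv_congr ht hv fun F hF => List.mem_of_mem_head? hF

lemma WOk.congr (h : WOk K w n v a e) (hv : ∀ t < n, w t ≠ .z → v t = v' t) :
    WOk K w n v' a e where
  port t ht hw := by
    rw [← hv t ht (by rw [hw]; simp), h.port t ht hw, tv_congr ht.le hv]
  unit t ht hw F G l hs hl := by
    have mF : F ∈ stk K w t := by rw [hs]; simp
    have mG : G ∈ stk K w t := by rw [hs]; simp
    rw [← hv t ht (by rw [hw]; simp), ← hv F ((stk_lt mF).trans ht) (by rw [w_of_mem_stk mF]; simp),
      ← hv G ((stk_lt mG).trans ht) (by rw [w_of_mem_stk mG]; simp)]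
    exact h.unit t ht hw F G l hs hl
  pend i hi := by
    rw [← hv i (stk_lt hi) (by rw [w_of_mem_stk hi]; simp)]
    exact h.pend i hi
  base := h.base

lemma fv_congr (hv : ∀ t < n, w t ≠ .z → v t = v' t) : ∀ t ≤ n, fv w v f0 t = fv w v' f0 t := by
  intro t
  induction t with
  | zero => intro _; rfl
  | succ t ih =>
    intro ht
    rw [fv, fv, ih (by omega)]
    by_cases hz : w t = .z
    · rw [if_pos hz, if_pos hz]
    · rw [if_neg hz, if_neg hz, hv t (by omega) hz]

end congr

/-! ## Sums over subtrees away from the root -/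

theorem sub_sum' {C α : Type*} [LinearOrder α] [Finite C] (Ct : Contour C α)
    (rd : C → List (α ⊕ C)) (L : Finset α) (v : α → ZMod 2)
    (isa : ∀ z, z ≠ Ct.r → isum Ct L v (Sum.inr z) = ((rd z).map (isum Ct L v)).sum)
    (mem : ∀ z, z ≠ Ct.r → ∀ i ∈ rd z, Ct.host i = z ∧ i ≠ Sum.inr Ct.r)
    (own : C → ZMod 2) (val : α ⊕ C → ZMod 2)
    (hval : ∀ p, val (Sum.inl p) = isum Ct L v (Sum.inl p))
    (hown : ∀ c, val (Sum.inr c) = own c)
    (hw : ∀ z, z ≠ Ct.r → ((rd z).map val).sum = own z) :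
    ∀ z, z ≠ Ct.r → isum Ct L v (Sum.inr z) = own z := by
  obtain ⟨M, hM⟩ : ∃ M, ∀ c, Ct.dep c ≤ M := by
    have := Fintype.ofFinite C
    exact ⟨Finset.univ.sup Ct.dep, fun c => Finset.le_sup (Finset.mem_univ c)⟩
  have key : ∀ (n : ℕ) (z : C), M - Ct.dep z ≤ n → z ≠ Ct.r →
      isum Ct L v (Sum.inr z) = own z := by
    intro n
    induction n using Nat.strong_induction_on with
    | _ n ih =>
      intro z hz hzr
      rw [isa z hzr, ← hw z hzr]
      congr 1
      refine List.map_congr_left fun i hi => ?_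
      rcases i with p | c
      · exact (hval p).symm
      · obtain ⟨h1, h2⟩ := mem z hzr _ hi
        have h1 : Ct.par c = z := h1
        have hc : c ≠ Ct.r := fun h => h2 (by rw [h])
        have h3 := Ct.dep_par c hc
        have h4 := hM c
        rw [h1] at h3
        rw [hown]
        exact ih (M - Ct.dep c) (by omega) c le_rfl hc
  exact fun z => key _ z le_rfl

namespace Lv

variable {C J α : Type*} [LinearOrder α] [Fintype J] (L : Lv C J α) (K : ℕ) (x : J → Bool)

/-- the positions of the items -/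
def pos (p : α) : Prop := ∃ j s, p = L.S.leg j s

lemma used_eq : L.used x = Lts L.S x := rfl

lemma used_pos : ∀ q ∈ L.used x, L.pos q := by
  intro q hq
  obtain ⟨j, h | h⟩ := (mem_Lts L.S x).1 hq
  · exact ⟨j, .y, h⟩
  · exact ⟨j, _, h.trans (port_leg L.S x j)⟩

/-- the reading list with the special child of the root -/
lemma full (z : C) : ∃ l2, RdC L.Ct L.cls L.pos z (L.rd z ++ l2) ∧ (z ≠ L.Ct.r → l2 = []) ∧
    (∀ c, L.sp c → c ≠ L.Ct.r → z = L.Ct.r → l2 = [.inr c]) := by
  by_cases hz : z = L.Ct.r ∧ ∃ c, L.sp c ∧ c ≠ L.Ct.r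
  · obtain ⟨rfl, c, hc, hcr⟩ := hz
    obtain ⟨h1, h2, h3⟩ := L.sp_c c hc hcr
    have huniq : ∀ c', L.sp c' → c' ≠ L.Ct.r → c' = c := by
      intro c' hc' hcr'
      by_contra hne
      obtain ⟨h1', h2', h3'⟩ := L.sp_c c' hc' hcr'
      have e1 := h3 (.inr c') h1' (fun h => hne (Sum.inr_injective h))
        (fun h => hcr' (Sum.inr_injective h))
      have e2 := h3' (.inr c) h1 (fun h => hne (Sum.inr_injective h).symm)
        (fun h => hcr (Sum.inr_injective h))
      by_cases hr : L.cls L.Ct.r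
      · have a1 := e1.1 hr
        have a2 := e2.1 hr
        have a1 : L.Ct.hi c' < L.Ct.lo c := a1
        have a2 : L.Ct.hi c < L.Ct.lo c' := a2
        exact absurd ((a1.trans_le (L.Ct.le c)).trans (a2.trans_le (L.Ct.le c'))) (lt_irrefl _)
      · have a1 := e1.2 hr
        have a2 := e2.2 hr
        have a1 : L.Ct.hi c < L.Ct.lo c' := a1
        have a2 : L.Ct.hi c' < L.Ct.lo c := a2
        exact absurd ((a1.trans_le (L.Ct.le c')).trans (a2.trans_le (L.Ct.le c))) (lt_irrefl _)
    have hmem : ∀ i, i ∈ L.rd L.Ct.r ++ [.inr c] ↔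
        (∀ p, i = .inl p → L.pos p) ∧ L.Ct.host i = L.Ct.r ∧ i ≠ .inr L.Ct.r := by
      intro i
      rw [List.mem_append, L.mem, List.mem_singleton]
      constructor
      · rintro (⟨e1, e2, e3⟩ | rfl)
        · exact ⟨e1, e3, fun h => e2 _ h L.sp_r⟩
        · exact ⟨fun p h => by simp at h, h1, fun h => hcr (Sum.inr_injective h)⟩
      · rintro ⟨e1, e2, e3⟩
        by_cases hi : i = .inr c
        · exact Or.inr hi
        · refine Or.inl ⟨e1, fun c' hc' hsp => ?_, e2⟩
          refine hi (hc'.trans (congrArg _ (huniq c' hsp ?_)))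
          intro h
          exact e3 (by rw [hc', h])
    have hlast : ∀ i ∈ L.rd L.Ct.r, L.Ct.host i = L.Ct.r ∧ i ≠ .inr c ∧ i ≠ .inr L.Ct.r := by
      intro i hi
      obtain ⟨e1, e2, e3⟩ := (L.mem _ _).1 hi
      exact ⟨e3, fun h => e2 _ h hc, fun h => e2 _ h L.sp_r⟩
    refine ⟨[.inr c], ⟨fun hr => ⟨?_, hmem⟩, fun hr => ⟨?_, ?_⟩⟩, fun h => absurd rfl h,
      fun c' hc' hcr' _ => by rw [huniq c' hc' hcr']⟩
    · rw [List.pairwise_append]
      refine ⟨(L.pw _).imp fun h => h.1 hr, List.pairwise_singleton _ _, ?_⟩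
      intro i hi i' hi'
      rw [List.mem_singleton] at hi'
      subst hi'
      obtain ⟨e1, e2, e3⟩ := hlast i hi
      exact (h3 i e1 e2 e3).1 hr
    · rw [List.reverse_append, List.reverse_singleton, List.singleton_append, List.pairwise_cons,
        List.pairwise_reverse]
      refine ⟨?_, (L.pw _).imp fun h => h.2 hr⟩
      intro i hi
      obtain ⟨e1, e2, e3⟩ := hlast i (List.mem_reverse.1 hi)
      exact (h3 i e1 e2 e3).2 hr
    · intro i
      rw [List.mem_reverse]
      exact hmem i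
  · have hmem : ∀ i, i ∈ L.rd z ++ [] ↔
        (∀ p, i = .inl p → L.pos p) ∧ L.Ct.host i = z ∧ i ≠ .inr L.Ct.r := by
      intro i
      rw [List.append_nil, L.mem]
      constructor
      · rintro ⟨e1, e2, e3⟩
        exact ⟨e1, e3, fun h => e2 _ h L.sp_r⟩
      · rintro ⟨e1, e2, e3⟩
        refine ⟨e1, fun c hc hsp => ?_, e2⟩
        subst hc
        have hcr : c ≠ L.Ct.r := fun h => e3 (by rw [h])
        have h1 := (L.sp_c c hsp hcr).1
        have e2 : L.Ct.par c = z := e2
        exact hz ⟨by rw [← e2, h1], c, hsp, hcr⟩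
    refine ⟨[], ⟨fun hr => ⟨?_, hmem⟩, fun hr => ⟨?_, ?_⟩⟩, fun _ => rfl,
      fun c hc hcr hzr => absurd ⟨hzr, c, hc, hcr⟩ hz⟩
    · rw [List.append_nil]
      exact (L.pw _).imp fun h => h.1 hr
    · rw [List.append_nil, List.pairwise_reverse]
      exact (L.pw _).imp fun h => h.2 hr
    · intro i
      rw [List.mem_reverse]
      exact hmem i

variable (V : α ⊕ C → ZMod 2)

/-- gap value at the base of a circle -/
noncomputable def bs (z : C) : ZMod 2 :=
  f0 L.Ct L.cls (L.used x) (fun p => V (.inl p)) z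

/-- gap value of the circle `z` before the place `t` -/
noncomputable def gv (z : C) (t : ℕ) : ZMod 2 := fv (L.w x z) (L.vv V z) (L.bs x V z) t

/-- the sum of an item -/
noncomputable def sm (i : α ⊕ C) : ZMod 2 := isum L.Ct (L.used x) (fun p => V (.inl p)) i

variable {K x V} {E : C → ZMod 2}

lemma w_it {z : C} {t : ℕ} {i : α ⊕ C} (h : L.it z t = some i) : L.w x z t = L.lt x i := by
  unfold w
  rw [h]

lemma vv_it {z : C} {t : ℕ} {i : α ⊕ C} (h : L.it z t = some i) : L.vv V z t = V i := by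
  unfold vv
  rw [h]

lemma it_of_lt {z : C} {t : ℕ} (h : t < L.n z) : ∃ i, L.it z t = some i ∧ i ∈ L.rd z := by
  refine ⟨(L.rd z)[t], ?_, List.getElem_mem _⟩
  unfold it
  exact List.getElem?_eq_getElem h

lemma it_some {z : C} {t : ℕ} {i : α ⊕ C} (h : L.it z t = some i) :
    t < L.n z ∧ i ∈ L.rd z ∧ L.Ct.host i = z := by
  unfold it at h
  obtain ⟨h1, h2⟩ := List.getElem?_eq_some_iff.1 h
  have h3 : i ∈ L.rd z := by rw [← h2]; exact List.getElem_mem _
  exact ⟨h1, h3, ((L.mem _ _).1 h3).2.2⟩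

lemma lt_inl_z {p : α} : L.lt x (.inl p) = .z ↔ p ∉ L.used x := by
  classical
  rw [used_eq, mem_Lts]
  unfold lt
  constructor
  · intro h
    dsimp only at h
    split_ifs at h with h1 h2
    rintro ⟨j, h | h⟩
    · exact h1 ⟨j, h⟩
    · exact h2 ⟨j, h⟩
  · intro h
    simp only
    rw [if_neg, if_neg]
    · rintro ⟨j, hj⟩; exact h ⟨j, Or.inr hj⟩
    · rintro ⟨j, hj⟩; exact h ⟨j, Or.inl hj⟩

lemma lt_inr_z {c : C} : L.lt x (.inr c) = .z ↔ ¬ Odd (L.cnt x c) := by
  classical
  unfold lt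
  by_cases h : Odd (L.cnt x c)
  · simp [h]
  · simp [h]

lemma sm_inl {p : α} : L.sm x V (.inl p) = if L.lt x (.inl p) = .z then 0 else V (.inl p) := by
  classical
  by_cases h : L.lt x (.inl p) = .z
  · rw [if_pos h]
    exact isum_unused _ _ _ (L.lt_inl_z.1 h)
  · rw [if_neg h]
    exact isum_inl L.Ct (L.used x) (fun p => V (.inl p))
      (not_not.1 (fun h1 => h (L.lt_inl_z.2 h1)))

/-! ### The sums over the subtrees -/

/-- list sums by places -/
lemma fv_take {w : ℕ → Lt} {v : ℕ → ZMod 2} {f0 : ZMod 2} {β : Type*} (l : List β) (g : β → ZMod 2)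
    (h : ∀ t i, l[t]? = some i → g i = if w t = .z then 0 else v t) :
    ∀ t, t ≤ l.length → fv w v f0 t = f0 + ((l.take t).map g).sum := by
  intro t
  induction t with
  | zero => intro _; simp [fv]
  | succ t ih =>
    intro ht
    have h1 : t < l.length := by omega
    rw [fv, ih (by omega), List.take_add_one, List.getElem?_eq_getElem h1, Option.toList_some,
      List.map_append, List.sum_append, List.map_singleton, List.sum_singleton, add_assoc]
    congr 2
    exact (h t _ (List.getElem?_eq_getElem h1)).symm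

/-- the number of letters of a subtree and the word of the circle -/
lemma cnt_eq {z : C} (hz : z ≠ L.Ct.r) :
    (L.cnt x z : ZMod 2) = fv (L.w x z) (fun _ => 1) 0 (L.n z) := by
  classical
  obtain ⟨l2, R, h2, -⟩ := L.full z
  rw [h2 hz, List.append_nil] at R
  have h1 := R.isum_all (L := L.used x) (fun _ => (1 : ZMod 2)) (L.used_pos x)
  have h3 : ∀ i, isum L.Ct (L.used x) (fun _ => (1 : ZMod 2)) i =
      ((L.Ct.lt (L.used x) i).card : ZMod 2) := by
    intro i
    rw [isum, Finset.sum_const, nsmul_one]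
  have h5 : ∀ c, L.cnt x c = (L.Ct.lt (L.used x) (.inr c)).card := by
    intro c
    unfold cnt
    congr 1
  rw [h5, ← h3, h1]
  unfold n
  rw [fv_take (w := L.w x z) (v := fun _ => 1) (f0 := 0) (L.rd z)
    (isum L.Ct (L.used x) (fun _ => (1 : ZMod 2))) ?_ _ le_rfl, zero_add]
  · rw [List.take_length]
  · intro t i hi
    rw [L.w_it hi]
    rcases i with p | c
    · by_cases hp : L.lt x (.inl p) = .z
      · rw [if_pos hp]
        exact isum_unused _ _ _ (L.lt_inl_z.1 hp)
      · rw [if_neg hp]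
        exact isum_inl _ _ _ (not_not.1 (fun h1 => hp (L.lt_inl_z.2 h1)))
    · rw [h3, ← h5]
      by_cases hc : L.lt x (.inr c) = .z
      · rw [if_pos hc]
        have := L.lt_inr_z.1 hc
        rw [Nat.not_odd_iff_even] at this
        exact (ZMod.natCast_eq_zero_iff_even).2 this
      · rw [if_neg hc]
        have := not_not.1 (fun h1 => hc (L.lt_inr_z.2 h1))
        exact (ZMod.natCast_eq_one_iff_odd).2 this

open Classical in
/-- **the sum over a subtree** -/
lemma sm_inr [Finite C] (hK : 2 ≤ K) (h : L.Sol0 K x V E) (hD : L.Dom K x) {z : C}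
    (hz : z ≠ L.Ct.r) :
    L.sm x V (.inr z) = if L.lt x (.inr z) = .z then 0 else V (.inr z) := by
  have hcard : ∀ z, (lo K (L.w x z) (L.n z)).card ≤ 2 := by
    intro z
    have h1 := hD z
    unfold lam at h1
    by_cases hsp : L.sp z
    · have := L.cp_sp z hsp
      omega
    · have := L.cp_n z hsp
      omega
  refine sub_sum' L.Ct L.rd (L.used x) (fun p => V (.inl p)) ?_ ?_
    (fun z => if L.lt x (.inr z) = .z then 0 else V (.inr z))
    (fun i => if L.lt x i = .z then 0 else V i) ?_ (fun _ => rfl) ?_ z hz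
  · intro z hz
    obtain ⟨l2, R, h2, -⟩ := L.full z
    rw [h2 hz, List.append_nil] at R
    exact R.isum_all (L := L.used x) (fun p => V (.inl p)) (L.used_pos x)
  · intro z hz i hi
    obtain ⟨e1, e2, e3⟩ := (L.mem _ _).1 hi
    exact ⟨e3, fun h => e2 _ h L.sp_r⟩
  · intro p
    exact L.sm_inl.symm
  · intro z hz
    have h1 : ((L.rd z).map fun i => if L.lt x i = .z then 0 else V i).sum =
        fv (L.w x z) (L.vv V z) 0 (L.n z) := by
      unfold n
      rw [fv_take (w := L.w x z) (v := L.vv V z) (f0 := 0) (L.rd z)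
        (fun i => if L.lt x i = .z then 0 else V i) ?_ _ le_rfl, zero_add]
      · rw [List.take_length]
      · intro t i hi
        rw [L.w_it hi, L.vv_it hi]
    rw [h1, fv_total hK (h.ok z) (hcard z), zero_add, ← L.cnt_eq hz]
    by_cases hc : L.lt x (.inr z) = .z
    · rw [if_pos hc]
      have := L.lt_inr_z.1 hc
      rw [Nat.not_odd_iff_even] at this
      rw [(ZMod.natCast_eq_zero_iff_even).2 this, zero_mul]
    · rw [if_neg hc]
      have := not_not.1 (fun h1 => hc (L.lt_inr_z.2 h1))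
      rw [(ZMod.natCast_eq_one_iff_odd).2 this, one_mul]

/-- the sum of an item of a reading list -/
lemma sm_item [Finite C] (hK : 2 ≤ K) (h : L.Sol0 K x V E) (hD : L.Dom K x) {z : C} {t : ℕ}
    {i : α ⊕ C} (hi : L.it z t = some i) :
    L.sm x V i = if L.w x z t = .z then 0 else L.vv V z t := by
  classical
  rw [L.w_it hi, L.vv_it hi]
  rcases i with p | c
  · rw [L.sm_inl]
  · have h1 := (L.mem _ _).1 (L.it_some hi).2.1
    rw [L.sm_inr hK h hD (fun hc => h1.2.1 c rfl (by rw [hc]; exact L.sp_r))]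

/-! ### The gap values are the prefix sums -/

section gaps

variable [Finite C] (hK : 2 ≤ K) (h : L.Sol0 K x V E) (hD : L.Dom K x)
include hK h hD

/-- prefix sum before an item = gap value of the word -/
lemma gb_eq {z : C} {t : ℕ} {i : α ⊕ C} (hi : L.it z t = some i) :
    gb L.Ct (L.used x) (fun p => V (.inl p)) (L.cls z) i = L.gv x V z t := by
  obtain ⟨l2, R, -⟩ := L.full z
  obtain ⟨ht, -⟩ := L.it_some hi
  have h1 : L.rd z ++ l2 = (L.rd z).take t ++ i :: ((L.rd z).drop (t + 1) ++ l2) := by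
    have h2 : (L.rd z)[t] = i := by
      unfold it at hi
      exact (List.getElem?_eq_some_iff.1 hi).2
    rw [← List.cons_append, ← List.append_assoc]
    congr 1
    rw [← h2, List.cons_getElem_drop_succ, List.take_append_drop]
  rw [R.gb_eq (fun p => V (.inl p)) (L.used_pos x) h1, gv,
    fv_take (L.rd z) (L.sm x V) (fun t i hi => L.sm_item hK h hD hi) t ht.le]
  rfl

/-- prefix sum behind an item -/
lemma ga_eq {z : C} {t : ℕ} {i : α ⊕ C} (hi : L.it z t = some i) :
    ga L.Ct (L.used x) (fun p => V (.inl p)) (L.cls z) i = L.gv x V z (t + 1) := by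
  rw [PD.ga_eq, L.gb_eq hK h hD hi]
  unfold gv
  rw [fv, ← L.sm_item hK h hD hi]
  rfl

/-- the base of a child is the gap before or behind it -/
lemma bs_child {c : C} {t : ℕ} (hc : L.it (L.Ct.par c) t = some (.inr c)) :
    ((L.cls c ↔ L.cls (L.Ct.par c)) → L.bs x V c = L.gv x V (L.Ct.par c) t) ∧
    (¬ (L.cls c ↔ L.cls (L.Ct.par c)) → L.bs x V c = L.gv x V (L.Ct.par c) (t + 1)) := by
  refine ⟨fun h1 => ?_, fun h1 => ?_⟩
  · rw [← L.gb_eq hK h hD hc]
    exact f0_child (fun p => V (.inl p)) h1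
  · rw [← L.ga_eq hK h hD hc]
    exact f0_child' (fun p => V (.inl p)) h1

/-- bases of odd children -/
lemma bs_odd {c : C} {t : ℕ} (hc : L.it (L.Ct.par c) t = some (.inr c)) :
    L.bs x V c = L.gv x V (L.Ct.par c) t ∨ L.bs x V c = L.gv x V (L.Ct.par c) (t + 1) := by
  by_cases h1 : L.cls c ↔ L.cls (L.Ct.par c)
  · exact Or.inl ((L.bs_child hK h hD hc).1 h1)
  · exact Or.inr ((L.bs_child hK h hD hc).2 h1)

/-- bases of even children -/
lemma bs_even {c : C} {t : ℕ} (hc : L.it (L.Ct.par c) t = some (.inr c))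
    (he : ¬ Odd (L.cnt x c)) :
    L.bs x V c = L.gv x V (L.Ct.par c) t := by
  rcases L.bs_odd hK h hD hc with h1 | h1
  · exact h1
  · rw [h1]
    unfold gv
    rw [fv, if_pos (by rw [L.w_it hc, L.lt_inr_z]; exact he), add_zero]

/-- **the star window between the port corners** -/
lemma win {j : J} {s s' : ℕ} (hs : L.it (L.Ct.pt (L.S.a j)) s = some (.inl (L.S.a j)))
    (hs' : L.it (L.Ct.pt (L.S.b j)) s' = some (.inl (L.S.b j))) :
    L.gv x V (L.Ct.pt (L.S.a j)) s = L.gv x V (L.Ct.pt (L.S.b j)) s' := by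
  classical
  rw [← L.gb_eq hK h hD hs, ← L.gb_eq hK h hD hs']
  unfold gb
  have ha : ¬ L.cls (L.Ct.pt (L.S.a j)) := L.S.clsA j
  have hb : L.cls (L.Ct.pt (L.S.b j)) := L.S.clsB j
  rw [if_neg ha, if_pos hb]
  exact (windows L.S x (v := fun p => V (.inl p)) h.star j).2.1

end gaps

end Lv

end Pool.Agent.MP42.PD
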