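import Pool.Agent.MP42.PD.GapL

/-!
# Maximal labellings of a level (owner helper18)

`bs_sp`: the gap value at the base of a special circle is `0`. `clos`: the closure of a labelling is
a labelling. `exists_max`: if the class graph is not connected there is a labelling with root value
`0` for which a port with gap value `1` before it has the value `1`, and there is a gap with
value `1`.
-/

set_option autoImplicit false
set_option linter.unusedSectionVars false

namespace Pool.Agent.MP42.PD

open Pool.Agent.MP42.U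

namespace Lv

variable {C J α : Type*} [LinearOrder α] [Fintype J] (L : Lv C J α) {K : ℕ} {x : J → Bool}
  {V : α ⊕ C → ZMod 2} {E : C → ZMod 2}

/-- the sum over all letters -/
lemma total (h : L.Sol0 K x V E) : ∑ q ∈ L.used x, V (.inl q) = 0 := by
  classical
  have h1 := sum_Lts L.S x (fun q => V (.inl q)) (fun _ => True)
  have h2 : ∑ q ∈ L.used x, V (.inl q) = ∑ j, (ind True * V (.inl (L.S.y j)) +
      ind True * V (.inl (L.S.port x j))) := by
    rw [← h1]
    refine Finset.sum_congr ?_ (fun _ _ => rfl)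
    rw [used_eq]
    ext q
    simp
  rw [h2]
  refine Finset.sum_eq_zero fun j _ => ?_
  rw [ind_t trivial, one_mul, one_mul, h.star j]
  exact z2 _

lemma fb_lo_r : fb (L.used x) (fun p => V (.inl p)) (L.Ct.lo L.Ct.r) = 0 := by
  classical
  unfold fb
  rw [Finset.filter_false_of_mem (fun q _ => not_lt.2 (L.Ct.top q).1), Finset.sum_empty]

lemma fa_hi_r (h : L.Sol0 K x V E) :
    fa (L.used x) (fun p => V (.inl p)) (L.Ct.hi L.Ct.r) = 0 := by
  classical
  unfold fa
  rw [Finset.filter_true_of_mem (fun q _ => (L.Ct.top q).2)]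
  exact L.total h

/-- the base of the root -/
lemma bs_r (h : L.Sol0 K x V E) : L.bs x V L.Ct.r = 0 := by
  classical
  unfold bs f0
  split_ifs
  · exact L.fb_lo_r
  · exact L.fa_hi_r h

/-- **the base of a special circle** -/
lemma bs_sp (h : L.Sol0 K x V E) {c : C} (hc : L.sp c) : L.bs x V c = 0 := by
  classical
  by_cases hcr : c = L.Ct.r
  · rw [hcr]
    exact L.bs_r h
  · obtain ⟨l2, R, -, hl2⟩ := L.full L.Ct.r
    have hl2 := hl2 c hc hcr rfl
    obtain ⟨h1, h2, -⟩ := L.sp_c c hc hcr
    have hne : ¬ (L.cls c ↔ L.cls L.Ct.r) := by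
      rw [h2]
      exact fun h3 => by
        by_cases h4 : L.cls L.Ct.r
        · exact h3.2 h4 h4
        · exact h4 (h3.1 h4)
    have e1 := f0_child' (Ct := L.Ct) (L := L.used x) (fun p => V (.inl p)) hne
    have e2 := R.ga_eq (L := L.used x) (fun p => V (.inl p)) (L.used_pos x)
      (l1 := L.rd L.Ct.r) (i := .inr c) (l2 := []) (by rw [hl2])
    have e3 : L.bs x V c = fr L.Ct L.cls (L.used x) (fun p => V (.inl p)) L.Ct.r
        (L.rd L.Ct.r ++ [.inr c]) := e1.trans e2
    rw [e3]
    unfold fr
    have e4 : f0 L.Ct L.cls (L.used x) (fun p => V (.inl p)) L.Ct.r = 0 := L.bs_r h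
    have e5 := R.isum_all (L := L.used x) (fun p => V (.inl p)) (L.used_pos x)
    rw [hl2] at e5
    rw [e4, zero_add, ← e5, isum, ← L.total h]
    refine Finset.sum_congr ?_ (fun _ _ => rfl)
    ext q
    rw [Contour.mem_lt]
    exact ⟨fun h => h.1, fun h => ⟨h, L.Ct.top q⟩⟩

/-! ### The closure -/

variable (V E)

open Classical in
/-- the closure of a labelling -/
noncomputable def cV (x : J → Bool) (V : α ⊕ C → ZMod 2) : α ⊕ C → ZMod 2
  | .inl p => or2 (V (.inl p)) (fb (L.used x) (fun p => V (.inl p)) p)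
  | .inr c => or2 (V (.inr c)) (L.bs x V c)

/-- the closure at the left overs -/
noncomputable def cE (x : J → Bool) (V : α ⊕ C → ZMod 2) (E : C → ZMod 2) (z : C) : ZMod 2 :=
  or2 (E z) (L.bs x V z)

variable {V E}

lemma lo_card (hD : L.Dom K x) (z : C) : (lo K (L.w x z) (L.n z)).card ≤ 2 := by
  have h1 := hD z
  unfold lam at h1
  by_cases hsp : L.sp z
  · have := L.cp_sp z hsp
    omega
  · have := L.cp_n z hsp
    omega

/-- value of the closure at a used letter or a child -/
lemma cV_item [Finite C] (hK : 2 ≤ K) (h : L.Sol0 K x V E) (hD : L.Dom K x) {z : C} {t : ℕ}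
    {i : α ⊕ C} (hi : L.it z t = some i) (hu : ∀ p, i = .inl p → p ∈ L.used x) :
    L.cV x V i = clv (L.w x z) (L.vv V z) (L.bs x V z) t := by
  classical
  unfold clv
  rw [L.vv_it hi]
  have e1 : fv (L.w x z) (L.vv V z) (L.bs x V z) t = L.gv x V z t := rfl
  rw [e1]
  rcases i with p | c
  · refine or2_congr rfl fun h0 => ?_
    rw [← L.gb_eq hK h hD hi]
    unfold gb
    split_ifs
    · rfl
    · have h1 := fa_letter (v := fun p => V (.inl p)) (Ct := L.Ct) _ (hu p rfl)
      have h1 : fa (L.used x) (fun p => V (.inl p)) p =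
        fb (L.used x) (fun p => V (.inl p)) p + V (.inl p) := h1
      rw [h0, add_zero] at h1
      exact h1.symm
  · obtain ⟨ht, hmem, hhost⟩ := L.it_some hi
    have hhost : L.Ct.par c = z := hhost
    subst hhost
    refine or2_congr rfl fun h0 => ?_
    rcases L.bs_odd hK h hD hi with h1 | h1
    · exact h1
    · rw [h1]
      unfold gv
      rw [fv]
      have h2 : L.vv V (L.Ct.par c) t = 0 := by rw [L.vv_it hi]; exact h0
      rw [h2, ite_self, add_zero]

/-- the closure at the places of a word -/
lemma vv_cV [Finite C] (hK : 2 ≤ K) (h : L.Sol0 K x V E) (hD : L.Dom K x) {z : C} {t : ℕ}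
    (ht : t < L.n z) (hu : L.w x z t ≠ .z ∨ L.rid x z t) :
    L.vv (L.cV x V) z t = clv (L.w x z) (L.vv V z) (L.bs x V z) t := by
  obtain ⟨i, hi, -⟩ := L.it_of_lt ht
  rw [L.vv_it hi]
  refine L.cV_item hK h hD hi ?_
  rintro p rfl
  rcases hu with hu | ⟨c, hc, -⟩
  · rw [L.w_it hi] at hu
    exact not_not.1 (fun h1 => hu (L.lt_inl_z.2 h1))
  · rw [hi] at hc
    simp at hc

/-- **the closure is a labelling** -/
theorem clos0 [Finite C] (hK : 2 ≤ K) (h : L.Sol0 K x V E) (hD : L.Dom K x) : L.Sol0 K x (L.cV x V) (L.cE x V E) where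
  star j := by
    refine or2_congr (h.star j) fun h0 => ?_
    have hw := windows L.S x (v := fun p => V (.inl p)) h.star j
    have hy : fa (L.used x) (fun p => V (.inl p)) (L.S.y j) =
        fb (L.used x) (fun p => V (.inl p)) (L.S.y j) := by
      have := fa_letter (v := fun p => V (.inl p)) (Ct := L.Ct) _ (y_mem L.S x j)
      rw [h0, add_zero] at this
      exact this
    have hp : fa (L.used x) (fun p => V (.inl p)) (L.S.port x j) =
        fb (L.used x) (fun p => V (.inl p)) (L.S.port x j) := by
      have := fa_letter (v := fun p => V (.inl p)) (Ct := L.Ct) _ (port_mem L.S x j)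
      rw [← h.star j, h0, add_zero] at this
      exact this
    rcases L.S.port_eq x j with h1 | h1
    · rw [h1]
      rw [← hy]
      exact hw.1
    · rw [h1] at hp ⊢
      rw [← hp]
      exact hw.2.2.symm
  ok z := by
    have h1 := (h.ok z).closure (f0 := L.bs x V z) hK (L.lo_card hD z)
    refine (WOk.congr (v' := L.vv (L.cV x V) z) h1 fun t ht hw => ?_)
    exact (L.vv_cV hK h hD ht (Or.inl hw)).symm
  sp z hz := by
    show or2 _ _ = or2 _ _
    rw [L.bs_sp h hz, L.bs_sp h L.sp_r, h.sp z hz]

/-- the closure respects the riders -/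
theorem closS [Finite C] (hK : 3 ≤ K) (h : L.Sol K x V E) (hD : L.Dom K x) : L.Sol K x (L.cV x V) (L.cE x V E) where
  toSol0 := L.clos0 (by omega) h.toSol0 hD
  rider z t ht hrid := by
    have hK2 : 2 ≤ K := by omega
    have hok := h.ok z
    obtain ⟨κ, hκ, hv⟩ := h.rider z t ht hrid
    refine ⟨κ, hκ, ?_⟩
    rw [L.vv_cV hK2 h.toSol0 hD ht (Or.inr hrid)]
    have hsome : ∀ F, F ∈ stk K (L.w x z) t →
        L.vv (L.cV x V) z F = clv (L.w x z) (L.vv V z) (L.bs x V z) F := by
      intro F hF
      exact L.vv_cV hK2 h.toSol0 hD ((stk_lt hF).trans ht)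
        (Or.inl (by rw [w_of_mem_stk hF]; simp))
    rcases hκ with rfl | ⟨hI, rfl⟩ | ⟨rfl, h2, hev, hp⟩
    · have e1 := hok.cl_tv (f0 := L.bs x V z) hK2 ht.le hv
      rw [e1]
      unfold tv
      rcases hs : stk K (L.w x z) t with _ | ⟨F, l⟩
      · rfl
      · simp only [List.head?_cons, cv]
        exact (hsome F (by rw [hs]; simp)).symm
    · obtain ⟨hlen, X, hX, hXn, hwX, hsX⟩ := hI
      rcases hs : stk K (L.w x z) t with _ | ⟨F, _ | ⟨G, _ | ⟨H, l⟩⟩⟩
      · rw [hs] at hlen; simp at hlen; omega
      · rw [hs] at hlen; simp at hlen; omega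
      · rw [hs] at hlen; simp at hlen; omega
      · have hFG := hok.unit X hXn hwX F G (H :: l) (by rw [hsX, hs]) (by rw [hsX]; exact hlen)
        rw [hs] at hv
        have hv : L.vv V z t = L.vv V z H := hv
        rw [hok.cl_pair hK2 ht.le hs hFG.2 hv]
        show _ = L.vv (L.cV x V) z H
        exact (hsome H (by rw [hs]; simp)).symm
    · have hv : L.vv V z t = E z := hv
      show _ = L.cE x V E z
      refine hok.cl_base hK2 ht.le ?_ hv
      rcases hp with hp | ⟨hI, hp⟩
      · refine hok.sum_pend hev ?_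
        rcases hs : stk K (L.w x z) t with _ | ⟨F, l⟩
        · simp
        · have hF := hp F (by rw [hs]; rfl)
          obtain ⟨p, h3, -⟩ := stk_suffix hF
          intro i hi
          rw [h3, (stk_cons hs).1]
          exact List.mem_append_right _ hi
      · obtain ⟨hlen, X, hX, hXn, hwX, hsX⟩ := hI
        rcases hs : stk K (L.w x z) t with _ | ⟨F, _ | ⟨G, l⟩⟩
        · rw [hs] at hlen; simp at hlen; omega
        · rw [hs] at hlen; simp at hlen; omega
        · have hFG := hok.unit X hXn hwX F G l (by rw [hsX, hs]) (by rw [hsX]; exact hlen)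
          rw [← hs]
          refine hok.sum_pend' hs hFG.2 hev ?_
          rcases l with _ | ⟨H, l⟩
          · simp
          · have hH := hp H (by rw [hs]; rfl)
            obtain ⟨p, h3, -⟩ := stk_suffix hH
            have h4 : stk K (L.w x z) H = l := (stk_cons (stk_cons (stk_cons hs).1).1).1
            intro i hi
            rw [h3, h4]
            exact List.mem_append_right _ hi

end Lv

end Pool.Agent.MP42.PD
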