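import Pool.Agent.MP42.PD.LW
import Pool.Agent.MP42.PD.Ex

/-!
# The gap function of a labelling: interface (owner helper1; the theorem is helper18's)
-/

set_option autoImplicit false
set_option linter.unusedSectionVars false

namespace Pool.Agent.MP42.PD

open Pool.Agent.MP42.U

namespace Lv

variable {C J α : Type*} [LinearOrder α] [Fintype J] (L : Lv C J α) (x : J → Bool)

/-- the value of the gap `t` of the circle `z` -/
noncomputable def F (V : α ⊕ C → ZMod 2) (f0 : C → ZMod 2) (z : C) (t : ℕ) : ZMod 2 :=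
  fv (L.w x z) (L.vv V z) (f0 z) t

/-- **gap values** of a labelling with the value `0` at the root -/
structure GapOK (V : α ⊕ C → ZMod 2) (f0 : C → ZMod 2) : Prop where
  root : ∀ z, L.sp z → f0 z = 0
  /-- the window between the corners `a` and `b` -/
  win : ∀ j, L.F x V f0 (L.Ct.pt (L.lg j false)) (L.ix (L.Ct.pt (L.lg j false)) (.inl (L.lg j false)))
    = L.F x V f0 (L.Ct.pt (L.lg j true)) (L.ix (L.Ct.pt (L.lg j true)) (.inl (L.lg j true)))
  /-- all gaps of a star with the value `0` are equal -/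
  star : ∀ j, V (.inl (L.S.y j)) = 0 →
    L.F x V f0 (L.Ct.pt (L.S.y j)) (L.ix (L.Ct.pt (L.S.y j)) (.inl (L.S.y j))) =
    L.F x V f0 (L.Ct.pt (L.S.port x j)) (L.ix (L.Ct.pt (L.S.port x j)) (.inl (L.S.port x j)))
  odd : ∀ c, ¬ L.sp c → Odd (L.cnt x c) →
    f0 c = L.F x V f0 (L.Ct.par c) (L.ix (L.Ct.par c) (.inr c)) ∨
    f0 c = L.F x V f0 (L.Ct.par c) (L.ix (L.Ct.par c) (.inr c) + 1)
  even : ∀ c, ¬ L.sp c → ¬ Odd (L.cnt x c) →
    f0 c = L.F x V f0 (L.Ct.par c) (L.ix (L.Ct.par c) (.inr c))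
  /-- the value of an odd own link is the sum over the subtree -/
  sub : (∀ j, V (.inl (L.S.y j)) = 0) → ∀ c, ¬ L.sp c → Odd (L.cnt x c) → V (.inr c) = 0

end Lv

end Pool.Agent.MP42.PD
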