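import Pool.Agent.MP42.PD.Cyc

/-!
# Project MP42, bounded stack: the second key, closers before the gaps (owner helper92)
-/

set_option autoImplicit false
set_option linter.unusedSectionVars false

namespace Pool.Agent.MP42.PD

open MP42.Stk (ht up tt isU isP Passes nop)

/-- closers before the gap `t` -/
def clo (K : ℕ) (w : ℕ → Lt) (t : ℕ) : ℕ :=
  ((Finset.range t).filter fun i => w i = .o ∧ stk K w i ≠ []).card

/-- units before the gap `t` -/
def unt (w : ℕ → Lt) (t : ℕ) : ℕ := ((Finset.range t).filter fun i => w i = .u).card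

section

variable {K : ℕ} {w w' : ℕ → Lt}

lemma clo_lo (t : ℕ) : clo K w t + (lo K w t).card =
    ((Finset.range t).filter fun i => w i = .o).card := by
  classical
  unfold clo lo
  rw [← Finset.card_union_of_disjoint]
  · congr 1
    ext i
    simp only [Finset.mem_union, Finset.mem_filter, Finset.mem_range]
    tauto
  · rw [Finset.disjoint_left]
    intro i h1 h2
    exact (Finset.mem_filter.1 h1).2.2 (Finset.mem_filter.1 h2).2.2

lemma cntU_eq (t : ℕ) : MP42.Stk.cnt (isU fun i => oc (w i)) t = unt w t := by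
  classical
  unfold MP42.Stk.cnt unt
  congr 1
  ext i
  simp only [Finset.mem_filter, Finset.mem_range, isU]
  rcases w i with _ | _ | _ <;> simp [oc]

lemma cntP_eq (t : ℕ) : MP42.Stk.cnt (isP fun i => oc (w i)) t =
    ((Finset.range t).filter fun i => w i = .o).card := by
  classical
  unfold MP42.Stk.cnt
  congr 1
  ext i
  simp only [Finset.mem_filter, Finset.mem_range, isP]
  rcases w i with _ | _ | _ <;> simp [oc]

/-- closers and `T` -/
lemma clo_tt (hK : 1 ≤ K) (t : ℕ) : clo K w t + tt K (fun i => oc (w i)) t = unt w t := by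
  have h1 := MP42.Stk.sum_id (K := K) (w := fun i => oc (w i)) hK t
  have h2 := clo_lo (K := K) (w := w) t
  rw [cntU_eq, cntP_eq, (bridge hK t).2] at h1
  unfold tt
  omega

variable {ι : Type*} {L : ℕ} {J : Finset ι} {e : ι → ℕ} {x : ι → Option ℕ}

lemma unt_eq (h : ∀ i < L, w' i = .u ↔ w i = .u) {t : ℕ} (ht : t ≤ L) : unt w' t = unt w t := by
  unfold unt
  congr 1
  ext i
  simp only [Finset.mem_filter, Finset.mem_range]
  constructor
  · rintro ⟨a, b⟩; exact ⟨a, (h i (by omega)).1 b⟩
  · rintro ⟨a, b⟩; exact ⟨a, (h i (by omega)).2 b⟩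

/-- **closers before a gap, port exchange** -/
theorem clo_le (hK : 1 ≤ K) (p : Passes K (fun i => oc (w i)) (fun i => oc (w' i)) L J e x)
    (hu : ∀ i < L, w' i = .u ↔ w i = .u) {t : ℕ} (ht : t ≤ L) :
    clo K w t + nop K (fun i => oc (w i)) J e x False t ≤ clo K w' t := by
  have hi : ∀ j ∈ J, oc (w' (e j)) ≠ some true := by
    intro j hj h
    have h1 : w' (e j) = .u := by
      revert h
      rcases w' (e j) with _ | _ | _ <;> simp [oc]
    have h2 := (hu _ (p.eL j hj)).1 h1
    rcases p.ent j hj with ⟨a, -⟩ | ⟨-, b⟩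
    · simp only [h2, oc] at a
      cases a
    · simp only [h1, oc] at b
      cases b
  have h1 := MP42.Stk.tt_le p hK hi t ht
  have h2 := clo_tt (K := K) (w := w) hK t
  have h3 := clo_tt (K := K) (w := w') hK t
  rw [unt_eq hu ht] at h3
  omega

/-- **the second key does not drop** -/
theorem sum_clo_le (hK : 1 ≤ K) (p : Passes K (fun i => oc (w i)) (fun i => oc (w' i)) L J e x)
    (hu : ∀ i < L, w' i = .u ↔ w i = .u) :
    ∑ t ∈ Finset.range (L + 1), clo K w t ≤ ∑ t ∈ Finset.range (L + 1), clo K w' t :=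
  Finset.sum_le_sum fun t ht => by
    have := clo_le hK p hu (t := t) (Nat.lt_succ_iff.1 (Finset.mem_range.1 ht))
    omega

/-- **the second key rises with a closer exit** -/
theorem sum_clo_lt (hK : 1 ≤ K) (p : Passes K (fun i => oc (w i)) (fun i => oc (w' i)) L J e x)
    (hu : ∀ i < L, w' i = .u ↔ w i = .u) {j : ι} (hj : j ∈ J) {X : ℕ} (hX : x j = some X)
    (h1 : stk K w X ≠ []) :
    ∑ t ∈ Finset.range (L + 1), clo K w t < ∑ t ∈ Finset.range (L + 1), clo K w' t := by
  classical
  have h1' : 1 ≤ ht K (fun i => oc (w i)) X := by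
    rw [(bridge hK X).1]
    exact List.length_pos_iff.2 h1
  have hcov : MP42.Stk.Cov K (fun i => oc (w i)) (e j) X := by
    rcases (p.ex j hj X hX).2.2 with h | h
    · exact h
    · omega
  have hXL := p.xL j hj X hX
  refine Finset.sum_lt_sum (fun t ht => ?_) ⟨X, Finset.mem_range.2 (by omega), ?_⟩
  · have := clo_le hK p hu (t := t) (Nat.lt_succ_iff.1 (Finset.mem_range.1 ht))
    omega
  · have h2 := clo_le hK p hu (t := X) (by omega)
    have h3 : 1 ≤ nop K (fun i => oc (w i)) J e x False X := by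
      unfold nop
      exact Finset.card_pos.2 ⟨j, Finset.mem_filter.2 ⟨hj, hcov.1, Or.inl ⟨X, hX, h1', le_refl _⟩⟩⟩
    omega

end

end Pool.Agent.MP42.PD
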