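import Pool.Agent.MP42.PD.Rn

/-!
# Rotation of a left over (owner helper1)

The word `w'` has a new port at `a` and has lost the port `x`, both on the main level (empty stack).
Then the stacks do not change, and the number of left overs changes in the obvious way.
-/

set_option autoImplicit false

namespace Pool.Agent.MP42.PD

variable {K : ℕ} {w w' : ℕ → Lt}

/-- the stack depends on the letters before it only -/
lemma stk_congr {t : ℕ} (h : ∀ i < t, w' i = w i) : stk K w' t = stk K w t := by
  induction t with
  | zero => rfl
  | succ t ih =>
    have i1 := ih fun i hi => h i (by omega)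
    have e := h t (Nat.lt_succ_self t)
    simp only [stk, e, i1]

section

variable {a x : ℕ} (ha : w a = .z) (ha' : w' a = .o) (hx : w x = .o)
  (hx' : w' x = .z) (h : ∀ t, t ≠ a → t ≠ x → w' t = w t) (ea : stk K w a = [])
  (ex : stk K w x = [])

include ha ha' hx hx' h ea ex

theorem rot_stk (t : ℕ) : stk K w' t = stk K w t := by
  induction t with
  | zero => rfl
  | succ t ih =>
    by_cases hta : t = a
    · subst hta
      rw [stk_o ha', stk_z ha, ih, ea]; rfl
    · by_cases htx : t = x
      · subst htx
        rw [stk_o hx, stk_z hx', ih, ex]; rfl
      · have e := h t hta htx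
        simp only [stk, e, ih]

theorem rot_mm (t : ℕ) : mm K w' t = mm K w t + (if a < t then 1 else 0)
    - (if x < t then 1 else 0) := by
  have hS := rot_stk ha ha' hx hx' h ea ex
  induction t with
  | zero => simp
  | succ t ih =>
    have e1 : (x < t + 1) ↔ (x < t ∨ x = t) := by omega
    have e2 : (a < t + 1) ↔ (a < t ∨ a = t) := by omega
    by_cases hta : t = a
    · subst hta
      have hne : x ≠ t := by rintro rfl; rw [ha] at hx; cases hx
      have h1 := (step_z (K := K) ha).2
      have h2 := (step_o0 (K := K) ha' (hh_eq_zero.2 ((hS t).trans ea))).2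
      rw [if_neg (lt_irrefl _)] at ih
      rw [h1, h2, ih, if_pos (Nat.lt_succ_self t)]
      by_cases c : x < t
      · rw [if_pos c, if_pos (by omega)]; ring
      · rw [if_neg c, if_neg (by omega)]; ring
    · by_cases htx : t = x
      · subst htx
        have hne : a ≠ t := fun h => hta h.symm
        have h1 := (step_o0 (K := K) hx (hh_eq_zero.2 ex)).2
        have h2 := (step_z (K := K) hx').2
        rw [if_neg (lt_irrefl _)] at ih
        rw [h1, h2, ih, if_pos (Nat.lt_succ_self t)]
        by_cases c : a < t
        · rw [if_pos c, if_pos (by omega)]; ring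
        · rw [if_neg c, if_neg (by omega)]; ring
      · have e := h t hta htx
        have e3 : (x < t + 1) ↔ (x < t) := by omega
        have e4 : (a < t + 1) ↔ (a < t) := by omega
        have hh' : hh K w' t = hh K w t := by unfold hh; rw [hS t]
        have key : mm K w' (t + 1) - mm K w (t + 1) = mm K w' t - mm K w t := by
          rcases hw : w t with _ | _ | _
          · by_cases c : hh K w t = 0
            · rw [(step_o0 hw c).2, (step_o0 (e.trans hw) (hh'.trans c)).2]; ring
            · rw [(step_o1 hw c).2, (step_o1 (e.trans hw) (by rw [hh']; exact c)).2]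
          · unfold mm
            rw [lo_succ_n (w := w) (by rw [hw]; simp),
              lo_succ_n (w := w') (by rw [e.trans hw]; simp)]
          · unfold mm
            rw [lo_succ_n (w := w) (by rw [hw]; simp),
              lo_succ_n (w := w') (by rw [e.trans hw]; simp)]
        simp only [e3, e4]
        linarith

end

/-- left overs are monotone -/
lemma mm_mono {s t : ℕ} (h : s ≤ t) : mm K w s ≤ mm K w t := by
  unfold mm
  have : lo K w s ⊆ lo K w t := by
    intro i hi
    rw [mem_lo] at hi ⊢
    exact ⟨by omega, hi.2⟩
  exact_mod_cast Finset.card_le_card this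

end Pool.Agent.MP42.PD
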