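import Pool.Agent.MP42.PD.RegRot
import Pool.Agent.MP42.PD.RnRot
import Pool.Agent.MP42.PD.Ex

/-!
# The third key for words (owner helper1)

A system of words `W z`, `z` a circle, of length `N z`; the port corner `(j, c)` stands at the place
`ps j c` of the circle `ci j c`.  `reg` = number of regions.  `reg_drop`: a rotation of left overs
lowers it.
-/

set_option autoImplicit false

namespace Pool.Agent.MP42.PD

variable {J C : Type*}

/-- the place of a gap -/
def gp (ps : J → Bool → ℕ) (s : PG J) : ℕ := ps s.1 s.2.1 + (if s.2.2 then 1 else 0)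

/-- **third key** (to be minimal): number of regions -/
noncomputable def reg (K : ℕ) (ci : J → Bool → C) (ps : J → Bool → ℕ) (N : C → ℕ) (x : J → Bool)
    (W : C → ℕ → Lt) : ℕ :=
  ncl (RR x ci (fun s => stk K (W (ci s.1 s.2.1)) (gp ps s) = [])
    (fun s => (lo K (W (ci s.1 s.2.1)) (gp ps s)).card) (fun z => (lo K (W z) (N z)).card))

private lemma zz (a : ZMod 2) : a = 0 ∨ a = 1 := by
  revert a; decide

private lemma zmod_nsmul (m n : ℕ) (h : m % 2 = n % 2) (b : ZMod 2) : m • b = n • b := by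
  have e : ∀ k : ℕ, k • b = (k % 2) • b := by
    intro k
    conv_lhs => rw [← Nat.div_add_mod k 2]
    rw [add_nsmul, mul_nsmul]
    have : 2 • b = 0 := by rw [two_nsmul]; exact CharTwo.add_self_eq_zero _
    rw [this, nsmul_zero, zero_add]
  rw [e m, e n, h]

variable [Finite J] {K : ℕ} {ci : J → Bool → C} {ps : J → Bool → ℕ} {N : C → ℕ} {x x' : J → Bool}
  {W W' : C → ℕ → Lt}

open Classical in
/-- **a rotation of left overs lowers the third key** -/
theorem reg_drop (hK : 0 < K) (J0 : J → Prop) (hne : ∃ j, J0 j) (σ : J → J)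
    (hσ : ∀ j, J0 j → J0 (σ j)) (hs : ∀ j, J0 j → ∃ i, J0 i ∧ σ i = j)
    (hc : ∀ j, J0 j → ci j (!x j) = ci (σ j) (x (σ j)))
    (inj : ∀ i j, J0 i → J0 j → ci i (x i) = ci j (x j) → i = j)
    (hx0 : ∀ j, J0 j → x' j = !x j) (hx1 : ∀ j, ¬ J0 j → x' j = x j)
    (hps : ∀ j c, ps j c < N (ci j c))
    (hX : ∀ j, J0 j → W (ci j (x j)) (ps j (x j)) = .o)
    (hX' : ∀ j, J0 j → W' (ci j (x j)) (ps j (x j)) = .z)
    (hA : ∀ j, W (ci j (!x j)) (ps j (!x j)) = .z)
    (hA' : ∀ j, J0 j → W' (ci j (!x j)) (ps j (!x j)) = .o)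
    (hoth : ∀ z t, (∀ j, J0 j → ¬ (ci j (x j) = z ∧ ps j (x j) = t) ∧
      ¬ (ci j (!x j) = z ∧ ps j (!x j) = t)) → W' z t = W z t)
    (sX : ∀ j, J0 j → stk K (W (ci j (x j))) (ps j (x j)) = [])
    (sA : ∀ j, J0 j → stk K (W (ci j (!x j))) (ps j (!x j)) = [])
    (lam2 : ∀ j, J0 j → (lo K (W (ci j (x j))) (N (ci j (x j)))).card = 2)
    (v : C → ℕ → ZMod 2) (vA vB f0 : C → ZMod 2)
    (hv : ∀ z, (lo K (W z) (N z)).card = 2 → VOK K (W z) (N z) (v z) (vA z) (vB z))
    (hwin : ∀ j, fv (W (ci j false)) (v (ci j false)) (f0 (ci j false)) (ps j false) =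
      fv (W (ci j true)) (v (ci j true)) (f0 (ci j true)) (ps j true))
    (f1 : ∀ j, J0 j → fv (W (ci j (x j))) (v (ci j (x j))) (f0 (ci j (x j))) (ps j (x j)) = 1)
    (v1 : ∀ j, J0 j → v (ci j (x j)) (ps j (x j)) = 1) :
    reg K ci ps N x' W' < reg K ci ps N x W := by
  -- the next star is injective
  have hσi : ∀ i j, J0 i → J0 j → σ i = σ j → i = j := by
    let τ : {j // J0 j} → {j // J0 j} := fun j => ⟨σ j.1, hσ j.1 j.2⟩
    have hτ : Function.Surjective τ := by
      rintro ⟨j, hj⟩
      obtain ⟨i, hi, hij⟩ := hs j hj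
      exact ⟨⟨i, hi⟩, Subtype.ext hij⟩
    have hτi : Function.Injective τ := Finite.injective_iff_surjective.2 hτ
    intro i j hi hj h
    exact congrArg Subtype.val (@hτi ⟨i, hi⟩ ⟨j, hj⟩ (Subtype.ext h))
  -- circles outside the rotation
  have hout : ∀ z, (∀ j, J0 j → z ≠ ci j (x j)) → W' z = W z := by
    intro z hz
    funext t
    refine hoth z t fun j hj => ⟨fun h => hz j hj h.1.symm, fun h => ?_⟩
    exact hz (σ j) (hσ j hj) (h.1.symm.trans (hc j hj))
  -- circles of the rotation
  have hin : ∀ i, J0 i → ∀ t, t ≠ ps i (!x i) → t ≠ ps (σ i) (x (σ i)) →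
      W' (ci (σ i) (x (σ i))) t = W (ci (σ i) (x (σ i))) t := by
    intro i hi t h1 h2
    refine hoth _ t fun j hj => ⟨fun h => ?_, fun h => ?_⟩
    · have := inj j (σ i) hj (hσ i hi) h.1
      subst this
      exact h2 h.2.symm
    · have h3 : σ j = σ i := inj (σ j) (σ i) (hσ j hj) (hσ i hi) ((hc j hj).symm.trans h.1)
      have := hσi j i hj hi h3
      subst this
      exact h1 h.2.symm
  have rs : ∀ i, J0 i → ∀ t, stk K (W' (ci (σ i) (x (σ i)))) t =
      stk K (W (ci (σ i) (x (σ i)))) t := by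
    intro i hi t
    refine rot_stk (a := ps i (!x i)) (x := ps (σ i) (x (σ i))) ?_ ?_ (hX _ (hσ i hi))
      (hX' _ (hσ i hi)) (hin i hi) ?_ (sX _ (hσ i hi)) t
    · rw [← hc i hi]; exact hA i
    · rw [← hc i hi]; exact hA' i hi
    · rw [← hc i hi]; exact sA i hi
  have rm : ∀ i, J0 i → ∀ t, mm K (W' (ci (σ i) (x (σ i)))) t =
      mm K (W (ci (σ i) (x (σ i)))) t + (if ps i (!x i) < t then 1 else 0)
        - (if ps (σ i) (x (σ i)) < t then 1 else 0) := by
    intro i hi t
    refine rot_mm (a := ps i (!x i)) (x := ps (σ i) (x (σ i))) ?_ ?_ (hX _ (hσ i hi))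
      (hX' _ (hσ i hi)) (hin i hi) ?_ (sX _ (hσ i hi)) t
    · rw [← hc i hi]; exact hA i
    · rw [← hc i hi]; exact hA' i hi
    · rw [← hc i hi]; exact sA i hi
  have hstk : ∀ z t, stk K (W' z) t = stk K (W z) t := by
    intro z t
    by_cases hz : ∃ j, J0 j ∧ z = ci j (x j)
    · obtain ⟨j, hj, rfl⟩ := hz
      obtain ⟨i, hi, rfl⟩ := hs j hj
      exact rs i hi t
    · push Not at hz
      rw [hout z hz]
  have hlam : ∀ z, (lo K (W' z) (N z)).card = (lo K (W z) (N z)).card := by
    intro z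
    by_cases hz : ∃ j, J0 j ∧ z = ci j (x j)
    · obtain ⟨j, hj, rfl⟩ := hz
      obtain ⟨i, hi, rfl⟩ := hs j hj
      have h := rm i hi (N (ci (σ i) (x (σ i))))
      have h1 : ps i (!x i) < N (ci (σ i) (x (σ i))) := by
        have := hps i (!x i)
        rwa [hc i hi] at this
      rw [if_pos h1, if_pos (hps _ _)] at h
      unfold mm at h
      have h2 : (((lo K (W' (ci (σ i) (x (σ i)))) (N (ci (σ i) (x (σ i))))).card : ℤ)) =
          (lo K (W (ci (σ i) (x (σ i)))) (N (ci (σ i) (x (σ i))))).card := by linarith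
      exact_mod_cast h2
    · push Not at hz
      rw [hout z hz]
  -- one place further
  have stp : ∀ j, stk K (W (ci j (!x j))) (ps j (!x j) + 1) = stk K (W (ci j (!x j))) (ps j (!x j)) :=
    fun j => stk_z (hA j)
  have stX : ∀ j, J0 j → stk K (W (ci j (x j))) (ps j (x j) + 1) = [] := by
    intro j hj
    rw [stk_o (hX j hj), sX j hj]; rfl
  -- the value of a gap on the main level
  have fmain : ∀ z t, (lo K (W z) (N z)).card = 2 → t ≤ N z → stk K (W z) t = [] →
      fv (W z) (v z) (f0 z) t = f0 z + (lo K (W z) t).card • vB z := by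
    intro z t h2 ht h0
    rw [fv_eq (hv z h2) hK ht, h0]
    simp only [List.map_nil, List.sum_nil, add_zero]
    congr 1
    rw [Finset.sum_congr rfl fun i hi => (hv z h2).two h2 i (lo_mono ht hi), Finset.sum_const]
  have hgpN : ∀ s : PG J, gp ps s ≤ N (ci s.1 s.2.1) := by
    intro s
    have := hps s.1 s.2.1
    unfold gp
    split_ifs <;> omega
  unfold reg
  have e1 : (fun s : PG J => stk K (W' (ci s.1 s.2.1)) (gp ps s) = []) =
      fun s : PG J => stk K (W (ci s.1 s.2.1)) (gp ps s) = [] := by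
    funext s
    rw [hstk]
  have e2 : (fun z => (lo K (W' z) (N z)).card) = fun z => (lo K (W z) (N z)).card := by
    funext z
    exact hlam z
  have e3 : x' = fun j => if J0 j then !x j else x j := by
    funext j
    by_cases hj : J0 j
    · rw [if_pos hj, hx0 j hj]
    · rw [if_neg hj, hx1 j hj]
  rw [e1, e2, e3]
  set F : PG J → ZMod 2 := fun s => fv (W (ci s.1 s.2.1)) (v (ci s.1 s.2.1)) (f0 (ci s.1 s.2.1))
    (gp ps s) with hF
  refine rot_drop ci (gp ps) _ _ x _ _ J0 hne σ hσ hs hc lam2 ?_ ?_ ?_ ?_ ?_ ?_ ?_ ?_ ?_ ?_ ?_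
    (fun s => decide (F s = 1)) ?_ ?_ ?_
  · intro j c
    simp [gp]
  · intro j hj
    simpa [gp] using sX j hj
  · intro j hj
    simpa [gp] using stX j hj
  · intro j hj
    simpa [gp] using sA j hj
  · intro j hj
    show stk K (W (ci j (!x j))) (gp ps (j, !x j, true)) = []
    have : gp ps (j, !x j, true) = ps j (!x j) + 1 := by simp [gp]
    rw [this, stp j]
    exact sA j hj
  · intro s _ h2
    show (lo K (W (ci s.1 s.2.1)) (gp ps s)).card ≤ 2
    rw [← h2]
    exact Finset.card_le_card (lo_mono (hgpN s))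
  · intro s t hst _ _ h
    show (lo K (W (ci s.1 s.2.1)) (gp ps s)).card ≤ (lo K (W (ci t.1 t.2.1)) (gp ps t)).card
    rw [hst]
    exact Finset.card_le_card (lo_mono h)
  · intro j hj
    show (lo K (W (ci j (x j))) (gp ps (j, x j, true))).card =
      (lo K (W (ci j (x j))) (gp ps (j, x j, false))).card + 1
    have a1 : gp ps (j, x j, true) = ps j (x j) + 1 := by simp [gp]
    have a2 : gp ps (j, x j, false) = ps j (x j) := by simp [gp]
    rw [a1, a2, lo_succ_o (hX j hj) (sX j hj),
      Finset.card_insert_of_notMem (by rw [mem_lo]; simp)]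
  · intro j hj
    show (lo K (W (ci j (!x j))) (gp ps (j, !x j, true))).card =
      (lo K (W (ci j (!x j))) (gp ps (j, !x j, false))).card
    have a1 : gp ps (j, !x j, true) = ps j (!x j) + 1 := by simp [gp]
    have a2 : gp ps (j, !x j, false) = ps j (!x j) := by simp [gp]
    rw [a1, a2, lo_succ_n (by rw [hA j]; simp)]
  · intro s _ h
    show (lo K (W' (ci s.1 s.2.1)) (gp ps s)).card = (lo K (W (ci s.1 s.2.1)) (gp ps s)).card
    rw [hout _ h]
  · intro i s hi hcs _
    show (((lo K (W' (ci s.1 s.2.1)) (gp ps s)).card : ℕ) : ℤ) =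
      (((lo K (W (ci s.1 s.2.1)) (gp ps s)).card : ℕ) : ℤ) + _ - _
    have h := rm i hi (gp ps s)
    have a1 : gp ps (i, !x i, false) = ps i (!x i) := by simp [gp]
    have a2 : gp ps (σ i, x (σ i), false) = ps (σ i) (x (σ i)) := by simp [gp]
    rw [a1, a2, hcs]
    exact h
  · -- the gap function is constant on the generators
    intro s t hst
    have key : F s = F t := by
      cases hst with
      | win j =>
        show fv _ _ _ (gp ps (j, false, false)) = fv _ _ _ (gp ps (j, true, false))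
        have a1 : gp ps (j, false, false) = ps j false := by simp [gp]
        have a2 : gp ps (j, true, false) = ps j true := by simp [gp]
        rw [a1, a2]
        exact hwin j
      | un j =>
        show fv _ _ _ (gp ps (j, !x j, false)) = fv _ _ _ (gp ps (j, !x j, true))
        have a1 : gp ps (j, !x j, false) = ps j (!x j) := by simp [gp]
        have a2 : gp ps (j, !x j, true) = ps j (!x j) + 1 := by simp [gp]
        rw [a1, a2, fv, if_pos (hA j), add_zero]
      | cell s t h1 h2 h3 h4 h5 =>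
        show fv _ _ _ (gp ps s) = fv _ _ _ (gp ps t)
        rw [fmain _ _ h2 (hgpN s) h3, fmain _ _ (by rw [← h1]; exact h2) (hgpN t) h4]
        have h5' : (lo K (W (ci s.1 s.2.1)) (gp ps s)).card % 2 =
            (lo K (W (ci t.1 t.2.1)) (gp ps t)).card % 2 := h5
        rw [zmod_nsmul _ _ h5', h1]
    show decide (F s = 1) = decide (F t = 1)
    rw [key]
  · intro j hj
    have a1 : gp ps (j, x j, false) = ps j (x j) := by simp [gp]
    have : F (j, x j, false) = 1 := by
      show fv _ _ _ (gp ps (j, x j, false)) = 1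
      rw [a1]
      exact f1 j hj
    simp [this]
  · intro j hj
    have a1 : gp ps (j, x j, true) = ps j (x j) + 1 := by simp [gp]
    have : F (j, x j, true) = 0 := by
      show fv _ _ _ (gp ps (j, x j, true)) = 0
      rw [a1, fv, if_neg (by rw [hX j hj]; simp)]
      have e1 := f1 j hj
      have e2 := v1 j hj
      show fv (W (ci j (x j))) (v (ci j (x j))) (f0 (ci j (x j))) (ps j (x j)) +
        v (ci j (x j)) (ps j (x j)) = 0
      rw [e1, e2]
      exact CharTwo.add_self_eq_zero _
    simp [this]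

end Pool.Agent.MP42.PD
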