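import Pool.Agent.MP42.PD.Wk
import Pool.Agent.MP42.PD.KeyC
import Pool.Agent.MP42.PD.RegW

/-!
# Project MP42, bounded stack: the improvement step (owner helper67)

`improve`: if a labelling has a port with the gap value `1`, then there is a better `x'` in the domain.
-/

set_option autoImplicit false
set_option linter.unusedSectionVars false

namespace Pool.Agent.MP42.PD.WS

variable {J C : Type*} [Fintype J] [Fintype C] {S : WS J C} {x x' : J → Bool} {K : ℕ}

/-- words agree away from the changed slots -/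
lemma W_congr' {J0 : J → Prop} {C0 : C → Prop} (hx0 : ∀ j, J0 j → x' j = !x j)
    (hx1 : ∀ j, ¬ J0 j → x' j = x j)
    (hO : ∀ c, ¬ S.Rt c → ¬ C0 c → (S.Od x' c ↔ S.Od x c)) {z : C} {i : ℕ}
    (h1 : ∀ j c, J0 j → S.ci j c = z → S.ps j c ≠ i)
    (h2 : ∀ c, ¬ S.Rt c → C0 c → S.par c = z → S.pc c ≠ i) :
    S.W x' z i = S.W x z i := by
  classical
  unfold W
  have e1 : (∃ j, S.ci j (x' j) = z ∧ S.ps j (x' j) = i) ↔
      (∃ j, S.ci j (x j) = z ∧ S.ps j (x j) = i) := by
    constructor
    · rintro ⟨j, h3, h4⟩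
      by_cases hj : J0 j
      · exact absurd h4 (h1 j _ hj h3)
      · rw [hx1 j hj] at h3 h4
        exact ⟨j, h3, h4⟩
    · rintro ⟨j, h3, h4⟩
      by_cases hj : J0 j
      · exact absurd h4 (h1 j _ hj h3)
      · exact ⟨j, by rw [hx1 j hj]; exact h3, by rw [hx1 j hj]; exact h4⟩
  have e2 : (∃ c, ¬ S.Rt c ∧ S.par c = z ∧ S.pc c = i ∧ S.Od x' c) ↔
      (∃ c, ¬ S.Rt c ∧ S.par c = z ∧ S.pc c = i ∧ S.Od x c) := by
    constructor
    · rintro ⟨c, h3, h4, h5, h6⟩
      exact ⟨c, h3, h4, h5, (hO c h3 fun h => h2 c h3 h h4 h5).1 h6⟩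
    · rintro ⟨c, h3, h4, h5, h6⟩
      exact ⟨c, h3, h4, h5, (hO c h3 fun h => h2 c h3 h h4 h5).2 h6⟩
  simp only [e1, e2]

section flip

variable {Z : Finset (J ⊕ C)} {nx : J ⊕ C → J ⊕ C} (hb : Set.BijOn nx Z Z)
  (hk : ∀ e ∈ Z, Kind S K x e (nx e)) (hr : ∀ c, Sum.inr c ∈ Z → ¬ S.Rt c)
  (hx0 : ∀ j, Sum.inl j ∈ Z → x' j = !x j) (hx1 : ∀ j, Sum.inl j ∉ Z → x' j = x j)

include hb hk hr hx0 hx1

open Classical in
/-- ports in the subtrees after the flip -/
lemma P_flip (c : C) : S.P x' c = S.P x c + (if Sum.inr c ∈ Z then 1 else 0) := by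
  have h1 := sum_cycle Z nx hb (fun j => S.ci j (x j)) (fun j => S.ci j (!x j)) S.par (S.tau c)
    (fun e he => Kind.loc (hk e he))
  have h2 : S.P x' c - S.P x c = ∑ j ∈ Z.preimage Sum.inl Sum.inl_injective.injOn,
      (S.tau c (S.ci j (!x j)) - S.tau c (S.ci j (x j))) := by
    unfold P
    rw [← Finset.sum_sub_distrib]
    symm
    rw [Finset.sum_congr rfl (g := fun j => S.tau c (S.ci j (x' j)) - S.tau c (S.ci j (x j)))]
    · apply Finset.sum_subset (Finset.subset_univ _)
      intro j _ hj
      have hj' : Sum.inl j ∉ Z := fun h => hj (by simpa using h)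
      rw [hx1 j hj', sub_self]
    · intro j hj
      have hj' : Sum.inl j ∈ Z := by simpa using hj
      rw [hx0 j hj']
  have h3 : ∑ c' ∈ Z.preimage Sum.inr Sum.inr_injective.injOn, (S.tau c c' - S.tau c (S.par c')) =
      if Sum.inr c ∈ Z then 1 else 0 := by
    rw [Finset.sum_congr rfl (g := fun c' => if c' = c then (1 : ℤ) else 0)]
    · rw [Finset.sum_ite_eq' (Z.preimage Sum.inr Sum.inr_injective.injOn) c (fun _ => (1 : ℤ))]
      simp only [Finset.mem_preimage]
    · intro c' hc'
      have hc'' : Sum.inr c' ∈ Z := by simpa using hc'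
      exact S.tau_par c (S.ne_r (hr c' hc''))
  rw [h3] at h1
  linarith

lemma Od_flip (c : C) (hc : Sum.inr c ∉ Z) : S.Od x' c ↔ S.Od x c := by
  classical
  unfold Od
  rw [P_flip hb hk hr hx0 hx1 c, if_neg hc, add_zero]

lemma Od_flip' (c : C) (hc : Sum.inr c ∈ Z) : S.Od x' c ↔ ¬ S.Od x c := by
  classical
  unfold Od
  rw [P_flip hb hk hr hx0 hx1 c, if_pos hc]
  rw [show S.P x c + 1 + S.Y c = S.P x c + S.Y c + 1 by ring]
  rw [← Int.not_even_iff_odd, ← Int.not_even_iff_odd, Int.even_add_one]

open Classical in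
/-- the passes at a circle -/
lemma passes (z : C) : MP42.Stk.Passes K (fun i => oc (S.W x z i)) (fun i => oc (S.W x' z i))
    (S.len z) (Z.filter fun e => S.ent x e = z) (S.en x)
    (fun e => Sum.elim (fun j => some (S.ps j (x j))) (fun _ => none) (nx e)) := by
  have hJ : ∀ {j}, Sum.inl j ∈ Z → x' j = !x j := fun {j} => hx0 j
  refine ⟨?_, ?_, ?_, ?_, ?_, ?_, ?_⟩
  · -- eL
    intro e he
    obtain ⟨h1, h2⟩ := Finset.mem_filter.1 he
    rcases e with j | c
    · rw [← h2]; exact S.ps_lt j _
    · rw [← h2]; exact S.pc_lt c (hr c h1)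
  · -- xL
    intro e he X hX
    obtain ⟨h1, h2⟩ := Finset.mem_filter.1 he
    have h3 := hk e h1
    rcases hn : nx e with j' | c'
    · rw [hn] at hX h3
      simp only [Sum.elim_inl, Option.some.injEq] at hX
      rw [← hX, ← h2, ← h3.1]
      exact S.ps_lt _ _
    · rw [hn] at hX; simp at hX
  · -- ei
    intro e he e' he' hee
    obtain ⟨h1, h2⟩ := Finset.mem_filter.1 he
    obtain ⟨h1', h2'⟩ := Finset.mem_filter.1 he'
    rcases e with j | c <;> rcases e' with j' | c'
    · have := S.ps_inj _ _ _ _ (h2.trans h2'.symm) hee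
      rw [this.1]
    · exact absurd hee (S.ps_pc _ _ _ (hr c' h1') (h2.trans h2'.symm))
    · exact absurd hee.symm (S.ps_pc _ _ _ (hr c h1) (h2'.trans h2.symm))
    · rw [S.pc_inj _ _ (hr c h1) (hr c' h1') (h2.trans h2'.symm) hee]
  · -- xi
    intro e he e' he' hee
    obtain ⟨h1, h2⟩ := Finset.mem_filter.1 he
    obtain ⟨h1', h2'⟩ := Finset.mem_filter.1 he'
    apply hb.injOn (Finset.mem_coe.2 h1) (Finset.mem_coe.2 h1')
    have h3 := hk e h1
    have h3' := hk e' h1'
    rcases hn : nx e with j | c <;> rcases hn' : nx e' with j' | c'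
    · rw [hn] at hee h3; rw [hn'] at hee h3'
      simp only [Sum.elim_inl, Option.some.injEq] at hee
      have := S.ps_inj _ _ _ _ (h3.1.trans (h2.trans (h2'.symm.trans h3'.1.symm))) hee
      rw [this.1]
    · rw [hn, hn'] at hee; simp at hee
    · rw [hn, hn'] at hee; simp at hee
    · rw [hn] at h3; rw [hn'] at h3'
      rw [h3.1, h3'.1, h2, h2']
  · -- ent
    intro e he
    obtain ⟨h1, h2⟩ := Finset.mem_filter.1 he
    rcases e with j | c
    · left
      have h3 : S.W x z (S.ps j (!x j)) = .z := by rw [← h2]; exact W_un j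
      have h4 : S.W x' z (S.ps j (!x j)) = .o := by
        rw [← h2]
        have := W_port (S := S) (x := x') j
        rw [hJ h1] at this
        exact this
      constructor
      · show oc (S.W x z (S.ps j (!x j))) = none
        rw [h3]; rfl
      · show oc (S.W x' z (S.ps j (!x j))) ≠ none
        rw [h4]; simp [oc]
    · have hc := hr c h1
      have h5 := Od_flip' hb hk hr hx0 hx1 c h1
      by_cases ho : S.Od x c
      · right
        have h3 : S.W x z (S.pc c) = .u := by rw [← h2]; exact W_odd hc ho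
        have h4 : S.W x' z (S.pc c) = .z := by
          rw [← h2]; exact W_even hc (fun h => (h5.1 h) ho)
        constructor
        · show oc (S.W x z (S.pc c)) = some true
          rw [h3]; rfl
        · show oc (S.W x' z (S.pc c)) = none
          rw [h4]; rfl
      · left
        have h3 : S.W x z (S.pc c) = .z := by rw [← h2]; exact W_even hc ho
        have h4 : S.W x' z (S.pc c) = .u := by
          rw [← h2]; exact W_odd hc (h5.2 ho)
        constructor
        · show oc (S.W x z (S.pc c)) = none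
          rw [h3]; rfl
        · show oc (S.W x' z (S.pc c)) ≠ none
          rw [h4]; simp [oc]
  · -- ex
    intro e he X hX
    obtain ⟨h1, h2⟩ := Finset.mem_filter.1 he
    have h3 := hk e h1
    have h4 := hb.mapsTo (Finset.mem_coe.2 h1)
    rcases hn : nx e with j' | c'
    · rw [hn] at hX h3 h4
      simp only [Sum.elim_inl, Option.some.injEq] at hX
      subst hX
      obtain ⟨h5, h6⟩ := h3
      rw [h2] at h5 h6
      have h7 : S.W x z (S.ps j' (x j')) = .o := by rw [← h5]; exact W_port j'
      have h8 : S.W x' z (S.ps j' (x j')) = .z := by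
        rw [← h5]
        have := W_un (S := S) (x := x') j'
        rw [hJ (Finset.mem_coe.1 h4), Bool.not_not] at this
        exact this
      refine ⟨?_, ?_, ?_⟩
      · show oc (S.W x z (S.ps j' (x j'))) = some false
        rw [h7]; rfl
      · show oc (S.W x' z (S.ps j' (x j'))) = none
        rw [h8]; rfl
      · rcases h6 with ⟨F, l, h9, h10, h11⟩ | ⟨-, h9, -⟩
        · left
          by_cases hK : 1 ≤ K
          · exact cov_of hK h9 h10 h11
          · exfalso
            have := stk_len (K := K) (w := S.W x z) (S.ps j' (x j'))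
            rw [h9] at this
            simp at this
            omega
        · by_cases hK : 1 ≤ K
          · right
            rw [(bridge hK _).1, (mem_lo.1 h9).2.2]; rfl
          · right
            have hK0 : K = 0 := by omega
            subst hK0
            have : ∀ t, MP42.Stk.ht 0 (fun i => oc (S.W x z i)) t = 0 := by
              intro t
              induction t with
              | zero => rfl
              | succ t ih =>
                rcases hw : (fun i => oc (S.W x z i)) t with _ | _ | _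
                · rw [(MP42.Stk.none_step hw).1, ih]
                · rw [(MP42.Stk.port_zero hw ih).1]
                · rw [(MP42.Stk.unit_ge hw (by omega)).1, ih]
            exact this _
    · rw [hn] at hX; simp at hX
  · -- oth
    intro t ht h
    show oc (S.W x' z t) = oc (S.W x z t)
    congr 1
    refine W_congr' (J0 := fun j => Sum.inl j ∈ Z) (C0 := fun c => Sum.inr c ∈ Z) hx0 hx1
      (fun c _ hc => Od_flip hb hk hr hx0 hx1 c hc) ?_ ?_
    · intro j c hj h1 h2
      by_cases hc : c = x j
      · -- an exit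
        subst hc
        obtain ⟨e, he, hee⟩ := hb.surjOn (Finset.mem_coe.2 hj)
        have he' := Finset.mem_coe.1 he
        have h3 := hk e he'
        rw [hee] at h3
        have h4 : e ∈ Z.filter fun e => S.ent x e = z :=
          Finset.mem_filter.2 ⟨he', h3.1.symm.trans h1⟩
        refine (h e h4).2 ?_
        show Sum.elim (fun j => some (S.ps j (x j))) (fun _ => none) (nx e) = some t
        rw [hee]
        simp [h2]
      · have hc' : c = !x j := by
          cases c <;> cases hxj : x j <;> simp_all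
        subst hc'
        have h4 : (Sum.inl j : J ⊕ C) ∈ Z.filter fun e => S.ent x e = z :=
          Finset.mem_filter.2 ⟨hj, h1⟩
        exact (h _ h4).1 h2
    · intro c _ hc h1 h2
      have h4 : (Sum.inr c : J ⊕ C) ∈ Z.filter fun e => S.ent x e = z :=
        Finset.mem_filter.2 ⟨hc, h1⟩
      exact (h _ h4).1 h2

/-- **the new ports are in the domain** -/
theorem D_flip (hK : 1 ≤ K) {cap : C → ℕ} (hcap : ∀ z, ¬ S.Rt z → cap z = 2)
    (hD : S.D K cap x) : S.D K cap x' := by
  classical
  intro z
  have p := passes hb hk hr hx0 hx1 z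
  have e1 : MP42.Stk.lo K (fun i => oc (S.W x z i)) (S.len z) = S.lam K x z := (bridge hK _).2
  have e2 : MP42.Stk.lo K (fun i => oc (S.W x' z i)) (S.len z) = S.lam K x' z := (bridge hK _).2
  by_cases hn : ∀ e ∈ Z.filter fun e => S.ent x e = z,
      Sum.elim (fun j => some (S.ps j (x j))) (fun _ => none) (nx e) ≠ (none : Option ℕ)
  · have h1 := MP42.Stk.lo_port p hK hn
    rw [e1, e2] at h1
    exact h1.trans (hD z)
  · push Not at hn
    obtain ⟨e, he, hen⟩ := hn
    obtain ⟨h1, h2⟩ := Finset.mem_filter.1 he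
    have h3 := hk e h1
    have h4 := hb.mapsTo (Finset.mem_coe.2 h1)
    rcases hnx : nx e with j' | c'
    · rw [hnx] at hen; simp at hen
    · rw [hnx] at h3 h4
      obtain ⟨h5, h6⟩ := h3
      rw [h2] at h5 h6
      subst h5
      have h7 : ¬ S.Rt c' := hr _ (Finset.mem_coe.1 h4)
      rcases h6 with ⟨G, h6, h8⟩ | h6
      · have h9 := MP42.Stk.lo_behind p hK (by
          intro e' he' hne
          have h10 : nx e' = nx e := by
            obtain ⟨h1', h2'⟩ := Finset.mem_filter.1 he'
            have h3' := hk e' h1'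
            rcases hnx' : nx e' with j | c
            · rw [hnx'] at hne; simp at hne
            · rw [hnx'] at h3'
              rw [hnx, h3'.1, h2']
          have h11 : e' = e := hb.injOn (Finset.mem_coe.2 (Finset.mem_filter.1 he').1)
            (Finset.mem_coe.2 h1) h10
          rw [h11]
          exact behind_of hK h6 h8)
        rw [e1, e2] at h9
        exact h9.trans (hD _)
      · have h9 := MP42.Stk.lo_climb p hK
        rw [e1, e2] at h9
        rw [hcap _ h7]
        omega

end flip

/-- second key (to be maximal) -/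
noncomputable def KC (S : WS J C) (K : ℕ) (x : J → Bool) : ℕ :=
  ∑ z, ∑ t ∈ Finset.range (S.len z + 1), clo K (S.W x z) t

/-- third key (to be minimal) -/
noncomputable def KR (S : WS J C) (K : ℕ) (x : J → Bool) : ℕ := reg K S.ci S.ps S.len x (S.W x)

/-- **improvement** -/
theorem improve (A : S.Vl K x) (hK : 3 ≤ K) {cap : C → ℕ} (hcap : ∀ z, ¬ S.Rt z → cap z = 2)
    (hcap2 : ∀ z, cap z ≤ 2) (hD : S.D K cap x)
    (hne : ∃ j, A.F (S.ci j (x j)) (S.ps j (x j)) = 1) :
    ∃ x', S.D K cap x' ∧ (S.SP x < S.SP x' ∨ (S.SP x = S.SP x' ∧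
      (S.KC K x < S.KC K x' ∨ (S.KC K x ≤ S.KC K x' ∧ S.KR K x' < S.KR K x)))) := by
  classical
  have hK1 : 1 ≤ K := by omega
  obtain ⟨Z, nx, hZ, hG, hb, hk⟩ := exists_cycle A hK (fun z => (hD z).trans (hcap2 z)) hne
  have hr : ∀ c, Sum.inr c ∈ Z → ¬ S.Rt c := fun c hc => (hG _ hc).1
  set x' : J → Bool := fun j => if Sum.inl j ∈ Z then !x j else x j with hx'
  have hx0 : ∀ j, Sum.inl j ∈ Z → x' j = !x j := fun j hj => if_pos hj
  have hx1 : ∀ j, Sum.inl j ∉ Z → x' j = x j := fun j hj => if_neg hj
  have hD' : S.D K cap x' := D_flip hb hk hr hx0 hx1 hK1 hcap hD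
  have hSP : S.SP x' = S.SP x + ∑ c : C, (if Sum.inr c ∈ Z then (1 : ℤ) else 0) := by
    unfold SP
    rw [← Finset.sum_add_distrib]
    refine Finset.sum_congr rfl fun c _ => ?_
    rw [P_flip hb hk hr hx0 hx1 c]
  refine ⟨x', hD', ?_⟩
  by_cases hcl : ∃ c, Sum.inr c ∈ Z
  · left
    obtain ⟨c, hc⟩ := hcl
    rw [hSP]
    have : (0 : ℤ) < ∑ c : C, (if Sum.inr c ∈ Z then (1 : ℤ) else 0) := by
      apply Finset.sum_pos'
      · intro c _; split_ifs <;> norm_num
      · exact ⟨c, Finset.mem_univ _, by rw [if_pos hc]; norm_num⟩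
    linarith
  · right
    have hcl' : ∀ c, Sum.inr c ∉ Z := fun c hc => hcl ⟨c, hc⟩
    refine ⟨?_, ?_⟩
    · rw [hSP, Finset.sum_eq_zero, add_zero]
      intro c _; rw [if_neg (hcl' c)]
    have hu : ∀ z, ∀ i < S.len z, S.W x' z i = .u ↔ S.W x z i = .u := by
      intro z i _
      have e : ∀ y : J → Bool, S.W y z i = .u ↔ (∃ j, S.cy j = z ∧ S.py j = i) ∨
          (∃ c, ¬ S.Rt c ∧ S.par c = z ∧ S.pc c = i ∧ S.Od y c) := by
        intro y
        constructor
        · intro h
          unfold W at h
          split_ifs at h with h1 h2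
          exact h2
        · rintro (⟨j, rfl, rfl⟩ | ⟨c, h1, rfl, rfl, h2⟩)
          · exact W_y j
          · exact W_odd h1 h2
      rw [e, e]
      have : ∀ c, (S.Od x' c ↔ S.Od x c) := fun c => Od_flip hb hk hr hx0 hx1 c (hcl' c)
      simp only [this]
    have hle : ∀ z, ∑ t ∈ Finset.range (S.len z + 1), clo K (S.W x z) t ≤
        ∑ t ∈ Finset.range (S.len z + 1), clo K (S.W x' z) t := fun z =>
      sum_clo_le hK1 (passes hb hk hr hx0 hx1 z) (hu z)
    by_cases hst : ∃ j, Sum.inl j ∈ Z ∧ stk K (S.W x (S.ci j (x j))) (S.ps j (x j)) ≠ []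
    · left
      obtain ⟨j, hj, hj'⟩ := hst
      obtain ⟨e, he, hee⟩ := hb.surjOn (Finset.mem_coe.2 hj)
      have he' := Finset.mem_coe.1 he
      have h3 := hk e he'
      rw [hee] at h3
      refine Finset.sum_lt_sum (fun z _ => hle z) ⟨S.ci j (x j), Finset.mem_univ _, ?_⟩
      refine sum_clo_lt hK1 (passes hb hk hr hx0 hx1 _) (hu _) (j := e)
        (Finset.mem_filter.2 ⟨he', h3.1.symm⟩) (X := S.ps j (x j)) ?_ hj'
      show Sum.elim (fun j => some (S.ps j (x j))) (fun _ => none) (nx e) = some _
      rw [hee]; rfl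
    · right
      push Not at hst
      refine ⟨Finset.sum_le_sum fun z _ => hle z, ?_⟩
      -- the exits are left overs
      have hex : ∀ i, Sum.inl i ∈ Z → ∃ j, nx (.inl i) = .inl j ∧ Sum.inl j ∈ Z ∧
          S.ci j (x j) = S.ci i (!x i) ∧ S.lam K x (S.ci i (!x i)) = 2 ∧
          S.ps j (x j) ∈ lo K (S.W x (S.ci i (!x i))) (S.len (S.ci i (!x i))) ∧
          stk K (S.W x (S.ci i (!x i))) (S.ps i (!x i)) = [] := by
        intro i hi
        have h3 := hk _ hi
        have h4 := Finset.mem_coe.1 (hb.mapsTo (Finset.mem_coe.2 hi))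
        rcases hn : nx (.inl i) with j | c
        · rw [hn] at h3 h4
          obtain ⟨h5, h6⟩ := h3
          have h5' : S.ci j (x j) = S.ci i (!x i) := h5
          rcases h6 with ⟨F, l, h6, -⟩ | ⟨h6, h7, h8⟩
          · exfalso
            have h9 := hst j h4
            rw [h5'] at h9
            have h6' : stk K (S.W x (S.ci i (!x i))) (S.ps j (x j)) = F :: l := h6
            rw [h9] at h6'
            cases h6'
          · exact ⟨j, rfl, h4, h5', h6, h7, h8 i rfl⟩
        · rw [hn] at h4
          exact absurd h4 (hcl' c)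
      have hgf : ∀ j, Sum.inl j ∈ Z →
          fv (S.W x (S.ci j (x j))) (A.v (S.ci j (x j))) (A.f0 (S.ci j (x j))) (S.ps j (x j)) = 1 :=
        fun j hj => hG _ hj
      let σ : J → J := fun i => if h : Sum.inl i ∈ Z then (hex i h).choose else i
      have hσ : ∀ i (h : Sum.inl i ∈ Z), nx (.inl i) = .inl (σ i) ∧ Sum.inl (σ i) ∈ Z ∧
          S.ci (σ i) (x (σ i)) = S.ci i (!x i) ∧ S.lam K x (S.ci i (!x i)) = 2 ∧
          S.ps (σ i) (x (σ i)) ∈ lo K (S.W x (S.ci i (!x i))) (S.len (S.ci i (!x i))) ∧
          stk K (S.W x (S.ci i (!x i))) (S.ps i (!x i)) = [] := by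
        intro i h
        have : σ i = (hex i h).choose := dif_pos h
        rw [this]
        exact (hex i h).choose_spec
      have hsur : ∀ j, Sum.inl j ∈ Z → ∃ i, Sum.inl i ∈ Z ∧ σ i = j := by
        intro j hj
        obtain ⟨e, he, hee⟩ := hb.surjOn (Finset.mem_coe.2 hj)
        have he' := Finset.mem_coe.1 he
        rcases e with i | c
        · refine ⟨i, he', ?_⟩
          have h3 := (hσ i he').1
          rw [hee] at h3
          exact (Sum.inl_injective h3).symm
        · exact absurd he' (hcl' c)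
      -- data of an exit
      have hdat : ∀ j, Sum.inl j ∈ Z → S.lam K x (S.ci j (x j)) = 2 ∧
          S.ps j (x j) ∈ lo K (S.W x (S.ci j (x j))) (S.len (S.ci j (x j))) := by
        intro j hj
        obtain ⟨i, hi, rfl⟩ := hsur j hj
        obtain ⟨-, -, h3, h4, h5, -⟩ := hσ i hi
        rw [h3]; exact ⟨h4, h5⟩
      have hinj : ∀ i j, Sum.inl i ∈ Z → Sum.inl j ∈ Z → S.ci i (x i) = S.ci j (x j) → i = j := by
        intro i j hi hj hij
        obtain ⟨a1, a2⟩ := hdat i hi
        obtain ⟨b1, b2⟩ := hdat j hj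
        have hok := A.ok (S.ci i (x i))
        have hB : A.vB (S.ci i (x i)) = 1 := by
          rw [← hok.two a1 _ a2]
          exact A.nb i (hgf i hi)
        have e1 : ExitL K (S.W x (S.ci i (x i))) (S.len (S.ci i (x i)))
            (fv (S.W x (S.ci i (x i))) (A.v (S.ci i (x i))) (A.f0 (S.ci i (x i))))
            (S.ps i (x i)) := ⟨a1, a2, hgf i hi⟩
        have e2 : ExitL K (S.W x (S.ci i (x i))) (S.len (S.ci i (x i)))
            (fv (S.W x (S.ci i (x i))) (A.v (S.ci i (x i))) (A.f0 (S.ci i (x i))))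
            (S.ps j (x j)) := by
          refine ⟨a1, ?_, ?_⟩
          · rw [hij]; exact b2
          · rw [hij]; exact hgf j hj
        have e3 := exitL_unique hok (by omega) hB e1 e2
        exact (S.ps_inj _ _ _ _ hij e3).1
      have hne' : ∃ j, Sum.inl j ∈ Z := by
        obtain ⟨e, he⟩ := hZ
        rcases e with j | c
        · exact ⟨j, he⟩
        · exact absurd he (hcl' c)
      refine reg_drop (W := S.W x) (W' := S.W x') (by omega) (fun j => Sum.inl j ∈ Z) hne' σ
        (fun j hj => (hσ j hj).2.1) hsur (fun j hj => (hσ j hj).2.2.1.symm) hinj hx0 hx1 S.ps_lt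
        (fun j _ => W_port j) ?_ (fun j => W_un j) ?_ ?_ hst
        (fun j hj => (hσ j hj).2.2.2.2.2) (fun j hj => (hdat j hj).1) A.v A.vA A.vB A.f0
        (fun z _ => A.ok z) A.win hgf (fun j hj => A.nb j (hgf j hj))
      · intro j hj
        have := W_un (S := S) (x := x') j
        rw [hx0 j hj, Bool.not_not] at this
        exact this
      · intro j hj
        have := W_port (S := S) (x := x') j
        rw [hx0 j hj] at this
        exact this
      · intro z t h
        refine W_congr' (J0 := fun j => Sum.inl j ∈ Z) (C0 := fun c => Sum.inr c ∈ Z) hx0 hx1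
          (fun c _ hc => Od_flip hb hk hr hx0 hx1 c hc) ?_ ?_
        · intro j c hj h1 h2
          obtain ⟨h3, h4⟩ := h j hj
          by_cases hc : c = x j
          · subst hc; exact h3 ⟨h1, h2⟩
          · have hc' : c = !x j := by
              cases c <;> cases hxj : x j <;> simp_all
            subst hc'
            exact h4 ⟨h1, h2⟩
        · intro c _ hc _ _
          exact absurd hc (hcl' c)

end Pool.Agent.MP42.PD.WS
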