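import Pool.Agent.MP42.PD.Mk

/-!
# Bounded stack structures: the optimum of three keys (owner helper30)
-/

set_option autoImplicit false
set_option linter.unusedSectionVars false

namespace Pool.Agent.MP42.PD

open Pool.Agent.MP42.U

/-- an optimum of three keys: first key maximal, then the second maximal, then the third minimal -/
theorem exists_opt {X : Type*} [Finite X] (p q r : X → ℕ) (D : X → Prop) (hne : ∃ x, D x) :
    ∃ x, D x ∧ ∀ x', D x' → ¬ (p x < p x' ∨ p x = p x' ∧ (q x < q x' ∨ q x = q x' ∧ r x' < r x)) := by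
  classical
  have hfin : ({x | D x}).Finite := Set.toFinite _
  obtain ⟨m, hm⟩ : ∃ m, ∀ x, p x ≤ m := by
    obtain ⟨m, hm⟩ := (Set.finite_range p).bddAbove
    exact ⟨m, fun x => hm ⟨x, rfl⟩⟩
  -- lexicographic value
  let key : X → ℕ ×ₗ ℕ ×ₗ ℕᵒᵈ := fun x => toLex (p x, toLex (q x, OrderDual.toDual (r x)))
  obtain ⟨x, hx, hmax⟩ := Set.exists_max_image ({x | D x}) key hfin hne
  refine ⟨x, hx, fun x' hx' h => ?_⟩
  have h1 := hmax x' hx'
  refine absurd h1 (not_le.2 ?_)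
  rw [Prod.Lex.toLex_lt_toLex]
  rcases h with h | ⟨h, h2 | ⟨h2, h3⟩⟩
  · exact Or.inl h
  · refine Or.inr ⟨h, ?_⟩
    rw [Prod.Lex.toLex_lt_toLex]
    exact Or.inl h2
  · refine Or.inr ⟨h, ?_⟩
    rw [Prod.Lex.toLex_lt_toLex]
    exact Or.inr ⟨h2, h3⟩

variable {C J α : Type*} [LinearOrder α] [Fintype J] [Fintype C]

/-- **a connected structure exists** if every disconnected one can be improved -/
theorem Lv.exists_conn_of (L : Lv C J α) (K : ℕ) (keyN : (J → Bool) → ℕ)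
    (hstep : ∀ x, L.Dom K x → ¬ L.Conn K x → ∃ x', L.Dom K x' ∧
      (L.keyP x < L.keyP x' ∨ L.keyP x = L.keyP x' ∧
        (L.keyC K x < L.keyC K x' ∨ L.keyC K x = L.keyC K x' ∧ keyN x' < keyN x)))
    (hne : ∃ x, L.Dom K x) : ∃ x, L.Dom K x ∧ L.Conn K x := by
  obtain ⟨x, hx, h⟩ := exists_opt L.keyP (L.keyC K) keyN (L.Dom K) hne
  refine ⟨x, hx, ?_⟩
  by_contra hc
  obtain ⟨x', h1, h2⟩ := hstep x hx hc
  exact h x' h1 h2

end Pool.Agent.MP42.PD
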