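import Pool.Agent.MP42.PD.LW
import Pool.Agent.MP42.PD.Imp
import Pool.Agent.MP42.PD.Opt

/-!
# Project MP42, bounded stack: the improvement step of a level (owner helper92)
-/

set_option autoImplicit false
set_option linter.unusedSectionVars false

namespace Pool.Agent.MP42.PD

open Pool.Agent.MP42.U

namespace Lv

variable {C J α : Type*} [LinearOrder α] [Fintype J] [Fintype C] (L : Lv C J α) (K : ℕ)

/-- the labelling which is needed for the step -/
def HasVl (x : J → Bool) : Prop :=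
  ∃ A : L.ws.Vl K x, ∃ j, A.F (L.ws.ci j (x j)) (L.ws.ps j (x j)) = 1

variable {L K}

lemma ws_KC (x : J → Bool) : L.ws.KC K x = L.keyC K x := by
  rw [ws_keyC]
  rfl

/-- **the improvement step** -/
theorem step (hK : 3 ≤ K) {x : J → Bool} (hD : L.Dom K x) (hV : L.HasVl K x) :
    ∃ x', L.Dom K x' ∧ (L.keyP x < L.keyP x' ∨ L.keyP x = L.keyP x' ∧
        (L.keyC K x < L.keyC K x' ∨ L.keyC K x = L.keyC K x' ∧ L.ws.KR K x' < L.ws.KR K x)) := by
  obtain ⟨A, hne⟩ := hV
  obtain ⟨x', h1, h2⟩ := WS.improve A hK (cap := L.cp) (fun z hz => L.cp_n z hz)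
    (fun z => by
      by_cases hz : L.sp z
      · have := L.cp_sp z hz; omega
      · rw [L.cp_n z hz]) ((ws_D K).2 hD) hne
  refine ⟨x', (ws_D K).1 h1, ?_⟩
  rw [ws_SP, ws_SP] at h2
  rw [ws_KC, ws_KC] at h2
  rcases h2 with h2 | ⟨h2, h3⟩
  · exact Or.inl (by exact_mod_cast h2)
  · refine Or.inr ⟨by exact_mod_cast h2, ?_⟩
    rcases h3 with h3 | ⟨h3, h4⟩
    · exact Or.inl h3
    · rcases h3.lt_or_eq with h5 | h5
      · exact Or.inl h5
      · exact Or.inr ⟨h5, h4⟩

/-- **a connected structure exists** -/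
theorem exists_conn (hK : 3 ≤ K) (hne : ∃ x, L.Dom K x)
    (hV : ∀ x, L.Dom K x → ¬ L.Conn K x → L.HasVl K x) : ∃ x, L.Dom K x ∧ L.Conn K x :=
  L.exists_conn_of K (fun x => L.ws.KR K x) (fun x hD hC => step hK hD (hV x hD hC)) hne

end Lv

end Pool.Agent.MP42.PD
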