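import Pool.Agent.MP42.PD.WS
import Pool.Agent.MP42.PD.Defs

/-!
# Project MP42, bounded stack: word level consequences of `WOk` and `WRd` (owner helper67)
-/

set_option autoImplicit false
set_option linter.unusedSectionVars false

namespace Pool.Agent.MP42.PD

variable {K : ℕ} {w : ℕ → Lt} {n : ℕ} {v : ℕ → ZMod 2} {a e : ZMod 2}

/-- `VOK` from `WOk` -/
theorem WOk.vok (h : WOk K w n v a e) (hK : 2 ≤ K) : VOK K w n v a e := by
  have key : ∀ t, ∀ F l, stk K w t = F :: l → (stk K w t).length = K →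
      ∃ G l', stk K w t = F :: G :: l' := by
    intro t F l hs hl
    rcases l with _ | ⟨G, l⟩
    · rw [hs] at hl; simp at hl; omega
    · exact ⟨G, l, hs⟩
  refine ⟨?_, ?_, ?_, h.pend, ?_, ?_⟩
  · intro t ht hw F l hs
    have := h.port t ht hw
    unfold tv at this
    rw [hs] at this
    exact this.symm
  · intro t ht hw hl F l hs
    obtain ⟨G, l', hs'⟩ := key t F l hs hl
    exact (h.unit t ht hw F G l' hs' (by omega)).1.symm
  · intro t ht hw hl F F' l hs
    exact (h.unit t ht hw F F' l hs (by omega)).2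
  · intro hc Z hZ
    obtain ⟨h1, h2, h3⟩ := mem_lo.1 hZ
    have := h.port Z h1 h2
    unfold tv at this
    rw [h3] at this
    rw [this]
    exact h.base hc
  · intro _ Z hZ
    obtain ⟨h1, h2, h3⟩ := mem_lo.1 hZ
    have := h.port Z h1 h2
    unfold tv at this
    rw [h3] at this
    exact this

/-- `RO` from the attachments of a rider -/
theorem WOk.ro (h : WOk K w n v a e) (hK : 3 ≤ K) (hlo : (lo K w n).card ≤ 2) {t : ℕ}
    {κ : Option ℕ} (hL : Lam K w n t κ) (h1 : cv v e κ = 1) : WS.RO K w n v a e t := by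
  rcases hL with rfl | ⟨⟨hl, X, hX1, hX2, hX3, hX4⟩, rfl⟩ | ⟨rfl, hc, -⟩
  · rcases hs : stk K w t with _ | ⟨F, l⟩
    · rw [hs] at h1
      by_cases hc : (lo K w n).card ≤ 1
      · exact Or.inr (Or.inl ⟨hs, hc, by rw [← h.base hc]; exact h1⟩)
      · exact Or.inr (Or.inr (Or.inl ⟨by omega, h1⟩))
    · rw [hs] at h1
      exact Or.inl ⟨F, l, hs, h1⟩
  · rcases hs : stk K w t with _ | ⟨F₁, _ | ⟨F₂, _ | ⟨F₃, l⟩⟩⟩
    · rw [hs] at hl; simp at hl; omega
    · rw [hs] at hl; simp at hl; omega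
    · rw [hs] at hl; simp at hl; omega
    · rw [hs] at h1
      have h2 := (h.unit X hX2 hX3 F₁ F₂ (F₃ :: l) (by rw [hX4, hs]) (by rw [hX4]; exact hl)).2
      exact Or.inr (Or.inr (Or.inr ⟨F₁, F₂, F₃, l, hs, h2, h1⟩))
  · exact Or.inr (Or.inr (Or.inl ⟨hc, h1⟩))

end Pool.Agent.MP42.PD
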