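import Pool.Agent.MP42.PD.GapM
import Pool.Agent.MP42.PD.Main3
import Pool.Agent.MP42.PD.RoL

/-!
# A level whose class graph is not connected has a good labelling (owner helper18)

`hasVl`: the hypothesis of the improvement step of `Main3`.
-/

set_option autoImplicit false
set_option linter.unusedSectionVars false

namespace Pool.Agent.MP42.PD

open Pool.Agent.MP42.U

namespace Lv

variable {C J α : Type*} [LinearOrder α] [Fintype J] [Fintype C] (L : Lv C J α) {K : ℕ}
  {x : J → Bool} {V : α ⊕ C → ZMod 2} {E : C → ZMod 2}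

/-! ### Adding a constant -/

lemma WOk.add {w : ℕ → Lt} {n : ℕ} {v : ℕ → ZMod 2} {a e : ZMod 2} (h : WOk K w n v a e)
    (k : ZMod 2) : WOk K w n (fun t => v t + k) (a + k) (e + k) where
  port t ht hw := by
    have := h.port t ht hw
    unfold tv at this ⊢
    rw [this]
    cases (stk K w t).head? <;> rfl
  unit t ht hw F G l hs hl := by
    obtain ⟨h1, h2⟩ := h.unit t ht hw F G l hs hl
    exact ⟨by rw [h1], by rw [h2]⟩
  pend i hi := by rw [h.pend i hi]
  base hc := by rw [h.base hc]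

lemma cv_add (v : ℕ → ZMod 2) (e k : ZMod 2) (κ : Option ℕ) :
    cv (fun t => v t + k) (e + k) κ = cv v e κ + k := by
  cases κ <;> rfl

lemma vv_add {z : C} {t : ℕ} (ht : t < L.n z) (k : ZMod 2) :
    L.vv (fun i => V i + k) z t = L.vv V z t + k := by
  obtain ⟨i, hi, -⟩ := L.it_of_lt ht
  rw [L.vv_it hi, L.vv_it hi]

theorem Sol.add (h : L.Sol K x V E) (k : ZMod 2) :
    L.Sol K x (fun i => V i + k) (fun z => E z + k) where
  star j := by
    show V _ + k = V _ + k
    rw [h.star j]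
  ok z := by
    refine (WOk.add (h.ok z) k).congr (v' := L.vv (fun i => V i + k) z) fun t ht _ => ?_
    exact (L.vv_add ht k).symm
  sp z hz := by
    show V _ + k = V _ + k
    rw [h.sp z hz]
  rider z t ht hr := by
    obtain ⟨κ, h1, h2⟩ := h.rider z t ht hr
    refine ⟨κ, h1, ?_⟩
    rw [L.vv_add ht k, h2, ← cv_add]
    rcases κ with _ | F
    · rfl
    · have hF : F ∈ stk K (L.w x z) t := by
        rcases h1 with h1 | ⟨-, h1⟩ | ⟨h1, -⟩
        · exact List.mem_of_mem_head? h1.symm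
        · exact List.mem_of_getElem? h1.symm
        · cases h1
      exact (L.vv_add ((stk_lt hF).trans ht) k).symm

/-! ### Maximal labellings -/

open Classical in
/-- the number of values `1` -/
noncomputable def ones (V : α ⊕ C → ZMod 2) : ℕ :=
  (Finset.univ.filter fun j => V (.inl (L.S.y j)) = 1).card +
    (Finset.univ.filter fun z : C => V (.inr z) = 1).card

lemma ones_le (V : α ⊕ C → ZMod 2) : L.ones V ≤ Fintype.card J + Fintype.card C := by
  classical
  unfold ones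
  exact Nat.add_le_add (Finset.card_le_univ _) (Finset.card_le_univ _)

/-- a labelling with root value `0`, with values `1`, closed -/
theorem exists_max (hK : 3 ≤ K) (hD : L.Dom K x) (hC : ¬ L.Conn K x) :
    ∃ V E, L.Sol K x V E ∧ V (.inr L.Ct.r) = 0 ∧
      ((∃ j, V (.inl (L.S.y j)) = 1) ∨ ∃ z, V (.inr z) = 1) ∧
      ∀ j, L.cV x V (.inl (L.S.y j)) = 1 → V (.inl (L.S.y j)) = 1 := by
  classical
  -- one labelling with values `1`
  obtain ⟨V0, E0, hS0, hr0, h10⟩ : ∃ V E, L.Sol K x V E ∧ V (.inr L.Ct.r) = 0 ∧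
      ((∃ j, V (.inl (L.S.y j)) = 1) ∨ ∃ z, V (.inr z) = 1) := by
    unfold Conn at hC
    push Not at hC
    obtain ⟨V, E, hS, h⟩ := hC
    refine ⟨_, _, Sol.add L hS (V (.inr L.Ct.r)), z2 _, ?_⟩
    have key : ∀ a b : ZMod 2, a ≠ b → a + b = 1 := by decide
    by_cases h1 : ∀ j, V (.inl (L.S.y j)) = V (.inr L.Ct.r)
    · obtain ⟨z, hz⟩ := h h1
      exact Or.inr ⟨z, key _ _ hz⟩
    · push Not at h1
      obtain ⟨j, hj⟩ := h1
      exact Or.inl ⟨j, key _ _ hj⟩
  let P : ℕ → Prop := fun m => ∃ V E, L.Sol K x V E ∧ V (.inr L.Ct.r) = 0 ∧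
    ((∃ j, V (.inl (L.S.y j)) = 1) ∨ ∃ z, V (.inr z) = 1) ∧ L.ones V = m
  have hP0 : P (L.ones V0) := ⟨V0, E0, hS0, hr0, h10, rfl⟩
  obtain ⟨V, E, hS, hr, h1, hm⟩ : P (Nat.findGreatest P (Fintype.card J + Fintype.card C)) :=
    Nat.findGreatest_spec (L.ones_le V0) hP0
  refine ⟨V, E, hS, hr, h1, ?_⟩
  have hW := L.closS hK hS hD
  have hWr : L.cV x V (.inr L.Ct.r) = 0 := by
    show or2 _ _ = 0
    rw [hr, L.bs_r hS.toSol0]
    rfl
  have hle : ∀ i, V i = 1 → L.cV x V i = 1 := by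
    intro i hi
    rcases i with p | c
    · show or2 _ _ = 1
      rw [hi, or2_one]
    · show or2 _ _ = 1
      rw [hi, or2_one]
  have hPW : P (L.ones (L.cV x V)) := ⟨_, _, hW, hWr,
    h1.imp (fun ⟨j, hj⟩ => ⟨j, hle _ hj⟩) (fun ⟨z, hz⟩ => ⟨z, hle _ hz⟩), rfl⟩
  have hge : L.ones (L.cV x V) ≤ L.ones V := by
    rw [hm]
    exact Nat.le_findGreatest (L.ones_le _) hPW
  have hs1 : (Finset.univ.filter fun j => V (.inl (L.S.y j)) = 1) ⊆
      (Finset.univ.filter fun j => L.cV x V (.inl (L.S.y j)) = 1) := by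
    intro j hj
    simp only [Finset.mem_filter, Finset.mem_univ, true_and] at hj ⊢
    exact hle _ hj
  have hs2 : (Finset.univ.filter fun z : C => V (.inr z) = 1) ⊆
      (Finset.univ.filter fun z : C => L.cV x V (.inr z) = 1) := by
    intro j hj
    simp only [Finset.mem_filter, Finset.mem_univ, true_and] at hj ⊢
    exact hle _ hj
  unfold ones at hge
  have hc1 := Finset.card_le_card hs1
  have hc2 := Finset.card_le_card hs2
  have heq := Finset.eq_of_subset_of_card_le hs1 (by omega)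
  intro j hj
  have : j ∈ (Finset.univ.filter fun j => V (.inl (L.S.y j)) = 1) := by
    rw [heq]
    simp [hj]
  simpa using this

/-! ### The valuation -/

/-- **the valuation of a maximal labelling** -/
noncomputable def vl (hK : 3 ≤ K) (hD : L.Dom K x) (hS : L.Sol K x V E)
    (hr : V (.inr L.Ct.r) = 0)
    (hmax : ∀ j, L.cV x V (.inl (L.S.y j)) = 1 → V (.inl (L.S.y j)) = 1) : L.ws.Vl K x where
  v z := L.vv V z
  vA z := V (.inr z)
  vB := E
  f0 z := L.bs x V z
  ok z := by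
    rw [ws_W']
    exact (hS.ok z).vok (by omega)
  root z hz := ⟨L.bs_sp hS.toSol0 hz, by rw [hS.sp z hz, hr]⟩
  win j := by
    rw [ws_W', ws_W']
    exact L.win (by omega) hS.toSol0 hD (it_ix (mem_lg j false)) (it_ix (mem_lg j true))
  odd c hc hodd := by
    have hit := it_ix (mem_ch hc)
    refine ⟨L.vv_it hit, ?_⟩
    rw [ws_W']
    exact L.bs_odd (by omega) hS.toSol0 hD hit
  even c hc hev := by
    have hit := it_ix (mem_ch hc)
    have hev' : ¬ Odd (L.cnt x c) := fun h => hev ((ws_Od c).2 h)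
    rw [ws_W']
    refine ⟨L.bs_even (by omega) hS.toSol0 hD hit hev', fun hA _ => ?_⟩
    obtain ⟨κ, h1, h2⟩ := hS.rider _ _ (ix_lt (mem_ch hc)) ⟨c, hit, hev'⟩
    rw [L.vv_it hit, hA] at h2
    exact (hS.ok _).ro hK (L.lo_card hD _) h1 h2.symm
  nb j hj := by
    rw [ws_W'] at hj
    have hit := it_ix (mem_lg (L := L) j (x j))
    have h1 := L.cV_item (by omega) hS.toSol0 hD hit (fun p hp => by
      rw [← Sum.inl.inj hp]
      exact port_mem L.S x j)
    have h2 : L.cV x V (.inl (L.lg j (x j))) = 1 := by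
      rw [h1]
      unfold clv
      have hj : fv (L.w x (L.Ct.pt (L.lg j (x j)))) (L.vv V (L.Ct.pt (L.lg j (x j))))
        (L.bs x V (L.Ct.pt (L.lg j (x j))))
        (L.ix (L.Ct.pt (L.lg j (x j))) (.inl (L.lg j (x j)))) = 1 := hj
      rw [hj, or2_one']
    have h3 := (L.clos0 (by omega) hS.toSol0 hD).star j
    have h4 := hmax j (h3.trans h2)
    show L.vv V (L.Ct.pt (L.lg j (x j)))
      (L.ix (L.Ct.pt (L.lg j (x j))) (.inl (L.lg j (x j)))) = 1
    rw [L.vv_it hit, ← h4]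
    exact (hS.star j).symm

/-! ### A port with gap value `1` before it -/

/-- an exit which is a port -/
lemma port_of_o {z : C} {X : ℕ} (hX : L.w x z X = .o) (hf : L.gv x V z X = 1) :
    ∃ j, L.gv x V (L.Ct.pt (L.lg j (x j)))
      (L.ix (L.Ct.pt (L.lg j (x j))) (.inl (L.lg j (x j)))) = 1 := by
  have h1 : L.ws.W x z X = .o := by rw [ws_W']; exact hX
  obtain ⟨j, h2, h3⟩ := WS.W_o h1
  refine ⟨j, ?_⟩
  have h2 : L.Ct.pt (L.lg j (x j)) = z := h2
  have h3 : L.ix (L.Ct.pt (L.lg j (x j))) (.inl (L.lg j (x j))) = X := h3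
  rw [h3, h2]
  exact hf

/-- from a gap or a rider one reaches a port -/
theorem exists_port (hK : 3 ≤ K) (hD : L.Dom K x) (hS : L.Sol K x V E)
    (hr : V (.inr L.Ct.r) = 0) : ∀ (m : ℕ) (z : C), L.Ct.dep z ≤ m →
    ((∃ t ≤ L.n z, L.gv x V z t = 1) ∨ (∃ t ≤ L.n z, L.gv x V z t = 0 ∧
      WS.RO K (L.w x z) (L.n z) (L.vv V z) (V (.inr z)) (E z) t)) →
    ∃ j, L.gv x V (L.Ct.pt (L.lg j (x j)))
      (L.ix (L.Ct.pt (L.lg j (x j))) (.inl (L.lg j (x j)))) = 1 := by
  intro m
  induction m using Nat.strong_induction_on with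
  | _ m ih =>
    intro z hz hgap
    have hv := (hS.ok z).vok (by omega : 2 ≤ K)
    have h2 := L.lo_card hD z
    -- exits
    have key : (∃ X, L.w x z X = .o ∧ L.gv x V z X = 1) ∨ (L.bs x V z = 1 ∨ V (.inr z) = 1) := by
      rcases hgap with ⟨t, ht, h1⟩ | ⟨t, ht, h0, hro⟩
      · rcases exit_gap hv hK h2 ht h1 with ⟨X, h⟩ | h | ⟨-, Z, h⟩
        · exact Or.inl ⟨X, h.port, h.one⟩
        · exact Or.inr h.2
        · exact Or.inl ⟨Z, (mem_lo.1 h.2.1).2.1, h.2.2⟩
      · rcases exit_rider' hv hK h2 ht h0 hro with ⟨X, h⟩ | h | ⟨Z, h⟩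
        · exact Or.inl ⟨X, h.port, h.one⟩
        · exact Or.inr h.2
        · exact Or.inl ⟨Z, (mem_lo.1 h.2.1).2.1, h.2.2⟩
    rcases key with ⟨X, h1, h3⟩ | hcl
    · exact L.port_of_o h1 h3
    · -- climb
      have hsp : ¬ L.sp z := by
        intro hsp
        rw [L.bs_sp hS.toSol0 hsp, hS.sp z hsp, hr] at hcl
        rcases hcl with h | h <;> exact absurd h (by decide)
      have hzr : z ≠ L.Ct.r := fun h => hsp (by rw [h]; exact L.sp_r)
      have hit := it_ix (mem_ch hsp)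
      have hlt := ix_lt (mem_ch hsp)
      have hdep := L.Ct.dep_par z hzr
      refine ih (L.Ct.dep (L.Ct.par z)) (by omega) (L.Ct.par z) le_rfl ?_
      have hb := L.bs_odd (by omega : 2 ≤ K) hS.toSol0 hD hit
      by_cases hodd : Odd (L.cnt x z)
      · left
        have hstep : L.gv x V (L.Ct.par z) (L.ix (L.Ct.par z) (.inr z) + 1) =
            L.gv x V (L.Ct.par z) (L.ix (L.Ct.par z) (.inr z)) + V (.inr z) := by
          unfold gv
          rw [fv, L.vv_it hit, if_neg]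
          rw [L.w_it hit]
          exact fun h => (L.lt_inr_z.1 h) hodd
        rcases hcl with hcl | hcl
        · rcases hb with hb | hb
          · exact ⟨_, hlt.le, by rw [← hb]; exact hcl⟩
          · exact ⟨_, hlt, by rw [← hb]; exact hcl⟩
        · rcases zor (L.gv x V (L.Ct.par z) (L.ix (L.Ct.par z) (.inr z))) with h0 | h1
          · exact ⟨_, hlt, by rw [hstep, h0, hcl]; rfl⟩
          · exact ⟨_, hlt.le, h1⟩
      · have hb := L.bs_even (by omega : 2 ≤ K) hS.toSol0 hD hit hodd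
        rcases zor (L.gv x V (L.Ct.par z) (L.ix (L.Ct.par z) (.inr z))) with h0 | h1
        · right
          rw [hb, h0] at hcl
          have hV : V (.inr z) = 1 := hcl.resolve_left (by decide)
          obtain ⟨κ, h3, h4⟩ := hS.rider _ _ hlt ⟨z, hit, hodd⟩
          rw [L.vv_it hit, hV] at h4
          exact ⟨_, hlt.le, h0, (hS.ok _).ro hK (L.lo_card hD _) h3 h4.symm⟩
        · exact Or.inl ⟨_, hlt.le, h1⟩

/-- a letter with value `1` -/
lemma gap_of_letter {z : C} {t : ℕ} (ht : t < L.n z) (hw : L.w x z t ≠ .z)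
    (hv : L.vv V z t = 1) : ∃ t ≤ L.n z, L.gv x V z t = 1 := by
  have hstep : L.gv x V z (t + 1) = L.gv x V z t + 1 := by
    unfold gv
    rw [fv, if_neg hw, hv]
  rcases zor (L.gv x V z t) with h0 | h1
  · exact ⟨t + 1, ht, by rw [hstep, h0]; rfl⟩
  · exact ⟨t, ht.le, h1⟩

/-- **a level whose class graph is not connected has a good labelling** -/
theorem hasVl (hK : 3 ≤ K) (hD : L.Dom K x) (hC : ¬ L.Conn K x) : L.HasVl K x := by
  obtain ⟨V, E, hS, hr, h1, hmax⟩ := L.exists_max hK hD hC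
  refine ⟨L.vl hK hD hS hr hmax, ?_⟩
  have key : ∃ j, L.gv x V (L.Ct.pt (L.lg j (x j)))
      (L.ix (L.Ct.pt (L.lg j (x j))) (.inl (L.lg j (x j)))) = 1 := by
    rcases h1 with ⟨j, hj⟩ | ⟨z, hz⟩
    · have hit := it_ix (mem_y (L := L) j)
      refine L.exists_port hK hD hS hr _ (L.Ct.pt (L.S.y j)) le_rfl
        (Or.inl (L.gap_of_letter (ix_lt (mem_y j)) ?_ (by rw [L.vv_it hit]; exact hj)))
      rw [L.w_it hit]
      exact fun h => (L.lt_inl_z.1 h) (y_mem L.S x j)
    · have hsp : ¬ L.sp z := by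
        intro hsp
        rw [hS.sp z hsp, hr] at hz
        exact absurd hz (by decide)
      have hit := it_ix (mem_ch hsp)
      have hlt := ix_lt (mem_ch hsp)
      refine L.exists_port hK hD hS hr _ (L.Ct.par z) le_rfl ?_
      by_cases hodd : Odd (L.cnt x z)
      · refine Or.inl (L.gap_of_letter hlt ?_ (by rw [L.vv_it hit]; exact hz))
        rw [L.w_it hit]
        exact fun h => (L.lt_inr_z.1 h) hodd
      · rcases zor (L.gv x V (L.Ct.par z) (L.ix (L.Ct.par z) (.inr z))) with h0 | h1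
        · right
          obtain ⟨κ, h3, h4⟩ := hS.rider _ _ hlt ⟨z, hit, hodd⟩
          rw [L.vv_it hit, hz] at h4
          exact ⟨_, hlt.le, h0, (hS.ok _).ro hK (L.lo_card hD _) h3 h4.symm⟩
        · exact Or.inl ⟨_, hlt.le, h1⟩
  obtain ⟨j, hj⟩ := key
  refine ⟨j, ?_⟩
  show fv (L.ws.W x (L.ws.ci j (x j))) _ _ _ = 1
  rw [ws_W']
  exact hj

/-- **a connected structure exists** -/
theorem exists_dom_conn (hK : 3 ≤ K) (hne : ∃ x, L.Dom K x) : ∃ x, L.Dom K x ∧ L.Conn K x :=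
  exists_conn (L := L) hK hne fun _ hD hC => L.hasVl hK hD hC

end Lv

end Pool.Agent.MP42.PD
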