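import Pool.Agent.MP42.PD.RegAbs

/-!
# The third key: rotations lower the number of regions (owner helper1)

Gaps at the port corners: `(j, c, r)`; `c = true`: corner `b` of the star `j`, `c = false`: corner
`a`; `r = false`: the gap read before the corner, `r = true`: the gap read behind it.  `x j = c`: the
port of `j` is at the corner `c`.  `e s`: the stack is empty at `s`; `M s`: number of left overs
before `s`; `lam z`: number of left overs of the circle `z`.
-/

set_option autoImplicit false

namespace Pool.Agent.MP42.PD

variable {J C : Type*}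

/-- gaps at the port corners -/
abbrev PG (J : Type*) := J × Bool × Bool

/-- the generators of the regions -/
inductive RR (x : J → Bool) (ci : J → Bool → C) (e : PG J → Prop) (M : PG J → ℕ) (lam : C → ℕ) :
    PG J → PG J → Prop
  /-- between the corners `a` and `b` of a star -/
  | win (j : J) : RR x ci e M lam (j, false, false) (j, true, false)
  /-- the unused corner -/
  | un (j : J) : RR x ci e M lam (j, !x j, false) (j, !x j, true)
  /-- the two main cells of a circle with two left overs -/
  | cell (s t : PG J) : ci s.1 s.2.1 = ci t.1 t.2.1 → lam (ci s.1 s.2.1) = 2 → e s → e t →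
      M s % 2 = M t % 2 → RR x ci e M lam s t

variable [Finite J]

open Classical in
/-- **rotations lower the number of regions** -/
theorem rot_drop (ci : J → Bool → C) (pos : PG J → ℕ) (e : PG J → Prop) (lam : C → ℕ)
    (x : J → Bool) (M M' : PG J → ℕ) (J0 : J → Prop) (hne : ∃ j, J0 j) (σ : J → J)
    (hσ : ∀ j, J0 j → J0 (σ j)) (hs : ∀ j, J0 j → ∃ i, J0 i ∧ σ i = j)
    (hc : ∀ j, J0 j → ci j (!x j) = ci (σ j) (x (σ j)))
    (hl : ∀ j, J0 j → lam (ci j (x j)) = 2)
    (pos_t : ∀ j c, pos (j, c, true) = pos (j, c, false) + 1)
    (eX : ∀ j, J0 j → e (j, x j, false)) (eX' : ∀ j, J0 j → e (j, x j, true))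
    (eA : ∀ j, J0 j → e (j, !x j, false)) (eA' : ∀ j, J0 j → e (j, !x j, true))
    (hM2 : ∀ s : PG J, e s → lam (ci s.1 s.2.1) = 2 → M s ≤ 2)
    (mono : ∀ s t : PG J, ci s.1 s.2.1 = ci t.1 t.2.1 → e s → e t → pos s ≤ pos t → M s ≤ M t)
    (hMX : ∀ j, J0 j → M (j, x j, true) = M (j, x j, false) + 1)
    (hMA : ∀ j, J0 j → M (j, !x j, true) = M (j, !x j, false))
    (hM1 : ∀ s : PG J, e s → (∀ j, J0 j → ci s.1 s.2.1 ≠ ci j (x j)) → M' s = M s)
    (hM' : ∀ i (s : PG J), J0 i → ci s.1 s.2.1 = ci (σ i) (x (σ i)) → e s →
      (M' s : ℤ) = M s + (if pos (i, !x i, false) < pos s then 1 else 0)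
        - (if pos (σ i, x (σ i), false) < pos s then 1 else 0))
    (f : PG J → Bool) (hf : ∀ s t, RR x ci e M lam s t → f s = f t)
    (f1 : ∀ j, J0 j → f (j, x j, false) = true) (f0 : ∀ j, J0 j → f (j, x j, true) = false) :
    ncl (RR (fun j => if J0 j then !x j else x j) ci e M' lam) < ncl (RR x ci e M lam) := by
  set x' : J → Bool := fun j => if J0 j then !x j else x j with hx'
  set R := RR x ci e M lam with hR
  set R' := RR x' ci e M' lam with hR'
  -- the window between the two corners of a star
  have win : ∀ j, Relation.EqvGen R (j, x j, false) (j, !x j, false) := by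
    intro j
    cases h : x j
    · exact .rel _ _ (RR.win j)
    · exact (Relation.EqvGen.rel _ _ (RR.win j)).symm
  have win' : ∀ j, Relation.EqvGen R' (j, !x j, false) (j, x j, false) := by
    intro j
    cases h : x j
    · exact (Relation.EqvGen.rel _ _ (RR.win j)).symm
    · exact .rel _ _ (RR.win j)
  have hfe : ∀ s t, Relation.EqvGen R s t → f s = f t := by
    intro s t h
    induction h with
    | rel s t h => exact hf s t h
    | refl s => rfl
    | symm s t _ ih => exact ih.symm
    | trans s t u _ _ i1 i2 => exact i1.trans i2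
  have fA : ∀ j, J0 j → f (j, !x j, false) = true := fun j hj => (hfe _ _ (win j)).symm.trans (f1 j hj)
  -- the set of gaps
  set G : PG J → Prop := fun s => ∃ j, J0 j ∧ Relation.EqvGen R s (j, !x j, false) with hGd
  have hG : ∀ s t, R s t → (G s ↔ G t) := by
    intro s t h
    constructor
    · rintro ⟨j, hj, h1⟩
      exact ⟨j, hj, ((Relation.EqvGen.rel _ _ h).symm _ _).trans _ _ _ h1⟩
    · rintro ⟨j, hj, h1⟩
      exact ⟨j, hj, (Relation.EqvGen.rel _ _ h).trans _ _ _ h1⟩
  have hGf : ∀ s, G s → f s = true := by
    rintro s ⟨j, hj, h⟩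
    rw [hfe _ _ h, fA j hj]
  have hGX : ∀ j, J0 j → G (j, x j, false) := fun j hj => ⟨j, hj, win j⟩
  -- far side of the exit
  have hFar : ∀ j, J0 j → ¬ G (j, x j, true) := by
    intro j hj h
    have := hGf _ h
    rw [f0 j hj] at this
    exact Bool.false_ne_true this
  have unX : ∀ j, J0 j → Relation.EqvGen R' (j, x j, false) (j, x j, true) := by
    intro j hj
    have h := RR.un (x := x') (ci := ci) (e := e) (M := M') (lam := lam) j
    have h2 : (!x' j) = x j := by simp [hx', hj]
    rw [h2] at h
    exact .rel _ _ h
  have pX : ∀ j, J0 j → ∃ t, ¬ G t ∧ Relation.EqvGen R' (j, x j, false) t :=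
    fun j hj => ⟨_, hFar j hj, unX j hj⟩
  have pA : ∀ j, J0 j → ∃ t, ¬ G t ∧ Relation.EqvGen R' (j, !x j, false) t :=
    fun j hj => ⟨_, hFar j hj, (win' j).trans _ _ _ (unX j hj)⟩
  -- the main cells of the circles of the rotation
  have fpar : ∀ j (s : PG J), J0 j → ci s.1 s.2.1 = ci j (x j) → e s →
      (M s % 2 = M (j, x j, false) % 2 → f s = true) ∧
      (M s % 2 ≠ M (j, x j, false) % 2 → f s = false) := by
    intro j s hj hcs hes
    constructor
    · intro h
      rw [← f1 j hj]
      exact hf _ _ (RR.cell s (j, x j, false) hcs (by rw [hcs]; exact hl j hj) hes (eX j hj) h)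
    · intro h
      rw [← f0 j hj]
      refine hf _ _ (RR.cell s (j, x j, true) hcs (by rw [hcs]; exact hl j hj) hes (eX' j hj) ?_)
      rw [hMX j hj]
      omega
  have hcA : ∀ i, J0 i → ci i (!x i) = ci (σ i) (x (σ i)) := hc
  -- parity of the entry
  have parA : ∀ i, J0 i → M (i, !x i, false) % 2 = M (σ i, x (σ i), false) % 2 := by
    intro i hi
    by_contra h
    have := (fpar (σ i) (i, !x i, false) (hσ i hi) (hcA i hi) (eA i hi)).2 h
    rw [fA i hi] at this
    exact Bool.false_ne_true this.symm
  have pA' : ∀ i, J0 i → ∃ t, ¬ G t ∧ Relation.EqvGen R' (i, !x i, true) t := by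
    intro i hi
    obtain ⟨t, h1, h2⟩ := pX (σ i) (hσ i hi)
    refine ⟨t, h1, Relation.EqvGen.trans _ _ _ (.rel _ _ ?_) h2⟩
    refine RR.cell (i, !x i, true) (σ i, x (σ i), false) (hcA i hi)
      (by rw [show ci (i, !x i, true).1 (i, !x i, true).2.1 = ci (σ i) (x (σ i)) from hcA i hi]
          exact hl _ (hσ i hi)) (eA' i hi) (eX _ (hσ i hi)) ?_
    have e1 := hM' i (i, !x i, true) hi (hcA i hi) (eA' i hi)
    have e2 := hM' i (σ i, x (σ i), false) hi rfl (eX _ (hσ i hi))
    rw [pos_t] at e1
    have e3 := hMA i hi
    have e4 := parA i hi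
    have e5 : ¬ pos (σ i, x (σ i), false) < pos (σ i, x (σ i), false) := lt_irrefl _
    rw [if_neg e5] at e2
    rw [if_pos (Nat.lt_succ_self _)] at e1
    by_cases h : pos (i, !x i, false) < pos (σ i, x (σ i), false)
    · rw [if_pos h] at e2
      rw [if_neg (by omega)] at e1
      omega
    · rw [if_neg h] at e2
      by_cases h' : pos (σ i, x (σ i), false) < pos (i, !x i, false) + 1
      · rw [if_pos h'] at e1
        omega
      · omega
  have pMain : ∀ j (s : PG J), J0 j → ci s.1 s.2.1 = ci j (x j) → e s →
      ∃ t, ¬ G t ∧ Relation.EqvGen R' s t := by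
    intro j s hj hcs hes
    obtain ⟨i, hi, rfl⟩ := hs j hj
    have e1 := hM' i (i, !x i, false) hi (hcA i hi) (eA i hi)
    have e2 := hM' i (i, !x i, true) hi (hcA i hi) (eA' i hi)
    have e3 := hMA i hi
    rw [pos_t] at e2
    rw [if_pos (Nat.lt_succ_self _)] at e2
    rw [if_neg (lt_irrefl _)] at e1
    by_cases h : M' s % 2 = M' (i, !x i, false) % 2
    · obtain ⟨t, h1, h2⟩ := pA i hi
      refine ⟨t, h1, Relation.EqvGen.trans _ _ _ (.rel _ _ ?_) h2⟩
      exact RR.cell s _ (hcs.trans (hcA i hi).symm) (by rw [hcs]; exact hl _ hj) hes (eA i hi) h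
    · by_cases h' : M' s % 2 = M' (i, !x i, true) % 2
      · obtain ⟨t, h1, h2⟩ := pA' i hi
        refine ⟨t, h1, Relation.EqvGen.trans _ _ _ (.rel _ _ ?_) h2⟩
        exact RR.cell s _ (hcs.trans (hcA i hi).symm) (by rw [hcs]; exact hl _ hj) hes (eA' i hi) h'
      · exfalso
        -- the two corners have opposite parities in the new word, or the exit is at the entry
        by_cases h3 : pos (σ i, x (σ i), false) < pos (i, !x i, false)
        · rw [if_pos h3] at e1
          rw [if_pos (by omega)] at e2
          omega
        · rw [if_neg h3] at e1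
          by_cases h4 : pos (σ i, x (σ i), false) < pos (i, !x i, false) + 1
          · -- the same position: then `M` jumps at an unused corner
            have h5 : pos (σ i, x (σ i), false) = pos (i, !x i, false) := by omega
            have h6 := mono (σ i, x (σ i), true) (i, !x i, true) (hcA i hi).symm
              (eX' _ hj) (eA' i hi) (by rw [pos_t, pos_t, h5])
            have h7 := mono (i, !x i, false) (σ i, x (σ i), false) (hcA i hi)
              (eA i hi) (eX _ hj) (by rw [h5])
            have h8 := mono (σ i, x (σ i), false) (i, !x i, false) (hcA i hi).symm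
              (eX _ hj) (eA i hi) (by rw [h5])
            have h9 := hMX _ hj
            omega
          · rw [if_neg h4] at e2
            omega
  -- the far parity class stays together
  have far : ∀ j (s t : PG J), J0 j → ci s.1 s.2.1 = ci j (x j) → ci t.1 t.2.1 = ci j (x j) →
      e s → e t → f s = false → M s % 2 = M t % 2 → M' s % 2 = M' t % 2 := by
    have key : ∀ j (s t : PG J), J0 j → ci s.1 s.2.1 = ci j (x j) → ci t.1 t.2.1 = ci j (x j) →
        e s → e t → f s = false → M s % 2 = M t % 2 → pos s ≤ pos t → M' s % 2 = M' t % 2 := by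
      intro j s t hj hcs hct hes het hfs hpar hst
      obtain ⟨i, hi, rfl⟩ := hs j hj
      have hs2 := hM2 s hes (by rw [hcs]; exact hl _ hj)
      have ht2 := hM2 t het (by rw [hct]; exact hl _ hj)
      have hm := mono s t (hcs.trans hct.symm) hes het hst
      have hX2 := hM2 (σ i, x (σ i), false) (eX _ hj) (hl _ hj)
      have hA2 := hM2 (i, !x i, false) (eA i hi) (by
        rw [show ci (i, !x i, false).1 (i, !x i, false).2.1 = ci (σ i) (x (σ i)) from hcA i hi]
        exact hl _ hj)
      have e1 := hM' i s hi hcs hes
      have e2 := hM' i t hi hct het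
      have e4 := parA i hi
      have e5 := hMX _ hj
      have e6 := hMA i hi
      have hsX : M s % 2 ≠ M (σ i, x (σ i), false) % 2 := by
        intro h
        have := (fpar _ s hj hcs hes).1 h
        rw [hfs] at this
        exact Bool.false_ne_true this
      -- positions of the entry and of the exit
      have m1 : pos s ≤ pos (σ i, x (σ i), false) → M s ≤ M (σ i, x (σ i), false) :=
        fun h => mono _ _ hcs hes (eX _ hj) h
      have m2 : pos (σ i, x (σ i), false) ≤ pos s → M (σ i, x (σ i), false) ≤ M s :=
        fun h => mono _ _ hcs.symm (eX _ hj) hes h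
      have m3 : pos (σ i, x (σ i), false) + 1 ≤ pos t → M (σ i, x (σ i), false) + 1 ≤ M t := by
        intro h
        have := mono (σ i, x (σ i), true) t hct.symm (eX' _ hj) het (by rw [pos_t]; exact h)
        omega
      have m3' : pos (σ i, x (σ i), false) + 1 ≤ pos s → M (σ i, x (σ i), false) + 1 ≤ M s := by
        intro h
        have := mono (σ i, x (σ i), true) s hcs.symm (eX' _ hj) hes (by rw [pos_t]; exact h)
        omega
      have m4 : pos t ≤ pos (σ i, x (σ i), false) → M t ≤ M (σ i, x (σ i), false) :=
        fun h => mono _ _ hct het (eX _ hj) h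
      have a1 : pos s ≤ pos (i, !x i, false) → M s ≤ M (i, !x i, false) :=
        fun h => mono _ _ (hcs.trans (hcA i hi).symm) hes (eA i hi) h
      have a2 : pos (i, !x i, false) ≤ pos s → M (i, !x i, false) ≤ M s :=
        fun h => mono _ _ ((hcA i hi).trans hcs.symm) (eA i hi) hes h
      have a3 : pos (i, !x i, false) ≤ pos t → M (i, !x i, false) ≤ M t :=
        fun h => mono _ _ ((hcA i hi).trans hct.symm) (eA i hi) het h
      have a4 : pos t ≤ pos (i, !x i, false) → M t ≤ M (i, !x i, false) :=
        fun h => mono _ _ (hct.trans (hcA i hi).symm) het (eA i hi) h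
      by_cases b1 : pos (i, !x i, false) < pos s
      · by_cases b2 : pos (σ i, x (σ i), false) < pos s
        · rw [if_pos b1, if_pos b2] at e1
          rw [if_pos (by omega), if_pos (by omega)] at e2
          omega
        · by_cases b3 : pos (σ i, x (σ i), false) < pos t
          · rw [if_pos b1, if_neg b2] at e1
            rw [if_pos (by omega), if_pos b3] at e2
            have := m1 (by omega)
            have := a2 (by omega)
            have := m3 (by omega)
            omega
          · rw [if_pos b1, if_neg b2] at e1
            rw [if_pos (by omega), if_neg b3] at e2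
            omega
      · by_cases b1' : pos (i, !x i, false) < pos t
        · by_cases b2 : pos (σ i, x (σ i), false) < pos s
          · rw [if_neg b1, if_pos b2] at e1
            rw [if_pos b1', if_pos (by omega)] at e2
            have := a1 (by omega)
            have := a3 (by omega)
            have := m3' (by omega)
            omega
          · by_cases b3 : pos (σ i, x (σ i), false) < pos t
            · rw [if_neg b1, if_neg b2] at e1
              rw [if_pos b1', if_pos b3] at e2
              omega
            · rw [if_neg b1, if_neg b2] at e1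
              rw [if_pos b1', if_neg b3] at e2
              have := a1 (by omega)
              have := a3 (by omega)
              have := m4 (by omega)
              omega
        · by_cases b2 : pos (σ i, x (σ i), false) < pos s
          · rw [if_neg b1, if_pos b2] at e1
            rw [if_neg b1', if_pos (by omega)] at e2
            omega
          · by_cases b3 : pos (σ i, x (σ i), false) < pos t
            · rw [if_neg b1, if_neg b2] at e1
              rw [if_neg b1', if_pos b3] at e2
              have := m1 (by omega)
              have := m3 (by omega)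
              have := a4 (by omega)
              omega
            · rw [if_neg b1, if_neg b2] at e1
              rw [if_neg b1', if_neg b3] at e2
              omega
    intro j s t hj hcs hct hes het hfs hpar
    rcases le_total (pos s) (pos t) with h | h
    · exact key j s t hj hcs hct hes het hfs hpar h
    · refine (key j t s hj hct hcs het hes ?_ hpar.symm h).symm
      rw [← hf s t (RR.cell s t (hcs.trans hct.symm) (by rw [hcs]; exact hl j hj) hes het hpar)]
      exact hfs
  -- conclusion
  obtain ⟨j0, hj0⟩ := hne
  refine card_drop G (j0, x j0, false) (hGX j0 hj0) hG ?_ ?_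
  · intro s t hst hs'
    cases hst with
    | win j => exact .rel _ _ (RR.win j)
    | un j =>
      by_cases hj : J0 j
      · exact absurd ⟨j, hj, .refl _⟩ hs'
      · have h := RR.un (x := x') (ci := ci) (e := e) (M := M') (lam := lam) j
        have h2 : x' j = x j := by simp [hx', hj]
        rw [h2] at h
        exact .rel _ _ h
    | cell s t h1 h2 h3 h4 h5 =>
      by_cases hj : ∃ j, J0 j ∧ ci s.1 s.2.1 = ci j (x j)
      · obtain ⟨j, hj, hcs⟩ := hj
        have hfs : f s = false := by
          by_contra hfs
          have hfs' : f s = true := by simpa using hfs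
          have hp : M s % 2 = M (j, x j, false) % 2 := by
            by_contra hp
            rw [(fpar j s hj hcs h3).2 hp] at hfs'
            exact Bool.false_ne_true hfs'
          refine hs' ((hG s (j, x j, false) (RR.cell s (j, x j, false) hcs h2 h3 (eX j hj) hp)).2
            (hGX j hj))
        exact .rel _ _ (RR.cell s t h1 h2 h3 h4
          (far j s t hj hcs (h1.symm.trans hcs) h3 h4 hfs h5))
      · push Not at hj
        refine .rel _ _ (RR.cell s t h1 h2 h3 h4 ?_)
        rw [hM1 s h3 hj, hM1 t h4 (fun j hj' => by rw [← h1]; exact hj j hj')]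
        exact h5
  · -- every gap of `G` leaves `G`
    have key : ∀ s t, Relation.EqvGen R s t → G s →
        ((∃ u, ¬ G u ∧ Relation.EqvGen R' s u) ↔ (∃ u, ¬ G u ∧ Relation.EqvGen R' t u)) := by
      have hG' : ∀ a b, Relation.EqvGen R a b → (G a ↔ G b) := by
        intro a b hab
        induction hab with
        | rel a b h => exact hG a b h
        | refl a => exact Iff.rfl
        | symm a b _ ih => exact ih.symm
        | trans a b c _ _ i1 i2 => exact i1.trans i2
      have surv : ∀ s t, Relation.EqvGen R' s t →
          ((∃ u, ¬ G u ∧ Relation.EqvGen R' s u) ↔ (∃ u, ¬ G u ∧ Relation.EqvGen R' t u)) := by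
        intro s t h
        constructor
        · rintro ⟨u, hu, h1⟩
          exact ⟨u, hu, (h.symm _ _).trans _ _ _ h1⟩
        · rintro ⟨u, hu, h1⟩
          exact ⟨u, hu, h.trans _ _ _ h1⟩
      intro s t h
      induction h with
      | rel s t hst =>
        intro hs'
        cases hst with
        | win j => exact surv _ _ (.rel _ _ (RR.win j))
        | un j =>
          by_cases hj : J0 j
          · exact ⟨fun _ => pA' j hj, fun _ => pA j hj⟩
          · have h := RR.un (x := x') (ci := ci) (e := e) (M := M') (lam := lam) j
            have h2 : x' j = x j := by simp [hx', hj]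
            rw [h2] at h
            exact surv _ _ (.rel _ _ h)
        | cell s t h1 h2 h3 h4 h5 =>
          by_cases hj : ∃ j, J0 j ∧ ci s.1 s.2.1 = ci j (x j)
          · obtain ⟨j, hj, hcs⟩ := hj
            exact ⟨fun _ => pMain j t hj (h1.symm.trans hcs) h4, fun _ => pMain j s hj hcs h3⟩
          · push Not at hj
            refine surv _ _ (.rel _ _ (RR.cell s t h1 h2 h3 h4 ?_))
            rw [hM1 s h3 hj, hM1 t h4 (fun j hj' => by rw [← h1]; exact hj j hj')]
            exact h5
      | refl s => exact fun _ => Iff.rfl
      | symm s t hst ih => exact fun ht => (ih ((hG' _ _ hst).2 ht)).symm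
      | trans s t u hst _ i1 i2 => exact fun hs' => (i1 hs').trans (i2 ((hG' _ _ hst).1 hs'))
    intro s hs'
    obtain ⟨j, hj, h⟩ := hs'
    exact (key s _ h ⟨j, hj, h⟩).2 (pA j hj)

end Pool.Agent.MP42.PD
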