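import Pool.Agent.MP42.PD.Cyc
import Pool.Agent.MP42.PD.RegRot
import Pool.Agent.MP42.PD.RnRot

/-!
# Project MP42, bounded stack: an abstract word system (owner helper67)

Circles `C` with parents, stars `J` with two port corners `(j, c)` on the circle `ci j c` at the
position `ps j c`, unit corners at `py j` on `cy j`, child slots at `pc c` on `par c`.
`W x z`: the word of the circle `z`.
-/

set_option autoImplicit false
set_option linter.unusedSectionVars false

namespace Pool.Agent.MP42.PD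

/-- abstract word system -/
structure WS (J C : Type*) where
  r : C
  par : C → C
  dep : C → ℕ
  dep_par : ∀ z, z ≠ r → dep (par z) < dep z
  /-- root-like circles: they never climb, and they are no letters -/
  Rt : C → Prop
  rt : Rt r
  len : C → ℕ
  ci : J → Bool → C
  ps : J → Bool → ℕ
  cy : J → C
  py : J → ℕ
  pc : C → ℕ
  ps_lt : ∀ j c, ps j c < len (ci j c)
  py_lt : ∀ j, py j < len (cy j)
  pc_lt : ∀ c, ¬ Rt c → pc c < len (par c)
  ps_inj : ∀ j c j' c', ci j c = ci j' c' → ps j c = ps j' c' → j = j' ∧ c = c'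
  pc_inj : ∀ c c', ¬ Rt c → ¬ Rt c' → par c = par c' → pc c = pc c' → c = c'
  ps_py : ∀ j c j', ci j c = cy j' → ps j c ≠ py j'
  ps_pc : ∀ j c c', ¬ Rt c' → ci j c = par c' → ps j c ≠ pc c'
  py_pc : ∀ j c', ¬ Rt c' → cy j = par c' → py j ≠ pc c'

namespace WS

variable {J C : Type*} [Fintype J] [Fintype C] (S : WS J C)

lemma ne_r {c : C} (h : ¬ S.Rt c) : c ≠ S.r := fun h' => h (by rw [h']; exact S.rt)

/-- one step up -/
def Up (x y : C) : Prop := x ≠ S.r ∧ S.par x = y

/-- `z` is in the subtree of `c` -/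
def T (c z : C) : Prop := Relation.ReflTransGen S.Up z c

lemma T_dep {c z : C} (h : S.T c z) : S.dep c ≤ S.dep z := by
  induction h with
  | refl => exact le_rfl
  | tail _ h ih =>
    have := S.dep_par _ h.1
    rw [h.2] at this
    omega

lemma T_iff {c z : C} (hz : z ≠ S.r) : S.T c z ↔ z = c ∨ S.T c (S.par z) := by
  constructor
  · intro h
    rcases Relation.ReflTransGen.cases_head h with h | ⟨y, h1, h2⟩
    · exact Or.inl h
    · right
      have : S.par z = y := h1.2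
      rw [this]; exact h2
  · rintro (h | h)
    · rw [h]; exact Relation.ReflTransGen.refl
    · exact Relation.ReflTransGen.head ⟨hz, rfl⟩ h

open Classical in
/-- indicator of the subtree -/
noncomputable def tau (c z : C) : ℤ := if S.T c z then 1 else 0

lemma tau_par (c : C) {z : C} (hz : z ≠ S.r) [Decidable (z = c)] :
    S.tau c z - S.tau c (S.par z) = if z = c then 1 else 0 := by
  classical
  unfold tau
  by_cases h : z = c
  · subst h
    have h1 : S.T z z := Relation.ReflTransGen.refl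
    have h2 : ¬ S.T z (S.par z) := fun h => by
      have h3 := S.T_dep h
      have h4 := S.dep_par z hz
      omega
    rw [if_pos h1, if_neg h2, if_pos rfl]; rfl
  · rw [if_neg h]
    have h1 : S.T c z ↔ S.T c (S.par z) := by
      rw [S.T_iff hz]
      exact ⟨fun h' => h'.resolve_left h, Or.inr⟩
    by_cases h2 : S.T c z
    · rw [if_pos h2, if_pos (h1.1 h2)]; rfl
    · rw [if_neg h2, if_neg (fun h3 => h2 (h1.2 h3))]; rfl

/-- ports in the subtree -/
noncomputable def P (x : J → Bool) (c : C) : ℤ := ∑ j, S.tau c (S.ci j (x j))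

/-- unit corners in the subtree -/
noncomputable def Y (c : C) : ℤ := ∑ j, S.tau c (S.cy j)

/-- the own link of `c` is odd -/
def Od (x : J → Bool) (c : C) : Prop := Odd (S.P x c + S.Y c)

open Classical in
/-- the word of a circle -/
noncomputable def W (x : J → Bool) (z : C) (i : ℕ) : Lt :=
  if ∃ j, S.ci j (x j) = z ∧ S.ps j (x j) = i then .o
  else if (∃ j, S.cy j = z ∧ S.py j = i) ∨
    (∃ c, ¬ S.Rt c ∧ S.par c = z ∧ S.pc c = i ∧ S.Od x c) then .u else .z

variable {S} {x : J → Bool}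

lemma W_port (j : J) : S.W x (S.ci j (x j)) (S.ps j (x j)) = .o := by
  classical
  unfold W
  rw [if_pos ⟨j, rfl, rfl⟩]

lemma W_o {z : C} {i : ℕ} (h : S.W x z i = .o) : ∃ j, S.ci j (x j) = z ∧ S.ps j (x j) = i := by
  classical
  unfold W at h
  by_contra hc
  rw [if_neg hc] at h
  split_ifs at h

lemma W_un (j : J) : S.W x (S.ci j (!x j)) (S.ps j (!x j)) = .z := by
  classical
  unfold W
  rw [if_neg, if_neg]
  · rintro (⟨j', h1, h2⟩ | ⟨c, h1, h2, h3, -⟩)
    · exact S.ps_py j _ j' h1.symm h2.symm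
    · exact S.ps_pc j _ c h1 h2.symm h3.symm
  · rintro ⟨j', h1, h2⟩
    obtain ⟨rfl, h3⟩ := S.ps_inj _ _ _ _ h1 h2
    revert h3
    cases x j' <;> simp

lemma W_y (j : J) : S.W x (S.cy j) (S.py j) = .u := by
  classical
  unfold W
  rw [if_neg, if_pos (Or.inl ⟨j, rfl, rfl⟩)]
  rintro ⟨j', h1, h2⟩
  exact S.ps_py _ _ _ h1 h2

lemma W_odd {c : C} (hc : ¬ S.Rt c) (h : S.Od x c) : S.W x (S.par c) (S.pc c) = .u := by
  classical
  unfold W
  rw [if_neg, if_pos (Or.inr ⟨c, hc, rfl, rfl, h⟩)]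
  rintro ⟨j', h1, h2⟩
  exact S.ps_pc _ _ _ hc h1 h2

lemma W_even {c : C} (hc : ¬ S.Rt c) (h : ¬ S.Od x c) : S.W x (S.par c) (S.pc c) = .z := by
  classical
  unfold W
  rw [if_neg, if_neg]
  · rintro (⟨j', h1, h2⟩ | ⟨c', h1, h2, h3, h4⟩)
    · exact S.py_pc j' c hc h1 h2
    · rw [S.pc_inj _ _ h1 hc h2 h3] at h4
      exact h h4
  · rintro ⟨j', h1, h2⟩
    exact S.ps_pc _ _ _ hc h1 h2

open Classical in
/-- words agree away from the changed slots -/
lemma W_congr {J0 : J → Prop} {C0 : C → Prop}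
    (hO : ∀ c, ¬ S.Rt c → (S.Od (fun j => if J0 j then !x j else x j) c ↔
      (if C0 c then ¬ S.Od x c else S.Od x c))) {z : C} {i : ℕ}
    (h1 : ∀ j c, J0 j → S.ci j c = z → S.ps j c ≠ i)
    (h2 : ∀ c, ¬ S.Rt c → C0 c → S.par c = z → S.pc c ≠ i) :
    S.W (fun j => if J0 j then !x j else x j) z i = S.W x z i := by
  unfold W
  have e1 : (∃ j, S.ci j ((fun j => if J0 j then !x j else x j) j) = z ∧
      S.ps j ((fun j => if J0 j then !x j else x j) j) = i) ↔
      (∃ j, S.ci j (x j) = z ∧ S.ps j (x j) = i) := by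
    constructor
    · rintro ⟨j, h3, h4⟩
      by_cases hj : J0 j
      · simp only [if_pos hj] at h3 h4
        exact absurd h4 (h1 j _ hj h3)
      · simp only [if_neg hj] at h3 h4
        exact ⟨j, h3, h4⟩
    · rintro ⟨j, h3, h4⟩
      by_cases hj : J0 j
      · exact absurd h4 (h1 j _ hj h3)
      · exact ⟨j, by simp only [if_neg hj]; exact h3, by simp only [if_neg hj]; exact h4⟩
  have e2 : (∃ c, ¬ S.Rt c ∧ S.par c = z ∧ S.pc c = i ∧
      S.Od (fun j => if J0 j then !x j else x j) c) ↔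
      (∃ c, ¬ S.Rt c ∧ S.par c = z ∧ S.pc c = i ∧ S.Od x c) := by
    constructor
    · rintro ⟨c, h3, h4, h5, h6⟩
      have h7 : ¬ C0 c := fun h => h2 c h3 h h4 h5
      rw [hO c h3, if_neg h7] at h6
      exact ⟨c, h3, h4, h5, h6⟩
    · rintro ⟨c, h3, h4, h5, h6⟩
      have h7 : ¬ C0 c := fun h => h2 c h3 h h4 h5
      refine ⟨c, h3, h4, h5, ?_⟩
      rw [hO c h3, if_neg h7]
      exact h6
  simp only [e1, e2]

/-- the word of `x` as a word of `Stk` -/
noncomputable def V (S : WS J C) (x : J → Bool) (z : C) : ℕ → Option Bool := fun i => oc (S.W x z i)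

/-! ## Keys -/

/-- first key: ports in the subtrees -/
noncomputable def SP (S : WS J C) (x : J → Bool) : ℤ := ∑ c, S.P x c

/-- second key -/
noncomputable def KY (S : WS J C) (K : ℕ) (x : J → Bool) : ℕ :=
  ∑ z, MP42.Stk.key K (S.V x z) (S.len z)

/-- position of a gap at a port corner -/
def pos (S : WS J C) (s : PG J) : ℕ := S.ps s.1 s.2.1 + s.2.2.toNat

/-- main level at a gap -/
def eX (S : WS J C) (K : ℕ) (x : J → Bool) (s : PG J) : Prop :=
  stk K (S.W x (S.ci s.1 s.2.1)) (S.pos s) = []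

/-- left overs before a gap -/
noncomputable def MX (S : WS J C) (K : ℕ) (x : J → Bool) (s : PG J) : ℕ :=
  (lo K (S.W x (S.ci s.1 s.2.1)) (S.pos s)).card

/-- left overs of a circle -/
noncomputable def lam (S : WS J C) (K : ℕ) (x : J → Bool) (z : C) : ℕ :=
  (lo K (S.W x z) (S.len z)).card

/-- third key: regions -/
noncomputable def N0 (S : WS J C) (K : ℕ) (x : J → Bool) : ℕ :=
  ncl (RR x S.ci (S.eX K x) (S.MX K x) (S.lam K x))

/-- the domain -/
def D (S : WS J C) (K : ℕ) (cap : C → ℕ) (x : J → Bool) : Prop := ∀ z, S.lam K x z ≤ cap z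

/-! ## Valuations -/

/-- the value of a rider (helper55's list), if it is `1` -/
def RO (K : ℕ) (w : ℕ → Lt) (N : ℕ) (v : ℕ → ZMod 2) (vA vB : ZMod 2) (t : ℕ) : Prop :=
  (∃ F l, stk K w t = F :: l ∧ v F = 1) ∨
  (stk K w t = [] ∧ (lo K w N).card ≤ 1 ∧ vA = 1) ∨
  ((lo K w N).card = 2 ∧ vB = 1) ∨
  (∃ F₁ F₂ F₃ l, stk K w t = F₁ :: F₂ :: F₃ :: l ∧ v F₁ = v F₂ ∧ v F₃ = 1)

/-- **a labelling of all words** -/
structure Vl (S : WS J C) (K : ℕ) (x : J → Bool) where
  v : C → ℕ → ZMod 2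
  vA : C → ZMod 2
  vB : C → ZMod 2
  f0 : C → ZMod 2
  ok : ∀ z, VOK K (S.W x z) (S.len z) (v z) (vA z) (vB z)
  root : ∀ z, S.Rt z → f0 z = 0 ∧ vA z = 0
  win : ∀ j, fv (S.W x (S.ci j false)) (v (S.ci j false)) (f0 (S.ci j false)) (S.ps j false) =
    fv (S.W x (S.ci j true)) (v (S.ci j true)) (f0 (S.ci j true)) (S.ps j true)
  odd : ∀ c, ¬ S.Rt c → S.Od x c → v (S.par c) (S.pc c) = vA c ∧
    (f0 c = fv (S.W x (S.par c)) (v (S.par c)) (f0 (S.par c)) (S.pc c) ∨
      f0 c = fv (S.W x (S.par c)) (v (S.par c)) (f0 (S.par c)) (S.pc c + 1))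
  even : ∀ c, ¬ S.Rt c → ¬ S.Od x c →
    f0 c = fv (S.W x (S.par c)) (v (S.par c)) (f0 (S.par c)) (S.pc c) ∧
    (vA c = 1 → ¬ (S.lam K x c = 2 ∧ stk K (S.W x c) (S.len c) = []) →
      RO K (S.W x (S.par c)) (S.len (S.par c)) (v (S.par c)) (vA (S.par c)) (vB (S.par c))
        (S.pc c))
  nb : ∀ j, fv (S.W x (S.ci j (x j))) (v (S.ci j (x j))) (f0 (S.ci j (x j))) (S.ps j (x j)) = 1 →
    v (S.ci j (x j)) (S.ps j (x j)) = 1

/-- the gap values -/
noncomputable def Vl.F {K : ℕ} (A : S.Vl K x) (z : C) (t : ℕ) : ZMod 2 :=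
  fv (S.W x z) (A.v z) (A.f0 z) t

end WS

end Pool.Agent.MP42.PD
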