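import Pool.Agent.MP42.PD.Defs
import Pool.Agent.MP42.PD.WS
import Pool.Agent.MP42.PD.KeyC

/-!
# Project MP42, bounded stack: a level as a word system (owner helper92)
-/

set_option autoImplicit false
set_option linter.unusedSectionVars false

namespace Pool.Agent.MP42.PD

open Pool.Agent.MP42.U

namespace Lv

variable {C J α : Type*} [LinearOrder α]

section ix

variable (L : Lv C J α)

/-- the port corner `c` of the star `j` -/
def lg (j : J) (c : Bool) : α := if c then L.S.b j else L.S.a j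

lemma port_lg (x : J → Bool) (j : J) : L.S.port x j = L.lg j (x j) := rfl

lemma lg_leg (j : J) (c : Bool) : L.lg j c = L.S.leg j (if c then .b else .a) := by
  cases c <;> rfl

/-- the place of an item -/
noncomputable def ix (z : C) (i : α ⊕ C) : ℕ := sInf {t | L.it z t = some i}

variable {L}

lemma it_ix {z : C} {i : α ⊕ C} (h : i ∈ L.rd z) : L.it z (L.ix z i) = some i := by
  obtain ⟨t, ht⟩ := List.getElem?_of_mem h
  exact Nat.sInf_mem (s := {t | L.it z t = some i}) ⟨t, ht⟩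

lemma ix_lt {z : C} {i : α ⊕ C} (h : i ∈ L.rd z) : L.ix z i < L.n z := by
  obtain ⟨h1, -⟩ := List.getElem?_eq_some_iff.1 (it_ix h)
  exact h1

lemma ix_inj {z : C} {i i' : α ⊕ C} (h : i ∈ L.rd z) (h' : i' ∈ L.rd z)
    (he : L.ix z i = L.ix z i') : i = i' := by
  have h1 := it_ix h
  rw [he, it_ix h'] at h1
  exact (Option.some.inj h1).symm

lemma rd_nodup (z : C) : (L.rd z).Nodup := by
  refine (L.pw z).imp fun {i i'} h he => ?_
  subst he
  have hle := L.Ct.ile i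
  by_cases hz : L.cls z
  · exact absurd (h.1 hz) (not_lt.2 hle)
  · exact absurd (h.2 hz) (not_lt.2 hle)

lemma ix_of_it {z : C} {i : α ⊕ C} {t : ℕ} (h : L.it z t = some i) :
    i ∈ L.rd z ∧ L.ix z i = t := by
  obtain ⟨h1, h2⟩ := List.getElem?_eq_some_iff.1 h
  have hm : i ∈ L.rd z := by rw [← h2]; exact List.getElem_mem h1
  refine ⟨hm, ?_⟩
  obtain ⟨h3, h4⟩ := List.getElem?_eq_some_iff.1 (it_ix hm)
  exact (rd_nodup z).getElem_inj_iff.1 (h4.trans h2.symm)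

lemma mem_lg (j : J) (c : Bool) : (Sum.inl (L.lg j c) : α ⊕ C) ∈ L.rd (L.Ct.pt (L.lg j c)) := by
  rw [L.mem]
  refine ⟨fun p hp => ⟨j, (if c then .b else .a), ?_⟩, fun c hc => (by cases hc), rfl⟩
  rw [← Sum.inl.inj hp]
  exact L.lg_leg j c

lemma mem_y (j : J) : (Sum.inl (L.S.y j) : α ⊕ C) ∈ L.rd (L.Ct.pt (L.S.y j)) := by
  rw [L.mem]
  refine ⟨fun p hp => ⟨j, .y, ?_⟩, fun c hc => (by cases hc), rfl⟩
  rw [← Sum.inl.inj hp]
  rfl

lemma mem_ch {c : C} (hc : ¬ L.sp c) : (Sum.inr c : α ⊕ C) ∈ L.rd (L.Ct.par c) := by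
  rw [L.mem]
  refine ⟨fun p hp => (by cases hp), fun c' hc' => ?_, rfl⟩
  rw [← Sum.inr.inj hc']
  exact hc

end ix

/-- **the word system of a level** -/
noncomputable def ws (L : Lv C J α) : WS J C where
  r := L.Ct.r
  par := L.Ct.par
  dep := L.Ct.dep
  dep_par := L.Ct.dep_par
  Rt := L.sp
  rt := L.sp_r
  len := L.n
  ci j c := L.Ct.pt (L.lg j c)
  ps j c := L.ix (L.Ct.pt (L.lg j c)) (.inl (L.lg j c))
  cy j := L.Ct.pt (L.S.y j)
  py j := L.ix (L.Ct.pt (L.S.y j)) (.inl (L.S.y j))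
  pc c := L.ix (L.Ct.par c) (.inr c)
  ps_lt j c := ix_lt (mem_lg j c)
  py_lt j := ix_lt (mem_y j)
  pc_lt c hc := ix_lt (mem_ch hc)
  ps_inj j c j' c' h1 h2 := by
    rw [h1] at h2
    have h3 := ix_inj (by rw [← h1]; exact mem_lg j c) (mem_lg j' c') h2
    have h4 := Sum.inl.inj h3
    rw [L.lg_leg, L.lg_leg] at h4
    obtain ⟨h5, h6⟩ := L.S.inj _ _ _ _ h4
    refine ⟨h5, ?_⟩
    revert h6
    cases c <;> cases c' <;> simp
  pc_inj c c' hc hc' h1 h2 := by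
    rw [h1] at h2
    exact Sum.inr.inj (ix_inj (by rw [← h1]; exact mem_ch hc) (mem_ch hc') h2)
  ps_py j c j' h1 h2 := by
    rw [h1] at h2
    have h3 := Sum.inl.inj (ix_inj (by rw [← h1]; exact mem_lg j c) (mem_y j') h2)
    rw [L.lg_leg] at h3
    have h4 := (L.S.inj _ _ _ .y h3).2
    revert h4
    cases c <;> simp
  ps_pc j c c' hc' h1 h2 := by
    rw [h1] at h2
    have h3 := ix_inj (by rw [← h1]; exact mem_lg j c) (mem_ch hc') h2
    cases h3
  py_pc j c' hc' h1 h2 := by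
    rw [h1] at h2
    have h3 := ix_inj (by rw [← h1]; exact mem_y j) (mem_ch hc') h2
    cases h3

variable [Fintype J] [Fintype C] {L : Lv C J α} {x : J → Bool}

lemma ws_T {c : C} {p : α} : L.ws.T c (L.Ct.pt p) ↔ (L.Ct.lo c ≤ p ∧ p ≤ L.Ct.hi c) :=
  L.Ct.mem_iff.symm

open Classical in
lemma ws_P (c : C) : L.ws.P x c = ((Finset.univ.filter fun j =>
    L.Ct.lo c ≤ L.S.port x j ∧ L.S.port x j ≤ L.Ct.hi c).card : ℤ) := by
  unfold WS.P WS.tau
  rw [Finset.card_filter, Nat.cast_sum]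
  refine Finset.sum_congr rfl fun j _ => ?_
  have h : L.ws.T c (L.ws.ci j (x j)) ↔
      (L.Ct.lo c ≤ L.S.port x j ∧ L.S.port x j ≤ L.Ct.hi c) := ws_T
  by_cases h1 : L.ws.T c (L.ws.ci j (x j))
  · rw [if_pos h1, if_pos (h.1 h1)]; rfl
  · rw [if_neg h1, if_neg (fun h2 => h1 (h.2 h2))]; rfl

open Classical in
lemma ws_Y (c : C) : L.ws.Y c = ((Finset.univ.filter fun j =>
    L.Ct.lo c ≤ L.S.y j ∧ L.S.y j ≤ L.Ct.hi c).card : ℤ) := by
  unfold WS.Y WS.tau
  rw [Finset.card_filter, Nat.cast_sum]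
  refine Finset.sum_congr rfl fun j _ => ?_
  have h : L.ws.T c (L.ws.cy j) ↔ (L.Ct.lo c ≤ L.S.y j ∧ L.S.y j ≤ L.Ct.hi c) := ws_T
  by_cases h1 : L.ws.T c (L.ws.cy j)
  · rw [if_pos h1, if_pos (h.1 h1)]; rfl
  · rw [if_neg h1, if_neg (fun h2 => h1 (h.2 h2))]; rfl

/-- the number of letters of a subtree -/
lemma ws_cnt (c : C) : (L.cnt x c : ℤ) = L.ws.P x c + L.ws.Y c := by
  classical
  rw [ws_P, ws_Y]
  unfold cnt used
  rw [Finset.filter_union, Finset.card_union_of_disjoint]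
  · have e1 : ((Finset.univ.image L.S.y).filter fun p => L.Ct.lo c ≤ p ∧ p ≤ L.Ct.hi c) =
        (Finset.univ.filter fun j => L.Ct.lo c ≤ L.S.y j ∧ L.S.y j ≤ L.Ct.hi c).image L.S.y := by
      ext p
      simp only [Finset.mem_filter, Finset.mem_image, Finset.mem_univ, true_and]
      constructor
      · rintro ⟨⟨j, rfl⟩, h⟩; exact ⟨j, h, rfl⟩
      · rintro ⟨j, h, rfl⟩; exact ⟨⟨j, rfl⟩, h⟩
    have e2 : ((Finset.univ.image (L.S.port x)).filter fun p => L.Ct.lo c ≤ p ∧ p ≤ L.Ct.hi c) =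
        (Finset.univ.filter fun j => L.Ct.lo c ≤ L.S.port x j ∧ L.S.port x j ≤ L.Ct.hi c).image
          (L.S.port x) := by
      ext p
      simp only [Finset.mem_filter, Finset.mem_image, Finset.mem_univ, true_and]
      constructor
      · rintro ⟨⟨j, rfl⟩, h⟩; exact ⟨j, h, rfl⟩
      · rintro ⟨j, h, rfl⟩; exact ⟨⟨j, rfl⟩, h⟩
    rw [e1, e2, Finset.card_image_of_injective _ L.S.y_inj,
      Finset.card_image_of_injective _ (L.S.port_inj x)]
    push_cast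
    ring
  · rw [Finset.disjoint_left]
    intro p h1 h2
    obtain ⟨i, -, hi⟩ := Finset.mem_image.1 (Finset.mem_filter.1 h1).1
    obtain ⟨j, -, hj⟩ := Finset.mem_image.1 (Finset.mem_filter.1 h2).1
    rcases L.S.port_eq x j with h | h
    · exact L.S.y_ne_a i j (hi.trans (hj.symm.trans h))
    · exact L.S.y_ne_b i j (hi.trans (hj.symm.trans h))

/-- **parities** -/
lemma ws_Od (c : C) : L.ws.Od x c ↔ Odd (L.cnt x c) := by
  unfold WS.Od
  rw [← ws_cnt]
  exact_mod_cast Iff.rfl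

/-- **words** -/
lemma ws_W (z : C) (t : ℕ) : L.ws.W x z t = L.w x z t := by
  classical
  have hpos : ∀ {i : α ⊕ C} {z' : C}, i ∈ L.rd z' → (z' = z ∧ L.ix z' i = t ↔
      z' = z ∧ L.it z t = some i) := by
    intro i z' hi
    constructor
    · rintro ⟨rfl, h⟩
      exact ⟨rfl, by rw [← h]; exact it_ix hi⟩
    · rintro ⟨rfl, h⟩
      exact ⟨rfl, (ix_of_it h).2⟩
  have hO : (∃ j, L.ws.ci j (x j) = z ∧ L.ws.ps j (x j) = t) ↔
      ∃ j, L.it z t = some (.inl (L.S.port x j)) := by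
    constructor
    · rintro ⟨j, h⟩
      exact ⟨j, ((hpos (mem_lg j (x j))).1 h).2⟩
    · rintro ⟨j, h⟩
      have hz : L.Ct.pt (L.lg j (x j)) = z := ((L.mem z _).1 (ix_of_it h).1).2.2
      exact ⟨j, (hpos (mem_lg j (x j))).2 ⟨hz, h⟩⟩
  have hU : ((∃ j, L.ws.cy j = z ∧ L.ws.py j = t) ↔ ∃ j, L.it z t = some (.inl (L.S.y j))) := by
    constructor
    · rintro ⟨j, h⟩
      exact ⟨j, ((hpos (mem_y j)).1 h).2⟩
    · rintro ⟨j, h⟩
      have hz : L.Ct.pt (L.S.y j) = z := ((L.mem z _).1 (ix_of_it h).1).2.2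
      exact ⟨j, (hpos (mem_y j)).2 ⟨hz, h⟩⟩
  have hC : ((∃ c, ¬ L.ws.Rt c ∧ L.ws.par c = z ∧ L.ws.pc c = t ∧ L.ws.Od x c) ↔
      ∃ c, L.it z t = some (.inr c) ∧ Odd (L.cnt x c)) := by
    constructor
    · rintro ⟨c, h1, h2, h3, h4⟩
      exact ⟨c, ((hpos (mem_ch h1)).1 ⟨h2, h3⟩).2, (ws_Od c).1 h4⟩
    · rintro ⟨c, h1, h2⟩
      have hm := (L.mem z _).1 (ix_of_it h1).1
      have hc : ¬ L.sp c := hm.2.1 c rfl
      have hz : L.Ct.par c = z := hm.2.2
      obtain ⟨h3, h4⟩ := (hpos (mem_ch hc)).2 ⟨hz, h1⟩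
      exact ⟨c, hc, h3, h4, (ws_Od c).2 h2⟩
  unfold WS.W w
  simp only [hO, hU, hC]
  rcases hit : L.it z t with _ | i
  · simp
  · rcases i with p | c
    · simp only [lt]
      by_cases h1 : ∃ j, p = L.S.y j
      · obtain ⟨j, rfl⟩ := h1
        have h2 : ¬ ∃ j', (some (Sum.inl (L.S.y j)) : Option (α ⊕ C)) =
            some (.inl (L.S.port x j')) := by
          rintro ⟨j', h⟩
          have h' := Sum.inl.inj (Option.some.inj h)
          rcases L.S.port_eq x j' with h3 | h3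
          · exact L.S.y_ne_a j j' (h'.trans h3)
          · exact L.S.y_ne_b j j' (h'.trans h3)
        rw [if_neg h2, if_pos (Or.inl ⟨j, rfl⟩), if_pos ⟨j, rfl⟩]
      · rw [if_neg h1]
        by_cases h2 : ∃ j, p = L.S.port x j
        · obtain ⟨j, rfl⟩ := h2
          rw [if_pos ⟨j, rfl⟩, if_pos ⟨j, rfl⟩]
        · rw [if_neg (by rintro ⟨j, h⟩; exact h2 ⟨j, Sum.inl.inj (Option.some.inj h)⟩), if_neg h2,
            if_neg]
          rintro (⟨j, h⟩ | ⟨c, h, -⟩)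
          · exact h1 ⟨j, Sum.inl.inj (Option.some.inj h)⟩
          · cases Option.some.inj h
    · simp only [lt]
      rw [if_neg (by rintro ⟨j, h⟩; cases Option.some.inj h)]
      by_cases h1 : Odd (L.cnt x c)
      · rw [if_pos h1, if_pos (Or.inr ⟨c, rfl, h1⟩)]
      · rw [if_neg h1, if_neg]
        rintro (⟨j, h⟩ | ⟨c', h, h2⟩)
        · cases Option.some.inj h
        · rw [← Sum.inr.inj (Option.some.inj h)] at h2
          exact h1 h2

lemma ws_W' (z : C) : L.ws.W x z = L.w x z := funext fun t => ws_W z t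

lemma ws_lam (K : ℕ) (z : C) : L.ws.lam K x z = L.lam K x z := by
  unfold WS.lam lam
  rw [ws_W']
  rfl

/-- **first key** -/
lemma ws_SP : L.ws.SP x = (L.keyP x : ℤ) := by
  unfold WS.SP keyP
  rw [Nat.cast_sum]
  refine Finset.sum_congr rfl fun c _ => ?_
  rw [ws_P]

/-- **second key** -/
lemma ws_keyC (K : ℕ) : L.keyC K x =
    ∑ z, ∑ t ∈ Finset.range (L.ws.len z + 1), clo K (L.ws.W x z) t := by
  classical
  unfold keyC clo
  refine Finset.sum_congr rfl fun z _ => ?_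
  rw [ws_W']
  rfl

/-- the domain -/
lemma ws_D (K : ℕ) : L.ws.D K L.cp x ↔ L.Dom K x := by
  unfold WS.D Dom
  exact forall_congr' fun z => by rw [ws_lam]

end Lv

end Pool.Agent.MP42.PD
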