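import Pool.Agent.MP42.PD.Parse
import Pool.Agent.MP42.PD.Defs

/-!
# Riders along the real run

`rv V c β o m`: the items `m` of a cell with value `c`, `β` = allowed values of the element below,
`o` = parity of the direct tokens read so far: a rider has the value `c`, or (odd) a value in `β`.
`rv_run`: this holds along the run.
`wok_of_sc`: the positional form (`WOk`, `WRd`).
-/

set_option autoImplicit false

namespace Pool.Agent.MP42.PD

open U

variable {T : Type*}

/-- riders absent -/
def offT : T → Bool := fun _ => false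

/-- riders present -/
def onT : T → Bool := fun _ => true

/-- values along a list of items with their value functions -/
def rvl (c : B) (β : B → Prop) : Bool → List (BT T × (B → (B → Prop) → Bool → Prop)) → Prop
  | _, [] => True
  | o, p :: l => p.2 c β o ∧ rvl c β (o ^^ isU p.1) l

/-- values of an item, late riders included (item first) -/
def rv0 (V : T → B) : BT T → B → (B → Prop) → Bool → Prop :=
  BT.rc (fun t c _ _ => V t = c) (fun a b c β o => V a = V b ∧ (V a = c ∨ (o = true ∧ β (V a))))
    fun f m x c β o => V x = V f ∧ rvl (V f) (fun b => b = c ∨ (o = true ∧ β b)) false m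

/-- values of an item, late riders included -/
def rv1 (V : T → B) (c : B) (β : B → Prop) (o : Bool) (i : BT T) : Prop := rv0 V i c β o

/-- values of a list of items, late riders included -/
def rv (V : T → B) (c : B) (β : B → Prop) (o : Bool) (m : List (BT T)) : Prop :=
  rvl c β o (m.map fun i => (i, rv0 V i))

lemma rv_nil {V : T → B} {c : B} {β : B → Prop} {o : Bool} : rv V c β o [] := trivial

lemma rv_cons {V : T → B} {c : B} {β : B → Prop} {o : Bool} {i : BT T} {m : List (BT T)} :
    rv V c β o (i :: m) ↔ rv1 V c β o i ∧ rv V c β (o ^^ isU i) m := Iff.rfl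

lemma rv1_u {V : T → B} {c : B} {β : B → Prop} {o : Bool} {t : T} :
    rv1 V c β o (.u t) ↔ V t = c := Iff.rfl

lemma rv1_e {V : T → B} {c : B} {β : B → Prop} {o : Bool} {a b : T} :
    rv1 V c β o (.e a b) ↔ V a = V b ∧ (V a = c ∨ (o = true ∧ β (V a))) := Iff.rfl

lemma rv1_br {V : T → B} {c : B} {β : B → Prop} {o : Bool} {f x : T} {m : List (BT T)} :
    rv1 V c β o (.br f m x) ↔ V x = V f ∧ rv V (V f) (fun b => b = c ∨ (o = true ∧ β b)) false m := by
  unfold rv1 rv0
  rw [BT.rc_br]
  rfl

/-- parity of the number of direct tokens -/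
def par (m : List (BT T)) : Bool := m.foldl (fun o i => o ^^ isU i) false

lemma foldl_xor (m : List (BT T)) (o : Bool) :
    m.foldl (fun o i => o ^^ isU i) o = (o ^^ par m) := by
  unfold par
  induction m generalizing o with
  | nil => simp
  | cons i m ih =>
    simp only [List.foldl_cons]
    rw [ih, ih (false ^^ isU i)]
    cases o <;> cases isU i <;> simp

lemma par_cons (i : BT T) (m : List (BT T)) : par (i :: m) = (isU i ^^ par m) := by
  show List.foldl _ _ _ = _
  rw [List.foldl_cons, foldl_xor]
  simp

lemma par_nil' : par ([] : List (BT T)) = false := rfl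

lemma rv_append {V : T → B} {c : B} {β : B → Prop} {o : Bool} {m m' : List (BT T)} :
    rv V c β o (m ++ m') ↔ rv V c β o m ∧ rv V c β (o ^^ par m) m' := by
  induction m generalizing o with
  | nil => simp [rv_nil, par_nil']
  | cons i m ih =>
    rw [List.cons_append, rv_cons, rv_cons, ih, par_cons, and_assoc, Bool.xor_assoc]

lemma par_nu (m : List (BT T)) : par m = true ↔ Odd (nu m) := by
  induction m with
  | nil => simp [par_nil']
  | cons i m ih =>
    rw [par_cons]
    cases i with
    | u t =>
      rw [nu_u]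
      have : (isU (BT.u t) ^^ par m) = !(par m) := by simp
      rw [this, Bool.not_eq_true', ← Bool.not_eq_true, ih, Nat.not_odd_iff_even]
      constructor
      · intro h; exact h.add_one
      · intro h
        rcases Nat.even_or_odd (nu m) with h1 | h1
        · exact h1
        · exact absurd h (Nat.not_odd_iff_even.2 h1.add_one)
    | e a b => rw [nu_e]; simpa using ih
    | br f m' x => rw [nu_br]; simpa using ih

lemma par_even {m : List (BT T)} (h : Even (nu m)) : par m = false := by
  rw [← Bool.not_eq_true, par_nu, Nat.not_odd_iff_even]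
  exact h

/-- constant case: the parity does not matter -/
lemma rv_const {V : T → B} {c : B} {m : List (BT T)} {o o' : Bool}
    (h : rv V c (fun b => b = c) o m) : rv V c (fun b => b = c) o' m := by
  induction m generalizing o o' with
  | nil => exact rv_nil
  | cons i m ih =>
    rw [rv_cons] at h ⊢
    refine ⟨?_, ih h.2⟩
    cases i with
    | u t => rw [rv1_u] at h ⊢; exact h.1
    | e a b =>
      rw [rv1_e] at h ⊢
      refine ⟨h.1.1, Or.inl ?_⟩
      rcases h.1.2 with h1 | ⟨-, h1⟩ <;> exact h1
    | br f m x =>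
      rw [rv1_br] at h ⊢
      refine ⟨h.1.1, ?_⟩
      have e : ∀ o : Bool, (fun b : B => b = c ∨ (o = true ∧ b = c)) = fun b => b = c := by
        intro o; funext b; apply propext; tauto
      rw [e]
      have := h.1.2
      rwa [e] at this

/-! ## the run -/

/-- all riders -/
def ar1 (P : T → T → Prop) : BT T → Prop :=
  BT.rc (fun _ => True) P fun _ m _ => m.foldr (fun p r => p.2 ∧ r) True

/-- all riders -/
def ar (P : T → T → Prop) (m : List (BT T)) : Prop := m.foldr (fun i r => ar1 P i ∧ r) True

lemma ar_nil {P : T → T → Prop} : ar P [] := trivial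

lemma ar_cons {P : T → T → Prop} {i : BT T} {m : List (BT T)} :
    ar P (i :: m) ↔ ar1 P i ∧ ar P m := Iff.rfl

lemma ar_append {P : T → T → Prop} {m m' : List (BT T)} :
    ar P (m ++ m') ↔ ar P m ∧ ar P m' := by
  induction m with
  | nil => simp [ar_nil]
  | cons i m ih => rw [List.cons_append, ar_cons, ar_cons, ih, and_assoc]

lemma ar1_e {P : T → T → Prop} {a b : T} : ar1 P (.e a b) ↔ P a b := Iff.rfl

lemma ar1_u {P : T → T → Prop} {t : T} : ar1 P (.u t) := trivial

lemma ar1_br {P : T → T → Prop} {f x : T} {m : List (BT T)} : ar1 P (.br f m x) ↔ ar P m := by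
  unfold ar1
  rw [BT.rc_br, List.foldr_map]
  rfl

/-- the class of a cell has one value -/
def on1v (V : T → B) (z : T × List (BT T) × T) : Prop :=
  V z.2.2 = V z.1 ∧ ∀ t, BT.u t ∈ z.2.1 → V t = V z.1

variable {s : T → Bool} {d : ℤ}

lemma hl_off (i : BT T) : hl (BT.r1 s offT i) = if isU i then (match i with
    | .u t => if s t then 1 else -1
    | _ => 0) else 0 := by
  cases i with
  | u t => simp
  | e a b => simp [offT]
  | br f m x => simp

theorem rv_runs (V : T → B) : (∀ (i : BT T) (c : B) (β : B → Prop) (o : Bool) (h : ℕ)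
    (S S' R : ℕ → B), (∀ j < h, S j = c) → (∀ j, S (j + h) = R j) → (o = true ↔ Even h) →
    β (R 0) → hl (BT.r1 s offT i) ≤ h → (∀ t, i = BT.u t → V t = c) →
    (∀ z ∈ BT.cell i, BT.Good s offT d z ∧ on1v V z) → ar1 (fun a b => V a = V b) i →
    Run (lv V (BT.w s onT i)) S S' → rv1 V c β o i ∧
      ∃ h' : ℕ, (h' : ℤ) = h - hl (BT.r1 s offT i) ∧ (∀ j < h', S' j = c) ∧
        ∀ j, S' (j + h') = R j) ∧
    ∀ (m : List (BT T)) (c : B) (β : B → Prop) (o : Bool) (h : ℕ)
    (S S' R : ℕ → B), (∀ j < h, S j = c) → (∀ j, S (j + h) = R j) → (o = true ↔ Even h) →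
    β (R 0) → (∀ u v, m = u ++ v → hl (BT.rs s offT u) ≤ h) → (∀ t, BT.u t ∈ m → V t = c) →
    (∀ z ∈ BT.cells m, BT.Good s offT d z ∧ on1v V z) → ar (fun a b => V a = V b) m →
    Run (lv V (BT.ws s onT m)) S S' → rv V c β o m ∧
      ∃ h' : ℕ, (h' : ℤ) = h - hl (BT.rs s offT m) ∧ (∀ j < h', S' j = c) ∧
        ∀ j, S' (j + h') = R j := by
  refine BT.ind ?_ ?_ ?_ ?_ ?_
  · intro t c β o h S S' R h1 h2 h3 h4 h5 h6 h7 h8 hr
    rw [BT.w_u] at hr
    rw [rv1_u]
    refine ⟨h6 t rfl, ?_⟩
    cases hs : s t
    · rw [hs] at hr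
      have hr' : push (V t) S = S' := hr
      refine ⟨h + 1, by simp [hs], ?_, ?_⟩
      · intro j hj
        rw [← hr']
        cases j with
        | zero => exact h6 t rfl
        | succ j => exact h1 j (by omega)
      · intro j
        rw [← hr', ← h2]
        rfl
    · rw [hs] at hr
      have hr' : V t = S 0 ∧ tl S = S' := hr
      have h9 : 1 ≤ h := by
        have : hl (BT.r1 s offT (BT.u t)) = 1 := by simp [hs]
        rw [this] at h5
        exact_mod_cast h5
      refine ⟨h - 1, by
        have : hl (BT.r1 s offT (BT.u t)) = 1 := by simp [hs]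
        rw [this]; push_cast [Nat.cast_sub h9]; ring, ?_, ?_⟩
      · intro j hj
        rw [← hr'.2]
        exact h1 (j + 1) (by omega)
      · intro j
        rw [← hr'.2, ← h2, tl_apply]
        congr 1
        omega
  · intro a b c β o h S S' R h1 h2 h3 h4 h5 h6 h7 h8 hr
    rw [BT.w_e] at hr
    rw [ar1_e] at h8
    have hr' : V a = S 0 ∧ push (V b) (tl S) = S' := hr
    have e1 : S' = S := by
      rw [← hr'.2, ← h8, hr'.1]
      funext j
      cases j <;> rfl
    rw [rv1_e]
    refine ⟨⟨h8, ?_⟩, h, by simp [offT], by rw [e1]; exact h1, by rw [e1]; exact h2⟩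
    rcases Nat.eq_zero_or_pos h with h9 | h9
    · right
      refine ⟨h3.2 (by rw [h9]; exact Even.zero), ?_⟩
      rw [hr'.1]
      have := h2 0
      rw [h9] at this
      simp only [Nat.add_zero] at this
      rw [this]
      exact h4
    · left
      rw [hr'.1]
      exact h1 0 h9
  · intro f m x rv_run c β o h S S' R h1 h2 h3 h4 h5 h6 h7 h8 hr
    rw [BT.cell_br] at h7
    rw [ar1_br] at h8
    rw [BT.w_br, lv_cons, lv_append] at hr
    have hr1 : Run (lv V (BT.ws s onT m) ++ lv V [(true, x)]) (push (V f) S) S' := hr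
    obtain ⟨S2, hr2, hr3⟩ := run_append.1 hr1
    have hr4 : V x = S2 0 ∧ tl S2 = S' := hr3
    obtain ⟨hG, h9⟩ := h7 (f, m, x) List.mem_cons_self
    have h10 : (0 : ℕ) < 1 := Nat.one_pos
    obtain ⟨h11, h', h12, h13, h14⟩ := rv_run (V f) (fun b => b = c ∨ (o = true ∧ β b)) false 1
      (push (V f) S) S2 S (by
        intro j hj
        have : j = 0 := by omega
        rw [this]; rfl) (fun j => rfl) (by simp) (by
        show S 0 = c ∨ (o = true ∧ β (S 0))
        rcases Nat.eq_zero_or_pos h with h9 | h9
        · right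
          refine ⟨h3.2 (by rw [h9]; exact Even.zero), ?_⟩
          have := h2 0
          rw [h9] at this
          simp only [Nat.add_zero] at this
          rw [this]
          exact h4
        · left
          exact h1 0 h9) (by
        intro u v huv
        have := hG.up (BT.rs s offT u) (BT.rs s offT v) (by
          show BT.rs s offT m = _
          rw [huv, BT.rs_append])
        exact_mod_cast this) h9.2 (fun z hz => h7 z (List.mem_cons_of_mem _ hz)) h8 hr2
    have h15 : hl (BT.rs s offT m) = 0 := hG.h0
    have h16 : h' = 1 := by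
      rw [h15] at h12
      have : (h' : ℤ) = 1 := by simpa using h12
      exact_mod_cast this
    rw [rv1_br]
    have e1 : S' = S := by
      rw [← hr4.2]
      funext j
      rw [tl_apply, ← h14 j, h16]
    refine ⟨⟨h9.1, h11⟩, h, by simp, by rw [e1]; exact h1, by rw [e1]; exact h2⟩
  · intro c β o h S S' R h1 h2 h3 h4 h5 h6 h7 h8 hr
    rw [BT.ws_nil] at hr
    have hr' : S = S' := hr
    rw [← hr']
    exact ⟨rv_nil, h, by simp, h1, h2⟩
  · intro i m rv_run1 rv_run c β o h S S' R h1 h2 h3 h4 h5 h6 h7 h8 hr
    rw [BT.cells_cons] at h7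
    rw [ar_cons] at h8
    rw [BT.ws_cons, lv_append] at hr
    obtain ⟨S1, hr1, hr2⟩ := run_append.1 hr
    have h5a : hl (BT.r1 s offT i) ≤ h := by
      have := h5 [i] m rfl
      simpa using this
    obtain ⟨g1, h', g2, g3, g4⟩ := rv_run1 c β o h S S1 R h1 h2 h3 h4 h5a
      (fun t ht => h6 t (by rw [ht]; exact List.mem_cons_self))
      (fun z hz => h7 z (List.mem_append_left _ hz)) h8.1 hr1
    have h3' : (o ^^ isU i) = true ↔ Even h' := by
      clear rv_run1 rv_run
      cases i with
      | u t =>
        have e : (o ^^ isU (BT.u t)) = !o := by simp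
        rw [e, Bool.not_eq_true', ← Bool.not_eq_true, h3]
        cases hs : s t
        · have : (h' : ℤ) = h + 1 := by rw [g2]; simp [hs]
          have : h' = h + 1 := by exact_mod_cast this
          rw [this, Nat.even_add_one]
        · have : (h' : ℤ) = h - 1 := by rw [g2]; simp [hs]
          have : h = h' + 1 := by omega
          rw [this, Nat.even_add_one, not_not]
      | e a b =>
        have : (h' : ℤ) = h := by rw [g2]; simp [offT]
        have : h' = h := by exact_mod_cast this
        rw [this]
        simpa using h3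
      | br f m' x =>
        have : (h' : ℤ) = h := by rw [g2]; simp
        have : h' = h := by exact_mod_cast this
        rw [this]
        simpa using h3
    obtain ⟨k1, h'', k2, k3, k4⟩ := rv_run c β (o ^^ isU i) h' S1 S' R g3 g4 h3' h4 (by
      intro u v huv
      have := h5 (i :: u) v (by rw [huv]; rfl)
      rw [BT.rs_cons, hl_append] at this
      rw [g2]; linarith) (fun t ht => h6 t (List.mem_cons_of_mem _ ht))
      (fun z hz => h7 z (List.mem_append_right _ hz)) h8.2 hr2
    refine ⟨rv_cons.2 ⟨g1, k1⟩, h'', ?_, k3, k4⟩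
    rw [k2, g2, BT.rs_cons, hl_append]; ring

theorem rv_run (V : T → B) (m : List (BT T)) (c : B) (β : B → Prop) (o : Bool) (h : ℕ)
    (S S' R : ℕ → B) (h1 : ∀ j < h, S j = c) (h2 : ∀ j, S (j + h) = R j) (h3 : o = true ↔ Even h)
    (h4 : β (R 0)) (h5 : ∀ u v, m = u ++ v → hl (BT.rs s offT u) ≤ h)
    (h6 : ∀ t, BT.u t ∈ m → V t = c)
    (h7 : ∀ z ∈ BT.cells m, BT.Good s offT d z ∧ on1v V z) (h8 : ar (fun a b => V a = V b) m)
    (hr : Run (lv V (BT.ws s onT m)) S S') : rv V c β o m ∧
      ∃ h' : ℕ, (h' : ℤ) = h - hl (BT.rs s offT m) ∧ (∀ j < h', S' j = c) ∧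
        ∀ j, S' (j + h') = R j :=
  (rv_runs V).2 m c β o h S S' R h1 h2 h3 h4 h5 h6 h7 h8 hr

/-- **constant stack** -/
theorem rv_main {V : T → B} {m : List (BT T)} {c : B} {S : ℕ → B} (hS : ∀ j, S j = c)
    (h6 : ∀ t, BT.u t ∈ m → V t = c) (h7 : ∀ z ∈ BT.cells m, BT.Good s offT d z ∧ on1v V z)
    (h8 : ar (fun a b => V a = V b) m) {S' : ℕ → B} (hr : Run (lv V (BT.ws s onT m)) S S')
    (o : Bool) : rv V c (fun b => b = c) o m := by
  have hb : ∀ u v, m = u ++ v → hl (BT.rs s offT u) ≤ ((2 * m.length + 1 : ℕ) : ℤ) := by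
    intro u v huv
    have h1 : ∀ u : List (BT T), hl (BT.rs s offT u) ≤ u.length := by
      intro u
      induction u with
      | nil => simp
      | cons i u ih =>
        rw [BT.rs_cons, hl_append]
        have h2 : hl (BT.r1 s offT i) ≤ 1 := by
          cases i with
          | u t => cases hs : s t <;> simp [hs]
          | e a b => simp [offT]
          | br f m' x => simp
        push_cast [List.length_cons]
        linarith
    have h2 := h1 u
    have h3 : u.length ≤ m.length := by rw [huv]; simp
    push_cast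
    have h4 : (u.length : ℤ) ≤ m.length := by exact_mod_cast h3
    linarith
  obtain ⟨h1, -⟩ := rv_run (s := s) (d := d) V m c (fun b => b = c) false (2 * m.length + 1) S S'
    (fun _ => c) (fun j _ => hS j) (fun j => hS _) (by simp [Nat.even_add_one]) rfl hb h6 h7 h8 hr
  exact rv_const h1

end Pool.Agent.MP42.PD
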