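import Pool.Agent.MP42.PD.Defs

/-!
# Project MP42, bounded stack: the lexicographic optimum (owner helper92)
-/

set_option autoImplicit false
set_option linter.unusedSectionVars false

namespace Pool.Agent.MP42.PD

/-- **lexicographic optimum**: first key and second key maximal, third key minimal -/
theorem lex_opt {X : Type*} [Finite X] (D G : X → Prop) (P C N : X → ℕ) (hex : ∃ x, D x)
    (step : ∀ x, D x → ¬ G x → ∃ x', D x' ∧
      (P x < P x' ∨ P x = P x' ∧ (C x < C x' ∨ C x = C x' ∧ N x' < N x))) :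
    ∃ x, D x ∧ G x := by
  classical
  have := Fintype.ofFinite X
  obtain ⟨x0, hx0⟩ := hex
  obtain ⟨x1, h1, m1⟩ := (Finset.univ.filter D).exists_max_image P ⟨x0, by simp [hx0]⟩
  have h1' : D x1 := by simpa using h1
  obtain ⟨x2, h2, m2⟩ := (Finset.univ.filter fun x => D x ∧ P x = P x1).exists_max_image C
    ⟨x1, by simp [h1']⟩
  have h2' : D x2 ∧ P x2 = P x1 := by simpa using h2
  obtain ⟨x3, h3, m3⟩ := (Finset.univ.filter fun x => D x ∧ P x = P x1 ∧ C x = C x2).exists_min_image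
    N ⟨x2, by simp [h2']⟩
  have h3' : D x3 ∧ P x3 = P x1 ∧ C x3 = C x2 := by simpa using h3
  refine ⟨x3, h3'.1, ?_⟩
  by_contra hG
  obtain ⟨x', hD, h⟩ := step x3 h3'.1 hG
  have a1 : P x' ≤ P x1 := m1 x' (by simp [hD])
  rcases h with h | ⟨h4, h⟩
  · omega
  · have a2 : C x' ≤ C x2 := m2 x' (by simp [hD]; omega)
    rcases h with h | ⟨h5, h⟩
    · omega
    · have a3 : N x3 ≤ N x' := m3 x' (by simp [hD]; omega)
      omega

/-- **a connected element of the domain** -/
theorem exists_conn_of {C J α : Type*} [LinearOrder α] [Fintype J] [Fintype C] (L : Lv C J α)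
    (K : ℕ) (N : (J → Bool) → ℕ) (hex : ∃ x, L.Dom K x)
    (step : ∀ x, L.Dom K x → ¬ L.Conn K x → ∃ x', L.Dom K x' ∧
      (L.keyP x < L.keyP x' ∨ L.keyP x = L.keyP x' ∧
        (L.keyC K x < L.keyC K x' ∨ L.keyC K x = L.keyC K x' ∧ N x' < N x))) :
    ∃ x, L.Dom K x ∧ L.Conn K x :=
  lex_opt (L.Dom K) (L.Conn K) (fun x => L.keyP x) (fun x => L.keyC K x) N hex step

end Pool.Agent.MP42.PD
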