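import Pool.Agent.MP42.PD.Defs

/-!
# Bounded stack structures: existence of the reading lists (owner helper30)
-/

set_option autoImplicit false
set_option linter.unusedSectionVars false

namespace Pool.Agent.MP42.PD

open Pool.Agent.MP42.U

variable {C J α : Type*} [LinearOrder α]

/-- disjoint items in contour order -/
lemma ct_sorted (D : Contour C α) : ∀ (n : ℕ) (s : Finset (α ⊕ C)), s.card ≤ n →
    (∀ i ∈ s, ∀ i' ∈ s, i ≠ i' → D.ihi i < D.ilo i' ∨ D.ihi i' < D.ilo i) →
    ∃ l : List (α ⊕ C), (∀ i, i ∈ l ↔ i ∈ s) ∧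
      l.Pairwise fun i i' => D.ihi i < D.ilo i' := by
  classical
  intro n
  induction n with
  | zero =>
    intro s hs _
    have : s = ∅ := Finset.card_eq_zero.1 (Nat.le_zero.1 hs)
    subst this
    exact ⟨[], by simp, List.Pairwise.nil⟩
  | succ n ih =>
    intro s hs hd
    rcases s.eq_empty_or_nonempty with rfl | hne
    · exact ⟨[], by simp, List.Pairwise.nil⟩
    · obtain ⟨i0, h0, hmin⟩ := s.exists_min_image D.ilo hne
      obtain ⟨l, h2, h3⟩ := ih (s.erase i0) (by
        rw [Finset.card_erase_of_mem h0]; omega) (by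
        intro i hi i' hi'
        exact hd i (Finset.mem_of_mem_erase hi) i' (Finset.mem_of_mem_erase hi'))
      refine ⟨i0 :: l, ?_, List.pairwise_cons.2 ⟨?_, h3⟩⟩
      · intro i
        rw [List.mem_cons, h2]
        constructor
        · rintro (rfl | h)
          · exact h0
          · exact Finset.mem_of_mem_erase h
        · intro h
          rcases eq_or_ne i i0 with h4 | h4
          · exact Or.inl h4
          · exact Or.inr (Finset.mem_erase.2 ⟨h4, h⟩)
      · intro i hi
        obtain ⟨h4, h5⟩ := Finset.mem_erase.1 ((h2 i).1 hi)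
        rcases hd i0 h0 i h5 (Ne.symm h4) with h6 | h6
        · exact h6
        · exact absurd (h6.trans_le (hmin i h5)) (not_lt.2 (D.ile i))

/-- **reading lists exist** -/
theorem exists_rd [Finite C] [Finite J] (D : Contour C α) (cls : C → Prop) (leg : J → Lg3 → α)
    (sp : C → Prop) (hr : sp D.r) (z : C) : ∃ l : List (α ⊕ C),
    (l.Pairwise fun i i' =>
      (cls z → D.ihi i < D.ilo i') ∧ (¬ cls z → D.ihi i' < D.ilo i)) ∧
    ∀ i, i ∈ l ↔ (∀ p, i = .inl p → ∃ j s, p = leg j s) ∧ (∀ c, i = .inr c → ¬ sp c) ∧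
      D.host i = z := by
  classical
  set s : Set (α ⊕ C) := {i | (∀ p, i = .inl p → ∃ j s, p = leg j s) ∧
    (∀ c, i = .inr c → ¬ sp c) ∧ D.host i = z} with hs
  have hfin : s.Finite := by
    have h1 : (Set.range (fun q : J × Lg3 => (Sum.inl (leg q.1 q.2) : α ⊕ C)) ∪
        Set.range (fun c : C => (Sum.inr c : α ⊕ C))).Finite :=
      (Set.finite_range _).union (Set.finite_range _)
    refine h1.subset ?_
    rintro i ⟨h2, -, -⟩
    rcases i with p | c
    · obtain ⟨j, t, rfl⟩ := h2 p rfl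
      exact Or.inl ⟨(j, t), rfl⟩
    · exact Or.inr ⟨c, rfl⟩
  obtain ⟨l, h2, h3⟩ := ct_sorted D _ hfin.toFinset le_rfl (by
    intro i hi i' hi' hne
    have hi := (hfin.mem_toFinset).1 hi
    have hi' := (hfin.mem_toFinset).1 hi'
    refine D.item_disj (hi.2.2.trans hi'.2.2.symm) ?_ ?_ hne
    · rintro rfl
      exact hi.2.1 _ rfl hr
    · rintro rfl
      exact hi'.2.1 _ rfl hr)
  by_cases hc : cls z
  · exact ⟨l, h3.imp fun h => ⟨fun _ => h, fun h' => absurd hc h'⟩, fun i => by
      rw [h2, hfin.mem_toFinset, hs]; rfl⟩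
  · refine ⟨l.reverse, ?_, fun i => by rw [List.mem_reverse, h2, hfin.mem_toFinset, hs]; rfl⟩
    rw [List.pairwise_reverse]
    exact h3.imp fun h => ⟨fun h' => absurd h' hc, fun _ => h⟩

open Classical in
/-- **a closed level** -/
noncomputable def lvC [Finite C] [Finite J] (D : Contour C α) (cls : C → Prop)
    (S : Stars D cls J) : Lv C J α where
  Ct := D
  cls := cls
  S := S
  sp z := z = D.r
  sp_r := rfl
  sp_c _ h h' := absurd h h'
  cp z := if z = D.r then 1 else 2
  cp_sp z hz := by rw [if_pos hz]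
  cp_n z hz := by rw [if_neg hz]
  rd z := (exists_rd D cls S.leg (fun z => z = D.r) rfl z).choose
  pw z := (exists_rd D cls S.leg (fun z => z = D.r) rfl z).choose_spec.1
  mem z := (exists_rd D cls S.leg (fun z => z = D.r) rfl z).choose_spec.2

lemma lvC_cp [Finite C] [Finite J] (D : Contour C α) (cls : C → Prop)
    (S : Stars D cls J) : (lvC D cls S).cp D.r = 1 := by
  classical
  show (if D.r = D.r then 1 else 2) = 1
  rw [if_pos rfl]

/-- the last child of the root -/
lemma top_spc (D : Contour C α) (cls : C → Prop) (g1 : C) (hg : g1 ≠ D.r) (hp : D.par g1 = D.r)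
    (hc : cls g1 ↔ ¬ cls D.r) (h1 : cls D.r → D.hi g1 = D.hi D.r)
    (h2 : ¬ cls D.r → D.lo g1 = D.lo D.r) (c : C) (hcs : c = D.r ∨ c = g1) (hcr : c ≠ D.r) :
    D.par c = D.r ∧ (cls c ↔ ¬ cls D.r) ∧
      ∀ i, D.host i = D.r → i ≠ .inr c → i ≠ .inr D.r →
        (cls D.r → D.ihi i < D.lo c) ∧ (¬ cls D.r → D.hi c < D.ilo i) := by
  obtain rfl : c = g1 := hcs.resolve_left hcr
  refine ⟨hp, hc, fun i hi hic hir => ?_⟩
  have hd := D.item_disj (i := i) (i' := .inr c) (hi.trans hp.symm) hir
    (fun h => hg (Sum.inr_injective h)) hic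
  have hin : D.lo D.r ≤ D.ilo i ∧ D.ihi i ≤ D.hi D.r := by
    rcases i with p | c'
    · exact D.top p
    · exact ⟨(D.top _).1, (D.top _).2⟩
  constructor
  · intro h
    rcases hd with h5 | h5
    · exact h5
    · exfalso
      have h6 : D.hi c < D.ilo i := h5
      rw [h1 h] at h6
      exact absurd (h6.trans_le ((D.ile i).trans hin.2)) (lt_irrefl _)
  · intro h
    rcases hd with h5 | h5
    · exfalso
      have h6 : D.ihi i < D.lo c := h5
      rw [h2 h] at h6
      exact absurd ((hin.1.trans (D.ile i)).trans_lt h6) (lt_irrefl _)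
    · exact h5

open Classical in
/-- **a top level** -/
noncomputable def lvT [Finite C] [Finite J] (D : Contour C α) (cls : C → Prop)
    (S : Stars D cls J) (g1 : C) (hg : g1 ≠ D.r) (hp : D.par g1 = D.r)
    (hc : cls g1 ↔ ¬ cls D.r) (h1 : cls D.r → D.hi g1 = D.hi D.r)
    (h2 : ¬ cls D.r → D.lo g1 = D.lo D.r) : Lv C J α where
  Ct := D
  cls := cls
  S := S
  sp z := z = D.r ∨ z = g1
  sp_r := Or.inl rfl
  sp_c := top_spc D cls g1 hg hp hc h1 h2
  cp z := if z = D.r then 0 else if z = g1 then 1 else 2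
  cp_sp z hz := by
    split_ifs with h5 h6
    · exact Nat.zero_le _
    · exact le_rfl
    · exact absurd hz (by rintro (h | h); exacts [h5 h, h6 h])
  cp_n z hz := by rw [if_neg (fun h => hz (Or.inl h)), if_neg (fun h => hz (Or.inr h))]
  rd z := (exists_rd D cls S.leg (fun z => z = D.r ∨ z = g1) (Or.inl rfl) z).choose
  pw z := (exists_rd D cls S.leg (fun z => z = D.r ∨ z = g1) (Or.inl rfl) z).choose_spec.1
  mem z := (exists_rd D cls S.leg (fun z => z = D.r ∨ z = g1) (Or.inl rfl) z).choose_spec.2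

lemma lvT_cp [Finite C] [Finite J] (D : Contour C α) (cls : C → Prop)
    (S : Stars D cls J) (g1 : C) (hg : g1 ≠ D.r) (hp : D.par g1 = D.r)
    (hc : cls g1 ↔ ¬ cls D.r) (h1 : cls D.r → D.hi g1 = D.hi D.r)
    (h2 : ¬ cls D.r → D.lo g1 = D.lo D.r) :
    (lvT D cls S g1 hg hp hc h1 h2).cp D.r = 0 ∧ (lvT D cls S g1 hg hp hc h1 h2).cp g1 = 1 := by
  classical
  constructor
  · show (if D.r = D.r then 0 else _) = 0
    rw [if_pos rfl]
  · show (if g1 = D.r then 0 else if g1 = g1 then 1 else 2) = 1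
    rw [if_neg hg, if_pos rfl]

end Pool.Agent.MP42.PD
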