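import Pool.Agent.MP42.PD.CL
import Pool.Agent.MP42.PD.Ex
import Pool.Agent.MP42.TQ.Hide

/-!
# Scalar products over a circle (owner helper55)
-/

set_option autoImplicit false
set_option linter.unusedSectionVars false

namespace Pool.Agent.MP42.PD

open Pool.Agent.MP42.U

variable {K : ℕ} {w : ℕ → Lt} {n : ℕ} {v v' : ℕ → ZMod 2} {a a' e e' : ZMod 2}

lemma tv_nil {t : ℕ} (h : stk K w t = []) : tv K w v e t = e := by
  unfold tv; rw [h]; rfl

lemma tv_cons {t F : ℕ} {l : List ℕ} (h : stk K w t = F :: l) : tv K w v e t = v F := by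
  unfold tv; rw [h]; rfl

/-- the product of two labellings -/
lemma WOk.mul (h : WOk K w n v a e) (h' : WOk K w n v' a' e') :
    WOk K w n (fun t => v t * v' t) (a * a') (e * e') where
  port := by
    intro t ht hw
    have h1 := h.port t ht hw
    have h2 := h'.port t ht hw
    rcases hs : stk K w t with _ | ⟨F, l⟩
    · rw [tv_nil hs] at h1 h2 ⊢
      rw [h1, h2]
    · rw [tv_cons hs] at h1 h2 ⊢
      rw [h1, h2]
  unit := by
    intro t ht hw F G l hs hl
    obtain ⟨h1, h2⟩ := h.unit t ht hw F G l hs hl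
    obtain ⟨h3, h4⟩ := h'.unit t ht hw F G l hs hl
    exact ⟨by rw [h1, h3], by rw [h2, h4]⟩
  pend := fun i hi => by rw [h.pend i hi, h'.pend i hi]
  base := fun hl => by rw [h.base hl, h'.base hl]

lemma WOk.one : WOk K w n (fun _ => 1) 1 1 where
  port := by
    intro t ht hw
    rcases hs : stk K w t with _ | ⟨F, l⟩
    · rw [tv_nil hs]
    · rw [tv_cons hs]
  unit := fun _ _ _ _ _ _ _ _ => ⟨rfl, rfl⟩
  pend := fun _ _ => rfl
  base := fun _ => rfl

/-- labellings in the sense of `VOK` -/
lemma WOk.vokO (h : WOk K w n v a e) (hK : 2 ≤ K) : VOK K w n v a e where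
  pop_o := by
    intro t ht hw F l hs
    rw [h.port t ht hw, tv_cons hs]
  pop_u := by
    intro t ht hw hl F l hs
    rcases l with _ | ⟨G, l⟩
    · rw [hs] at hl; simp at hl; omega
    · exact (h.unit t ht hw F G l hs hl.ge).1.symm
  pair := fun t ht hw hl F G l hs => (h.unit t ht hw F G l hs hl.ge).2
  pend := h.pend
  one := by
    intro hl Z hZ
    obtain ⟨h1, h2, h3⟩ := mem_lo.1 hZ
    rw [h.port Z h1 h2, tv_nil h3]
    exact h.base hl
  two := by
    intro _ Z hZ
    obtain ⟨h1, h2, h3⟩ := mem_lo.1 hZ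
    rw [h.port Z h1 h2, tv_nil h3]

lemma fv_sum (w : ℕ → Lt) (v : ℕ → ZMod 2) (m : ℕ) :
    fv w v 0 m = ∑ t ∈ (Finset.range m).filter (fun t => w t ≠ .z), v t := by
  induction m with
  | zero => rfl
  | succ m ih =>
    rw [fv, ih, Finset.sum_filter, Finset.sum_filter, Finset.sum_range_succ]
    congr 1
    by_cases h : w m = .z <;> simp [h]

/-- the sum of a labelling -/
lemma WOk.sum (h : WOk K w n v a e) (hK : 2 ≤ K)   :
    ∑ t ∈ (Finset.range n).filter (fun t => w t ≠ .z), v t =
      ((stk K w n).length : ZMod 2) * a + ((lo K w n).card : ZMod 2) * e := by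
  rw [← fv_sum, fv_eq (h.vokO hK) (by omega) le_rfl, zero_add]
  congr 1
  · rw [List.map_congr_left h.pend, List.map_const', List.sum_replicate, nsmul_eq_mul]
  · rw [Finset.sum_congr rfl (g := fun _ => e), Finset.sum_const, nsmul_eq_mul]
    intro Z hZ
    obtain ⟨h1, h2, h3⟩ := mem_lo.1 hZ
    rw [h.port Z h1 h2, tv_nil h3]

/-- **the scalar product of two labellings** -/
theorem WOk.par (h : WOk K w n v a e) (h' : WOk K w n v' a' e') (hK : 2 ≤ K)
    (hl : (lo K w n).card ≤ 2) :
    ∑ t ∈ (Finset.range n).filter (fun t => w t ≠ .z), v t * v' t =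
      (((Finset.range n).filter (fun t => w t ≠ .z)).card : ZMod 2) * (a * a') := by
  have h1 := (h.mul h').sum hK
  have h2 := (WOk.one (K := K) (w := w) (n := n)).sum hK
  rw [Finset.sum_const, nsmul_eq_mul, mul_one, mul_one, mul_one] at h2
  rw [h1, h2]
  by_cases hc : (lo K w n).card ≤ 1
  · rw [h.base hc, h'.base hc]; ring
  · have h3 : (lo K w n).card = 2 := by omega
    rw [h3]
    have h4 : ((2 : ℕ) : ZMod 2) = 0 := by decide
    rw [h4]; ring

namespace Pl

variable {T : Type*} (P : Pl T)

lemma Eq_one : P.Eq (fun _ => 1) := fun _ _ _ => rfl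

lemma vt_oO {V : T → B} {t : ℕ} (h : P.w t = .o) : P.vt V t = V (P.tk t) := by
  unfold vt; rw [h]

lemma vt_uO {V : T → B} {t : ℕ} (h : P.w t = .u) : P.vt V t = V (P.tk t) := by
  unfold vt; rw [h]

lemma vt_z {V : T → B} {t : ℕ} (h : P.w t = .z) : P.vt V t = V (P.ra t) := by
  unfold vt; rw [h]

lemma vt_nz {V : T → B} {t : ℕ} (h : P.w t ≠ .z) : P.vt V t = V (P.tk t) := by
  rcases hw : P.w t with _ | _ | _
  · exact P.vt_oO hw
  · exact P.vt_uO hw
  · exact absurd hw h

lemma ss_eq (V V' : T → B) :
    P.ss V V' = ∑ t ∈ (Finset.range P.n).filter (fun t => P.w t ≠ .z), P.vt V t * P.vt V' t := by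
  unfold ss
  refine Finset.sum_congr rfl fun t ht => ?_
  rw [Finset.mem_filter] at ht
  rw [P.vt_nz ht.2, P.vt_nz ht.2]

/-- the scalar product of two compatible labellings -/
theorem M_par {V V' : T → B} {a a' : B} (h : P.M K V a) (h' : P.M K V' a') (hK : 2 ≤ K)
    (hl : P.lam K ≤ 2) : P.ss V V' = (P.nod : B) * (a * a') := by
  obtain ⟨e, h1, -⟩ := h
  obtain ⟨e', h2, -⟩ := h'
  rw [ss_eq]
  exact h1.par h2 hK hl

/-! ## The tokens -/

open Classical in
/-- the tokens of a place -/
noncomputable def tl (t : ℕ) : List T :=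
  match P.w t with
  | .o => [P.tk t]
  | .u => [P.tk t]
  | .z => if P.rid t then [P.ra t, P.rb t] else []

/-- the tokens of the items -/
noncomputable def tks : List T := (List.range P.n).flatMap P.tl

lemma lt_snd (s : ℕ → Bool) (t : ℕ) : (P.lt s t).map Prod.snd = P.tl t := by
  unfold lt tl
  rcases hw : P.w t with _ | _ | _
  · rfl
  · rfl
  · by_cases h : P.rid t
    · simp [h]
    · simp [h]

lemma W_snd (s : ℕ → Bool) : (P.W s).map Prod.snd = P.tks := by
  unfold W tks
  rw [List.map_flatMap]
  congr 1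
  funext t
  exact P.lt_snd s t

/-- the scalar product over all tokens -/
lemma sp_tks {V V' : T → B} (h : P.Eq V) (h' : P.Eq V') : sp V V' P.tks = P.ss V V' := by
  have key : ∀ m ≤ P.n, sp V V' ((List.range m).flatMap P.tl) =
      ∑ t ∈ (Finset.range m).filter (fun t => P.w t ≠ .z), V (P.tk t) * V' (P.tk t) := by
    intro m
    induction m with
    | zero => intro _; rfl
    | succ m ih =>
      intro hm
      rw [List.range_succ, List.flatMap_append, sp_append, ih (by omega), Finset.sum_filter,
        Finset.sum_filter, Finset.sum_range_succ]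
      congr 1
      simp only [List.flatMap_cons, List.flatMap_nil, List.append_nil]
      unfold tl
      rcases hw : P.w m with _ | _ | _
      · simp
      · simp
      · by_cases hr : P.rid m
        · have h1 := h m (by omega) hr
          have h2 := h' m (by omega) hr
          simp [hr, h1, h2, b_add_self]
        · simp [hr]
  exact key P.n le_rfl

end Pl

/-! ## Closed walks of total `2` or `-2` -/

lemma sp_reverse {T : Type*} (V V' : T → B) (l : List T) : sp V V' l.reverse = sp V V' l := by
  unfold sp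
  rw [List.map_reverse, List.sum_reverse]

lemma Cl.par_neg {T : Type*} {V V' : T → B} {w : List (Bool × T)} (hh : hl w = -2) (h : Cl V w)
    (h' : Cl V' w) : sp V V' (w.map Prod.snd) = 0 := by
  have h1 : hl (lrev w) = 2 := by rw [hl_lrev, hh]; norm_num
  have h2 := Cl.par h1 h.lrev h'.lrev
  have h3 : (lrev w).map Prod.snd = (w.map Prod.snd).reverse := by
    unfold lrev
    rw [List.map_reverse, List.map_map]
    rfl
  rwa [h3, sp_reverse] at h2

lemma Cl.const {T : Type*} (c : B) (w : List (Bool × T)) : Cl (fun _ => c) w := by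
  have key : ∀ w : List (Bool × T), Run (lv (fun _ => c) w) (fun _ => c) (fun _ => c) := by
    intro w
    induction w with
    | nil => rfl
    | cons q w ih =>
      obtain ⟨b, t⟩ := q
      cases b
      · have e : push c (fun _ : ℕ => c) = fun _ => c := by
          funext j; cases j <;> rfl
        rw [lv_cons]
        show Run (lv _ w) (push c fun _ => c) _
        rw [e]; exact ih
      · rw [lv_cons]
        exact ⟨rfl, ih⟩
  exact ⟨fun _ => c, key w, 0, c, fun _ _ => rfl⟩

end Pool.Agent.MP42.PD
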