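import Pool.Agent.MP42.PD.Out1
import Pool.Agent.MP42.U.Abs

/-!
# Systems of circles (owner helper55)

`Sy n T`: `n` circles with places `P f` and own links `O f`; `Sy.glob`: letters exist such that every
solution of all words is constant.
-/

set_option autoImplicit false
set_option linter.unusedSectionVars false

namespace Pool.Agent.MP42.PD

open Pool.Agent.MP42.U

/-- own link of a circle: single, double, double and never dropped; root of the top level: single or
double link to its last child -/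
inductive Ow (T : Type*)
  | s (l : T)
  | d (l r : T)
  | rt (l r : T)
  | g1 (g : T)
  | g2 (g g' : T)

namespace Ow

variable {T : Type*}

/-- the tokens -/
def tks : Ow T → List T
  | s l => [l]
  | d l r => [l, r]
  | rt l r => [l, r]
  | g1 g => [g]
  | g2 g g' => [g, g']

/-- the token whose value is the value of the own link -/
def m : Ow T → T
  | s l => l
  | d l _ => l
  | rt l _ => l
  | g1 g => g
  | g2 g _ => g

/-- single -/
def sg : Ow T → Prop
  | s _ => True
  | g1 _ => True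
  | _ => False

/-- the word of the circle; `W` = word of the items, `d` = the own link is dropped -/
def word (W : List (Bool × T)) (d : Bool) : Ow T → List (Bool × T)
  | s l => (true, l) :: W
  | .d l r => if d then W else (true, l) :: (W ++ [(true, r)])
  | rt l r => (true, l) :: (W ++ [(true, r)])
  | g1 g => W ++ [(false, g)]
  | g2 g g' => W ++ [(false, g), (false, g')]

/-- the equation of a dropped own link -/
def eqd (V : T → B) (d : Bool) : Ow T → Prop
  | .d l r => d = true → V l = V r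
  | _ => True

/-- the total of the items -/
def tot (d : Bool) : Ow T → ℤ
  | s _ => 1
  | .d _ _ => if d then 2 else 0
  | rt _ _ => 0
  | g1 _ => -1
  | g2 _ _ => 0

/-- all own tokens have the same value -/
def one (V : T → B) : Ow T → Prop
  | s _ => True
  | d l r => V r = V l
  | rt l r => V r = V l
  | g1 _ => True
  | g2 g g' => V g' = V g

/-- the number of left overs -/
def cap : Ow T → ℕ
  | s _ => 2
  | d _ _ => 2
  | rt _ _ => 1
  | g1 _ => 0
  | g2 _ _ => 0

end Ow

/-- a system of circles -/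
structure Sy (n : ℕ) (T : Type*) where
  lam : T → T
  lam_lam : ∀ t, lam (lam t) = t
  lam_ne : ∀ t, lam t ≠ t
  nd : T → Fin n
  P : Fin n → Pl T
  O : Fin n → Ow T
  nodup : ∀ f, ((O f).tks ++ (P f).tks).Nodup
  mem : ∀ f x, x ∈ (O f).tks ++ (P f).tks ↔ nd x = f
  /-- even children -/
  ch : ∀ f, ∀ t < (P f).n, (P f).rid t → ∃ g, f < g ∧ ∃ l r, O g = .d l r ∧
    (((P f).ra t = lam l ∧ (P f).rb t = lam r) ∨ ((P f).ra t = lam r ∧ (P f).rb t = lam l))
  /-- the link which is never dropped -/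
  rt : ∀ f l r, O f = .rt l r → lam l = r ∨ ∃ h, f < h ∧ ∃ g g', O h = .g2 g g' ∧
    ((lam l = g ∧ lam r = g') ∨ (lam l = g' ∧ lam r = g))
  /-- parities -/
  par : ∀ f, (O f).sg ↔ Odd (P f).nod

namespace Sy

variable {n : ℕ} {T : Type*} (G : Sy n T)

/-- closed walk -/
def N (f : Fin n) (σ : (ℕ → Bool) × Bool) (V : T → B) : Prop :=
  Cl V ((G.O f).word ((G.P f).W σ.1) σ.2) ∧ (G.O f).eqd V σ.2

/-- compatible with the cells -/
def M (K : ℕ) (f : Fin n) (V : T → B) : Prop :=
  (G.P f).M K V (V (G.O f).m) ∧ (G.O f).one V ∧ (G.P f).Eq V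

/-- total and bounds -/
def C (D : ℤ) (f : Fin n) (σ : (ℕ → Bool) × Bool) : Prop :=
  hl ((G.P f).W σ.1) = (G.O f).tot σ.2 ∧ Pl.Bdd D ((G.P f).W σ.1)

/-- the circle lemmas -/
structure CLs (K : ℕ) (D : ℤ) : Prop where
  c1 : ∀ f, (G.P f).C1 K D
  c2 : ∀ f, (G.P f).C2 K D
  c3 : ∀ f, (G.P f).C3 K D
  c4 : ∀ f, (G.P f).C4 K D
  c5 : ∀ f, (G.P f).C5 K D

variable {G}

lemma hsum [Fintype T] (f : Fin n) (V V' : T → B) :
    sp V V' ((G.O f).tks ++ (G.P f).tks) = ∑ x with G.nd x = f, V x * V' x := by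
  classical
  unfold sp
  rw [← List.sum_toFinset (fun x => V x * V' x) (G.nodup f)]
  refine Finset.sum_congr ?_ fun _ _ => rfl
  ext x
  rw [List.mem_toFinset, G.mem, Finset.mem_filter]
  simp

lemma parM {K : ℕ} (hK : 2 ≤ K) (hl : ∀ f, (G.P f).lam K ≤ 2) (f : Fin n) (V V' : T → B)
    (h : G.M K f V) (h' : G.M K f V') : sp V V' ((G.O f).tks ++ (G.P f).tks) = 0 := by
  obtain ⟨h1, h2, h3⟩ := h
  obtain ⟨h4, h5, h6⟩ := h'
  rw [sp_append, Pl.sp_tks _ h3 h6, Pl.M_par _ h1 h4 hK (hl f)]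
  have hp := G.par f
  have hodd : Odd (G.P f).nod → ((G.P f).nod : B) = 1 := fun h => by
    rw [ZMod.natCast_eq_one_iff_odd]; exact h
  have hev : ¬ Odd (G.P f).nod → ((G.P f).nod : B) = 0 := fun h => by
    rw [ZMod.natCast_eq_zero_iff_even]
    exact Nat.not_odd_iff_even.1 h
  rcases hO : G.O f with l | ⟨l, r⟩ | ⟨l, r⟩ | g | ⟨g, g'⟩ <;> rw [hO] at hp h2 h5
  · rw [hodd (hp.1 trivial)]
    simp [Ow.tks, Ow.m, b_add_self]
  · have h2 : V r = V l := h2
    have h5 : V' r = V' l := h5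
    rw [hev fun h => hp.2 h]
    simp [Ow.tks, Ow.m, h2, h5, b_add_self]
  · have h2 : V r = V l := h2
    have h5 : V' r = V' l := h5
    rw [hev fun h => hp.2 h]
    simp [Ow.tks, Ow.m, h2, h5, b_add_self]
  · rw [hodd (hp.1 trivial)]
    simp [Ow.tks, Ow.m, b_add_self]
  · have h2 : V g' = V g := h2
    have h5 : V' g' = V' g := h5
    rw [hev fun h => hp.2 h]
    simp [Ow.tks, Ow.m, h2, h5, b_add_self]

lemma parN {D : ℤ} (f : Fin n) (σ : (ℕ → Bool) × Bool) (V V' : T → B) (hC : G.C D f σ)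
    (h : G.N f σ V) (h' : G.N f σ V') : sp V V' ((G.O f).tks ++ (G.P f).tks) = 0 := by
  obtain ⟨h1, h2⟩ := h
  obtain ⟨h3, h4⟩ := h'
  have hW : ((G.P f).W σ.1).map Prod.snd = (G.P f).tks := Pl.W_snd _ _
  have ht := hC.1
  rcases hO : G.O f with l | ⟨l, r⟩ | ⟨l, r⟩ | g | ⟨g, g'⟩ <;> rw [hO] at h1 h2 h3 h4 ht
  · have ew : (Ow.s l).word ((G.P f).W σ.1) σ.2 = (true, l) :: (G.P f).W σ.1 := rfl
    have et : (Ow.s l).tot σ.2 = 1 := rfl
    rw [ew] at h1 h3
    rw [et] at ht
    have h5 := Cl.par (by rw [hl_cons, ht]; simp) h1 h3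
    rw [List.map_cons, hW] at h5
    exact h5
  · by_cases hd : σ.2 = true
    · have ew : (Ow.d l r).word ((G.P f).W σ.1) σ.2 = (G.P f).W σ.1 := if_pos hd
      have et : (Ow.d l r).tot σ.2 = 2 := if_pos hd
      rw [ew] at h1 h3
      rw [et] at ht
      have h5 := Cl.par ht h1 h3
      rw [hW] at h5
      have e1 : V l = V r := h2 hd
      have e2 : V' l = V' r := h4 hd
      rw [sp_append, h5]
      simp [Ow.tks, e1, e2, b_add_self]
    · have ew : (Ow.d l r).word ((G.P f).W σ.1) σ.2 = (true, l) :: ((G.P f).W σ.1 ++ [(true, r)]) :=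
        if_neg hd
      have et : (Ow.d l r).tot σ.2 = 0 := if_neg hd
      rw [ew] at h1 h3
      rw [et] at ht
      have h5 := Cl.par (by rw [hl_cons, hl_append, ht]; simp) h1 h3
      rw [List.map_cons, List.map_append, hW] at h5
      rw [sp_cons, sp_append, List.map_cons, List.map_nil] at h5
      rw [sp_append]
      simp only [Ow.tks, sp_cons, sp_nil] at h5 ⊢
      linear_combination h5
  · have ew : (Ow.rt l r).word ((G.P f).W σ.1) σ.2 = (true, l) :: ((G.P f).W σ.1 ++ [(true, r)]) := rfl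
    have et : (Ow.rt l r).tot σ.2 = 0 := rfl
    rw [ew] at h1 h3
    rw [et] at ht
    have h5 := Cl.par (by rw [hl_cons, hl_append, ht]; simp) h1 h3
    rw [List.map_cons, List.map_append, hW] at h5
    rw [sp_cons, sp_append, List.map_cons, List.map_nil] at h5
    rw [sp_append]
    simp only [Ow.tks, sp_cons, sp_nil] at h5 ⊢
    linear_combination h5
  · have ew : (Ow.g1 g).word ((G.P f).W σ.1) σ.2 = (G.P f).W σ.1 ++ [(false, g)] := rfl
    have et : (Ow.g1 g).tot σ.2 = -1 := rfl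
    rw [ew] at h1 h3
    rw [et] at ht
    have h5 := Cl.par_neg (by rw [hl_append, ht]; simp) h1 h3
    rw [List.map_append, hW, sp_append, List.map_cons, List.map_nil] at h5
    rw [sp_append]
    simp only [Ow.tks] at h5 ⊢
    linear_combination h5
  · have ew : (Ow.g2 g g').word ((G.P f).W σ.1) σ.2 = (G.P f).W σ.1 ++ [(false, g), (false, g')] := rfl
    have et : (Ow.g2 g g').tot σ.2 = 0 := rfl
    rw [ew] at h1 h3
    rw [et] at ht
    have h5 := Cl.par_neg (by rw [hl_append, ht]; simp) h1 h3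
    rw [List.map_append, hW, sp_append, List.map_cons, List.map_cons, List.map_nil] at h5
    rw [sp_append]
    simp only [Ow.tks] at h5 ⊢
    linear_combination h5

/-- both lanes of an even child have the same value -/
lemma eq_of {K : ℕ} {f : Fin n} {V : T → B} (hV : ∀ x, V (G.lam x) = V x)
    (h : ∀ g, f < g → G.M K g V) : (G.P f).Eq V := by
  intro t ht hr
  obtain ⟨g, hg, l, r, hO, hc⟩ := G.ch f t ht hr
  have h1 := (h g hg).2.1
  rw [hO] at h1
  have h1 : V r = V l := h1
  rcases hc with ⟨h2, h3⟩ | ⟨h2, h3⟩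
  · rw [h2, h3, hV, hV, h1]
  · rw [h2, h3, hV, hV, h1]

/-- **letters exist such that every solution is constant** -/
theorem glob [Fintype T] {K : ℕ} {D : ℤ} (hK : 2 ≤ K) (hcap : ∀ f, (G.P f).lam K ≤ (G.O f).cap)
    (hC : G.CLs K D)
    (conn : ∀ V : T → B, (∀ x, V (G.lam x) = V x) → (∀ f, G.M K f V) → ∀ x y, V x = V y) :
    ∃ σ : Fin n → (ℕ → Bool) × Bool, (∀ f, G.C D f (σ f)) ∧
      ∀ V : T → B, (∀ x, V (G.lam x) = V x) → (∀ f, G.N f (σ f) V) → ∀ x y, V x = V y := by
  classical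
  have hl2 : ∀ f, (G.P f).lam K ≤ 2 := fun f => (hcap f).trans (by
    rcases G.O f with l | ⟨l, r⟩ | ⟨l, r⟩ | g | ⟨g, g'⟩ <;> simp [Ow.cap])
  refine U.glob (St := (ℕ → Bool) × Bool) G.lam G.nd G.lam_lam G.lam_ne (G.M K) G.N (G.C D)
    ?_ ?_ ?_ conn
  · intro f V V' h h'
    rw [← hsum f]
    exact parM hK hl2 f V V' h h'
  · intro f σ V V' hc h h'
    rw [← hsum f]
    exact parN f σ V V' hc h h'
  · intro f F h1 h2
    have hE : ∀ V ∈ F, (G.P f).Eq V := fun V hV => eq_of (h1 V hV).1 (h1 V hV).2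
    have hS : ∀ V ∈ F, ∀ V' ∈ F, sp V V' (G.O f).tks + (G.P f).ss V V' = 0 := by
      intro V hV V' hV'
      have h3 := h2 V hV V' hV'
      rw [← hsum f, sp_append, Pl.sp_tks _ (hE V hV) (hE V' hV')] at h3
      exact h3
    have hp := G.par f
    have hc := hcap f
    have hrt := G.rt f
    rcases hO : G.O f with l | ⟨l, r⟩ | ⟨l, r⟩ | g | ⟨g, g'⟩ <;> rw [hO] at hS hp hc
    · obtain ⟨s, a1, a2, a3⟩ := hC.c1 f hc (hp.1 trivial) l F hE (by
        intro V hV V' hV'
        have := hS V hV V' hV'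
        simpa [Ow.tks] using this)
      refine ⟨(s, false), ⟨by rw [hO]; exact a1, a2⟩, ?_⟩
      intro V hV hN
      obtain ⟨hN, -⟩ := hN
      rw [hO] at hN
      refine ⟨by rw [hO]; exact a3 V hV hN, by rw [hO]; trivial, hE V hV⟩
    · obtain ⟨s, d, a1, a1', a2, a3⟩ := hC.c2 f hc (Nat.not_odd_iff_even.1 fun h => hp.2 h) l r F hE (by
        intro V hV V' hV'
        have := hS V hV V' hV'
        simpa [Ow.tks, add_assoc] using this)
      refine ⟨(s, d), ⟨?_, a2⟩, ?_⟩
      · rw [hO]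
        show _ = if d then (2 : ℤ) else 0
        cases d
        · exact a1 rfl
        · exact a1' rfl
      · intro V hV hN
        obtain ⟨hN, hq⟩ := hN
        rw [hO] at hN hq
        obtain ⟨b1, b2⟩ := a3 V hV (by
          intro hd
          have hN : Cl V (if d then (G.P f).W s else (true, l) :: ((G.P f).W s ++ [(true, r)])) := hN
          rwa [hd] at hN) (by
          intro hd
          refine ⟨hq hd, ?_⟩
          have hN : Cl V (if d then (G.P f).W s else (true, l) :: ((G.P f).W s ++ [(true, r)])) := hN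
          rwa [hd] at hN)
        refine ⟨by rw [hO]; exact b2, by rw [hO]; exact b1, hE V hV⟩
    · have hlr : ∀ V ∈ F, V l = V r := by
        intro V hV
        rcases hrt l r hO with h3 | ⟨h, h3, g, g', h4, h5⟩
        · rw [← h3, (h1 V hV).1]
        · have h6 := ((h1 V hV).2 h h3).2.1
          rw [h4] at h6
          have h6 : V g' = V g := h6
          rcases h5 with ⟨h7, h8⟩ | ⟨h7, h8⟩
          · rw [← (h1 V hV).1 l, ← (h1 V hV).1 r, h7, h8, h6]
          · rw [← (h1 V hV).1 l, ← (h1 V hV).1 r, h7, h8, h6]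
      obtain ⟨s, a1, a2, a3⟩ := hC.c3 f hc (Nat.not_odd_iff_even.1 fun h => hp.2 h) l r F hE hlr (by
        intro V hV V' hV'
        have := hS V hV V' hV'
        simp only [Ow.tks, sp_cons, sp_nil, add_zero, hlr V hV, hlr V' hV', b_add_self,
          zero_add] at this
        exact this)
      refine ⟨(s, false), ⟨by rw [hO]; exact a1, a2⟩, ?_⟩
      intro V hV hN
      obtain ⟨hN, -⟩ := hN
      rw [hO] at hN
      refine ⟨by rw [hO]; exact a3 V hV hN, by rw [hO]; exact (hlr V hV).symm, hE V hV⟩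
    · obtain ⟨s, a1, a2, a3⟩ := hC.c4 f (Nat.le_zero.1 hc) (hp.1 trivial) g F hE (by
        intro V hV V' hV'
        have := hS V hV V' hV'
        simpa [Ow.tks] using this)
      refine ⟨(s, false), ⟨by rw [hO]; exact a1, a2⟩, ?_⟩
      intro V hV hN
      obtain ⟨hN, -⟩ := hN
      rw [hO] at hN
      refine ⟨by rw [hO]; exact a3 V hV hN, by rw [hO]; trivial, hE V hV⟩
    · obtain ⟨s, a1, a2, a3⟩ := hC.c5 f (Nat.le_zero.1 hc) (Nat.not_odd_iff_even.1 fun h => hp.2 h)
        g g' F hE (by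
        intro V hV V' hV'
        have := hS V hV V' hV'
        simpa [Ow.tks, add_assoc] using this)
      refine ⟨(s, false), ⟨by rw [hO]; exact a1, a2⟩, ?_⟩
      intro V hV hN
      obtain ⟨hN, -⟩ := hN
      rw [hO] at hN
      obtain ⟨b1, b2⟩ := a3 V hV hN
      refine ⟨by rw [hO]; exact b2, by rw [hO]; exact b1, hE V hV⟩

end Sy

end Pool.Agent.MP42.PD
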