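import Pool.Agent.MP42.PD.Out2

/-!
# Dropped links (owner helper55)

`Pl.Wp dr s`: the word without the even children `dr`.  `Sy.ext`: a solution on the present tokens
extends to a solution on all tokens.
-/

set_option autoImplicit false
set_option linter.unusedSectionVars false

namespace Pool.Agent.MP42.PD

open Pool.Agent.MP42.U

namespace Pl

variable {T : Type*} (P : Pl T)

open Classical in
/-- the word without the places `dr` -/
noncomputable def Wp (dr : ℕ → Prop) (s : ℕ → Bool) : List (Bool × T) :=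
  (List.range P.n).flatMap fun t => if dr t then [] else P.lt s t

lemma lt_rid {s : ℕ → Bool} {t : ℕ} (h : P.rid t) : P.lt s t = [(true, P.ra t), (false, P.rb t)] := by
  unfold lt
  rw [P.rid_z t h]
  simp [h]

lemma tl_rid {t : ℕ} (h : P.rid t) : P.tl t = [P.ra t, P.rb t] := by
  unfold tl
  rw [P.rid_z t h]
  simp [h]

lemma lv_congr {V V' : T → B} {w : List (Bool × T)} (h : ∀ q ∈ w, V q.2 = V' q.2) :
    lv V w = lv V' w := by
  unfold lv
  exact List.map_congr_left fun q hq => by rw [h q hq]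

lemma mem_lt {s : ℕ → Bool} {t : ℕ} {q : Bool × T} (h : q ∈ P.lt s t) : q.2 ∈ P.tl t := by
  rw [← P.lt_snd s t]
  exact List.mem_map.2 ⟨q, h, rfl⟩

open Classical in
/-- **a run without the dropped children is a run with them** -/
lemma lift {V0 : T → B} {s : ℕ → Bool} {dr : ℕ → Prop} (hdr : ∀ t, dr t → P.rid t) :
    ∀ (ts : List ℕ), ts.Nodup → ∀ S S' : ℕ → B,
      Run (lv V0 (ts.flatMap fun t => if dr t then [] else P.lt s t)) S S' →
      ∃ g : ℕ → B, ∀ V : T → B, (∀ t ∈ ts, ¬ dr t → ∀ x ∈ P.tl t, V x = V0 x) →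
        (∀ t ∈ ts, dr t → V (P.ra t) = g t ∧ V (P.rb t) = g t) →
        Run (lv V (ts.flatMap (P.lt s))) S S' := by
  intro ts
  induction ts with
  | nil =>
    intro _ S S' h
    exact ⟨fun _ => 0, fun V _ _ => h⟩
  | cons t ts ih =>
    intro hn S S' h
    obtain ⟨hn1, hn2⟩ := List.nodup_cons.1 hn
    rw [List.flatMap_cons, lv_append, run_append] at h
    obtain ⟨S₁, h1, h2⟩ := h
    obtain ⟨g, hg⟩ := ih hn2 S₁ S' h2
    by_cases hd : dr t
    · rw [if_pos hd] at h1
      have h1 : S = S₁ := h1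
      subst h1
      refine ⟨Function.update g t (S 0), ?_⟩
      intro V hV1 hV2
      rw [List.flatMap_cons, lv_append, run_append]
      refine ⟨S, ?_, ?_⟩
      · rw [P.lt_rid (hdr t hd)]
        obtain ⟨e1, e2⟩ := hV2 t List.mem_cons_self hd
        rw [Function.update_self] at e1 e2
        show V (P.ra t) = S 0 ∧ push (V (P.rb t)) (U.tl S) = S
        rw [e1, e2]
        exact ⟨rfl, push_tl S⟩
      · refine hg V (fun t' ht' => hV1 t' (List.mem_cons_of_mem _ ht')) ?_
        intro t' ht' hd'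
        have hne : t' ≠ t := fun h => hn1 (h ▸ ht')
        have := hV2 t' (List.mem_cons_of_mem _ ht') hd'
        rwa [Function.update_of_ne hne] at this
    · rw [if_neg hd] at h1
      refine ⟨g, ?_⟩
      intro V hV1 hV2
      rw [List.flatMap_cons, lv_append, run_append]
      refine ⟨S₁, ?_, ?_⟩
      · rw [lv_congr (V' := V0)]
        · exact h1
        · intro q hq
          exact hV1 t List.mem_cons_self hd _ (P.mem_lt hq)
      · exact hg V (fun t' ht' => hV1 t' (List.mem_cons_of_mem _ ht'))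
          (fun t' ht' => hV2 t' (List.mem_cons_of_mem _ ht'))

lemma tl_inj (h : P.tks.Nodup) {t t' : ℕ} (ht : t < P.n) (ht' : t' < P.n) {x : T}
    (hx : x ∈ P.tl t) (hx' : x ∈ P.tl t') : t = t' := by
  unfold tks at h
  obtain ⟨-, h2⟩ := List.nodup_flatMap.1 h
  rw [List.pairwise_iff_getElem] at h2
  by_contra hne
  rcases lt_or_gt_of_ne hne with hlt | hlt
  · have := h2 t t' (by simpa using ht) (by simpa using ht') hlt
    simp only [List.getElem_range] at this
    exact this hx hx'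
  · have := h2 t' t (by simpa using ht') (by simpa using ht) hlt
    simp only [List.getElem_range] at this
    exact this hx' hx

lemma mem_tks {x : T} : x ∈ P.tks ↔ ∃ t < P.n, x ∈ P.tl t := by
  unfold tks
  rw [List.mem_flatMap]
  simp

lemma hl_rid {s : ℕ → Bool} {t : ℕ} (h : P.rid t) : hl (P.lt s t) = 0 := by
  rw [P.lt_rid h]; simp

open Classical in
lemma hl_Wp {s : ℕ → Bool} {dr : ℕ → Prop} (hdr : ∀ t, dr t → P.rid t) :
    hl (P.Wp dr s) = hl (P.W s) := by
  unfold Wp W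
  generalize List.range P.n = ts
  induction ts with
  | nil => rfl
  | cons t ts ih =>
    rw [List.flatMap_cons, List.flatMap_cons, hl_append, hl_append, ih]
    by_cases hd : dr t
    · rw [if_pos hd, P.hl_rid (hdr t hd)]; rfl
    · rw [if_neg hd]

open Classical in
lemma bdd_Wp {D : ℤ} {s : ℕ → Bool} {dr : ℕ → Prop} (hdr : ∀ t, dr t → P.rid t)
    (h : Bdd D (P.W s)) : Bdd D (P.Wp dr s) := by
  have key : ∀ ts : List ℕ, ∀ p q : List (Bool × T),
      (ts.flatMap fun t => if dr t then [] else P.lt s t) = p ++ q →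
      ∃ p' q', ts.flatMap (P.lt s) = p' ++ q' ∧ hl p' = hl p := by
    intro ts
    induction ts with
    | nil =>
      intro p q h
      obtain ⟨rfl, rfl⟩ := List.append_eq_nil_iff.1 h.symm
      exact ⟨[], [], rfl, rfl⟩
    | cons t ts ih =>
      intro p q h
      rw [List.flatMap_cons] at h
      by_cases hd : dr t
      · rw [if_pos hd, List.nil_append] at h
        obtain ⟨p', q', h1, h2⟩ := ih p q h
        refine ⟨P.lt s t ++ p', q', by rw [List.flatMap_cons, h1, List.append_assoc], ?_⟩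
        rw [hl_append, h2, P.hl_rid (hdr t hd), zero_add]
      · rw [if_neg hd] at h
        rcases List.append_eq_append_iff.1 h with ⟨z, h1, h2⟩ | ⟨z, h1, h2⟩
        · obtain ⟨p', q', h3, h4⟩ := ih z q h2
          refine ⟨P.lt s t ++ p', q', by rw [List.flatMap_cons, h3, List.append_assoc], ?_⟩
          rw [h1, hl_append, hl_append, h4]
        · refine ⟨p, z ++ ts.flatMap (P.lt s), ?_, rfl⟩
          rw [List.flatMap_cons, h1, List.append_assoc]
  intro p q hpq
  obtain ⟨p', q', h1, h2⟩ := key _ p q hpq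
  rw [← h2]
  exact h p' q' h1

end Pl

namespace Sy

variable {n : ℕ} {T : Type*} (G : Sy n T) (σ : Fin n → (ℕ → Bool) × Bool)

/-- the circle `g` is the child at the place `t` of `f` -/
def Chi (f : Fin n) (t : ℕ) (g : Fin n) : Prop := t < (G.P f).n ∧ (G.P f).rid t ∧
  ∃ l r, G.O g = .d l r ∧
    (((G.P f).ra t = G.lam l ∧ (G.P f).rb t = G.lam r) ∨
      ((G.P f).ra t = G.lam r ∧ (G.P f).rb t = G.lam l))

/-- every double link has its place -/
def Hosted : Prop := ∀ g l r, G.O g = .d l r → ∃ f t, G.Chi f t g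

/-- the own link of `g` is dropped -/
def Dr (g : Fin n) : Prop := (∃ l r, G.O g = .d l r) ∧ (σ g).2 = true

/-- the place `t` of `f` is a dropped child -/
def dr (f : Fin n) (t : ℕ) : Prop := ∃ g, G.Chi f t g ∧ G.Dr σ g

/-- absent tokens -/
def Abs (x : T) : Prop := ∃ g, G.Dr σ g ∧ ∃ l r, G.O g = .d l r ∧
  (x = l ∨ x = r ∨ x = G.lam l ∨ x = G.lam r)

/-- the word on the present tokens -/
noncomputable def wp (f : Fin n) : List (Bool × T) :=
  (G.O f).word ((G.P f).Wp (G.dr σ f) (σ f).1) (σ f).2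

variable {G σ}

lemma dr_rid {f : Fin n} {t : ℕ} (h : G.dr σ f t) : (G.P f).rid t := by
  obtain ⟨g, h1, -⟩ := h
  exact h1.2.1

lemma nd_own {f : Fin n} {x : T} (h : x ∈ (G.O f).tks) : G.nd x = f :=
  (G.mem f x).1 (List.mem_append_left _ h)

lemma nd_tks {f : Fin n} {x : T} (h : x ∈ (G.P f).tks) : G.nd x = f :=
  (G.mem f x).1 (List.mem_append_right _ h)

lemma disj {f f' : Fin n} {x : T} (h : x ∈ (G.O f).tks) (h' : x ∈ (G.P f').tks) : False := by
  have h1 : f = f' := by rw [← nd_own h, nd_tks h']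
  subst h1
  exact (List.nodup_append.1 (G.nodup f)).2.2 x h x h' rfl

lemma Chi.mem {f : Fin n} {t : ℕ} {g : Fin n} (h : G.Chi f t g) {l r : T} (hO : G.O g = .d l r) :
    G.lam l ∈ (G.P f).tl t ∧ G.lam r ∈ (G.P f).tl t := by
  obtain ⟨h1, h2, l', r', h3, h4⟩ := h
  rw [hO] at h3
  cases h3
  rw [Pl.tl_rid _ h2]
  rcases h4 with ⟨h5, h6⟩ | ⟨h5, h6⟩
  · rw [h5, h6]; simp
  · rw [h5, h6]; simp

/-- the place of a child is unique -/
lemma Chi.uniq {f f' : Fin n} {t t' : ℕ} {g : Fin n} (h : G.Chi f t g) (h' : G.Chi f' t' g) :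
    f = f' ∧ t = t' := by
  have h0 := h
  obtain ⟨h1, h2, l, r, h3, h4⟩ := h0
  obtain ⟨m1, -⟩ := h.mem h3
  obtain ⟨m1', -⟩ := h'.mem h3
  have e1 : G.nd (G.lam l) = f := nd_tks ((G.P f).mem_tks.2 ⟨t, h.1, m1⟩)
  have e2 : G.nd (G.lam l) = f' := nd_tks ((G.P f').mem_tks.2 ⟨t', h'.1, m1'⟩)
  have e3 : f = f' := by rw [← e1, e2]
  subst e3
  exact ⟨rfl, (G.P f).tl_inj (List.nodup_append.1 (G.nodup f)).2.1 h.1 h'.1 m1 m1'⟩

/-- the child at a place is unique -/
lemma Chi.uniq' {f : Fin n} {t : ℕ} {g g' : Fin n} (h : G.Chi f t g) (h' : G.Chi f t g') :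
    g = g' := by
  obtain ⟨h1, h2, l, r, h3, h4⟩ := h
  obtain ⟨-, -, l', r', h5, h6⟩ := h'
  have n1 : G.nd l = g := nd_own (by rw [h3]; simp [Ow.tks])
  have n2 : G.nd r = g := nd_own (by rw [h3]; simp [Ow.tks])
  have n3 : G.nd l' = g' := nd_own (by rw [h5]; simp [Ow.tks])
  have n4 : G.nd r' = g' := nd_own (by rw [h5]; simp [Ow.tks])
  have hi : ∀ {x y : T}, G.lam x = G.lam y → x = y := fun {x y} h => by
    rw [← G.lam_lam x, h, G.lam_lam]
  rcases h4 with ⟨a1, a2⟩ | ⟨a1, a2⟩ <;> rcases h6 with ⟨b1, b2⟩ | ⟨b1, b2⟩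
  · rw [← n1, ← n3, hi (a1.symm.trans b1)]
  · rw [← n1, ← n4, hi (a1.symm.trans b1)]
  · rw [← n2, ← n3, hi (a1.symm.trans b1)]
  · rw [← n2, ← n4, hi (a1.symm.trans b1)]

/-- tokens of places which are not dropped are present -/
lemma present_tl (hH : G.Hosted) {f : Fin n} {t : ℕ} (ht : t < (G.P f).n) (hd : ¬ G.dr σ f t)
    {x : T} (hx : x ∈ (G.P f).tl t) : ¬ G.Abs σ x := by
  rintro ⟨g, hg, l, r, hO, h⟩
  have hx' : x ∈ (G.P f).tks := (G.P f).mem_tks.2 ⟨t, ht, hx⟩
  obtain ⟨f', t', hc⟩ := hH g l r hO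
  obtain ⟨m1, m2⟩ := hc.mem hO
  rcases h with rfl | rfl | rfl | rfl
  · exact disj (f := g) (by rw [hO]; simp [Ow.tks]) hx'
  · exact disj (f := g) (by rw [hO]; simp [Ow.tks]) hx'
  · have e1 : f' = f := by
      rw [← nd_tks ((G.P f').mem_tks.2 ⟨t', hc.1, m1⟩), nd_tks hx']
    subst e1
    have e2 := (G.P f').tl_inj (List.nodup_append.1 (G.nodup f')).2.1 hc.1 ht m1 hx
    subst e2
    exact hd ⟨g, hc, hg⟩
  · have e1 : f' = f := by
      rw [← nd_tks ((G.P f').mem_tks.2 ⟨t', hc.1, m2⟩), nd_tks hx']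
    subst e1
    have e2 := (G.P f').tl_inj (List.nodup_append.1 (G.nodup f')).2.1 hc.1 ht m2 hx
    subst e2
    exact hd ⟨g, hc, hg⟩

/-- own tokens of links which are not dropped are present -/
lemma present_own (hH : G.Hosted) {f : Fin n} (hd : ¬ G.Dr σ f) {x : T} (hx : x ∈ (G.O f).tks) :
    ¬ G.Abs σ x := by
  rintro ⟨g, hg, l, r, hO, h⟩
  obtain ⟨f', t', hc⟩ := hH g l r hO
  obtain ⟨m1, m2⟩ := hc.mem hO
  rcases h with rfl | rfl | rfl | rfl
  · have : g = f := by rw [← nd_own (f := g) (x := x) (by rw [hO]; simp [Ow.tks]), nd_own hx]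
    exact hd (this ▸ hg)
  · have : g = f := by rw [← nd_own (f := g) (x := x) (by rw [hO]; simp [Ow.tks]), nd_own hx]
    exact hd (this ▸ hg)
  · exact disj hx ((G.P f').mem_tks.2 ⟨t', hc.1, m1⟩)
  · exact disj hx ((G.P f').mem_tks.2 ⟨t', hc.1, m2⟩)

/-- present tokens: other end -/
lemma abs_lam {x : T} (h : G.Abs σ x) : G.Abs σ (G.lam x) := by
  obtain ⟨g, hg, l, r, hO, h⟩ := h
  refine ⟨g, hg, l, r, hO, ?_⟩
  rcases h with rfl | rfl | rfl | rfl
  · exact Or.inr (Or.inr (Or.inl rfl))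
  · exact Or.inr (Or.inr (Or.inr rfl))
  · exact Or.inl (G.lam_lam _)
  · exact Or.inr (Or.inl (G.lam_lam _))

/-- **extension to the absent tokens** -/
theorem ext (hH : G.Hosted) {V0 : T → B} (hcl : ∀ f, Cl V0 (G.wp σ f)) :
    ∃ V : T → B, (∀ x, ¬ G.Abs σ x → V x = V0 x) ∧ (∀ x, G.Abs σ x → V (G.lam x) = V x) ∧
      ∀ f, G.N f (σ f) V := by
  classical
  -- the values of the dropped children
  have hg : ∀ f, ∃ g : ℕ → B, ∀ V : T → B, (∀ x, ¬ G.Abs σ x → V x = V0 x) →
      (∀ t < (G.P f).n, G.dr σ f t → V ((G.P f).ra t) = g t ∧ V ((G.P f).rb t) = g t) →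
      Cl V ((G.O f).word ((G.P f).W (σ f).1) (σ f).2) := by
    intro f
    have main : ∀ S S' : ℕ → B, Run (lv V0 ((G.P f).Wp (G.dr σ f) (σ f).1)) S S' →
        ∃ g : ℕ → B, ∀ V : T → B, (∀ x, ¬ G.Abs σ x → V x = V0 x) →
          (∀ t < (G.P f).n, G.dr σ f t → V ((G.P f).ra t) = g t ∧ V ((G.P f).rb t) = g t) →
          Run (lv V ((G.P f).W (σ f).1)) S S' := by
      intro S S' h
      obtain ⟨g, hg⟩ := (G.P f).lift (fun t => dr_rid (f := f) (t := t)) _ List.nodup_range S S' h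
      refine ⟨g, fun V h1 h2 => hg V ?_ ?_⟩
      · intro t ht hd x hx
        exact h1 x (present_tl hH (List.mem_range.1 ht) hd hx)
      · intro t ht hd
        exact h2 t (List.mem_range.1 ht) hd
    obtain ⟨S, h1, h2⟩ := hcl f
    unfold wp at h1
    rcases hO : G.O f with l | ⟨l, r⟩ | ⟨l, r⟩ | g | ⟨g, g'⟩ <;> rw [hO] at h1
    · have hp : ∀ x ∈ (G.O f).tks, ¬ G.Abs σ x := fun x hx => present_own hH (by
        rintro ⟨⟨l', r', h3⟩, -⟩
        rw [hO] at h3
        cases h3) hx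
      rw [hO] at hp
      have h3 : V0 l = S 0 ∧ Run (lv V0 ((G.P f).Wp (G.dr σ f) (σ f).1)) (U.tl S) S := h1
      obtain ⟨g, hg⟩ := main _ _ h3.2
      refine ⟨g, fun V e1 e2 => ⟨S, ?_, h2⟩⟩
      show V l = S 0 ∧ Run (lv V ((G.P f).W (σ f).1)) (U.tl S) S
      exact ⟨by rw [e1 l (hp l (by simp [Ow.tks])), h3.1], hg V e1 e2⟩
    · by_cases hd : (σ f).2 = true
      · have ew : ∀ W : List (Bool × T), (Ow.d l r).word W (σ f).2 = W := fun W => if_pos hd
        rw [ew] at h1
        obtain ⟨g, hg⟩ := main _ _ h1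
        refine ⟨g, fun V e1 e2 => ⟨S, ?_, h2⟩⟩
        rw [ew]
        exact hg V e1 e2
      · have ew : ∀ W : List (Bool × T), (Ow.d l r).word W (σ f).2 =
            (true, l) :: (W ++ [(true, r)]) := fun W => if_neg hd
        have hp : ∀ x ∈ (G.O f).tks, ¬ G.Abs σ x := fun x hx => present_own hH (by
          rintro ⟨-, h3⟩
          exact hd h3) hx
        rw [hO] at hp
        rw [ew, lv_cons, lv_append] at h1
        have h3 : V0 l = S 0 ∧ Run (lv V0 ((G.P f).Wp (G.dr σ f) (σ f).1) ++ lv V0 [(true, r)])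
            (U.tl S) S := h1
        obtain ⟨h3, h4⟩ := h3
        obtain ⟨S₁, h5, h6⟩ := run_append.1 h4
        obtain ⟨g, hg⟩ := main _ _ h5
        refine ⟨g, fun V e1 e2 => ⟨S, ?_, h2⟩⟩
        rw [ew, lv_cons, lv_append]
        refine ⟨by rw [e1 l (hp l (by simp [Ow.tks])), h3], run_append.2 ⟨S₁, hg V e1 e2, ?_⟩⟩
        have h6 : V0 r = S₁ 0 ∧ U.tl S₁ = S := h6
        exact ⟨by rw [e1 r (hp r (by simp [Ow.tks])), h6.1], h6.2⟩
    · have ew : ∀ W : List (Bool × T), (Ow.rt l r).word W (σ f).2 =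
          (true, l) :: (W ++ [(true, r)]) := fun W => rfl
      have hp : ∀ x ∈ (G.O f).tks, ¬ G.Abs σ x := fun x hx => present_own hH (by
        rintro ⟨⟨l', r', h3⟩, -⟩
        rw [hO] at h3
        cases h3) hx
      rw [hO] at hp
      rw [ew, lv_cons, lv_append] at h1
      have h3 : V0 l = S 0 ∧ Run (lv V0 ((G.P f).Wp (G.dr σ f) (σ f).1) ++ lv V0 [(true, r)])
          (U.tl S) S := h1
      obtain ⟨h3, h4⟩ := h3
      obtain ⟨S₁, h5, h6⟩ := run_append.1 h4
      obtain ⟨g, hg⟩ := main _ _ h5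
      refine ⟨g, fun V e1 e2 => ⟨S, ?_, h2⟩⟩
      rw [ew, lv_cons, lv_append]
      refine ⟨by rw [e1 l (hp l (by simp [Ow.tks])), h3], run_append.2 ⟨S₁, hg V e1 e2, ?_⟩⟩
      have h6 : V0 r = S₁ 0 ∧ U.tl S₁ = S := h6
      exact ⟨by rw [e1 r (hp r (by simp [Ow.tks])), h6.1], h6.2⟩
    · have ew : ∀ W : List (Bool × T), (Ow.g1 g).word W (σ f).2 = W ++ [(false, g)] :=
        fun W => rfl
      have hp : ∀ x ∈ (G.O f).tks, ¬ G.Abs σ x := fun x hx => present_own hH (by
        rintro ⟨⟨l', r', h3⟩, -⟩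
        rw [hO] at h3
        cases h3) hx
      rw [hO] at hp
      rw [ew, lv_append] at h1
      obtain ⟨S₁, h5, h6⟩ := run_append.1 h1
      obtain ⟨gg, hg⟩ := main _ _ h5
      refine ⟨gg, fun V e1 e2 => ⟨S, ?_, h2⟩⟩
      rw [ew, lv_append]
      refine run_append.2 ⟨S₁, hg V e1 e2, ?_⟩
      have h6 : push (V0 g) S₁ = S := h6
      show push (V g) S₁ = S
      rw [e1 g (hp g (by simp [Ow.tks])), h6]
    · have ew : ∀ W : List (Bool × T), (Ow.g2 g g').word W (σ f).2 =
          W ++ [(false, g), (false, g')] := fun W => rfl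
      have hp : ∀ x ∈ (G.O f).tks, ¬ G.Abs σ x := fun x hx => present_own hH (by
        rintro ⟨⟨l', r', h3⟩, -⟩
        rw [hO] at h3
        cases h3) hx
      rw [hO] at hp
      rw [ew, lv_append] at h1
      obtain ⟨S₁, h5, h6⟩ := run_append.1 h1
      obtain ⟨gg, hg⟩ := main _ _ h5
      refine ⟨gg, fun V e1 e2 => ⟨S, ?_, h2⟩⟩
      rw [ew, lv_append]
      refine run_append.2 ⟨S₁, hg V e1 e2, ?_⟩
      have h6 : push (V0 g') (push (V0 g) S₁) = S := h6
      show push (V g') (push (V g) S₁) = S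
      rw [e1 g (hp g (by simp [Ow.tks])), e1 g' (hp g' (by simp [Ow.tks])), h6]
  choose gv hgv using hg
  -- the value of a dropped link
  have hval : ∀ g, ∃ b : B, ∀ f t, G.Chi f t g → b = gv f t := by
    intro g
    by_cases h : ∃ f t, G.Chi f t g
    · obtain ⟨f, t, h⟩ := h
      refine ⟨gv f t, fun f' t' h' => ?_⟩
      obtain ⟨rfl, rfl⟩ := h.uniq h'
      rfl
    · exact ⟨0, fun f t h' => absurd ⟨f, t, h'⟩ h⟩
  choose b hb using hval
  obtain ⟨V, hV⟩ : ∃ V : T → B, V = fun x => if h : G.Abs σ x then b h.choose else V0 x := ⟨_, rfl⟩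
  -- absent tokens belong to one link
  have huniq : ∀ (x : T) (g g' : Fin n) (l r l' r' : T), G.O g = .d l r → G.O g' = .d l' r' →
      (x = l ∨ x = r ∨ x = G.lam l ∨ x = G.lam r) →
      (x = l' ∨ x = r' ∨ x = G.lam l' ∨ x = G.lam r') → g = g' := by
    intro x g g' l r l' r' hO hO' hx hx'
    have n1 : G.nd l = g := nd_own (by rw [hO]; simp [Ow.tks])
    have n2 : G.nd r = g := nd_own (by rw [hO]; simp [Ow.tks])
    have n3 : G.nd l' = g' := nd_own (by rw [hO']; simp [Ow.tks])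
    have n4 : G.nd r' = g' := nd_own (by rw [hO']; simp [Ow.tks])
    obtain ⟨f, t, hc⟩ := hH g l r hO
    obtain ⟨f', t', hc'⟩ := hH g' l' r' hO'
    obtain ⟨m1, m2⟩ := hc.mem hO
    obtain ⟨m3, m4⟩ := hc'.mem hO'
    have k1 : G.lam l ∈ (G.P f).tks := (G.P f).mem_tks.2 ⟨t, hc.1, m1⟩
    have k2 : G.lam r ∈ (G.P f).tks := (G.P f).mem_tks.2 ⟨t, hc.1, m2⟩
    have k3 : G.lam l' ∈ (G.P f').tks := (G.P f').mem_tks.2 ⟨t', hc'.1, m3⟩
    have k4 : G.lam r' ∈ (G.P f').tks := (G.P f').mem_tks.2 ⟨t', hc'.1, m4⟩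
    have hi : ∀ {x y : T}, G.lam x = G.lam y → x = y := fun {x y} h => by
      rw [← G.lam_lam x, h, G.lam_lam]
    have o1 : l ∈ (G.O g).tks := by rw [hO]; simp [Ow.tks]
    have o2 : r ∈ (G.O g).tks := by rw [hO]; simp [Ow.tks]
    have o3 : l' ∈ (G.O g').tks := by rw [hO']; simp [Ow.tks]
    have o4 : r' ∈ (G.O g').tks := by rw [hO']; simp [Ow.tks]
    have two : ∀ a ∈ [l, r], ∀ a' ∈ [l', r'], a = a' → g = g' := by
      intro a ha a' ha' h
      have e1 : G.nd a = g := nd_own (by rw [hO]; exact ha)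
      have e2 : G.nd a' = g' := nd_own (by rw [hO']; exact ha')
      rw [← e1, ← e2, h]
    rcases hx with h1 | h1 | h1 | h1 <;> rcases hx' with h2 | h2 | h2 | h2
    · exact two l (by simp) l' (by simp) (h1.symm.trans h2)
    · exact two l (by simp) r' (by simp) (h1.symm.trans h2)
    · exact (disj o1 (by rw [← h1, h2]; exact k3)).elim
    · exact (disj o1 (by rw [← h1, h2]; exact k4)).elim
    · exact two r (by simp) l' (by simp) (h1.symm.trans h2)
    · exact two r (by simp) r' (by simp) (h1.symm.trans h2)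
    · exact (disj o2 (by rw [← h1, h2]; exact k3)).elim
    · exact (disj o2 (by rw [← h1, h2]; exact k4)).elim
    · exact (disj o3 (by rw [← h2, h1]; exact k1)).elim
    · exact (disj o4 (by rw [← h2, h1]; exact k1)).elim
    · exact two l (by simp) l' (by simp) (hi (h1.symm.trans h2))
    · exact two l (by simp) r' (by simp) (hi (h1.symm.trans h2))
    · exact (disj o3 (by rw [← h2, h1]; exact k2)).elim
    · exact (disj o4 (by rw [← h2, h1]; exact k2)).elim
    · exact two r (by simp) l' (by simp) (hi (h1.symm.trans h2))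
    · exact two r (by simp) r' (by simp) (hi (h1.symm.trans h2))
  have hVabs : ∀ x g l r, G.Dr σ g → G.O g = .d l r →
      (x = l ∨ x = r ∨ x = G.lam l ∨ x = G.lam r) → V x = b g := by
    intro x g l r hg hO hx
    have hA : G.Abs σ x := ⟨g, hg, l, r, hO, hx⟩
    rw [hV]
    simp only [dif_pos hA]
    obtain ⟨-, l', r', hO', hx'⟩ := hA.choose_spec
    rw [huniq x _ g l' r' l r hO' hO hx' hx]
  have hV0 : ∀ x, ¬ G.Abs σ x → V x = V0 x := by
    intro x hx
    rw [hV]
    simp only [dif_neg hx]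
  refine ⟨V, hV0, ?_, ?_⟩
  · rintro x ⟨g, hg, l, r, hO, hx⟩
    rw [hVabs x g l r hg hO hx, hVabs (G.lam x) g l r hg hO]
    rcases hx with rfl | rfl | rfl | rfl
    · exact Or.inr (Or.inr (Or.inl rfl))
    · exact Or.inr (Or.inr (Or.inr rfl))
    · exact Or.inl (G.lam_lam _)
    · exact Or.inr (Or.inl (G.lam_lam _))
  · intro f
    refine ⟨hgv f V hV0 ?_, ?_⟩
    · intro t ht hd
      obtain ⟨g, hc, hg⟩ := hd
      have hc' := hc
      obtain ⟨-, -, l, r, hO, h⟩ := hc'
      have e := hb g f t hc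
      rw [← e]
      rcases h with ⟨h1, h2⟩ | ⟨h1, h2⟩
      · exact ⟨by rw [h1]; exact hVabs _ g l r hg hO (by simp),
          by rw [h2]; exact hVabs _ g l r hg hO (by simp)⟩
      · exact ⟨by rw [h1]; exact hVabs _ g l r hg hO (by simp),
          by rw [h2]; exact hVabs _ g l r hg hO (by simp)⟩
    · rcases hO : G.O f with l | ⟨l, r⟩ | ⟨l, r⟩ | g | ⟨g, g'⟩
      · trivial
      · intro hd
        have hD : G.Dr σ f := ⟨⟨l, r, hO⟩, hd⟩
        rw [hVabs l f l r hD hO (by simp), hVabs r f l r hD hO (by simp)]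
      · trivial
      · trivial
      · trivial

/-- **every solution on the present tokens is constant**; `R` = tokens whose pairs are not known to be
equal -/
theorem const [Fintype T] {K : ℕ} {D : ℤ} (hK : 2 ≤ K) (hcap : ∀ f, (G.P f).lam K ≤ (G.O f).cap)
    (hC : G.CLs K D) (hH : G.Hosted)
    (conn : ∀ V : T → B, (∀ x, V (G.lam x) = V x) → (∀ f, G.M K f V) → ∀ x y, V x = V y) :
    ∃ σ : Fin n → (ℕ → Bool) × Bool, (∀ f, G.C D f (σ f)) ∧
      ∀ V : T → B, ∀ a : T, (∀ x, ¬ G.Abs σ x → x ≠ a → x ≠ G.lam a → V (G.lam x) = V x) →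
        (∀ f, Cl V (G.wp σ f)) → ∃ k, ∀ x, ¬ G.Abs σ x → V x = k := by
  classical
  obtain ⟨σ, h1, h2⟩ := glob hK hcap hC conn
  refine ⟨σ, h1, ?_⟩
  intro V0 a h3 h4
  obtain ⟨V, e1, e2, e3⟩ := ext hH h4
  -- all pairs with at most one exception
  have e4 : ∀ x, x ≠ a → x ≠ G.lam a → V (G.lam x) = V x := by
    intro x hx hx'
    by_cases hA : G.Abs σ x
    · exact e2 x hA
    · have hA' : ¬ G.Abs σ (G.lam x) := fun h => hA (by
        have := abs_lam h
        rwa [G.lam_lam] at this)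
      rw [e1 x hA, e1 _ hA', h3 x hA hx hx']
  have e5 : V (G.lam a) = V a := by
    have h5 : ∑ x, V x * 1 = 0 := by
      rw [← Finset.sum_fiberwise (s := Finset.univ) (g := G.nd)]
      refine Finset.sum_eq_zero fun f _ => ?_
      rw [← hsum f V (fun _ => 1)]
      refine parN f (σ f) V (fun _ => 1) (h1 f) (e3 f) ⟨Cl.const 1 _, ?_⟩
      rcases G.O f with l | ⟨l, r⟩ | ⟨l, r⟩ | g | ⟨g, g'⟩
      · trivial
      · intro _; rfl
      · trivial
      · trivial
      · trivial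
    have hne : a ≠ G.lam a := fun h => G.lam_ne a h.symm
    have h6 : ∑ x ∈ (Finset.univ.erase a).erase (G.lam a), V x * 1 = 0 := by
      refine Finset.sum_involution (fun x _ => G.lam x) ?_ ?_ ?_ ?_
      · intro x hx
        simp only [Finset.mem_erase, Finset.mem_univ, and_true] at hx
        rw [e4 x hx.2 hx.1]
        exact b_add_self _
      · intro x _ _
        exact G.lam_ne x
      · intro x hx
        simp only [Finset.mem_erase, Finset.mem_univ, and_true] at hx ⊢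
        refine ⟨fun h => hx.2 ?_, fun h => hx.1 ?_⟩
        · rw [← G.lam_lam x, h, G.lam_lam]
        · rw [← h, G.lam_lam]
      · intro x _
        exact G.lam_lam x
    rw [← Finset.add_sum_erase _ _ (Finset.mem_univ a),
      ← Finset.add_sum_erase _ _ (Finset.mem_erase.2 ⟨hne.symm, Finset.mem_univ _⟩), h6] at h5
    have h7 := b_add_self (V (G.lam a))
    simp only [mul_one, add_zero] at h5
    linear_combination h7 - h5
  have e6 : ∀ x, V (G.lam x) = V x := by
    intro x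
    by_cases hx : x = a
    · rw [hx]; exact e5
    by_cases hx' : x = G.lam a
    · rw [hx', G.lam_lam]; exact e5.symm
    · exact e4 x hx hx'
  have h8 := h2 V e6 e3
  exact ⟨V a, fun x hx => by rw [← e1 x hx]; exact h8 x a⟩

end Sy

end Pool.Agent.MP42.PD
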