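import Pool.Agent.MP42.PD.Out3

/-!
# The system of circles of a level (owner helper55)

`Tn`: names of tokens.  `Lc`: a level with its special circles `r` and (top level) `tp = some g1`.
-/

set_option autoImplicit false
set_option linter.unusedSectionVars false

namespace Pool.Agent.MP42.PD

open Pool.Agent.MP42.U

/-- names of tokens: letter; token of the link of the circle `c` at `c`, at its host; `true` = lane read
first at the host -/
inductive Tn (C α : Type*)
  | pt (p : α)
  | ow (c : C) (b : Bool)
  | ho (c : C) (b : Bool)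

/-- a level with the ports `x`; `tp` = last child of the root at the top level -/
structure Lc (C J α : Type*) [LinearOrder α] where
  L : Lv C J α
  x : J → Bool
  tp : Option C
  hsp : ∀ z, L.sp z ↔ z = L.Ct.r ∨ tp = some z
  htp : ∀ g, tp = some g → g ≠ L.Ct.r

namespace Lc

variable {C J α : Type*} [LinearOrder α] [Fintype J] (A : Lc C J α)

/-- the root -/
def r : C := A.L.Ct.r

/-- even circles -/
def ev (c : C) : Prop := ¬ Odd (A.L.cnt A.x c)

/-- valid tokens -/
def Val : Tn C α → Prop
  | .pt p => p ∈ A.L.used A.x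
  | .ow c b => (c = A.r → A.tp = none) ∧ (b = false → A.ev c)
  | .ho c b => c ≠ A.r ∧ (b = false → A.ev c)

/-- the tokens -/
abbrev T : Type _ := {t : Tn C α // A.Val t}

open Classical in
/-- a token which always exists -/
noncomputable def dfc : C := A.tp.getD A.r

lemma dfc_val : A.Val (.ow A.dfc true) := by
  refine ⟨fun h => ?_, fun h => by simp at h⟩
  rcases h1 : A.tp with _ | g
  · rfl
  · exfalso
    have h2 : A.dfc = g := by unfold dfc; rw [h1]; rfl
    exact A.htp g h1 (h2 ▸ h)

open Classical in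
/-- the token with the name `t` -/
noncomputable def tok (t : Tn C α) : A.T :=
  if h : A.Val t then ⟨t, h⟩ else ⟨.ow A.dfc true, A.dfc_val⟩

lemma tok_val {t : Tn C α} (h : A.Val t) : (A.tok t).1 = t := by
  unfold tok; rw [dif_pos h]

lemma tok_eq (t : A.T) : A.tok t.1 = t := by
  unfold tok; rw [dif_pos t.2]

lemma tok_inj {t t' : Tn C α} (h : A.Val t) (h' : A.Val t') (he : A.tok t = A.tok t') :
    t = t' := by
  rw [← A.tok_val h, he, A.tok_val h']

lemma mem_used {p : α} : p ∈ A.L.used A.x ↔ (∃ j, p = A.L.S.y j) ∨ ∃ j, p = A.L.S.port A.x j := by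
  classical
  unfold Lv.used
  rw [Finset.mem_union, Finset.mem_image, Finset.mem_image]
  constructor
  · rintro (⟨j, -, h⟩ | ⟨j, -, h⟩)
    · exact Or.inl ⟨j, h.symm⟩
    · exact Or.inr ⟨j, h.symm⟩
  · rintro (⟨j, h⟩ | ⟨j, h⟩)
    · exact Or.inl ⟨j, Finset.mem_univ _, h.symm⟩
    · exact Or.inr ⟨j, Finset.mem_univ _, h.symm⟩

open Classical in
/-- the other letter of a star -/
noncomputable def mate (p : α) : α :=
  if h : ∃ j, p = A.L.S.y j then A.L.S.port A.x h.choose
  else if h : ∃ j, p = A.L.S.port A.x j then A.L.S.y h.choose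
  else p

lemma mate_y (j : J) : A.mate (A.L.S.y j) = A.L.S.port A.x j := by
  have h : ∃ k, A.L.S.y j = A.L.S.y k := ⟨j, rfl⟩
  unfold mate
  rw [dif_pos h]
  exact congrArg _ (A.L.S.y_inj h.choose_spec).symm

lemma mate_x (j : J) : A.mate (A.L.S.port A.x j) = A.L.S.y j := by
  have h1 : ¬ ∃ k, A.L.S.port A.x j = A.L.S.y k := by
    rintro ⟨k, hk⟩
    exact A.L.S.y_ne_port A.x k j hk.symm
  have h : ∃ k, A.L.S.port A.x j = A.L.S.port A.x k := ⟨j, rfl⟩
  unfold mate
  rw [dif_neg h1, dif_pos h]
  exact congrArg _ (A.L.S.port_inj A.x h.choose_spec).symm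

/-- the number of letters is even -/
lemma used_card : (A.L.used A.x).card = 2 * Fintype.card J := by
  classical
  unfold Lv.used
  rw [Finset.card_union_of_disjoint, Finset.card_image_of_injective _ A.L.S.y_inj,
    Finset.card_image_of_injective _ (A.L.S.port_inj A.x), Finset.card_univ]
  · ring
  · rw [Finset.disjoint_left]
    intro p hp hp'
    obtain ⟨j, -, rfl⟩ := Finset.mem_image.1 hp
    obtain ⟨k, -, hk⟩ := Finset.mem_image.1 hp'
    exact A.L.S.y_ne_port A.x j k hk.symm

lemma ev_r : A.ev A.r := by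
  classical
  unfold ev
  rw [Nat.not_odd_iff_even]
  have h : A.L.cnt A.x A.r = (A.L.used A.x).card := by
    unfold Lv.cnt
    rw [Finset.filter_true_of_mem]
    intro p _
    exact A.L.Ct.top p
  rw [h, used_card]
  exact even_two_mul _

open Classical in
/-- the other end -/
noncomputable def lr : Tn C α → Tn C α
  | .pt p => .pt (A.mate p)
  | .ow c b => if c = A.r then .ow c (!b) else .ho c b
  | .ho c b => .ow c b

lemma lr_val {t : Tn C α} (h : A.Val t) : A.Val (A.lr t) := by
  classical
  cases t with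
  | pt p =>
    show A.mate p ∈ A.L.used A.x
    rcases A.mem_used.1 h with ⟨j, rfl⟩ | ⟨j, rfl⟩
    · rw [mate_y]; exact A.mem_used.2 (Or.inr ⟨j, rfl⟩)
    · rw [mate_x]; exact A.mem_used.2 (Or.inl ⟨j, rfl⟩)
  | ow c b =>
    by_cases hc : c = A.r
    · rw [lr, if_pos hc]
      refine ⟨h.1, fun _ => ?_⟩
      rw [hc]; exact A.ev_r
    · rw [lr, if_neg hc]
      exact ⟨hc, h.2⟩
  | ho c b => exact ⟨fun hc => absurd hc h.1, h.2⟩

lemma lr_lr {t : Tn C α} (h : A.Val t) : A.lr (A.lr t) = t := by
  classical
  cases t with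
  | pt p =>
    show Tn.pt (A.mate (A.mate p)) = _
    rcases A.mem_used.1 h with ⟨j, rfl⟩ | ⟨j, rfl⟩
    · rw [mate_y, mate_x]
    · rw [mate_x, mate_y]
  | ow c b =>
    by_cases hc : c = A.r
    · simp [lr, hc]
    · simp [lr, hc]
  | ho c b => simp [lr, h.1]

lemma lr_ne {t : Tn C α} (h : A.Val t) : A.lr t ≠ t := by
  classical
  cases t with
  | pt p =>
    intro he
    have he : A.mate p = p := by
      simpa [lr] using he
    rcases A.mem_used.1 h with ⟨j, rfl⟩ | ⟨j, rfl⟩
    · rw [mate_y] at he
      exact A.L.S.y_ne_port _ _ _ he.symm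
    · rw [mate_x] at he
      exact A.L.S.y_ne_port _ _ _ he
  | ow c b =>
    by_cases hc : c = A.r
    · simp [lr, hc]
    · simp [lr, hc]
  | ho c b => simp [lr]

/-- the other end -/
noncomputable def lam (t : A.T) : A.T := ⟨A.lr t.1, A.lr_val t.2⟩

/-- the circle of a token -/
def ndn : Tn C α → C
  | .pt p => A.L.Ct.pt p
  | .ow c _ => c
  | .ho c _ => A.L.Ct.par c

variable {A}

lemma finite_T [Finite C] : Finite A.T := by
  classical
  have h1 : Set.Finite {t : Tn C α | A.Val t} := by
    have h2 : (((fun p : α => (Tn.pt p : Tn C α)) '' (A.L.used A.x : Set α)) ∪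
        (Set.range (fun q : C × Bool => (Tn.ow q.1 q.2 : Tn C α)) ∪
          Set.range (fun q : C × Bool => (Tn.ho q.1 q.2 : Tn C α)))).Finite :=
      ((Finset.finite_toSet _).image _).union ((Set.finite_range _).union (Set.finite_range _))
    refine h2.subset ?_
    intro t ht
    cases t with
    | pt p => exact Or.inl ⟨p, ht, rfl⟩
    | ow c b => exact Or.inr (Or.inl ⟨(c, b), rfl⟩)
    | ho c b => exact Or.inr (Or.inr ⟨(c, b), rfl⟩)
  exact h1.to_subtype

variable (A)

/-! ## The places -/

/-- the first name of an item -/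
def nm1 : α ⊕ C → Tn C α
  | .inl p => .pt p
  | .inr c => .ho c true

/-- the second name of an item -/
def nm2 : α ⊕ C → Tn C α
  | .inl p => .pt p
  | .inr c => .ho c false

/-- the places of a circle -/
noncomputable def P (z : C) : Pl A.T where
  n := A.L.n z
  w := A.L.w A.x z
  rid := A.L.rid A.x z
  rid_z := by
    rintro t ⟨c, h1, h2⟩
    unfold Lv.w
    rw [h1]
    show (if Odd _ then Lt.u else Lt.z) = _
    rw [if_neg h2]
  tk t := match A.L.it z t with
    | none => A.tok (.ow A.dfc true)
    | some i => A.tok (nm1 i)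
  ra t := match A.L.it z t with
    | none => A.tok (.ow A.dfc true)
    | some i => A.tok (nm1 i)
  rb t := match A.L.it z t with
    | none => A.tok (.ow A.dfc true)
    | some i => A.tok (nm2 i)

open Classical in
/-- own link of a circle -/
noncomputable def O (z : C) : Ow A.T :=
  if z = A.r then
    match A.tp with
    | none => .rt (A.tok (.ow z false)) (A.tok (.ow z true))
    | some g => if A.ev g then .g2 (A.tok (.ho g false)) (A.tok (.ho g true))
      else .g1 (A.tok (.ho g true))
  else if A.tp = some z then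
    if A.ev z then .rt (A.tok (.ow z true)) (A.tok (.ow z false)) else .s (A.tok (.ow z true))
  else if A.ev z then
    if A.L.cls z ↔ A.L.cls (A.L.Ct.par z) then .d (A.tok (.ow z true)) (A.tok (.ow z false))
    else .d (A.tok (.ow z false)) (A.tok (.ow z true))
  else .s (A.tok (.ow z true))

open Classical in
/-- the tokens of an item -/
noncomputable def itk : α ⊕ C → List A.T
  | .inl p => if p ∈ A.L.used A.x then [A.tok (.pt p)] else []
  | .inr c => if A.ev c then [A.tok (.ho c true), A.tok (.ho c false)] else [A.tok (.ho c true)]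

variable {A}

lemma range_flatMap {β γ : Type*} (l : List β) (f : Option β → List γ) :
    (List.range l.length).flatMap (fun t => f (l[t]?)) = l.flatMap fun i => f (some i) := by
  have h : (List.range l.length).map (fun t => l[t]?) = l.map some := by
    refine List.ext_getElem (by simp) ?_
    intro i h1 h2
    simp at h1 h2 ⊢
  rw [← List.flatMap_map (f := fun t => l[t]?) (g := f), h, List.flatMap_map]

lemma lt_some {i : α ⊕ C} : A.L.lt A.x i ≠ .z ↔ (∀ p, i = .inl p → p ∈ A.L.used A.x) ∧
    ∀ c, i = .inr c → ¬ A.ev c := by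
  cases i with
  | inl p =>
    unfold Lv.lt
    simp only [Sum.inl.injEq, forall_eq', reduceCtorEq, false_implies, implies_true, and_true]
    rw [A.mem_used]
    split_ifs with h1 h2
    · simp [h1]
    · simp [h2]
    · simp [h1, h2]
  | inr c =>
    unfold Lv.lt ev
    simp only [Sum.inr.injEq, forall_eq', reduceCtorEq, false_implies, implies_true, true_and]
    split_ifs with h <;> simp [h]

lemma P_tks (z : C) : (A.P z).tks = (A.L.rd z).flatMap A.itk := by
  classical
  have h := range_flatMap (A.L.rd z) (fun o : Option (α ⊕ C) => match o with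
    | none => []
    | some i => A.itk i)
  rw [← h]
  unfold Pl.tks
  show (List.range (A.L.rd z).length).flatMap _ = _
  refine congrArg (fun f => (List.range (A.L.rd z).length).flatMap f) ?_
  funext t
  unfold Pl.tl
  show (match A.L.w A.x z t with
    | .o => [(A.P z).tk t]
    | .u => [(A.P z).tk t]
    | .z => if (A.P z).rid t then [(A.P z).ra t, (A.P z).rb t] else []) = _
  rcases hi : (A.L.rd z)[t]? with _ | i
  · have h1 : A.L.w A.x z t = .z := by
      unfold Lv.w Lv.it; rw [hi]
    have h2 : ¬ (A.P z).rid t := by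
      rintro ⟨c, h3, -⟩
      have h3 : (A.L.rd z)[t]? = _ := h3
      rw [hi] at h3
      cases h3
    rw [h1]
    simp [h2]
  · have h1 : A.L.w A.x z t = A.L.lt A.x i := by
      unfold Lv.w Lv.it; rw [hi]
    have hk : (A.P z).tk t = A.tok (nm1 i) := by
      show (match A.L.it z t with
        | none => A.tok (.ow A.dfc true)
        | some i => A.tok (nm1 i)) = _
      unfold Lv.it; rw [hi]
    have ha : (A.P z).ra t = A.tok (nm1 i) := hk
    have hb : (A.P z).rb t = A.tok (nm2 i) := by
      show (match A.L.it z t with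
        | none => A.tok (.ow A.dfc true)
        | some i => A.tok (nm2 i)) = _
      unfold Lv.it; rw [hi]
    rw [h1, hk, ha, hb]
    change _ = A.itk i
    cases i with
    | inl p =>
      by_cases hp : p ∈ A.L.used A.x
      · have h2 : A.L.lt A.x (.inl p) ≠ .z := lt_some.2 ⟨by simpa using hp, by simp⟩
        have e : A.itk (.inl p : α ⊕ C) = [A.tok (.pt p)] := if_pos hp
        rw [e]
        rcases hl : A.L.lt A.x (.inl p : α ⊕ C) with _ | _ | _
        · rfl
        · rfl
        · exact absurd hl h2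
      · have h2 : A.L.lt A.x (.inl p : α ⊕ C) = .z := by
          by_contra h3
          exact hp ((lt_some.1 h3).1 p rfl)
        have h3 : ¬ (A.P z).rid t := by
          rintro ⟨c, h3, -⟩
          have h3 : (A.L.rd z)[t]? = _ := h3
          rw [hi] at h3
          cases h3
        have e : A.itk (.inl p : α ⊕ C) = [] := if_neg hp
        rw [e, h2]
        simp [h3]
    | inr c =>
      by_cases hc : A.ev c
      · have h2 : A.L.lt A.x (.inr c : α ⊕ C) = .z := by
          by_contra h3
          exact (lt_some.1 h3).2 c rfl hc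
        have h3 : (A.P z).rid t := ⟨c, hi, hc⟩
        have e : A.itk (.inr c : α ⊕ C) = [A.tok (.ho c true), A.tok (.ho c false)] := if_pos hc
        rw [e, h2]
        simp only [h3, if_true]
        rfl
      · have h2 : A.L.lt A.x (.inr c : α ⊕ C) ≠ .z :=
          lt_some.2 ⟨by simp, by intro c' h; cases h; exact hc⟩
        have e : A.itk (.inr c : α ⊕ C) = [A.tok (.ho c true)] := if_neg hc
        rw [e]
        rcases hl : A.L.lt A.x (.inr c : α ⊕ C) with _ | _ | _
        · rfl
        · rfl
        · exact absurd hl h2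

open Classical in
lemma itk_inl (p : α) : A.itk (.inl p : α ⊕ C) =
    if p ∈ A.L.used A.x then [A.tok (.pt p)] else [] := rfl

open Classical in
lemma itk_inr (c : C) : A.itk (.inr c : α ⊕ C) =
    if A.ev c then [A.tok (.ho c true), A.tok (.ho c false)] else [A.tok (.ho c true)] := rfl

/-- names of the tokens of an item -/
lemma mem_itk {i : α ⊕ C} (hi : ∀ c, i = .inr c → c ≠ A.r) {t : A.T} : t ∈ A.itk i ↔
    (∃ p, i = .inl p ∧ t.1 = .pt p) ∨ ∃ c b, i = .inr c ∧ t.1 = .ho c b := by
  classical
  cases i with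
  | inl p =>
    have e : ((∃ q, (.inl p : α ⊕ C) = .inl q ∧ t.1 = .pt q) ∨
        ∃ c b, (.inl p : α ⊕ C) = .inr c ∧ t.1 = .ho c b) ↔ ∃ q, p = q ∧ t.1 = .pt q := by
      simp
    rw [e, itk_inl]
    by_cases hp : p ∈ A.L.used A.x
    · rw [if_pos hp, List.mem_singleton]
      constructor
      · rintro rfl
        exact ⟨p, rfl, A.tok_val hp⟩
      · rintro ⟨q, rfl, h⟩
        rw [← A.tok_eq t, h]
    · rw [if_neg hp]
      constructor
      · intro h; simp at h
      · rintro ⟨q, rfl, h⟩
        have := t.2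
        rw [h] at this
        exact absurd this hp
  | inr c =>
    have hcr := hi c rfl
    have e : ((∃ q, (.inr c : α ⊕ C) = .inl q ∧ t.1 = .pt q) ∨
        ∃ c' b, (.inr c : α ⊕ C) = .inr c' ∧ t.1 = .ho c' b) ↔ ∃ c' b, c = c' ∧ t.1 = .ho c' b := by
      simp
    rw [e, itk_inr]
    by_cases hc : A.ev c
    · rw [if_pos hc, List.mem_cons, List.mem_singleton]
      have v1 : A.Val (.ho c true) := ⟨hcr, fun h => by simp at h⟩
      have v2 : A.Val (.ho c false) := ⟨hcr, fun _ => hc⟩
      constructor
      · rintro (rfl | rfl)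
        · exact ⟨c, true, rfl, A.tok_val v1⟩
        · exact ⟨c, false, rfl, A.tok_val v2⟩
      · rintro ⟨c', b, rfl, h⟩
        rw [← A.tok_eq t, h]
        cases b
        · exact Or.inr rfl
        · exact Or.inl rfl
    · rw [if_neg hc, List.mem_singleton]
      have v1 : A.Val (.ho c true) := ⟨hcr, fun h => by simp at h⟩
      constructor
      · rintro rfl
        exact ⟨c, true, rfl, A.tok_val v1⟩
      · rintro ⟨c', b, rfl, h⟩
        rw [← A.tok_eq t, h]
        cases b
        · have := t.2
          rw [h] at this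
          exact absurd (this.2 rfl) hc
        · rfl

lemma rd_ne {z : C} {i : α ⊕ C} (hi : i ∈ A.L.rd z) : ∀ c, i = .inr c → c ≠ A.r ∧
    A.tp ≠ some c := by
  intro c hc
  have h1 := ((A.L.mem z i).1 hi).2.1 c hc
  rw [A.hsp] at h1
  exact ⟨fun h => h1 (Or.inl h), fun h => h1 (Or.inr h)⟩

lemma rd_nodup (z : C) : (A.L.rd z).Nodup := by
  refine (A.L.pw z).imp ?_
  intro i i' h he
  rw [he] at h
  by_cases hc : A.L.cls z
  · exact absurd (h.1 hc) (not_lt.2 (A.L.Ct.ile i'))
  · exact absurd (h.2 hc) (not_lt.2 (A.L.Ct.ile i'))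

lemma P_nodup (z : C) : (A.P z).tks.Nodup := by
  classical
  rw [P_tks, List.nodup_flatMap]
  constructor
  · intro i hi
    cases i with
    | inl p =>
      rw [itk_inl]
      split_ifs <;> simp
    | inr c =>
      rw [itk_inr]
      by_cases hc : A.ev c
      · rw [if_pos hc]
        have hcr := (rd_ne hi c rfl).1
        have v1 : A.Val (.ho c true) := ⟨hcr, fun h => by simp at h⟩
        have v2 : A.Val (.ho c false) := ⟨hcr, fun _ => hc⟩
        refine List.nodup_cons.2 ⟨?_, List.nodup_singleton _⟩
        rw [List.mem_singleton]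
        intro h
        have := A.tok_inj v1 v2 h
        cases this
      · rw [if_neg hc]
        exact List.nodup_singleton _
  · refine List.Pairwise.imp_of_mem (R := fun i i' => i ≠ i') ?_ (rd_nodup z)
    intro i i' hi hi' hne
    rw [Function.onFun, List.disjoint_left]
    intro t ht ht'
    rw [mem_itk fun c hc => (rd_ne hi c hc).1] at ht
    rw [mem_itk fun c hc => (rd_ne hi' c hc).1] at ht'
    apply hne
    rcases ht with ⟨p, h1, h2⟩ | ⟨c, b, h1, h2⟩ <;> rcases ht' with ⟨p', h3, h4⟩ | ⟨c', b', h3, h4⟩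
    · rw [h2] at h4; cases h4; rw [h1, h3]
    · rw [h2] at h4; cases h4
    · rw [h2] at h4; cases h4
    · rw [h2] at h4; cases h4; rw [h1, h3]

lemma mem_P {z : C} {t : A.T} : t ∈ (A.P z).tks ↔
    (∃ p, t.1 = .pt p ∧ A.L.Ct.pt p = z) ∨
      ∃ c b, t.1 = .ho c b ∧ A.L.Ct.par c = z ∧ A.tp ≠ some c := by
  rw [P_tks, List.mem_flatMap]
  constructor
  · rintro ⟨i, hi, ht⟩
    rw [mem_itk fun c hc => (rd_ne hi c hc).1] at ht
    have h1 := (A.L.mem z i).1 hi
    rcases ht with ⟨p, rfl, h2⟩ | ⟨c, b, rfl, h2⟩
    · exact Or.inl ⟨p, h2, h1.2.2⟩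
    · exact Or.inr ⟨c, b, h2, h1.2.2, (rd_ne hi c rfl).2⟩
  · rintro (⟨p, h1, h2⟩ | ⟨c, b, h1, h2, h3⟩)
    · refine ⟨.inl p, (A.L.mem z _).2 ⟨?_, by simp, h2⟩, (mem_itk (by simp)).2
        (Or.inl ⟨p, rfl, h1⟩)⟩
      intro q hq
      cases hq
      have hv := t.2
      rw [h1] at hv
      rcases A.mem_used.1 hv with ⟨j, rfl⟩ | ⟨j, rfl⟩
      · exact ⟨j, .y, rfl⟩
      · rcases A.L.S.port_eq A.x j with h | h
        · exact ⟨j, .a, h⟩
        · exact ⟨j, .b, h⟩
    · have hv := t.2
      rw [h1] at hv
      refine ⟨.inr c, (A.L.mem z _).2 ⟨by simp, ?_, h2⟩, (mem_itk ?_).2 (Or.inr ⟨c, b, rfl, h1⟩)⟩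
      · intro c' hc'
        cases hc'
        rw [A.hsp]
        rintro (h | h)
        · exact hv.1 h
        · exact h3 h
      · intro c' hc'
        cases hc'
        exact hv.1

lemma pair_iff {x y t : Tn C α} (hx : A.Val x) (hy : A.Val y) (ht : A.Val t) (s : A.T)
    (hs : s.1 = t) : s ∈ [A.tok x, A.tok y] ↔ t = x ∨ t = y := by
  have e : s = A.tok t := by rw [← hs, A.tok_eq]
  rw [List.mem_cons, List.mem_singleton, e]
  constructor
  · rintro (h | h)
    · exact Or.inl (A.tok_inj ht hx h)
    · exact Or.inr (A.tok_inj ht hy h)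
  · rintro (rfl | rfl)
    · exact Or.inl rfl
    · exact Or.inr rfl

lemma sing_iff {x t : Tn C α} (hx : A.Val x) (ht : A.Val t) (s : A.T)
    (hs : s.1 = t) : s ∈ [A.tok x] ↔ t = x := by
  have e : s = A.tok t := by rw [← hs, A.tok_eq]
  rw [List.mem_singleton, e]
  constructor
  · intro h
    exact A.tok_inj ht hx h
  · rintro rfl
    rfl

lemma val_ow {c : C} {b : Bool} (h1 : c = A.r → A.tp = none) (h2 : b = false → A.ev c) :
    A.Val (.ow c b) := ⟨h1, h2⟩

lemma val_ho {c : C} {b : Bool} (h1 : c ≠ A.r) (h2 : b = false → A.ev c) :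
    A.Val (.ho c b) := ⟨h1, h2⟩

/-- the own tokens -/
lemma mem_O {z : C} {t : A.T} : t ∈ (A.O z).tks ↔
    (∃ b, t.1 = .ow z b) ∨ (z = A.r ∧ ∃ g b, A.tp = some g ∧ t.1 = .ho g b) := by
  classical
  have ht := t.2
  obtain ⟨u, hu⟩ : ∃ u, t.1 = u := ⟨_, rfl⟩
  rw [hu] at ht
  simp only [hu]
  unfold O
  by_cases hz : z = A.r
  · rw [if_pos hz]
    rcases htp : A.tp with _ | g
    · have v : ∀ b, A.Val (.ow z b) := fun b => val_ow (fun _ => htp) (fun _ => by
        rw [hz]; exact A.ev_r)
      show _ ∈ [_, _] ↔ _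
      rw [pair_iff (v false) (v true) ht _ hu]
      constructor
      · rintro (h | h)
        · exact Or.inl ⟨_, h⟩
        · exact Or.inl ⟨_, h⟩
      · rintro (⟨b, h⟩ | ⟨-, g, b, h1, -⟩)
        · cases b
          · exact Or.inl h
          · exact Or.inr h
        · cases h1
    · have hgr := A.htp g htp
      by_cases hg : A.ev g
      · have v : ∀ b, A.Val (.ho g b) := fun b => val_ho hgr fun _ => hg
        simp only [if_pos hg]
        show _ ∈ [_, _] ↔ _
        rw [pair_iff (v false) (v true) ht _ hu]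
        constructor
        · rintro (h | h)
          · exact Or.inr ⟨hz, g, _, rfl, h⟩
          · exact Or.inr ⟨hz, g, _, rfl, h⟩
        · rintro (⟨b, h⟩ | ⟨-, g', b, h1, h2⟩)
          · exfalso
            have h : u = .ow z b := h
            rw [h] at ht
            have := ht.1 hz
            rw [htp] at this
            cases this
          · cases h1
            cases b
            · exact Or.inl h2
            · exact Or.inr h2
      · have v : A.Val (.ho g true) := val_ho hgr fun h => by simp at h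
        simp only [if_neg hg]
        show _ ∈ [_] ↔ _
        rw [sing_iff v ht _ hu]
        constructor
        · intro h
          exact Or.inr ⟨hz, g, _, rfl, h⟩
        · rintro (⟨b, h⟩ | ⟨-, g', b, h1, h2⟩)
          · exfalso
            have h : u = .ow z b := h
            rw [h] at ht
            have := ht.1 hz
            rw [htp] at this
            cases this
          · cases h1
            have h2 : u = .ho g b := h2
            rw [h2] at ht ⊢
            cases b
            · exact absurd (ht.2 rfl) hg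
            · rfl
  · rw [if_neg hz]
    have hr : ∀ Q : Prop, (Q ∨ (z = A.r ∧ ∃ g b, A.tp = some g ∧ u = .ho g b)) ↔ Q := fun Q =>
      ⟨fun h => h.resolve_right fun h' => hz h'.1, Or.inl⟩
    rw [hr]
    have v1 : A.Val (.ow z true) := val_ow (fun h => absurd h hz) fun h => by simp at h
    have hodd : ¬ A.ev z → (t ∈ [A.tok (.ow z true)] ↔ ∃ b, u = .ow z b) := by
      intro he
      rw [sing_iff v1 ht _ hu]
      constructor
      · intro h; exact ⟨_, h⟩
      · rintro ⟨b, h⟩
        rw [h] at ht ⊢
        cases b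
        · exact absurd (ht.2 rfl) he
        · rfl
    by_cases he : A.ev z
    · have v2 : A.Val (.ow z false) := val_ow (fun h => absurd h hz) fun _ => he
      have h1 : (t ∈ [A.tok (.ow z true), A.tok (.ow z false)] ↔
          ∃ b, u = .ow z b) := by
        rw [pair_iff v1 v2 ht _ hu]
        constructor
        · rintro (h | h)
          · exact ⟨_, h⟩
          · exact ⟨_, h⟩
        · rintro ⟨b, h⟩
          cases b
          · exact Or.inr h
          · exact Or.inl h
      have h2 : (t ∈ [A.tok (.ow z false), A.tok (.ow z true)] ↔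
          ∃ b, u = .ow z b) := by
        rw [← h1]
        simp only [List.mem_cons, List.not_mem_nil, or_false]
        exact or_comm
      by_cases hg : A.tp = some z
      · rw [if_pos hg, if_pos he]
        exact h1
      · rw [if_neg hg, if_pos he]
        by_cases hc : A.L.cls z ↔ A.L.cls (A.L.Ct.par z)
        · rw [if_pos hc]; exact h1
        · rw [if_neg hc]; exact h2
    · by_cases hg : A.tp = some z
      · rw [if_pos hg, if_neg he]
        exact hodd he
      · rw [if_neg hg, if_neg he]
        exact hodd he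

lemma pair_nodup {x y : Tn C α} (hx : A.Val x) (hy : A.Val y) (h : x ≠ y) :
    [A.tok x, A.tok y].Nodup :=
  List.nodup_cons.2 ⟨by rw [List.mem_singleton]; exact fun he => h (A.tok_inj hx hy he),
    List.nodup_singleton _⟩

lemma O_nodup (z : C) : (A.O z).tks.Nodup := by
  classical
  unfold O
  by_cases hz : z = A.r
  · rw [if_pos hz]
    rcases htp : A.tp with _ | g
    · have v : ∀ b, A.Val (.ow z b) := fun b => val_ow (fun _ => htp) (fun _ => by
        rw [hz]; exact A.ev_r)
      exact pair_nodup (v _) (v _) (by simp)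
    · have hgr := A.htp g htp
      by_cases hg : A.ev g
      · have v : ∀ b, A.Val (.ho g b) := fun b => val_ho hgr fun _ => hg
        simp only [if_pos hg]
        exact pair_nodup (v _) (v _) (by simp)
      · simp only [if_neg hg]
        exact List.nodup_singleton _
  · rw [if_neg hz]
    by_cases he : A.ev z
    · have v : ∀ b, A.Val (.ow z b) := fun b => val_ow (fun h => absurd h hz) fun _ => he
      by_cases hg : A.tp = some z
      · rw [if_pos hg, if_pos he]
        exact pair_nodup (v _) (v _) (by simp)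
      · rw [if_neg hg, if_pos he]
        by_cases hc : A.L.cls z ↔ A.L.cls (A.L.Ct.par z)
        · rw [if_pos hc]; exact pair_nodup (v _) (v _) (by simp)
        · rw [if_neg hc]; exact pair_nodup (v _) (v _) (by simp)
    · by_cases hg : A.tp = some z
      · rw [if_pos hg, if_neg he]
        exact List.nodup_singleton _
      · rw [if_neg hg, if_neg he]
        exact List.nodup_singleton _

lemma tp_par {g : C} (h : A.tp = some g) : A.L.Ct.par g = A.r :=
  (A.L.sp_c g ((A.hsp g).2 (Or.inr h)) (A.htp g h)).1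

lemma all_nodup (z : C) : ((A.O z).tks ++ (A.P z).tks).Nodup := by
  refine List.nodup_append.2 ⟨O_nodup z, P_nodup z, ?_⟩
  rintro t ht _ ht' rfl
  rw [mem_O] at ht
  rw [mem_P] at ht'
  rcases ht with ⟨b, h⟩ | ⟨-, g, b, h1, h⟩ <;> rcases ht' with ⟨p, h2, -⟩ | ⟨c, b', h2, h3, h4⟩
  · rw [h] at h2; cases h2
  · rw [h] at h2; cases h2
  · rw [h] at h2; cases h2
  · rw [h] at h2; cases h2; exact h4 h1

lemma all_mem (z : C) (t : A.T) : t ∈ (A.O z).tks ++ (A.P z).tks ↔ A.ndn t.1 = z := by
  rw [List.mem_append, mem_O, mem_P]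
  have hv := t.2
  constructor
  · rintro ((⟨b, h⟩ | ⟨hz, g, b, h1, h⟩) | (⟨p, h, h1⟩ | ⟨c, b, h, h1, h2⟩))
    · rw [h]; rfl
    · rw [h, hz]; exact tp_par h1
    · rw [h]; exact h1
    · rw [h]; exact h1
  · intro h
    rcases ht : t.1 with p | ⟨c, b⟩ | ⟨c, b⟩
    · rw [ht] at h
      exact Or.inr (Or.inl ⟨p, rfl, h⟩)
    · rw [ht] at h
      have h : c = z := h
      exact Or.inl (Or.inl ⟨b, by rw [h]⟩)
    · rw [ht] at h hv
      have h : A.L.Ct.par c = z := h
      by_cases hc : A.tp = some c
      · refine Or.inl (Or.inr ⟨?_, c, b, hc, rfl⟩)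
        rw [← h]; exact tp_par hc
      · exact Or.inr (Or.inr ⟨c, b, rfl, h, hc⟩)

end Lc

end Pool.Agent.MP42.PD
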