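import Pool.Agent.MP42.PD.Out4

/-!
# The system of circles of a level (owner helper55), part 2

Order of the circles, parities, the instance `Lc.G`.
-/

set_option autoImplicit false
set_option linter.unusedSectionVars false

namespace Pool.Agent.MP42.PD

open Pool.Agent.MP42.U

/-- an order by a key -/
theorem exists_key_ord {C : Type*} [Fintype C] (key : C → ℕ) :
    ∃ e : C ≃ Fin (Fintype.card C), ∀ c c', key c < key c' → e c < e c' := by
  classical
  have e0 := Fintype.equivFin C
  have hmono := Tuple.monotone_sort (key ∘ e0.symm)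
  have hk : ∀ c, ((key ∘ e0.symm) ∘ Tuple.sort (key ∘ e0.symm))
      ((e0.trans (Tuple.sort (key ∘ e0.symm)).symm) c) = key c := by
    intro c
    simp
  refine ⟨e0.trans (Tuple.sort (key ∘ e0.symm)).symm, ?_⟩
  intro c c' hc
  by_contra h
  have h1 := hmono (not_lt.1 h)
  rw [hk, hk] at h1
  omega

namespace Lc

variable {C J α : Type*} [LinearOrder α] [Fintype J] (A : Lc C J α)

/-- the order: `g1`, root, others, hosts first -/
theorem exists_e [Fintype C] : ∃ e : C ≃ Fin (Fintype.card C),
    (∀ c, c ≠ A.r → A.tp ≠ some c → e (A.L.Ct.par c) < e c) ∧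
    ∀ g, A.tp = some g → e g < e A.r := by
  classical
  obtain ⟨e, he⟩ := exists_key_ord (fun c : C => if A.tp = some c then 0 else A.L.Ct.dep c + 1)
  refine ⟨e, ?_, ?_⟩
  · intro c hc hg
    refine he _ _ ?_
    rw [if_neg hg]
    have h1 := A.L.Ct.dep_par c hc
    split_ifs
    · omega
    · omega
  · intro g hg
    refine he _ _ ?_
    rw [if_pos hg, if_neg]
    · omega
    · intro h
      exact A.htp A.r h rfl

/-- the number of letters of a circle in terms of its items -/
lemma cnt_eq [Fintype C] (z : C) : (A.L.cnt A.x z : ZMod 2) =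
    ∑ i ∈ A.L.Ct.items (A.L.used A.x) z, ((A.L.Ct.lt (A.L.used A.x) i).card : ZMod 2) := by
  classical
  have h := A.L.Ct.sum_items (A.L.used A.x) z (fun _ => True) (fun _ => (1 : ZMod 2))
  simp only [Finset.filter_true, Finset.sum_const, nsmul_eq_mul, mul_one] at h
  rw [← h]
  congr 2

open Classical in
lemma lt_card (i : α ⊕ C) (hi : ∀ p, i = .inl p → p ∈ A.L.used A.x) :
    ((A.L.Ct.lt (A.L.used A.x) i).card : ZMod 2) = if A.L.lt A.x i ≠ .z then 1 else 0 := by
  cases i with
  | inl p =>
    have hp := hi p rfl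
    rw [A.L.Ct.lt_inl hp, Finset.card_singleton, if_pos]
    · rfl
    · exact lt_some.2 ⟨by intro q hq; cases hq; exact hp, by simp⟩
  | inr c =>
    have h1 : (A.L.Ct.lt (A.L.used A.x) (.inr c : α ⊕ C)).card = A.L.cnt A.x c := by
      unfold Lv.cnt Contour.lt
      congr
    rw [h1]
    by_cases hc : A.ev c
    · rw [if_neg]
      · rw [ZMod.natCast_eq_zero_iff_even]
        exact Nat.not_odd_iff_even.1 hc
      · intro h
        exact (lt_some.1 h).2 c rfl hc
    · rw [if_pos]
      · rw [ZMod.natCast_eq_one_iff_odd]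
        exact not_not.1 hc
      · exact lt_some.2 ⟨by simp, by intro c' h; cases h; exact hc⟩

open Classical in
lemma nod_eq (z : C) : ((A.P z).nod : ZMod 2) =
    ∑ i ∈ (A.L.rd z).toFinset, if A.L.lt A.x i ≠ .z then (1 : ZMod 2) else 0 := by
  have h1 : ((A.P z).nod : ZMod 2) = ∑ t ∈ Finset.range (A.L.rd z).length,
      if A.L.w A.x z t ≠ .z then (1 : ZMod 2) else 0 := by
    unfold Pl.nod
    rw [Finset.card_filter]
    push_cast
    rfl
  rw [h1, List.sum_toFinset _ (rd_nodup z)]
  have h2 : ∀ t, (if A.L.w A.x z t ≠ .z then (1 : ZMod 2) else 0) =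
      (fun o : Option (α ⊕ C) => match o with
        | none => (0 : ZMod 2)
        | some i => if A.L.lt A.x i ≠ .z then 1 else 0) ((A.L.rd z)[t]?) := by
    intro t
    unfold Lv.w Lv.it
    rcases (A.L.rd z)[t]? with _ | i
    · simp
    · rfl
  rw [Finset.sum_congr rfl fun t _ => h2 t]
  generalize A.L.rd z = l
  induction l using List.reverseRecOn with
  | nil => simp
  | append_singleton l a ih =>
    rw [List.length_append, List.length_singleton, Finset.sum_range_succ, List.map_append,
      List.sum_append]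
    congr 1
    · rw [← ih]
      refine Finset.sum_congr rfl fun t ht => ?_
      rw [Finset.mem_range] at ht
      rw [List.getElem?_append_left ht]
    · simp

/-- **parity of the number of ports and units** -/
lemma nod_odd [Fintype C] {z : C} (hz : z = A.r → A.tp = none) :
    Odd (A.P z).nod ↔ ¬ A.ev z := by
  classical
  rw [← ZMod.natCast_eq_one_iff_odd, nod_eq]
  unfold ev
  rw [not_not, ← ZMod.natCast_eq_one_iff_odd, cnt_eq]
  have h : ∑ i ∈ A.L.Ct.items (A.L.used A.x) z, ((A.L.Ct.lt (A.L.used A.x) i).card : ZMod 2) =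
      ∑ i ∈ (A.L.rd z).toFinset, if A.L.lt A.x i ≠ .z then (1 : ZMod 2) else 0 := by
    rw [Finset.sum_congr rfl fun i hi => A.lt_card i (A.L.Ct.mem_items.1 hi).1]
    refine Finset.sum_subset ?_ ?_
    · intro i hi
      obtain ⟨h1, h2, h3⟩ := A.L.Ct.mem_items.1 hi
      rw [List.mem_toFinset, A.L.mem]
      refine ⟨?_, ?_, h2⟩
      · intro p hp
        rcases A.mem_used.1 (h1 p hp) with ⟨j, h⟩ | ⟨j, h⟩
        · exact ⟨j, .y, h⟩
        · rcases A.L.S.port_eq A.x j with h' | h'
          · exact ⟨j, .a, by rw [h, h']; rfl⟩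
          · exact ⟨j, .b, by rw [h, h']; rfl⟩
      · intro c hc hs
        rcases (A.hsp c).1 hs with h | h
        · exact h3 (by rw [hc, h])
        · have h4 := tp_par h
          rw [hc] at h2
          have h5 : z = A.r := by rw [← h2]; exact h4
          rw [hz h5] at h
          cases h
    · intro i hi hni
      rw [List.mem_toFinset] at hi
      rw [if_neg]
      intro h
      apply hni
      rw [A.L.Ct.mem_items]
      exact ⟨(lt_some.1 h).1, ((A.L.mem z i).1 hi).2.2, fun h' => (rd_ne hi _ h').1 rfl⟩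
  rw [h]

/-- parity of the root of the top level -/
lemma nod_odd_root [Fintype C] {g : C} (hg : A.tp = some g) :
    Odd (A.P A.r).nod ↔ ¬ A.ev g := by
  classical
  have hgr := A.htp g hg
  rw [← ZMod.natCast_eq_one_iff_odd, nod_eq]
  have h0 : (A.L.cnt A.x A.r : ZMod 2) = 0 := by
    rw [ZMod.natCast_eq_zero_iff_even]
    exact Nat.not_odd_iff_even.1 A.ev_r
  rw [cnt_eq] at h0
  have hmem : (.inr g : α ⊕ C) ∈ A.L.Ct.items (A.L.used A.x) A.r := by
    rw [A.L.Ct.mem_items]
    exact ⟨by simp, tp_par hg, fun h => hgr (Sum.inr_injective h)⟩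
  rw [Finset.sum_congr rfl fun i hi => A.lt_card i (A.L.Ct.mem_items.1 hi).1,
    ← Finset.add_sum_erase _ _ hmem] at h0
  have h : ∑ i ∈ (A.L.Ct.items (A.L.used A.x) A.r).erase (.inr g),
      (if A.L.lt A.x i ≠ .z then (1 : ZMod 2) else 0) =
      ∑ i ∈ (A.L.rd A.r).toFinset, if A.L.lt A.x i ≠ .z then (1 : ZMod 2) else 0 := by
    refine Finset.sum_subset ?_ ?_
    · intro i hi
      obtain ⟨hig, hi⟩ := Finset.mem_erase.1 hi
      obtain ⟨h1, h2, h3⟩ := A.L.Ct.mem_items.1 hi
      rw [List.mem_toFinset, A.L.mem]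
      refine ⟨?_, ?_, h2⟩
      · intro p hp
        rcases A.mem_used.1 (h1 p hp) with ⟨j, h⟩ | ⟨j, h⟩
        · exact ⟨j, .y, h⟩
        · rcases A.L.S.port_eq A.x j with h' | h'
          · exact ⟨j, .a, by rw [h, h']; rfl⟩
          · exact ⟨j, .b, by rw [h, h']; rfl⟩
      · intro c hc hs
        rcases (A.hsp c).1 hs with h | h
        · exact h3 (by rw [hc, h])
        · rw [hg] at h
          cases h
          exact hig hc
    · intro i hi hni
      rw [List.mem_toFinset] at hi
      rw [if_neg]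
      intro h
      apply hni
      rw [Finset.mem_erase, A.L.Ct.mem_items]
      exact ⟨fun h' => (rd_ne hi _ h').2 hg, (lt_some.1 h).1, ((A.L.mem _ i).1 hi).2.2,
        fun h' => (rd_ne hi _ h').1 rfl⟩
  rw [h] at h0
  have hgo : A.L.lt A.x (.inr g : α ⊕ C) ≠ .z ↔ ¬ A.ev g := by
    rw [lt_some]
    constructor
    · intro h; exact h.2 g rfl
    · intro h; exact ⟨by simp, by intro c hc; cases hc; exact h⟩
  have key : ∀ a b : ZMod 2, a + b = 0 → (b = 1 ↔ a = 1) := by decide
  rw [key _ _ h0]
  by_cases he : A.ev g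
  · rw [if_neg (fun h => (hgo.1 h) he)]
    simp [he]
  · rw [if_pos (hgo.2 he)]
    simp [he]

/-! ## Places of children -/

variable {A}

lemma it_lt {z : C} {t : ℕ} {i : α ⊕ C} (h : A.L.it z t = some i) : t < A.L.n z ∧ i ∈ A.L.rd z := by
  unfold Lv.it at h
  obtain ⟨h1, h2⟩ := List.getElem?_eq_some_iff.1 h
  exact ⟨h1, by rw [← h2]; exact List.getElem_mem h1⟩

lemma P_tk {z : C} {t : ℕ} {i : α ⊕ C} (h : A.L.it z t = some i) :
    (A.P z).tk t = A.tok (nm1 i) := by
  show (match A.L.it z t with
    | none => A.tok (.ow A.dfc true)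
    | some i => A.tok (nm1 i)) = _
  rw [h]

lemma P_ra {z : C} {t : ℕ} {i : α ⊕ C} (h : A.L.it z t = some i) :
    (A.P z).ra t = A.tok (nm1 i) := P_tk h

lemma P_rb {z : C} {t : ℕ} {i : α ⊕ C} (h : A.L.it z t = some i) :
    (A.P z).rb t = A.tok (nm2 i) := by
  show (match A.L.it z t with
    | none => A.tok (.ow A.dfc true)
    | some i => A.tok (nm2 i)) = _
  rw [h]

/-- the two own tokens of an even circle -/
lemma O_even {z : C} (hz : z ≠ A.r) (hg : A.tp ≠ some z) (he : A.ev z) : ∃ b : Bool,
    A.O z = .d (A.tok (.ow z b)) (A.tok (.ow z (!b))) ∧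
    (b = true ↔ (A.L.cls z ↔ A.L.cls (A.L.Ct.par z))) := by
  classical
  unfold O
  rw [if_neg hz, if_neg hg, if_pos he]
  by_cases hc : A.L.cls z ↔ A.L.cls (A.L.Ct.par z)
  · exact ⟨true, by rw [if_pos hc]; rfl, by simp [hc]⟩
  · exact ⟨false, by rw [if_neg hc]; rfl, by simp [hc]⟩

lemma O_odd {z : C} (hz : z ≠ A.r) (he : ¬ A.ev z) : A.O z = .s (A.tok (.ow z true)) := by
  classical
  unfold O
  rw [if_neg hz, if_neg he]
  split_ifs <;> rfl

lemma O_g1 {z : C} (hz : z ≠ A.r) (hg : A.tp = some z) (he : A.ev z) :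
    A.O z = .rt (A.tok (.ow z true)) (A.tok (.ow z false)) := by
  classical
  unfold O
  rw [if_neg hz, if_pos hg, if_pos he]

lemma O_root (h : A.tp = none) :
    A.O A.r = .rt (A.tok (.ow A.r false)) (A.tok (.ow A.r true)) := by
  classical
  unfold O
  rw [if_pos rfl, h]

lemma O_top {g : C} (h : A.tp = some g) (he : A.ev g) :
    A.O A.r = .g2 (A.tok (.ho g false)) (A.tok (.ho g true)) := by
  classical
  unfold O
  rw [if_pos rfl, h]
  exact if_pos he

lemma O_top' {g : C} (h : A.tp = some g) (he : ¬ A.ev g) :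
    A.O A.r = .g1 (A.tok (.ho g true)) := by
  classical
  unfold O
  rw [if_pos rfl, h]
  exact if_neg he

lemma lam_tok {t : Tn C α} (h : A.Val t) : A.lam (A.tok t) = A.tok (A.lr t) := by
  apply Subtype.ext
  show A.lr (A.tok t).1 = _
  rw [A.tok_val h, A.tok_val (A.lr_val h)]

lemma lr_ow {c : C} {b : Bool} (hc : c ≠ A.r) : A.lr (.ow c b) = .ho c b := by
  classical
  unfold lr
  exact if_neg hc

lemma lr_owr {b : Bool} : A.lr (.ow A.r b) = .ow A.r (!b) := by
  classical
  unfold lr
  exact if_pos rfl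

/-- the tokens of an even child at its host are the other ends of its own tokens -/
lemma child_toks {c : C} (hz : c ≠ A.r) (hg : A.tp ≠ some c) (he : A.ev c) : ∃ l r, A.O c = .d l r ∧
    ((A.tok (nm1 (.inr c)) = A.lam l ∧ A.tok (nm2 (.inr c)) = A.lam r) ∨
      (A.tok (nm1 (.inr c)) = A.lam r ∧ A.tok (nm2 (.inr c)) = A.lam l)) := by
  obtain ⟨b, h1, -⟩ := O_even hz hg he
  have v : ∀ b, A.Val (.ow c b) := fun b => val_ow (fun h => absurd h hz) fun _ => he
  refine ⟨_, _, h1, ?_⟩
  rw [lam_tok (v _), lam_tok (v _), lr_ow hz, lr_ow hz]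
  cases b
  · exact Or.inr ⟨rfl, rfl⟩
  · exact Or.inl ⟨rfl, rfl⟩

variable (A)

/-- **the system of circles** -/
noncomputable def G [Fintype C] {N : ℕ} (e : C ≃ Fin N)
    (h1 : ∀ c, c ≠ A.r → A.tp ≠ some c → e (A.L.Ct.par c) < e c)
    (h2 : ∀ g, A.tp = some g → e g < e A.r) : Sy N A.T where
  lam := A.lam
  lam_lam t := Subtype.ext (A.lr_lr t.2)
  lam_ne t h := A.lr_ne t.2 (congrArg Subtype.val h)
  nd t := e (A.ndn t.1)
  P f := A.P (e.symm f)
  O f := A.O (e.symm f)
  nodup f := all_nodup _
  mem f t := by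
    rw [all_mem]
    constructor
    · intro h; rw [h, e.apply_symm_apply]
    · intro h; rw [← h, e.symm_apply_apply]
  ch := by
    intro f t _ hr
    obtain ⟨c, h3, h4⟩ := hr
    obtain ⟨-, h5⟩ := it_lt h3
    obtain ⟨h6, h7⟩ := rd_ne h5 c rfl
    have h8 : A.L.Ct.par c = e.symm f := ((A.L.mem _ _).1 h5).2.2
    obtain ⟨l, r, h9, h10⟩ := child_toks h6 h7 h4
    refine ⟨e c, ?_, l, r, by rw [e.symm_apply_apply]; exact h9, ?_⟩
    · have := h1 c h6 h7
      rw [h8, e.apply_symm_apply] at this
      exact this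
    · rw [P_ra h3, P_rb h3]
      exact h10
  rt := by
    intro f l r hO
    by_cases hz : e.symm f = A.r
    · rcases htp : A.tp with _ | g
      · left
        rw [hz, O_root htp] at hO
        cases hO
        have v : A.Val (.ow A.r false) := val_ow (fun _ => htp) fun _ => A.ev_r
        rw [lam_tok v, lr_owr]
        rfl
      · exfalso
        by_cases hg : A.ev g
        · rw [hz, O_top htp hg] at hO; cases hO
        · rw [hz, O_top' htp hg] at hO; cases hO
    · right
      by_cases he : A.ev (e.symm f)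
      · by_cases hg : A.tp = some (e.symm f)
        · rw [O_g1 hz hg he] at hO
          cases hO
          refine ⟨e A.r, ?_, A.tok (.ho (e.symm f) false), A.tok (.ho (e.symm f) true), ?_, ?_⟩
          · have := h2 _ hg
            rwa [e.apply_symm_apply] at this
          · rw [e.symm_apply_apply]
            exact O_top hg he
          · have v : ∀ b, A.Val (.ow (e.symm f) b) := fun b =>
              val_ow (fun h => absurd h hz) fun _ => he
            rw [lam_tok (v _), lam_tok (v _), lr_ow hz, lr_ow hz]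
            exact Or.inr ⟨rfl, rfl⟩
        · obtain ⟨b, h3, -⟩ := O_even hz hg he
          rw [h3] at hO
          cases hO
      · rw [O_odd hz he] at hO
        cases hO
  par := by
    intro f
    by_cases hz : e.symm f = A.r
    · rcases htp : A.tp with _ | g
      · rw [A.nod_odd (fun _ => htp), hz, O_root htp]
        have := A.ev_r
        simp [Ow.sg, this]
      · rw [hz, A.nod_odd_root htp]
        by_cases hg : A.ev g
        · rw [O_top htp hg]; simp [Ow.sg, hg]
        · rw [O_top' htp hg]; simp [Ow.sg, hg]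
    · rw [A.nod_odd (fun h => absurd h hz)]
      by_cases he : A.ev (e.symm f)
      · by_cases hg : A.tp = some (e.symm f)
        · rw [O_g1 hz hg he]; simp [Ow.sg, he]
        · obtain ⟨b, h3, -⟩ := O_even hz hg he
          rw [h3]; simp [Ow.sg, he]
      · rw [O_odd hz he]; simp [Ow.sg, he]

end Lc

end Pool.Agent.MP42.PD
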