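import Pool.Agent.MP42.PD.Out5

/-!
# The system of circles of a level (owner helper55), part 3

Connectivity; `Lc.exists_letters`.
-/

set_option autoImplicit false
set_option linter.unusedSectionVars false

namespace Pool.Agent.MP42.PD

open Pool.Agent.MP42.U

section

variable {K : ℕ} {w : ℕ → Lt} {n : ℕ} {v v' : ℕ → ZMod 2} {a e : ZMod 2}

lemma cv_congrO {κ : Option ℕ} (h : ∀ i, κ = some i → v' i = v i) : cv v' e κ = cv v e κ := by
  cases κ with
  | none => rfl
  | some i => exact h i rfl

lemma head_lt {t i : ℕ} (h : (stk K w t).head? = some i) : i < t :=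
  stk_lt (List.mem_of_mem_head? h)

lemma tv_congrO {t : ℕ} (h : ∀ i < t, v' i = v i) : tv K w v' e t = tv K w v e t :=
  cv_congrO fun i hi => h i (head_lt hi)

lemma WOk.congrO (h : WOk K w n v a e) (hv : ∀ t < n, v' t = v t) : WOk K w n v' a e where
  port := by
    intro t ht hw
    rw [hv t ht, tv_congrO fun i hi => hv i (hi.trans ht)]
    exact h.port t ht hw
  unit := by
    intro t ht hw F G l hs hl
    obtain ⟨h1, h2⟩ := h.unit t ht hw F G l hs hl
    have hF : F < t := stk_lt (K := K) (w := w) (by rw [hs]; simp)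
    have hG : G < t := stk_lt (K := K) (w := w) (by rw [hs]; simp)
    rw [hv t ht, hv F (hF.trans ht), hv G (hG.trans ht)]
    exact ⟨h1, h2⟩
  pend := fun i hi => by rw [hv i (stk_lt hi)]; exact h.pend i hi
  base := h.base

lemma Lam_lt {t i : ℕ} (h : Lam K w n t (some i)) : i < t := by
  rcases h with h | ⟨-, h⟩ | ⟨h, -⟩
  · exact head_lt h.symm
  · exact stk_lt (List.mem_of_getElem? h.symm)
  · cases h

lemma WRd.congr {rid : ℕ → Prop} (h : WRd K w n rid v e) (hv : ∀ t < n, v' t = v t) :
    WRd K w n rid v' e := by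
  intro t ht hr
  obtain ⟨κ, h1, h2⟩ := h t ht hr
  refine ⟨κ, h1, ?_⟩
  rw [hv t ht, h2]
  refine (cv_congrO ?_).symm
  rintro i rfl
  exact hv i ((Lam_lt h1).trans ht)

end

namespace Lc

variable {C J α : Type*} [LinearOrder α] [Fintype J] {A : Lc C J α}

/-- the labelling of a level by the values of the tokens -/
noncomputable def lab (A : Lc C J α) (V : A.T → B) : α ⊕ C → ZMod 2
  | .inl p => V (A.tok (.pt p))
  | .inr c => V (A.O c).m

lemma lab_ow {V : A.T → B} {c : C} (hone : (A.O c).one V) {b : Bool} (hv : A.Val (.ow c b)) :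
    V (A.tok (.ow c b)) = lab A V (.inr c) := by
  show _ = V (A.O c).m
  by_cases hz : c = A.r
  · subst hz
    have htp := hv.1 rfl
    rw [O_root htp] at hone ⊢
    have hone : V (A.tok (.ow A.r true)) = V (A.tok (.ow A.r false)) := hone
    cases b
    · rfl
    · exact hone
  · by_cases he : A.ev c
    · by_cases hg : A.tp = some c
      · rw [O_g1 hz hg he] at hone ⊢
        have hone : V (A.tok (.ow c false)) = V (A.tok (.ow c true)) := hone
        cases b
        · exact hone
        · rfl
      · obtain ⟨b', h3, -⟩ := O_even hz hg he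
        rw [h3] at hone ⊢
        have hone : V (A.tok (.ow c (!b'))) = V (A.tok (.ow c b')) := hone
        cases b <;> cases b'
        · rfl
        · exact hone
        · exact hone
        · rfl
    · rw [O_odd hz he]
      cases b
      · exact absurd (hv.2 rfl) he
      · rfl

lemma lab_ho {V : A.T → B} (hV : ∀ t, V (A.lam t) = V t) {c : C} (hone : (A.O c).one V)
    {b : Bool} (hv : A.Val (.ho c b)) : V (A.tok (.ho c b)) = lab A V (.inr c) := by
  have hv' : A.Val (.ow c b) := ⟨fun h => absurd h hv.1, hv.2⟩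
  rw [← lab_ow hone hv', ← hV (A.tok (.ow c b)), lam_tok hv', lr_ow hv.1]

lemma P_vt (V : A.T → B) (z : C) (t : ℕ) : (A.P z).vt V t = V ((A.P z).tk t) := by
  unfold Pl.vt
  rcases (A.P z).w t with _ | _ | _ <;> rfl

lemma vt_lab {V : A.T → B} (hV : ∀ t, V (A.lam t) = V t) (hone : ∀ c, (A.O c).one V) {z : C}
    {t : ℕ} (ht : t < A.L.n z) : A.L.vv (lab A V) z t = (A.P z).vt V t := by
  rw [P_vt]
  rcases hi : A.L.it z t with _ | i
  · exfalso
    unfold Lv.it at hi
    rw [List.getElem?_eq_none_iff] at hi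
    exact absurd ht (not_lt.2 hi)
  · rw [P_tk hi]
    unfold Lv.vv
    rw [hi]
    cases i with
    | inl p => rfl
    | inr c =>
      have hcr := (rd_ne (it_lt hi).2 c rfl).1
      exact (lab_ho hV (hone c) (val_ho hcr fun h => by simp at h)).symm

/-- **the connectivity of the class graph** -/
theorem conn_of {K : ℕ} (hC : A.L.Conn K A.x) {V : A.T → B} (hV : ∀ t, V (A.lam t) = V t)
    (hM : ∀ z, (A.P z).M K V (V (A.O z).m) ∧ (A.O z).one V) : ∀ s t, V s = V t := by
  classical
  have hone := fun z => (hM z).2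
  choose E hE using fun z => (hM z).1
  obtain ⟨h1, h2⟩ := hC (lab A V) E (by
    refine ⟨⟨?_, ?_, ?_⟩, ?_⟩
    · intro j
      show V (A.tok (.pt _)) = V (A.tok (.pt _))
      have hv : A.Val (.pt (A.L.S.y j)) := A.mem_used.2 (Or.inl ⟨j, rfl⟩)
      rw [← hV (A.tok (.pt (A.L.S.y j))), lam_tok hv]
      show V (A.tok (.pt (A.mate (A.L.S.y j)))) = _
      rw [A.mate_y]
    · intro z
      exact (hE z).1.congrO fun t ht => vt_lab hV hone ht
    · intro z hz
      rcases (A.hsp z).1 hz with h | h
      · rw [h]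
      · have hzr := A.htp z h
        show V (A.O z).m = V (A.O A.r).m
        by_cases he : A.ev z
        · rw [O_top h he]
          show _ = V (A.tok (.ho z false))
          exact (lab_ho hV (hone z) (val_ho hzr fun _ => he)).symm
        · rw [O_top' h he]
          show _ = V (A.tok (.ho z true))
          exact (lab_ho hV (hone z) (val_ho hzr fun h => by simp at h)).symm
    · intro z
      exact WRd.congr (hE z).2 fun t ht => vt_lab hV hone ht)
  have key : ∀ t : A.T, V t = lab A V (.inr A.L.Ct.r) := by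
    intro t
    rw [← A.tok_eq t]
    have hv := t.2
    rcases hu : t.1 with p | ⟨c, b⟩ | ⟨c, b⟩
    · rw [hu] at hv
      have hy : ∀ j, V (A.tok (.pt (A.L.S.y j))) = lab A V (.inr A.L.Ct.r) := h1
      rcases A.mem_used.1 hv with ⟨j, rfl⟩ | ⟨j, rfl⟩
      · exact hy j
      · have hvy : A.Val (.pt (A.L.S.y j)) := A.mem_used.2 (Or.inl ⟨j, rfl⟩)
        rw [← hy j, ← hV (A.tok (.pt (A.L.S.y j))), lam_tok hvy]
        show _ = V (A.tok (.pt (A.mate (A.L.S.y j))))
        rw [A.mate_y]
    · rw [hu] at hv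
      rw [lab_ow (hone c) hv]
      exact h2 c
    · rw [hu] at hv
      rw [lab_ho hV (hone c) hv]
      exact h2 c
  intro s t
  rw [key s, key t]

end Lc

end Pool.Agent.MP42.PD
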