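import Pool.Agent.MP42.PD.Out6
import Pool.Agent.MP42.GZ.LX
import Pool.Agent.MP42.U.ExL

/-!
# Words of a level (owner helper55)

`Lc.exists_letters`; the names of the tokens; the words `wd` of a solution.
-/

set_option autoImplicit false
set_option linter.unusedSectionVars false

namespace Pool.Agent.MP42.PD

open Pool.Agent.MP42.U Pool.Agent.MP42.GZ

namespace Lc

variable {C J α : Type*} [LinearOrder α] [Fintype J] {A : Lc C J α}

section Sys

variable [Fintype C] {N : ℕ} {e : C ≃ Fin N}
  {h1 : ∀ c, c ≠ A.r → A.tp ≠ some c → e (A.L.Ct.par c) < e c}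
  {h2 : ∀ g, A.tp = some g → e g < e A.r}

lemma G_P (z : C) : (A.G e h1 h2).P (e z) = A.P z := by
  show A.P (e.symm (e z)) = _
  rw [e.symm_apply_apply]

lemma G_O (z : C) : (A.G e h1 h2).O (e z) = A.O z := by
  show A.O (e.symm (e z)) = _
  rw [e.symm_apply_apply]

/-- an even child -/
lemma chi_of {z : C} {t : ℕ} {c : C} (hi : A.L.it z t = some (.inr c)) (he : A.ev c) :
    (A.G e h1 h2).Chi (e z) t (e c) := by
  obtain ⟨h3, h4⟩ := it_lt hi
  obtain ⟨h5, h6⟩ := rd_ne h4 c rfl
  obtain ⟨l, r, h7, h8⟩ := child_toks h5 h6 he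
  refine ⟨?_, ?_, l, r, ?_, ?_⟩
  · rw [G_P]; exact h3
  · rw [G_P]; exact ⟨c, hi, he⟩
  · rw [G_O]; exact h7
  · rw [G_P, P_ra hi, P_rb hi]; exact h8

lemma of_d {c : C} {l r : A.T} (hO : A.O c = .d l r) : c ≠ A.r ∧ A.tp ≠ some c ∧ A.ev c := by
  have hc : c ≠ A.r := by
    rintro rfl
    rcases htp : A.tp with _ | g
    · rw [O_root htp] at hO; cases hO
    · by_cases he : A.ev g
      · rw [O_top htp he] at hO; cases hO
      · rw [O_top' htp he] at hO; cases hO
  refine ⟨hc, ?_, ?_⟩
  · intro hg
    by_cases he : A.ev c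
    · rw [O_g1 hc hg he] at hO; cases hO
    · rw [O_odd hc he] at hO; cases hO
  · by_contra he
    rw [O_odd hc he] at hO; cases hO

lemma mem_rd_c {c : C} (hc : c ≠ A.r) (hg : A.tp ≠ some c) :
    (.inr c : α ⊕ C) ∈ A.L.rd (A.L.Ct.par c) := by
  refine (A.L.mem _ _).2 ⟨by simp, ?_, rfl⟩
  intro c' h
  cases h
  rw [A.hsp]
  rintro (h | h)
  · exact hc h
  · exact hg h

lemma hosted : (A.G e h1 h2).Hosted := by
  intro g l r hO
  obtain ⟨c, rfl⟩ : ∃ c, g = e c := ⟨e.symm g, (e.apply_symm_apply g).symm⟩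
  rw [G_O] at hO
  obtain ⟨hc, hg, he⟩ := of_d hO
  obtain ⟨t, ht, h⟩ := List.getElem_of_mem (mem_rd_c hc hg)
  exact ⟨e (A.L.Ct.par c), t, chi_of (List.getElem?_eq_some_iff.2 ⟨ht, h⟩) he⟩

/-- **letters exist** -/
theorem exists_letters {K : ℕ} {D : ℤ} (hK : 2 ≤ K) (hC : A.L.Conn K A.x) (hD : A.L.Dom K A.x)
    (hr : ∀ g, A.tp = some g → A.L.cp A.r = 0)
    (c1 : ∀ P : Pl A.T, P.C1 K D) (c2 : ∀ P : Pl A.T, P.C2 K D) (c3 : ∀ P : Pl A.T, P.C3 K D)
    (c4 : ∀ P : Pl A.T, P.C4 K D) (c5 : ∀ P : Pl A.T, P.C5 K D) :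
    ∃ σ : Fin N → (ℕ → Bool) × Bool, (∀ f, (A.G e h1 h2).C D f (σ f)) ∧
      ∀ V : A.T → B, ∀ a : A.T, (∀ x, ¬ (A.G e h1 h2).Abs σ x → x ≠ a → x ≠ A.lam a →
        V (A.lam x) = V x) →
        (∀ f, Cl V ((A.G e h1 h2).wp σ f)) → ∃ k, ∀ x, ¬ (A.G e h1 h2).Abs σ x → V x = k := by
  classical
  have hfin : Finite A.T := finite_T
  have := Fintype.ofFinite A.T
  have hcap : ∀ f, ((A.G e h1 h2).P f).lam K ≤ ((A.G e h1 h2).O f).cap := by
    intro f
    obtain ⟨z, rfl⟩ : ∃ c, f = e c := ⟨e.symm f, (e.apply_symm_apply f).symm⟩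
    rw [G_P, G_O]
    have h3 : (A.P z).lam K ≤ A.L.cp z := hD z
    refine h3.trans ?_
    by_cases hz : z = A.r
    · subst hz
      rcases htp : A.tp with _ | g
      · rw [O_root htp]
        exact A.L.cp_sp _ ((A.hsp _).2 (Or.inl rfl))
      · rw [hr g htp]
        exact Nat.zero_le _
    · by_cases hg : A.tp = some z
      · have h4 := A.L.cp_sp _ ((A.hsp z).2 (Or.inr hg))
        by_cases he : A.ev z
        · rw [O_g1 hz hg he]; exact h4
        · rw [O_odd hz he]; exact h4.trans (by show (1 : ℕ) ≤ 2; omega)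
      · have h4 : A.L.cp z = 2 := A.L.cp_n z (by
          rw [A.hsp]
          rintro (h | h)
          · exact hz h
          · exact hg h)
        rw [h4]
        by_cases he : A.ev z
        · obtain ⟨b, h5, -⟩ := O_even hz hg he
          rw [h5]; exact le_rfl
        · rw [O_odd hz he]; exact le_rfl
  refine Sy.const (G := A.G e h1 h2) hK hcap ⟨fun f => c1 _, fun f => c2 _, fun f => c3 _,
    fun f => c4 _, fun f => c5 _⟩ hosted ?_
  intro V hV hM
  refine conn_of hC hV fun z => ?_
  have h3 := hM (e z)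
  unfold Sy.M at h3
  rw [G_P, G_O] at h3
  exact ⟨h3.1, h3.2.1⟩

end Sys

/-! ## States and letters -/

variable (A)

open Classical in
/-- the place of an item -/
noncomputable def idx (i : α ⊕ C) : ℕ :=
  if h : ∃ t, A.L.it (A.L.Ct.host i) t = some i then h.choose else 0

variable {A} in
lemma idx_it {z : C} {t : ℕ} {i : α ⊕ C} (hi : A.L.it z t = some i) :
    A.L.Ct.host i = z ∧ A.idx i = t := by
  classical
  obtain ⟨h3, h4⟩ := it_lt hi
  have h5 := ((A.L.mem z i).1 h4).2.2
  refine ⟨h5, ?_⟩
  have hex : ∃ t, A.L.it (A.L.Ct.host i) t = some i := ⟨t, by rw [h5]; exact hi⟩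
  have h8 := hex.choose_spec
  unfold idx
  rw [dif_pos hex]
  generalize hex.choose = u at h8 ⊢
  rw [h5] at h8
  unfold Lv.it at hi h8
  obtain ⟨h6, h7⟩ := List.getElem?_eq_some_iff.1 hi
  obtain ⟨h9, h10⟩ := List.getElem?_eq_some_iff.1 h8
  exact (rd_nodup z).getElem_inj_iff.1 (h10.trans h7.symm)

variable (σ : C → (ℕ → Bool) × Bool)

open Classical in
/-- the state of an own link -/
noncomputable def lk (c : C) : LS :=
  if c = A.r then (if A.tp = none then .even else .drop)
  else if A.tp = some c then (if A.ev c then .nn else .near)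
  else if A.ev c then (if (σ c).2 = true then .drop else .even)
  else if (σ (A.L.Ct.par c)).1 (A.idx (.inr c)) = true then .far else .near

open Classical in
/-- the letter of a crossing -/
noncomputable def le (p : α) : Bool :=
  if ∃ j, p = A.L.S.port A.x j then true else (σ (A.L.Ct.pt p)).1 (A.idx (.inl p))

/-- the lane of a token -/
def lane : LS → Bool → ℕ
  | .far, _ => 1
  | .near, _ => 0
  | .nn, true => 2
  | .nn, false => 0
  | .even, true => 1
  | .even, false => 0
  | .drop, true => 1
  | .drop, false => 0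

/-- the name of a token -/
noncomputable def phi : Tn C α → α ⊕ (C × ℕ)
  | .pt p => .inl p
  | .ow c b => .inr (c, lane (A.lk σ c) b)
  | .ho c b => .inr (c, lane (A.lk σ c) b)

/-- used items -/
def Us (i : α ⊕ C) : Prop := ∀ p, i = .inl p → p ∈ A.L.used A.x

open Classical in
/-- the items of a circle in reading order -/
noncomputable def rd' (z : C) : List (α ⊕ C) :=
  (A.L.rd z).filter (fun i => A.Us i) ++
    if z = A.r then (match A.tp with | none => [] | some g => [.inr g]) else []

variable {A} {σ}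

section Sys

variable [Fintype C] {N : ℕ} {e : C ≃ Fin N}
  {h1 : ∀ c, c ≠ A.r → A.tp ≠ some c → e (A.L.Ct.par c) < e c}
  {h2 : ∀ g, A.tp = some g → e g < e A.r} {τ : Fin N → (ℕ → Bool) × Bool}

lemma lk_r (h : A.tp = none) : A.lk σ A.r = .even := by
  unfold lk; rw [if_pos rfl, if_pos h]

lemma lk_r' {g : C} (h : A.tp = some g) : A.lk σ A.r = .drop := by
  unfold lk; rw [if_pos rfl, if_neg (by rw [h]; simp)]

lemma lk_g {g : C} (h : A.tp = some g) (he : A.ev g) : A.lk σ g = .nn := by
  have hgr : g ≠ A.r := A.htp g h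
  unfold lk; rw [if_neg hgr, if_pos h, if_pos he]

lemma lk_g' {g : C} (h : A.tp = some g) (he : ¬ A.ev g) : A.lk σ g = .near := by
  have hgr : g ≠ A.r := A.htp g h
  unfold lk; rw [if_neg hgr, if_pos h, if_neg he]

lemma lk_dr {c : C} (hc : c ≠ A.r) (hg : A.tp ≠ some c) (he : A.ev c) (h : (σ c).2 = true) :
    A.lk σ c = .drop := by
  unfold lk; rw [if_neg hc, if_neg hg, if_pos he, if_pos h]

lemma lk_ev {c : C} (hc : c ≠ A.r) (hg : A.tp ≠ some c) (he : A.ev c) (h : ¬ (σ c).2 = true) :
    A.lk σ c = .even := by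
  unfold lk; rw [if_neg hc, if_neg hg, if_pos he, if_neg h]

lemma lk_far {c : C} (hc : c ≠ A.r) (hg : A.tp ≠ some c) (he : ¬ A.ev c)
    (h : (σ (A.L.Ct.par c)).1 (A.idx (.inr c)) = true) : A.lk σ c = .far := by
  unfold lk; rw [if_neg hc, if_neg hg, if_neg he, if_pos h]

lemma lk_near {c : C} (hc : c ≠ A.r) (hg : A.tp ≠ some c) (he : ¬ A.ev c)
    (h : ¬ (σ (A.L.Ct.par c)).1 (A.idx (.inr c)) = true) : A.lk σ c = .near := by
  unfold lk; rw [if_neg hc, if_neg hg, if_neg he, if_neg h]

/-- the dropped places -/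
lemma dr_iff {z : C} {t : ℕ} {c : C} (hi : A.L.it z t = some (.inr c)) (he : A.ev c) :
    (A.G e h1 h2).dr τ (e z) t ↔ (τ (e c)).2 = true := by
  constructor
  · rintro ⟨g, h3, h4⟩
    have := h3.uniq' (chi_of hi he)
    rw [← this]
    exact h4.2
  · intro h
    refine ⟨e c, chi_of hi he, ?_, h⟩
    obtain ⟨-, -, l, r, h3, -⟩ := chi_of (h1 := h1) (h2 := h2) hi he
    exact ⟨l, r, h3⟩

open Classical in
/-- the letters of an item -/
lemma item_word {z : C} {t : ℕ} {i : α ⊕ C} (hi : A.L.it z t = some i) :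
    (if (A.G e h1 h2).dr τ (e z) t then [] else (A.P z).lt (τ (e z)).1 t).map
      (fun q => (q.1, A.phi (fun c => τ (e c)) q.2.1)) =
    if A.Us i then il (A.lk fun c => τ (e c)) (A.le fun c => τ (e c)) i else [] := by
  obtain ⟨hh, hx⟩ := idx_it hi
  have hw : (A.P z).w t = A.L.lt A.x i := by
    show A.L.w A.x z t = _
    unfold Lv.w
    rw [hi]
  cases i with
  | inl p =>
    have hnd : ¬ (A.G e h1 h2).dr τ (e z) t := by
      intro h
      have h3 := Sy.dr_rid h
      rw [G_P] at h3
      obtain ⟨c, h3, -⟩ := h3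
      rw [hi] at h3
      cases h3
    rw [if_neg hnd]
    have hnr : ¬ (A.P z).rid t := by
      rintro ⟨c, h3, -⟩
      rw [hi] at h3
      cases h3
    by_cases hp : p ∈ A.L.used A.x
    · have hU : A.Us (.inl p) := by intro q hq; cases hq; exact hp
      rw [if_pos hU]
      have hv : A.Val (.pt p) := hp
      have htk : (A.P z).tk t = A.tok (.pt p) := P_tk hi
      have hphi : A.phi (fun c => τ (e c)) ((A.P z).tk t).1 = .inl p := by
        rw [htk, A.tok_val hv]; rfl
      show _ = [(A.le (fun c => τ (e c)) p, (Sum.inl p : α ⊕ (C × ℕ)))]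
      by_cases hpo : ∃ j, p = A.L.S.port A.x j
      · have hwo : (A.P z).w t = .o := by
          rw [hw]
          unfold Lv.lt
          simp only
          rw [if_neg, if_pos hpo]
          rintro ⟨j, hj⟩
          obtain ⟨k, hk⟩ := hpo
          exact A.L.S.y_ne_port A.x j k (by rw [← hj, hk])
        have hlt : (A.P z).lt (τ (e z)).1 t = [(true, (A.P z).tk t)] := by
          unfold Pl.lt
          rw [hwo]
        have hle : A.le (fun c => τ (e c)) p = true := by
          unfold le; rw [if_pos hpo]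
        rw [hlt, hle, List.map_cons, List.map_nil, hphi]
      · have hwu : (A.P z).w t = .u := by
          rw [hw]
          unfold Lv.lt
          simp only
          rw [if_pos]
          rcases A.mem_used.1 hp with h | h
          · exact h
          · exact absurd h hpo
        have hlt : (A.P z).lt (τ (e z)).1 t = [((τ (e z)).1 t, (A.P z).tk t)] := by
          unfold Pl.lt
          rw [hwu]
        have hle : A.le (fun c => τ (e c)) p = (τ (e z)).1 t := by
          unfold le
          rw [if_neg hpo, hx]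
          have hh : A.L.Ct.pt p = z := hh
          rw [hh]
        rw [hlt, hle, List.map_cons, List.map_nil, hphi]
    · have hU : ¬ A.Us (.inl p) := fun h => hp (h p rfl)
      rw [if_neg hU]
      have hz : (A.P z).w t = .z := by
        rw [hw]
        by_contra h3
        exact hp ((lt_some.1 h3).1 p rfl)
      have hlt : (A.P z).lt (τ (e z)).1 t = [] := by
        unfold Pl.lt
        rw [hz]
        exact if_neg hnr
      rw [hlt]; rfl
  | inr c =>
    have hU : A.Us (.inr c) := by intro q hq; cases hq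
    rw [if_pos hU]
    obtain ⟨h5, h6⟩ := rd_ne (it_lt hi).2 c rfl
    have hpar : A.L.Ct.par c = z := hh
    by_cases he : A.ev c
    · by_cases hd : (τ (e c)).2 = true
      · rw [if_pos ((dr_iff hi he).2 hd)]
        have : A.lk (fun c => τ (e c)) c = .drop := lk_dr h5 h6 he hd
        show [] = _
        unfold il
        simp only [this]
      · rw [if_neg (fun h => hd ((dr_iff hi he).1 h))]
        have hlk : A.lk (fun c => τ (e c)) c = .even := lk_ev h5 h6 he hd
        have hrid : (A.P z).rid t := ⟨c, hi, he⟩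
        rw [Pl.lt_rid _ hrid, P_ra hi, P_rb hi]
        have v1 : A.Val (.ho c true) := val_ho h5 fun h => by simp at h
        have v2 : A.Val (.ho c false) := val_ho h5 fun _ => he
        show [(true, A.phi _ (A.tok (.ho c true)).1), (false, A.phi _ (A.tok (.ho c false)).1)] = _
        rw [A.tok_val v1, A.tok_val v2]
        unfold il phi
        simp only [hlk]
        rfl
    · have hnd : ¬ (A.G e h1 h2).dr τ (e z) t := by
        intro h
        have h3 := Sy.dr_rid h
        rw [G_P] at h3
        obtain ⟨c', h3, h4⟩ := h3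
        rw [hi] at h3
        cases h3
        exact he h4
      rw [if_neg hnd]
      have hwu : (A.P z).w t = .u := by
        rw [hw]
        unfold Lv.lt
        exact if_pos (not_not.1 he)
      have hlt : (A.P z).lt (τ (e z)).1 t = [((τ (e z)).1 t, (A.P z).tk t)] := by
        unfold Pl.lt
        rw [hwu]
      have v1 : A.Val (.ho c true) := val_ho h5 fun h => by simp at h
      have htk : (A.P z).tk t = A.tok (.ho c true) := P_tk hi
      rw [hlt, htk]
      show [((τ (e z)).1 t, A.phi _ (A.tok (.ho c true)).1)] = _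
      rw [A.tok_val v1]
      cases hs : (τ (e z)).1 t with
      | true =>
        have hlk : A.lk (fun c => τ (e c)) c = .far := lk_far h5 h6 he (by
          rw [hpar, hx]; exact hs)
        unfold il phi
        simp only [hlk]
        rfl
      | false =>
        have hlk : A.lk (fun c => τ (e c)) c = .near := lk_near h5 h6 he (by
          rw [hpar, hx, hs]; simp)
        unfold il phi
        simp only [hlk]
        rfl

lemma filter_flatMap' {β γ : Type*} (p : β → Prop) [DecidablePred p] (f : β → List γ)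
    (l : List β) : (l.filter (fun i => p i)).flatMap f = l.flatMap fun i => if p i then f i else [] := by
  induction l with
  | nil => rfl
  | cons a l ih =>
    by_cases h : p a
    · rw [List.filter_cons_of_pos (by simpa using h), List.flatMap_cons, List.flatMap_cons, ih,
        if_pos h]
    · rw [List.filter_cons_of_neg (by simpa using h), List.flatMap_cons, ih, if_neg h,
        List.nil_append]

open Classical in
/-- the word of the items -/
lemma items_word (z : C) :
    ((A.P z).Wp ((A.G e h1 h2).dr τ (e z)) (τ (e z)).1).map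
      (fun q => (q.1, A.phi (fun c => τ (e c)) q.2.1)) =
    ((A.L.rd z).filter (fun i => A.Us i)).flatMap
      (il (A.lk fun c => τ (e c)) (A.le fun c => τ (e c))) := by
  rw [filter_flatMap']
  have h := range_flatMap (A.L.rd z) (fun o : Option (α ⊕ C) => match o with
    | none => []
    | some i => if A.Us i then il (A.lk fun c => τ (e c)) (A.le fun c => τ (e c)) i else [])
  rw [← h]
  unfold Pl.Wp
  rw [List.map_flatMap]
  show (List.range (A.L.rd z).length).flatMap _ = _
  refine List.flatMap_congr fun t ht => ?_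
  have ht := List.mem_range.1 ht
  have hi : A.L.it z t = some ((A.L.rd z)[t]) := List.getElem?_eq_some_iff.2 ⟨ht, rfl⟩
  have hi' : (A.L.rd z)[t]? = some ((A.L.rd z)[t]) := hi
  rw [hi']
  refine Eq.trans ?_ (item_word (h1 := h1) (h2 := h2) (τ := τ) hi)
  congr 1

end Sys

end Lc

end Pool.Agent.MP42.PD
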