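import Pool.Agent.MP42.PD.Out7
import Pool.Agent.MP42.PD.C123
import Pool.Agent.MP42.PD.C2
import Pool.Agent.MP42.PD.C3
import Pool.Agent.MP42.PD.C45

/-!
# Soundness of connected stack structures (owner helper55)

`sound_closed`, `sound_top`: a connected stack structure in the domain gives a solution of the level.
-/

set_option autoImplicit false
set_option linter.unusedSectionVars false

namespace Pool.Agent.MP42.PD

open Pool.Agent.MP42.U Pool.Agent.MP42.GZ

section Bd

variable {X Y : Type*} {a b : ℤ} {u v : List (Bool × X)}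

lemma Bd.append' (hu : GZ.Bd a u) (hv : GZ.Bd b v) : GZ.Bd (a + b) (u ++ v) := by
  have ha := GZ.Bd.nonneg hu
  have hb := GZ.Bd.nonneg hv
  intro p q hpq
  rcases List.append_eq_append_iff.1 hpq with ⟨c, h1, h2⟩ | ⟨c, h1, h2⟩
  · -- `p = u ++ c`
    have h3 := GZ.Bd.all hu
    have h4 := hv c q h2
    rw [h1, hl_append]
    omega
  · have h3 := hu p c h1
    omega

lemma Bd.short (h : u.length ≤ 2) : GZ.Bd 2 u := by
  intro p q hpq
  have h1 : p.length ≤ 2 := by
    have := congrArg List.length hpq
    rw [List.length_append] at this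
    omega
  have key : ∀ p : List (Bool × X), -(p.length : ℤ) ≤ hl p ∧ hl p ≤ p.length := by
    intro p
    induction p with
    | nil => simp
    | cons c p ih =>
      rw [hl_cons, List.length_cons]
      push_cast
      cases c.1
      · simp only [Bool.false_eq_true, if_false]
        omega
      · simp only [if_true]
        omega
  have := key p
  omega

lemma Bd.map' {φ : X → Y} (h : GZ.Bd a u) : GZ.Bd a (u.map fun q => (q.1, φ q.2)) :=
  GZ.Bd.signs h (by rw [List.map_map]; rfl)

end Bd

namespace Lc

variable {C J α : Type*} [LinearOrder α] [Fintype J] {A : Lc C J α}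

section Sys

variable [Fintype C] {N : ℕ} {e : C ≃ Fin N}
  {h1 : ∀ c, c ≠ A.r → A.tp ≠ some c → e (A.L.Ct.par c) < e c}
  {h2 : ∀ g, A.tp = some g → e g < e A.r} {τ : Fin N → (ℕ → Bool) × Bool}

lemma rd'_root (h : A.tp = none) :
    A.rd' A.r = open Classical in (A.L.rd A.r).filter (fun i => A.Us i) := by
  classical
  unfold rd'
  rw [if_pos rfl, h, List.append_nil]

lemma rd'_top {g : C} (h : A.tp = some g) :
    A.rd' A.r = open Classical in (A.L.rd A.r).filter (fun i => A.Us i) ++ [.inr g] := by
  classical
  unfold rd'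
  rw [if_pos rfl, h]

lemma rd'_ne {z : C} (h : z ≠ A.r) :
    A.rd' z = open Classical in (A.L.rd z).filter (fun i => A.Us i) := by
  classical
  unfold rd'
  rw [if_neg h, List.append_nil]

open Classical in
/-- **the words of the system are the words of the level**, up to rotation; own part, items, last
child -/
lemma word_eq (z : C) : ∃ u v w : List (Bool × (α ⊕ (C × ℕ))), u.length ≤ 2 ∧ w.length ≤ 2 ∧
    wd (fun _ => False) (swq A.L.Ct A.L.cls) (A.lk fun c => τ (e c)) (A.le fun c => τ (e c))
      A.rd' z = u ++ (v ++ w) ∧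
    v = ((A.P z).Wp ((A.G e h1 h2).dr τ (e z)) (τ (e z)).1).map
      (fun q => (q.1, A.phi (fun c => τ (e c)) q.2.1)) ∧
    (∃ u' u'', ((A.G e h1 h2).wp τ (e z)).map
      (fun q => (q.1, A.phi (fun c => τ (e c)) q.2.1)) = u' ++ ((v ++ w) ++ u'') ∧ u = u'' ++ u') ∧
    hl u + hl w + (A.O z).tot (τ (e z)).2 = if z = A.r ∧ A.tp ≠ none then -2 else 2 := by
  have hW := items_word (h1 := h1) (h2 := h2) (τ := τ) z
  have hwp : (A.G e h1 h2).wp τ (e z) = (A.O z).word
      ((A.P z).Wp ((A.G e h1 h2).dr τ (e z)) (τ (e z)).1) (τ (e z)).2 := by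
    unfold Sy.wp
    rw [G_P, G_O]
  rw [hwp]
  obtain ⟨W, hWd⟩ : ∃ W, W = (A.P z).Wp ((A.G e h1 h2).dr τ (e z)) (τ (e z)).1 := ⟨_, rfl⟩
  rw [← hWd] at hW ⊢
  obtain ⟨σ, hσ⟩ : ∃ σ, σ = fun c => τ (e c) := ⟨_, rfl⟩
  have hσ2 : ∀ c, σ c = τ (e c) := fun c => by rw [hσ]
  rw [← hσ2 z]
  rw [← hσ] at hW ⊢
  clear hwp hWd hσ hσ2
  by_cases hz : z = A.r
  · subst hz
    rcases htp : A.tp with _ | g
    · -- root of a closed level
      have hs : ¬ swq A.L.Ct A.L.cls A.r := fun h => h.1 rfl
      have v1 : ∀ b, A.Val (.ow A.r b) := fun b => val_ow (fun _ => htp) fun _ => A.ev_r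
      refine ⟨[(true, .inr (A.r, 1)), (true, .inr (A.r, 0))], _, [], by simp, by simp, ?_, rfl, ?_,
        ?_⟩
      · unfold wd ol
        rw [lk_r htp, rd'_root htp, hW]
        simp only [if_neg hs, List.append_nil]
      · refine ⟨[(true, .inr (A.r, 0))], [(true, .inr (A.r, 1))], ?_, rfl⟩
        rw [O_root htp]
        show ((true, A.tok (.ow A.r false)) :: (W ++ [(true, A.tok (.ow A.r true))])).map _ = _
        rw [List.map_cons, List.map_append, List.map_cons, List.map_nil, A.tok_val (v1 _),
          A.tok_val (v1 _)]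
        unfold phi
        simp only [lk_r htp, List.append_nil]
        rfl
      · rw [O_root htp]
        simp [Ow.tot]
    · have hgr := A.htp g htp
      have hne : A.r = A.r ∧ some g ≠ none := ⟨rfl, by simp⟩
      rw [if_pos hne]
      by_cases he : A.ev g
      · have v1 : ∀ b, A.Val (.ho g b) := fun b => val_ho hgr fun _ => he
        refine ⟨[], _, [(false, .inr (g, 0)), (false, .inr (g, 2))], by simp, by simp, ?_, rfl, ?_,
          ?_⟩
        · unfold wd ol
          rw [lk_r' htp, rd'_top htp, List.flatMap_append, hW, List.flatMap_singleton]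
          have e1 : il (A.lk σ) (A.le σ) (.inr g : α ⊕ C) =
              [(false, .inr (g, 0)), (false, .inr (g, 2))] := by
            unfold il
            simp only [lk_g htp he]
          rw [e1]
          simp only [if_false, List.nil_append]
        · refine ⟨[], [], ?_, rfl⟩
          rw [O_top htp he]
          show (W ++ [(false, A.tok (.ho g false)), (false, A.tok (.ho g true))]).map _ = _
          rw [List.map_append, List.map_cons, List.map_cons, List.map_nil, A.tok_val (v1 _),
            A.tok_val (v1 _)]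
          unfold phi
          simp only [lk_g htp he, List.append_nil, List.nil_append]
          rfl
        · rw [O_top htp he]
          simp [Ow.tot]
      · have v1 : A.Val (.ho g true) := val_ho hgr fun h => by simp at h
        refine ⟨[], _, [(false, .inr (g, 0))], by simp, by simp, ?_, rfl, ?_, ?_⟩
        · unfold wd ol
          rw [lk_r' htp, rd'_top htp, List.flatMap_append, hW, List.flatMap_singleton]
          have e1 : il (A.lk σ) (A.le σ) (.inr g : α ⊕ C) = [(false, .inr (g, 0))] := by
            unfold il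
            simp only [lk_g' htp he]
          rw [e1]
          simp only [if_false, List.nil_append]
        · refine ⟨[], [], ?_, rfl⟩
          rw [O_top' htp he]
          show (W ++ [(false, A.tok (.ho g true))]).map _ = _
          rw [List.map_append, List.map_cons, List.map_nil, A.tok_val v1]
          unfold phi
          simp only [lk_g' htp he, List.append_nil, List.nil_append]
          rfl
        · rw [O_top' htp he]
          simp [Ow.tot]
  · rw [if_neg (fun h => hz h.1)]
    by_cases he : A.ev z
    · have v1 : ∀ b, A.Val (.ow z b) := fun b => val_ow (fun h => absurd h hz) fun _ => he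
      by_cases hg : A.tp = some z
      · -- last child, even
        refine ⟨[(true, .inr (z, 0)), (true, .inr (z, 2))], _, [], by simp, by simp, ?_, rfl, ?_,
          ?_⟩
        · unfold wd ol
          rw [lk_g hg he, rd'_ne hz, hW]
          simp only [List.append_nil]
        · refine ⟨[(true, .inr (z, 2))], [(true, .inr (z, 0))], ?_, rfl⟩
          rw [O_g1 hz hg he]
          show ((true, A.tok (.ow z true)) :: (W ++ [(true, A.tok (.ow z false))])).map _ = _
          rw [List.map_cons, List.map_append, List.map_cons, List.map_nil, A.tok_val (v1 _),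
            A.tok_val (v1 _)]
          unfold phi
          simp only [lk_g hg he, List.append_nil]
          rfl
        · rw [O_g1 hz hg he]
          simp [Ow.tot]
      · obtain ⟨b, hO, hb⟩ := O_even hz hg he
        by_cases hd : (σ z).2 = true
        · -- dropped
          refine ⟨[], _, [], by simp, by simp, ?_, rfl, ?_, ?_⟩
          · unfold wd ol
            rw [lk_dr hz hg he hd, rd'_ne hz, hW]
            simp only [if_false, List.append_nil, List.nil_append]
          · refine ⟨[], [], ?_, rfl⟩
            rw [hO]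
            have e1 : (Ow.d (A.tok (.ow z b)) (A.tok (.ow z !b))).word W (σ z).2 = W := if_pos hd
            rw [e1]
            simp only [List.append_nil, List.nil_append]
          · rw [hO]
            simp [Ow.tot, hd]
        · have hlk : A.lk σ z = .even := lk_ev hz hg he hd
          have e1 : (Ow.d (A.tok (.ow z b)) (A.tok (.ow z !b))).word W (σ z).2 =
              (true, A.tok (.ow z b)) :: (W ++ [(true, A.tok (.ow z !b))]) := if_neg hd
          by_cases hc : A.L.cls z ↔ A.L.cls (A.L.Ct.par z)
          · have hs : swq A.L.Ct A.L.cls z := ⟨hz, hc⟩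
            have hb' : b = true := hb.2 hc
            subst hb'
            refine ⟨[(true, .inr (z, 0)), (true, .inr (z, 1))], _, [], by simp, by simp, ?_, rfl,
              ?_, ?_⟩
            · unfold wd ol
              rw [hlk, rd'_ne hz, hW]
              simp only [if_pos hs, List.append_nil]
            · refine ⟨[(true, .inr (z, 1))], [(true, .inr (z, 0))], ?_, rfl⟩
              rw [hO, e1, List.map_cons, List.map_append, List.map_cons, List.map_nil,
                A.tok_val (v1 _), A.tok_val (v1 _)]
              unfold phi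
              simp only [hlk, List.append_nil]
              rfl
            · rw [hO]
              simp [Ow.tot, hd]
          · have hs : ¬ swq A.L.Ct A.L.cls z := fun h => hc h.2
            have hb' : b = false := by
              cases b
              · rfl
              · exact absurd (hb.1 rfl) hc
            subst hb'
            refine ⟨[(true, .inr (z, 1)), (true, .inr (z, 0))], _, [], by simp, by simp, ?_, rfl,
              ?_, ?_⟩
            · unfold wd ol
              rw [hlk, rd'_ne hz, hW]
              simp only [if_neg hs, List.append_nil]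
            · refine ⟨[(true, .inr (z, 0))], [(true, .inr (z, 1))], ?_, rfl⟩
              rw [hO, e1, List.map_cons, List.map_append, List.map_cons, List.map_nil,
                A.tok_val (v1 _), A.tok_val (v1 _)]
              unfold phi
              simp only [hlk, List.append_nil]
              rfl
            · rw [hO]
              simp [Ow.tot, hd]
    · -- odd
      have v1 : A.Val (.ow z true) := val_ow (fun h => absurd h hz) fun h => by simp at h
      have hO := O_odd hz he
      have hlk : A.lk σ z = .far ∨ A.lk σ z = .near := by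
        by_cases hg : A.tp = some z
        · exact Or.inr (lk_g' hg he)
        · by_cases h3 : (σ (A.L.Ct.par z)).1 (A.idx (.inr z)) = true
          · exact Or.inl (lk_far hz hg he h3)
          · exact Or.inr (lk_near hz hg he h3)
      have hw : (Ow.s (A.tok (.ow z true))).word W (σ z).2 = (true, A.tok (.ow z true)) :: W := rfl
      rcases hlk with hlk | hlk
      · refine ⟨[(true, .inr (z, 1))], _, [], by simp, by simp, ?_, rfl, ?_, ?_⟩
        · unfold wd ol
          rw [hlk, rd'_ne hz, hW]
          simp only [List.append_nil]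
        · refine ⟨[(true, .inr (z, 1))], [], ?_, rfl⟩
          rw [hO, hw, List.map_cons, A.tok_val v1]
          unfold phi
          simp only [hlk, List.append_nil]
          rfl
        · rw [hO]
          simp [Ow.tot]
      · refine ⟨[(true, .inr (z, 0))], _, [], by simp, by simp, ?_, rfl, ?_, ?_⟩
        · unfold wd ol
          rw [hlk, rd'_ne hz, hW]
          simp only [List.append_nil]
        · refine ⟨[(true, .inr (z, 0))], [], ?_, rfl⟩
          rw [hO, hw, List.map_cons, A.tok_val v1]
          unfold phi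
          simp only [hlk, List.append_nil]
          rfl
        · rw [hO]
          simp [Ow.tot]

/-- the names of the tokens of the present tokens -/
lemma present_wp {f : Fin N} {x : A.T} (hx : x ∈ ((A.G e h1 h2).wp τ f).map Prod.snd) :
    ¬ (A.G e h1 h2).Abs τ x := by
  classical
  obtain ⟨W, hW⟩ : ∃ W, W = ((A.G e h1 h2).P f).Wp ((A.G e h1 h2).dr τ f) (τ f).1 := ⟨_, rfl⟩
  have hx' : x ∈ (((A.G e h1 h2).O f).word W (τ f).2).map Prod.snd := by rw [hW]; exact hx
  have h3 : x ∈ W.map Prod.snd → ¬ (A.G e h1 h2).Abs τ x := by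
    intro h
    rw [hW] at h
    unfold Pl.Wp at h
    rw [List.map_flatMap] at h
    obtain ⟨t, ht, h4⟩ := List.mem_flatMap.1 h
    by_cases hd : (A.G e h1 h2).dr τ f t
    · rw [if_pos hd] at h4
      simp at h4
    · rw [if_neg hd, Pl.lt_snd] at h4
      exact Sy.present_tl hosted (List.mem_range.1 ht) hd h4
  have h4 : ∀ {O : Ow A.T}, (A.G e h1 h2).O f = O → (∀ l r, O = .d l r → (τ f).2 ≠ true) →
      x ∈ O.tks → ¬ (A.G e h1 h2).Abs τ x := by
    intro O hO hd hm
    refine Sy.present_own hosted (f := f) ?_ (by rw [hO]; exact hm)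
    rintro ⟨⟨l, r, h5⟩, h6⟩
    rw [hO] at h5
    exact hd l r h5 h6
  rcases hO : (A.G e h1 h2).O f with l | ⟨l, r⟩ | ⟨l, r⟩ | g | ⟨g, g'⟩ <;> rw [hO] at hx'
  · have e1 : (Ow.s l).word W (τ f).2 = (true, l) :: W := rfl
    rw [e1, List.map_cons] at hx'
    rcases List.mem_cons.1 hx' with h | h
    · exact h4 hO (by simp) (by simp [Ow.tks, h])
    · exact h3 h
  · by_cases hd : (τ f).2 = true
    · have e1 : (Ow.d l r).word W (τ f).2 = W := if_pos hd
      rw [e1] at hx'
      exact h3 hx'
    · have e1 : (Ow.d l r).word W (τ f).2 = (true, l) :: (W ++ [(true, r)]) := if_neg hd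
      rw [e1, List.map_cons, List.map_append] at hx'
      rcases List.mem_cons.1 hx' with h | h
      · exact h4 hO (fun _ _ _ => hd) (by simp [Ow.tks, h])
      · rcases List.mem_append.1 h with h | h
        · exact h3 h
        · have h : x = r := by simpa using h
          exact h4 hO (fun _ _ _ => hd) (by simp [Ow.tks, h])
  · have e1 : (Ow.rt l r).word W (τ f).2 = (true, l) :: (W ++ [(true, r)]) := rfl
    rw [e1, List.map_cons, List.map_append] at hx'
    rcases List.mem_cons.1 hx' with h | h
    · exact h4 hO (by simp) (by simp [Ow.tks, h])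
    · rcases List.mem_append.1 h with h | h
      · exact h3 h
      · have h : x = r := by simpa using h
        exact h4 hO (by simp) (by simp [Ow.tks, h])
  · have e1 : (Ow.g1 g).word W (τ f).2 = W ++ [(false, g)] := rfl
    rw [e1, List.map_append] at hx'
    rcases List.mem_append.1 hx' with h | h
    · exact h3 h
    · have h : x = g := by simpa using h
      exact h4 hO (by simp) (by simp [Ow.tks, h])
  · have e1 : (Ow.g2 g g').word W (τ f).2 = W ++ [(false, g), (false, g')] := rfl
    rw [e1, List.map_append] at hx'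
    rcases List.mem_append.1 hx' with h | h
    · exact h3 h
    · have h : x = g ∨ x = g' := by simpa using h
      rcases h with h | h
      · exact h4 hO (by simp) (by simp [Ow.tks, h])
      · exact h4 hO (by simp) (by simp [Ow.tks, h])

end Sys

open Classical in
/-- **main result**: states and letters -/
theorem main [Fintype C] {K : ℕ} (hK : 3 ≤ K) (hK6 : K ≤ 6) (hC : A.L.Conn K A.x)
    (hD : A.L.Dom K A.x) (hr : ∀ g, A.tp = some g → A.L.cp A.r = 0) :
    ∃ (lk : C → LS) (lt : α → Bool), (∀ j, lt (A.L.S.port A.x j) = true) ∧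
      (∀ c, lk c = .nn → A.tp = some c) ∧ (A.tp = none → lk A.r = .even) ∧
      (∀ g, A.tp = some g → lk A.r = .drop ∧ (lk g = .near ∨ lk g = .nn)) ∧
      (∀ z, hl (wd (fun _ => False) (swq A.L.Ct A.L.cls) lk lt A.rd' z) =
        if z = A.r ∧ A.tp ≠ none then -2 else 2) ∧
      (∀ z, GZ.Bd 40 (wd (fun _ => False) (swq A.L.Ct A.L.cls) lk lt A.rd' z)) ∧
      ∀ V : α ⊕ (C × ℕ) → B, (∀ j, V (.inl (A.L.S.y j)) = V (.inl (A.L.S.port A.x j))) →
        (∀ z, Cl V (wd (fun _ => False) (swq A.L.Ct A.L.cls) lk lt A.rd' z)) →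
        ∃ k, ∀ z, ∀ q ∈ wd (fun _ => False) (swq A.L.Ct A.L.cls) lk lt A.rd' z, V q.2 = k := by
  obtain ⟨e, h1, h2⟩ := A.exists_e
  have hD' : 2 * (K : ℤ) + 5 ≤ 17 := by omega
  have hD2 : 2 * (K : ℤ) + 2 ≤ 17 := by omega
  obtain ⟨τ, hτ, hcon⟩ := exists_letters (h1 := h1) (h2 := h2) (K := K) (D := 17) (by omega) hC hD hr
    (fun P => P.c1 hK hD') (fun P => P.c2 hK hD') (fun P => P.c3 hK hD2)
    (fun P => P.c4 hK hD2) (fun P => P.c5 hK hD2)
  have hW : ∀ z, hl ((A.P z).Wp ((A.G e h1 h2).dr τ (e z)) (τ (e z)).1) =
      (A.O z).tot (τ (e z)).2 ∧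
      Pl.Bdd 17 ((A.P z).Wp ((A.G e h1 h2).dr τ (e z)) (τ (e z)).1) := by
    intro z
    have h3 := hτ (e z)
    unfold Sy.C at h3
    rw [G_P, G_O] at h3
    have hdr : ∀ t, (A.G e h1 h2).dr τ (e z) t → (A.P z).rid t := by
      intro t ht
      have := Sy.dr_rid ht
      rwa [G_P] at this
    exact ⟨by rw [Pl.hl_Wp _ hdr]; exact h3.1, Pl.bdd_Wp _ hdr h3.2⟩
  obtain ⟨σ, hσ⟩ : ∃ σ, σ = fun c => τ (e c) := ⟨_, rfl⟩
  refine ⟨A.lk σ, A.le σ, ?_, ?_, ?_, ?_, ?_, ?_, ?_⟩
  · intro j
    unfold le
    rw [if_pos ⟨j, rfl⟩]
  · intro c hc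
    by_contra hg
    by_cases hcr : c = A.r
    · subst hcr
      rcases htp : A.tp with _ | g
      · rw [lk_r htp] at hc; cases hc
      · rw [lk_r' htp] at hc; cases hc
    · by_cases he : A.ev c
      · by_cases hd : (σ c).2 = true
        · rw [lk_dr hcr hg he hd] at hc; cases hc
        · rw [lk_ev hcr hg he hd] at hc; cases hc
      · by_cases h3 : (σ (A.L.Ct.par c)).1 (A.idx (.inr c)) = true
        · rw [lk_far hcr hg he h3] at hc; cases hc
        · rw [lk_near hcr hg he h3] at hc; cases hc
  · exact fun h => lk_r h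
  · intro g hg
    refine ⟨lk_r' hg, ?_⟩
    by_cases he : A.ev g
    · exact Or.inr (lk_g hg he)
    · exact Or.inl (lk_g' hg he)
  · intro z
    obtain ⟨u, v, w, -, -, h3, h4, -, h5⟩ := word_eq (h1 := h1) (h2 := h2) (τ := τ) z
    rw [← hσ] at h3 h4
    have h6 : hl v = (A.O z).tot (τ (e z)).2 := by
      rw [h4]
      exact (U.hl_map (fun q : A.T => A.phi σ q.1) _).trans (hW z).1
    rw [h3, hl_append, hl_append, ← h5, h6]
    ring
  · intro z
    obtain ⟨u, v, w, hu, hw, h3, h4, -, h5⟩ := word_eq (h1 := h1) (h2 := h2) (τ := τ) z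
    rw [← hσ] at h3 h4
    rw [h3]
    have hv : GZ.Bd 17 v := by
      rw [h4]
      exact Bd.map' (φ := fun q : A.T => A.phi σ q.1) (hW z).2
    have := Bd.append' (Bd.short hu) (Bd.append' hv (Bd.short hw))
    exact GZ.Bd.mono this (by norm_num)
  · intro V hy hcl
    obtain ⟨V', hV'⟩ : ∃ V' : A.T → B, V' = fun t => V (A.phi σ t.1) := ⟨_, rfl⟩
    have hdf : A.Val (.ow A.dfc true) := A.dfc_val
    obtain ⟨k, hk⟩ := hcon V' (A.tok (.ow A.dfc true)) (by
      intro x hx hxa hxl
      rw [hV']
      show V (A.phi σ (A.lr x.1)) = V (A.phi σ x.1)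
      have hv := x.2
      rcases hu : x.1 with p | ⟨c, b⟩ | ⟨c, b⟩
      · rw [hu] at hv
        show V (.inl (A.mate p)) = V (.inl p)
        rcases A.mem_used.1 hv with ⟨j, rfl⟩ | ⟨j, rfl⟩
        · rw [A.mate_y]; exact (hy j).symm
        · rw [A.mate_x]; exact hy j
      · by_cases hc : c = A.r
        · exfalso
          rw [hu] at hv
          have htp := hv.1 hc
          have hdc : A.dfc = A.r := by unfold dfc; rw [htp]; rfl
          cases b with
          | true =>
            apply hxa
            apply Subtype.ext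
            rw [A.tok_val hdf, hu, hdc, hc]
          | false =>
            apply hxl
            apply Subtype.ext
            show _ = A.lr (A.tok (.ow A.dfc true)).1
            rw [A.tok_val hdf, hdc, lr_owr, hu, hc]
            rfl
        · rw [lr_ow hc]
          rfl
      · rfl) (by
      intro f
      obtain ⟨z, rfl⟩ : ∃ c, f = e c := ⟨e.symm f, (e.apply_symm_apply f).symm⟩
      obtain ⟨u, v, w, -, -, h3, h4, ⟨u', u'', h5, h6⟩, -⟩ :=
        word_eq (h1 := h1) (h2 := h2) (τ := τ) z
      rw [← hσ] at h3 h5
      have h7 := hcl z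
      rw [h3, h6, List.append_assoc] at h7
      have h8 := h7.rot
      rw [List.append_assoc, ← h5] at h8
      rw [hV']
      exact h8.of_map (φ := fun q : A.T => A.phi σ q.1))
    refine ⟨k, fun z q hq => ?_⟩
    obtain ⟨u, v, w, -, -, h3, h4, ⟨u', u'', h5, h6⟩, -⟩ :=
      word_eq (h1 := h1) (h2 := h2) (τ := τ) z
    rw [← hσ] at h3 h5
    rw [h3, h6] at hq
    have h7 : q ∈ ((A.G e h1 h2).wp τ (e z)).map (fun q => (q.1, A.phi σ q.2.1)) := by
      rw [h5]
      simp only [List.mem_append] at hq ⊢
      tauto
    obtain ⟨q', h8, rfl⟩ := List.mem_map.1 h7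
    have h9 := hk q'.2 (present_wp (h1 := h1) (h2 := h2) (τ := τ) (f := e z)
      (List.mem_map.2 ⟨q', h8, rfl⟩))
    rw [hV'] at h9
    exact h9

end Lc

end Pool.Agent.MP42.PD
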