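import Mathlib

/-!
# Project MP42, bounded stack: the run of a word and joint feasibility (owner helper67)

A word is a function `w : ℕ → Lt` (`o` port, `u` unit, `z` nothing / even child).  The stack has
capacity `K`: a unit is pushed if there is room, otherwise it pops the top; a port pops the top or is
left over.  `joint`: exchange of letters along passes keeps the number of left overs.
-/

set_option autoImplicit false
set_option linter.unusedSectionVars false

namespace Pool.Agent.MP42.PD

/-- letters: `o` port, `u` unit, `z` nothing (unused corner, even child) -/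
inductive Lt
  | o | u | z
  deriving DecidableEq

variable (K : ℕ) (w w' : ℕ → Lt)

/-- the stack of openers before position `t` -/
def stk : ℕ → List ℕ
  | 0 => []
  | t + 1 => match w t with
    | .z => stk t
    | .o => (stk t).tail
    | .u => if (stk t).length < K then t :: stk t else (stk t).tail

/-- left over ports before position `t` -/
def lo (t : ℕ) : Finset ℕ := (Finset.range t).filter fun i => w i = .o ∧ stk K w i = []

/-- height -/
def hh (t : ℕ) : ℤ := ((stk K w t).length : ℤ)

/-- number of left overs -/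
def mm (t : ℕ) : ℤ := ((lo K w t).card : ℤ)

variable {K w w'}

lemma stk_z {t : ℕ} (h : w t = .z) : stk K w (t + 1) = stk K w t := by
  simp [stk, h]

lemma stk_o {t : ℕ} (h : w t = .o) : stk K w (t + 1) = (stk K w t).tail := by
  simp [stk, h]

lemma stk_u {t : ℕ} (h : w t = .u) (hl : (stk K w t).length < K) :
    stk K w (t + 1) = t :: stk K w t := by
  simp [stk, h, hl]

lemma stk_u' {t : ℕ} (h : w t = .u) (hl : ¬ (stk K w t).length < K) :
    stk K w (t + 1) = (stk K w t).tail := by
  simp [stk, h, hl]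

lemma stk_len (t : ℕ) : (stk K w t).length ≤ K := by
  induction t with
  | zero => simp [stk]
  | succ t ih =>
    rcases h : w t with _ | _ | _
    · rw [stk_o h, List.length_tail]; omega
    · by_cases hl : (stk K w t).length < K
      · rw [stk_u h hl]; simpa using hl
      · rw [stk_u' h hl, List.length_tail]; omega
    · rw [stk_z h]; exact ih

lemma stk_lt {t i : ℕ} (h : i ∈ stk K w t) : i < t := by
  induction t with
  | zero => simp [stk] at h
  | succ t ih =>
    rcases hw : w t with _ | _ | _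
    · rw [stk_o hw] at h
      exact (ih (List.mem_of_mem_tail h)).trans (Nat.lt_succ_self t)
    · by_cases hl : (stk K w t).length < K
      · rw [stk_u hw hl, List.mem_cons] at h
        rcases h with rfl | h
        · exact Nat.lt_succ_self _
        · exact (ih h).trans (Nat.lt_succ_self t)
      · rw [stk_u' hw hl] at h
        exact (ih (List.mem_of_mem_tail h)).trans (Nat.lt_succ_self t)
    · rw [stk_z hw] at h
      exact (ih h).trans (Nat.lt_succ_self t)

lemma stk_nodup (t : ℕ) : (stk K w t).Nodup := by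
  induction t with
  | zero => simp [stk]
  | succ t ih =>
    rcases hw : w t with _ | _ | _
    · rw [stk_o hw]; exact ih.tail
    · by_cases hl : (stk K w t).length < K
      · rw [stk_u hw hl, List.nodup_cons]
        exact ⟨fun h => absurd (stk_lt h) (lt_irrefl _), ih⟩
      · rw [stk_u' hw hl]; exact ih.tail
    · rw [stk_z hw]; exact ih

/-- an opener of the stack has been there since it was read -/
lemma mem_stk_of_le {t t' i : ℕ} (h : i ∈ stk K w t') (hi : i < t) (ht : t ≤ t') :
    i ∈ stk K w t := by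
  obtain ⟨d, rfl⟩ := Nat.exists_eq_add_of_le ht
  clear ht
  induction d with
  | zero => exact h
  | succ d ih =>
    rw [← add_assoc] at h
    apply ih
    rcases hw : w (t + d) with _ | _ | _
    · rw [stk_o hw] at h
      exact List.mem_of_mem_tail h
    · by_cases hl : (stk K w (t + d)).length < K
      · rw [stk_u hw hl, List.mem_cons] at h
        rcases h with rfl | h
        · omega
        · exact h
      · rw [stk_u' hw hl] at h
        exact List.mem_of_mem_tail h
    · rw [stk_z hw] at h
      exact h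

/-- an opener is a unit -/
lemma w_of_mem_stk {t i : ℕ} (h : i ∈ stk K w t) : w i = .u := by
  have h1 := mem_stk_of_le h (Nat.lt_succ_self i) (stk_lt h)
  rcases hw : w i with _ | _ | _
  · rw [stk_o hw] at h1
    exact absurd (stk_lt (List.mem_of_mem_tail h1)) (lt_irrefl _)
  · rfl
  · rw [stk_z hw] at h1
    exact absurd (stk_lt h1) (lt_irrefl _)

lemma mem_lo {t i : ℕ} : i ∈ lo K w t ↔ i < t ∧ w i = .o ∧ stk K w i = [] := by
  simp [lo]

lemma lo_succ_o {t : ℕ} (h : w t = .o) (h' : stk K w t = []) :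
    lo K w (t + 1) = insert t (lo K w t) := by
  ext i
  rw [Finset.mem_insert, mem_lo, mem_lo]
  constructor
  · rintro ⟨h1, h2⟩
    rcases Nat.lt_succ_iff_lt_or_eq.1 h1 with h3 | h3
    · exact Or.inr ⟨h3, h2⟩
    · exact Or.inl h3
  · rintro (rfl | ⟨h1, h2⟩)
    · exact ⟨Nat.lt_succ_self _, h, h'⟩
    · exact ⟨h1.trans (Nat.lt_succ_self _), h2⟩

lemma lo_succ_n {t : ℕ} (h : ¬ (w t = .o ∧ stk K w t = [])) :
    lo K w (t + 1) = lo K w t := by
  ext i
  rw [mem_lo, mem_lo]
  constructor
  · rintro ⟨h1, h2⟩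
    rcases Nat.lt_succ_iff_lt_or_eq.1 h1 with h3 | h3
    · exact ⟨h3, h2⟩
    · rw [h3] at h2; exact absurd h2 h
  · rintro ⟨h1, h2⟩
    exact ⟨h1.trans (Nat.lt_succ_self _), h2⟩

@[simp] lemma hh_zero : hh K w 0 = 0 := by simp [hh, stk]
@[simp] lemma mm_zero : mm K w 0 = 0 := by simp [mm, lo]

lemma hh_nonneg (t : ℕ) : 0 ≤ hh K w t := by unfold hh; positivity
lemma mm_nonneg (t : ℕ) : 0 ≤ mm K w t := by unfold mm; positivity
lemma hh_le (t : ℕ) : hh K w t ≤ K := by unfold hh; exact_mod_cast stk_len t

lemma hh_eq_zero {t : ℕ} : hh K w t = 0 ↔ stk K w t = [] := by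
  unfold hh; rw [Int.natCast_eq_zero, List.length_eq_zero_iff]

/-- one step of the run -/
lemma step_z {t : ℕ} (h : w t = .z) : hh K w (t + 1) = hh K w t ∧ mm K w (t + 1) = mm K w t := by
  refine ⟨by unfold hh; rw [stk_z h], by unfold mm; rw [lo_succ_n (by rw [h]; simp)]⟩

lemma step_o0 {t : ℕ} (h : w t = .o) (h0 : hh K w t = 0) :
    hh K w (t + 1) = 0 ∧ mm K w (t + 1) = mm K w t + 1 := by
  have h1 := hh_eq_zero.1 h0
  refine ⟨by unfold hh; rw [stk_o h, h1]; simp, ?_⟩
  unfold mm
  rw [lo_succ_o h h1, Finset.card_insert_of_notMem (by rw [mem_lo]; simp)]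
  push_cast
  ring

lemma step_o1 {t : ℕ} (h : w t = .o) (h0 : hh K w t ≠ 0) :
    hh K w (t + 1) = hh K w t - 1 ∧ mm K w (t + 1) = mm K w t := by
  have h1 : stk K w t ≠ [] := fun h => h0 (hh_eq_zero.2 h)
  refine ⟨?_, by unfold mm; rw [lo_succ_n (fun h2 => h1 h2.2)]⟩
  unfold hh
  rw [stk_o h, List.length_tail]
  have : 0 < (stk K w t).length := List.length_pos_iff.2 h1
  omega

lemma step_u0 {t : ℕ} (h : w t = .u) (h0 : hh K w t < K) :
    hh K w (t + 1) = hh K w t + 1 ∧ mm K w (t + 1) = mm K w t := by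
  have h1 : (stk K w t).length < K := by unfold hh at h0; exact_mod_cast h0
  refine ⟨?_, by unfold mm; rw [lo_succ_n (by rw [h]; simp)]⟩
  unfold hh
  rw [stk_u h h1, List.length_cons]
  push_cast
  ring

lemma step_u1 {t : ℕ} (hK : 0 < K) (h : w t = .u) (h0 : hh K w t = K) :
    hh K w (t + 1) = hh K w t - 1 ∧ mm K w (t + 1) = mm K w t := by
  have h1 : (stk K w t).length = K := by unfold hh at h0; exact_mod_cast h0
  refine ⟨?_, by unfold mm; rw [lo_succ_n (by rw [h]; simp)]⟩
  unfold hh
  rw [stk_u' h (by omega), List.length_tail, h1]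
  omega

/-- **numeric form of joint feasibility** -/
theorem numeric (hK : 0 < K) {N : ℕ} {n Mo : ℕ → ℤ} (n0 : n 0 = 0)
    (hn : ∀ t < N, (w' t = w t ∧ n (t + 1) = n t) ∨
      (((w t = .z ∧ w' t = .o) ∨ (w t = .u ∧ w' t = .z) ∨ (w t = .z ∧ w' t = .u)) ∧
        n (t + 1) = n t + 1) ∨
      ((w t = .o ∧ w' t = .z) ∧ n (t + 1) = n t - 1))
    (mono : ∀ t < N, Mo t ≤ Mo (t + 1))
    (b1 : ∀ t ≤ N, mm K w t - hh K w t + n t ≤ Mo t)
    (b2 : ∀ t ≤ N, Mo t ≤ mm K w t + n t) :
    ∀ t ≤ N, mm K w' t - hh K w' t ≤ mm K w t - hh K w t + n t ∧ mm K w' t ≤ Mo t ∧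
      (2 : ℤ) ∣ (mm K w t - hh K w t + n t) - (mm K w' t - hh K w' t) := by
  intro t
  induction t with
  | zero =>
    intro _
    have h1 := b1 0 (Nat.zero_le _)
    simp only [mm_zero, hh_zero, n0] at h1 ⊢
    refine ⟨le_rfl, by linarith, by simp⟩
  | succ t ih =>
    intro ht
    obtain ⟨i1, i2, ⟨d, i3⟩⟩ := ih (by omega)
    have m1 := mono t (by omega)
    have c1 := b1 (t + 1) ht
    have c1' := b1 t (by omega)
    have c2 := b2 t (by omega)
    have k1 := hh_nonneg (K := K) (w := w) t
    have k2 := hh_nonneg (K := K) (w := w') t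
    have k3 := hh_le (K := K) (w := w) t
    have k4 := hh_le (K := K) (w := w') t
    have hK' : (0 : ℤ) < K := by exact_mod_cast hK
    rcases hn t (by omega) with ⟨e, en⟩ | ⟨e, en⟩ | ⟨⟨e, e'⟩, en⟩
    · rcases hw : w t with _ | _ | _
      · rw [hw] at e
        by_cases z1 : hh K w t = 0 <;> by_cases z2 : hh K w' t = 0
        · obtain ⟨a1, a2⟩ := step_o0 hw z1
          obtain ⟨a3, a4⟩ := step_o0 e z2
          rw [a1, a2, en] at c1
          rw [a1, a2, a3, a4, en]
          refine ⟨by linarith, by linarith, ⟨d, by linarith⟩⟩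
        · obtain ⟨a1, a2⟩ := step_o0 hw z1
          obtain ⟨a3, a4⟩ := step_o1 e z2
          rw [a1, a2, en] at c1
          rw [a1, a2, a3, a4, en]
          refine ⟨by linarith, by linarith, ⟨d, by linarith⟩⟩
        · obtain ⟨a1, a2⟩ := step_o1 hw z1
          obtain ⟨a3, a4⟩ := step_o0 e z2
          rw [a1, a2, en] at c1
          rw [a1, a2, a3, a4, en]
          refine ⟨by linarith, by linarith, ⟨d, by linarith⟩⟩
        · obtain ⟨a1, a2⟩ := step_o1 hw z1
          obtain ⟨a3, a4⟩ := step_o1 e z2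
          rw [a1, a2, en] at c1
          rw [a1, a2, a3, a4, en]
          refine ⟨by linarith, by linarith, ⟨d, by linarith⟩⟩
      · rw [hw] at e
        by_cases z1 : hh K w t < K <;> by_cases z2 : hh K w' t < K
        · obtain ⟨a1, a2⟩ := step_u0 hw z1
          obtain ⟨a3, a4⟩ := step_u0 e z2
          rw [a1, a2, a3, a4, en]
          refine ⟨by linarith, by linarith, ⟨d, by linarith⟩⟩
        · obtain ⟨a1, a2⟩ := step_u0 hw z1
          have z2' : hh K w' t = K := by omega
          obtain ⟨a3, a4⟩ := step_u1 hK e z2'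
          rw [a1, a2, a3, a4, en]
          refine ⟨by omega, by linarith, ⟨d - 1, by linarith⟩⟩
        · have z1' : hh K w t = K := by omega
          obtain ⟨a1, a2⟩ := step_u1 hK hw z1'
          obtain ⟨a3, a4⟩ := step_u0 e z2
          rw [a1, a2, a3, a4, en]
          refine ⟨by linarith, by linarith, ⟨d + 1, by linarith⟩⟩
        · have z1' : hh K w t = K := by omega
          have z2' : hh K w' t = K := by omega
          obtain ⟨a1, a2⟩ := step_u1 hK hw z1'
          obtain ⟨a3, a4⟩ := step_u1 hK e z2'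
          rw [a1, a2, a3, a4, en]
          refine ⟨by linarith, by linarith, ⟨d, by linarith⟩⟩
      · rw [hw] at e
        obtain ⟨a1, a2⟩ := step_z hw
        obtain ⟨a3, a4⟩ := step_z e
        rw [a1, a2, a3, a4, en]
        refine ⟨by linarith, by linarith, ⟨d, by linarith⟩⟩
    · rcases e with ⟨e, e'⟩ | ⟨e, e'⟩ | ⟨e, e'⟩
      · obtain ⟨a1, a2⟩ := step_z e
        rw [a1, a2, en] at c1
        by_cases z2 : hh K w' t = 0
        · obtain ⟨a3, a4⟩ := step_o0 e' z2
          rw [a1, a2, a3, a4, en]
          refine ⟨by linarith, by linarith, ⟨d, by linarith⟩⟩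
        · obtain ⟨a3, a4⟩ := step_o1 e' z2
          rw [a1, a2, a3, a4, en]
          refine ⟨by linarith, by linarith, ⟨d, by linarith⟩⟩
      · obtain ⟨a3, a4⟩ := step_z e'
        by_cases z1 : hh K w t < K
        · obtain ⟨a1, a2⟩ := step_u0 e z1
          rw [a1, a2, a3, a4, en]
          refine ⟨by linarith, by linarith, ⟨d, by linarith⟩⟩
        · have z1' : hh K w t = K := by omega
          obtain ⟨a1, a2⟩ := step_u1 hK e z1'
          rw [a1, a2, a3, a4, en]
          refine ⟨by linarith, by linarith, ⟨d + 1, by linarith⟩⟩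
      · obtain ⟨a1, a2⟩ := step_z e
        by_cases z2 : hh K w' t < K
        · obtain ⟨a3, a4⟩ := step_u0 e' z2
          rw [a1, a2, a3, a4, en]
          refine ⟨by linarith, by linarith, ⟨d + 1, by linarith⟩⟩
        · have z2' : hh K w' t = K := by omega
          obtain ⟨a3, a4⟩ := step_u1 hK e' z2'
          rw [a1, a2, a3, a4, en]
          refine ⟨by linarith, by linarith, ⟨d, by linarith⟩⟩
    · obtain ⟨a3, a4⟩ := step_z e'
      by_cases z1 : hh K w t = 0
      · obtain ⟨a1, a2⟩ := step_o0 e z1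
        rw [a1, a2, a3, a4, en]
        refine ⟨by linarith, by linarith, ⟨d, by linarith⟩⟩
      · obtain ⟨a1, a2⟩ := step_o1 e z1
        rw [a1, a2, a3, a4, en]
        refine ⟨by linarith, by linarith, ⟨d, by linarith⟩⟩

end Pool.Agent.MP42.PD
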