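import Pool.Agent.MP42.U.Cell
import Pool.Agent.MP42.PD.Rn

/-!
# Parse of a reading list into nested cells

`Sl T`: slot = unit, port, even child, nothing.  `ps K q t` = state after `t` slots: stack of open
frames (opener, items so far), items on the main level since the last left over, closed segments.
`ps_stk`, `ps_lo`: link with the run `stk`, `lo` of `Rn.lean`.  `ws_main`: the lettered word.
`eqs_of_sc`: the values.
-/

set_option autoImplicit false

namespace Pool.Agent.MP42.PD

open U

variable {T : Type*}

/-- slots with tokens -/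
inductive Sl (T : Type*) where
  | un : T → Sl T
  | po : T → Sl T
  | ev : T → T → Sl T
  | no : Sl T

namespace Sl

/-- the letter of the run -/
def lt : Sl T → Lt
  | un _ => .u
  | po _ => .o
  | ev _ _ => .z
  | no => .z

/-- the lettered word of a slot -/
def wd (s on : T → Bool) : Sl T → List (Bool × T)
  | un t => [(s t, t)]
  | po t => [(s t, t)]
  | ev a b => if on a then [(true, a), (false, b)] else []
  | no => []

/-- the tokens of a slot -/
def tk : Sl T → List T
  | un t => [t]
  | po t => [t]
  | ev a b => [a, b]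
  | no => []

end Sl

/-- state of the parse -/
structure Ps (T : Type*) where
  /-- open frames, top first -/
  stk : List (T × List (BT T))
  /-- items on the main level since the last left over -/
  cur : List (BT T)
  /-- segments closed by a left over -/
  seg : List (List (BT T) × T)

namespace Ps

/-- add items to the top frame -/
def add (l : List (BT T)) (p : Ps T) : Ps T :=
  match p.stk with
  | [] => ⟨[], p.cur ++ l, p.seg⟩
  | (f, m) :: r => ⟨(f, m ++ l) :: r, p.cur, p.seg⟩

/-- one step -/
def step (K : ℕ) (p : Ps T) : Sl T → Ps T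
  | .un t => if p.stk.length < K then ⟨(t, []) :: p.stk, p.cur, p.seg⟩ else
      match p.stk with
      | [] => p
      | (f, m) :: r => add (BT.u f :: (m ++ [BT.u t])) ⟨r, p.cur, p.seg⟩
  | .po t => match p.stk with
      | [] => ⟨[], [], p.seg ++ [(p.cur, t)]⟩
      | (f, m) :: r => add [BT.br f m t] ⟨r, p.cur, p.seg⟩
  | .ev a b => add [BT.e a b] p
  | .no => p

/-- the closed part of the main level -/
def low (p : Ps T) : List (BT T) := (p.seg.flatMap fun g => g.1 ++ [BT.u g.2]) ++ p.cur

/-- the pending part, from the bottom -/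
def pend (l : List (T × List (BT T))) : List (BT T) := l.reverse.flatMap fun g => BT.u g.1 :: g.2

/-- all items in reading order -/
def main (p : Ps T) : List (BT T) := p.low ++ pend p.stk

lemma pend_nil : pend ([] : List (T × List (BT T))) = [] := rfl

lemma pend_cons (g : T × List (BT T)) (l : List (T × List (BT T))) :
    pend (g :: l) = pend l ++ (BT.u g.1 :: g.2) := by simp [pend]

lemma main_add (l : List (BT T)) (p : Ps T) : (add l p).main = p.main ++ l := by
  obtain ⟨st, cur, seg⟩ := p
  cases st with
  | nil => simp [add, main, low, pend_nil]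
  | cons g r => simp [add, main, low, pend_cons]

end Ps

/-- the state after `t` slots -/
def ps (K : ℕ) (q : ℕ → Sl T) : ℕ → Ps T
  | 0 => ⟨[], [], []⟩
  | t + 1 => (ps K q t).step K (q t)

/-- the word of the run -/
def lw (q : ℕ → Sl T) : ℕ → Lt := fun i => (q i).lt

variable {K : ℕ} {q : ℕ → Sl T}

namespace Ps

lemma add_stk (l : List (BT T)) (p : Ps T) :
    (add l p).stk.map Prod.fst = p.stk.map Prod.fst := by
  obtain ⟨st, cur, seg⟩ := p
  cases st with
  | nil => rfl
  | cons g r => rfl

lemma add_seg (l : List (BT T)) (p : Ps T) : (add l p).seg = p.seg := by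
  obtain ⟨st, cur, seg⟩ := p
  cases st with
  | nil => rfl
  | cons g r => rfl

end Ps

/-- the openers -/
theorem ps_stk (K : ℕ) (q : ℕ → Sl T) (v : ℕ → T)
    (hv : ∀ i, ∀ t, q i = .un t → v i = t) (t : ℕ) :
    (ps K q t).stk.map Prod.fst = (stk K (lw q) t).map v := by
  induction t with
  | zero => rfl
  | succ t ih =>
    have hlen : (ps K q t).stk.length = (stk K (lw q) t).length := by
      have := congrArg List.length ih
      simpa using this
    show ((ps K q t).step K (q t)).stk.map Prod.fst = _
    rcases hq : q t with x | x | ⟨a, b⟩ | _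
    · have hw : lw q t = Lt.u := by show (q t).lt = _; rw [hq]; rfl
      by_cases hl : (ps K q t).stk.length < K
      · rw [stk_u hw (by rw [← hlen]; exact hl)]
        show (if (ps K q t).stk.length < K then _ else _ : Ps T).stk.map Prod.fst = _
        rw [if_pos hl, List.map_cons, List.map_cons, hv t x hq, ih]
      · rw [stk_u' hw (by rw [← hlen]; exact hl)]
        show (if (ps K q t).stk.length < K then _ else _ : Ps T).stk.map Prod.fst = _
        rw [if_neg hl, List.map_tail, ← ih]
        rcases hs : (ps K q t).stk with _ | ⟨g, r⟩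
        · simp [hs]
        · simp only
          rw [Ps.add_stk]
          rfl
    · have hw : lw q t = Lt.o := by show (q t).lt = _; rw [hq]; rfl
      rw [stk_o hw, List.map_tail, ← ih]
      unfold Ps.step
      rcases hs : (ps K q t).stk with _ | ⟨g, r⟩
      · rfl
      · simp only
        rw [Ps.add_stk]
        rfl
    · have hw : lw q t = Lt.z := by show (q t).lt = _; rw [hq]; rfl
      rw [stk_z hw, ← ih]
      exact Ps.add_stk _ _
    · have hw : lw q t = Lt.z := by show (q t).lt = _; rw [hq]; rfl
      rw [stk_z hw, ← ih]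
      rfl

lemma ps_len (t : ℕ) : (ps K q t).stk.length = (stk K (lw q) t).length := by
  classical
  rcases isEmpty_or_nonempty T with hT | hT
  · -- no tokens: all slots are empty
    have h0 : ∀ i, q i = .no := by
      intro i
      rcases q i with x | x | ⟨a, b⟩ | _
      · exact (hT.false x).elim
      · exact (hT.false x).elim
      · exact (hT.false a).elim
      · rfl
    induction t with
    | zero => rfl
    | succ t ih =>
      have hw : lw q t = Lt.z := by show (q t).lt = _; rw [h0]; rfl
      rw [stk_z hw, ← ih]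
      show ((ps K q t).step K (q t)).stk.length = _
      rw [h0]
      rfl
  · have h1 := ps_stk K q (fun i => match q i with | .un t => t | _ => Classical.arbitrary T)
      (by intro i t h; simp [h]) t
    have := congrArg List.length h1
    simpa using this

/-- the left overs -/
theorem ps_lo (t : ℕ) : (ps K q t).seg.length = (lo K (lw q) t).card := by
  induction t with
  | zero => simp [ps, lo]
  | succ t ih =>
    have hlen : (ps K q t).stk.length = (stk K (lw q) t).length := ps_len t
    show ((ps K q t).step K (q t)).seg.length = _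
    rcases hq : q t with x | x | ⟨a, b⟩ | _
    · have hw : lw q t = Lt.u := by show (q t).lt = _; rw [hq]; rfl
      rw [lo_succ_n (by rw [hw]; simp), ← ih]
      show (if (ps K q t).stk.length < K then _ else _ : Ps T).seg.length = _
      split_ifs
      · rfl
      · rcases hs : (ps K q t).stk with _ | ⟨g, r⟩
        · rfl
        · simp only
          rw [Ps.add_seg]
    · have hw : lw q t = Lt.o := by show (q t).lt = _; rw [hq]; rfl
      unfold Ps.step
      rcases hs : (ps K q t).stk with _ | ⟨g, r⟩
      · have h0 : stk K (lw q) t = [] := by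
          rw [hs] at hlen
          exact List.length_eq_zero_iff.1 hlen.symm
        rw [lo_succ_o hw h0, Finset.card_insert_of_notMem (by rw [mem_lo]; simp)]
        simp [ih]
      · have h0 : stk K (lw q) t ≠ [] := by
          intro h0
          rw [hs, h0] at hlen
          simp at hlen
        rw [lo_succ_n (by rintro ⟨-, h⟩; exact h0 h), ← ih]
        simp only
        rw [Ps.add_seg]
    · have hw : lw q t = Lt.z := by show (q t).lt = _; rw [hq]; rfl
      rw [lo_succ_n (by rw [hw]; simp), ← ih]
      show (Ps.add _ _).seg.length = _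
      rw [Ps.add_seg]
    · have hw : lw q t = Lt.z := by show (q t).lt = _; rw [hq]; rfl
      rw [lo_succ_n (by rw [hw]; simp), ← ih]
      rfl

/-- the slot word -/
def sw (s on : T → Bool) (q : ℕ → Sl T) : ℕ → List (Bool × T)
  | 0 => []
  | t + 1 => sw s on q t ++ (q t).wd s on

namespace Ps

/-- the cells of a state -/
def cl (p : Ps T) : List (T × List (BT T) × T) := BT.cells p.main

lemma main_step_un (p : Ps T) (t : T) (hK : 0 < K) : (p.step K (.un t)).main = p.main ++ [BT.u t] := by
  obtain ⟨st, cur, seg⟩ := p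
  unfold step
  simp only
  split_ifs with h
  · simp [main, low, pend_cons]
  · rcases st with _ | ⟨g, r⟩
    · simp at h; omega
    · simp only
      rw [main_add]
      simp [main, low, pend_cons]

lemma main_step_ev (p : Ps T) (a b : T) : (p.step K (.ev a b)).main = p.main ++ [BT.e a b] :=
  main_add _ _

lemma main_step_po (p : Ps T) (t : T) :
    (p.step K (.po t)).main = p.main ++ [BT.u t] ∨
    ∃ f m A, p.main = A ++ (BT.u f :: m) ∧ (p.step K (.po t)).main = A ++ [BT.br f m t] := by
  obtain ⟨st, cur, seg⟩ := p
  rcases st with _ | ⟨⟨f, m⟩, r⟩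
  · left
    simp [step, main, low, pend_nil]
  · right
    refine ⟨f, m, (⟨r, cur, seg⟩ : Ps T).main, ?_, ?_⟩
    · simp [main, low, pend_cons]
    · exact main_add _ _

end Ps

lemma cells_u (A m : List (BT T)) (f : T) :
    BT.cells (A ++ (BT.u f :: m)) = BT.cells A ++ BT.cells m := by
  rw [BT.cells_append, BT.cells_cons, BT.cell_u, List.nil_append]

lemma cells_br (A m : List (BT T)) (f x : T) :
    BT.cells (A ++ [BT.br f m x]) = BT.cells A ++ ((f, m, x) :: BT.cells m) := by
  rw [BT.cells_append, BT.cells_cons, BT.cell_br, BT.cells_nil, List.append_nil]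

/-- closed cells stay -/
lemma cl_step (p : Ps T) (x : Sl T) (hK : 0 < K) : p.cl ⊆ (p.step K x).cl := by
  unfold Ps.cl
  rcases x with t | t | ⟨a, b⟩ | _
  · rw [Ps.main_step_un p t hK, BT.cells_append]
    exact List.subset_append_left _ _
  · rcases Ps.main_step_po (K := K) p t with h | ⟨f, m, A, h1, h2⟩
    · rw [h, BT.cells_append]
      exact List.subset_append_left _ _
    · rw [h1, h2, cells_u, cells_br]
      intro c hc
      rcases List.mem_append.1 hc with hc | hc
      · exact List.mem_append_left _ hc
      · exact List.mem_append_right _ (List.mem_cons_of_mem _ hc)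
  · rw [Ps.main_step_ev, BT.cells_append]
    exact List.subset_append_left _ _
  · exact fun c hc => hc

/-- **the lettered word** -/
theorem ws_main (s on : T → Bool) (hK : 0 < K) (N : ℕ)
    (h : ∀ c ∈ (ps K q N).cl, s c.1 = false ∧ s c.2.2 = true) :
    BT.ws s on (ps K q N).main = sw s on q N := by
  induction N with
  | zero => simp [ps, sw, Ps.main, Ps.low, Ps.pend_nil, BT.ws_nil]
  | succ t ih =>
    have h1 := ih fun c hc => h c (cl_step _ _ hK hc)
    show BT.ws s on ((ps K q t).step K (q t)).main = sw s on q t ++ (q t).wd s on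
    have h' : ∀ c ∈ ((ps K q t).step K (q t)).cl, s c.1 = false ∧ s c.2.2 = true := h
    rw [← h1]
    rcases hq : q t with x | x | ⟨a, b⟩ | _
    · rw [Ps.main_step_un _ x hK, BT.ws_append, BT.ws_cons, BT.w_u, BT.ws_nil]
      rfl
    · rw [hq] at h'
      rcases Ps.main_step_po (K := K) (ps K q t) x with h2 | ⟨f, m, A, h2, h3⟩
      · rw [h2, BT.ws_append, BT.ws_cons, BT.w_u, BT.ws_nil]
        rfl
      · have h4 : s f = false ∧ s x = true := by
          refine h' (f, m, x) ?_
          unfold Ps.cl
          rw [h3, cells_br]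
          exact List.mem_append_right _ List.mem_cons_self
        rw [h2, h3, BT.ws_append, BT.ws_append, BT.ws_cons, BT.ws_cons, BT.w_br, BT.w_u, BT.ws_nil]
        show _ = _ ++ [(s x, x)]
        rw [h4.1, h4.2]
        simp
    · rw [Ps.main_step_ev, BT.ws_append, BT.ws_cons, BT.w_e, BT.ws_nil, List.append_nil]
      rfl
    · show BT.ws s on (ps K q t).main = BT.ws s on (ps K q t).main ++ []
      rw [List.append_nil]


/-! ## values -/

/-- the values of an item in a cell with value `c` (as a function of `c`) -/
def vd' (V : T → B) : BT T → B → Prop :=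
  BT.rc (fun t c => V t = c) (fun a b c => V a = c ∧ V b = c)
    fun f m x _ => V x = V f ∧ m.foldr (fun p r => p.2 (V f) ∧ r) True

/-- the values of an item in a cell with value `c` -/
def vd (V : T → B) (c : B) (i : BT T) : Prop := vd' V i c

/-- the values of a list of items in a cell with value `c` -/
def vds (V : T → B) (c : B) (m : List (BT T)) : Prop := m.foldr (fun i r => vd V c i ∧ r) True

/-- direct values -/
def dv1 (V : T → B) (c : B) : BT T → Prop
  | .u t => V t = c
  | .e a b => V a = c ∧ V b = c
  | .brf _ _ _ _ => True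

/-- direct values -/
def dv (V : T → B) (c : B) (m : List (BT T)) : Prop := ∀ i ∈ m, dv1 V c i

lemma vds_nil {V : T → B} {c : B} : vds V c [] := trivial

lemma vds_cons {V : T → B} {c : B} {i : BT T} {m : List (BT T)} :
    vds V c (i :: m) ↔ vd V c i ∧ vds V c m := Iff.rfl

lemma vds_append {V : T → B} {c : B} {m m' : List (BT T)} :
    vds V c (m ++ m') ↔ vds V c m ∧ vds V c m' := by
  induction m with
  | nil => simp [vds_nil]
  | cons i m ih => rw [List.cons_append, vds_cons, vds_cons, ih, and_assoc]

lemma vd_u {V : T → B} {c : B} {t : T} : vd V c (.u t) ↔ V t = c := Iff.rfl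

lemma vd_e {V : T → B} {c : B} {a b : T} : vd V c (.e a b) ↔ V a = c ∧ V b = c := Iff.rfl

lemma vd_br {V : T → B} {c : B} {f x : T} {m : List (BT T)} :
    vd V c (.br f m x) ↔ V x = V f ∧ vds V (V f) m := by
  unfold vd vd'
  rw [BT.rc_br, List.foldr_map]
  rfl

/-- what a cell says -/
def cellv (V : T → B) (z : T × List (BT T) × T) : Prop := V z.2.2 = V z.1 ∧ dv V (V z.1) z.2.1

theorem vd_vds_iff (V : T → B) : (∀ (i : BT T) (c : B),
    vd V c i ↔ dv1 V c i ∧ ∀ z ∈ BT.cell i, cellv V z) ∧
    ∀ (m : List (BT T)) (c : B), vds V c m ↔ dv V c m ∧ ∀ z ∈ BT.cells m, cellv V z := by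
  refine BT.ind ?_ ?_ ?_ ?_ ?_
  · intro t c
    rw [vd_u, BT.cell_u]; simp [dv1]
  · intro a b c
    rw [vd_e, BT.cell_e]; simp [dv1]
  · intro f m x vds_iff c
    rw [vd_br, BT.cell_br, vds_iff (V f)]
    constructor
    · rintro ⟨h1, h2, h3⟩
      refine ⟨trivial, ?_⟩
      intro z hz
      rcases List.mem_cons.1 hz with rfl | hz
      · exact ⟨h1, h2⟩
      · exact h3 z hz
    · rintro ⟨-, h⟩
      have h1 := h (f, m, x) List.mem_cons_self
      exact ⟨h1.1, h1.2, fun z hz => h z (List.mem_cons_of_mem _ hz)⟩
  · intro c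
    rw [BT.cells_nil]; simp [vds_nil, dv]
  · intro i m vd_iff vds_iff c
    rw [vds_cons, BT.cells_cons, vd_iff c, vds_iff c]
    unfold dv
    constructor
    · rintro ⟨⟨h1, h2⟩, h3, h4⟩
      refine ⟨?_, ?_⟩
      · intro j hj
        rcases List.mem_cons.1 hj with rfl | hj
        · exact h1
        · exact h3 j hj
      · intro z hz
        rcases List.mem_append.1 hz with hz | hz
        · exact h2 z hz
        · exact h4 z hz
    · rintro ⟨h1, h2⟩
      exact ⟨⟨h1 i List.mem_cons_self, fun z hz => h2 z (List.mem_append_left _ hz)⟩,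
        fun j hj => h1 j (List.mem_cons_of_mem _ hj), fun z hz => h2 z (List.mem_append_right _ hz)⟩

theorem vd_iff (V : T → B) (i : BT T) (c : B) :
    vd V c i ↔ dv1 V c i ∧ ∀ z ∈ BT.cell i, cellv V z := (vd_vds_iff V).1 i c

theorem vds_iff (V : T → B) (m : List (BT T)) (c : B) :
    vds V c m ↔ dv V c m ∧ ∀ z ∈ BT.cells m, cellv V z := (vd_vds_iff V).2 m c

/-- the values of a state; `c₀` = value of the main level in front of the pending units -/
def sc (V : T → B) (c₀ : B) (p : Ps T) : Prop :=
  vds V c₀ p.cur ∧ (∀ g ∈ p.seg, vds V c₀ g.1 ∧ V g.2 = c₀) ∧ ∀ g ∈ p.stk, vds V (V g.1) g.2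

/-- the equation of a slot; `st` = openers, top first -/
def eqAt (K : ℕ) (V : T → B) (c₀ : B) (st : List T) : Sl T → Prop
  | .un x => K ≤ st.length → ∀ f g r, st = f :: g :: r → V x = V f ∧ V f = V g
  | .po x => (st = [] → V x = c₀) ∧ ∀ f r, st = f :: r → V x = V f
  | .ev a b => (st = [] → V a = c₀ ∧ V b = c₀) ∧ ∀ f r, st = f :: r → V a = V f ∧ V b = V f
  | .no => True

lemma sc_add {V : T → B} {c₀ : B} {l : List (BT T)} {p : Ps T} (h : sc V c₀ (p.add l)) :
    sc V c₀ p ∧ (p.stk = [] → vds V c₀ l) ∧ ∀ g r, p.stk = g :: r → vds V (V g.1) l := by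
  obtain ⟨st, cur, seg⟩ := p
  cases st with
  | nil =>
    obtain ⟨h1, h2, h3⟩ := h
    have h4 := vds_append.1 h1
    refine ⟨⟨h4.1, h2, h3⟩, fun _ => h4.2, ?_⟩
    intro g r hg
    simp at hg
  | cons g r =>
    obtain ⟨h1, h2, h3⟩ := h
    have h4 : vds V (V g.1) (g.2 ++ l) := h3 (g.1, g.2 ++ l) List.mem_cons_self
    have h5 := vds_append.1 h4
    refine ⟨⟨h1, h2, ?_⟩, ?_, ?_⟩
    · intro g' hg'
      rcases List.mem_cons.1 hg' with rfl | hg'
      · exact h5.1
      · exact h3 g' (List.mem_cons_of_mem _ hg')
    · intro h6; simp at h6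
    · intro g' r' h6
      simp only [List.cons.injEq] at h6
      obtain ⟨rfl, rfl⟩ := h6
      exact h5.2

lemma sc_step {V : T → B} {c₀ : B} (hK : 2 ≤ K) {p : Ps T} {x : Sl T}
    (h : sc V c₀ (p.step K x)) : sc V c₀ p ∧ eqAt K V c₀ (p.stk.map Prod.fst) x := by
  obtain ⟨st, cur, seg⟩ := p
  rcases x with t | t | ⟨a, b⟩ | _
  · unfold Ps.step at h
    simp only at h
    split_ifs at h with hl
    · refine ⟨⟨h.1, h.2.1, fun g hg => h.2.2 g (List.mem_cons_of_mem _ hg)⟩, ?_⟩
      intro h1
      rw [List.length_map] at h1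
      exact absurd hl (not_lt.2 h1)
    · rcases st with _ | ⟨⟨f, m⟩, r⟩
      · simp at hl; omega
      · simp only at h
        rcases r with _ | ⟨⟨g, m'⟩, r⟩
        · simp at hl; omega
        · obtain ⟨h1, -, h2⟩ := sc_add h
          have h3 := h2 (g, m') r rfl
          rw [vds_cons, vd_u, vds_append, vds_cons, vd_u] at h3
          simp only at h3
          refine ⟨⟨h1.1, h1.2.1, ?_⟩, ?_⟩
          · intro g' hg'
            rcases List.mem_cons.1 hg' with rfl | hg'
            · show vds V (V f) m
              rw [h3.1]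
              exact h3.2.1
            · exact h1.2.2 g' hg'
          · intro _ f' g' r' h4
            simp only [List.map_cons, List.cons.injEq] at h4
            obtain ⟨rfl, rfl, -⟩ := h4
            exact ⟨by rw [h3.2.2.1, h3.1], h3.1⟩
  · unfold Ps.step at h
    rcases st with _ | ⟨⟨f, m⟩, r⟩
    · simp only at h
      obtain ⟨h1, h2, h3⟩ := h
      have h4 := h2 (cur, t) (List.mem_append_right _ List.mem_cons_self)
      refine ⟨⟨h4.1, fun g hg => h2 g (List.mem_append_left _ hg), h3⟩, fun _ => h4.2, ?_⟩
      intro f r hf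
      simp at hf
    · simp only at h
      obtain ⟨h1, h2, h3⟩ := sc_add h
      have h4 : V t = V f ∧ vds V (V f) m := by
        rcases r with _ | ⟨g, r⟩
        · have h5 := h2 rfl
          rw [vds_cons, vd_br] at h5
          exact h5.1
        · have h5 := h3 g r rfl
          rw [vds_cons, vd_br] at h5
          exact h5.1
      refine ⟨⟨h1.1, h1.2.1, ?_⟩, ?_, ?_⟩
      · intro g' hg'
        rcases List.mem_cons.1 hg' with rfl | hg'
        · exact h4.2
        · exact h1.2.2 g' hg'
      · intro h5; simp at h5
      · intro f' r' h5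
        simp only [List.map_cons, List.cons.injEq] at h5
        obtain ⟨rfl, -⟩ := h5
        exact h4.1
  · obtain ⟨h1, h2, h3⟩ := sc_add h
    refine ⟨h1, ?_, ?_⟩
    · intro h4
      have h5 := h2 (List.map_eq_nil_iff.1 h4)
      rw [vds_cons, vd_e] at h5
      exact h5.1
    · intro f r h4
      rcases st with _ | ⟨g, r'⟩
      · simp at h4
      · simp only [List.map_cons, List.cons.injEq] at h4
        obtain ⟨rfl, -⟩ := h4
        have h5 := h3 g r' rfl
        rw [vds_cons, vd_e] at h5
        exact h5.1
  · exact ⟨h, trivial⟩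

/-- **the equations of all slots** -/
theorem eqs_of_sc {V : T → B} {c₀ : B} (hK : 2 ≤ K) {N : ℕ} (h : sc V c₀ (ps K q N)) :
    ∀ t < N, eqAt K V c₀ ((ps K q t).stk.map Prod.fst) (q t) := by
  induction N with
  | zero => intro t ht; omega
  | succ N ih =>
    obtain ⟨h1, h2⟩ := sc_step hK (show sc V c₀ ((ps K q N).step K (q N)) from h)
    intro t ht
    rcases Nat.lt_succ_iff_lt_or_eq.1 ht with h3 | rfl
    · exact ih h1 t h3
    · exact h2

/-! ## parity and depth -/

/-- is it a token? -/
def isU : BT T → Bool
  | .u _ => true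
  | _ => false

@[simp] lemma isU_u (t : T) : isU (BT.u t) = true := rfl

@[simp] lemma isU_e (a b : T) : isU (BT.e a b) = false := rfl

@[simp] lemma isU_br (f x : T) (m : List (BT T)) : isU (BT.br f m x) = false := rfl

/-- number of direct tokens -/
def nu (m : List (BT T)) : ℕ := (m.filter isU).length

@[simp] lemma nu_nil : nu ([] : List (BT T)) = 0 := rfl

@[simp] lemma nu_append (m m' : List (BT T)) : nu (m ++ m') = nu m + nu m' := by simp [nu]

@[simp] lemma nu_u (t : T) (m : List (BT T)) : nu (BT.u t :: m) = nu m + 1 := by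
  simp [nu, isU]

@[simp] lemma nu_e (a b : T) (m : List (BT T)) : nu (BT.e a b :: m) = nu m := by
  simp [nu, isU]

@[simp] lemma nu_br (f x : T) (m m' : List (BT T)) : nu (BT.br f m x :: m') = nu m' := by
  unfold nu
  rw [List.filter_cons_of_neg (by simp)]

lemma deps_append (m m' : List (BT T)) : BT.deps (m ++ m') = max (BT.deps m) (BT.deps m') := by
  induction m with
  | nil => simp [BT.deps_nil]
  | cons i m ih => rw [List.cons_append, BT.deps_cons, BT.deps_cons, ih, max_assoc]

/-- depth of the open frames -/
def dok (K : ℕ) : List (T × List (BT T)) → Prop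
  | [] => True
  | g :: r => BT.deps g.2 + r.length + 1 ≤ K ∧ dok K r

/-- invariants of the state -/
structure Iv (K : ℕ) (p : Ps T) : Prop where
  len : p.stk.length ≤ K
  ev : ∀ g ∈ p.stk, Even (nu g.2)
  cur : nu p.cur = 0
  seg : ∀ g ∈ p.seg, nu g.1 = 0
  cl : ∀ c ∈ p.cl, Even (nu c.2.1)
  dok : dok K p.stk
  dcur : BT.deps p.cur ≤ K
  dseg : ∀ g ∈ p.seg, BT.deps g.1 ≤ K

lemma Iv.add {p : Ps T} (h : Iv K p) {l : List (BT T)} (h1 : Even (nu l))
    (h2 : p.stk = [] → nu l = 0) (h3 : BT.deps l + p.stk.length ≤ K)
    (h4 : ∀ c ∈ BT.cells l, Even (nu c.2.1)) : Iv K (p.add l) := by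
  have hcl : ∀ c ∈ (p.add l).cl, Even (nu c.2.1) := by
    intro c hc
    unfold Ps.cl at hc
    rw [Ps.main_add, BT.cells_append] at hc
    rcases List.mem_append.1 hc with hc | hc
    · exact h.cl c hc
    · exact h4 c hc
  obtain ⟨st, cur, seg⟩ := p
  cases st with
  | nil =>
    refine ⟨h.len, h.ev, ?_, h.seg, hcl, h.dok, ?_, h.dseg⟩
    · show nu (cur ++ l) = 0
      rw [nu_append, h2 rfl]
      have := h.cur
      simp only at this
      rw [this]
    · show BT.deps (cur ++ l) ≤ K
      rw [deps_append]
      have h5 : BT.deps cur ≤ K := h.dcur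
      simp only [List.length_nil, add_zero] at h3
      exact max_le h5 h3
  | cons g r =>
    refine ⟨h.len, ?_, h.cur, h.seg, hcl, ?_, h.dcur, h.dseg⟩
    · intro g' hg'
      rcases List.mem_cons.1 hg' with rfl | hg'
      · show Even (nu (g.2 ++ l))
        rw [nu_append]
        exact (h.ev g List.mem_cons_self).add h1
      · exact h.ev g' (List.mem_cons_of_mem _ hg')
    · have h5 : BT.deps g.2 + r.length + 1 ≤ K ∧ PD.dok K r := h.dok
      refine ⟨?_, h5.2⟩
      show BT.deps (g.2 ++ l) + r.length + 1 ≤ K
      rw [deps_append]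
      simp only [List.length_cons] at h3
      have := h5.1
      rcases max_cases (BT.deps g.2) (BT.deps l) with h6 | h6 <;> omega

lemma cl_pop (f : T) (m : List (BT T)) (r : List (T × List (BT T))) (cur : List (BT T))
    (seg : List (List (BT T) × T)) : (⟨(f, m) :: r, cur, seg⟩ : Ps T).cl =
      (⟨r, cur, seg⟩ : Ps T).cl ++ BT.cells m := by
  unfold Ps.cl
  rw [show (⟨(f, m) :: r, cur, seg⟩ : Ps T).main = (⟨r, cur, seg⟩ : Ps T).main ++ (BT.u f :: m) by
    simp [Ps.main, Ps.low, Ps.pend_cons], cells_u]

lemma iv_pop {f : T} {m : List (BT T)} {r : List (T × List (BT T))} {cur : List (BT T)}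
    {seg : List (List (BT T) × T)} (h : Iv K (⟨(f, m) :: r, cur, seg⟩ : Ps T)) :
    Iv K (⟨r, cur, seg⟩ : Ps T) ∧ Even (nu m) ∧ (∀ c ∈ BT.cells m, Even (nu c.2.1)) ∧
      BT.deps m + r.length + 1 ≤ K := by
  have h5 : BT.deps m + r.length + 1 ≤ K ∧ PD.dok K r := h.dok
  have h6 := h.cl
  rw [cl_pop] at h6
  refine ⟨⟨?_, fun g hg => h.ev g (List.mem_cons_of_mem _ hg), h.cur, h.seg,
    fun c hc => h6 c (List.mem_append_left _ hc), h5.2, h.dcur, h.dseg⟩,
    h.ev (f, m) List.mem_cons_self, fun c hc => h6 c (List.mem_append_right _ hc), h5.1⟩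
  have := h.len
  simp only [List.length_cons] at this ⊢
  omega

lemma iv_step (hK : 2 ≤ K) {p : Ps T} (h : Iv K p) (x : Sl T) : Iv K (p.step K x) := by
  obtain ⟨st, cur, seg⟩ := p
  rcases x with t | t | ⟨a, b⟩ | _
  · unfold Ps.step
    simp only
    split_ifs with hl
    · refine ⟨by simpa using hl, ?_, h.cur, h.seg, ?_, ?_, h.dcur, h.dseg⟩
      · intro g hg
        rcases List.mem_cons.1 hg with rfl | hg
        · simp
        · exact h.ev g hg
      · intro c hc
        refine h.cl c ?_
        unfold Ps.cl at hc ⊢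
        simp only [Ps.main, Ps.low, Ps.pend_cons] at hc ⊢
        rw [← List.append_assoc, BT.cells_append, BT.cells_cons, BT.cell_u, BT.cells_nil] at hc
        simpa using hc
      · refine ⟨?_, h.dok⟩
        show BT.deps [] + st.length + 1 ≤ K
        rw [BT.deps_nil]
        omega
    · rcases st with _ | ⟨⟨f, m⟩, r⟩
      · simp at hl; omega
      · obtain ⟨h0, hm, hcm, h5⟩ := iv_pop h
        refine Iv.add h0 ?_ ?_ ?_ ?_
        · simp only [nu_u, nu_append, nu_nil]
          obtain ⟨k, hk⟩ := hm
          exact ⟨k + 1, by omega⟩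
        · intro h6
          simp only at h6
          rw [h6] at hl
          simp at hl
          omega
        · rw [BT.deps_cons, deps_append, BT.dep_u, BT.deps_cons, BT.dep_u, BT.deps_nil]
          simp only
          have e : max 0 (max (BT.deps m) (max 0 0)) = BT.deps m := by simp
          rw [e]
          omega
        · intro c hc
          rw [BT.cells_cons, BT.cells_append, BT.cells_cons, BT.cell_u, BT.cell_u, BT.cells_nil] at hc
          exact hcm c (by simpa using hc)
  · unfold Ps.step
    rcases st with _ | ⟨⟨f, m⟩, r⟩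
    · simp only
      refine ⟨by simp, by simp, rfl, ?_, ?_, trivial, by rw [BT.deps_nil]; omega, ?_⟩
      · intro g hg
        rcases List.mem_append.1 hg with hg | hg
        · exact h.seg g hg
        · simp only [List.mem_singleton] at hg
          rw [hg]
          exact h.cur
      · intro c hc
        refine h.cl c ?_
        unfold Ps.cl at hc ⊢
        simp only [Ps.main, Ps.low, Ps.pend_nil, List.flatMap_append, List.flatMap_cons,
          List.flatMap_nil, List.append_nil] at hc ⊢
        rw [BT.cells_append, BT.cells_append, BT.cells_cons, BT.cell_u, BT.cells_nil] at hc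
        rw [BT.cells_append]
        simpa using hc
      · intro g hg
        rcases List.mem_append.1 hg with hg | hg
        · exact h.dseg g hg
        · simp only [List.mem_singleton] at hg
          rw [hg]
          exact h.dcur
    · simp only
      obtain ⟨h0, hm, hcm, h5⟩ := iv_pop h
      refine Iv.add h0 (by simp) (fun _ => by simp) ?_ ?_
      · rw [BT.deps_cons, BT.dep_br, BT.deps_nil]
        simp only
        have e : max (BT.deps m + 1) 0 = BT.deps m + 1 := by simp
        rw [e]
        omega
      · intro c hc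
        rw [BT.cells_cons, BT.cell_br, BT.cells_nil, List.append_nil] at hc
        rcases List.mem_cons.1 hc with rfl | hc
        · exact hm
        · exact hcm c hc
  · refine Iv.add h (by simp) (fun _ => by simp) ?_ ?_
    · rw [BT.deps_cons, BT.dep_e, BT.deps_nil]
      simpa using h.len
    · intro c hc
      rw [BT.cells_cons, BT.cell_e, BT.cells_nil] at hc
      simp at hc
  · exact h

/-- **invariants of the parse** -/
theorem iv (hK : 2 ≤ K) (t : ℕ) : Iv K (ps K q t) := by
  induction t with
  | zero =>
    refine ⟨by simp [ps], by simp [ps], rfl, by simp [ps], ?_, trivial, ?_, by simp [ps]⟩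
    · intro c hc
      simp [ps, Ps.cl, Ps.main, Ps.low, Ps.pend_nil, BT.cells_nil] at hc
    · show BT.deps [] ≤ K
      rw [BT.deps_nil]; omega
  | succ t ih => exact iv_step hK ih (q t)

end Pool.Agent.MP42.PD
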