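import Pool.Agent.MP42.PD.Late

/-!
# Positions: from the values along the run to `WOk` and `WRd`

`FR`: values of the open frames; `pd` = number of frames at the bottom which are pending at the end.
-/

set_option autoImplicit false

namespace Pool.Agent.MP42.PD

open U

variable {T : Type*}

section

variable (V : T → B) (c₀ vA : B) (pd : ℕ)

/-- allowed values of the top of the real stack -/
def TP : List (T × List (BT T)) → B → Prop
  | [] => fun b => b = c₀
  | g :: r => fun b => if r.length < pd then b = vA ∨ (Even (r.length + 1) ∧ b = c₀) else b = V g.1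

/-- value of the class of a frame -/
def fcv (g : T × List (BT T)) (r : List (T × List (BT T))) : B := if r.length < pd then vA else V g.1

/-- allowed values below a frame -/
def fbv (r : List (T × List (BT T))) : B → Prop :=
  if r.length < pd then (fun b => b = c₀) else TP V c₀ vA pd r

open Classical in
/-- parity in front of the items of a frame -/
noncomputable def fop (r : List (T × List (BT T))) : Bool := decide (r.length < pd ∧ Even (r.length + 1))

/-- the values of the frames -/
def FR : List (T × List (BT T)) → Prop
  | [] => True
  | g :: r => (V g.1 = fcv V vA pd g r ∧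
      rv V (fcv V vA pd g r) (fbv V c₀ vA pd r) (fop pd r) g.2) ∧ FR r

/-- the values of the frames, the top one is popped by a unit -/
def FU : List (T × List (BT T)) → Prop
  | g :: g' :: r => (V g.1 = fcv V vA pd g' r ∧
      rv V (fcv V vA pd g' r) (fbv V c₀ vA pd r) (!(fop pd r)) g.2) ∧ FR V c₀ vA pd (g' :: r)
  | _ => False

/-- the values of a state -/
def SC (un : Bool) (p : Ps T) : Prop :=
  rv V c₀ (fun b => b = c₀) false p.cur ∧
  (∀ g ∈ p.seg, rv V c₀ (fun b => b = c₀) false g.1 ∧ V g.2 = c₀) ∧
  if un then FU V c₀ vA pd p.stk else FR V c₀ vA pd p.stk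

end

variable {V : T → B} {c₀ vA : B} {pd : ℕ} {K : ℕ}

lemma TP_cons {g : T × List (BT T)} {r : List (T × List (BT T))} {b : B} :
    TP V c₀ vA pd (g :: r) b =
      if r.length < pd then b = vA ∨ (Even (r.length + 1) ∧ b = c₀) else b = V g.1 := rfl

lemma TP_pd {pd' : ℕ} {r : List (T × List (BT T))} {r' : List (T × List (BT T))}
    (hr : r'.length ≤ r.length) (h1 : ∀ k < r.length, (k < pd ↔ k < pd')) :
    TP V c₀ vA pd r' = TP V c₀ vA pd' r' := by
  cases r' with
  | nil => rfl
  | cons g r'' =>
    funext b
    simp only [List.length_cons] at hr
    simp only [TP, h1 r''.length (by omega)]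

lemma FR_pd {pd' : ℕ} : ∀ {r : List (T × List (BT T))}, (∀ k < r.length, (k < pd ↔ k < pd')) →
    (FR V c₀ vA pd r ↔ FR V c₀ vA pd' r)
  | [], _ => Iff.rfl
  | g :: r, h => by
    have h0 := h r.length (by simp)
    have h1 : ∀ k < r.length, (k < pd ↔ k < pd') := fun k hk => h k (by simp; omega)
    have e1 : fcv V vA pd g r = fcv V vA pd' g r := by simp only [fcv, h0]
    have e2 : fop (T := T) pd r = fop pd' r := by simp only [fop, h0]
    have e3 : fbv V c₀ vA pd r = fbv V c₀ vA pd' r := by
      unfold fbv
      simp only [h0]
      split_ifs
      · rfl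
      · exact TP_pd (r := r) le_rfl h1
    simp only [FR, e1, e2, e3]
    rw [FR_pd h1]

/-- the item of a rider in the top frame -/
lemma sc_add' {un : Bool} {l : List (BT T)} {p : Ps T} (hI : Iv K p)
    (h : SC V c₀ vA pd un (p.add l)) :
    SC V c₀ vA pd un p ∧ (p.stk = [] → rv V c₀ (fun b => b = c₀) false l) ∧
    (un = false → ∀ g r, p.stk = g :: r →
      rv V (fcv V vA pd g r) (fbv V c₀ vA pd r) (fop pd r) l) ∧
    (un = true → ∀ g g' r, p.stk = g :: g' :: r →
      rv V (fcv V vA pd g' r) (fbv V c₀ vA pd r) (!(fop pd r)) l) := by
  obtain ⟨st, cur, seg⟩ := p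
  have hev := hI.ev
  have hcur := hI.cur
  simp only at hev hcur
  obtain ⟨h1, h2, h3⟩ := h
  cases st with
  | nil =>
    have h1' : rv V c₀ (fun b => b = c₀) false (cur ++ l) := h1
    rw [rv_append, par_even (by rw [hcur]; exact Even.zero)] at h1'
    refine ⟨⟨h1'.1, h2, ?_⟩, fun _ => h1'.2, ?_, ?_⟩
    · exact h3
    · intro _ g r hg; simp at hg
    · intro _ g g' r hg; simp at hg
  | cons g r =>
    have hg : par g.2 = false := par_even (hev g List.mem_cons_self)
    cases un with
    | false =>
      have h3' : FR V c₀ vA pd ((g.1, g.2 ++ l) :: r) := h3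
      have h4 : (V g.1 = fcv V vA pd g r ∧
        rv V (fcv V vA pd g r) (fbv V c₀ vA pd r) (fop pd r) (g.2 ++ l)) ∧ FR V c₀ vA pd r := h3'
      rw [rv_append, hg, Bool.xor_false] at h4
      refine ⟨⟨h1, h2, ?_⟩, ?_, ?_, ?_⟩
      · exact ⟨⟨h4.1.1, h4.1.2.1⟩, h4.2⟩
      · intro h5; simp at h5
      · intro _ g' r' h5
        simp only [List.cons.injEq] at h5
        obtain ⟨rfl, rfl⟩ := h5
        exact h4.1.2.2
      · intro h5; simp at h5
    | true =>
      rcases r with _ | ⟨g', r⟩
      · exact (h3 : False).elim
      have h3' : FU V c₀ vA pd ((g.1, g.2 ++ l) :: g' :: r) := h3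
      have h4 : (V g.1 = fcv V vA pd g' r ∧
        rv V (fcv V vA pd g' r) (fbv V c₀ vA pd r) (!(fop pd r)) (g.2 ++ l)) ∧
        FR V c₀ vA pd (g' :: r) := h3'
      rw [rv_append, hg, Bool.xor_false] at h4
      refine ⟨⟨h1, h2, ?_⟩, ?_, ?_, ?_⟩
      · exact ⟨⟨h4.1.1, h4.1.2.1⟩, h4.2⟩
      · intro h5; simp at h5
      · intro h5; simp at h5
      · intro _ g₁ g₂ r' h5
        simp only [List.cons.injEq] at h5
        obtain ⟨rfl, rfl, rfl⟩ := h5
        exact h4.1.2.2

/-- nested cell of a frame -/
lemma TP_of_frame {g : T × List (BT T)} {r : List (T × List (BT T))}  :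
    (fun b => b = fcv V vA pd g r ∨ (fop pd r = true ∧ fbv V c₀ vA pd r b)) =
      TP V c₀ vA pd (g :: r) := by
  funext b
  apply propext
  unfold fcv fop fbv TP
  by_cases h : r.length < pd
  · simp only [h, if_true, true_and, decide_eq_true_eq]
  · simp [h]

/-- the equation of a slot with late riders; `st` = frames, top first -/
def eqL (K : ℕ) (V : T → B) (c₀ vA : B) (pd : ℕ) (un : Bool) (st : List (T × List (BT T))) :
    Sl T → Prop
  | .un x => K ≤ st.length → ∀ f g r, st = f :: g :: r → V x = V f.1 ∧ V f.1 = V g.1
  | .po x => (st = [] → V x = c₀) ∧ ∀ f r, st = f :: r → V x = V f.1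
  | .ev a b => (st = [] → V a = c₀) ∧
      (un = false → ∀ g r, st = g :: r → TP V c₀ vA pd (g :: r) (V a)) ∧
      (un = true → ∀ g g' r, st = g :: g' :: r →
        V a = V g'.1 ∨ (if r.length + 1 ≤ pd then Even (r.length + 2) ∧ V a = c₀
          else TP V c₀ vA pd r (V a)))
  | .no => True

lemma fcv_eq {g : T × List (BT T)} {r : List (T × List (BT T))} (h : FR V c₀ vA pd (g :: r)) :
    V g.1 = fcv V vA pd g r := h.1.1

/-- **one step backwards** -/
theorem SC_step (hK : 3 ≤ K) {p : Ps T} (hI : Iv K p) {x : Sl T} {un : Bool}
    (hun : un = true → (p.step K x).stk.length = K) (hpd : pd ≤ (p.step K x).stk.length)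
    (h : SC V c₀ vA pd un (p.step K x)) :
    ∃ un' pd', SC V c₀ vA pd' un' p ∧ eqL K V c₀ vA pd' un' p.stk x ∧
      pd' = min p.stk.length pd ∧
      (un' = true → (p.stk.length = K ∧ ∃ t, x = .un t) ∨
        (un = true ∧ (p.step K x).stk.map Prod.fst = p.stk.map Prod.fst ∧
          ¬ (∃ t, x = .un t) ∧ ¬ ∃ t, x = .po t)) := by
  obtain ⟨st, cur, seg⟩ := p
  rcases x with t | t | ⟨a, b⟩ | _
  · -- unit
    unfold Ps.step at h hun hpd
    simp only at h hun hpd
    split_ifs at h hun hpd with hl
    · -- push
      have hpd' : pd ≤ st.length + 1 := by simpa using hpd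
      refine ⟨false, min st.length pd, ?_, ?_, rfl, by simp⟩
      · have h3 : FR V c₀ vA pd st := by
          cases un with
          | false => exact (h.2.2 : FR V c₀ vA pd ((t, []) :: st)).2
          | true =>
            rcases st with _ | ⟨g, r⟩
            · exact (h.2.2 : False).elim
            · exact (h.2.2 : FU V c₀ vA pd ((t, []) :: g :: r)).2
        have h4 : FR V c₀ vA (min st.length pd) st := by
          refine (FR_pd ?_).1 h3
          intro k hk
          rw [lt_min_iff]
          exact ⟨fun h => ⟨hk, h⟩, fun h => h.2⟩
        exact ⟨h.1, h.2.1, h4⟩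
      · intro h1
        exact absurd hl (not_lt.2 h1)
    · -- pop by a unit
      rcases st with _ | ⟨⟨f, m⟩, r⟩
      · simp at hl; omega
      · simp only at h hun hpd
        have hlen := hI.len
        simp only [List.length_cons] at hlen hl
        rcases r with _ | ⟨⟨g, m'⟩, r⟩
        · simp at hl; omega
        · have e0 : (Ps.add (BT.u f :: (m ++ [BT.u t])) (⟨(g, m') :: r, cur, seg⟩ : Ps T)).stk.length
              = r.length + 1 := by simp [Ps.add]
          rw [e0] at hpd hun
          simp only [List.length_cons] at hlen hl
          have hun0 : un = false := by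
            cases un with
            | false => rfl
            | true => have := hun rfl; omega
          subst hun0
          obtain ⟨hI0, -, -, -⟩ := iv_pop hI
          obtain ⟨h1, -, h2, -⟩ := sc_add' hI0 h
          have h3 := h2 rfl (g, m') r rfl
          rw [rv_cons, rv1_u, rv_append, rv_cons, rv1_u] at h3
          have hm : par m = false := par_even (hI.ev (f, m) List.mem_cons_self)
          have e1 : min ((f, m) :: (g, m') :: r : List (T × List (BT T))).length pd = pd := by
            simp only [List.length_cons]; omega
          refine ⟨true, min ((f, m) :: (g, m') :: r : List (T × List (BT T))).length pd, ?_, ?_,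
            rfl, ?_⟩
          · rw [e1]
            refine ⟨h1.1, h1.2.1, ⟨h3.1, ?_⟩, h1.2.2⟩
            have h4 := h3.2.1
            simpa [isU] using h4
          · intro _ f' g' r' h4
            simp only [List.cons.injEq] at h4
            obtain ⟨rfl, rfl, rfl⟩ := h4
            have h5 : V g = fcv V vA pd (g, m') r := fcv_eq h1.2.2
            exact ⟨by rw [h3.2.2.1, h3.1], by rw [h3.1, ← h5]⟩
          · intro _
            left
            refine ⟨?_, t, rfl⟩
            simp only [List.length_cons]
            omega
  · -- port
    unfold Ps.step at h hun hpd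
    rcases st with _ | ⟨⟨f, m⟩, r⟩
    · simp only at h hun hpd
      obtain ⟨h1, h2, h3⟩ := h
      have h4 := h2 (cur, t) (List.mem_append_right _ List.mem_cons_self)
      refine ⟨false, min ([] : List (T × List (BT T))).length pd, ⟨h4.1,
        fun g hg => h2 g (List.mem_append_left _ hg), trivial⟩, ⟨fun _ => h4.2, ?_⟩, rfl, by simp⟩
      intro f r hf
      simp at hf
    · simp only at h hun hpd
      have hlen := hI.len
      simp only [List.length_cons] at hlen
      have e0 : (Ps.add [BT.br f m t] (⟨r, cur, seg⟩ : Ps T)).stk.length = r.length := by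
        rcases r with _ | ⟨g, r⟩ <;> simp [Ps.add]
      rw [e0] at hpd hun
      have hun0 : un = false := by
        cases un with
        | false => rfl
        | true => have := hun rfl; omega
      subst hun0
      obtain ⟨hI0, -, -, -⟩ := iv_pop hI
      obtain ⟨h1, h2, h3, -⟩ := sc_add' hI0 h
      have e1 : min ((f, m) :: r : List (T × List (BT T))).length pd = pd := by
        simp only [List.length_cons]; omega
      have hnot : ¬ r.length < pd := by omega
      have h4 : V t = V f ∧ rv V (V f) (TP V c₀ vA pd r) false m := by
        rcases r with _ | ⟨g, r⟩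
        · have h5 := h2 rfl
          rw [rv_cons, rv1_br] at h5
          have e : (fun b : B => b = c₀ ∨ (false = true ∧ b = c₀)) = fun b => b = c₀ := by
            funext b; apply propext; tauto
          rw [e] at h5
          exact h5.1
        · have h5 := h3 rfl g r rfl
          rw [rv_cons, rv1_br, TP_of_frame] at h5
          exact h5.1
      refine ⟨false, min ((f, m) :: r : List (T × List (BT T))).length pd, ?_, ⟨?_, ?_⟩, rfl, by simp⟩
      · rw [e1]
        refine ⟨h1.1, h1.2.1, ⟨?_, ?_⟩, h1.2.2⟩
        · show V f = fcv V vA pd (f, m) r
          unfold fcv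
          rw [if_neg hnot]
        · show rv V (fcv V vA pd (f, m) r) (fbv V c₀ vA pd r) (fop pd r) m
          have e3 : fop (T := T) pd r = false := by
            unfold fop
            simp [hnot]
          unfold fcv fbv
          rw [if_neg hnot, if_neg hnot, e3]
          exact h4.2
      · intro h5; simp at h5
      · intro f' r' h5
        simp only [List.cons.injEq] at h5
        obtain ⟨rfl, rfl⟩ := h5
        exact h4.1
  · -- even child
    obtain ⟨h1, h2, h3, h4⟩ := sc_add' hI h
    have e0 : ((⟨st, cur, seg⟩ : Ps T).step K (.ev a b)).stk.length = st.length := by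
      rcases st with _ | ⟨g, r⟩ <;> simp [Ps.step, Ps.add]
    rw [e0] at hpd hun
    have e1 : min st.length pd = pd := by omega
    refine ⟨un, min st.length pd, by rw [e1]; exact h1, ⟨?_, ?_, ?_⟩, rfl, ?_⟩
    · intro h5
      have h6 := h2 h5
      rw [rv_cons, rv1_e] at h6
      rcases h6.1.2 with h7 | ⟨h7, -⟩
      · exact h7
      · simp at h7
    · intro hu g r h5
      have h6 := h3 hu g r h5
      rw [rv_cons, rv1_e] at h6
      rw [← TP_of_frame, e1]
      exact h6.1.2
    · intro hu g g' r h5
      have h6 := h4 hu g g' r h5
      rw [rv_cons, rv1_e] at h6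
      have h7 : FU V c₀ vA pd st := by
        have := h1.2.2
        rw [hu] at this
        exact this
      have h5' : st = g :: g' :: r := h5
      rw [h5'] at h7
      have h8 : V g'.1 = fcv V vA pd g' r := fcv_eq h7.2
      rw [e1, h8]
      rcases h6.1.2 with h9 | ⟨h9, h10⟩
      · exact Or.inl h9
      · right
        unfold fop at h9
        unfold fbv at h10
        by_cases h11 : r.length < pd
        · rw [if_pos h11] at h10
          rw [if_pos (by omega)]
          refine ⟨?_, h10⟩
          simp only [h11, true_and, Bool.not_eq_true', decide_eq_false_iff_not] at h9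
          rw [show r.length + 2 = (r.length + 1) + 1 by ring, Nat.even_add_one]
          exact h9
        · rw [if_neg h11] at h10
          rw [if_neg (by omega)]
          exact h10
    · intro hu
      right
      refine ⟨hu, ?_, by simp, by simp⟩
      exact Ps.add_stk _ _
  · -- nothing
    have e0 : ((⟨st, cur, seg⟩ : Ps T).step K .no).stk.length = st.length := rfl
    rw [e0] at hpd hun
    have e1 : min st.length pd = pd := by omega
    exact ⟨un, min st.length pd, by rw [e1]; exact h, trivial, rfl,
      fun hu => Or.inr ⟨hu, rfl, by simp, by simp⟩⟩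


/-! ## all slots -/

/-- information at the place `t` -/
def Inf (K : ℕ) (q : ℕ → Sl T) (V : T → B) (c₀ vA : B) (n t pd : ℕ) (un : Bool) : Prop :=
  SC V c₀ vA pd un (ps K q t) ∧ pd ≤ (stk K (lw q) t).length ∧
  (un = true → Ins K (lw q) n t ∧ (stk K (lw q) t).length = K) ∧
  ∀ i ∈ (stk K (lw q) t).drop ((stk K (lw q) t).length - pd), i ∈ stk K (lw q) n

theorem inf_all (hK : 3 ≤ K) {q : ℕ → Sl T} {n : ℕ}
    (hfin : SC V c₀ vA (ps K q n).stk.length false (ps K q n)) :
    ∀ k ≤ n, ∃ pd un, Inf K q V c₀ vA n (n - k) pd un ∧
      (1 ≤ k → eqL K V c₀ vA pd un (ps K q (n - k)).stk (q (n - k))) := by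
  intro k
  induction k with
  | zero =>
    intro _
    refine ⟨(ps K q n).stk.length, false, ⟨hfin, le_of_eq (ps_len n), by simp, ?_⟩,
      fun h => absurd h (by omega)⟩
    intro i hi
    exact List.mem_of_mem_drop hi
  | succ k ih =>
    intro hk
    obtain ⟨pd, un, ⟨h1, h2, h3, h4⟩, -⟩ := ih (by omega)
    obtain ⟨t, ht⟩ : ∃ t, t = n - (k + 1) := ⟨_, rfl⟩
    have ht1 : n - k = t + 1 := by omega
    rw [ht1] at h1 h2 h3 h4
    rw [← ht]
    have hlt : t < n := by omega
    have h5 : SC V c₀ vA pd un ((ps K q t).step K (q t)) := h1
    obtain ⟨un', pd', g1, g2, g3, g4⟩ := SC_step hK (iv (by omega) t) (x := q t) (un := un)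
      (by intro hu; have := (h3 hu).2; rw [← ps_len] at this; exact this)
      (by rw [← ps_len] at h2; exact h2) h5
    have hlen : (ps K q t).stk.length = (stk K (lw q) t).length := ps_len t
    rw [hlen] at g3
    refine ⟨pd', un', ⟨g1, by rw [g3]; exact min_le_left _ _, ?_, ?_⟩, fun _ => g2⟩
    · intro hu
      rcases g4 hu with ⟨h6, x, h7⟩ | ⟨h6, h7, h8, h9⟩
      · have hw : lw q t = Lt.u := by show (q t).lt = _; rw [h7]; rfl
        rw [hlen] at h6
        exact ⟨⟨h6.ge, t, le_rfl, hlt, hw, rfl⟩, h6⟩
      · obtain ⟨⟨i1, X, i2, i3, i4, i5⟩, i6⟩ := h3 h6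
        have hw : lw q t = Lt.z := by
          show (q t).lt = _
          rcases hq : q t with x | x | ⟨a, b⟩ | _
          · exact absurd ⟨x, hq⟩ h8
          · exact absurd ⟨x, hq⟩ h9
          · rfl
          · rfl
        rw [stk_z hw] at i1 i5 i6
        exact ⟨⟨i1, X, by omega, i3, i4, i5⟩, i6⟩
    · -- the pending frames
      rw [g3]
      rcases hw : lw q t with _ | _ | _
      · -- port
        rw [stk_o hw] at h2 h4
        rcases hs : stk K (lw q) t with _ | ⟨i, r⟩
        · simp
        · rw [hs] at h2 h4
          simp only [List.tail_cons, List.length_cons] at h2 h4 ⊢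
          have e1 : min (r.length + 1) pd = pd := by omega
          rw [e1]
          intro j hj
          refine h4 j ?_
          rw [show r.length + 1 - pd = (r.length - pd) + 1 by omega, List.drop_succ_cons] at hj
          exact hj
      · by_cases hl : (stk K (lw q) t).length < K
        · rw [stk_u hw hl] at h2 h4
          simp only [List.length_cons] at h2 h4
          intro j hj
          rcases Nat.lt_or_ge (stk K (lw q) t).length pd with h6 | h6
          · have e1 : pd = (stk K (lw q) t).length + 1 := by omega
            have e2 : min (stk K (lw q) t).length pd = (stk K (lw q) t).length := by omega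
            rw [e2] at hj
            refine h4 j ?_
            rw [e1, Nat.sub_self, List.drop_zero]
            exact List.mem_cons_of_mem _ (List.mem_of_mem_drop hj)
          · have e2 : min (stk K (lw q) t).length pd = pd := by omega
            rw [e2] at hj
            refine h4 j ?_
            rw [show (stk K (lw q) t).length + 1 - pd = ((stk K (lw q) t).length - pd) + 1 by omega,
              List.drop_succ_cons]
            exact hj
        · rw [stk_u' hw hl] at h2 h4
          rcases hs : stk K (lw q) t with _ | ⟨i, r⟩
          · simp
          · rw [hs] at h2 h4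
            simp only [List.tail_cons, List.length_cons] at h2 h4 ⊢
            have e1 : min (r.length + 1) pd = pd := by omega
            rw [e1]
            intro j hj
            refine h4 j ?_
            rw [show r.length + 1 - pd = (r.length - pd) + 1 by omega, List.drop_succ_cons] at hj
            exact hj
      · rw [stk_z hw] at h2 h4
        have e1 : min (stk K (lw q) t).length pd = pd := by omega
        rw [e1]
        exact h4

lemma map_cons_inv {α β γ : Type*} {f : α → γ} {g : β → γ} {A : List α} {A' : List α} {a : α}
    {Bs : List β} (h : A.map f = Bs.map g) (hA : A = a :: A') :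
    ∃ b B', Bs = b :: B' ∧ f a = g b ∧ A'.map f = B'.map g := by
  subst hA
  rcases Bs with _ | ⟨b, B'⟩
  · simp at h
  · simp only [List.map_cons, List.cons.injEq] at h
    exact ⟨b, B', rfl, h.1, h.2⟩

/-- **the positional form** -/
theorem wok_of_sc [Inhabited T] (hK : 3 ≤ K) {q : ℕ → Sl T} {n : ℕ}
    (hfin : SC V c₀ vA (ps K q n).stk.length false (ps K q n)) {v : ℕ → B}
    (hu : ∀ t x, q t = .un x → v t = V x) (ho : ∀ t x, q t = .po x → v t = V x)
    (he : ∀ t a b, q t = .ev a b → v t = V a) (hb : (lo K (lw q) n).card ≤ 1 → c₀ = vA)
    (hl2 : (lo K (lw q) n).card ≤ 2) :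
    WOk K (lw q) n v vA c₀ ∧ WRd K (lw q) n (fun t => ∃ a b, q t = .ev a b) v c₀ := by
  classical
  -- frames and positions
  have hfr : ∀ t, (ps K q t).stk.map (fun g => V g.1) = (stk K (lw q) t).map v := by
    intro t
    have h1 := ps_stk K q (fun i => match q i with | .un x => x | _ => default)
      (by intro i x h; simp [h]) t
    have h2 := congrArg (List.map V) h1
    rw [List.map_map, List.map_map] at h2
    have h3 : (ps K q t).stk.map (fun g => V g.1) = (ps K q t).stk.map (V ∘ Prod.fst) := rfl
    rw [h3, h2]
    refine List.map_congr_left ?_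
    intro i hi
    have hw := w_of_mem_stk hi
    have hq : ∃ x, q i = .un x := by
      have hw' : (q i).lt = Lt.u := hw
      rcases hq : q i with x | x | ⟨a, b⟩ | _ <;> rw [hq] at hw' <;> simp [Sl.lt] at hw' ⊢
    obtain ⟨x, hx⟩ := hq
    rw [hu i x hx]
    simp [hx]
  have hall : ∀ t < n, ∃ pd un, Inf K q V c₀ vA n t pd un ∧
      eqL K V c₀ vA pd un (ps K q t).stk (q t) := by
    intro t ht
    obtain ⟨pd, un, h1, h2⟩ := inf_all hK hfin (n - t) (by omega)
    rw [show n - (n - t) = t by omega] at h1 h2
    exact ⟨pd, un, h1, h2 (by omega)⟩
  refine ⟨⟨?_, ?_, ?_, hb⟩, ?_⟩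
  · -- ports
    intro t ht hw
    obtain ⟨pd, un, -, h2⟩ := hall t ht
    have hq : ∃ x, q t = .po x := by
      have hw' : (q t).lt = Lt.o := hw
      rcases hq : q t with x | x | ⟨a, b⟩ | _ <;> rw [hq] at hw' <;> simp [Sl.lt] at hw' ⊢
    obtain ⟨x, hx⟩ := hq
    rw [hx] at h2
    rw [ho t x hx]
    unfold tv
    rcases hs : (ps K q t).stk with _ | ⟨f, r⟩
    · have h3 := hfr t
      rw [hs] at h3
      have h4 : stk K (lw q) t = [] := List.map_eq_nil_iff.1 h3.symm
      rw [h4]
      exact h2.1 hs
    · obtain ⟨F, R, h4, h5, -⟩ := map_cons_inv (hfr t) hs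
      rw [h4]
      show V x = v F
      rw [← h5]
      exact h2.2 f r hs
  · -- units
    intro t ht hw F G l h3 h4
    obtain ⟨pd, un, -, h2⟩ := hall t ht
    have hq : ∃ x, q t = .un x := by
      have hw' : (q t).lt = Lt.u := hw
      rcases hq : q t with x | x | ⟨a, b⟩ | _ <;> rw [hq] at hw' <;> simp [Sl.lt] at hw' ⊢
    obtain ⟨x, hx⟩ := hq
    rw [hx] at h2
    obtain ⟨f, R, h5, h6, h7⟩ := map_cons_inv (hfr t).symm h3
    obtain ⟨g, R', h8, h9, -⟩ := map_cons_inv h7 rfl
    rw [h8] at h5
    have h10 := h2 (by rw [ps_len]; exact h4) f g R' h5
    rw [hu t x hx, h6, h9]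
    exact h10
  · -- pending
    intro i hi
    have h1 : ∀ r : List (T × List (BT T)), ∀ N, r.length ≤ N → FR V c₀ vA N r →
        ∀ g ∈ r, V g.1 = vA := by
      intro r
      induction r with
      | nil => intro N _ _ g hg; simp at hg
      | cons g r ih =>
        intro N hN h g' hg'
        simp only [List.length_cons] at hN
        rcases List.mem_cons.1 hg' with rfl | hg'
        · have h2 := h.1.1
          unfold fcv at h2
          rw [if_pos (by omega)] at h2
          exact h2
        · exact ih N (by omega) h.2 g' hg'
    have h2 := h1 _ _ le_rfl hfin.2.2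
    have h3 : v i ∈ (stk K (lw q) n).map v := List.mem_map_of_mem hi
    rw [← hfr n] at h3
    obtain ⟨g, hg, h4⟩ := List.mem_map.1 h3
    rw [← h4]
    exact h2 g hg
  · -- riders
    rintro t ht ⟨a, b, hq⟩
    obtain ⟨pd, un, ⟨i1, i2, i3, i4⟩, h2⟩ := hall t ht
    rw [hq] at h2
    rw [he t a b hq]
    obtain ⟨e1, e2, e3⟩ := h2
    have hcard : (lo K (lw q) n).card = 2 ∨ c₀ = vA := by
      rcases Nat.lt_or_ge (lo K (lw q) n).card 2 with h | h
      · exact Or.inr (hb (by omega))
      · exact Or.inl (by omega)
    rcases hs : (ps K q t).stk with _ | ⟨g, r⟩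
    · have h3 := hfr t
      rw [hs] at h3
      have h4 : stk K (lw q) t = [] := List.map_eq_nil_iff.1 h3.symm
      exact ⟨none, Or.inl (by rw [h4]; rfl), e1 hs⟩
    · obtain ⟨F, R, h4, h5, h6⟩ := map_cons_inv (hfr t) hs
      have hRl : r.length = R.length := by simpa using congrArg List.length h6
      have hd1 : (stk K (lw q) t).head? = some F := by rw [h4]; rfl
      cases un with
      | false =>
        have h7 := e2 rfl g r hs
        have h8 : FR V c₀ vA pd (g :: r) := by
          have := i1.2.2
          rw [hs] at this
          exact this
        have h9 := fcv_eq h8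
        rw [TP_cons] at h7
        by_cases hp : r.length < pd
        · rw [if_pos hp] at h7
          unfold fcv at h9
          rw [if_pos hp] at h9
          have first : V a = vA → ∃ κ, Lam K (lw q) n t κ ∧ V a = cv v c₀ κ := by
            intro h10
            refine ⟨some F, Or.inl hd1.symm, ?_⟩
            show V a = v F
            rw [← h5, h10, h9]
          rcases h7 with h10 | ⟨h10, h11⟩
          · exact first h10
          · rcases hcard with h12 | h12
            · refine ⟨none, Or.inr (Or.inr ⟨rfl, h12, ?_, Or.inl ?_⟩), h11⟩
              · rw [h4, List.length_cons, ← hRl]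
                exact h10
              · intro F' hF'
                refine i4 F' ?_
                rw [h4] at i2 hF' ⊢
                simp only [List.length_cons] at i2
                have e : (F :: R).length - pd = 0 := by simp only [List.length_cons]; omega
                rw [e, List.drop_zero]
                simp only [List.head?_cons, Option.some.injEq] at hF'
                rw [← hF']
                exact List.mem_cons_self
            · exact first (by rw [h11, h12])
        · rw [if_neg hp] at h7
          refine ⟨some F, Or.inl hd1.symm, ?_⟩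
          show V a = v F
          rw [← h5, h7]
      | true =>
        obtain ⟨hI, hlenK⟩ := i3 rfl
        have h8 : FU V c₀ vA pd (g :: r) := by
          have := i1.2.2
          rw [hs] at this
          exact this
        rcases r with _ | ⟨g', r⟩
        · exact (h8 : False).elim
        obtain ⟨h9, h10⟩ := h8
        have h11 : V g'.1 = fcv V vA pd g' r := fcv_eq h10
        have h12 := e3 rfl g g' r hs
        obtain ⟨G, R', j1, j2, j3⟩ := map_cons_inv h6 rfl
        have first : V a = V g'.1 → ∃ κ, Lam K (lw q) n t κ ∧ V a = cv v c₀ κ := by
          intro h13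
          refine ⟨some F, Or.inl hd1.symm, ?_⟩
          show V a = v F
          rw [← h5, h13, h9.1, h11]
        rcases h12 with h13 | h13
        · exact first h13
        · by_cases hp : r.length + 1 ≤ pd
          · rw [if_pos hp] at h13
            rcases hcard with h14 | h14
            · refine ⟨none, Or.inr (Or.inr ⟨rfl, h14, ?_, Or.inr ⟨hI, ?_⟩⟩), h13.2⟩
              · rw [h4, j1]
                have : R'.length = r.length := by simpa using (congrArg List.length j3).symm
                simp only [List.length_cons, this]
                exact h13.1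
              · intro H hH
                refine i4 H ?_
                rw [h4, j1] at hH i2 ⊢
                have hR' : R'.length = r.length := by simpa using (congrArg List.length j3).symm
                simp only [List.length_cons] at i2
                rcases R' with _ | ⟨H', R'⟩
                · simp at hH
                · simp only [List.getElem?_cons_succ, List.getElem?_cons_zero, Option.some.injEq] at hH
                  rw [← hH]
                  have e : (F :: G :: H' :: R').length - pd ≤ 1 := by
                    simp only [List.length_cons] at hR' ⊢; omega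
                  rcases Nat.le_one_iff_eq_zero_or_eq_one.1 e with e | e
                  · rw [e, List.drop_zero]; simp
                  · rw [e, List.drop_succ_cons, List.drop_zero]; simp
            · refine first ?_
              rw [h13.2, h14, h11]
              unfold fcv
              rw [if_pos (by omega)]
          · rw [if_neg hp] at h13
            rcases r with _ | ⟨hh, r⟩
            · exfalso
              have := hlenK
              rw [h4, j1] at this
              have hR' : R'.length = 0 := by simpa using (congrArg List.length j3).symm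
              simp only [List.length_cons, hR'] at this
              omega
            · obtain ⟨H, R'', k1, k2, k3⟩ := map_cons_inv j3 rfl
              have h15 : (stk K (lw q) t)[2]? = some H := by rw [h4, j1, k1]; rfl
              have second : V a = V hh.1 → ∃ κ, Lam K (lw q) n t κ ∧ V a = cv v c₀ κ := by
                intro h16
                refine ⟨some H, Or.inr (Or.inl ⟨hI, h15.symm⟩), ?_⟩
                show V a = v H
                rw [← k2, h16]
              have h16 : V hh.1 = fcv V vA pd hh r := fcv_eq h10.2
              rw [TP_cons] at h13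
              by_cases hp2 : r.length < pd
              · rw [if_pos hp2] at h13
                unfold fcv at h16
                rw [if_pos hp2] at h16
                rcases h13 with h17 | ⟨h17, h18⟩
                · exact second (by rw [h17, h16])
                · rcases hcard with h19 | h19
                  · refine ⟨none, Or.inr (Or.inr ⟨rfl, h19, ?_, Or.inr ⟨hI, ?_⟩⟩), h18⟩
                    · rw [h4, j1, k1]
                      have : R''.length = r.length := by simpa using (congrArg List.length k3).symm
                      simp only [List.length_cons, this]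
                      obtain ⟨z, hz⟩ := h17
                      exact ⟨z + 1, by omega⟩
                    · intro H' hH'
                      rw [h15, Option.some.injEq] at hH'
                      rw [← hH']
                      refine i4 H ?_
                      rw [h4, j1, k1] at i2 ⊢
                      have hR' : R''.length = r.length := by
                        simpa using (congrArg List.length k3).symm
                      simp only [List.length_cons] at i2
                      have e : (F :: G :: H :: R'').length - pd ≤ 2 := by
                        simp only [List.length_cons]; omega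
                      rcases Nat.lt_or_ge ((F :: G :: H :: R'').length - pd) 1 with e1 | e1
                      · have e2 : (F :: G :: H :: R'').length - pd = 0 := by omega
                        rw [e2, List.drop_zero]; simp
                      · rcases Nat.lt_or_ge ((F :: G :: H :: R'').length - pd) 2 with e3 | e3
                        · have e2 : (F :: G :: H :: R'').length - pd = 1 := by omega
                          rw [e2]; simp
                        · have e2 : (F :: G :: H :: R'').length - pd = 2 := by omega
                          rw [e2]; simp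
                  · exact second (by rw [h18, h19, h16])
              · rw [if_neg hp2] at h13
                exact second h13

end Pool.Agent.MP42.PD
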