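import Mathlib

/-!
# Counting regions (owner helper1)

`card_drop`: the number of classes of the equivalence generated by `R'` is smaller than the one for
`R`, if the `R`-relations outside a closed set `G` stay valid and every point of `G` becomes
equivalent to a point outside `G`.
-/

set_option autoImplicit false

namespace Pool.Agent.MP42.PD

variable {S : Type*}

/-- number of classes of the equivalence generated by `R` -/
noncomputable def ncl (R : S → S → Prop) : ℕ := Nat.card (Quot R)

/-- **the number of classes drops** -/
theorem card_drop [Finite S] {R R' : S → S → Prop} (G : S → Prop) (g0 : S) (hg0 : G g0)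
    (hG : ∀ s t, R s t → (G s ↔ G t))
    (h1 : ∀ s t, R s t → ¬ G s → Relation.EqvGen R' s t)
    (h2 : ∀ s, G s → ∃ t, ¬ G t ∧ Relation.EqvGen R' s t) : ncl R' < ncl R := by
  classical
  -- the class of a point, outside `G`
  let φ : Quot R → Option (Quot R') := Quot.lift
    (fun s => if G s then none else some (Quot.mk R' s)) (by
      intro s t hst
      by_cases hs : G s
      · have ht := (hG s t hst).1 hs
        simp [hs, ht]
      · have ht : ¬ G t := fun h => hs ((hG s t hst).2 h)
        rw [if_neg hs, if_neg ht]
        exact congrArg some (Quot.eqvGen_sound (h1 s t hst hs)))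
  have hφ : Function.Surjective φ := by
    intro o
    rcases o with - | q
    · exact ⟨Quot.mk R g0, by simp [φ, hg0]⟩
    · induction q using Quot.ind with
      | mk s =>
        by_cases hs : G s
        · obtain ⟨t, ht, hst⟩ := h2 s hs
          refine ⟨Quot.mk R t, ?_⟩
          show (if G t then none else some (Quot.mk R' t)) = some (Quot.mk R' s)
          rw [if_neg ht]
          exact congrArg some (Quot.eqvGen_sound hst).symm
        · exact ⟨Quot.mk R s, by simp [φ, hs]⟩
  have : Finite (Quot R) := Quot.finite R
  have : Finite (Quot R') := Quot.finite R'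
  have h3 : Nat.card (Option (Quot R')) ≤ Nat.card (Quot R) :=
    Nat.card_le_card_of_surjective φ hφ
  rw [Finite.card_option] at h3
  exact h3

/-- points of one region: it is enough to look at the lost relations -/
theorem prop_region {R R' : S → S → Prop} (G : S → Prop) (g0 : S)
    (hG : ∀ s t, R s t → (G s ↔ G t))
    (hG0 : ∀ s, G s → Relation.EqvGen R s g0)
    (h0 : ∃ t, ¬ G t ∧ Relation.EqvGen R' g0 t)
    (h1 : ∀ s t, R s t → G s → Relation.EqvGen R' s t ∨
      ((∃ u, ¬ G u ∧ Relation.EqvGen R' s u) ∧ (∃ u, ¬ G u ∧ Relation.EqvGen R' t u))) :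
    ∀ s, G s → ∃ t, ¬ G t ∧ Relation.EqvGen R' s t := by
  -- along a path both ends have the property or none
  have key : ∀ s t, Relation.EqvGen R s t → G s →
      ((∃ u, ¬ G u ∧ Relation.EqvGen R' s u) ↔ (∃ u, ¬ G u ∧ Relation.EqvGen R' t u)) := by
    intro s t h
    induction h with
    | rel s t hst =>
      intro hs
      rcases h1 s t hst hs with h | h
      · constructor
        · rintro ⟨u, hu, hsu⟩
          exact ⟨u, hu, (h.symm _ _).trans _ _ _ hsu⟩
        · rintro ⟨u, hu, htu⟩
          exact ⟨u, hu, h.trans _ _ _ htu⟩
      · exact ⟨fun _ => h.2, fun _ => h.1⟩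
    | refl s => exact fun _ => Iff.rfl
    | symm s t hst ih =>
      intro ht
      have hG' : ∀ a b, Relation.EqvGen R a b → (G a ↔ G b) := by
        intro a b hab
        induction hab with
        | rel a b h => exact hG a b h
        | refl a => exact Iff.rfl
        | symm a b _ ih => exact ih.symm
        | trans a b c _ _ i1 i2 => exact i1.trans i2
      exact (ih ((hG' _ _ hst).2 ht)).symm
    | trans s t u hst _ i1 i2 =>
      intro hs
      have hG' : ∀ a b, Relation.EqvGen R a b → (G a ↔ G b) := by
        intro a b hab
        induction hab with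
        | rel a b h => exact hG a b h
        | refl a => exact Iff.rfl
        | symm a b _ ih => exact ih.symm
        | trans a b c _ _ i1 i2 => exact i1.trans i2
      exact (i1 hs).trans (i2 ((hG' _ _ hst).1 hs))
  intro s hs
  exact (key s g0 (hG0 s hs) hs).2 h0

end Pool.Agent.MP42.PD
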