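import Pool.Agent.MP42.U.Cell
import Pool.Agent.MP42.U.NodeX0

/-!
# Choice of the signs of all nodes of a circle

`Nd T`: an abstract node: tokens, condition `C` on the signs, condition `N` of the lettered word,
conclusion `M`, hypothesis `H`.  `sel_all`: if the sum over the tokens of all nodes of `V * V'` is
zero, the signs of all nodes can be chosen such that `N` everywhere implies `M` everywhere.
Instances: `ndA` = virtual circle `L, ms, z`; `ndP` = the same word rotated; `ndR` = own token, left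
over, free tokens, second own token.
-/

set_option autoImplicit false

namespace Pool.Agent.MP42.PD

open U

variable {T : Type*}

/-- abstract nodes -/
structure Nd (T : Type*) where
  tok : List T
  C : (T → Bool) → Prop
  N : (T → Bool) → (T → B) → Prop
  M : (T → B) → Prop
  H : (T → B) → Prop
  locC : ∀ s s' : T → Bool, (∀ t ∈ tok, s t = s' t) → C s → C s'
  locN : ∀ s s' : T → Bool, (∀ t ∈ tok, s t = s' t) → ∀ V, N s V → N s' V
  orN : ∀ s V V', C s → N s V → N s V' → sp V V' tok = 0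
  orM : ∀ V V', M V → M V' → sp V V' tok = 0
  sel : ∀ F : Set (T → B), (∀ V ∈ F, H V) → (∀ V ∈ F, ∀ V' ∈ F, sp V V' tok = 0) →
    ∃ s, C s ∧ ∀ V ∈ F, N s V → M V

/-- the sum over the tokens of all nodes -/
def sps (V V' : T → B) (ns : List (Nd T)) : B := (ns.map fun n => sp V V' n.tok).sum

@[simp] lemma sps_nil (V V' : T → B) : sps V V' ([] : List (Nd T)) = 0 := rfl

@[simp] lemma sps_cons (V V' : T → B) (n : Nd T) (ns : List (Nd T)) :
    sps V V' (n :: ns) = sp V V' n.tok + sps V V' ns := by simp [sps]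

@[simp] lemma sps_append (V V' : T → B) (ns ms : List (Nd T)) :
    sps V V' (ns ++ ms) = sps V V' ns + sps V V' ms := by simp [sps]

lemma sps_eq (V V' : T → B) (ns : List (Nd T)) :
    sps V V' ns = sp V V' (ns.flatMap fun n => n.tok) := by
  induction ns with
  | nil => rfl
  | cons n ns ih => rw [sps_cons, List.flatMap_cons, sp_append, ih]

lemma sps_zero {V V' : T → B} {ns : List (Nd T)} (h : ∀ n ∈ ns, sp V V' n.tok = 0) :
    sps V V' ns = 0 := by
  induction ns with
  | nil => rfl
  | cons n ns ih =>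
    rw [sps_cons, h n List.mem_cons_self, ih fun m hm => h m (List.mem_cons_of_mem _ hm), add_zero]

/-- **the choice of the signs of all nodes** -/
theorem sel_all : ∀ (ns : List (Nd T)), (ns.Pairwise fun n m => ∀ t ∈ n.tok, t ∉ m.tok) →
    ∀ F : Set (T → B), (∀ V ∈ F, ∀ n ∈ ns, n.H V) → (∀ V ∈ F, ∀ V' ∈ F, sps V V' ns = 0) →
    ∃ s : T → Bool, (∀ n ∈ ns, n.C s) ∧
      ∀ V ∈ F, (∀ n ∈ ns, n.N s V) → ∀ n ∈ ns, n.M V := by
  classical
  intro ns
  induction ns with
  | nil =>
    intro _ F _ _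
    exact ⟨fun _ => true, by simp, by simp⟩
  | cons n ns ih =>
    intro hd F hH hF
    obtain ⟨hd1, hd2⟩ := List.pairwise_cons.1 hd
    -- the others, with `n` constant
    obtain ⟨s₁, h1, h2⟩ := ih hd2 {V | V ∈ F ∧ n.M V}
      (fun V hV m hm => hH V hV.1 m (List.mem_cons_of_mem _ hm)) (by
        rintro V ⟨hV, hM⟩ V' ⟨hV', hM'⟩
        have h3 := hF V hV V' hV'
        rwa [sps_cons, n.orM V V' hM hM', zero_add] at h3)
    -- the node `n`
    obtain ⟨s₂, h3, h4⟩ := n.sel {V | V ∈ F ∧ ∀ m ∈ ns, m.N s₁ V}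
      (fun V hV => hH V hV.1 n List.mem_cons_self) (by
        rintro V ⟨hV, hN⟩ V' ⟨hV', hN'⟩
        have h5 := hF V hV V' hV'
        rwa [sps_cons, sps_zero fun m hm => m.orN s₁ V V' (h1 m hm) (hN m hm) (hN' m hm),
          add_zero] at h5)
    have e2 : ∀ t ∈ n.tok, s₂ t = (fun t => if t ∈ n.tok then s₂ t else s₁ t) t := by
      intro t ht
      simp [ht]
    have e1 : ∀ m ∈ ns, ∀ t ∈ m.tok, s₁ t = (fun t => if t ∈ n.tok then s₂ t else s₁ t) t := by
      intro m hm t ht
      have : t ∉ n.tok := fun h => hd1 m hm t h ht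
      simp [this]
    refine ⟨fun t => if t ∈ n.tok then s₂ t else s₁ t, ?_, ?_⟩
    · intro m hm
      rcases List.mem_cons.1 hm with rfl | hm
      · exact m.locC _ _ e2 h3
      · exact m.locC _ _ (e1 m hm) (h1 m hm)
    · intro V hV hN
      have h5 : ∀ m ∈ ns, m.N s₁ V := fun m hm =>
        m.locN _ _ (fun t ht => (e1 m hm t ht).symm) V (hN m (List.mem_cons_of_mem _ hm))
      have h6 : n.M V := h4 V ⟨hV, h5⟩
        (n.locN _ _ (fun t ht => (e2 t ht).symm) V (hN n List.mem_cons_self))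
      intro m hm
      rcases List.mem_cons.1 hm with rfl | hm
      · exact h6
      · exact h2 V ⟨hV, h6⟩ h5 m hm

/-! ## Words -/

/-- the letters of a list of tokens -/
def ml (s : T → Bool) (ms : List T) : List (Bool × T) := ms.map fun t => (s t, t)

@[simp] lemma ml_nil (s : T → Bool) : ml s ([] : List T) = [] := rfl

@[simp] lemma ml_cons (s : T → Bool) (t : T) (ms : List T) : ml s (t :: ms) = (s t, t) :: ml s ms :=
  rfl

@[simp] lemma ml_append (s : T → Bool) (ms ms' : List T) : ml s (ms ++ ms') = ml s ms ++ ml s ms' := by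
  simp [ml]

lemma ml_congr {s s' : T → Bool} {ms : List T} (h : ∀ t ∈ ms, s t = s' t) : ml s ms = ml s' ms :=
  List.map_congr_left fun t ht => by rw [h t ht]

lemma ml_snd (s : T → Bool) (ms : List T) : (ml s ms).map Prod.snd = ms := by
  induction ms with
  | nil => rfl
  | cons t ms ih => rw [ml_cons, List.map_cons, ih]

lemma alt_congr {s s' : T → Bool} : ∀ {ms : List T}, (∀ t ∈ ms, s t = s' t) → Alt s ms →
    Alt s' ms := by
  intro ms h ha
  induction ha with
  | nil => exact Alt.nil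
  | @cons a b t h1 _ ih =>
    refine Alt.cons ?_ (ih fun u hu => h u (by simp [hu]))
    rw [← h a (by simp), ← h b (by simp), h1]

lemma alt_hl {s : T → Bool} {ms : List T} (h : Alt s ms) : hl (ml s ms) = 0 := by
  induction h with
  | nil => rfl
  | @cons a b t h1 _ ih =>
    rw [ml_cons, ml_cons, hl_cons, hl_cons, ih, h1]
    cases s a <;> simp

lemma alt_len {s : T → Bool} {ms : List T} (h : Alt s ms) : Even ms.length := by
  induction h with
  | nil => simp
  | @cons a b t h1 _ ih =>
    obtain ⟨k, hk⟩ := ih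
    exact ⟨k + 1, by simp only [List.length_cons]; omega⟩

/-- the partial sums of alternating words -/
lemma alt_par {s : T → Bool} {ms : List T} (h : Alt s ms) :
    ∀ u v, ml s ms = u ++ v → -1 ≤ hl u ∧ hl u ≤ 1 := by
  induction h with
  | nil =>
    intro u v huv
    rw [ml_nil] at huv
    rw [(List.append_eq_nil_iff.1 huv.symm).1]
    simp
  | @cons a b t h1 _ ih =>
    intro u v huv
    rw [ml_cons, ml_cons] at huv
    match u, huv with
    | [], _ => simp
    | [q], huv =>
      simp only [List.cons_append, List.nil_append, List.cons.injEq] at huv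
      rw [← huv.1]
      cases s a <;> simp
    | q :: q' :: u, huv =>
      simp only [List.cons_append, List.cons.injEq] at huv
      obtain ⟨rfl, rfl, huv⟩ := huv
      have := ih u v huv
      rw [hl_cons, hl_cons, h1]
      cases s a <;> simp <;> exact this

lemma lv_ml (V : T → B) (s : T → Bool) (ms : List T) :
    lv V (ml s ms) = ms.map fun t => (s t, V t) := by
  induction ms with
  | nil => rfl
  | cons t ms ih => rw [ml_cons, lv_cons, ih]; rfl

/-! ## One node -/

/-- the word of a node -/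
def wn (s : T → Bool) (L : T) (ms : List T) (z : T) : List (Bool × T) :=
  (true, L) :: (ml s ms ++ [(true, z)])

/-- one value -/
def onv (V : T → B) (L : T) (ms : List T) (z : T) : Prop := V z = V L ∧ ∀ u ∈ ms, V u = V L

lemma sp_on (V V' : T → B) (c c' : B) (ms : List T) (h : ∀ u ∈ ms, V u = c)
    (h' : ∀ u ∈ ms, V' u = c') : sp V V' ms = (ms.length : B) * (c * c') := by
  induction ms with
  | nil => simp
  | cons t ms ih =>
    rw [sp_cons, ih (fun u hu => h u (List.mem_cons_of_mem _ hu))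
      (fun u hu => h' u (List.mem_cons_of_mem _ hu)), h t List.mem_cons_self,
      h' t List.mem_cons_self, List.length_cons]
    push_cast
    ring

lemma even_b {n : ℕ} (h : Even n) : ((n : ℕ) : B) = 0 := by
  obtain ⟨m, hm⟩ := h
  rw [hm, Nat.cast_add]
  exact b_add_self _

lemma onv_or {V V' : T → B} {L z : T} {ms : List T} (hms : Even ms.length) (h : onv V L ms z)
    (h' : onv V' L ms z) : sp V V' (L :: (ms ++ [z])) = 0 := by
  rw [sp_cons, sp_append, sp_on V V' _ _ ms h.2 h'.2, even_b hms, sp_cons, sp_nil, h.1, h'.1]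
  have := b_add_self (V L * V' L)
  linear_combination this

lemma wn_hl {s : T → Bool} {L z : T} {ms : List T} (h : Alt s ms) : hl (wn s L ms z) = 2 := by
  unfold wn
  rw [hl_cons, hl_append, alt_hl h]
  simp

lemma wn_snd (s : T → Bool) (L z : T) (ms : List T) :
    (wn s L ms z).map Prod.snd = L :: (ms ++ [z]) := by
  unfold wn
  rw [List.map_cons, List.map_append, ml_snd]
  rfl

/-- **one node** -/
theorem node1 {L z : T} {ms : List T} (hn : ms.Nodup) (hms : Even ms.length)
    {F : Set (T → B)} (hF : ∀ V ∈ F, ∀ V' ∈ F, sp V V' (L :: (ms ++ [z])) = 0) :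
    ∃ s : T → Bool, Alt s ms ∧ ∀ V ∈ F, Cl V (wn s L ms z) → onv V L ms z := by
  classical
  obtain ⟨bs, hb1, hb2, t, hb3, hb4, hb5⟩ := choose_pairs (val := fun (u : T) (V : T → B) => V u)
    hms F (fun V => V L) (fun V => V z) (by
      intro V hV V' hV'
      have h1 := hF V hV V' hV'
      rw [sp_cons, sp_append, sp_cons, sp_nil, add_zero, ← add_assoc] at h1
      exact h1)
  obtain ⟨s, hs⟩ := exists_fun hn hb1.symm ⟨true⟩
  refine ⟨s, hb2 s hs, ?_⟩
  rintro V hV ⟨S, hS, hd⟩
  have h3 := word_pairs (val := fun (u : T) (V : T → B) => V u) (st := s) (V := V) t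
    (by rw [← hb4, ← hb3]; exact hs)
  have h4 : lv V (wn s L ms z) = (true, V L) ::
      ((t.flatMap fun p => [(!p.1, V p.2.1), (p.1, V p.2.2)]) ++ [(true, V z)]) := by
    unfold wn
    rw [lv_cons, lv_append, lv_ml, lv_cons, lv_nil, ← h3, ← hb4]
  rw [h4] at hS
  obtain ⟨-, h5⟩ := run_chain (v := V) hS hd
  obtain ⟨h6, h7⟩ := hb5 V hV h5
  exact ⟨h7, h6⟩

/-- **the node** `L, ms, z` -/
def ndA (L : T) (ms : List T) (z : T) (hn : ms.Nodup) (hms : Even ms.length) : Nd T where
  tok := L :: (ms ++ [z])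
  C s := Alt s ms
  N s V := Cl V (wn s L ms z)
  M V := onv V L ms z
  H _ := True
  locC s s' h := alt_congr fun t ht => h t (by simp [ht])
  locN s s' h V hN := by
    have e : wn s L ms z = wn s' L ms z := by
      unfold wn
      rw [ml_congr fun t ht => h t (by simp [ht])]
    rwa [← e]
  orN s V V' hC h h' := by
    have := Cl.par (wn_hl hC) h h'
    rwa [wn_snd] at this
  orM V V' h h' := onv_or hms h h'
  sel F _ hF := node1 hn hms hF

/-! ## The root node: own token, left over, free tokens, second own token -/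

/-- the word of the root node -/
def wr (s : T → Bool) (l x : T) (fs : List T) (r : T) : List (Bool × T) :=
  (true, l) :: (true, x) :: (ml s fs ++ [(true, r)])

/-- the signs of the free tokens of the root node: `-`, then pairs -/
def AltR (s : T → Bool) (fs : List T) : Prop := ∃ f ms, fs = f :: ms ∧ s f = false ∧ Alt s ms

lemma altR_congr {s s' : T → Bool} {fs : List T} (h : ∀ t ∈ fs, s t = s' t) (ha : AltR s fs) :
    AltR s' fs := by
  obtain ⟨f, ms, rfl, h1, h2⟩ := ha
  refine ⟨f, ms, rfl, ?_, alt_congr (fun t ht => h t (by simp [ht])) h2⟩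
  rw [← h f (by simp), h1]

lemma altR_hl {s : T → Bool} {fs : List T} (h : AltR s fs) : hl (ml s fs) = -1 := by
  obtain ⟨f, ms, rfl, h1, h2⟩ := h
  rw [ml_cons, hl_cons, alt_hl h2, h1]
  simp

lemma wr_hl {s : T → Bool} {l x r : T} {fs : List T} (h : AltR s fs) :
    hl (wr s l x fs r) = 2 := by
  unfold wr
  rw [hl_cons, hl_cons, hl_append, altR_hl h]
  simp

lemma wr_snd (s : T → Bool) (l x r : T) (fs : List T) :
    (wr s l x fs r).map Prod.snd = l :: x :: (fs ++ [r]) := by
  unfold wr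
  rw [List.map_cons, List.map_cons, List.map_append, ml_snd]
  rfl

/-- **the root node** -/
theorem nodeRt {l x r : T} {fs : List T} (hn : fs.Nodup) (hfs : Odd fs.length)
    {F : Set (T → B)} (hlr : ∀ V ∈ F, V l = V r)
    (hF : ∀ V ∈ F, ∀ V' ∈ F, sp V V' (l :: x :: (fs ++ [r])) = 0) :
    ∃ s : T → Bool, AltR s fs ∧ ∀ V ∈ F, Cl V (wr s l x fs r) →
      V r = V l ∧ V x = V l ∧ ∀ u ∈ fs, V u = V l := by
  classical
  obtain ⟨f, ms, rfl⟩ : ∃ f ms, fs = f :: ms := by
    cases fs with
    | nil => simp at hfs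
    | cons f ms => exact ⟨f, ms, rfl⟩
  have hms : Even ms.length := by
    rw [List.length_cons] at hfs
    obtain ⟨k, hk⟩ := hfs
    exact ⟨k, by omega⟩
  obtain ⟨hf, hn'⟩ := List.nodup_cons.1 hn
  obtain ⟨bs, hb1, hb2, t, hb3, hb4, hb5⟩ := choose_pairs (val := fun (u : T) (V : T → B) => V u)
    hms {V | V ∈ F ∧ V l = V x} (fun V => V f) (fun V => V r) (by
      rintro V ⟨hV, hlx⟩ V' ⟨hV', hlx'⟩
      have h1 := hF V hV V' hV'
      rw [sp_cons, sp_cons, sp_append, sp_cons, sp_cons, sp_nil, hlx, hlx'] at h1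
      have h2 := b_add_self (V x * V' x)
      have h3 : sp V V' ms = (ms.map fun u => V u * V' u).sum := rfl
      rw [h3] at h1
      linear_combination h1 - h2)
  obtain ⟨s₀, hs₀⟩ := exists_fun hn' hb1.symm ⟨true⟩
  set s : T → Bool := Function.update s₀ f false with hsdef
  have hsf : s f = false := Function.update_self _ _ _
  have hs : ms.map s = bs := by
    rw [← hs₀]
    refine List.map_congr_left fun u hu => ?_
    exact Function.update_of_ne (by rintro rfl; exact hf hu) _ _
  refine ⟨s, ⟨f, ms, rfl, hsf, hb2 s hs⟩, ?_⟩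
  rintro V hV ⟨S, hS, hd⟩
  have h3 := word_pairs (val := fun (u : T) (V : T → B) => V u) (st := s) (V := V) t
    (by rw [← hb4, ← hb3]; exact hs)
  have h4 : lv V (wr s l x (f :: ms) r) = (true, V l) :: (true, V x) :: (false, V f) ::
      ((t.flatMap fun p => [(!p.1, V p.2.1), (p.1, V p.2.2)]) ++ [(true, V r)]) := by
    unfold wr
    rw [lv_cons, lv_cons, lv_append, ml_cons, lv_cons, lv_ml, lv_cons, lv_nil, ← h3, ← hb4, hsf]
    rfl
  rw [h4, run_pop, run_pop, run_push, run_append] at hS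
  obtain ⟨e1, e2, S₁, e3, e4, e5⟩ := hS
  rw [run_nil] at e5
  obtain ⟨e6, e7⟩ := run_pairs (v := V) e3
  have h7 : ∀ j, S j = S (j + 2) := by
    intro j
    have := congrFun (e5.symm.trans e7) j
    exact this
  have h8 : ∀ n j, S j = S (j + 2 * n) := by
    intro n
    induction n with
    | zero => intro j; rfl
    | succ n ih => intro j; rw [ih j, h7]; rfl
  obtain ⟨K, c, hc⟩ := hd
  have h9 : ∀ j, S j = c := by
    intro j
    rw [h8 K j]
    exact hc _ (by omega)
  have hlc : V l = c := by rw [e1, h9]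
  have hxc : V x = c := by rw [e2, tl_apply, h9]
  have h10 : Ch (fun u => V u) t (V f) (V r) := by
    rw [e4]; exact e6
  obtain ⟨h11, h12⟩ := hb5 V ⟨hV, by rw [hlc, hxc]⟩ h10
  have hfc : V f = c := by rw [← h12, ← hlr V hV, hlc]
  refine ⟨(hlr V hV).symm, by rw [hxc, hlc], ?_⟩
  intro u hu
  rcases List.mem_cons.1 hu with rfl | hu
  · rw [hfc, hlc]
  · rw [h11 u hu, hfc, hlc]

/-- **the root node** -/
def ndR (l x : T) (fs : List T) (r : T) (hn : fs.Nodup) (hfs : Odd fs.length) : Nd T where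
  tok := l :: x :: (fs ++ [r])
  C s := AltR s fs
  N s V := Cl V (wr s l x fs r)
  M V := V r = V l ∧ V x = V l ∧ ∀ u ∈ fs, V u = V l
  H V := V l = V r
  locC s s' h := altR_congr fun t ht => h t (by simp [ht])
  locN s s' h V hN := by
    have e : wr s l x fs r = wr s' l x fs r := by
      unfold wr
      rw [ml_congr fun t ht => h t (by simp [ht])]
    rwa [← e]
  orN s V V' hC h h' := by
    have := Cl.par (wr_hl hC) h h'
    rwa [wr_snd] at this
  orM V V' h h' := by
    have h1 := sp_on V V' (V l) (V' l) (l :: x :: (fs ++ [r])) (by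
      intro u hu
      simp only [List.mem_cons, List.mem_append, List.not_mem_nil, or_false] at hu
      rcases hu with rfl | rfl | hu | rfl
      · rfl
      · exact h.2.1
      · exact h.2.2 u hu
      · exact h.1) (by
      intro u hu
      simp only [List.mem_cons, List.mem_append, List.not_mem_nil, or_false] at hu
      rcases hu with rfl | rfl | hu | rfl
      · rfl
      · exact h'.2.1
      · exact h'.2.2 u hu
      · exact h'.1)
    rw [h1, even_b, zero_mul]
    simp only [List.length_cons, List.length_append, List.length_nil]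
    obtain ⟨k, hk⟩ := hfs
    exact ⟨k + 2, by omega⟩
  sel F hlr hF := nodeRt hn hfs hlr hF

/-! ## Lists of nodes -/

/-- the tokens of a node -/
def tk3 (n : T × List T × T) : List T := n.1 :: (n.2.1 ++ [n.2.2])

/-- the word of a node -/
def wn3 (s : T → Bool) (n : T × List T × T) : List (Bool × T) := wn s n.1 n.2.1 n.2.2

/-- one value -/
def on3 (V : T → B) (n : T × List T × T) : Prop := onv V n.1 n.2.1 n.2.2

lemma nodup_ms {n : T × List T × T} (h : (tk3 n).Nodup) : n.2.1.Nodup :=
  (List.nodup_append.1 (List.nodup_cons.1 h).2).1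

/-- the nodes of a list of triples -/
def nds : (ns : List (T × List T × T)) → (ns.flatMap tk3).Nodup →
    (∀ n ∈ ns, Even n.2.1.length) → List (Nd T)
  | [], _, _ => []
  | n :: ns, h, he =>
    ndA n.1 n.2.1 n.2.2 (nodup_ms (List.nodup_append.1 (by simpa using h)).1)
      (he n List.mem_cons_self) ::
    nds ns (List.nodup_append.1 (by simpa using h)).2.1
      (fun m hm => he m (List.mem_cons_of_mem _ hm))

lemma mem_nds {ns : List (T × List T × T)} : ∀ (h : (ns.flatMap tk3).Nodup)
    (he : ∀ n ∈ ns, Even n.2.1.length) (d : Nd T), d ∈ nds ns h he →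
    ∃ n ∈ ns, d.tok = tk3 n ∧ (∀ s, d.C s ↔ Alt s n.2.1) ∧ (∀ s V, d.N s V ↔ Cl V (wn3 s n)) ∧
      (∀ V, d.M V ↔ on3 V n) ∧ ∀ V, d.H V := by
  induction ns with
  | nil => intro h he d hd; simp [nds] at hd
  | cons n ns ih =>
    intro h he d hd
    rw [nds] at hd
    rcases List.mem_cons.1 hd with rfl | hd
    · exact ⟨n, List.mem_cons_self, rfl, fun _ => Iff.rfl, fun _ _ => Iff.rfl, fun _ => Iff.rfl,
        fun _ => trivial⟩
    · obtain ⟨m, hm, h1⟩ := ih _ _ d hd
      exact ⟨m, List.mem_cons_of_mem _ hm, h1⟩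

lemma nds_mem {ns : List (T × List T × T)} : ∀ (h : (ns.flatMap tk3).Nodup)
    (he : ∀ n ∈ ns, Even n.2.1.length) (n : T × List T × T), n ∈ ns →
    ∃ d ∈ nds ns h he, d.tok = tk3 n ∧ (∀ s, d.C s ↔ Alt s n.2.1) ∧
      (∀ s V, d.N s V ↔ Cl V (wn3 s n)) ∧ (∀ V, d.M V ↔ on3 V n) ∧ ∀ V, d.H V := by
  induction ns with
  | nil => intro h he n hn; simp at hn
  | cons m ns ih =>
    intro h he n hn
    rcases List.mem_cons.1 hn with rfl | hn
    · refine ⟨_, by rw [nds]; exact List.mem_cons_self, rfl, fun _ => Iff.rfl, fun _ _ => Iff.rfl,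
        fun _ => Iff.rfl, fun _ => trivial⟩
    · obtain ⟨d, hd, h1⟩ := ih (List.nodup_append.1 (by simpa using h)).2.1
        (fun m hm => he m (List.mem_cons_of_mem _ hm)) n hn
      exact ⟨d, by rw [nds]; exact List.mem_cons_of_mem _ hd, h1⟩

lemma nds_tok {ns : List (T × List T × T)} : ∀ (h : (ns.flatMap tk3).Nodup)
    (he : ∀ n ∈ ns, Even n.2.1.length), (nds ns h he).flatMap (fun d => d.tok) =
      ns.flatMap tk3 := by
  induction ns with
  | nil => intro h he; rfl
  | cons n ns ih =>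
    intro h he
    rw [nds, List.flatMap_cons, List.flatMap_cons, ih]
    rfl

lemma pw_of_nodup {ds : List (Nd T)} (h : (ds.flatMap fun d => d.tok).Nodup) :
    ds.Pairwise fun n m => ∀ t ∈ n.tok, t ∉ m.tok := by
  induction ds with
  | nil => exact List.Pairwise.nil
  | cons d ds ih =>
    rw [List.flatMap_cons] at h
    obtain ⟨h1, h2, h3⟩ := List.nodup_append.1 h
    refine List.Pairwise.cons ?_ (ih h2)
    intro m hm t ht ht'
    exact h3 t ht t (List.mem_flatMap.2 ⟨m, hm, ht'⟩) rfl

/-- **(A1)** the choice of the signs for a list of nodes -/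
theorem selA (ns : List (T × List T × T)) (hn : (ns.flatMap tk3).Nodup)
    (he : ∀ n ∈ ns, Even n.2.1.length) (F : Set (T → B))
    (hF : ∀ V ∈ F, ∀ V' ∈ F, sp V V' (ns.flatMap tk3) = 0) :
    ∃ s : T → Bool, (∀ n ∈ ns, Alt s n.2.1) ∧
      ∀ V ∈ F, (∀ n ∈ ns, Cl V (wn3 s n)) → ∀ n ∈ ns, on3 V n := by
  obtain ⟨s, h1, h2⟩ := sel_all (nds ns hn he) (pw_of_nodup (by rw [nds_tok]; exact hn)) F
    (fun V _ d hd => by
      obtain ⟨n, _, _, _, _, _, h⟩ := mem_nds hn he d hd
      exact h V)
    (fun V hV V' hV' => by rw [sps_eq, nds_tok]; exact hF V hV V' hV')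
  refine ⟨s, ?_, ?_⟩
  · intro n hn'
    obtain ⟨d, hd, _, hC, _⟩ := nds_mem hn he n hn'
    exact (hC s).1 (h1 d hd)
  · intro V hV hN n hn'
    obtain ⟨d, hd, _, _, _, hM, _⟩ := nds_mem hn he n hn'
    refine (hM V).1 (h2 V hV ?_ d hd)
    intro d' hd'
    obtain ⟨n', hn'', _, _, hN', _⟩ := mem_nds hn he d' hd'
    exact (hN' s V).2 (hN n' hn'')

/-- **(A3)** the same with one root node `l, x, fs, r`, `V l = V r` -/
theorem selR (ns : List (T × List T × T)) (l x : T) (fs : List T) (r : T)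
    (hn : ((l :: x :: (fs ++ [r])) ++ ns.flatMap tk3).Nodup) (hfs : Odd fs.length)
    (he : ∀ n ∈ ns, Even n.2.1.length) (F : Set (T → B)) (hlr : ∀ V ∈ F, V l = V r)
    (hF : ∀ V ∈ F, ∀ V' ∈ F, sp V V' ((l :: x :: (fs ++ [r])) ++ ns.flatMap tk3) = 0) :
    ∃ s : T → Bool, (∀ n ∈ ns, Alt s n.2.1) ∧ AltR s fs ∧
      ∀ V ∈ F, (∀ n ∈ ns, Cl V (wn3 s n)) → Cl V (wr s l x fs r) →
        (∀ n ∈ ns, on3 V n) ∧ V r = V l ∧ V x = V l ∧ ∀ u ∈ fs, V u = V l := by
  obtain ⟨hn1, hn2, -⟩ := List.nodup_append.1 hn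
  have hfs' : fs.Nodup :=
    (List.nodup_append.1 (List.nodup_cons.1 (List.nodup_cons.1 hn1).2).2).1
  obtain ⟨s, h1, h2⟩ := sel_all (ndR l x fs r hfs' hfs :: nds ns hn2 he)
    (pw_of_nodup (by rw [List.flatMap_cons, nds_tok]; exact hn)) F
    (fun V hV d hd => by
      rcases List.mem_cons.1 hd with rfl | hd
      · exact hlr V hV
      · obtain ⟨n, _, _, _, _, _, h⟩ := mem_nds hn2 he d hd
        exact h V)
    (fun V hV V' hV' => by
      rw [sps_eq, List.flatMap_cons, nds_tok]; exact hF V hV V' hV')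
  refine ⟨s, ?_, h1 _ List.mem_cons_self, ?_⟩
  · intro n hn'
    obtain ⟨d, hd, _, hC, _⟩ := nds_mem hn2 he n hn'
    exact (hC s).1 (h1 d (List.mem_cons_of_mem _ hd))
  · intro V hV hN hR
    have key := h2 V hV (by
      intro d' hd'
      rcases List.mem_cons.1 hd' with rfl | hd'
      · exact hR
      · obtain ⟨n', hn'', _, _, hN', _⟩ := mem_nds hn2 he d' hd'
        exact (hN' s V).2 (hN n' hn''))
    refine ⟨?_, key _ List.mem_cons_self⟩
    intro n hn'
    obtain ⟨d, hd, _, _, _, hM, _⟩ := nds_mem hn2 he n hn'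
    exact (hM V).1 (key d (List.mem_cons_of_mem _ hd))

/-! ## Rotations and dropped links -/

/-- **(A2)** the port node `l, x, fs` is the node `x, fs, l` -/
lemma cl_port {V : T → B} {s : T → Bool} {l x : T} {fs : List T}
    (h : Cl V ((true, l) :: (true, x) :: ml s fs)) : Cl V (wn s x fs l) := by
  have h1 : Cl V ([(true, l)] ++ ((true, x) :: ml s fs)) := h
  exact h1.rot

/-- a cancelling pair at the end of the word -/
lemma cl_cancel {V : T → B} {w : List (Bool × T)} {l r : T} :
    Cl V (w ++ [(false, r), (true, l)]) ↔ V l = V r ∧ Cl V w := by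
  constructor
  · rintro ⟨S, h, hd⟩
    rw [lv_append, run_append] at h
    obtain ⟨S₁, h1, h2⟩ := h
    have h3 : V l = V r ∧ tl (push (V r) S₁) = S := h2
    refine ⟨h3.1, S, ?_, hd⟩
    rw [tl_push] at h3
    rw [← h3.2] at h1 ⊢
    exact h1
  · rintro ⟨h1, S, h, hd⟩
    refine ⟨S, ?_, hd⟩
    rw [lv_append, run_append]
    exact ⟨S, h, h1, tl_push _ _⟩

/-- dropped own link: the node `x, us ++ [r], l` with the sign `-` at `r` -/
lemma cl_drop {V : T → B} {s : T → Bool} {l x r : T} {us : List T} (hr : s r = false) :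
    Cl V (wn s x (us ++ [r]) l) ↔ V l = V r ∧ Cl V ((true, x) :: ml s us) := by
  rw [← cl_cancel]
  unfold wn
  rw [ml_append, ml_cons, ml_nil, hr]
  simp

end Pool.Agent.MP42.PD
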