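import Pool.Agent.MP42.PD.HasVl
import Pool.Agent.MP42.PD.ExDom

/-!
# Connected bounded stack structures exist (owner helper30)
-/

set_option autoImplicit false
set_option linter.unusedSectionVars false

namespace Pool.Agent.MP42.PD

open Pool.Agent.MP42.U

variable {C J α : Type*} [LinearOrder α] [Fintype C] [Fintype J]

/-- closed levels -/
theorem conn_closed (D : Contour C α) (cls : C → Prop) (S : Stars D cls J) :
    ∃ x, (lvC D cls S).Dom 4 x ∧ (lvC D cls S).Conn 4 x :=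
  Lv.exists_dom_conn _ (by norm_num)
    (Lv.exists_dom_closed _ (K := 4) le_rfl (fun _ => Iff.rfl) (lvC_cp D cls S))

/-- top levels -/
theorem conn_top (D : Contour C α) (cls : C → Prop) (S : Stars D cls J) (g1 : C)
    (hg : g1 ≠ D.r) (hp : D.par g1 = D.r) (hc : cls g1 ↔ ¬ cls D.r)
    (h1 : cls D.r → D.hi g1 = D.hi D.r) (h2 : ¬ cls D.r → D.lo g1 = D.lo D.r) :
    ∃ x, (lvT D cls S g1 hg hp hc h1 h2).Dom 4 x ∧ (lvT D cls S g1 hg hp hc h1 h2).Conn 4 x :=
  Lv.exists_dom_conn _ (by norm_num)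
    (Lv.exists_dom_top _ (K := 4) le_rfl g1 hg (fun _ => Iff.rfl)
      (lvT_cp D cls S g1 hg hp hc h1 h2).1 (lvT_cp D cls S g1 hg hp hc h1 h2).2)

end Pool.Agent.MP42.PD
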