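import Pool.Agent.MP42.PD.Defs

/-!
# The largest labelling (owner helper1)

If the class graph is not connected, then there are fixed attachments `φ` of the riders and a largest
labelling for them with the value `0` at the root; it is not zero.
-/

set_option autoImplicit false
set_option linter.unusedSectionVars false

namespace Pool.Agent.MP42.PD

open Pool.Agent.MP42.U

/-! ## The supremum of a family -/

section Sup

variable {P : Type*}

open Classical in
/-- supremum of the values -/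
noncomputable def sp1 (F : P → Prop) (g : P → ZMod 2) : ZMod 2 := if ∃ p, F p ∧ g p = 1 then 1 else 0

lemma sp1_congr {F : P → Prop} {g g' : P → ZMod 2} (h : ∀ p, F p → g p = g' p) :
    sp1 F g = sp1 F g' := by
  classical
  unfold sp1
  congr 1
  exact propext ⟨fun ⟨p, h1, h2⟩ => ⟨p, h1, (h p h1) ▸ h2⟩,
    fun ⟨p, h1, h2⟩ => ⟨p, h1, (h p h1).trans h2⟩⟩

lemma sp1_zero {F : P → Prop} {g : P → ZMod 2} (h : ∀ p, F p → g p = 0) : sp1 F g = 0 := by
  classical
  unfold sp1
  rw [if_neg]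
  rintro ⟨p, h1, h2⟩
  rw [h p h1] at h2
  exact absurd h2 (by decide)

lemma sp1_one {F : P → Prop} {g : P → ZMod 2} {p : P} (h : F p) (h1 : g p = 1) : sp1 F g = 1 := by
  classical
  unfold sp1
  rw [if_pos ⟨p, h, h1⟩]

lemma WOk.sup {K : ℕ} {w : ℕ → Lt} {n : ℕ} {F : P → Prop} {v : P → ℕ → ZMod 2} {a e : P → ZMod 2}
    (h : ∀ p, F p → WOk K w n (v p) (a p) (e p)) :
    WOk K w n (fun t => sp1 F fun p => v p t) (sp1 F a) (sp1 F e) where
  port t ht hw := by
    unfold tv
    rcases hs : (stk K w t).head? with _ | i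
    · exact sp1_congr fun p hp => by
        have := (h p hp).port t ht hw
        rw [tv, hs] at this
        exact this
    · exact sp1_congr fun p hp => by
        have := (h p hp).port t ht hw
        rw [tv, hs] at this
        exact this
  unit t ht hw A B l hs hl :=
    ⟨sp1_congr fun p hp => ((h p hp).unit t ht hw A B l hs hl).1,
      sp1_congr fun p hp => ((h p hp).unit t ht hw A B l hs hl).2⟩
  pend i hi := sp1_congr fun p hp => (h p hp).pend i hi
  base hl := sp1_congr fun p hp => (h p hp).base hl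

end Sup

/-- change of the values -/
lemma WOk.map {K : ℕ} {w : ℕ → Lt} {n : ℕ} {v v' : ℕ → ZMod 2} {a e a' e' : ZMod 2}
    (g : ZMod 2 → ZMod 2) (h : WOk K w n v a e) (hv : ∀ t < n, v' t = g (v t)) (ha : a' = g a)
    (he : e' = g e) : WOk K w n v' a' e' where
  port t ht hw := by
    have h1 := h.port t ht hw
    unfold tv at h1 ⊢
    rcases hs : stk K w t with _ | ⟨i, l⟩
    · rw [hs] at h1
      rw [hv t ht, h1, he]
      rfl
    · rw [hs] at h1
      have hi : i < t := stk_lt (K := K) (w := w) (by rw [hs]; simp)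
      rw [hv t ht, h1]
      exact (hv i (hi.trans ht)).symm
  unit t ht hw F G l hs hl := by
    obtain ⟨h1, h2⟩ := h.unit t ht hw F G l hs hl
    have hF : F < t := stk_lt (K := K) (w := w) (by rw [hs]; simp)
    have hG : G < t := stk_lt (K := K) (w := w) (by rw [hs]; simp)
    rw [hv t ht, hv F (hF.trans ht), hv G (hG.trans ht), h1, h2]
    exact ⟨rfl, rfl⟩
  pend i hi := by rw [hv i (stk_lt hi), h.pend i hi, ha]
  base hl := by rw [he, ha, h.base hl]

/-- the attachments are openers of the stack or the base -/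
lemma Lam.mem {K : ℕ} {w : ℕ → Lt} {n t i : ℕ} (h : Lam K w n t (some i)) : i ∈ stk K w t := by
  rcases h with h | ⟨-, h⟩ | ⟨h, -⟩
  · rcases hs : stk K w t with _ | ⟨j, l⟩
    · rw [hs] at h; simp at h
    · rw [hs] at h
      simp only [List.head?_cons, Option.some.injEq] at h
      rw [h]; simp
  · exact List.mem_of_getElem? h.symm
  · cases h

namespace Lv

variable {C J α : Type*} [LinearOrder α] [Fintype J] (L : Lv C J α) (K : ℕ) (x : J → Bool)

/-- labellings with fixed attachments of the riders -/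
structure SolF (φ : C → ℕ → Option ℕ) (V : α ⊕ C → ZMod 2) (E : C → ZMod 2) : Prop extends
    L.Sol0 K x V E where
  rd : ∀ z, ∀ t < L.n z, L.rid x z t → L.vv V z t = cv (L.vv V z) (E z) (φ z t)

variable {L K x}

lemma it_some {z : C} {t : ℕ} (ht : t < L.n z) : ∃ i, L.it z t = some i :=
  ⟨_, List.getElem?_eq_getElem ht⟩

lemma vv_map (g : ZMod 2 → ZMod 2) (V : α ⊕ C → ZMod 2) {z : C} {t : ℕ} (ht : t < L.n z) :
    L.vv (fun i => g (V i)) z t = g (L.vv V z t) := by
  obtain ⟨i, hi⟩ := it_some ht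
  simp [vv, hi]

/-- change of the values of a labelling -/
lemma SolF.map {φ : C → ℕ → Option ℕ} {V : α ⊕ C → ZMod 2} {E : C → ZMod 2}
    (h : L.SolF K x φ V E) (hφ : ∀ z, ∀ t < L.n z, L.rid x z t → Lam K (L.w x z) (L.n z) t (φ z t))
    (g : ZMod 2 → ZMod 2) : L.SolF K x φ (fun i => g (V i)) (fun z => g (E z)) where
  star j := congrArg g (h.star j)
  ok z := (h.ok z).map g (fun t ht => vv_map g V ht) rfl rfl
  sp z hz := congrArg g (h.sp z hz)
  rd z t ht hr := by
    rw [vv_map g V ht, h.rd z t ht hr]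
    have hL := hφ z t ht hr
    rcases hs : φ z t with _ | i
    · rfl
    · rw [hs] at hL
      exact (vv_map g V ((stk_lt hL.mem).trans ht)).symm

lemma vv_sup (F : (α ⊕ C → ZMod 2) × (C → ZMod 2) → Prop) (z : C) (t : ℕ) :
    L.vv (fun i => sp1 F fun p => p.1 i) z t = sp1 F fun p => L.vv p.1 z t := by
  rcases hi : L.it z t with _ | i
  · simp only [vv, hi]
    exact (sp1_zero fun _ _ => rfl).symm
  · simp only [vv, hi]

/-- supremum of labellings -/
lemma SolF.sup {φ : C → ℕ → Option ℕ} (F : (α ⊕ C → ZMod 2) × (C → ZMod 2) → Prop)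
    (h : ∀ p, F p → L.SolF K x φ p.1 p.2) :
    L.SolF K x φ (fun i => sp1 F fun p => p.1 i) (fun z => sp1 F fun p => p.2 z) where
  star j := sp1_congr fun p hp => (h p hp).star j
  ok z := by
    have h1 := WOk.sup (K := K) (w := L.w x z) (n := L.n z) (F := F)
      (v := fun p t => L.vv p.1 z t) (a := fun p => p.1 (.inr z)) (e := fun p => p.2 z)
      (fun p hp => (h p hp).ok z)
    have e : L.vv (fun i => sp1 F fun p => p.1 i) z = fun t => sp1 F fun p => L.vv p.1 z t :=
      funext fun t => vv_sup F z t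
    rw [e]
    exact h1
  sp z hz := sp1_congr fun p hp => (h p hp).sp z hz
  rd z t ht hr := by
    rw [vv_sup]
    rcases hs : φ z t with _ | i
    · exact sp1_congr fun p hp => by
        have := (h p hp).rd z t ht hr
        rw [hs] at this
        exact this
    · show _ = L.vv _ z i
      rw [vv_sup]
      exact sp1_congr fun p hp => by
        have := (h p hp).rd z t ht hr
        rw [hs] at this
        exact this

/-- **the largest labelling** -/
theorem exists_max (hC : ¬ L.Conn K x) : ∃ (φ : C → ℕ → Option ℕ) (V : α ⊕ C → ZMod 2)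
    (E : C → ZMod 2),
    (∀ z, ∀ t < L.n z, L.rid x z t → Lam K (L.w x z) (L.n z) t (φ z t)) ∧
    L.SolF K x φ V E ∧ V (.inr L.Ct.r) = 0 ∧
    ((∃ j, V (.inl (L.S.y j)) = 1) ∨ ∃ z, V (.inr z) = 1) ∧
    ∀ V' E', L.SolF K x φ V' E' → V' (.inr L.Ct.r) = 0 → ∀ i, V' i = 1 → V i = 1 := by
  classical
  unfold Conn at hC
  push Not at hC
  obtain ⟨V, E, hS, hne⟩ := hC
  -- attachments
  have hex : ∀ z t, ∃ κ, (t < L.n z → L.rid x z t → Lam K (L.w x z) (L.n z) t κ ∧
      L.vv V z t = cv (L.vv V z) (E z) κ) := by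
    intro z t
    by_cases h : t < L.n z ∧ L.rid x z t
    · obtain ⟨κ, h1, h2⟩ := hS.rider z t h.1 h.2
      exact ⟨κ, fun _ _ => ⟨h1, h2⟩⟩
    · exact ⟨none, fun h1 h2 => absurd ⟨h1, h2⟩ h⟩
  choose φ hφ using hex
  have hφ1 : ∀ z, ∀ t < L.n z, L.rid x z t → Lam K (L.w x z) (L.n z) t (φ z t) :=
    fun z t ht hr => (hφ z t ht hr).1
  have hF : L.SolF K x φ V E := ⟨hS.toSol0, fun z t ht hr => (hφ z t ht hr).2⟩
  -- value 0 at the root
  have hF0 := hF.map hφ1 (fun a => a + V (.inr L.Ct.r))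
  have h00 : V (.inr L.Ct.r) + V (.inr L.Ct.r) = 0 := CharTwo.add_self_eq_zero _
  set V0 : α ⊕ C → ZMod 2 := fun i => V i + V (.inr L.Ct.r) with hV0
  have hne0 : (∃ j, V0 (.inl (L.S.y j)) = 1) ∨ ∃ z, V0 (.inr z) = 1 := by
    have z2 : ∀ a b : ZMod 2, a ≠ b → a + b = 1 := by decide
    by_cases hj : ∀ j, V (.inl (L.S.y j)) = V (.inr L.Ct.r)
    · obtain ⟨z, hz⟩ := hne hj
      exact Or.inr ⟨z, z2 _ _ hz⟩
    · push Not at hj
      obtain ⟨j, hj⟩ := hj
      exact Or.inl ⟨j, z2 _ _ hj⟩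
  -- the supremum
  let F : (α ⊕ C → ZMod 2) × (C → ZMod 2) → Prop :=
    fun p => L.SolF K x φ p.1 p.2 ∧ p.1 (.inr L.Ct.r) = 0
  have hm : F (V0, fun z => E z + V (.inr L.Ct.r)) := ⟨hF0, h00⟩
  refine ⟨φ, fun i => sp1 F fun p => p.1 i, fun z => sp1 F fun p => p.2 z, hφ1,
    SolF.sup F fun p hp => hp.1, sp1_zero fun p hp => hp.2, ?_, ?_⟩
  · rcases hne0 with ⟨j, hj⟩ | ⟨z, hz⟩
    · exact Or.inl ⟨j, sp1_one hm hj⟩
    · exact Or.inr ⟨z, sp1_one hm hz⟩
  · intro V' E' h1 h2 i hi
    exact sp1_one (p := (V', E')) ⟨h1, h2⟩ hi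

end Lv

end Pool.Agent.MP42.PD
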