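import Pool.Agent.MP42.PD.WS

/-!
# Project MP42, bounded stack: the walk (owner helper67)

Nodes `J ⊕ C`: a port or an own link.  `Gd`: nodes with gap value `1`; `Kind e e'`: after the node
`e` the walk enters a circle and leaves it by `e'`.
-/

set_option autoImplicit false
set_option linter.unusedSectionVars false

namespace Pool.Agent.MP42.PD.WS

variable {J C : Type*} [Fintype J] [Fintype C] {S : WS J C} {x : J → Bool} {K : ℕ}

/-- circle of the node -/
def loc (S : WS J C) (x : J → Bool) : J ⊕ C → C := Sum.elim (fun j => S.ci j (x j)) id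

/-- circle entered after the node -/
def ent (S : WS J C) (x : J → Bool) : J ⊕ C → C := Sum.elim (fun j => S.ci j (!x j)) S.par

/-- slot entered after the node -/
def en (S : WS J C) (x : J → Bool) : J ⊕ C → ℕ := Sum.elim (fun j => S.ps j (!x j)) S.pc

/-- good nodes -/
def Gd (A : S.Vl K x) : J ⊕ C → Prop
  | .inl j => A.F (S.ci j (x j)) (S.ps j (x j)) = 1
  | .inr c => ¬ S.Rt c ∧ ((∃ G, G ∈ stk K (S.W x c) (S.len c)) ∨ S.lam K x c ≤ 1) ∧
      (A.f0 c = 1 ∨ A.vA c = 1)

/-- the pass from `e` to `e'` -/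
def Kind (S : WS J C) (K : ℕ) (x : J → Bool) (e : J ⊕ C) : J ⊕ C → Prop
  | .inl j' => S.ci j' (x j') = S.ent x e ∧
      ((∃ F l, stk K (S.W x (S.ent x e)) (S.ps j' (x j')) = F :: l ∧ F ≤ S.en x e ∧
          S.en x e < S.ps j' (x j')) ∨
        (S.lam K x (S.ent x e) = 2 ∧
          S.ps j' (x j') ∈ lo K (S.W x (S.ent x e)) (S.len (S.ent x e)) ∧
          ∀ j, e = .inl j → stk K (S.W x (S.ent x e)) (S.en x e) = []))
  | .inr c' => c' = S.ent x e ∧
      ((∃ G ∈ stk K (S.W x (S.ent x e)) (S.len (S.ent x e)), G ≤ S.en x e) ∨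
        S.lam K x (S.ent x e) ≤ 1)

lemma zc (a : ZMod 2) : a = 0 ∨ a = 1 := by revert a; decide

/-- from exits to nodes -/
lemma node_of (A : S.Vl K x) {e : J ⊕ C} {s : ℕ} (hs : s = S.en x e ∨ s = S.en x e + 1)
    (hz : S.W x (S.ent x e) (S.en x e) ≠ .o)
    (h : (∃ X, ExitC K (S.W x (S.ent x e)) (S.len (S.ent x e)) (A.F (S.ent x e)) s X) ∨
      Climb K (S.W x (S.ent x e)) (S.len (S.ent x e)) (A.vA (S.ent x e)) (A.f0 (S.ent x e)) s ∨
      ((∀ j, e = .inl j → stk K (S.W x (S.ent x e)) (S.en x e) = []) ∧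
        ∃ Z, ExitL K (S.W x (S.ent x e)) (S.len (S.ent x e)) (A.F (S.ent x e)) Z)) :
    ∃ e', Gd A e' ∧ Kind S K x e e' := by
  rcases h with ⟨X, h⟩ | h | ⟨he, Z, h⟩
  · obtain ⟨F, l, h1, h2⟩ := h.F
    obtain ⟨j', h3, h4⟩ := W_o h.port
    have h5 := h.le
    have h6 : X ≠ S.en x e := fun h' => hz (by rw [← h']; exact h.port)
    refine ⟨.inl j', ?_, h3, Or.inl ⟨F, l, ?_, ?_, ?_⟩⟩
    · show A.F (S.ci j' (x j')) (S.ps j' (x j')) = 1
      rw [h3, h4]; exact h.one
    · rw [h4]; exact h1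
    · omega
    · rw [h4]; omega
  · obtain ⟨h1, h2⟩ := h
    refine ⟨.inr (S.ent x e), ⟨?_, ?_, h2⟩, rfl, ?_⟩
    · intro hR
      obtain ⟨h3, h4⟩ := A.root _ hR
      rw [h3, h4] at h2
      revert h2; decide
    · rcases h1 with ⟨G, h1, -⟩ | h1
      · exact Or.inl ⟨G, h1⟩
      · exact Or.inr h1
    · rcases h1 with ⟨G, h1, h3⟩ | h1
      · exact Or.inl ⟨G, h1, by omega⟩
      · exact Or.inr h1
  · obtain ⟨h1, h2, h3⟩ := h
    obtain ⟨j', h4, h5⟩ := W_o (mem_lo.1 h2).2.1
    refine ⟨.inl j', ?_, h4, Or.inr ⟨h1, ?_, he⟩⟩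
    · show A.F (S.ci j' (x j')) (S.ps j' (x j')) = 1
      rw [h4, h5]; exact h3
    · rw [h5]; exact h2

/-- **one step of the walk** -/
theorem exists_next (A : S.Vl K x) (hK : 3 ≤ K) (h2 : ∀ z, S.lam K x z ≤ 2) (e : J ⊕ C)
    (he : Gd A e) : ∃ e', Gd A e' ∧ Kind S K x e e' := by
  rcases e with j | c
  · have h1 : A.F (S.ci j (!x j)) (S.ps j (!x j)) = 1 := by
      have hw := A.win j
      have he' : A.F (S.ci j (x j)) (S.ps j (x j)) = 1 := he
      unfold Vl.F at he' ⊢
      cases hx : x j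
      · rw [hx] at he'
        exact hw.symm.trans he'
      · rw [hx] at he'
        exact hw.trans he'
    have hz : S.W x (S.ci j (!x j)) (S.ps j (!x j)) = .z := W_un j
    have ht : S.ps j (!x j) ≤ S.len (S.ci j (!x j)) := (S.ps_lt j _).le
    refine node_of A (s := S.ps j (!x j)) (Or.inl rfl) ?_ ?_
    · show S.W x (S.ci j (!x j)) (S.ps j (!x j)) ≠ .o
      rw [hz]; simp
    · rcases exit_gap (A.ok _) hK (h2 _) ht h1 with h | h | ⟨h, h'⟩
      · exact Or.inl h
      · exact Or.inr (Or.inl h)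
      · exact Or.inr (Or.inr ⟨fun _ _ => h, h'⟩)
  · obtain ⟨hc, hcl, hf⟩ := he
    have ht : S.pc c ≤ S.len (S.par c) := (S.pc_lt c hc).le
    have ht' : S.pc c + 1 ≤ S.len (S.par c) := S.pc_lt c hc
    have hin : ∀ j, (Sum.inr c : J ⊕ C) = .inl j →
        stk K (S.W x (S.par c)) (S.pc c) = [] := fun j h => by cases h
    by_cases ho : S.Od x c
    · obtain ⟨h3, h4⟩ := A.odd c hc ho
      have hw : S.W x (S.par c) (S.pc c) = .u := W_odd hc ho
      have hstep : A.F (S.par c) (S.pc c + 1) = A.F (S.par c) (S.pc c) + A.vA c := by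
        unfold Vl.F
        rw [fv, hw, if_neg (by simp), h3]
      have h5 : A.F (S.par c) (S.pc c) = 1 ∨ A.F (S.par c) (S.pc c + 1) = 1 := by
        change A.f0 c = A.F (S.par c) (S.pc c) ∨ A.f0 c = A.F (S.par c) (S.pc c + 1) at h4
        rcases zc (A.vA c) with h6 | h6
        · have h7 : A.f0 c = 1 := by
            rcases hf with h | h
            · exact h
            · rw [h6] at h; exact absurd h (by decide)
          rcases h4 with h4 | h4
          · exact Or.inl (by rw [← h4]; exact h7)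
          · exact Or.inr (by rw [← h4]; exact h7)
        · rcases zc (A.F (S.par c) (S.pc c)) with h7 | h7
          · right; rw [hstep, h7, h6]; decide
          · exact Or.inl h7
      rcases h5 with h5 | h5
      · refine node_of A (e := .inr c) (s := S.pc c) (Or.inl rfl) ?_ ?_
        · show S.W x (S.par c) (S.pc c) ≠ .o
          rw [hw]; simp
        · rcases exit_gap (A.ok _) hK (h2 _) ht h5 with h | h | ⟨h, h'⟩
          · exact Or.inl h
          · exact Or.inr (Or.inl h)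
          · exact Or.inr (Or.inr ⟨hin, h'⟩)
      · refine node_of A (e := .inr c) (s := S.pc c + 1) (Or.inr rfl) ?_ ?_
        · show S.W x (S.par c) (S.pc c) ≠ .o
          rw [hw]; simp
        · rcases exit_gap (A.ok _) hK (h2 _) ht' h5 with h | h | ⟨h, h'⟩
          · exact Or.inl h
          · exact Or.inr (Or.inl h)
          · exact Or.inr (Or.inr ⟨hin, h'⟩)
    · obtain ⟨h3, h4⟩ := A.even c hc ho
      have hw : S.W x (S.par c) (S.pc c) = .z := W_even hc ho
      refine node_of A (e := .inr c) (s := S.pc c) (Or.inl rfl) ?_ ?_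
      · show S.W x (S.par c) (S.pc c) ≠ .o
        rw [hw]; simp
      · rcases zc (A.f0 c) with h5 | h5
        · have h6 : A.vA c = 1 := hf.resolve_left (by rw [h5]; decide)
          have h7 : ¬ (S.lam K x c = 2 ∧ stk K (S.W x c) (S.len c) = []) := by
            rintro ⟨h8, h9⟩
            rcases hcl with ⟨G, hG⟩ | h10
            · rw [h9] at hG; exact absurd hG (by simp)
            · omega
          rcases exit_rider' (A.ok _) hK (h2 _) ht (h3.symm.trans h5) (h4 h6 h7) with h | h | h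
          · exact Or.inl h
          · exact Or.inr (Or.inl h)
          · exact Or.inr (Or.inr ⟨hin, h⟩)
        · rcases exit_gap (A.ok _) hK (h2 _) ht (h3.symm.trans h5) with h | h | ⟨h, h'⟩
          · exact Or.inl h
          · exact Or.inr (Or.inl h)
          · exact Or.inr (Or.inr ⟨hin, h'⟩)

/-- **the cycle of the walk** -/
theorem exists_cycle (A : S.Vl K x) (hK : 3 ≤ K) (h2 : ∀ z, S.lam K x z ≤ 2)
    (hne : ∃ j, A.F (S.ci j (x j)) (S.ps j (x j)) = 1) :
    ∃ (Z : Finset (J ⊕ C)) (nx : J ⊕ C → J ⊕ C), Z.Nonempty ∧ (∀ e ∈ Z, Gd A e) ∧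
      Set.BijOn nx Z Z ∧ ∀ e ∈ Z, Kind S K x e (nx e) := by
  classical
  let nx : J ⊕ C → J ⊕ C := fun e => if h : Gd A e then (exists_next A hK h2 e h).choose else e
  have hnx : ∀ e, Gd A e → Gd A (nx e) ∧ Kind S K x e (nx e) := by
    intro e he
    have : nx e = (exists_next A hK h2 e he).choose := dif_pos he
    rw [this]
    exact (exists_next A hK h2 e he).choose_spec
  obtain ⟨j, hj⟩ := hne
  obtain ⟨Z, h3, h4, h5⟩ := exists_bij (Gd A) nx (fun e he => (hnx e he).1) ⟨.inl j, hj⟩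
  exact ⟨Z, nx, h3, h4, h5, fun e he => (hnx e (h4 e he)).2⟩

lemma Kind.loc {e e' : J ⊕ C} (h : Kind S K x e e') : S.loc x e' = S.ent x e := by
  rcases e' with j' | c'
  · exact h.1
  · exact h.1

end Pool.Agent.MP42.PD.WS
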